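import Pool.Agent.Lib.MP_570070_gt.An.Defs

/-! Abstract form of the heat flow: the domain is a submodule of A × K. -/

open MeasureTheory Filter Topology Set
open scoped InnerProductSpace

namespace Pool.Agent.Lib.MP_570070_gt.An

noncomputable section

section

variable {A K A' K' : Type} [NormedAddCommGroup A] [InnerProductSpace ℝ A]
  [NormedAddCommGroup K] [InnerProductSpace ℝ K] [NormedAddCommGroup A'] [InnerProductSpace ℝ A']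
  [NormedAddCommGroup K'] [InnerProductSpace ℝ K']

def IsLap₂ (Γ : Submodule ℝ (A × K)) (u h : A) : Prop :=
  ∃ ξ, (u, ξ) ∈ Γ ∧ ∀ w ξ', (w, ξ') ∈ Γ → ⟪ξ, ξ'⟫_ℝ = ⟪h, w⟫_ℝ

def IsHeat₂ (Γ : Submodule ℝ (A × K)) (P : ℝ → A →L[ℝ] A) : Prop :=
  ∀ f, P 0 f = f ∧ ContinuousOn (fun t => P t f) (Ici 0) ∧
    ∀ t, 0 < t → ∃ h, IsLap₂ Γ (P t f) h ∧ HasDerivAt (fun s => P s f) (-h) t

/-- A non-negative multiplier. -/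
structure Wt (Γ : Submodule ℝ (A × K)) where
  M : A →L[ℝ] A
  M₁ : K →L[ℝ] K
  C : A →L[ℝ] K
  sym : ∀ u v, ⟪M u, v⟫_ℝ = ⟪u, M v⟫_ℝ
  sym₁ : ∀ u v, ⟪M₁ u, v⟫_ℝ = ⟪u, M₁ v⟫_ℝ
  pos : ∀ u, 0 ≤ ⟪M u, u⟫_ℝ
  pos₁ : ∀ ξ, 0 ≤ ⟪M₁ ξ, ξ⟫_ℝ
  mem : ∀ u ξ, (u, ξ) ∈ Γ → (M u, M₁ ξ + C u) ∈ Γ

/-- Data for the comparison of two heat traces at scale r: a is the bound for gradients of
cut-off functions, G ^ r bounds the number of pieces of the annulus. -/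
structure LocData (Γ : Submodule ℝ (A × K)) (Γ' : Submodule ℝ (A' × K')) (P : ℝ → A →L[ℝ] A)
    (S : Submodule ℝ A) (S' : Submodule ℝ A') (a G : ℝ) (r : ℕ) where
  /-- cut-off of the annulus -/
  N : A →L[ℝ] A
  N_sym : ∀ u v, ⟪N u, v⟫_ℝ = ⟪u, N v⟫_ℝ
  N_pos : ∀ u, 0 ≤ ⟪N u, u⟫_ℝ
  /-- cut-off of the middle ball -/
  ν : A →L[ℝ] A
  /-- exponential weights -/
  exp : ∀ ρ : ℝ, 1 ≤ ρ → ∃ (W : Wt Γ) (x₁ x₂ x₃ x₄ : ℝ), 0 ≤ x₁ ∧ 0 ≤ x₂ ∧ 0 ≤ x₃ ∧ 0 ≤ x₄ ∧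
    x₁ * x₂ ≤ (ρ ^ r)⁻¹ ∧ x₃ * x₄ ≤ (ρ ^ r)⁻¹ ∧
    (∀ u ξ, ⟪ξ, W.C u⟫_ℝ ^ 2 ≤ (a * (ρ - 1)) ^ 2 * ⟪W.M₁ ξ, ξ⟫_ℝ * ⟪W.M u, u⟫_ℝ) ∧
    (∀ z, ⟪N z, z⟫_ℝ ≤ x₁ * ⟪W.M z, z⟫_ℝ) ∧ (∀ z, ⟪W.M (ν z), ν z⟫_ℝ ≤ x₂ * ‖z‖ ^ 2) ∧
    (∀ z, ‖z - ν z‖ ^ 2 ≤ x₃ * ⟪W.M z, z⟫_ℝ) ∧ ∀ z ∈ S, ⟪W.M z, z⟫_ℝ ≤ x₄ * ‖z‖ ^ 2
  /-- the pieces that meet the annulus -/
  n : ℕ
  n_le : (n : ℝ) ≤ G ^ r
  Sp : Fin n → Submodule ℝ A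
  /-- Q i is the orthogonal projection to Sp i -/
  Q : Fin n → A →L[ℝ] A
  Q_mem : ∀ i z, Q i z ∈ Sp i
  Q_orth : ∀ i z, ∀ w ∈ Sp i, ⟪Q i z, w⟫_ℝ = ⟪z, w⟫_ℝ
  N_le : ∀ z, ⟪N z, z⟫_ℝ ≤ ∑ i, ‖Q i z‖ ^ 2
  tr_le : ∀ i t, 0 < t → trOn (Sp i : Set A) (P t) ≤ trOn (S : Set A) (P t)
  /-- cut-off of the far region -/
  Z : Wt Γ
  Z_C : ∀ u ξ, ⟪ξ, Z.C u⟫_ℝ ^ 2 ≤ a ^ 2 * ⟪Z.M₁ ξ, ξ⟫_ℝ * ⟪N u, u⟫_ℝ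
  Z_S : ∀ z ∈ S, ⟪Z.M z, z⟫_ℝ = 0
  /-- the transplant and its adjoint -/
  T : A →L[ℝ] A'
  T₁ : K →L[ℝ] K'
  C : A →L[ℝ] K'
  T' : A' →L[ℝ] A
  T₁' : K' →L[ℝ] K
  C' : A' →L[ℝ] K
  adj : ∀ u v, ⟪T u, v⟫_ℝ = ⟪u, T' v⟫_ℝ
  adj₁ : ∀ ξ ξ', ⟪T₁ ξ, ξ'⟫_ℝ = ⟪ξ, T₁' ξ'⟫_ℝ
  mem : ∀ u ξ, (u, ξ) ∈ Γ → (T u, T₁ ξ + C u) ∈ Γ'
  mem' : ∀ v ξ', (v, ξ') ∈ Γ' → (T' v, T₁' ξ' + C' v) ∈ Γ
  C_le : ∀ u ξ', ⟪C u, ξ'⟫_ℝ ^ 2 ≤ a ^ 2 * ⟪N u, u⟫_ℝ * ‖ξ'‖ ^ 2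
  C'_le : ∀ ξ v, ⟪ξ, C' v⟫_ℝ ^ 2 ≤ a ^ 2 * ⟪Z.M₁ ξ, ξ⟫_ℝ * ‖v‖ ^ 2
  T_le : ∀ u, ‖T u‖ ≤ ‖u‖
  le_T : ∀ u, ‖u‖ ^ 2 ≤ ‖T u‖ ^ 2 + ⟪Z.M u, u⟫_ℝ
  T_S : ∀ z ∈ S, T z ∈ S'
  T_onto : ∀ z' ∈ S', ∃ z ∈ S, T z = z'

/-- The translates of the fundamental domain under a finite group of symmetries. -/
structure Tiling (P : ℝ → A →L[ℝ] A) (S : Submodule ℝ A) (ι : Type) where
  U : ι → A ≃ₗᵢ[ℝ] A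
  comm : ∀ g t u, 0 ≤ t → P t (U g u) = U g (P t u)
  orth : ∀ g g', g ≠ g' → ∀ z ∈ S, ∀ z' ∈ S, ⟪U g z, U g' z'⟫_ℝ = 0
  closed : IsClosed (S : Set A)
  total : ∀ z, (∀ g, ∀ w ∈ S, ⟪U g w, z⟫_ℝ = 0) → z = 0

end

section

variable {H : ℕ → Type} [∀ k, NormedAddCommGroup (H k)] [∀ k, InnerProductSpace ℝ (H k)]
  (D : ∀ k, H k → H (k + 1) → Prop)

/-- The space of pairs (derivative, codifferential). -/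
abbrev KK (H : ℕ → Type) (k : ℕ) : Type := WithLp 2 (H (k + 1) × H (k - 1))

/-- The form domain as a submodule. -/
def domS (k : ℕ) : Submodule ℝ (H k × KK H k) where
  carrier := {z | (z.1, z.2.fst, z.2.snd) ∈ dom D k}
  add_mem' := by
    rintro ⟨u, ξ⟩ ⟨v, ζ⟩ ⟨h1, h2⟩ ⟨h3, h4⟩
    refine ⟨fun φ ψ hφ hψ => ?_, ?_⟩
    · have a := h1 φ ψ hφ hψ
      have b := h3 φ ψ hφ hψ
      simp only [Prod.fst_add, Prod.snd_add, WithLp.add_fst, inner_add_left] at a b ⊢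
      rw [a, b]
    · cases k with
      | zero =>
        have a : ξ.snd = 0 := h2
        have b : ζ.snd = 0 := h4
        change (ξ + ζ).snd = 0
        rw [WithLp.add_snd, a, b, add_zero]
      | succ k =>
        intro x y hxy
        have a : ⟪y, u⟫_ℝ = ⟪x, ξ.snd⟫_ℝ := h2 x y hxy
        have b : ⟪y, v⟫_ℝ = ⟪x, ζ.snd⟫_ℝ := h4 x y hxy
        change ⟪y, u + v⟫_ℝ = ⟪x, (ξ + ζ).snd⟫_ℝ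
        rw [WithLp.add_snd, inner_add_right, a, b]
        exact (inner_add_right _ _ _).symm
  zero_mem' := by
    refine ⟨fun φ ψ _ _ => ?_, ?_⟩
    · simp
    · cases k with
      | zero => rfl
      | succ k =>
        intro x y _
        change ⟪y, (0 : H (k + 1))⟫_ℝ = ⟪x, (0 : H k)⟫_ℝ
        simp
  smul_mem' := by
    rintro a ⟨u, ξ⟩ ⟨h1, h2⟩
    refine ⟨fun φ ψ hφ hψ => ?_, ?_⟩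
    · have b := h1 φ ψ hφ hψ
      simp only [Prod.smul_fst, Prod.smul_snd, WithLp.smul_fst, inner_smul_left] at b ⊢
      rw [b]
    · cases k with
      | zero =>
        have b : ξ.snd = 0 := h2
        change (a • ξ).snd = 0
        rw [WithLp.smul_snd, b, smul_zero]
      | succ k =>
        intro x y hxy
        have b : ⟪y, u⟫_ℝ = ⟪x, ξ.snd⟫_ℝ := h2 x y hxy
        change ⟪y, a • u⟫_ℝ = ⟪x, (a • ξ).snd⟫_ℝ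
        rw [WithLp.smul_snd, inner_smul_right, b]
        exact (inner_smul_right _ _ _).symm

theorem mem_domS {k : ℕ} {u : H k} {ξ : KK H k} :
    (u, ξ) ∈ domS D k ↔ WD D k u ξ.fst ∧ WCod' D k u ξ.snd := Iff.rfl

end

end

end Pool.Agent.Lib.MP_570070_gt.An
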