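import Pool.Agent.Lib.MP_570070_gt.An.ATail0

open MeasureTheory Filter Topology Set
open scoped InnerProductSpace

namespace Pool.Agent.Lib.MP_570070_gt.An

variable {A K A' K' : Type} [NormedAddCommGroup A] [InnerProductSpace ℝ A]
  [NormedAddCommGroup K] [InnerProductSpace ℝ K] [NormedAddCommGroup A'] [InnerProductSpace ℝ A']
  [NormedAddCommGroup K'] [InnerProductSpace ℝ K']
  {Γ : Submodule ℝ (A × K)} {Γ' : Submodule ℝ (A' × K')}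
  {P : ℝ → A →L[ℝ] A} {P' : ℝ → A' →L[ℝ] A'}

/-- The derivative of `⟪M u, u⟫` along the flow is `-2 * ⟪h, M u⟫`; use `W.mem`. -/
theorem Wt.hasDerivAt (W : Wt Γ) {u : ℝ → A} {ξ : K} {h : A} {t : ℝ} (hL : Lp Γ (u t) ξ h)
    (hd : HasDerivAt u (-h) t) : HasDerivAt (fun s => ⟪W.M (u s), u s⟫_ℝ)
      (-2 * ⟪W.M₁ ξ, ξ⟫_ℝ - 2 * ⟪ξ, W.C (u t)⟫_ℝ) t := by
  have h1 : HasDerivAt (fun s => W.M (u s)) (W.M (-h)) t := W.M.hasFDerivAt.comp_hasDerivAt t hd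
  have h2 := h1.inner ℝ hd
  have h3 := hL.2 _ _ (W.mem _ _ hL.1)
  rw [inner_add_right, real_inner_comm (W.M₁ ξ) ξ] at h3
  refine h2.congr_deriv ?_
  rw [W.sym (-h), inner_neg_left, inner_neg_right, real_inner_comm h (W.M (u t)), ← h3]
  ring

/-- If `y ^ 2 ≤ c * x * n` with `0 ≤ c, x, n` then `-2 * y ≤ x + c * n`. -/
theorem adg_amgm {x y n c : ℝ} (hx : 0 ≤ x) (hn : 0 ≤ n) (hc : 0 ≤ c) (h : y ^ 2 ≤ c * x * n) :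
    -2 * y ≤ x + c * n := by
  have h1 : 0 ≤ x + c * n := add_nonneg hx (mul_nonneg hc hn)
  refine le_trans (le_abs_self _) (abs_le_of_sq_le_sq' ?_ h1 |> abs_le.2)
  nlinarith [sq_nonneg (x - c * n)]

theorem adg_init (hP : IsHeat₂ Γ P) (M : A →L[ℝ] A) (u : A) :
    Tendsto (fun s => ⟪M (P s u), P s u⟫_ℝ) (𝓝[>] 0) (𝓝 ⟪M u, u⟫_ℝ) :=
  ((M.continuous.tendsto u).comp (hP.init u)).inner (hP.init u)

/-- Davies-Gaffney: `exp (-c s) * ⟪M u, u⟫` has derivative `≤ 0` (`le_of_deriv`). -/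
theorem Wt.dg (W : Wt Γ) (hP : IsHeat₂ Γ P) {c : ℝ} (hc : 0 ≤ c)
    (hW : ∀ u ξ, ⟪ξ, W.C u⟫_ℝ ^ 2 ≤ c * ⟪W.M₁ ξ, ξ⟫_ℝ * ⟪W.M u, u⟫_ℝ) {t : ℝ} (ht : 0 < t)
    (u : A) : ⟪W.M (P t u), P t u⟫_ℝ ≤ Real.exp (c * t) * ⟪W.M u, u⟫_ℝ := by
  have h0 : Tendsto (fun s => Real.exp (-c * s) * ⟪W.M (P s u), P s u⟫_ℝ) (𝓝[>] 0)
      (𝓝 ⟪W.M u, u⟫_ℝ) := by
    have h1 : Tendsto (fun s : ℝ => Real.exp (-c * s)) (𝓝[>] 0) (𝓝 1) := by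
      have : Continuous fun s : ℝ => Real.exp (-c * s) := by fun_prop
      simpa using (this.tendsto 0).mono_left nhdsWithin_le_nhds
    simpa using h1.mul (adg_init hP W.M u)
  have h := le_of_deriv ht h0 fun s hs _ => by
    obtain ⟨ξ, f, hL, hd⟩ := hP.flow u hs
    have h1 : HasDerivAt (fun s : ℝ => Real.exp (-c * s)) (Real.exp (-c * s) * -c) s := by
      simpa using ((hasDerivAt_id s).const_mul (-c)).exp
    refine ⟨_, h1.mul (W.hasDerivAt hL hd), ?_⟩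
    have h2 := adg_amgm (W.pos₁ ξ) (W.pos (P s u)) hc (hW (P s u) ξ)
    have h3 := W.pos₁ ξ
    have h4 := Real.exp_pos (-c * s)
    have h5 : -c * ⟪W.M (P s u), P s u⟫_ℝ +
        (-2 * ⟪W.M₁ ξ, ξ⟫_ℝ - 2 * ⟪ξ, W.C (P s u)⟫_ℝ) ≤ 0 := by linarith
    have h6 := mul_nonpos_of_nonneg_of_nonpos h4.le h5
    linarith
  have h1 : Real.exp (c * t) * Real.exp (-c * t) = 1 := by
    rw [← Real.exp_add]; simp
  calc ⟪W.M (P t u), P t u⟫_ℝ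
      = Real.exp (c * t) * (Real.exp (-c * t) * ⟪W.M (P t u), P t u⟫_ℝ) := by
        rw [← mul_assoc, h1, one_mul]
    _ ≤ _ := mul_le_mul_of_nonneg_left h (Real.exp_pos _).le

theorem adg_par {N : A →L[ℝ] A} (h : ∀ u, 0 ≤ ⟪N u, u⟫_ℝ) (y z : A) :
    ⟪N (y + z), y + z⟫_ℝ ≤ 2 * ⟪N y, y⟫_ℝ + 2 * ⟪N z, z⟫_ℝ := by
  have h1 := h (y - z)
  simp only [map_add, map_sub, inner_add_left, inner_add_right, inner_sub_left,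
    inner_sub_right] at h1 ⊢
  linarith

variable {S : Submodule ℝ A} {S' : Submodule ℝ A'} {a G : ℝ} {r : ℕ}

/-- `P s = B B` with `B = P (s / 2)`, `B e = ν (B e) + (B e - ν (B e))`,
`⟪N (y + z), y + z⟫ ≤ 2 ⟪N y, y⟫ + 2 ⟪N z, z⟫`. First part: `dg` and `x₁ x₂`, times
`∑ ‖B e‖ ^ 2 ≤ θ s` (`sum_sq_le`). Second part: `N_le` and `sandwich` with `Y = B - ν ∘L B`,
`c = x₃ * exp * x₄`, `θ` from `tr_le`. -/
theorem LocData.annulus (𝓛 : LocData Γ Γ' P S S' a G r) (hP : IsHeat₂ Γ P) {s : ℝ} (hs : 0 < s)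
    (hf : trOn (S : Set A) (P s) ≠ ⊤) {ρ : ℝ} (hρ : 1 ≤ ρ) {ι : Type} [Fintype ι] {e : ι → A}
    (he : Orthonormal ℝ e) (hS : ∀ j, e j ∈ S) :
    ∑ j, ⟪𝓛.N (P s (e j)), P s (e j)⟫_ℝ ≤ 2 * (1 + G ^ r) * (ρ ^ r)⁻¹ *
      Real.exp ((a * (ρ - 1)) ^ 2 * (s / 2)) * (trOn (S : Set A) (P s)).toReal := by
  obtain ⟨W, x₁, x₂, x₃, x₄, h₁, h₂, h₃, h₄, h12, h34, hC, hN, hν, hν', hM⟩ := 𝓛.exp ρ hρ
  have hs2 : 0 < s / 2 := half_pos hs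
  have hdg := fun u => W.dg hP (sq_nonneg _) hC hs2 u
  set E := Real.exp ((a * (ρ - 1)) ^ 2 * (s / 2)) with hE
  have hE0 : 0 < E := Real.exp_pos _
  set θ := (trOn (S : Set A) (P s)).toReal with hθ
  have hθ0 : 0 ≤ θ := ENNReal.toReal_nonneg
  set R := (ρ ^ r)⁻¹ with hR
  have hR0 : 0 ≤ R := (mul_nonneg h₁ h₂).trans h12
  set Y : A →L[ℝ] A := P (s / 2) - 𝓛.ν ∘L P (s / 2) with hY
  have hYe : ∀ z, Y z = P (s / 2) z - 𝓛.ν (P (s / 2) z) := fun z => rfl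
  have hsplit : ∀ z, P s z = P (s / 2) (𝓛.ν (P (s / 2) z)) + P (s / 2) (Y z) := fun z => by
    rw [← map_add, hYe, add_sub_cancel, ← hP.add hs2.le hs2.le, add_halves]
  have p1 : ∀ z, ⟪𝓛.N (P (s / 2) (𝓛.ν z)), P (s / 2) (𝓛.ν z)⟫_ℝ ≤ R * E * ‖z‖ ^ 2 := fun z =>
    calc _ ≤ x₁ * (E * (x₂ * ‖z‖ ^ 2)) :=
          (hN _).trans (mul_le_mul_of_nonneg_left
            ((hdg _).trans (mul_le_mul_of_nonneg_left (hν z) hE0.le)) h₁)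
      _ = x₁ * x₂ * (E * ‖z‖ ^ 2) := by ring
      _ ≤ R * (E * ‖z‖ ^ 2) := mul_le_mul_of_nonneg_right h12 (by positivity)
      _ = _ := by ring
  have p2 : ∀ z ∈ S, ‖Y z‖ ^ 2 ≤ R * E * ‖z‖ ^ 2 := fun z hz =>
    calc _ ≤ x₃ * (E * (x₄ * ‖z‖ ^ 2)) :=
          (hν' _).trans (mul_le_mul_of_nonneg_left
            ((hdg _).trans (mul_le_mul_of_nonneg_left (hM z hz) hE0.le)) h₃)
      _ = x₃ * x₄ * (E * ‖z‖ ^ 2) := by ring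
      _ ≤ R * (E * ‖z‖ ^ 2) := mul_le_mul_of_nonneg_right h34 (by positivity)
      _ = _ := by ring
  have hRE : 0 ≤ R * E := mul_nonneg hR0 hE0.le
  have q1 : ∑ j, ⟪𝓛.N (P (s / 2) (𝓛.ν (P (s / 2) (e j)))), P (s / 2) (𝓛.ν (P (s / 2) (e j)))⟫_ℝ ≤
      R * E * θ := by
    refine (Finset.sum_le_sum fun j _ => p1 _).trans ?_
    rw [← Finset.mul_sum]
    exact mul_le_mul_of_nonneg_left (hP.sum_sq_le hs.le hf he hS) hRE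
  have q2 : ∑ j, ⟪𝓛.N (P (s / 2) (Y (e j))), P (s / 2) (Y (e j))⟫_ℝ ≤ G ^ r * (R * E * θ) := by
    refine (Finset.sum_le_sum fun j _ => 𝓛.N_le _).trans ?_
    rw [Finset.sum_comm]
    have h : ∀ i, ∑ j, ‖𝓛.Q i (P (s / 2) (Y (e j)))‖ ^ 2 ≤ R * E * θ := fun i =>
      sandwich he hS hRE p2 (hP.symm hs2.le) (𝓛.Q_mem i) (𝓛.Q_orth i) fun m b hb hbS =>
        (hP.sum_sq_le hs.le (ne_top_of_le_ne_top hf (𝓛.tr_le i s hs)) hb hbS).trans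
          (ENNReal.toReal_mono hf (𝓛.tr_le i s hs))
    refine (Finset.sum_le_sum fun i _ => h i).trans ?_
    rw [Finset.sum_const, Finset.card_univ, Fintype.card_fin, nsmul_eq_mul]
    exact mul_le_mul_of_nonneg_right 𝓛.n_le (mul_nonneg hRE hθ0)
  calc ∑ j, ⟪𝓛.N (P s (e j)), P s (e j)⟫_ℝ
      ≤ ∑ j, (2 * ⟪𝓛.N (P (s / 2) (𝓛.ν (P (s / 2) (e j)))),
          P (s / 2) (𝓛.ν (P (s / 2) (e j)))⟫_ℝ +
          2 * ⟪𝓛.N (P (s / 2) (Y (e j))), P (s / 2) (Y (e j))⟫_ℝ) :=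
        Finset.sum_le_sum fun j _ => by
          rw [hsplit (e j)]
          exact adg_par 𝓛.N_pos _ _
    _ ≤ 2 * (R * E * θ) + 2 * (G ^ r * (R * E * θ)) := by
        rw [Finset.sum_add_distrib, ← Finset.mul_sum, ← Finset.mul_sum]
        linarith
    _ = _ := by ring

/-- `∑ j, ⟪Z u, u⟫ - s * (a ^ 2 * h)` has derivative `≤ 0`. -/
theorem LocData.far (𝓛 : LocData Γ Γ' P S S' a G r) (hP : IsHeat₂ Γ P) {ι : Type} [Fintype ι]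
    {e : ι → A} (hS : ∀ j, e j ∈ S) {τ h : ℝ} (hτ : 0 < τ)
    (hh : ∀ s, 0 < s → s ≤ τ → ∑ j, ⟪𝓛.N (P s (e j)), P s (e j)⟫_ℝ ≤ h) :
    ∑ j, ⟪𝓛.Z.M (P τ (e j)), P τ (e j)⟫_ℝ ≤ a ^ 2 * τ * h := by
  have h0 : Tendsto (fun s => ∑ j, ⟪𝓛.Z.M (P s (e j)), P s (e j)⟫_ℝ - s * (a ^ 2 * h)) (𝓝[>] 0)
      (𝓝 0) := by
    have h1 := tendsto_finsetSum Finset.univ fun j _ => adg_init hP 𝓛.Z.M (e j)
    have h2 : Tendsto (fun s : ℝ => s * (a ^ 2 * h)) (𝓝[>] 0) (𝓝 0) := by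
      have : Continuous fun s : ℝ => s * (a ^ 2 * h) := by fun_prop
      simpa using (this.tendsto 0).mono_left nhdsWithin_le_nhds
    simpa [𝓛.Z_S _ (hS _)] using h1.sub h2
  have h1 := le_of_deriv hτ h0 fun s hs hsτ => by
    choose ξ f hL hd using fun j => hP.flow (e j) hs
    have h2 := HasDerivAt.fun_sum fun j (_ : j ∈ Finset.univ) => 𝓛.Z.hasDerivAt (hL j) (hd j)
    refine ⟨_, h2.sub (hasDerivAt_mul_const (a ^ 2 * h)), ?_⟩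
    have h3 : ∑ j, (-2 * ⟪𝓛.Z.M₁ (ξ j), ξ j⟫_ℝ - 2 * ⟪ξ j, 𝓛.Z.C (P s (e j))⟫_ℝ) ≤
        ∑ j, a ^ 2 * ⟪𝓛.N (P s (e j)), P s (e j)⟫_ℝ := Finset.sum_le_sum fun j _ => by
      have h4 := adg_amgm (𝓛.Z.pos₁ (ξ j)) (𝓛.N_pos (P s (e j))) (sq_nonneg a) (𝓛.Z_C _ _)
      have h5 := 𝓛.Z.pos₁ (ξ j)
      linarith
    rw [← Finset.mul_sum] at h3
    have h4 := mul_le_mul_of_nonneg_left (hh s hs hsτ) (sq_nonneg a)
    linarith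
  linarith

end Pool.Agent.Lib.MP_570070_gt.An
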