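import Pool.Agent.Lib.MP_570070_gt.An.ADg

open MeasureTheory Filter Topology Set
open scoped InnerProductSpace

namespace Pool.Agent.Lib.MP_570070_gt.An

variable {A K A' K' : Type} [NormedAddCommGroup A] [InnerProductSpace ℝ A]
  [NormedAddCommGroup K] [InnerProductSpace ℝ K] [NormedAddCommGroup A'] [InnerProductSpace ℝ A']
  [NormedAddCommGroup K'] [InnerProductSpace ℝ K']
  {Γ : Submodule ℝ (A × K)} {Γ' : Submodule ℝ (A' × K')}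
  {P : ℝ → A →L[ℝ] A} {P' : ℝ → A' →L[ℝ] A'}

variable {S : Submodule ℝ A} {S' : Submodule ℝ A'} {a G : ℝ} {r : ℕ}

/-- The derivative is `⟪h', T u⟫ - ⟪T' v, h⟫`; use `mem`, `mem'`, `adj`, `adj₁`. -/
theorem LocData.pair_deriv (𝓛 : LocData Γ Γ' P S S' a G r) {u : ℝ → A} {v : ℝ → A'} {ξ : K}
    {ξ' : K'} {h : A} {h' : A'} {s : ℝ} (hL : Lp Γ (u s) ξ h) (hL' : Lp Γ' (v s) ξ' h')
    (hd : HasDerivAt u (-h) s) (hd' : HasDerivAt v h' s) :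
    HasDerivAt (fun x => ⟪v x, 𝓛.T (u x)⟫_ℝ) (⟪𝓛.C (u s), ξ'⟫_ℝ - ⟪ξ, 𝓛.C' (v s)⟫_ℝ) s := by
  have h1 : HasDerivAt (fun x => 𝓛.T (u x)) (𝓛.T (-h)) s :=
    𝓛.T.hasFDerivAt.comp_hasDerivAt s hd
  have h2 := hd'.inner ℝ h1
  have e1 := hL'.2 _ _ (𝓛.mem _ _ hL.1)
  have e2 := hL.2 _ _ (𝓛.mem' _ _ hL'.1)
  have e3 := 𝓛.adj₁ ξ ξ'
  have e4 := 𝓛.adj h (v s)
  refine h2.congr_deriv ?_
  rw [inner_add_right] at e1 e2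
  rw [map_neg, inner_neg_right, real_inner_comm (𝓛.T h) (v s), e4, ← e1, ← e2,
    real_inner_comm (𝓛.T₁ ξ) ξ', e3, real_inner_comm (𝓛.C (u s)) ξ']
  ring

theorem aduh_amgm {x y n c ε : ℝ} (hx : 0 ≤ x) (hn : 0 ≤ n) (hc : 0 ≤ c) (hε : 0 < ε)
    (h : y ^ 2 ≤ c * x * n) : y ≤ ε / 2 * n + c / (2 * ε) * x := by
  have h1 : (-y) ^ 2 ≤ c * (ε * n) * (x / ε) := by
    have : c * (ε * n) * (x / ε) = c * x * n := by field_simp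
    rw [this, neg_sq]; exact h
  have h2 := adg_amgm (mul_nonneg hε.le hn) (div_nonneg hx hε.le) hc h1
  have h3 : c / (2 * ε) * x = c * (x / ε) / 2 := by field_simp
  rw [h3]; linarith

/-- One term of the Lyapunov function. -/
theorem aduh_term (𝓛 : LocData Γ Γ' P S S' a G r) (hP : IsHeat₂ Γ P) (hP' : IsHeat₂ Γ' P')
    (e : A) (g : A') {τ s ε : ℝ} (hε : 0 < ε) (hs : 0 < s) (hsτ : s < τ) :
    ∃ d, HasDerivAt (fun x => ⟪P' (τ - x) g, 𝓛.T (P x e)⟫_ℝ - ε / 4 * ‖P' (τ - x) g‖ ^ 2 +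
        a ^ 2 / (2 * ε) * ⟪𝓛.Z.M (P x e), P x e⟫_ℝ) d s ∧
      d ≤ ε / 2 * ‖g‖ ^ 2 + a ^ 2 / (2 * ε) * (1 + a ^ 2) * ⟪𝓛.N (P s e), P s e⟫_ℝ := by
  obtain ⟨ξ, h, hL, hd⟩ := hP.flow e hs
  obtain ⟨ξ', h', hL', hd'⟩ := hP'.back g hsτ
  have d1 := 𝓛.pair_deriv (u := fun x => P x e) (v := fun x => P' (τ - x) g) hL hL' hd hd'
  have d2 := hd'.norm_sq
  have d3 := 𝓛.Z.hasDerivAt (u := fun x => P x e) hL hd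
  refine ⟨_, (d1.sub (d2.const_mul (ε / 4))).add (d3.const_mul (a ^ 2 / (2 * ε))), ?_⟩
  have ha : 0 ≤ a ^ 2 := sq_nonneg a
  have hN := 𝓛.N_pos (P s e)
  have hZ := 𝓛.Z.pos₁ ξ
  have e1 : ⟪P' (τ - s) g, h'⟫_ℝ = ‖ξ'‖ ^ 2 := by rw [hL'.norm_sq, real_inner_comm]
  have i1 := aduh_amgm hN (sq_nonneg ‖ξ'‖) ha hε (𝓛.C_le (P s e) ξ')
  have i2 : (-⟪ξ, 𝓛.C' (P' (τ - s) g)⟫_ℝ) ^ 2 ≤
      a ^ 2 * ⟪𝓛.Z.M₁ ξ, ξ⟫_ℝ * ‖P' (τ - s) g‖ ^ 2 := by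
    rw [neg_sq]; exact 𝓛.C'_le ξ _
  have i3 := aduh_amgm hZ (sq_nonneg _) ha hε i2
  have i4 := adg_amgm hZ hN ha (𝓛.Z_C (P s e) ξ)
  have i5 : ‖P' (τ - s) g‖ ^ 2 ≤ ‖g‖ ^ 2 :=
    pow_le_pow_left₀ (norm_nonneg _) (hP'.norm_le (by linarith) g) 2
  have hc : 0 ≤ a ^ 2 / (2 * ε) := by positivity
  have i6 := mul_le_mul_of_nonneg_left i4 hc
  have i7 := mul_le_mul_of_nonneg_left i5 (show 0 ≤ ε / 2 by positivity)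
  simp only [e1]
  nlinarith [i1, i3, i6, i7]

/-- Duhamel without integrals. Put `g j = T (P τ (e j)) - P' τ (T (e j))`, `V = ∑ ‖g j‖ ^ 2`,
`u j s = P s (e j)`, `v j s = P' (τ - s) (g j)` (`IsHeat₂.back`), `ε = 2 / (1 + 2 τ)`.
The derivative of `‖v‖ ^ 2` is `2 ‖ξ'‖ ^ 2`, that of `⟪Z u, u⟫` is `≤ -⟪Z₁ ξ, ξ⟫ + a ^ 2 ⟪N u, u⟫`,
`⟪C u, ξ'⟫ ≤ ε / 2 * ‖ξ'‖ ^ 2 + a ^ 2 / (2 ε) * ⟪N u, u⟫`,
`-⟪ξ, C' v⟫ ≤ ε / 2 * ‖g‖ ^ 2 + a ^ 2 / (2 ε) * ⟪Z₁ ξ, ξ⟫`. So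
`Φ s = ∑ j, (⟪v, T u⟫ - ε / 4 * ‖v‖ ^ 2 + a ^ 2 / (2 ε) * ⟪Z u, u⟫)
  - s * (ε / 2 * V + a ^ 2 / (2 ε) * (1 + a ^ 2) * h)` has derivative `≤ 0` on `(0, τ)`;
`le_of_deriv_two` and `symm` for `P'` give `V ≤ V / 2 + τ a ^ 2 / (2 ε) (1 + a ^ 2) h`. -/
theorem LocData.duhamel (𝓛 : LocData Γ Γ' P S S' a G r) (hP : IsHeat₂ Γ P) (hP' : IsHeat₂ Γ' P')
    {ι : Type} [Fintype ι] {e : ι → A} (hS : ∀ j, e j ∈ S) {τ h : ℝ} (hτ : 0 < τ)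
    (hh : ∀ s, 0 < s → s ≤ τ → ∑ j, ⟪𝓛.N (P s (e j)), P s (e j)⟫_ℝ ≤ h) :
    ∑ j, ‖𝓛.T (P τ (e j)) - P' τ (𝓛.T (e j))‖ ^ 2 ≤
      a ^ 2 * (1 + a ^ 2) * (1 + 2 * τ) * τ * h := by
  classical
  set g : ι → A' := fun j => 𝓛.T (P τ (e j)) - P' τ (𝓛.T (e j)) with hg
  set V : ℝ := ∑ j, ‖g j‖ ^ 2 with hV
  obtain ⟨ε, hε, hε'⟩ : ∃ ε : ℝ, 0 < ε ∧ ε * (1 + 2 * τ) = 2 :=
    ⟨2 / (1 + 2 * τ), by positivity, by field_simp⟩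
  set c : ℝ := a ^ 2 / (2 * ε) with hc
  have hc0 : 0 ≤ c := by positivity
  have hh0 : 0 ≤ h :=
    le_trans (Finset.sum_nonneg fun j _ => 𝓛.N_pos _) (hh τ hτ le_rfl)
  set k : ℝ := ε / 2 * V + c * (1 + a ^ 2) * h with hk
  have key := le_of_deriv_two
    (g := fun x => ∑ j, (⟪P' (τ - x) (g j), 𝓛.T (P x (e j))⟫_ℝ - ε / 4 * ‖P' (τ - x) (g j)‖ ^ 2 +
        c * ⟪𝓛.Z.M (P x (e j)), P x (e j)⟫_ℝ) - x * k)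
    (a := ∑ j, (⟪P' τ (g j), 𝓛.T (e j)⟫_ℝ - ε / 4 * ‖P' τ (g j)‖ ^ 2 +
        c * ⟪𝓛.Z.M (e j), e j⟫_ℝ) - 0 * k)
    (b := ∑ j, (⟪g j, 𝓛.T (P τ (e j))⟫_ℝ - ε / 4 * ‖g j‖ ^ 2 +
        c * ⟪𝓛.Z.M (P τ (e j)), P τ (e j)⟫_ℝ) - τ * k) hτ ?_ ?_ ?_
  · have l1 : ∑ j, (⟪P' τ (g j), 𝓛.T (e j)⟫_ℝ - ε / 4 * ‖P' τ (g j)‖ ^ 2 +
        c * ⟪𝓛.Z.M (e j), e j⟫_ℝ) ≤ ∑ j, ⟪g j, P' τ (𝓛.T (e j))⟫_ℝ := by
      refine Finset.sum_le_sum fun j _ => ?_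
      rw [𝓛.Z_S _ (hS j), hP'.symm hτ.le]
      have : 0 ≤ ε / 4 * ‖P' τ (g j)‖ ^ 2 := by positivity
      linarith
    have l2 : ∑ j, (⟪g j, P' τ (𝓛.T (e j))⟫_ℝ + (1 - ε / 4) * ‖g j‖ ^ 2) ≤
        ∑ j, (⟪g j, 𝓛.T (P τ (e j))⟫_ℝ - ε / 4 * ‖g j‖ ^ 2 +
          c * ⟪𝓛.Z.M (P τ (e j)), P τ (e j)⟫_ℝ) := by
      refine Finset.sum_le_sum fun j _ => ?_
      have e1 : ‖g j‖ ^ 2 = ⟪g j, 𝓛.T (P τ (e j))⟫_ℝ - ⟪g j, P' τ (𝓛.T (e j))⟫_ℝ := by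
        rw [← inner_sub_right, ← real_inner_self_eq_norm_sq]
      have := mul_nonneg hc0 (𝓛.Z.pos (P τ (e j)))
      linarith
    rw [Finset.sum_add_distrib, ← Finset.mul_sum, ← hV] at l2
    have l3 : (1 - ε / 4) * V ≤ τ * k := by linarith
    have hc' : c = a ^ 2 * (1 + 2 * τ) / 4 := by
      rw [hc, div_eq_div_iff (by positivity) (by norm_num)]
      linear_combination (-2 * a ^ 2) * hε'
    have l4 : τ * k = τ * ε / 2 * V + a ^ 2 * (1 + a ^ 2) * (1 + 2 * τ) * τ * h / 4 := by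
      rw [hk, hc']; ring
    have l5 : (1 - ε / 4) * V - τ * ε / 2 * V = V / 2 := by
      linear_combination (-V / 4) * hε'
    have l6 : 0 ≤ a ^ 2 * (1 + a ^ 2) * (1 + 2 * τ) * τ * h := by positivity
    linarith
  · refine Tendsto.sub (tendsto_finsetSum _ fun j _ => ?_)
      ((tendsto_id.mono_left nhdsWithin_le_nhds).mul_const k)
    have t1 := hP.init (e j)
    have t2 := hP'.back_zero (g j) hτ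
    exact ((t2.inner ((𝓛.T.continuous.tendsto _).comp t1)).sub
      ((t2.norm.pow 2).const_mul _)).add
      ((((𝓛.Z.M.continuous.tendsto _).comp t1).inner t1).const_mul _)
  · refine Tendsto.sub (tendsto_finsetSum _ fun j _ => ?_)
      ((tendsto_id.mono_left nhdsWithin_le_nhds).mul_const k)
    have t1 := hP.fwd_end (e j) hτ
    have t2 := hP'.back_end (g j) τ
    exact ((t2.inner ((𝓛.T.continuous.tendsto _).comp t1)).sub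
      ((t2.norm.pow 2).const_mul _)).add
      ((((𝓛.Z.M.continuous.tendsto _).comp t1).inner t1).const_mul _)
  · intro s hs hsτ
    choose d hd hd' using fun j => aduh_term 𝓛 hP hP' (e j) (g j) hε hs hsτ
    refine ⟨∑ j, d j - 1 * k, (HasDerivAt.fun_sum fun j _ => hd j).sub
      ((hasDerivAt_id' s).mul_const k), ?_⟩
    have l1 : ∑ j, d j ≤ ∑ j, (ε / 2 * ‖g j‖ ^ 2 +
        c * (1 + a ^ 2) * ⟪𝓛.N (P s (e j)), P s (e j)⟫_ℝ) := Finset.sum_le_sum fun j _ => hd' j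
    rw [Finset.sum_add_distrib, ← Finset.mul_sum, ← Finset.mul_sum, ← hV] at l1
    have l2 := mul_le_mul_of_nonneg_left (hh s hs hsτ.le)
      (show 0 ≤ c * (1 + a ^ 2) by positivity)
    linarith

end Pool.Agent.Lib.MP_570070_gt.An
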