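import Pool.Agent.Lib.MP_570070_gt.An.AZeta

open MeasureTheory Filter Topology Set
open scoped InnerProductSpace

namespace Pool.Agent.Lib.MP_570070_gt.An

/-- A decreasing function whose Mellin transform converges far to the right grows at most
polynomially at zero. Take a natural number `n > s₀`, `s = n + 1`; `x ^ n * (θ x - b) ≥ 0` is
integrable on `Ioc 0 1` with integral `J`, and
`(θ t - b) * (t / 2) ^ n * (t / 2) ≤ ∫ x in Ioc (t / 2) t, x ^ n * (θ x - b) ≤ J`. -/
theorem IsRegInt.poly {θ : ℝ → ℝ} {I : ℝ} (h : IsRegInt θ I) (hm : AntitoneOn θ (Ioi 0)) :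
    ∃ (C : ℝ) (N : ℕ), ∀ t ∈ Ioc (0 : ℝ) 1, θ t ≤ C / t ^ N := by
  obtain ⟨b, z, hb, -, ⟨s₀, ζ, -, -, h5, -⟩, -⟩ := h.split
  obtain ⟨n, hn⟩ := exists_nat_gt s₀
  have hi : IntegrableOn (fun x : ℝ => x ^ n * (θ x - b)) (Ioc 0 1) := by
    have h1 := (h5 ((n : ℂ) + 1) (by simp; linarith)).1
    refine h1.re.congr (Eventually.of_forall fun x => ?_)
    simp only [add_sub_cancel_right, Complex.cpow_natCast, RCLike.re_to_complex]
    rw [← Complex.ofReal_pow, ← Complex.ofReal_mul, Complex.ofReal_re]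
  have h0 : ∀ x ∈ Ioc (0 : ℝ) 1, 0 ≤ x ^ n * (θ x - b) := fun x hx =>
    mul_nonneg (pow_nonneg hx.1.le n) (sub_nonneg.2 (le_of_antitone hb hm hx.1))
  obtain ⟨J, hJ⟩ : ∃ J, J = ∫ x in Ioc (0 : ℝ) 1, x ^ n * (θ x - b) := ⟨_, rfl⟩
  refine ⟨|b| + J * 2 ^ (n + 1), n + 1, fun t ht => ?_⟩
  have t0 := ht.1
  have hs : Ioc (t / 2) t ⊆ Ioc (0 : ℝ) 1 := Ioc_subset_Ioc (by positivity) ht.2
  have h1 : ∫ x in Ioc (t / 2) t, x ^ n * (θ x - b) ≤ J := by
    rw [hJ]
    exact setIntegral_mono_set hi ((ae_restrict_mem measurableSet_Ioc).mono h0) hs.eventuallyLE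
  have h2 : ∫ _ in Ioc (t / 2) t, (t / 2) ^ n * (θ t - b) ≤
      ∫ x in Ioc (t / 2) t, x ^ n * (θ x - b) :=
    setIntegral_mono_on (integrableOn_const (by simp)) (hi.mono_set hs) measurableSet_Ioc
      fun x hx => mul_le_mul (pow_le_pow_left₀ (by positivity) hx.1.le n)
        (sub_le_sub_right (hm (hs hx).1 t0 hx.2) b) (sub_nonneg.2 (le_of_antitone hb hm t0))
        (pow_nonneg (hs hx).1.le n)
  rw [setIntegral_const, Real.volume_real_Ioc_of_le (by linarith), smul_eq_mul] at h2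
  have h3 : t ^ (n + 1) * (θ t - b) ≤ J * 2 ^ (n + 1) := by
    have e : t ^ (n + 1) * (θ t - b) = (t - t / 2) * ((t / 2) ^ n * (θ t - b)) * 2 ^ (n + 1) := by
      rw [div_pow]
      field_simp
      ring
    rw [e]
    exact mul_le_mul_of_nonneg_right (h2.trans h1) (by positivity)
  have h4 : t ^ (n + 1) * b ≤ |b| :=
    (mul_le_mul_of_nonneg_left (le_abs_self b) (by positivity)).trans
      (mul_le_of_le_one_left (abs_nonneg b) (pow_le_one₀ t0.le ht.2))
  rw [le_div_iff₀ (by positivity)]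
  linarith

/-- The tail of an integrable function tends to zero (`intervalIntegral_tendsto_integral_Ioi` or
`tendsto_setIntegral_of_antitone`). -/
theorem tendsto_tail {g : ℝ → ℝ} (hg : IntegrableOn g (Ioi 1)) :
    Tendsto (fun T => ∫ t in Ioi T, g t) atTop (𝓝 0) := by
  have h := tendsto_setIntegral_of_antitone (f := g) (μ := volume) (s := fun T : ℝ => Ioi T)
    (fun _ => measurableSet_Ioi) (fun _ _ h => Ioi_subset_Ioi h) ⟨1, hg⟩
  have e : ⋂ T : ℝ, Ioi T = ∅ :=
    eq_empty_of_forall_notMem fun x hx => lt_irrefl x (mem_iInter.1 hx x)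
  rwa [e, setIntegral_empty] at h

/-- `integral_Ioi_rpow_of_lt`. -/
theorem tail_rpow {C γ δ : ℝ} (hγ : 0 < γ) (hδ : 0 < δ) : ∀ᶠ T in atTop, ∀ g : ℝ → ℝ,
    IntegrableOn (fun t => t⁻¹ * g t) (Ioi T) → (∀ t, T < t → g t ≤ C * t ^ (-γ)) →
    ∫ t in Ioi T, t⁻¹ * g t ≤ δ := by
  have h1 : Tendsto (fun T : ℝ => C / γ * T ^ (-γ)) atTop (𝓝 0) := by
    simpa using (tendsto_rpow_neg_atTop hγ).const_mul (C / γ)
  filter_upwards [h1.eventually (ge_mem_nhds hδ), eventually_gt_atTop (0 : ℝ)] with T h2 hT g hi hg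
  have h3 : -γ - 1 < -1 := by linarith
  refine le_trans (setIntegral_mono_on hi
    ((integrableOn_Ioi_rpow_of_lt h3 hT).const_mul C) measurableSet_Ioi fun t ht => ?_) ?_
  · have t0 : 0 < t := hT.trans ht
    rw [Real.rpow_sub_one t0.ne', ← mul_div_assoc, div_eq_inv_mul]
    exact mul_le_mul_of_nonneg_left (hg t ht) (inv_nonneg.2 t0.le)
  · rw [integral_const_mul, integral_Ioi_rpow_of_lt h3 hT, sub_add_cancel, neg_div_neg_eq]
    refine le_trans (le_of_eq ?_) h2
    ring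

/-- `∫ t in Ioc T (κ / lam), t⁻¹ = log (κ / (T lam))`; the count is a sum of indicators. -/
theorem integral_count {ι : Type} [Fintype ι] (lam : ι → ℝ) (hl : ∀ j, 0 < lam j) {g : ℝ → ℝ}
    {T κ c : ℝ} (hT : 0 < T) (hκ : 0 < κ) (hc : 0 ≤ c)
    (hi : IntegrableOn (fun t => t⁻¹ * g t) (Ioi T))
    (hg : ∀ t, T < t → c * ((Finset.univ.filter fun j => lam j ≤ κ / t).card : ℝ) ≤ g t) :
    c * ∑ j, max 0 (Real.log (κ / (T * lam j))) ≤ ∫ t in Ioi T, t⁻¹ * g t := by
  have hI : ∀ j, IntegrableOn (fun t : ℝ => t⁻¹) (Ioc T (κ / lam j)) := fun j =>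
    ((continuousOn_inv₀.mono fun t ht => (hT.trans_le ht.1).ne').integrableOn_Icc).mono_set
      Ioc_subset_Icc_self
  have h1 : ∀ j, Integrable ((Ioc T (κ / lam j)).indicator fun t : ℝ => t⁻¹)
      (volume.restrict (Ioi T)) := fun j =>
    ((integrable_indicator_iff measurableSet_Ioc).2 (hI j)).integrableOn
  have h2 : ∀ j, ∫ t in Ioi T, (Ioc T (κ / lam j)).indicator (fun t : ℝ => t⁻¹) t =
      max 0 (Real.log (κ / (T * lam j))) := fun j => by
    have l0 := hl j
    rw [setIntegral_indicator measurableSet_Ioc, inter_eq_right.2 Ioc_subset_Ioi_self]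
    have e : κ / (T * lam j) = κ / lam j / T := by rw [div_div, mul_comm]
    rcases le_total T (κ / lam j) with h | h
    · rw [← intervalIntegral.integral_of_le h, integral_inv_of_pos hT (by positivity), e,
        max_eq_right (Real.log_nonneg ((one_le_div hT).2 h))]
    · rw [Ioc_eq_empty h.not_gt, setIntegral_empty, e,
        max_eq_left (Real.log_nonpos (by positivity) ((div_le_one hT).2 h))]
  simp only [← h2]
  rw [← integral_finsetSum _ fun j _ => h1 j, ← integral_const_mul]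
  refine setIntegral_mono_on ((integrable_finsetSum _ fun j _ => h1 j).const_mul c) hi
    measurableSet_Ioi fun t ht => ?_
  have t0 : 0 < t := hT.trans ht
  have e : ∑ j, (Ioc T (κ / lam j)).indicator (fun t : ℝ => t⁻¹) t =
      t⁻¹ * ((Finset.univ.filter fun j => lam j ≤ κ / t).card : ℝ) := by
    rw [Finset.card_filter, Nat.cast_sum, Finset.mul_sum]
    refine Finset.sum_congr rfl fun j _ => ?_
    have : t ∈ Ioc T (κ / lam j) ↔ lam j ≤ κ / t := by
      rw [mem_Ioc, le_div_iff₀ (hl j), le_div_iff₀ t0, mul_comm]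
      exact and_iff_right ht
    by_cases h : lam j ≤ κ / t
    · rw [indicator_of_mem (this.2 h), if_pos h, Nat.cast_one, mul_one]
    · rw [indicator_of_notMem (mt this.1 h), if_neg h, Nat.cast_zero, mul_zero]
  rw [e, mul_left_comm]
  exact mul_le_mul_of_nonneg_left (hg t ht) (inv_nonneg.2 t0.le)

end Pool.Agent.Lib.MP_570070_gt.An
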