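import Pool.Agent.Lib.MP_570070_gt.An.AReg
import Pool.Agent.Lib.MP_570070_gt.An.APoly

open MeasureTheory Filter Topology Set
open scoped InnerProductSpace

namespace Pool.Agent.Lib.MP_570070_gt.An

theorem afin_log : ∀ᶠ T in atTop, 0 ≤ gam + Real.log T :=
  (tendsto_atTop_add_const_left _ gam Real.tendsto_log_atTop).eventually_ge_atTop 0

/-- Degree one. Choose `T ≥ 1` with `0 ≤ gam + log T` and tail of `θ` at most `δ / 3`; then `S` with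
`θ S ≤ b + η`; eventually `b' ≤ φ i S ≤ b + 2 η`; `reg_sub`. -/
theorem reg_lower {θ : ℝ → ℝ} {φ : ℕ → ℝ → ℝ} {I c : ℝ} {J : ℕ → ℝ}
    (h : IsRegInt θ I) (g : ∀ i, IsRegInt (φ i) (J i))
    (m : AntitoneOn θ (Ioi 0)) (n : ∀ i, AntitoneOn (φ i) (Ioi 0))
    (l : ∀ T ε : ℝ, 0 < ε → ∀ᶠ i in atTop, ∀ t ∈ Ioc (0 : ℝ) T, |φ i t - θ t| ≤ ε * t)
    (t₁ : ∀ T, 1 ≤ T → ∀ᶠ i in atTop, ∀ b, Tendsto (φ i) atTop (𝓝 b) →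
      IntegrableOn (fun t => t⁻¹ * (φ i t - b)) (Ioi 1) → c ≤ ∫ t in Ioi T, t⁻¹ * (φ i t - b))
    {δ : ℝ} (hδ : 0 < δ) : ∀ᶠ i in atTop, I + c - δ ≤ J i := by
  obtain ⟨b, z, hb, hi, hz, rfl⟩ := h.split
  have hδ3 : 0 < δ / 3 := by positivity
  obtain ⟨T, hT, hL, ht⟩ := ((eventually_ge_atTop (1 : ℝ)).and (afin_log.and
    ((tendsto_tail hi).eventually_le_const hδ3))).exists
  have hT0 : 0 < T := by linarith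
  set L := gam + Real.log T with hLdef
  have hη : 0 < δ / (6 * (L + 1)) := by positivity
  have hη' : δ / (6 * (L + 1)) * (6 * (L + 1)) = δ := div_mul_cancel₀ _ (by positivity)
  set η := δ / (6 * (L + 1))
  obtain ⟨S, hS, hS'⟩ := ((eventually_gt_atTop (0 : ℝ)).and
    (hb.eventually_le_const (show b < b + η by linarith))).exists
  filter_upwards [l T (δ / 3 / T) (by positivity), l S (η / S) (by positivity), t₁ T hT]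
    with i h1 h2 h3
  obtain ⟨b', z', hb', hi', hz', e⟩ := (g i).split
  have h4 := reg_sub hT m (n i) hi hi' hz hz' h1
  have h5 := h2 S ⟨hS, le_rfl⟩
  have h6 := le_of_antitone hb' (n i) hS
  have h7 := h3 b' hb' hi'
  rw [div_mul_cancel₀ _ hT0.ne', ← e, ← hLdef] at h4
  rw [div_mul_cancel₀ _ hS.ne'] at h5
  have h8 := (abs_le.1 h4).1
  have h9 := (abs_le.1 h5).2
  have h10 : -(2 * η) * L ≤ (b - b') * L := mul_le_mul_of_nonneg_right (by linarith) hL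
  linarith

/-- Degree zero. `θ t ≤ C * t ^ (-γ)` for `t ≥ 4`, so `b ≤ 0 ≤ b'`; choose `T ≥ 4` with
`0 ≤ gam + log T` and `tail_rpow`; the tail of `θ` is `≥ 0` (`le_of_antitone`); `reg_sub`. -/
theorem reg_upper {θ : ℝ → ℝ} {φ : ℕ → ℝ → ℝ} {I : ℝ} {J : ℕ → ℝ}
    (h : IsRegInt θ I) (g : ∀ i, IsRegInt (φ i) (J i))
    (m : AntitoneOn θ (Ioi 0)) (n : ∀ i, AntitoneOn (φ i) (Ioi 0)) (p : ∀ i t, 0 ≤ φ i t)
    (l : ∀ T ε : ℝ, 0 < ε → ∀ᶠ i in atTop, ∀ t ∈ Ioc (0 : ℝ) T, |φ i t - θ t| ≤ ε * t)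
    {C γ : ℝ} (hγ : 0 < γ)
    (t₀ : ∀ᶠ i in atTop, ∀ b, Tendsto (φ i) atTop (𝓝 b) → ∀ t, 4 ≤ t → φ i t - b ≤ C * t ^ (-γ))
    (t₀' : ∀ t, 4 ≤ t → ∀ᶠ i in atTop, φ i t ≤ C * t ^ (-γ))
    {δ : ℝ} (hδ : 0 < δ) : ∀ᶠ i in atTop, J i ≤ I + δ := by
  obtain ⟨b, z, hb, hi, hz, rfl⟩ := h.split
  have hδ2 : 0 < δ / 2 := by positivity
  have hθ : ∀ t, 4 ≤ t → θ t ≤ C * t ^ (-γ) := fun t ht => by
    have ht0 : 0 < t := by linarith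
    refine le_of_forall_pos_le_add fun ε hε => ?_
    obtain ⟨i, h1, h2⟩ := ((l t (ε / t) (by positivity)).and (t₀' t ht)).exists
    have h3 := h1 t ⟨ht0, le_rfl⟩
    rw [div_mul_cancel₀ _ ht0.ne'] at h3
    linarith [(abs_le.1 h3).1]
  have hb0 : b ≤ 0 := by
    have h1 : Tendsto (fun t : ℝ => C * t ^ (-γ)) atTop (𝓝 (C * 0)) :=
      (tendsto_rpow_neg_atTop hγ).const_mul C
    rw [mul_zero] at h1
    exact le_of_tendsto_of_tendsto hb h1 ((eventually_ge_atTop 4).mono hθ)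
  obtain ⟨T, hT, hL, ht⟩ := ((eventually_ge_atTop (4 : ℝ)).and (afin_log.and
    (tail_rpow (C := C) hγ hδ2))).exists
  have hT0 : 0 < T := by linarith
  have hT1 : 1 ≤ T := by linarith
  have htail : 0 ≤ ∫ t in Ioi T, t⁻¹ * (θ t - b) :=
    setIntegral_nonneg measurableSet_Ioi fun t ht' => by
      have ht0 : 0 < t := hT0.trans ht'
      exact mul_nonneg (inv_pos.2 ht0).le (sub_nonneg.2 (le_of_antitone hb m ht0))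
  filter_upwards [l T (δ / 2 / T) (by positivity), t₀] with i h1 h2
  obtain ⟨b', z', hb', hi', hz', e⟩ := (g i).split
  have h4 := reg_sub hT1 m (n i) hi hi' hz hz' h1
  have h5 : 0 ≤ b' := ge_of_tendsto' hb' (p i)
  have h6 := ht (fun t => φ i t - b') (hi'.mono_set (Ioi_subset_Ioi hT1))
    fun t ht' => h2 b' hb' t (hT.trans ht'.le)
  rw [div_mul_cancel₀ _ hT0.ne', ← e] at h4
  have h8 := (abs_le.1 h4).2
  have h10 : (b - b') * (gam + Real.log T) ≤ 0 :=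
    mul_nonpos_of_nonpos_of_nonneg (by linarith) hL
  linarith

/-- The final contradiction. -/
theorem final_gap {θ₀ θ₁ : ℝ → ℝ} {φ₀ φ₁ : ℕ → ℝ → ℝ} {I₀ I₁ : ℝ} {J₀ J₁ : ℕ → ℝ}
    (h₀ : IsRegInt θ₀ I₀) (h₁ : IsRegInt θ₁ I₁) (g₀ : ∀ i, IsRegInt (φ₀ i) (J₀ i))
    (g₁ : ∀ i, IsRegInt (φ₁ i) (J₁ i))
    (m₀ : AntitoneOn θ₀ (Ioi 0)) (m₁ : AntitoneOn θ₁ (Ioi 0))
    (n₀ : ∀ i, AntitoneOn (φ₀ i) (Ioi 0)) (n₁ : ∀ i, AntitoneOn (φ₁ i) (Ioi 0))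
    (p₀ : ∀ i t, 0 ≤ φ₀ i t)
    (l₀ : ∀ T ε : ℝ, 0 < ε → ∀ᶠ i in atTop, ∀ t ∈ Ioc (0 : ℝ) T, |φ₀ i t - θ₀ t| ≤ ε * t)
    (l₁ : ∀ T ε : ℝ, 0 < ε → ∀ᶠ i in atTop, ∀ t ∈ Ioc (0 : ℝ) T, |φ₁ i t - θ₁ t| ≤ ε * t)
    {C γ : ℝ} (hγ : 0 < γ)
    (t₀ : ∀ᶠ i in atTop, ∀ b, Tendsto (φ₀ i) atTop (𝓝 b) → ∀ t, 4 ≤ t → φ₀ i t - b ≤ C * t ^ (-γ))
    (t₀' : ∀ t, 4 ≤ t → ∀ᶠ i in atTop, φ₀ i t ≤ C * t ^ (-γ))
    {c : ℝ} (hc : 0 < c)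
    (t₁ : ∀ T, 1 ≤ T → ∀ᶠ i in atTop, ∀ b, Tendsto (φ₁ i) atTop (𝓝 b) →
      IntegrableOn (fun t => t⁻¹ * (φ₁ i t - b)) (Ioi 1) → c ≤ ∫ t in Ioi T, t⁻¹ * (φ₁ i t - b)) :
    ∀ᶠ i in atTop, I₁ - 3 * I₀ + c / 2 ≤ J₁ i - 3 * J₀ i := by
  have hδ : 0 < c / 8 := by positivity
  filter_upwards [reg_lower h₁ g₁ m₁ n₁ l₁ t₁ hδ, reg_upper h₀ g₀ m₀ n₀ p₀ l₀ hγ t₀ t₀' hδ]
    with i a b
  linarith

end Pool.Agent.Lib.MP_570070_gt.An
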