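import Pool.Agent.Lib.MP_570070_gt.An.ADefs

open MeasureTheory Filter Topology Set
open scoped InnerProductSpace

namespace Pool.Agent.Lib.MP_570070_gt.An

variable {A K A' K' : Type} [NormedAddCommGroup A] [InnerProductSpace ℝ A]
  [NormedAddCommGroup K] [InnerProductSpace ℝ K] [NormedAddCommGroup A'] [InnerProductSpace ℝ A']
  [NormedAddCommGroup K'] [InnerProductSpace ℝ K']
  {Γ : Submodule ℝ (A × K)} {Γ' : Submodule ℝ (A' × K')}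
  {P : ℝ → A →L[ℝ] A} {P' : ℝ → A' →L[ℝ] A'}

/-- `h` is the Laplacian of `u` and `ξ` is the derivative of `u`. -/
def Lp (Γ : Submodule ℝ (A × K)) (u : A) (ξ : K) (h : A) : Prop :=
  (u, ξ) ∈ Γ ∧ ∀ w ξ', (w, ξ') ∈ Γ → ⟪ξ, ξ'⟫_ℝ = ⟪h, w⟫_ℝ

theorem le_of_deriv_two {g : ℝ → ℝ} {a b τ : ℝ} (hτ : 0 < τ) (h0 : Tendsto g (𝓝[>] 0) (𝓝 a))
    (h1 : Tendsto g (𝓝[<] τ) (𝓝 b)) (hd : ∀ t, 0 < t → t < τ → ∃ d, HasDerivAt g d t ∧ d ≤ 0) :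
    b ≤ a := by
  have hanti : AntitoneOn g (Ioo 0 τ) := by
    refine antitoneOn_of_deriv_nonpos (convex_Ioo 0 τ) (fun t ht => ?_) (fun t ht => ?_)
      fun t ht => ?_
    · obtain ⟨d, h, -⟩ := hd t ht.1 ht.2
      exact h.continuousAt.continuousWithinAt
    · rw [interior_Ioo] at ht
      obtain ⟨d, h, -⟩ := hd t ht.1 ht.2
      exact h.differentiableAt.differentiableWithinAt
    · rw [interior_Ioo] at ht
      obtain ⟨d, h, h'⟩ := hd t ht.1 ht.2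
      rw [h.deriv]
      exact h'
  have hm : τ / 2 ∈ Ioo 0 τ := ⟨by linarith, by linarith⟩
  have ha : g (τ / 2) ≤ a := by
    refine ge_of_tendsto h0 ?_
    filter_upwards [Ioo_mem_nhdsGT hm.1] with t ht
    exact hanti ⟨ht.1, ht.2.trans hm.2⟩ hm ht.2.le
  have hb : b ≤ g (τ / 2) := by
    refine le_of_tendsto h1 ?_
    filter_upwards [Ioo_mem_nhdsLT hm.2] with t ht
    exact hanti hm ⟨hm.1.trans ht.1, ht.2⟩ ht.1.le
  exact hb.trans ha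

theorem le_of_deriv {g : ℝ → ℝ} {a τ : ℝ} (hτ : 0 < τ) (h0 : Tendsto g (𝓝[>] 0) (𝓝 a))
    (hd : ∀ t, 0 < t → t ≤ τ → ∃ d, HasDerivAt g d t ∧ d ≤ 0) : g τ ≤ a := by
  obtain ⟨d, h, -⟩ := hd τ hτ le_rfl
  exact le_of_deriv_two hτ h0 (h.continuousAt.tendsto.mono_left nhdsWithin_le_nhds)
    fun t h1 h2 => hd t h1 h2.le

theorem Lp.symm {u v f g : A} {ξ ζ : K} (h : Lp Γ u ξ f) (h' : Lp Γ v ζ g) :
    ⟪f, v⟫_ℝ = ⟪u, g⟫_ℝ := by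
  rw [← h.2 v ζ h'.1, real_inner_comm, h'.2 u ξ h.1, real_inner_comm]

theorem Lp.unique {u f g : A} {ξ ζ : K} (h : Lp Γ u ξ f) (h' : Lp Γ u ζ g) : ξ = ζ := by
  have hm : ((0 : A), ξ - ζ) ∈ Γ := by
    have := Γ.sub_mem h.1 h'.1
    simpa using this
  have h1 := h.2 _ _ hm
  have h2 := h'.2 _ _ hm
  rw [inner_zero_right] at h1 h2
  have h3 : ⟪ξ - ζ, ξ - ζ⟫_ℝ = 0 := by rw [inner_sub_left, h1, h2, sub_zero]
  exact sub_eq_zero.1 (inner_self_eq_zero.1 h3)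

theorem Lp.norm_sq {u f : A} {ξ : K} (h : Lp Γ u ξ f) : ‖ξ‖ ^ 2 = ⟪f, u⟫_ℝ := by
  rw [← h.2 u ξ h.1, real_inner_self_eq_norm_sq]

theorem IsHeat₂.init (hP : IsHeat₂ Γ P) (u : A) :
    Tendsto (fun t => P t u) (𝓝[>] 0) (𝓝 u) := by
  obtain ⟨h0, h1, -⟩ := hP u
  have := (h1 0 (mem_Ici.2 le_rfl)).tendsto
  simp only [h0] at this
  exact this.mono_left (nhdsWithin_mono _ Ioi_subset_Ici_self)

theorem IsHeat₂.flow (hP : IsHeat₂ Γ P) (u : A) {t : ℝ} (ht : 0 < t) :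
    ∃ ξ h, Lp Γ (P t u) ξ h ∧ HasDerivAt (fun s => P s u) (-h) t := by
  obtain ⟨h, ⟨ξ, h1⟩, h2⟩ := (hP u).2.2 t ht
  exact ⟨ξ, h, h1, h2⟩

theorem IsHeat₂.fwd_end (hP : IsHeat₂ Γ P) (u : A) {τ : ℝ} (hτ : 0 < τ) :
    Tendsto (fun r => P r u) (𝓝[<] τ) (𝓝 (P τ u)) := by
  obtain ⟨ξ, h, -, h2⟩ := hP.flow u hτ
  exact h2.continuousAt.tendsto.mono_left nhdsWithin_le_nhds

/-- The backward curve `s ↦ P (τ - s) v`. -/
theorem IsHeat₂.back (hP : IsHeat₂ Γ P) (v : A) {τ s : ℝ} (hs : s < τ) :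
    ∃ ξ h, Lp Γ (P (τ - s) v) ξ h ∧ HasDerivAt (fun r => P (τ - r) v) h s := by
  obtain ⟨ξ, h, h1, h2⟩ := hP.flow v (sub_pos.2 hs)
  refine ⟨ξ, h, h1, ?_⟩
  have h3 : HasDerivAt (fun r : ℝ => τ - r) (-1) s := by
    simpa using (hasDerivAt_id s).const_sub τ
  have := HasDerivAt.scomp s (h := fun r : ℝ => τ - r) h2 h3
  simpa [Function.comp_def] using this

theorem IsHeat₂.back_zero (hP : IsHeat₂ Γ P) (v : A) {τ : ℝ} (hτ : 0 < τ) :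
    Tendsto (fun r => P (τ - r) v) (𝓝[>] 0) (𝓝 (P τ v)) := by
  obtain ⟨ξ, h, -, h2⟩ := hP.back v hτ
  have := h2.continuousAt.tendsto.mono_left (nhdsWithin_le_nhds (s := Ioi 0))
  simpa using this

theorem IsHeat₂.back_end (hP : IsHeat₂ Γ P) (v : A) (τ : ℝ) :
    Tendsto (fun r => P (τ - r) v) (𝓝[<] τ) (𝓝 v) := by
  refine (hP.init v).comp (tendsto_nhdsWithin_iff.2 ⟨?_, ?_⟩)
  · have : Tendsto (fun r : ℝ => τ - r) (𝓝 τ) (𝓝 (τ - τ)) :=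
      (continuous_const.sub continuous_id).tendsto τ
    rw [sub_self] at this
    exact this.mono_left nhdsWithin_le_nhds
  · filter_upwards [self_mem_nhdsWithin] with r hr
    exact sub_pos.2 (mem_Iio.1 hr)

theorem aheat_norm_le {u₀ : A} {u : ℝ → A} (h0 : Tendsto u (𝓝[>] 0) (𝓝 u₀))
    (h : ∀ t, 0 < t → ∃ ξ f, Lp Γ (u t) ξ f ∧ HasDerivAt u (-f) t) {t : ℝ} (ht : 0 < t) :
    ‖u t‖ ≤ ‖u₀‖ := by
  have : ⟪u t, u t⟫_ℝ ≤ ⟪u₀, u₀⟫_ℝ := by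
    refine le_of_deriv (g := fun s => ⟪u s, u s⟫_ℝ) ht (h0.inner h0) fun s hs _ => ?_
    obtain ⟨ξ, f, h1, h2⟩ := h s hs
    refine ⟨_, h2.inner ℝ h2, ?_⟩
    have h3 := h1.norm_sq
    have h4 := sq_nonneg ‖ξ‖
    rw [inner_neg_right, inner_neg_left, real_inner_comm]
    linarith
  rw [real_inner_self_eq_norm_sq, real_inner_self_eq_norm_sq] at this
  exact le_of_sq_le_sq this (norm_nonneg _)

theorem Lp.sub {u v f g : A} {ξ ζ : K} (h : Lp Γ u ξ f) (h' : Lp Γ v ζ g) :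
    Lp Γ (u - v) (ξ - ζ) (f - g) :=
  ⟨Γ.sub_mem h.1 h'.1, fun w ξ' hw => by
    rw [inner_sub_left, inner_sub_left, h.2 w ξ' hw, h'.2 w ξ' hw]⟩

/-- Uniqueness: every solution is given by `P`. -/
theorem IsHeat₂.eq_of_sol (hP : IsHeat₂ Γ P) {u₀ : A} {u : ℝ → A}
    (h0 : Tendsto u (𝓝[>] 0) (𝓝 u₀))
    (h : ∀ t, 0 < t → ∃ ξ f, Lp Γ (u t) ξ f ∧ HasDerivAt u (-f) t) {t : ℝ} (ht : 0 < t) :
    u t = P t u₀ := by
  have h1 : Tendsto (fun s => u s - P s u₀) (𝓝[>] 0) (𝓝 0) := by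
    simpa using h0.sub (hP.init u₀)
  have h2 := aheat_norm_le (Γ := Γ) h1 (fun s hs => by
    obtain ⟨ξ, f, a, b⟩ := h s hs
    obtain ⟨ζ, g, c, d⟩ := hP.flow u₀ hs
    refine ⟨ξ - ζ, f - g, a.sub c, ?_⟩
    have := b.sub d
    rw [show -f - -g = -(f - g) by abel] at this
    exact this) ht
  rw [norm_zero] at h2
  exact sub_eq_zero.1 (norm_le_zero_iff.1 h2)

theorem IsHeat₂.norm_le (hP : IsHeat₂ Γ P) {t : ℝ} (ht : 0 ≤ t) (u : A) : ‖P t u‖ ≤ ‖u‖ := by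
  rcases ht.eq_or_lt with rfl | ht
  · rw [(hP u).1]
  · exact aheat_norm_le (hP.init u) (fun s hs => hP.flow u hs) ht

theorem IsHeat₂.add (hP : IsHeat₂ Γ P) {s t : ℝ} (hs : 0 ≤ s) (ht : 0 ≤ t) (u : A) :
    P (s + t) u = P s (P t u) := by
  rcases hs.eq_or_lt with rfl | hs
  · rw [(hP _).1, zero_add]
  rcases ht.eq_or_lt with rfl | ht
  · rw [(hP _).1, add_zero]
  have key : ∀ r, 0 ≤ r → ∃ ξ f, Lp Γ (P (r + t) u) ξ f ∧
      HasDerivAt (fun x => P (x + t) u) (-f) r := fun r hr => by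
    obtain ⟨ξ, f, a, b⟩ := hP.flow u (add_pos_of_nonneg_of_pos hr ht)
    exact ⟨ξ, f, a, HasDerivAt.comp_add_const r t (f := fun x => P x u) b⟩
  refine hP.eq_of_sol (u := fun x => P (x + t) u) ?_ (fun r hr => key r hr.le) hs
  obtain ⟨ξ, f, -, b⟩ := key 0 le_rfl
  have := b.continuousAt.tendsto.mono_left (nhdsWithin_le_nhds (s := Ioi 0))
  simpa using this

theorem IsHeat₂.norm_anti (hP : IsHeat₂ Γ P) {s t : ℝ} (hs : 0 ≤ s) (hst : s ≤ t) (u : A) :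
    ‖P t u‖ ≤ ‖P s u‖ := by
  have := hP.add (sub_nonneg.2 hst) hs u
  rw [sub_add_cancel] at this
  rw [this]
  exact hP.norm_le (sub_nonneg.2 hst) _

theorem aheat_symm_le (hP : IsHeat₂ Γ P) {t : ℝ} (ht : 0 < t) (u v : A) :
    ⟪v, P t u⟫_ℝ ≤ ⟪P t v, u⟫_ℝ := by
  refine le_of_deriv_two (g := fun s => ⟪P (t - s) v, P s u⟫_ℝ) ht
    ((hP.back_zero v ht).inner (hP.init u)) ((hP.back_end v t).inner (hP.fwd_end u ht))
    fun s h1 h2 => ?_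
  obtain ⟨ξ, f, a, b⟩ := hP.back v h2
  obtain ⟨ζ, g, c, d⟩ := hP.flow u h1
  refine ⟨_, b.inner ℝ d, ?_⟩
  rw [inner_neg_right, a.symm c]
  simp

theorem IsHeat₂.symm (hP : IsHeat₂ Γ P) {t : ℝ} (ht : 0 ≤ t) (u v : A) :
    ⟪P t u, v⟫_ℝ = ⟪u, P t v⟫_ℝ := by
  rcases ht.eq_or_lt with rfl | ht
  · rw [(hP _).1, (hP _).1]
  refine le_antisymm ?_ (aheat_symm_le hP ht v u)
  have := aheat_symm_le hP ht u v
  rwa [real_inner_comm, real_inner_comm u] at this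

theorem IsHeat₂.inner_self (hP : IsHeat₂ Γ P) {t : ℝ} (ht : 0 ≤ t) (u : A) :
    ⟪P t u, u⟫_ℝ = ‖P (t / 2) u‖ ^ 2 := by
  have h2 : 0 ≤ t / 2 := by linarith
  have := hP.add h2 h2 u
  rw [add_halves] at this
  rw [this, hP.symm h2, real_inner_self_eq_norm_sq]

theorem IsHeat₂.inner_anti (hP : IsHeat₂ Γ P) {s t : ℝ} (hs : 0 ≤ s) (hst : s ≤ t) (u : A) :
    ⟪P t u, u⟫_ℝ ≤ ⟪P s u, u⟫_ℝ := by
  rw [hP.inner_self hs, hP.inner_self (hs.trans hst)]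
  exact pow_le_pow_left₀ (norm_nonneg _) (hP.norm_anti (by linarith) (by linarith) u) 2

theorem heat_equiv (hP : IsHeat₂ Γ P) (hP' : IsHeat₂ Γ' P') (U : A ≃ₗᵢ[ℝ] A') (W : K → K')
    (W' : K' → K) (hW : ∀ ξ ξ', ⟪W ξ, ξ'⟫_ℝ = ⟪ξ, W' ξ'⟫_ℝ)
    (h : ∀ u ξ, (u, ξ) ∈ Γ → (U u, W ξ) ∈ Γ')
    (h' : ∀ v ξ', (v, ξ') ∈ Γ' → (U.symm v, W' ξ') ∈ Γ) {t : ℝ} (ht : 0 ≤ t) (u : A) :
    P' t (U u) = U (P t u) := by
  rcases ht.eq_or_lt with rfl | ht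
  · rw [(hP _).1, (hP' _).1]
  refine (hP'.eq_of_sol (u := fun s => U (P s u)) ((U.continuous.tendsto u).comp (hP.init u))
    (fun s hs => ?_) ht).symm
  obtain ⟨ξ, f, a, b⟩ := hP.flow u hs
  refine ⟨W ξ, U f, ⟨h _ _ a.1, fun w ξ' hw => ?_⟩, ?_⟩
  · rw [hW, a.2 _ _ (h' _ _ hw), ← U.inner_map_map, U.apply_symm_apply]
  · have := (U.toContinuousLinearEquiv : A →L[ℝ] A').hasFDerivAt.comp_hasDerivAt s b
    simpa [Function.comp_def] using this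

theorem aheat_lap (hP : IsHeat₂ Γ P) {u f : A} {ξ : K} (h : Lp Γ u ξ f) {r : ℝ} (hr : 0 < r) :
    ∃ ξ', Lp Γ (P r u) ξ' (P r f) ∧ HasDerivAt (fun s => P s u) (-(P r f)) r := by
  obtain ⟨ζ, g, a, b⟩ := hP.flow u hr
  have : g = P r f := by
    refine ext_inner_right ℝ fun v => ?_
    obtain ⟨ζ', g', a', b'⟩ := hP.flow v hr
    have h1 := b.inner ℝ (hasDerivAt_const r v)
    have h2 := (hasDerivAt_const r u).inner ℝ b'
    have h3 : (fun s => ⟪P s u, v⟫_ℝ) =ᶠ[𝓝 r] fun s => ⟪u, P s v⟫_ℝ := by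
      filter_upwards [Ioi_mem_nhds hr] with s hs
      exact hP.symm (le_of_lt hs) u v
    have h4 := (h2.congr_of_eventuallyEq h3).unique h1
    simp only [inner_neg_right, inner_neg_left, inner_zero_left, inner_zero_right] at h4
    rw [hP.symm hr.le, h.symm a']
    linarith
  exact ⟨ζ, this ▸ a, this ▸ b⟩

theorem IsHeat₂.lap_flow (hP : IsHeat₂ Γ P) {u f : A} {ξ : K} (h : Lp Γ u ξ f) {r : ℝ}
    (hr : 0 < r) : ∃ ξ', Lp Γ (P r u) ξ' (P r f) ∧ ‖ξ'‖ ≤ ‖ξ‖ := by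
  obtain ⟨ζ, a, -⟩ := aheat_lap hP h hr
  refine ⟨ζ, a, ?_⟩
  have h1 : ⟪f, P (r + r) u⟫_ℝ ≤ ⟪f, u⟫_ℝ := by
    refine le_of_deriv (g := fun s => ⟪f, P s u⟫_ℝ) (by linarith)
      (tendsto_const_nhds.inner (hP.init u)) fun s hs _ => ?_
    obtain ⟨_, -, b⟩ := aheat_lap hP h hs
    refine ⟨_, (hasDerivAt_const s f).inner ℝ b, ?_⟩
    rw [inner_neg_right, inner_zero_left, real_inner_comm, hP.inner_self hs.le]
    have := sq_nonneg ‖P (s / 2) f‖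
    linarith
  rw [hP.add hr.le hr.le, ← hP.symm hr.le, ← a.norm_sq, ← h.norm_sq] at h1
  exact le_of_sq_le_sq h1 (norm_nonneg _)

theorem IsHeat₂.grad_le (hP : IsHeat₂ Γ P) {t : ℝ} (ht : 0 < t) (u : A) :
    ∃ ξ, (P t u, ξ) ∈ Γ ∧ 2 * t * ‖ξ‖ ^ 2 ≤ ‖u‖ ^ 2 := by
  obtain ⟨ξ, f, a, -⟩ := hP.flow u ht
  refine ⟨ξ, a.1, ?_⟩
  have h0 : Tendsto (fun s : ℝ => ⟪P s u, P s u⟫_ℝ + 2 * s * ‖ξ‖ ^ 2) (𝓝[>] 0)
      (𝓝 (⟪u, u⟫_ℝ + 2 * 0 * ‖ξ‖ ^ 2)) :=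
    ((hP.init u).inner (hP.init u)).add
      (((tendsto_id.mono_left nhdsWithin_le_nhds).const_mul 2).mul_const _)
  have := le_of_deriv ht h0 fun s hs hst => by
    obtain ⟨ζ, g, c, d⟩ := hP.flow u hs
    refine ⟨_, (d.inner ℝ d).add (((hasDerivAt_id s).const_mul 2).mul_const _), ?_⟩
    have h1 : ‖ξ‖ ≤ ‖ζ‖ := by
      rcases hst.eq_or_lt with rfl | hlt
      · rw [a.unique c]
      · obtain ⟨ξ', e, e'⟩ := hP.lap_flow c (sub_pos.2 hlt)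
        rw [← hP.add (sub_pos.2 hlt).le hs.le, sub_add_cancel] at e
        rw [a.unique e]
        exact e'
    have h2 := pow_le_pow_left₀ (norm_nonneg _) h1 2
    have h3 := c.norm_sq
    rw [inner_neg_right, inner_neg_left, real_inner_comm]
    linarith
  rw [real_inner_self_eq_norm_sq, real_inner_self_eq_norm_sq] at this
  have h4 := sq_nonneg ‖P t u‖
  linarith

theorem IsHeat₂.inner_ge (hP : IsHeat₂ Γ P) {v : A} {ζ : K} (h : (v, ζ) ∈ Γ) {t : ℝ}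
    (ht : 0 < t) : ‖v‖ ^ 2 - t * ‖ζ‖ ^ 2 ≤ ⟪P t v, v⟫_ℝ := by
  have h0 : Tendsto (fun s : ℝ => -⟪P s v, v⟫_ℝ - s * ‖ζ‖ ^ 2) (𝓝[>] 0)
      (𝓝 (-⟪v, v⟫_ℝ - 0 * ‖ζ‖ ^ 2)) :=
    ((hP.init v).inner tendsto_const_nhds).neg.sub
      ((tendsto_id.mono_left nhdsWithin_le_nhds).mul_const _)
  have := le_of_deriv ht h0 fun s hs _ => by
    obtain ⟨ξ, f, a, b⟩ := hP.flow v hs
    refine ⟨_, (b.inner ℝ (hasDerivAt_const s v)).neg.sub ((hasDerivAt_id s).mul_const _), ?_⟩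
    obtain ⟨ξ', e, e'⟩ := hP.lap_flow a hs
    have h1 : ‖ξ‖ ^ 2 ≤ ‖ξ‖ * ‖ζ‖ := by
      rw [a.norm_sq, ← hP.symm hs.le, ← e.2 v ζ h]
      exact (real_inner_le_norm _ _).trans (mul_le_mul_of_nonneg_right e' (norm_nonneg _))
    have h2 : ‖ξ‖ ≤ ‖ζ‖ := by
      by_contra hc
      have := norm_nonneg ζ
      nlinarith [not_le.1 hc]
    have h3 := real_inner_le_norm ξ ζ
    rw [a.2 v ζ h] at h3
    rw [inner_neg_left, inner_zero_right]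
    nlinarith [norm_nonneg ζ]
  rw [real_inner_self_eq_norm_sq] at this
  linarith

theorem IsHeat₂.fix (hP : IsHeat₂ Γ P) {v : A} (h : (v, (0 : K)) ∈ Γ) {t : ℝ} (ht : 0 ≤ t) :
    P t v = v := by
  rcases ht.eq_or_lt with rfl | ht
  · exact (hP v).1
  refine (hP.eq_of_sol (u := fun _ => v) tendsto_const_nhds (fun s _ => ?_) ht).symm
  exact ⟨0, 0, ⟨h, fun w ξ' _ => by simp⟩, by simpa using hasDerivAt_const s v⟩

theorem IsHeat₂.tendsto_zero [CompleteSpace A] (hP : IsHeat₂ Γ P) {v : A}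
    (hv : ∀ h, (h, (0 : K)) ∈ Γ → ⟪h, v⟫_ℝ = 0) :
    Tendsto (fun t => ⟪P t v, v⟫_ℝ) atTop (𝓝 0) := by
  have hc : CauchySeq fun t : ℝ => P t v := by
    refine Metric.cauchySeq_iff'.2 fun ε hε => ?_
    have hb : BddBelow ((fun t => ‖P t v‖ ^ 2) '' Ici 0) :=
      ⟨0, by rintro _ ⟨t, -, rfl⟩; positivity⟩
    obtain ⟨_, ⟨s, hs, rfl⟩, h1⟩ := exists_lt_of_csInf_lt
      ((nonempty_Ici (a := (0 : ℝ))).image fun t => ‖P t v‖ ^ 2)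
      (lt_add_of_pos_right _ (pow_pos hε 2))
    refine ⟨s, fun t ht => ?_⟩
    have hs0 : 0 ≤ s := hs
    have ht0 : 0 ≤ t := hs0.trans ht
    have h2 := csInf_le hb ⟨t, ht0, rfl⟩
    have h3 : ‖P t v‖ ^ 2 ≤ ⟪P t v, P s v⟫_ℝ := by
      rw [← real_inner_self_eq_norm_sq, ← hP.symm hs0, ← hP.symm ht0, ← hP.add hs0 ht0,
        ← hP.add ht0 ht0]
      exact hP.inner_anti (by linarith) (by linarith) v
    rw [dist_eq_norm]
    refine lt_of_pow_lt_pow_left₀ 2 hε.le ?_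
    rw [norm_sub_sq_real]
    simp only at h1 h2
    linarith
  obtain ⟨w, hw⟩ := cauchySeq_tendsto_of_complete hc
  have hfix : ∀ t, 0 ≤ t → P t w = w := fun t ht => by
    have h1 : Tendsto (fun s => P t (P s v)) atTop (𝓝 (P t w)) := ((P t).continuous.tendsto w).comp hw
    have h2 : Tendsto (fun s => P (t + s) v) atTop (𝓝 w) :=
      hw.comp (tendsto_atTop_add_const_left _ t tendsto_id)
    refine tendsto_nhds_unique h1 (h2.congr' ?_)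
    filter_upwards [eventually_ge_atTop 0] with s hs
    exact hP.add ht hs v
  obtain ⟨ξ, f, a, b⟩ := hP.flow w one_pos
  have h3 : (fun s => P s w) =ᶠ[𝓝 1] fun _ => w := by
    filter_upwards [Ioi_mem_nhds (zero_lt_one' ℝ)] with s hs
    exact hfix s (le_of_lt hs)
  have h4 : f = 0 := neg_eq_zero.1 (b.unique ((hasDerivAt_const 1 w).congr_of_eventuallyEq h3))
  have h5 := a.norm_sq
  rw [h4, inner_zero_left, sq_eq_zero_iff, norm_eq_zero] at h5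
  have h6 := a.1
  rw [h5, hfix 1 zero_le_one] at h6
  rw [← hv w h6]
  exact hw.inner tendsto_const_nhds

end Pool.Agent.Lib.MP_570070_gt.An
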