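import Pool.Agent.Lib.MP_570070_gt.An.ADuh

open MeasureTheory Filter Topology Set
open scoped InnerProductSpace

namespace Pool.Agent.Lib.MP_570070_gt.An

variable {A K A' K' : Type} [NormedAddCommGroup A] [InnerProductSpace ℝ A]
  [NormedAddCommGroup K] [InnerProductSpace ℝ K] [NormedAddCommGroup A'] [InnerProductSpace ℝ A']
  [NormedAddCommGroup K'] [InnerProductSpace ℝ K']
  {Γ : Submodule ℝ (A × K)} {Γ' : Submodule ℝ (A' × K')}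
  {P : ℝ → A →L[ℝ] A} {P' : ℝ → A' →L[ℝ] A'}

section

variable {S : Submodule ℝ A} {S' : Submodule ℝ A'} {a G : ℝ} {r : ℕ}

/-- `T_le`, `le_T`, `Z_S` give `‖T z‖ = ‖z‖` on `S`; polarise. -/
theorem LocData.inner_T (𝓛 : LocData Γ Γ' P S S' a G r) {z w : A} (hz : z ∈ S) (hw : w ∈ S) :
    ⟪𝓛.T z, 𝓛.T w⟫_ℝ = ⟪z, w⟫_ℝ := by
  have h : ∀ z ∈ S, ‖𝓛.T z‖ ^ 2 = ‖z‖ ^ 2 := fun z hz => by
    have h1 := 𝓛.le_T z
    rw [𝓛.Z_S z hz, add_zero] at h1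
    exact le_antisymm (pow_le_pow_left₀ (norm_nonneg _) (𝓛.T_le z) 2) h1
  have h1 := h _ (S.add_mem hz hw)
  rw [map_add, norm_add_sq_real, norm_add_sq_real, h z hz, h w hw] at h1
  linarith

theorem aloc_two (x y : A) {η : ℝ} (hη : 0 < η) :
    (1 - η) * ‖x‖ ^ 2 ≤ ‖y‖ ^ 2 + 1 / η * ‖x - y‖ ^ 2 ∧
      ‖y‖ ^ 2 ≤ (1 + η) * ‖x‖ ^ 2 + (1 + 1 / η) * ‖x - y‖ ^ 2 := by
  have h1 := norm_sub_sq_real x (x - y)
  rw [sub_sub_cancel] at h1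
  have h2 := abs_le.1 (abs_real_inner_le_norm x (x - y))
  have h3 : η * ‖x‖ ^ 2 + 1 / η * ‖x - y‖ ^ 2 - 2 * (‖x‖ * ‖x - y‖) =
      (η * ‖x‖ - ‖x - y‖) ^ 2 / η := by
    field_simp
    ring
  have h4 : 0 ≤ (η * ‖x‖ - ‖x - y‖) ^ 2 / η := by positivity
  have h5 := sq_nonneg ‖x - y‖
  constructor <;> linarith [h2.1, h2.2]

/-- One comparison, `τ = t / 2`. `T` matches orthonormal families in `S` and `S'`.
`‖x + y‖ ^ 2 ≤ (1 + η) ‖x‖ ^ 2 + (1 + 1 / η) ‖y‖ ^ 2` gives the upper bound for the new trace;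
`(1 - η) ‖x‖ ^ 2 - ‖x - y‖ ^ 2 / η ≤ ‖y‖ ^ 2`, `le_T` and `far` give the lower bound.
Use `sum_sq_le`, `tr_le_of_sq`, `duhamel`; the empty family gives `0 ≤ h`. -/
theorem LocData.step (𝓛 : LocData Γ Γ' P S S' a G r) (hP : IsHeat₂ Γ P) (hP' : IsHeat₂ Γ' P')
    {t h η : ℝ} (ht : 0 < t) (hf : trOn (S : Set A) (P t) ≠ ⊤)
    (hf' : trOn (S' : Set A') (P' t) ≠ ⊤) (hη : 0 < η) (hη1 : η ≤ 1)
    (hh : ∀ s, 0 < s → s ≤ t / 2 → ∀ (m : ℕ) (e : Fin m → A), Orthonormal ℝ e →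
      (∀ j, e j ∈ S) → ∑ j, ⟪𝓛.N (P s (e j)), P s (e j)⟫_ℝ ≤ h) :
    |(trOn (S' : Set A') (P' t)).toReal - (trOn (S : Set A) (P t)).toReal| ≤
      η * (trOn (S : Set A) (P t)).toReal + a ^ 2 * (t / 2) * h +
        (1 + 1 / η) * (a ^ 2 * (1 + a ^ 2) * (1 + t) * (t / 2) * h) := by
  have hτ : 0 < t / 2 := half_pos ht
  have h0 : 0 ≤ h := by
    have h1 := hh (t / 2) hτ le_rfl 0 Fin.elim0 (by simp [orthonormal_iff_ite]) fun j => j.elim0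
    simpa using h1
  have e2 : 1 + 2 * (t / 2) = 1 + t := by ring
  have hV : 0 ≤ a ^ 2 * (1 + a ^ 2) * (1 + t) * (t / 2) * h := by positivity
  have hF : 0 ≤ a ^ 2 * (t / 2) * h := by positivity
  have hup : (trOn (S' : Set A') (P' t)).toReal ≤ (1 + η) * (trOn (S : Set A) (P t)).toReal +
      (1 + 1 / η) * (a ^ 2 * (1 + a ^ 2) * (1 + t) * (t / 2) * h) := by
    refine hP'.tr_le_of_sq ht.le fun m e' he' hS' => ?_
    choose e hS hT using fun j => 𝓛.T_onto _ (hS' j)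
    have he : Orthonormal ℝ e := by
      rw [orthonormal_iff_ite] at he' ⊢
      intro i j
      rw [← 𝓛.inner_T (hS i) (hS j), hT, hT, he']
    have h1 := 𝓛.duhamel hP hP' hS hτ fun s hs hs' => hh s hs hs' m e he hS
    rw [e2] at h1
    have h2 := hP.sum_sq_le ht.le hf he hS
    calc ∑ j, ‖P' (t / 2) (e' j)‖ ^ 2
        ≤ ∑ j, ((1 + η) * ‖P (t / 2) (e j)‖ ^ 2 +
          (1 + 1 / η) * ‖𝓛.T (P (t / 2) (e j)) - P' (t / 2) (𝓛.T (e j))‖ ^ 2) := by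
          refine Finset.sum_le_sum fun j _ => ?_
          rw [← hT j]
          refine (aloc_two (𝓛.T (P (t / 2) (e j))) _ hη).2.trans ?_
          have h3 := 𝓛.T_le (P (t / 2) (e j))
          gcongr
      _ = (1 + η) * ∑ j, ‖P (t / 2) (e j)‖ ^ 2 + (1 + 1 / η) *
          ∑ j, ‖𝓛.T (P (t / 2) (e j)) - P' (t / 2) (𝓛.T (e j))‖ ^ 2 := by
          rw [Finset.sum_add_distrib, Finset.mul_sum, Finset.mul_sum]
      _ ≤ _ := by gcongr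
  have hlow : (trOn (S : Set A) (P t)).toReal ≤ (trOn (S' : Set A') (P' t)).toReal +
      η * (trOn (S : Set A) (P t)).toReal + a ^ 2 * (t / 2) * h +
      1 / η * (a ^ 2 * (1 + a ^ 2) * (1 + t) * (t / 2) * h) := by
    refine hP.tr_le_of_sq ht.le fun m e he hS => ?_
    have he' : Orthonormal ℝ fun j => 𝓛.T (e j) := by
      rw [orthonormal_iff_ite] at he ⊢
      intro i j
      rw [𝓛.inner_T (hS i) (hS j), he]
    have h1 := 𝓛.duhamel hP hP' hS hτ fun s hs hs' => hh s hs hs' m e he hS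
    rw [e2] at h1
    have h2 := hP.sum_sq_le ht.le hf he hS
    have h3 := hP'.sum_sq_le ht.le hf' he' fun j => 𝓛.T_S _ (hS j)
    have h4 := 𝓛.far hP hS hτ fun s hs hs' => hh s hs hs' m e he hS
    calc ∑ j, ‖P (t / 2) (e j)‖ ^ 2
        ≤ ∑ j, (‖P' (t / 2) (𝓛.T (e j))‖ ^ 2 + η * ‖P (t / 2) (e j)‖ ^ 2 +
          ⟪𝓛.Z.M (P (t / 2) (e j)), P (t / 2) (e j)⟫_ℝ +
          1 / η * ‖𝓛.T (P (t / 2) (e j)) - P' (t / 2) (𝓛.T (e j))‖ ^ 2) := by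
          refine Finset.sum_le_sum fun j _ => ?_
          have h5 := (aloc_two (𝓛.T (P (t / 2) (e j))) (P' (t / 2) (𝓛.T (e j))) hη).1
          have h6 := 𝓛.le_T (P (t / 2) (e j))
          have h7 := mul_le_mul_of_nonneg_left
            (pow_le_pow_left₀ (norm_nonneg _) (𝓛.T_le (P (t / 2) (e j))) 2) hη.le
          linarith
      _ = ∑ j, ‖P' (t / 2) (𝓛.T (e j))‖ ^ 2 + η * ∑ j, ‖P (t / 2) (e j)‖ ^ 2 +
          ∑ j, ⟪𝓛.Z.M (P (t / 2) (e j)), P (t / 2) (e j)⟫_ℝ +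
          1 / η * ∑ j, ‖𝓛.T (P (t / 2) (e j)) - P' (t / 2) (𝓛.T (e j))‖ ^ 2 := by
          rw [Finset.sum_add_distrib, Finset.sum_add_distrib, Finset.sum_add_distrib,
            Finset.mul_sum, Finset.mul_sum]
      _ ≤ _ := by gcongr
  rw [abs_le]
  constructor <;> linarith

end

/-- The numerical bound behind `annulus`: `ρ = 2 (|G| + 1) μ`, `μ = √(T / s) ≥ 1`, so
`(1 + G ^ r) / ρ ^ r ≤ 2 / (2 ^ r μ ^ r)`, `μ ^ r ≥ μ ^ (2 (N + M)) = (T / s) ^ (N + M)`,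
`(ρ - 1) ^ 2 s ≤ 4 (|G| + 1) ^ 2 T`, and `(1 / 2) ^ r → 0`. -/
theorem aloc_num (a G C T : ℝ) (hT : 1 ≤ T) (N M : ℕ) {δ : ℝ} (hδ : 0 < δ) :
    ∃ r₀ : ℕ, ∀ r, r₀ ≤ r → ∀ s, 0 < s → s ≤ T → ∃ ρ, 1 ≤ ρ ∧ ∀ θ, 0 ≤ θ → θ * s ^ N ≤ C →
      2 * (1 + G ^ r) * (ρ ^ r)⁻¹ * Real.exp ((a * (ρ - 1)) ^ 2 * (s / 2)) * θ ≤ δ * s ^ M := by
  obtain ⟨g, hg⟩ : ∃ g, g = |G| + 1 := ⟨_, rfl⟩
  have hg1 : 1 ≤ g := by rw [hg]; linarith [abs_nonneg G]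
  obtain ⟨E, hE⟩ : ∃ E, E = Real.exp (a ^ 2 * (2 * g ^ 2 * T)) := ⟨_, rfl⟩
  have hE0 : 0 < E := hE ▸ Real.exp_pos _
  obtain ⟨r₁, hr₁⟩ := exists_pow_lt_of_lt_one (show 0 < δ / (4 * E * (|C| + 1)) by positivity)
    (show (1 / 2 : ℝ) < 1 by norm_num)
  refine ⟨max r₁ (2 * (N + M)), fun r hr s hs hsT => ?_⟩
  obtain ⟨μ, hμ1, hμ2⟩ : ∃ μ : ℝ, 1 ≤ μ ∧ μ ^ 2 = T / s :=
    ⟨√(T / s), Real.one_le_sqrt.2 ((one_le_div hs).2 hsT), Real.sq_sqrt (by positivity)⟩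
  have hρ : 1 ≤ 2 * g * μ := by nlinarith
  refine ⟨2 * g * μ, hρ, fun θ hθ hC => ?_⟩
  have hA : 1 + G ^ r ≤ 2 * g ^ r := by
    have h1 : G ^ r ≤ g ^ r := by
      refine (le_abs_self _).trans ?_
      rw [abs_pow]
      exact pow_le_pow_left₀ (abs_nonneg _) (by rw [hg]; linarith) r
    linarith [one_le_pow₀ hg1 (n := r)]
  have hB : 2 * (2 * g ^ r) * ((2 * g * μ) ^ r)⁻¹ = 4 * (1 / 2) ^ r * (μ ^ r)⁻¹ := by
    rw [mul_pow, mul_pow, one_div, inv_pow]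
    field_simp
    norm_num
  have hD : (μ ^ r)⁻¹ ≤ s ^ (N + M) := by
    rw [inv_le_iff_one_le_mul₀ (by positivity)]
    calc (1 : ℝ) ≤ T ^ (N + M) := one_le_pow₀ hT
      _ = s ^ (N + M) * μ ^ (2 * (N + M)) := by
        rw [pow_mul, hμ2, ← mul_pow, mul_div_cancel₀ _ hs.ne']
      _ ≤ s ^ (N + M) * μ ^ r :=
        mul_le_mul_of_nonneg_left (pow_le_pow_right₀ hμ1 ((le_max_right _ _).trans hr))
          (by positivity)
  have hF : Real.exp ((a * (2 * g * μ - 1)) ^ 2 * (s / 2)) ≤ E := by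
    rw [hE, Real.exp_le_exp, mul_pow, mul_assoc]
    refine mul_le_mul_of_nonneg_left ?_ (sq_nonneg a)
    calc (2 * g * μ - 1) ^ 2 * (s / 2) ≤ (2 * g * μ) ^ 2 * (s / 2) :=
          mul_le_mul_of_nonneg_right (pow_le_pow_left₀ (by linarith) (by linarith) 2)
            (by positivity)
      _ = 2 * g ^ 2 * T := by
          rw [mul_pow, hμ2]
          field_simp
  have hG : (1 / 2 : ℝ) ^ r * (4 * E * (|C| + 1)) ≤ δ := by
    rw [← le_div_iff₀ (by positivity)]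
    exact (pow_le_pow_of_le_one (by norm_num) (by norm_num) ((le_max_left _ _).trans hr)).trans
      hr₁.le
  have hH : θ * s ^ N ≤ |C| + 1 := by linarith [le_abs_self C]
  calc 2 * (1 + G ^ r) * ((2 * g * μ) ^ r)⁻¹ * Real.exp ((a * (2 * g * μ - 1)) ^ 2 * (s / 2)) * θ
      ≤ 2 * (2 * g ^ r) * ((2 * g * μ) ^ r)⁻¹ * Real.exp ((a * (2 * g * μ - 1)) ^ 2 * (s / 2)) *
        θ := by gcongr
    _ ≤ 4 * (1 / 2) ^ r * s ^ (N + M) * E * θ := by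
        rw [hB]
        gcongr
    _ = (1 / 2) ^ r * (4 * E * (θ * s ^ N)) * s ^ M := by ring
    _ ≤ (1 / 2) ^ r * (4 * E * (|C| + 1)) * s ^ M := by gcongr
    _ ≤ δ * s ^ M := by gcongr

theorem aloc_small {x y c d : ℝ} (hx : 0 ≤ x) (hy : 0 ≤ y) (hc : 0 < c) (hd : 0 < d) :
    ∃ δ, 0 < δ ∧ δ * x ≤ c ∧ δ * y ≤ d := by
  obtain ⟨δ, h0, h⟩ := exists_pos_mul_lt (lt_min hc hd) (x + y)
  have h1 := mul_nonneg hx h0.le
  have h2 := mul_nonneg hy h0.le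
  exact ⟨δ, h0, by linarith [min_le_left c d], by linarith [min_le_right c d]⟩

/-- Locality. The scale r₀ depends on the numbers only. With `T₁ = max T 1`,
`θ s * s ^ N ≤ C₀ = |C| * T₁ ^ N` on `(0, T₁]` (`heat_tr_antitone` for `s ≥ 1`); `step` with
`η = η₀ t ^ (N + 1)`, `h = δ t ^ (N + 2)`, `η₀ T₁ ^ (N + 1) ≤ 1`, `η₀ C₀ ≤ ε / 3`. -/
theorem heat_local (a G C T ε : ℝ) (N : ℕ) (hε : 0 < ε) : ∃ r₀ : ℕ, ∀ r, r₀ ≤ r →
    ∀ {A K A' K' : Type} [NormedAddCommGroup A] [InnerProductSpace ℝ A] [CompleteSpace A]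
      [NormedAddCommGroup K] [InnerProductSpace ℝ K] [NormedAddCommGroup A']
      [InnerProductSpace ℝ A'] [CompleteSpace A'] [NormedAddCommGroup K'] [InnerProductSpace ℝ K']
      {Γ : Submodule ℝ (A × K)} {Γ' : Submodule ℝ (A' × K')}
      {P : ℝ → A →L[ℝ] A} {P' : ℝ → A' →L[ℝ] A'} {S : Submodule ℝ A} {S' : Submodule ℝ A'},
      IsHeat₂ Γ P → IsHeat₂ Γ' P' → LocData Γ Γ' P S S' a G r →
      (∀ t, 0 < t → trOn (S : Set A) (P t) ≠ ⊤) → (∀ t, 0 < t → trOn (S' : Set A') (P' t) ≠ ⊤) →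
      (∀ t ∈ Ioc (0 : ℝ) 1, (trOn (S : Set A) (P t)).toReal ≤ C / t ^ N) →
      ∀ t ∈ Ioc (0 : ℝ) T,
        |(trOn (S' : Set A') (P' t)).toReal - (trOn (S : Set A) (P t)).toReal| ≤ ε * t := by
  obtain ⟨T₁, hT, hT1⟩ : ∃ T₁ : ℝ, T ≤ T₁ ∧ 1 ≤ T₁ := ⟨max T 1, le_max_left _ _, le_max_right _ _⟩
  have hε3 : 0 < ε / 3 := by positivity
  obtain ⟨η₀, hη₀, h1, h2⟩ := aloc_small (x := T₁ ^ (N + 1)) (y := |C| * T₁ ^ N) (by positivity)
    (by positivity) one_pos hε3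
  obtain ⟨δ, hδ, h3, h4⟩ := aloc_small (x := a ^ 2 * T₁ ^ (N + 2))
    (y := a ^ 2 * (1 + a ^ 2) * (1 + T₁) * T₁ / η₀) (by positivity) (by positivity) hε3 hε3
  obtain ⟨r₀, hr₀⟩ := aloc_num a G (|C| * T₁ ^ N) T₁ hT1 N (N + 2) hδ
  refine ⟨r₀, fun r hr => ?_⟩
  intro A K A' K' _ _ _ _ _ _ _ _ _ _ Γ Γ' P P' S S' hP hP' 𝓛 hf hf' hC t ht
  have hθ : ∀ s, 0 < s → s ≤ T₁ → (trOn (S : Set A) (P s)).toReal * s ^ N ≤ |C| * T₁ ^ N := by
    intro s hs hsT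
    rcases le_total s 1 with h | h
    · have h5 := hC s ⟨hs, h⟩
      rw [le_div_iff₀ (by positivity)] at h5
      exact h5.trans ((le_abs_self C).trans
        (le_mul_of_one_le_right (abs_nonneg C) (one_le_pow₀ hT1)))
    · have h5 := hC 1 ⟨one_pos, le_rfl⟩
      rw [one_pow, div_one] at h5
      have h6 : (trOn (S : Set A) (P s)).toReal ≤ (trOn (S : Set A) (P 1)).toReal :=
        heat_tr_antitone hP (S : Set A) hf (mem_Ioi.2 one_pos) (mem_Ioi.2 hs) h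
      exact mul_le_mul (h6.trans (h5.trans (le_abs_self C))) (pow_le_pow_left₀ hs.le hsT N)
        (by positivity) (abs_nonneg C)
  have ht0 : 0 < t := ht.1
  have htT : t ≤ T₁ := ht.2.trans hT
  have hη : 0 < η₀ * t ^ (N + 1) := by positivity
  have hη1 : η₀ * t ^ (N + 1) ≤ 1 := le_trans (by gcongr) h1
  refine (𝓛.step hP hP' (h := δ * t ^ (N + 2)) ht0 (hf t ht0) (hf' t ht0) hη hη1
    fun s hs hst m e he hS => ?_).trans ?_
  · have hst' : s ≤ t := by linarith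
    obtain ⟨ρ, hρ, h5⟩ := hr₀ r hr s hs (hst'.trans htT)
    refine (𝓛.annulus hP hs (hf s hs) hρ he hS).trans
      ((h5 _ ENNReal.toReal_nonneg (hθ s hs (hst'.trans htT))).trans ?_)
    gcongr
  · have b1 : η₀ * t ^ (N + 1) * (trOn (S : Set A) (P t)).toReal ≤ ε / 3 * t := by
      calc η₀ * t ^ (N + 1) * (trOn (S : Set A) (P t)).toReal
          = η₀ * ((trOn (S : Set A) (P t)).toReal * t ^ N) * t := by ring
        _ ≤ η₀ * (|C| * T₁ ^ N) * t := by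
          have h5 := hθ t ht0 htT
          gcongr
        _ ≤ ε / 3 * t := by gcongr
    have b2 : a ^ 2 * (t / 2) * (δ * t ^ (N + 2)) ≤ ε / 3 * t := by
      calc a ^ 2 * (t / 2) * (δ * t ^ (N + 2)) ≤ a ^ 2 * t * (δ * T₁ ^ (N + 2)) := by
            gcongr
            linarith
        _ = δ * (a ^ 2 * T₁ ^ (N + 2)) * t := by ring
        _ ≤ ε / 3 * t := by gcongr
    have b3 : (1 + 1 / (η₀ * t ^ (N + 1))) *
        (a ^ 2 * (1 + a ^ 2) * (1 + t) * (t / 2) * (δ * t ^ (N + 2))) ≤ ε / 3 * t := by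
      have h5 : 1 ≤ 1 / (η₀ * t ^ (N + 1)) := (one_le_div hη).2 hη1
      calc (1 + 1 / (η₀ * t ^ (N + 1))) *
            (a ^ 2 * (1 + a ^ 2) * (1 + t) * (t / 2) * (δ * t ^ (N + 2)))
          ≤ (1 / (η₀ * t ^ (N + 1)) + 1 / (η₀ * t ^ (N + 1))) *
            (a ^ 2 * (1 + a ^ 2) * (1 + t) * (t / 2) * (δ * t ^ (N + 2))) := by gcongr
        _ = δ * (a ^ 2 * (1 + a ^ 2) * (1 + t) * t / η₀) * t := by
            field_simp
            ring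
        _ ≤ δ * (a ^ 2 * (1 + a ^ 2) * (1 + T₁) * T₁ / η₀) * t := by gcongr
        _ ≤ ε / 3 * t := by gcongr
    linarith

end Pool.Agent.Lib.MP_570070_gt.An
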