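import Pool.Agent.Lib.MP_570070_gt.An.ADefs

open MeasureTheory Filter Topology Set
open scoped InnerProductSpace

namespace Pool.Agent.Lib.MP_570070_gt.An

variable {H H' : ℕ → Type} [∀ k, NormedAddCommGroup (H k)] [∀ k, InnerProductSpace ℝ (H k)]
  [∀ k, CompleteSpace (H k)] [∀ k, NormedAddCommGroup (H' k)] [∀ k, InnerProductSpace ℝ (H' k)]
  [∀ k, CompleteSpace (H' k)]
  {D : ∀ k, H k → H (k + 1) → Prop} {D' : ∀ k, H' k → H' (k + 1) → Prop}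

/-- `ξ = WithLp.toLp 2 (η, ψ)`, `WithLp.prod_inner_apply`. -/
theorem isHeat₂_of_isHeat {k : ℕ} {P : ℝ → H k →L[ℝ] H k} (h : IsHeat (dom D k) P) :
    IsHeat₂ (domS D k) P := by
  intro f
  obtain ⟨h0, hc, hd⟩ := h f
  refine ⟨h0, hc, fun t ht => ?_⟩
  obtain ⟨g, ⟨η, ψ, h1, h2⟩, h3⟩ := hd t ht
  refine ⟨g, ⟨WithLp.toLp 2 (η, ψ), h1, fun w ξ hw => ?_⟩, h3⟩
  rw [WithLp.prod_inner_apply]
  exact h2 w ξ.fst ξ.snd hw

/-- Morphisms with a defect preserve the weak relations. Given test `φ'` with `WCod D' k φ' ψ'`,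
`φ = T' (k + 1) φ'` is test and `WCod D k φ (T' k ψ' - adjoint (C k) φ')`. -/
theorem WD.map (T : ∀ k, H k →L[ℝ] H' k) (T' : ∀ k, H' k →L[ℝ] H k)
    (C : ∀ k, H k →L[ℝ] H' (k + 1)) (C' : ∀ k, H' k →L[ℝ] H (k + 1))
    (adj : ∀ k u v, ⟪T k u, v⟫_ℝ = ⟪u, T' k v⟫_ℝ)
    (hD : ∀ k a b, D k a b → D' k (T k a) (T (k + 1) b + C k a))
    (hD' : ∀ k a b, D' k a b → D k (T' k a) (T' (k + 1) b + C' k a))
    {k : ℕ} {u : H k} {η : H (k + 1)} (h : WD D k u η) :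
    WD D' k (T k u) (T (k + 1) η + C k u) := by
  rintro φ ψ ⟨b, hb⟩ hφ
  have h1 := h (T' (k + 1) φ) (T' k ψ - ContinuousLinearMap.adjoint (C k) φ) ⟨_, hD' _ _ _ hb⟩
    fun x y hxy => by
      have h2 := hφ _ _ (hD _ _ _ hxy)
      rw [inner_add_left, adj, adj] at h2
      rw [inner_sub_right, ContinuousLinearMap.adjoint_inner_right, ← h2, add_sub_cancel_right]
  rw [inner_sub_right, ContinuousLinearMap.adjoint_inner_right] at h1
  rw [inner_add_left, adj, adj, ← h1, sub_add_cancel]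

theorem WCod.map (T : ∀ k, H k →L[ℝ] H' k) (T' : ∀ k, H' k →L[ℝ] H k)
    (C' : ∀ k, H' k →L[ℝ] H (k + 1)) (adj : ∀ k u v, ⟪T k u, v⟫_ℝ = ⟪u, T' k v⟫_ℝ)
    (hD' : ∀ k a b, D' k a b → D k (T' k a) (T' (k + 1) b + C' k a))
    {k : ℕ} {u : H (k + 1)} {ψ : H k} (h : WCod D k u ψ) :
    WCod D' k (T (k + 1) u) (T k ψ - ContinuousLinearMap.adjoint (C' k) u) := by
  intro a b hab
  have h1 := h _ _ (hD' _ _ _ hab)
  rw [inner_add_left] at h1
  rw [inner_sub_right, ContinuousLinearMap.adjoint_inner_right, real_inner_comm (T _ u), adj,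
    real_inner_comm (T _ ψ), adj, real_inner_comm (T' _ a), ← h1, add_sub_cancel_right,
    real_inner_comm]

/-- The coexact projection: orthogonal projection to the complement of the closed submodule
`Z = {u | WD D 1 u 0}` (`Submodule.starProjection` of `Zᗮ`; `a - Pr a ∈ Z`; `D 1 a b → WD D 1 a b`;
`D 0 f b → b ∈ Z`). -/
theorem exists_coex (hdd : ∀ f b, D 0 f b → D 1 b 0) : ∃ Pr : H 1 →L[ℝ] H 1,
    (∀ a b, D 1 a b → (Pr a, (WithLp.toLp 2 (b, 0) : KK H 1)) ∈ domS D 1) ∧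
    (∀ a h, (h, (0 : KK H 1)) ∈ domS D 1 → ⟪h, Pr a⟫_ℝ = 0) ∧
    ∀ a b φ ψ, D 1 a b → (∃ x, D 2 φ x) → WCod D 1 φ ψ → ⟪b, φ⟫_ℝ = ⟪Pr a, ψ⟫_ℝ := by
  have hW : ∀ a b, D 1 a b → WD D 1 a b := fun a b hab φ ψ _ hφ => (hφ a b hab).symm
  let Z : Submodule ℝ (H 1) := (Submodule.span ℝ {ψ | ∃ φ, (∃ x, D 2 φ x) ∧ WCod D 1 φ ψ})ᗮ
  have hZ : ∀ u, u ∈ Z ↔ WD D 1 u 0 := fun u => by
    refine ⟨fun hu φ ψ h1 h2 => ?_, fun hu v hv => ?_⟩
    · rw [inner_zero_left, real_inner_comm]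
      exact hu ψ (Submodule.subset_span ⟨φ, h1, h2⟩)
    · induction hv using Submodule.span_induction with
      | mem ψ hψ =>
        obtain ⟨φ, h1, h2⟩ := hψ
        rw [real_inner_comm, hu φ ψ h1 h2, inner_zero_left]
      | zero => exact inner_zero_left _
      | add x y _ _ hx hy => rw [inner_add_left, hx, hy, add_zero]
      | smul c x _ hx => rw [inner_smul_left, hx, mul_zero]
  have h1 : ∀ a, a - Zᗮ.starProjection a ∈ Z := fun a => by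
    have h := Zᗮ.sub_starProjection_mem_orthogonal a
    rwa [Submodule.orthogonal_orthogonal] at h
  have h2 : ∀ a, ∀ h ∈ Z, ⟪h, Zᗮ.starProjection a⟫_ℝ = 0 := fun a h hh =>
    Zᗮ.starProjection_apply_mem a h hh
  have h3 : ∀ a b, D 1 a b → WD D 1 (Zᗮ.starProjection a) b := fun a b hab φ ψ hφ hψ => by
    have h4 := (hZ _).1 (h1 a) φ ψ hφ hψ
    rw [inner_sub_left, inner_zero_left, sub_eq_zero] at h4
    rw [← h4]
    exact hW a b hab φ ψ hφ hψ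
  refine ⟨Zᗮ.starProjection, fun a b hab => ⟨h3 a b hab, fun f c hc => ?_⟩,
    fun a h hh => h2 a h ((hZ h).2 hh.1), fun a b φ ψ hab hφ hψ => (h3 a b hab φ ψ hφ hψ).symm⟩
  exact (h2 a c ((hZ c).2 (hW c 0 (hdd f c hc)))).trans (inner_zero_right _).symm

end Pool.Agent.Lib.MP_570070_gt.An
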