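import Pool.Agent.Lib.MP_570070_gt.An.AHeat
import Pool.Agent.Lib.MP_570070_gt.An.AWeak

open MeasureTheory Filter Topology Set
open scoped InnerProductSpace

namespace Pool.Agent.Lib.MP_570070_gt.An

variable {H : ℕ → Type} [∀ k, NormedAddCommGroup (H k)] [∀ k, InnerProductSpace ℝ (H k)]
  [∀ k, CompleteSpace (H k)] {D : ∀ k, H k → H (k + 1) → Prop}

theorem WCod.unique {k : ℕ} (dense : Dense {a : H k | ∃ b, D k a b}) {u : H (k + 1)} {ψ ψ' : H k}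
    (h : WCod D k u ψ) (h' : WCod D k u ψ') : ψ = ψ' := by
  have h0 : ∀ a : H k, ⟪a, ψ - ψ'⟫_ℝ = 0 := by
    intro a
    have hc : IsClosed {a : H k | ⟪a, ψ - ψ'⟫_ℝ = 0} :=
      isClosed_eq (continuous_id.inner continuous_const) continuous_const
    refine hc.closure_subset_iff.mpr ?_ (dense a)
    rintro x ⟨b, hb⟩
    change ⟪x, ψ - ψ'⟫_ℝ = 0
    rw [inner_sub_right, ← h x b hb, ← h' x b hb, sub_self]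
  exact sub_eq_zero.mp (inner_self_eq_zero.mp (h0 _))

section

variable {A B : Type} [NormedAddCommGroup A] [InnerProductSpace ℝ A] [NormedAddCommGroup B]
  [InnerProductSpace ℝ B]

theorem astar_l (U : A ≃ₗᵢ[ℝ] B) (a : A) (b : B) : ⟪a, U.symm b⟫_ℝ = ⟪U a, b⟫_ℝ := by
  rw [← U.inner_map_map, U.apply_symm_apply]

theorem astar_r (U : A ≃ₗᵢ[ℝ] B) (a : A) (b : B) : ⟪U.symm b, a⟫_ℝ = ⟪b, U a⟫_ℝ := by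
  rw [← U.inner_map_map, U.apply_symm_apply]

end

section

variable (U₀ : H 0 ≃ₗᵢ[ℝ] H 3) (U₁ : H 1 ≃ₗᵢ[ℝ] H 2)

omit [∀ k, CompleteSpace (H k)] in
theorem astar_c0
    (s0 : ∀ f b β x, D 0 f b → D 2 (U₁ β) x → ⟪b, β⟫_ℝ = -⟪U₀ f, x⟫_ℝ)
    {β : H 1} {x : H 3} (h : D 2 (U₁ β) x) : WCod D 0 β (-U₀.symm x) := by
  intro f b hfb
  have e : ⟪b, β⟫_ℝ = -⟪U₀ f, x⟫_ℝ := s0 f b β x hfb h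
  rw [inner_neg_right, astar_l]
  exact e

omit [∀ k, CompleteSpace (H k)] in
theorem astar_c1
    (s1 : ∀ a b a' b', D 1 a b → D 1 a' b' → ⟪b, U₁ a'⟫_ℝ = ⟪U₁ a, b'⟫_ℝ)
    {a : H 1} {b : H 2} (h : D 1 a b) : WCod D 1 (U₁ a) (U₁.symm b) := by
  intro a' b' h'
  rw [astar_l]
  exact s1 a' b' a b h' h

omit [∀ k, CompleteSpace (H k)] in
theorem astar_c2
    (s0 : ∀ f b β x, D 0 f b → D 2 (U₁ β) x → ⟪b, β⟫_ℝ = -⟪U₀ f, x⟫_ℝ)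
    {f : H 0} {b : H 1} (h : D 0 f b) : WCod D 2 (U₀ f) (-U₁ b) := by
  intro a x hax
  obtain ⟨β, rfl⟩ := U₁.surjective a
  have e : ⟪b, β⟫_ℝ = -⟪U₀ f, x⟫_ℝ := s0 f b β x h hax
  have e1 : ⟪x, U₀ f⟫_ℝ = ⟪U₀ f, x⟫_ℝ := real_inner_comm _ _
  have e2 : ⟪β, b⟫_ℝ = ⟪b, β⟫_ℝ := real_inner_comm _ _
  rw [inner_neg_right, U₁.inner_map_map]
  change ⟪x, U₀ f⟫_ℝ = -⟪β, b⟫_ℝ
  linarith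

theorem astar_d3 (dense : Dense {a : H 3 | ∃ b, D 3 a b}) (h4 : ∀ z : H 4, z = 0) (v : H 3) :
    WD D 3 v 0 := by
  intro φ ψ _ hψ
  have h0 : WCod D 3 φ 0 := by
    intro a b _
    rw [h4 φ, inner_zero_right, inner_zero_right]
  rw [WCod.unique dense hψ h0, inner_zero_right, inner_zero_left]

omit [∀ k, CompleteSpace (H k)] in
theorem astar_03 (t1 : ∀ a, (∃ b, D 1 a b) ↔ ∃ b, D 2 (U₁ a) b)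
    (s0 : ∀ f b β x, D 0 f b → D 2 (U₁ β) x → ⟪b, β⟫_ℝ = -⟪U₀ f, x⟫_ℝ)
    {u : H 0} {η : H 1} (h : WD D 0 u η) : WCod D 2 (U₀ u) (-U₁ η) := by
  intro a x hax
  obtain ⟨β, rfl⟩ := U₁.surjective a
  have e : ⟪u, -U₀.symm x⟫_ℝ = ⟪η, β⟫_ℝ :=
    h β _ ((t1 β).mpr ⟨x, hax⟩) (astar_c0 U₀ U₁ s0 hax)
  rw [inner_neg_right, astar_l] at e
  have e1 : ⟪x, U₀ u⟫_ℝ = ⟪U₀ u, x⟫_ℝ := real_inner_comm _ _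
  have e2 : ⟪β, η⟫_ℝ = ⟪η, β⟫_ℝ := real_inner_comm _ _
  rw [inner_neg_right, U₁.inner_map_map]
  change ⟪x, U₀ u⟫_ℝ = -⟪β, η⟫_ℝ
  linarith

theorem astar_30 (dense : Dense {a : H 0 | ∃ b, D 0 a b})
    (t1 : ∀ a, (∃ b, D 1 a b) ↔ ∃ b, D 2 (U₁ a) b)
    (s0 : ∀ f b β x, D 0 f b → D 2 (U₁ β) x → ⟪b, β⟫_ℝ = -⟪U₀ f, x⟫_ℝ)
    {v : H 3} {ψ : H 2} (h : WCod D 2 v ψ) : WD D 0 (U₀.symm v) (-U₁.symm ψ) := by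
  intro φ χ hφ hχ
  obtain ⟨x, hx⟩ := (t1 φ).mp hφ
  rw [WCod.unique dense hχ (astar_c0 U₀ U₁ s0 hx)]
  have e : ⟪x, v⟫_ℝ = ⟪U₁ φ, ψ⟫_ℝ := h _ x hx
  have e1 : ⟪x, v⟫_ℝ = ⟪v, x⟫_ℝ := real_inner_comm _ _
  have e2 : ⟪U₁ φ, ψ⟫_ℝ = ⟪ψ, U₁ φ⟫_ℝ := real_inner_comm _ _
  have e3 : ⟪U₁.symm ψ, φ⟫_ℝ = ⟪ψ, U₁ φ⟫_ℝ := astar_r U₁ φ ψ
  rw [inner_neg_right, inner_neg_left, U₀.symm.inner_map_map]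
  change -⟪v, x⟫_ℝ = -⟪U₁.symm ψ, φ⟫_ℝ
  linarith

theorem astar_12a (dense : Dense {a : H 2 | ∃ b, D 2 a b})
    (t0 : ∀ a, (∃ b, D 0 a b) ↔ ∃ b, D 3 (U₀ a) b)
    (s0 : ∀ f b β x, D 0 f b → D 2 (U₁ β) x → ⟪b, β⟫_ℝ = -⟪U₀ f, x⟫_ℝ)
    {u : H 1} {ψ : H 0} (h : WCod D 0 u ψ) : WD D 2 (U₁ u) (-U₀ ψ) := by
  intro φ χ hφ hχ
  obtain ⟨f, rfl⟩ := U₀.surjective φ
  obtain ⟨b, hb⟩ := (t0 f).mpr hφ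
  rw [WCod.unique dense hχ (astar_c2 U₀ U₁ s0 hb)]
  have e : ⟪b, u⟫_ℝ = ⟪f, ψ⟫_ℝ := h f b hb
  have e1 : ⟪b, u⟫_ℝ = ⟪u, b⟫_ℝ := real_inner_comm _ _
  have e2 : ⟪f, ψ⟫_ℝ = ⟪ψ, f⟫_ℝ := real_inner_comm _ _
  have e3 : ⟪U₀ ψ, U₀ f⟫_ℝ = ⟪ψ, f⟫_ℝ := U₀.inner_map_map _ _
  rw [inner_neg_right, inner_neg_left, U₁.inner_map_map]
  change -⟪u, b⟫_ℝ = -⟪U₀ ψ, U₀ f⟫_ℝ
  linarith

omit [∀ k, CompleteSpace (H k)] in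
theorem astar_12b (t1 : ∀ a, (∃ b, D 1 a b) ↔ ∃ b, D 2 (U₁ a) b)
    (s1 : ∀ a b a' b', D 1 a b → D 1 a' b' → ⟪b, U₁ a'⟫_ℝ = ⟪U₁ a, b'⟫_ℝ)
    {u : H 1} {η : H 2} (h : WD D 1 u η) : WCod D 1 (U₁ u) (U₁.symm η) := by
  intro a b hab
  have e : ⟪u, U₁.symm b⟫_ℝ = ⟪η, U₁ a⟫_ℝ :=
    h (U₁ a) _ ((t1 a).mp ⟨b, hab⟩) (astar_c1 U₁ s1 hab)
  rw [astar_l] at e
  have e1 : ⟪b, U₁ u⟫_ℝ = ⟪U₁ u, b⟫_ℝ := real_inner_comm _ _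
  have e2 : ⟪U₁ a, η⟫_ℝ = ⟪η, U₁ a⟫_ℝ := real_inner_comm _ _
  rw [astar_l]
  change ⟪b, U₁ u⟫_ℝ = ⟪U₁ a, η⟫_ℝ
  linarith

theorem astar_21a (dense : Dense {a : H 1 | ∃ b, D 1 a b})
    (t1 : ∀ a, (∃ b, D 1 a b) ↔ ∃ b, D 2 (U₁ a) b)
    (s1 : ∀ a b a' b', D 1 a b → D 1 a' b' → ⟪b, U₁ a'⟫_ℝ = ⟪U₁ a, b'⟫_ℝ)
    {v : H 2} {ψ : H 1} (h : WCod D 1 v ψ) : WD D 1 (U₁.symm v) (U₁ ψ) := by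
  intro φ χ hφ hχ
  obtain ⟨a, rfl⟩ := U₁.surjective φ
  obtain ⟨b, hb⟩ := (t1 a).mpr hφ
  rw [WCod.unique dense hχ (astar_c1 U₁ s1 hb)]
  have e : ⟪b, v⟫_ℝ = ⟪a, ψ⟫_ℝ := h a b hb
  have e1 : ⟪b, v⟫_ℝ = ⟪v, b⟫_ℝ := real_inner_comm _ _
  have e2 : ⟪a, ψ⟫_ℝ = ⟪ψ, a⟫_ℝ := real_inner_comm _ _
  have e3 : ⟪U₁ ψ, U₁ a⟫_ℝ = ⟪ψ, a⟫_ℝ := U₁.inner_map_map _ _
  rw [U₁.symm.inner_map_map]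
  change ⟪v, b⟫_ℝ = ⟪U₁ ψ, U₁ a⟫_ℝ
  linarith

omit [∀ k, CompleteSpace (H k)] in
theorem astar_21b (t0 : ∀ a, (∃ b, D 0 a b) ↔ ∃ b, D 3 (U₀ a) b)
    (s0 : ∀ f b β x, D 0 f b → D 2 (U₁ β) x → ⟪b, β⟫_ℝ = -⟪U₀ f, x⟫_ℝ)
    {v : H 2} {η : H 3} (h : WD D 2 v η) : WCod D 0 (U₁.symm v) (-U₀.symm η) := by
  intro f b hfb
  have e : ⟪v, -U₁ b⟫_ℝ = ⟪η, U₀ f⟫_ℝ :=
    h (U₀ f) _ ((t0 f).mp ⟨b, hfb⟩) (astar_c2 U₀ U₁ s0 hfb)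
  rw [inner_neg_right] at e
  have e1 : ⟪U₁ b, v⟫_ℝ = ⟪v, U₁ b⟫_ℝ := real_inner_comm _ _
  have e2 : ⟪U₀ f, η⟫_ℝ = ⟪η, U₀ f⟫_ℝ := real_inner_comm _ _
  have e3 : ⟪b, U₁.symm v⟫_ℝ = ⟪U₁ b, v⟫_ℝ := astar_l U₁ b v
  rw [inner_neg_right, astar_l U₀]
  change ⟪b, U₁.symm v⟫_ℝ = -⟪U₀ f, η⟫_ℝ
  linarith

end

/-- The Hodge star intertwines the heat flows: `heat_equiv` with
`W (η, ψ) = (0, -U₁ η)`, `W' (η', ψ') = (-U₁⁻¹ ψ', 0)` in degrees 0, 3 and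
`W (η, ψ) = (-U₀ ψ, U₁⁻¹ η)`, `W' (η', ψ') = (U₁ ψ', -U₀⁻¹ η')` in degrees 1, 2.
Codifferentials of test forms: `D 2 (U₁ β) x → WCod D 0 β (-U₀⁻¹ x)` (s0),
`D 1 a b → WCod D 1 (U₁ a) (U₁⁻¹ b)` (s1), `D 0 f b → WCod D 2 (U₀ f) (-U₁ b)` (s0),
and `WCod D 3 φ 0` (h4); they are unique by `WCod.unique`. Prove the four inclusions as separate
lemmas about `WD` and `WCod`. -/
theorem star_heat (U₀ : H 0 ≃ₗᵢ[ℝ] H 3) (U₁ : H 1 ≃ₗᵢ[ℝ] H 2)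
    (dense : ∀ k, Dense {a : H k | ∃ b, D k a b}) (h4 : ∀ z : H 4, z = 0)
    (t0 : ∀ a, (∃ b, D 0 a b) ↔ ∃ b, D 3 (U₀ a) b) (t1 : ∀ a, (∃ b, D 1 a b) ↔ ∃ b, D 2 (U₁ a) b)
    (s1 : ∀ a b a' b', D 1 a b → D 1 a' b' → ⟪b, U₁ a'⟫_ℝ = ⟪U₁ a, b'⟫_ℝ)
    (s0 : ∀ f b β x, D 0 f b → D 2 (U₁ β) x → ⟪b, β⟫_ℝ = -⟪U₀ f, x⟫_ℝ)
    {P : ∀ k, ℝ → H k →L[ℝ] H k} (hP : ∀ k, IsHeat (dom D k) (P k)) {t : ℝ} (ht : 0 ≤ t) :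
    (∀ u, P 3 t (U₀ u) = U₀ (P 0 t u)) ∧ ∀ u, P 2 t (U₁ u) = U₁ (P 1 t u) := by
  refine ⟨fun u => ?_, fun u => ?_⟩
  · refine heat_equiv (isHeat₂_of_isHeat (hP 0)) (isHeat₂_of_isHeat (hP 3)) U₀
      (fun ξ => (WithLp.toLp 2 ((0 : H 4), (-U₁ ξ.fst : H 2)) : KK H 3))
      (fun ξ => (WithLp.toLp 2 ((-U₁.symm ξ.snd : H 1), (0 : H 0)) : KK H 0)) ?_ ?_ ?_ ht u
    · intro ξ ξ'
      rw [WithLp.prod_inner_apply, WithLp.prod_inner_apply]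
      change ⟪(0 : H 4), ξ'.fst⟫_ℝ + ⟪(-U₁ ξ.fst : H 2), ξ'.snd⟫_ℝ =
        ⟪ξ.fst, (-U₁.symm ξ'.snd : H 1)⟫_ℝ + ⟪(ξ.snd : H 0), (0 : H 0)⟫_ℝ
      rw [inner_zero_left, inner_zero_right, inner_neg_left, inner_neg_right, astar_l, zero_add,
        add_zero]
    · intro v ξ h
      obtain ⟨h1, _⟩ := (mem_domS D).mp h
      exact (mem_domS D).mpr ⟨astar_d3 (dense 3) h4 _, astar_03 U₀ U₁ t1 s0 h1⟩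
    · intro v ξ h
      obtain ⟨_, h2⟩ := (mem_domS D).mp h
      exact (mem_domS D).mpr ⟨astar_30 U₀ U₁ (dense 0) t1 s0 h2, rfl⟩
  · refine heat_equiv (isHeat₂_of_isHeat (hP 1)) (isHeat₂_of_isHeat (hP 2)) U₁
      (fun ξ => (WithLp.toLp 2 ((-U₀ ξ.snd : H 3), (U₁.symm ξ.fst : H 1)) : KK H 2))
      (fun ξ => (WithLp.toLp 2 ((U₁ ξ.snd : H 2), (-U₀.symm ξ.fst : H 0)) : KK H 1)) ?_ ?_ ?_ ht u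
    · intro ξ ξ'
      rw [WithLp.prod_inner_apply, WithLp.prod_inner_apply]
      change ⟪(-U₀ ξ.snd : H 3), ξ'.fst⟫_ℝ + ⟪(U₁.symm ξ.fst : H 1), ξ'.snd⟫_ℝ =
        ⟪ξ.fst, (U₁ ξ'.snd : H 2)⟫_ℝ + ⟪(ξ.snd : H 0), (-U₀.symm ξ'.fst : H 0)⟫_ℝ
      rw [inner_neg_left, inner_neg_right, astar_l, astar_r, add_comm]
    · intro v ξ h
      obtain ⟨h1, h2⟩ := (mem_domS D).mp h
      exact (mem_domS D).mpr ⟨astar_12a U₀ U₁ (dense 2) t0 s0 h2, astar_12b U₁ t1 s1 h1⟩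
    · intro v ξ h
      obtain ⟨h1, h2⟩ := (mem_domS D).mp h
      exact (mem_domS D).mpr ⟨astar_21a U₁ (dense 1) t1 s1 h2, astar_21b U₀ U₁ t0 s0 h1⟩

end Pool.Agent.Lib.MP_570070_gt.An
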