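import Pool.Agent.Lib.MP_570070_gt.An.ATail1
import Pool.Agent.Lib.MP_570070_gt.An.ALoc
import Pool.Agent.Lib.MP_570070_gt.An.AStar
import Pool.Agent.Lib.MP_570070_gt.An.AFin

/-! Interface of block A: all statements are in the imported files. -/
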