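import Pool.Agent.Lib.MP_570070_gt.An.AZeta

open MeasureTheory Filter Topology Set
open scoped InnerProductSpace

namespace Pool.Agent.Lib.MP_570070_gt.An

theorem amel_meas {r : ℝ → ℝ} (hr : AEStronglyMeasurable r (volume.restrict (Ioc 0 1))) :
    AEStronglyMeasurable (fun t => ((r t : ℝ) : ℂ)) (volume.restrict (Ioc 0 1)) :=
  Complex.continuous_ofReal.comp_aestronglyMeasurable hr

theorem amel_eps {r : ℝ → ℝ} {ε : ℝ} (hb : ∀ t ∈ Ioc (0 : ℝ) 1, |r t| ≤ ε * t) : 0 ≤ ε := by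
  have h := hb 1 ⟨one_pos, le_rfl⟩
  have := abs_nonneg (r 1)
  linarith

theorem amel_loc {r : ℝ → ℝ} (hr : AEStronglyMeasurable r (volume.restrict (Ioc 0 1)))
    {ε : ℝ} (hb : ∀ t ∈ Ioc (0 : ℝ) 1, |r t| ≤ ε * t) :
    LocallyIntegrableOn (indicator (Ioc (0 : ℝ) 1) fun t => ((r t : ℝ) : ℂ)) (Ioi 0) := by
  have hε := amel_eps hb
  have h1 : IntegrableOn (fun t => ((r t : ℝ) : ℂ)) (Ioc (0 : ℝ) 1) := by
    refine Integrable.mono' (g := fun _ => ε) (integrable_const ε) (amel_meas hr) ?_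
    refine (ae_restrict_iff' measurableSet_Ioc).2 (Eventually.of_forall fun t ht => ?_)
    rw [Complex.norm_real, Real.norm_eq_abs]
    have := hb t ht
    nlinarith [ht.1, ht.2]
  exact ((integrable_indicator_iff measurableSet_Ioc).2 h1).locallyIntegrable.locallyIntegrableOn _

theorem amel_top (r : ℝ → ℝ) (a : ℝ) :
    (indicator (Ioc (0 : ℝ) 1) fun t => ((r t : ℝ) : ℂ)) =O[atTop] fun t : ℝ => t ^ (-a) := by
  refine Asymptotics.IsBigO.of_bound 0 ?_
  filter_upwards [eventually_gt_atTop (1 : ℝ)] with t ht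
  rw [indicator_of_notMem (fun h => absurd h.2 (not_le.2 ht))]
  simp

theorem amel_bot {r : ℝ → ℝ} {ε : ℝ} (hb : ∀ t ∈ Ioc (0 : ℝ) 1, |r t| ≤ ε * t) :
    (indicator (Ioc (0 : ℝ) 1) fun t => ((r t : ℝ) : ℂ)) =O[𝓝[>] 0]
      fun t : ℝ => t ^ (-(-1 : ℝ)) := by
  refine Asymptotics.IsBigO.of_bound ε ?_
  filter_upwards [Ioc_mem_nhdsGT (zero_lt_one' ℝ)] with t ht
  rw [indicator_of_mem ht, neg_neg, Real.rpow_one, Complex.norm_real, Real.norm_eq_abs,
    Real.norm_eq_abs, abs_of_pos ht.1]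
  exact hb t ht

theorem amel_ind (r : ℝ → ℝ) (s : ℂ) :
    (fun t : ℝ => (t : ℂ) ^ (s - 1) • (indicator (Ioc (0 : ℝ) 1) fun t => ((r t : ℝ) : ℂ)) t) =
      indicator (Ioc (0 : ℝ) 1) fun t : ℝ => (t : ℂ) ^ (s - 1) * ((r t : ℝ) : ℂ) := by
  funext t
  by_cases ht : t ∈ Ioc (0 : ℝ) 1
  · rw [indicator_of_mem ht, indicator_of_mem ht, smul_eq_mul]
  · rw [indicator_of_notMem ht, indicator_of_notMem ht, smul_zero]

theorem amel_eq (r : ℝ → ℝ) (s : ℂ) :
    mellin (indicator (Ioc (0 : ℝ) 1) fun t => ((r t : ℝ) : ℂ)) s =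
      ∫ t in Ioc (0 : ℝ) 1, (t : ℂ) ^ (s - 1) * ((r t : ℝ) : ℂ) := by
  rw [mellin, amel_ind, setIntegral_indicator measurableSet_Ioc,
    inter_eq_self_of_subset_right Ioc_subset_Ioi_self]

theorem amel_int {r : ℝ → ℝ} (hr : AEStronglyMeasurable r (volume.restrict (Ioc 0 1)))
    {ε : ℝ} (hb : ∀ t ∈ Ioc (0 : ℝ) 1, |r t| ≤ ε * t) {s : ℂ} (hs : -1 < s.re) :
    IntegrableOn (fun t : ℝ => (t : ℂ) ^ (s - 1) * ((r t : ℝ) : ℂ)) (Ioc 0 1) := by
  have h := mellinConvergent_of_isBigO_rpow (amel_loc hr hb) (amel_top r (s.re + 1))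
    (lt_add_one _) (amel_bot hb) hs
  rw [MellinConvergent, amel_ind] at h
  have h2 := (integrableOn_indicator_iff measurableSet_Ioc).1 h
  rwa [inter_eq_self_of_subset_left Ioc_subset_Ioi_self] at h2

theorem amel_one {s : ℂ} (hs : 0 < s.re) :
    IntegrableOn (fun t : ℝ => (t : ℂ) ^ (s - 1)) (Ioc 0 1) ∧
      ∫ t in Ioc (0 : ℝ) 1, (t : ℂ) ^ (s - 1) = s⁻¹ := by
  have h1 : -1 < (s - 1).re := by simpa using hs
  have hs0 : s ≠ 0 := fun h => by simp [h] at hs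
  refine ⟨(intervalIntegrable_iff_integrableOn_Ioc_of_le zero_le_one).1
    (intervalIntegral.intervalIntegrable_cpow' h1), ?_⟩
  rw [← intervalIntegral.integral_of_le zero_le_one, integral_cpow (Or.inl h1)]
  simp [hs0]

theorem amel_norm {r : ℝ → ℝ} {ε : ℝ} (hb : ∀ t ∈ Ioc (0 : ℝ) 1, |r t| ≤ ε * t) :
    ‖∫ t in Ioc (0 : ℝ) 1, (t : ℂ) ^ ((0 : ℂ) - 1) * ((r t : ℝ) : ℂ)‖ ≤ ε := by
  have h := norm_setIntegral_le_of_norm_le_const (μ := volume) (s := Ioc (0 : ℝ) 1)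
    (f := fun t : ℝ => (t : ℂ) ^ ((0 : ℂ) - 1) * ((r t : ℝ) : ℂ)) (C := ε) (by simp) ?_
  · simpa using h
  · intro t ht
    have h1 := hb t ht
    rw [zero_sub, Complex.cpow_neg_one, norm_mul, norm_inv, Complex.norm_real, Complex.norm_real,
      Real.norm_eq_abs, Real.norm_eq_abs, abs_of_pos ht.1, inv_mul_le_iff₀ ht.1]
    linarith

theorem amel_open : IsOpen {s : ℂ | -1 < s.re} := isOpen_lt continuous_const Complex.continuous_re

theorem amel_gam1 : Differentiable ℂ fun s : ℂ => (Complex.Gamma (s + 1))⁻¹ :=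
  Complex.differentiable_one_div_Gamma.comp (differentiable_id.add_const 1)

theorem amel_gam0 : HasDerivAt (fun s : ℂ => (Complex.Gamma s)⁻¹) 1 0 := by
  have h := (hasDerivAt_id' (0 : ℂ)).mul (amel_gam1 0).hasDerivAt
  have e : (fun s : ℂ => (Complex.Gamma s)⁻¹) = fun s : ℂ => s * (Complex.Gamma (s + 1))⁻¹ :=
    funext Complex.one_div_Gamma_eq_self_mul_one_div_Gamma_add_one
  rw [e]
  exact h.congr_deriv (by simp [Complex.Gamma_one])

/-- The Mellin transform on `(0, 1]` of `r = O(t)` is holomorphic for `-1 < re s`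
(`mellin_differentiableAt_of_isBigO_rpow` for the indicator of `Ioc 0 1` times `r`). -/
theorem differentiableOn_mel {r : ℝ → ℝ} (hr : AEStronglyMeasurable r (volume.restrict (Ioc 0 1)))
    {ε : ℝ} (hb : ∀ t ∈ Ioc (0 : ℝ) 1, |r t| ≤ ε * t) :
    DifferentiableOn ℂ (fun s : ℂ => ∫ t in Ioc (0 : ℝ) 1, (t : ℂ) ^ (s - 1) * ((r t : ℝ) : ℂ))
      {s | -1 < s.re} := by
  intro s hs
  have h := mellin_differentiableAt_of_isBigO_rpow (amel_loc hr hb) (amel_top r (s.re + 1))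
    (lt_add_one _) (amel_bot hb) hs
  rw [show mellin (indicator (Ioc (0 : ℝ) 1) fun t => ((r t : ℝ) : ℂ)) = _ from
    funext (amel_eq r)] at h
  exact h.differentiableWithinAt

/-- Identity theorem: a function meromorphic on the half plane `-1 < re s`, zero for `s₀ < re s`
and analytic at `0` vanishes near `0` (the set where `meromorphicOrderAt = ⊤` is clopen, see
`MeromorphicOn.meromorphicOrderAt_ne_top_of_isPreconnected`). -/
theorem eventually_zero {f : ℂ → ℂ} (hf : MeromorphicOn f {s | -1 < s.re}) {s₀ : ℝ}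
    (h0 : ∀ s : ℂ, s₀ < s.re → f s = 0) (ha : AnalyticAt ℂ f 0) : f =ᶠ[𝓝 0] 0 := by
  have hU : IsPreconnected {s : ℂ | -1 < s.re} := (convex_halfSpace_re_gt (-1)).isPreconnected
  have hx : meromorphicOrderAt f ((max s₀ 0 + 1 : ℝ) : ℂ) = ⊤ := by
    rw [meromorphicOrderAt_eq_top_iff]
    refine Eventually.filter_mono nhdsWithin_le_nhds ?_
    have ho : IsOpen {s : ℂ | s₀ < s.re} := isOpen_lt continuous_const Complex.continuous_re
    refine Filter.mem_of_superset (ho.mem_nhds ?_) fun s hs => h0 s hs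
    show s₀ < ((max s₀ 0 + 1 : ℝ) : ℂ).re
    rw [Complex.ofReal_re]
    linarith [le_max_left s₀ 0]
  have hz : meromorphicOrderAt f 0 = ⊤ := by
    by_contra hne
    refine hf.meromorphicOrderAt_ne_top_of_isPreconnected hU (x := 0) ?_ ?_ hne hx
    · show (-1 : ℝ) < (0 : ℂ).re
      simp
    · show (-1 : ℝ) < ((max s₀ 0 + 1 : ℝ) : ℂ).re
      rw [Complex.ofReal_re]
      linarith [le_max_right s₀ 0]
  rw [meromorphicOrderAt_eq_top_iff] at hz
  exact ha.frequently_zero_iff_eventually_zero.1 hz.frequently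

/-- `ζ' - ζ = Γ⁻¹ * mel r - β * (Γ (s + 1))⁻¹` for large `re s` (`∫ t in Ioc 0 1, t ^ (s - 1) = 1 / s`,
`Complex.Gamma_add_one`), hence near `0` (`Complex.differentiable_one_div_Gamma`);
`(Γ s)⁻¹ = s * (Γ (s + 1))⁻¹` has value `0` and derivative `1` at `0`, so the derivative of the first
term is `mel r 0`, of norm `≤ ε`. -/
theorem IsZeta.sub_le {g g' r : ℝ → ℝ} {z z' β ε : ℝ} (hg : IsZeta g z) (hg' : IsZeta g' z')
    (hr : AEStronglyMeasurable r (volume.restrict (Ioc 0 1)))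
    (hb : ∀ t ∈ Ioc (0 : ℝ) 1, |r t| ≤ ε * t) (h : ∀ t ∈ Ioc (0 : ℝ) 1, g' t - g t = r t - β) :
    |z' - z + gam * β| ≤ ε := by
  obtain ⟨s₀, ζ, hm, ha, hζ, rfl⟩ := hg
  obtain ⟨s₁, ζ', hm', ha', hζ', rfl⟩ := hg'
  set M : ℂ → ℂ := fun s => ∫ t in Ioc (0 : ℝ) 1, (t : ℂ) ^ (s - 1) * ((r t : ℝ) : ℂ) with hM
  have hMd : DifferentiableOn ℂ M {s | -1 < s.re} := differentiableOn_mel hr hb
  set K : ℂ → ℂ := fun s => (Complex.Gamma s)⁻¹ * M s - (β : ℂ) * (Complex.Gamma (s + 1))⁻¹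
    with hK
  have hKd : DifferentiableOn ℂ K {s | -1 < s.re} :=
    (Complex.differentiable_one_div_Gamma.differentiableOn.mul hMd).sub
      (amel_gam1.differentiableOn.const_mul _)
  have hKa : AnalyticOnNhd ℂ K {s | -1 < s.re} := hKd.analyticOnNhd amel_open
  have h0U : (0 : ℂ) ∈ {s : ℂ | -1 < s.re} := by
    show (-1 : ℝ) < (0 : ℂ).re
    simp
  have hz : (fun s => ζ' s - ζ s - K s) =ᶠ[𝓝 0] 0 := by
    refine eventually_zero (s₀ := max (max s₀ s₁) 0) ?_ ?_ ((ha'.sub ha).sub (hKa 0 h0U))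
    · intro s hs
      exact ((hm' s (mem_univ s)).sub (hm s (mem_univ s))).sub (hKa s hs).meromorphicAt
    · intro s hs
      have h1 : s₀ < s.re := lt_of_le_of_lt ((le_max_left _ _).trans (le_max_left _ _)) hs
      have h2 : s₁ < s.re := lt_of_le_of_lt ((le_max_right _ _).trans (le_max_left _ _)) hs
      have h3 : 0 < s.re := lt_of_le_of_lt (le_max_right _ _) hs
      have hs0 : s ≠ 0 := fun h => by simp [h] at h3
      obtain ⟨i1, e1⟩ := hζ s h1
      obtain ⟨i2, e2⟩ := hζ' s h2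
      obtain ⟨i3, e3⟩ := amel_one h3
      have i4 := amel_int hr hb (s := s) (by linarith)
      have e4 : (∫ t in Ioc (0 : ℝ) 1, (t : ℂ) ^ (s - 1) * ((g' t : ℝ) : ℂ)) -
          ∫ t in Ioc (0 : ℝ) 1, (t : ℂ) ^ (s - 1) * ((g t : ℝ) : ℂ) = M s - (β : ℂ) * s⁻¹ := by
        rw [← e3, ← integral_sub i2 i1, ← integral_const_mul, hM,
          ← integral_sub i4 (i3.const_mul _)]
        refine setIntegral_congr_fun measurableSet_Ioc fun t ht => ?_
        have := congrArg (fun x : ℝ => (x : ℂ)) (h t ht)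
        simp only [Complex.ofReal_sub] at this
        show _ - _ = _ - _
        linear_combination (t : ℂ) ^ (s - 1) * this
      have e5 : (Complex.Gamma (s + 1))⁻¹ = (Complex.Gamma s)⁻¹ * s⁻¹ := by
        rw [Complex.Gamma_add_one s hs0, mul_inv, mul_comm]
      show ζ' s - ζ s - ((Complex.Gamma s)⁻¹ * M s - (β : ℂ) * (Complex.Gamma (s + 1))⁻¹) = 0
      rw [e1, e2, e5]
      linear_combination (Complex.Gamma s)⁻¹ * e4
  have hM0 : HasDerivAt M (deriv M 0) 0 :=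
    (hMd.differentiableAt (amel_open.mem_nhds h0U)).hasDerivAt
  have hK0 : HasDerivAt K
      (M 0 - (β : ℂ) * deriv (fun s : ℂ => (Complex.Gamma (s + 1))⁻¹) 0) 0 := by
    have h1 := (amel_gam0.mul hM0).sub ((amel_gam1 0).hasDerivAt.const_mul (β : ℂ))
    exact h1.congr_deriv (by simp [Complex.Gamma_zero])
  have hd := (ha'.differentiableAt.hasDerivAt.sub ha.differentiableAt.hasDerivAt).sub hK0
  have hd0 : HasDerivAt (fun s => ζ' s - ζ s - K s) 0 0 :=
    (hasDerivAt_const (0 : ℂ) (0 : ℂ)).congr_of_eventuallyEq hz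
  have e := hd.unique hd0
  have e2 := congrArg Complex.re e
  simp only [Complex.sub_re, Complex.mul_re, Complex.ofReal_re, Complex.ofReal_im, zero_mul,
    sub_zero, Complex.zero_re] at e2
  have e3 : (deriv ζ' 0).re - (deriv ζ 0).re + gam * β = (M 0).re := by
    unfold gam
    linarith
  rw [e3]
  exact (Complex.abs_re_le_norm _).trans (amel_norm hb)

end Pool.Agent.Lib.MP_570070_gt.An
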