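import Pool.Agent.Lib.MP_570070_gt.An.ADefs

open MeasureTheory Filter Topology Set
open scoped InnerProductSpace

namespace Pool.Agent.Lib.MP_570070_gt.An

variable {A K A' K' : Type} [NormedAddCommGroup A] [InnerProductSpace ℝ A]
  [NormedAddCommGroup K] [InnerProductSpace ℝ K] [NormedAddCommGroup A'] [InnerProductSpace ℝ A']
  [NormedAddCommGroup K'] [InnerProductSpace ℝ K']
  {Γ : Submodule ℝ (A × K)} {Γ' : Submodule ℝ (A' × K')}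
  {P : ℝ → A →L[ℝ] A} {P' : ℝ → A' →L[ℝ] A'}

/-- Orthonormal basis of a finite dimensional subspace (`stdOrthonormalBasis ℝ V`,
`OrthonormalBasis.sum_repr'`, `OrthonormalBasis.sum_sq_inner_right`). -/
theorem exists_onb (V : Submodule ℝ A) [FiniteDimensional ℝ V] :
    ∃ b : Fin (Module.finrank ℝ V) → A, Orthonormal ℝ b ∧ (∀ l, b l ∈ V) ∧
      ∀ v ∈ V, v = ∑ l, ⟪b l, v⟫_ℝ • b l ∧ ‖v‖ ^ 2 = ∑ l, ⟪b l, v⟫_ℝ ^ 2 := by
  refine ⟨fun l => (stdOrthonormalBasis ℝ V l : A),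
    (stdOrthonormalBasis ℝ V).orthonormal.comp_linearIsometry V.subtypeₗᵢ,
    fun l => (stdOrthonormalBasis ℝ V l).2, fun v hv => ⟨?_, ?_⟩⟩
  · have h := congrArg Subtype.val ((stdOrthonormalBasis ℝ V).sum_repr' ⟨v, hv⟩)
    rw [Submodule.coe_sum] at h
    exact h.symm
  · exact ((stdOrthonormalBasis ℝ V).sum_sq_inner_right ⟨v, hv⟩).symm

/-- Bessel (`Orthonormal.sum_inner_products_le`). -/
theorem bessel {ι : Type} [Fintype ι] {e : ι → A} (he : Orthonormal ℝ e) (v : A) :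
    ∑ j, ⟪e j, v⟫_ℝ ^ 2 ≤ ‖v‖ ^ 2 := by
  have h := he.sum_inner_products_le (s := Finset.univ) v
  simpa only [Real.norm_eq_abs, sq_abs] using h

theorem norm_sq_sum_smul {ι : Type} [Fintype ι] {e : ι → A} (he : Orthonormal ℝ e) (c : ι → ℝ) :
    ‖∑ j, c j • e j‖ ^ 2 = ∑ j, c j ^ 2 := by
  rw [← real_inner_self_eq_norm_sq, he.inner_sum]
  exact Finset.sum_congr rfl fun j _ => by rw [conj_trivial, sq]

theorem aon_par {ι κ : Type} [Fintype ι] [Fintype κ] (a : ι → κ → ℝ) (T : A →L[ℝ] A) (e : κ → A)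
    (q : ι → A) (h : ∀ j, ∑ l, a l j • q l = e j) :
    ∑ l, ⟪T (∑ j, a l j • e j), q l⟫_ℝ = ∑ j, ⟪T (e j), e j⟫_ℝ := by
  simp_rw [map_sum, sum_inner]
  rw [Finset.sum_comm]
  refine Finset.sum_congr rfl fun j _ => ?_
  conv_rhs => rw [← congrArg (fun x => ⟪T (e j), x⟫_ℝ) (h j), inner_sum]
  exact Finset.sum_congr rfl fun l _ => by
    rw [map_smul, real_inner_smul_left, real_inner_smul_right]

/-- With `Π x = ∑ j, ⟪e j, x⟫ • e j` expand `0 ≤ ∑ l, ⟪T (b l - Π (b l)), b l - Π (b l)⟫`; both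
`∑ l, ⟪T (Π (b l)), b l⟫` and `∑ l, ⟪T (Π (b l)), Π (b l)⟫` equal `∑ j, ⟪T (e j), e j⟫`. -/
theorem form_le {ι κ : Type} [Fintype ι] [Fintype κ] {b : ι → A} {e : κ → A}
    (hb : Orthonormal ℝ b) (he : Orthonormal ℝ e) (hs : ∀ j, e j = ∑ l, ⟪b l, e j⟫_ℝ • b l)
    {T : A →L[ℝ] A} (hT : ∀ u v, ⟪T u, v⟫_ℝ = ⟪u, T v⟫_ℝ) (h0 : ∀ u, 0 ≤ ⟪T u, u⟫_ℝ) :
    ∑ j, ⟪T (e j), e j⟫_ℝ ≤ ∑ l, ⟪T (b l), b l⟫_ℝ := by
  have h1 := aon_par (fun l j => ⟪b l, e j⟫_ℝ) T e b fun j => (hs j).symm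
  have h2 := aon_par (fun l j => ⟪b l, e j⟫_ℝ) T e (fun l => ∑ j, ⟪b l, e j⟫_ℝ • e j) fun j => by
    have h3 : ∀ i, ∑ l, ⟪b l, e j⟫_ℝ * ⟪b l, e i⟫_ℝ = ⟪e j, e i⟫_ℝ := fun i => by
      conv_rhs => rw [hs j, sum_inner]
      exact Finset.sum_congr rfl fun l _ => (real_inner_smul_left _ _ _).symm
    simp_rw [Finset.smul_sum, smul_smul]
    rw [Finset.sum_comm]
    simp_rw [← Finset.sum_smul, h3]
    rw [Finset.sum_eq_single j (fun i _ hi => by rw [he.2 hi.symm, zero_smul]) (by simp),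
      real_inner_self_eq_norm_sq, he.1 j, one_pow, one_smul]
  have h4 : ∀ x y : A, ⟪T (x - y), x - y⟫_ℝ = ⟪T x, x⟫_ℝ - 2 * ⟪T y, x⟫_ℝ + ⟪T y, y⟫_ℝ := by
    intro x y
    rw [map_sub, inner_sub_left, inner_sub_right, inner_sub_right, hT x y, real_inner_comm (T y) x]
    ring
  have h5 : 0 ≤ ∑ l, ⟪T (b l - ∑ j, ⟪b l, e j⟫_ℝ • e j), b l - ∑ j, ⟪b l, e j⟫_ℝ • e j⟫_ℝ :=
    Finset.sum_nonneg fun l _ => h0 _
  simp_rw [h4] at h5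
  rw [Finset.sum_add_distrib, Finset.sum_sub_distrib, ← Finset.mul_sum, h1, h2] at h5
  linarith

/-- With `v = ∑ k, ⟪y, Y (e k)⟫ • e k ∈ S`: `‖v‖ ^ 2 = ⟪y, Y v⟫ ≤ ‖y‖ * ‖Y v‖`. -/
theorem op_bessel {ι : Type} [Fintype ι] {S : Submodule ℝ A} {e : ι → A} (he : Orthonormal ℝ e)
    (hS : ∀ k, e k ∈ S) {Y : A →L[ℝ] A'} {c : ℝ} (hc : 0 ≤ c)
    (hY : ∀ z ∈ S, ‖Y z‖ ^ 2 ≤ c * ‖z‖ ^ 2) (y : A') : ∑ k, ⟪y, Y (e k)⟫_ℝ ^ 2 ≤ c * ‖y‖ ^ 2 := by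
  have h1 := norm_sq_sum_smul he fun k => ⟪y, Y (e k)⟫_ℝ
  have h2 := hY _ (S.sum_mem fun k (_ : k ∈ Finset.univ) => S.smul_mem ⟪y, Y (e k)⟫_ℝ (hS k))
  have h3 : ⟪y, Y (∑ k, ⟪y, Y (e k)⟫_ℝ • e k)⟫_ℝ = ∑ k, ⟪y, Y (e k)⟫_ℝ ^ 2 := by
    rw [map_sum, inner_sum]
    exact Finset.sum_congr rfl fun k _ => by rw [map_smul, real_inner_smul_right, sq]
  have h4 := real_inner_mul_inner_self_le y (Y (∑ k, ⟪y, Y (e k)⟫_ℝ • e k))
  rw [real_inner_self_eq_norm_sq, real_inner_self_eq_norm_sq, h3] at h4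
  rw [h1] at h2
  have h5 : 0 ≤ ∑ k, ⟪y, Y (e k)⟫_ℝ ^ 2 := Finset.sum_nonneg fun k _ => sq_nonneg _
  rcases h5.eq_or_lt with h | h
  · rw [← h]
    positivity
  · refine le_of_mul_le_mul_right (h4.trans ?_) h
    refine (mul_le_mul_of_nonneg_left h2 (sq_nonneg _)).trans_eq ?_
    ring

/-- Take an orthonormal basis `b` of the span of the `Q (B (Y (e k)))`; the left side is
`∑ l k, ⟪B (b l), Y (e k)⟫ ^ 2`; then `op_bessel`. -/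
theorem sandwich {ι : Type} [Fintype ι] {S Sp : Submodule ℝ A} {e : ι → A} (he : Orthonormal ℝ e)
    (hS : ∀ k, e k ∈ S) {Y B Q : A →L[ℝ] A} {c θ : ℝ} (hc : 0 ≤ c)
    (hY : ∀ z ∈ S, ‖Y z‖ ^ 2 ≤ c * ‖z‖ ^ 2) (hB : ∀ u v, ⟪B u, v⟫_ℝ = ⟪u, B v⟫_ℝ)
    (hQ : ∀ z, Q z ∈ Sp) (hQ' : ∀ z, ∀ w ∈ Sp, ⟪Q z, w⟫_ℝ = ⟪z, w⟫_ℝ)
    (hθ : ∀ (m : ℕ) (b : Fin m → A), Orthonormal ℝ b → (∀ l, b l ∈ Sp) →
      ∑ l, ‖B (b l)‖ ^ 2 ≤ θ) : ∑ k, ‖Q (B (Y (e k)))‖ ^ 2 ≤ c * θ := by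
  have : FiniteDimensional ℝ (Submodule.span ℝ (range fun k => Q (B (Y (e k))))) :=
    FiniteDimensional.span_of_finite ℝ (finite_range _)
  obtain ⟨b, hb, hbV, hv⟩ := exists_onb (Submodule.span ℝ (range fun k => Q (B (Y (e k)))))
  have hV : Submodule.span ℝ (range fun k => Q (B (Y (e k)))) ≤ Sp :=
    Submodule.span_le.2 (by rintro _ ⟨k, rfl⟩; exact hQ _)
  have h1 : ∀ k, ‖Q (B (Y (e k)))‖ ^ 2 = ∑ l, ⟪B (b l), Y (e k)⟫_ℝ ^ 2 := fun k => by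
    rw [(hv _ (Submodule.subset_span ⟨k, rfl⟩)).2]
    refine Finset.sum_congr rfl fun l _ => ?_
    rw [real_inner_comm, hQ' _ _ (hV (hbV l)), hB, real_inner_comm]
  simp_rw [h1]
  rw [Finset.sum_comm]
  refine (Finset.sum_le_sum fun l _ => op_bessel he hS hc hY (B (b l))).trans ?_
  rw [← Finset.mul_sum]
  exact mul_le_mul_of_nonneg_left (hθ _ b hb fun l => hV (hbV l)) hc

theorem sum_le_trOn {ι : Type} [Fintype ι] {S : Set A} (T : A →L[ℝ] A) {e : ι → A}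
    (he : Orthonormal ℝ e) (hS : ∀ j, e j ∈ S) :
    ENNReal.ofReal (∑ j, ⟪T (e j), e j⟫_ℝ) ≤ trOn S T := by
  rw [← (Fintype.equivFin ι).symm.sum_comp fun j => ⟪T (e j), e j⟫_ℝ]
  exact le_iSup_of_le (Fintype.card ι) (le_iSup_of_le (e ∘ (Fintype.equivFin ι).symm)
    (le_iSup_of_le (he.comp _ (Fintype.equivFin ι).symm.injective)
      (le_iSup_of_le (fun _ => hS _) le_rfl)))

theorem sum_le_tr {ι : Type} [Fintype ι] {S : Set A} {T : A →L[ℝ] A} (hf : trOn S T ≠ ⊤)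
    {e : ι → A} (he : Orthonormal ℝ e) (hS : ∀ j, e j ∈ S) :
    ∑ j, ⟪T (e j), e j⟫_ℝ ≤ (trOn S T).toReal := by
  exact (ENNReal.ofReal_le_iff_le_toReal hf).1 (sum_le_trOn T he hS)

/-- The empty family shows `0 ≤ c`. -/
theorem tr_le {S : Set A} {T : A →L[ℝ] A} {c : ℝ}
    (h : ∀ (m : ℕ) (e : Fin m → A), Orthonormal ℝ e → (∀ j, e j ∈ S) →
      ∑ j, ⟪T (e j), e j⟫_ℝ ≤ c) : (trOn S T).toReal ≤ c := by
  have h0 : 0 ≤ c := by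
    simpa using h 0 Fin.elim0 ⟨fun i => i.elim0, fun i => i.elim0⟩ fun i => i.elim0
  refine ENNReal.toReal_le_of_le_ofReal h0 ?_
  exact iSup_le fun m => iSup_le fun e => iSup_le fun he => iSup_le fun hS =>
    ENNReal.ofReal_le_ofReal (h m e he hS)

theorem trOn_equiv (U : A ≃ₗᵢ[ℝ] A') {T : A →L[ℝ] A} {T' : A' →L[ℝ] A'}
    (h : ∀ u, T' (U u) = U (T u)) (S : Set A) : trOn (U '' S) T' = trOn S T := by
  refine le_antisymm ?_ ?_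
  · refine iSup_le fun m => iSup_le fun e => iSup_le fun he => iSup_le fun hS => ?_
    choose f hf hfe using hS
    obtain rfl : e = U ∘ f := funext fun i => (hfe i).symm
    refine le_trans (le_of_eq ?_)
      (sum_le_trOn T (U.toLinearIsometry.orthonormal_comp_iff.1 he) hf)
    simp only [Function.comp_apply, h, LinearIsometryEquiv.inner_map_map]
  · refine iSup_le fun m => iSup_le fun e => iSup_le fun he => iSup_le fun hS => ?_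
    refine le_trans (le_of_eq ?_)
      (sum_le_trOn T' (he.comp_linearIsometryEquiv U) fun i => ⟨e i, hS i, rfl⟩)
    simp only [Function.comp_apply, h, LinearIsometryEquiv.inner_map_map]

theorem trOn_mono {S S' : Set A} (h : S ⊆ S') (T : A →L[ℝ] A) : trOn S T ≤ trOn S' T := by
  exact iSup_le fun m => iSup_le fun e => iSup_le fun he => iSup_le fun hS =>
    sum_le_trOn T he fun j => h (hS j)

end Pool.Agent.Lib.MP_570070_gt.An
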