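import Pool.Agent.Lib.MP_570070_gt.An.AMel

open MeasureTheory Filter Topology Set
open scoped InnerProductSpace

namespace Pool.Agent.Lib.MP_570070_gt.An

/-- Comparison of two regularised integrals, for `1 ≤ T`: split `Ioi 1 = Ioc 1 T ∪ Ioi T`;
`z' - z = -gam (b' - b) ± ε` (`IsZeta.sub_le` with `r = θ' - θ`, measurable because antitone, e.g.
`AntitoneOn.aemeasurable` or `aemeasurable_restrict_of_antitoneOn`), and on `Ioc 1 T` the difference
of the integrands is `t⁻¹ (θ' t - θ t) + (b - b') t⁻¹`, with `|t⁻¹ (θ' t - θ t)| ≤ ε`. -/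
theorem reg_sub {θ θ' : ℝ → ℝ} {b b' z z' T ε : ℝ} (hT : 1 ≤ T)
    (ha : AntitoneOn θ (Ioi 0)) (ha' : AntitoneOn θ' (Ioi 0))
    (hi : IntegrableOn (fun t => t⁻¹ * (θ t - b)) (Ioi 1))
    (hi' : IntegrableOn (fun t => t⁻¹ * (θ' t - b')) (Ioi 1))
    (hz : IsZeta (fun t => θ t - b) z) (hz' : IsZeta (fun t => θ' t - b') z')
    (h : ∀ t ∈ Ioc (0 : ℝ) T, |θ' t - θ t| ≤ ε * t) :
    |(z' + ∫ t in Ioi (1 : ℝ), t⁻¹ * (θ' t - b')) - (z + ∫ t in Ioi (1 : ℝ), t⁻¹ * (θ t - b)) -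
      ((b - b') * (gam + Real.log T) + (∫ t in Ioi T, t⁻¹ * (θ' t - b')) -
        ∫ t in Ioi T, t⁻¹ * (θ t - b))| ≤ ε * T := by
  have hm : ∀ {f : ℝ → ℝ}, AntitoneOn f (Ioi 0) → AEMeasurable f (volume.restrict (Ioc 0 1)) :=
    fun hf => aemeasurable_restrict_of_antitoneOn measurableSet_Ioc (hf.mono Ioc_subset_Ioi_self)
  have h1 := hz.sub_le hz' (r := fun t => θ' t - θ t) (β := b' - b) (ε := ε)
    ((hm ha').sub (hm ha)).aestronglyMeasurable (fun t ht => h t ⟨ht.1, ht.2.trans hT⟩)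
    fun t _ => by ring
  have hs : ∀ {f : ℝ → ℝ}, IntegrableOn f (Ioi 1) →
      ∫ t in Ioi 1, f t = (∫ t in Ioc 1 T, f t) + ∫ t in Ioi T, f t := fun hf => by
    rw [← setIntegral_union Ioc_disjoint_Ioi_same measurableSet_Ioi (hf.mono_set Ioc_subset_Ioi_self)
      (hf.mono_set (Ioi_subset_Ioi hT)), Ioc_union_Ioi_eq_Ioi hT]
  have h2 : IntegrableOn (fun t : ℝ => t⁻¹) (Ioc 1 T) :=
    ((continuousOn_inv₀.mono fun t ht => (one_pos.trans_le ht.1).ne').integrableOn_Icc).mono_set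
      Ioc_subset_Icc_self
  have h3 : ∫ t in Ioc 1 T, t⁻¹ = Real.log T := by
    rw [← intervalIntegral.integral_of_le hT, integral_inv_of_pos one_pos (one_pos.trans_le hT),
      div_one]
  have h4 := norm_setIntegral_le_of_norm_le_const (μ := volume) (s := Ioc 1 T) (C := ε)
    (f := fun t => t⁻¹ * (θ' t - b') - t⁻¹ * (θ t - b) - (b - b') * t⁻¹) measure_Ioc_lt_top
    fun t ht => by
      have h0 : 0 < t := one_pos.trans ht.1
      rw [show t⁻¹ * (θ' t - b') - t⁻¹ * (θ t - b) - (b - b') * t⁻¹ = (θ' t - θ t) / t by ring,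
        Real.norm_eq_abs, abs_div, abs_of_pos h0, div_le_iff₀ h0]
      exact h t ⟨h0, ht.2⟩
  have h5 : IntegrableOn (fun t => t⁻¹ * (θ' t - b') - t⁻¹ * (θ t - b)) (Ioc 1 T) :=
    (hi'.mono_set Ioc_subset_Ioi_self).sub (hi.mono_set Ioc_subset_Ioi_self)
  rw [integral_sub h5 (h2.const_mul _), integral_sub (hi'.mono_set Ioc_subset_Ioi_self)
    (hi.mono_set Ioc_subset_Ioi_self), integral_const_mul, h3, Real.volume_real_Ioc_of_le hT,
    Real.norm_eq_abs, abs_le] at h4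
  rw [abs_le] at h1
  rw [hs hi, hs hi', abs_le]
  constructor <;> linarith [h1.1, h1.2, h4.1, h4.2]

/-- `IsRegInt` determines the value and depends only on `θ` on `(0, ∞)` (`reg_sub`, `ε = 0`). -/
theorem IsRegInt.unique {θ θ' : ℝ → ℝ} {I I' : ℝ} (hI : IsRegInt θ I) (hI' : IsRegInt θ' I')
    (ha : AntitoneOn θ (Ioi 0)) (h : ∀ t, 0 < t → θ' t = θ t) : I' = I := by
  obtain ⟨b, z, h1, h2, h3, rfl⟩ := hI.split
  obtain ⟨b', z', h1', h2', h3', rfl⟩ := hI'.split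
  obtain rfl : b = b' := tendsto_nhds_unique h1
    (h1'.congr' ((eventually_gt_atTop 0).mono fun t ht => h t ht))
  have h4 := reg_sub (ε := 0) le_rfl ha
    (fun s hs t ht hst => by rw [h s hs, h t ht]; exact ha hs ht hst) h2 h2' h3 h3'
    fun t ht => by simp [h t ht.1]
  have h5 : ∫ t in Ioi (1 : ℝ), t⁻¹ * (θ' t - b) = ∫ t in Ioi (1 : ℝ), t⁻¹ * (θ t - b) :=
    setIntegral_congr_fun measurableSet_Ioi fun t ht => by simp only [h t (one_pos.trans ht)]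
  rw [abs_le] at h4
  linarith [h4.1, h4.2]

end Pool.Agent.Lib.MP_570070_gt.An
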