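import Pool.Agent.Lib.MP_570070_gt.An.AHeat
import Pool.Agent.Lib.MP_570070_gt.An.AOn

open MeasureTheory Filter Topology Set
open scoped InnerProductSpace

namespace Pool.Agent.Lib.MP_570070_gt.An

variable {A K A' K' : Type} [NormedAddCommGroup A] [InnerProductSpace ℝ A]
  [NormedAddCommGroup K] [InnerProductSpace ℝ K] [NormedAddCommGroup A'] [InnerProductSpace ℝ A']
  [NormedAddCommGroup K'] [InnerProductSpace ℝ K']
  {Γ : Submodule ℝ (A × K)} {Γ' : Submodule ℝ (A' × K')}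
  {P : ℝ → A →L[ℝ] A} {P' : ℝ → A' →L[ℝ] A'}

theorem IsHeat₂.sum_sq_le (hP : IsHeat₂ Γ P) {S : Set A} {t : ℝ} (ht : 0 ≤ t)
    (hf : trOn S (P t) ≠ ⊤) {ι : Type} [Fintype ι] {e : ι → A} (he : Orthonormal ℝ e)
    (hS : ∀ j, e j ∈ S) : ∑ j, ‖P (t / 2) (e j)‖ ^ 2 ≤ (trOn S (P t)).toReal := by
  simpa only [hP.inner_self ht] using sum_le_tr hf he hS

theorem IsHeat₂.tr_le_of_sq (hP : IsHeat₂ Γ P) {S : Set A} {t c : ℝ} (ht : 0 ≤ t)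
    (h : ∀ (m : ℕ) (e : Fin m → A), Orthonormal ℝ e → (∀ j, e j ∈ S) →
      ∑ j, ‖P (t / 2) (e j)‖ ^ 2 ≤ c) : (trOn S (P t)).toReal ≤ c := by
  exact tr_le fun m e he hS => by simpa only [hP.inner_self ht] using h m e he hS

theorem heat_tr_antitone (hP : IsHeat₂ Γ P) (S : Set A)
    (hf : ∀ t, 0 < t → trOn S (P t) ≠ ⊤) :
    AntitoneOn (fun t => (trOn S (P t)).toReal) (Ioi 0) := by
  intro s hs t _ hst
  exact tr_le fun m e he hS => (Finset.sum_le_sum fun j _ =>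
    hP.inner_anti (le_of_lt hs) hst (e j)).trans (sum_le_tr (hf s hs) he hS)

/-- The translates of an orthonormal family in `S` form an orthonormal family. -/
theorem Tiling.orthonormal {S : Submodule ℝ A} {ι κ : Type} (𝒯 : Tiling P S ι) {e : κ → A}
    (he : Orthonormal ℝ e) (hS : ∀ j, e j ∈ S) :
    Orthonormal ℝ fun x : ι × κ => 𝒯.U x.1 (e x.2) := by
  refine ⟨fun x => by rw [LinearIsometryEquiv.norm_map, he.1], ?_⟩
  rintro ⟨g, j⟩ ⟨g', j'⟩ h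
  by_cases hg : g = g'
  · subst hg
    exact ((𝒯.U g).inner_map_map _ _).trans (he.2 fun e => h (Prod.ext rfl e))
  · exact 𝒯.orth g g' hg _ (hS j) _ (hS j')

/-- With `b` an orthonormal family, `v = P t (P 1 x)`, `f = v - ∑ l, ⟪b l, v⟫ • b l` and `grad_le`:
`‖v‖ ^ 2 = ∑ l, ⟪b l, v⟫ ^ 2 + ‖f‖ ^ 2`, `‖f‖ ^ 2 = ⟪v, f⟫`. -/
theorem IsHeat₂.poincare (hP : IsHeat₂ Γ P) {κ : Type} [Fintype κ] {b : κ → A}
    (hb : Orthonormal ℝ b) {a : ℝ} (ha : 0 ≤ a)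
    (hW : ∀ v ξ, (v, ξ) ∈ Γ → ∀ f, (∀ l, ⟪b l, f⟫_ℝ = 0) → ⟪v, f⟫_ℝ ^ 2 ≤ a * ‖ξ‖ ^ 2 * ‖f‖ ^ 2)
    {t : ℝ} (ht : 0 < t) (x : A) :
    ‖P (t + 1) x‖ ^ 2 ≤ ∑ l, ⟪b l, P (t + 1) x⟫_ℝ ^ 2 + a / (2 * t) * ‖P 1 x‖ ^ 2 := by
  obtain ⟨ξ, hξ, hle⟩ := hP.grad_le ht (P 1 x)
  rw [← hP.add ht.le zero_le_one] at hξ
  generalize P (t + 1) x = v at hξ ⊢
  have h1 : ⟪v, ∑ l, ⟪b l, v⟫_ℝ • b l⟫_ℝ = ∑ l, ⟪b l, v⟫_ℝ ^ 2 := by
    rw [inner_sum]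
    exact Finset.sum_congr rfl fun l _ => by rw [real_inner_smul_right, real_inner_comm, sq]
  have h2 := hW v ξ hξ (v - ∑ l, ⟪b l, v⟫_ℝ • b l) fun l => by
    rw [inner_sub_right, hb.inner_right_fintype, sub_self]
  rw [inner_sub_right, norm_sub_sq_real, h1, norm_sq_sum_smul hb, real_inner_self_eq_norm_sq]
    at h2
  have h3 : a * ‖ξ‖ ^ 2 ≤ a / (2 * t) * ‖P 1 x‖ ^ 2 := by
    rw [div_mul_eq_mul_div, le_div_iff₀ (by positivity)]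
    nlinarith [mul_le_mul_of_nonneg_left hle ha]
  have h4 : 0 ≤ a * ‖ξ‖ ^ 2 := by positivity
  by_contra hc
  nlinarith

theorem atail0_zero {V : Submodule ℝ A} {κ : Type} [Fintype κ] {b : κ → A} {w f : A}
    (h : ∀ v ∈ V, v = ∑ l, ⟪b l, v⟫_ℝ • b l ∧ ‖v‖ ^ 2 = ∑ l, ⟪b l, v⟫_ℝ ^ 2) (hw : w ∈ V)
    (hf : ∀ l, ⟪b l, f⟫_ℝ = 0) : ⟪w, f⟫_ℝ = 0 := by
  rw [(h w hw).1, sum_inner]
  exact Finset.sum_eq_zero fun l _ => by rw [real_inner_smul_left, hf, mul_zero]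

theorem atail0_half {a θ t : ℝ} (ha : 0 ≤ a) (hθ : 0 ≤ θ) (ht : 0 < t) :
    a / (2 * t) * θ ≤ a * θ / t := by
  rw [div_mul_eq_mul_div]
  exact div_le_div_of_nonneg_left (mul_nonneg ha hθ) ht (by linarith)

/-- Degree zero, clusters. Sum `poincare` (with `b` from `exists_onb W`) over the orthonormal family
`U g (e j)`; `∑ x, ⟪b l, P (t + 1) x⟫ ^ 2 ≤ 1` by `symm`, `bessel`, `norm_le`, and
`‖P s (U g z)‖ = ‖P s z‖`. -/
theorem tail_zero (hP : IsHeat₂ Γ P) {S : Submodule ℝ A} {ι : Type} [Fintype ι] [Nonempty ι]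
    (𝒯 : Tiling P S ι) (hf : ∀ t, 0 < t → trOn (S : Set A) (P t) ≠ ⊤)
    (W : Submodule ℝ A) [FiniteDimensional ℝ W] {a : ℝ} (ha : 0 ≤ a)
    (hW : ∀ v ξ, (v, ξ) ∈ Γ → ∀ f, (∀ w ∈ W, ⟪w, f⟫_ℝ = 0) →
      ⟪v, f⟫_ℝ ^ 2 ≤ a * ‖ξ‖ ^ 2 * ‖f‖ ^ 2) {t : ℝ} (ht : 0 < t) :
    (trOn (S : Set A) (P (2 * t + 2))).toReal ≤
      2 * Module.finrank ℝ W / Fintype.card ι + a * (trOn (S : Set A) (P 2)).toReal / t := by
  obtain ⟨b, hb, -, hb'⟩ := exists_onb W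
  refine hP.tr_le_of_sq (by positivity) fun m e he hS => ?_
  rw [show (2 * t + 2) / 2 = t + 1 by ring]
  have hc : (0 : ℝ) < Fintype.card ι := Nat.cast_pos.2 Fintype.card_pos
  have hs : ∀ s, 0 ≤ s → ∑ x : ι × Fin m, ‖P s (𝒯.U x.1 (e x.2))‖ ^ 2 =
      Fintype.card ι * ∑ j, ‖P s (e j)‖ ^ 2 := fun s hs => by
    simp only [𝒯.comm _ s _ hs, LinearIsometryEquiv.norm_map, Fintype.sum_prod_type,
      Finset.sum_const, Finset.card_univ, nsmul_eq_mul]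
  have h1 := Finset.sum_le_sum fun (x : ι × Fin m) (_ : x ∈ Finset.univ) =>
    hP.poincare hb ha (fun v ξ hξ f hf => hW v ξ hξ f fun w hw => atail0_zero hb' hw hf) ht
      (𝒯.U x.1 (e x.2))
  rw [Finset.sum_add_distrib, ← Finset.mul_sum, hs _ (by positivity), hs _ zero_le_one,
    Finset.sum_comm] at h1
  have h2 : ∑ l, ∑ x : ι × Fin m, ⟪b l, P (t + 1) (𝒯.U x.1 (e x.2))⟫_ℝ ^ 2 ≤
      Module.finrank ℝ W := by
    refine (Finset.sum_le_card_nsmul _ _ 1 fun l _ => ?_).trans (by simp)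
    have h3 := bessel (𝒯.orthonormal he hS) (P (t + 1) (b l))
    have h4 := hP.norm_le (t := t + 1) (by positivity) (b l)
    rw [hb.1] at h4
    refine le_trans (le_of_eq (Finset.sum_congr rfl fun x _ => ?_))
      (h3.trans (pow_le_one₀ (norm_nonneg _) h4))
    rw [← hP.symm (by positivity), real_inner_comm]
  have h5 := hP.sum_sq_le zero_le_two (hf 2 two_pos) he hS
  rw [div_self two_ne_zero] at h5
  have h6 := (mul_le_mul_of_nonneg_left h5 (by positivity : 0 ≤ a / (2 * t))).trans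
    (atail0_half ha ENNReal.toReal_nonneg ht)
  rw [← sub_le_iff_le_add, le_div_iff₀ hc]
  nlinarith [mul_le_mul_of_nonneg_left h6 hc.le, Nat.cast_nonneg (α := ℝ) (Module.finrank ℝ W)]

/-- Degree zero, one cluster. `b` from `exists_onb (span {u₀})`, each `b l` is fixed by the flow, so
`∑ l, ⟪b l, P (t + 1) x⟫ ^ 2 = ∑ l, ⟪b l, P s x⟫ ^ 2 ≤ ‖P s x‖ ^ 2` for every `s`; sum over an
orthonormal family in `S` and let `s → ∞`. -/
theorem tail_zero_const (hP : IsHeat₂ Γ P) {S : Submodule ℝ A}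
    (hf : ∀ t, 0 < t → trOn (S : Set A) (P t) ≠ ⊤) {u₀ : A} (hu : (u₀, (0 : K)) ∈ Γ)
    {a : ℝ} (ha : 0 ≤ a)
    (hW : ∀ v ξ, (v, ξ) ∈ Γ → ∀ f, ⟪u₀, f⟫_ℝ = 0 → ⟪v, f⟫_ℝ ^ 2 ≤ a * ‖ξ‖ ^ 2 * ‖f‖ ^ 2)
    {b : ℝ} (hb : Tendsto (fun t => (trOn (S : Set A) (P t)).toReal) atTop (𝓝 b))
    {t : ℝ} (ht : 0 < t) :
    (trOn (S : Set A) (P (2 * t + 2))).toReal - b ≤ a * (trOn (S : Set A) (P 2)).toReal / t := by
  obtain ⟨c, hc, hc1, hc2⟩ := exists_onb (Submodule.span ℝ {u₀})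
  have hfix : ∀ l s x, 0 ≤ s → ⟪c l, P s x⟫_ℝ = ⟪c l, x⟫_ℝ := fun l s x hs => by
    obtain ⟨r, hr⟩ := Submodule.mem_span_singleton.1 (hc1 l)
    have h : (c l, (0 : K)) ∈ Γ := by simpa [hr] using Γ.smul_mem r hu
    rw [← hP.symm hs, hP.fix h hs]
  rw [sub_le_comm]
  refine ge_of_tendsto hb ((eventually_gt_atTop 0).mono fun s hs => ?_)
  rw [sub_le_iff_le_add]
  refine hP.tr_le_of_sq (by positivity) fun m e he hS => ?_
  rw [show (2 * t + 2) / 2 = t + 1 by ring]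
  have h1 : ∀ j, ‖P (t + 1) (e j)‖ ^ 2 ≤
      ‖P (s / 2) (e j)‖ ^ 2 + a / (2 * t) * ‖P 1 (e j)‖ ^ 2 := fun j => by
    refine (hP.poincare hc ha (fun v ξ hξ f hf => hW v ξ hξ f
      (atail0_zero hc2 (Submodule.mem_span_singleton_self u₀) hf)) ht (e j)).trans ?_
    refine add_le_add (le_trans (le_of_eq (Finset.sum_congr rfl fun l _ => ?_))
      (bessel hc _)) le_rfl
    rw [hfix l _ _ (by positivity), hfix l _ _ (by positivity)]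
  have h5 := hP.sum_sq_le zero_le_two (hf 2 two_pos) he hS
  rw [div_self two_ne_zero] at h5
  refine (Finset.sum_le_sum fun j _ => h1 j).trans ?_
  rw [Finset.sum_add_distrib, ← Finset.mul_sum]
  exact add_le_add (hP.sum_sq_le hs.le (hf s hs) he hS)
    ((mul_le_mul_of_nonneg_left h5 (by positivity)).trans
      (atail0_half ha ENNReal.toReal_nonneg ht))

end Pool.Agent.Lib.MP_570070_gt.An
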