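import Pool.Agent.Lib.MP_570070_gt.An.ATail0

open MeasureTheory Filter Topology Set
open scoped InnerProductSpace

namespace Pool.Agent.Lib.MP_570070_gt.An

variable {A K A' K' : Type} [NormedAddCommGroup A] [InnerProductSpace ℝ A]
  [NormedAddCommGroup K] [InnerProductSpace ℝ K] [NormedAddCommGroup A'] [InnerProductSpace ℝ A']
  [NormedAddCommGroup K'] [InnerProductSpace ℝ K']
  {Γ : Submodule ℝ (A × K)} {Γ' : Submodule ℝ (A' × K')}
  {P : ℝ → A →L[ℝ] A} {P' : ℝ → A' →L[ℝ] A'}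

/-- `S` is closed, so complete; with `π` its orthogonal projection, `w - ∑ g, U g (π (U g⁻¹ w))` is
orthogonal to all translates of `S`. -/
theorem Tiling.decomp [CompleteSpace A] {S : Submodule ℝ A} {ι : Type} [Fintype ι]
    (𝒯 : Tiling P S ι) (w : A) : ∃ z : ι → A, (∀ g, z g ∈ S) ∧ w = ∑ g, 𝒯.U g (z g) := by
  classical
  have : CompleteSpace S := 𝒯.closed.completeSpace_coe
  refine ⟨fun g => S.starProjection ((𝒯.U g).symm w), fun g => S.starProjection_apply_mem _, ?_⟩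
  refine sub_eq_zero.1 (𝒯.total _ fun g v hv => ?_)
  rw [inner_sub_right, inner_sum, Finset.sum_eq_single g]
  · have h1 := S.starProjection_inner_eq_zero ((𝒯.U g).symm w) v hv
    rw [← (𝒯.U g).inner_map_map, map_sub, LinearIsometryEquiv.apply_symm_apply,
      real_inner_comm, inner_sub_right] at h1
    exact h1
  · intro g' _ hg
    exact 𝒯.orth g g' (Ne.symm hg) v hv _ (S.starProjection_apply_mem _)
  · intro h
    exact absurd (Finset.mem_univ g) h

theorem atail1_key [CompleteSpace A] (hP : IsHeat₂ Γ P) {S : Submodule ℝ A} {ι : Type}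
    [Fintype ι] (𝒯 : Tiling P S ι) {κ : Type} [Fintype κ] {w : κ → A} (hw : Orthonormal ℝ w)
    {t s : ℝ} (ht : 0 < t) (hts : t ≤ s) (hf : trOn (S : Set A) (P t) ≠ ⊤) {m : ℕ}
    {e : Fin m → A} (he : Orthonormal ℝ e) (hS : ∀ j, e j ∈ S) :
    ∑ l, (⟪P t (w l), w l⟫_ℝ - ⟪P s (w l), w l⟫_ℝ) ≤ Fintype.card ι *
      ((trOn (S : Set A) (P t)).toReal - ∑ j, ⟪P s (e j), e j⟫_ℝ) := by
  classical
  have hs : 0 ≤ s := ht.le.trans hts
  choose z hz hwz using fun l => 𝒯.decomp (w l)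
  obtain ⟨V, hV⟩ : ∃ V : Submodule ℝ A,
    V = Submodule.span ℝ (range e ∪ range fun x : κ × ι => z x.1 x.2) := ⟨_, rfl⟩
  have : FiniteDimensional ℝ V := by
    rw [hV]
    exact FiniteDimensional.span_of_finite ℝ ((finite_range _).union (finite_range _))
  have hVS : V ≤ S := by
    rw [hV, Submodule.span_le]
    rintro _ (⟨j, rfl⟩ | ⟨x, rfl⟩)
    · exact hS j
    · exact hz _ _
  have heV : ∀ j, e j ∈ V := fun j => hV ▸ Submodule.subset_span (Or.inl ⟨j, rfl⟩)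
  have hzV : ∀ l g, z l g ∈ V := fun l g => hV ▸ Submodule.subset_span (Or.inr ⟨(l, g), rfl⟩)
  obtain ⟨b, hb, hbV, hbs⟩ := exists_onb V
  have hbS : ∀ l, b l ∈ S := fun l => hVS (hbV l)
  have h1 := form_le hb he (fun j => (hbs _ (heV j)).1) (hP.symm hs)
    fun u => by rw [hP.inner_self hs]; positivity
  have h2 := sum_le_tr hf hb hbS
  have hB := 𝒯.orthonormal hb hbS
  have h3 : ∀ l, w l = ∑ x : ι × Fin (Module.finrank ℝ V),
      ⟪𝒯.U x.1 (b x.2), w l⟫_ℝ • 𝒯.U x.1 (b x.2) := fun l => by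
    have h4 : w l = ∑ x : ι × Fin (Module.finrank ℝ V),
        ⟪b x.2, z l x.1⟫_ℝ • 𝒯.U x.1 (b x.2) := by
      rw [Fintype.sum_prod_type, hwz l]
      refine Finset.sum_congr rfl fun g _ => ?_
      conv_lhs => rw [(hbs _ (hzV l g)).1]
      simp only [map_sum, map_smul]
    have h5 : ∀ x : ι × Fin (Module.finrank ℝ V),
        ⟪𝒯.U x.1 (b x.2), w l⟫_ℝ = ⟪b x.2, z l x.1⟫_ℝ := fun x => by
      rw [h4]
      exact hB.inner_right_fintype (fun x => ⟪b x.2, z l x.1⟫_ℝ) x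
    simp only [h5]
    exact h4
  have h6 := form_le hB hw h3 (T := P t - P s)
    (fun u v => by
      simp only [sub_apply, inner_sub_left, inner_sub_right, hP.symm ht.le,
        hP.symm hs])
    (fun u => by
      rw [sub_apply, inner_sub_left, sub_nonneg]
      exact hP.inner_anti ht.le hts u)
  simp only [sub_apply, inner_sub_left, 𝒯.comm _ _ _ ht.le, 𝒯.comm _ _ _ hs,
    LinearIsometryEquiv.inner_map_map, Fintype.sum_prod_type, Finset.sum_const, Finset.card_univ,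
    nsmul_eq_mul] at h6
  refine h6.trans (mul_le_mul_of_nonneg_left ?_ (Nat.cast_nonneg _))
  rw [Finset.sum_sub_distrib]
  linarith

/-- Let `V ≤ S` be the span of the `e j` and of all components (`decomp`) of the `w l`, `b` an
orthonormal basis of `V`, `D = P t - P s` (symmetric, non-negative by `inner_anti`). `form_le` for
`P s` compares `e` with `b`; `form_le` for `D` compares `w` with the family `U g (b l)`. -/
theorem Tiling.gain [CompleteSpace A] (hP : IsHeat₂ Γ P) {S : Submodule ℝ A} {ι : Type}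
    [Fintype ι] (𝒯 : Tiling P S ι) {κ : Type} [Fintype κ] {w : κ → A} (hw : Orthonormal ℝ w)
    {t s : ℝ} (ht : 0 < t) (hts : t ≤ s) (hf : trOn (S : Set A) (P t) ≠ ⊤) :
    ∑ l, (⟪P t (w l), w l⟫_ℝ - ⟪P s (w l), w l⟫_ℝ) ≤ Fintype.card ι *
      ((trOn (S : Set A) (P t)).toReal - (trOn (S : Set A) (P s)).toReal) := by
  rcases (Nat.cast_nonneg (α := ℝ) (Fintype.card ι)).eq_or_lt with h0 | h0
  · have h1 := atail1_key hP 𝒯 hw ht hts hf (m := 0) (e := Fin.elim0)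
      ⟨fun i => i.elim0, fun i => i.elim0⟩ fun i => i.elim0
    rw [← h0, zero_mul] at h1 ⊢
    exact h1
  · have h1 : (trOn (S : Set A) (P s)).toReal ≤ (trOn (S : Set A) (P t)).toReal -
        (∑ l, (⟪P t (w l), w l⟫_ℝ - ⟪P s (w l), w l⟫_ℝ)) / Fintype.card ι :=
      tr_le fun m e he hS => by
        have h2 := (div_le_iff₀' h0).2 (atail1_key hP 𝒯 hw ht hts hf he hS)
        linarith
    rw [← div_le_iff₀' h0]
    linarith

/-- Degree one. `gain` for an orthonormal basis of `W`, `inner_ge` at `t`, `tendsto_zero` for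
`s → ∞`. -/
theorem tail_one [CompleteSpace A] (hP : IsHeat₂ Γ P) {S : Submodule ℝ A} {ι : Type} [Fintype ι]
    [Nonempty ι] (𝒯 : Tiling P S ι) (hf : ∀ t, 0 < t → trOn (S : Set A) (P t) ≠ ⊤)
    (W : Submodule ℝ A) [FiniteDimensional ℝ W] {t : ℝ} (ht : 0 < t)
    (hW : ∀ w ∈ W, (∃ ξ, (w, ξ) ∈ Γ ∧ 2 * t * ‖ξ‖ ^ 2 ≤ ‖w‖ ^ 2) ∧
      ∀ h, (h, (0 : K)) ∈ Γ → ⟪h, w⟫_ℝ = 0)
    {b : ℝ} (hb : Tendsto (fun t => (trOn (S : Set A) (P t)).toReal) atTop (𝓝 b)) :
    (Module.finrank ℝ W : ℝ) / (2 * Fintype.card ι) ≤ (trOn (S : Set A) (P t)).toReal - b := by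
  obtain ⟨w, hw, hwW, -⟩ := exists_onb W
  have h0 : (0 : ℝ) < Fintype.card ι := by exact_mod_cast Fintype.card_pos
  have h1 : Tendsto (fun s => ∑ l, (⟪P t (w l), w l⟫_ℝ - ⟪P s (w l), w l⟫_ℝ)) atTop
      (𝓝 (∑ l, (⟪P t (w l), w l⟫_ℝ - 0))) :=
    tendsto_finsetSum _ fun l _ => tendsto_const_nhds.sub (hP.tendsto_zero (hW _ (hwW l)).2)
  have h2 : Tendsto (fun s => (Fintype.card ι : ℝ) *
      ((trOn (S : Set A) (P t)).toReal - (trOn (S : Set A) (P s)).toReal)) atTop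
      (𝓝 (Fintype.card ι * ((trOn (S : Set A) (P t)).toReal - b))) :=
    (tendsto_const_nhds.sub hb).const_mul _
  have h3 := le_of_tendsto_of_tendsto h1 h2
    ((eventually_ge_atTop t).mono fun s hs => 𝒯.gain hP hw ht hs (hf t ht))
  have h4 : ∑ _l : Fin (Module.finrank ℝ W), (1 / 2 : ℝ) ≤ ∑ l, (⟪P t (w l), w l⟫_ℝ - 0) := by
    refine Finset.sum_le_sum fun l _ => ?_
    obtain ⟨ξ, h5, h6⟩ := (hW _ (hwW l)).1
    have h7 := hP.inner_ge h5 ht
    rw [hw.1 l] at h6 h7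
    linarith
  rw [Finset.sum_const, Finset.card_univ, Fintype.card_fin, nsmul_eq_mul] at h4
  rw [div_le_iff₀ (by positivity)]
  linarith

end Pool.Agent.Lib.MP_570070_gt.An
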