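import Pool.Agent.Lib.MP_570070_gt.An.Defs

open MeasureTheory Filter Topology Set
open scoped InnerProductSpace

namespace Pool.Agent.Lib.MP_570070_gt.An

/-- The small time part of `IsRegInt`. -/
def IsZeta (g : ℝ → ℝ) (z : ℝ) : Prop :=
  ∃ (s₀ : ℝ) (ζ : ℂ → ℂ), MeromorphicOn ζ univ ∧ AnalyticAt ℂ ζ 0 ∧
    (∀ s : ℂ, s₀ < s.re →
      IntegrableOn (fun t : ℝ => (t : ℂ) ^ (s - 1) * ((g t : ℝ) : ℂ)) (Ioc 0 1) ∧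
      ζ s = (Complex.Gamma s)⁻¹ * ∫ t in Ioc (0 : ℝ) 1, (t : ℂ) ^ (s - 1) * ((g t : ℝ) : ℂ)) ∧
    z = (deriv ζ 0).re

theorem IsRegInt.split {θ : ℝ → ℝ} {I : ℝ} (h : IsRegInt θ I) :
    ∃ b z : ℝ, Tendsto θ atTop (𝓝 b) ∧ IntegrableOn (fun t => t⁻¹ * (θ t - b)) (Ioi 1) ∧
      IsZeta (fun t => θ t - b) z ∧ I = z + ∫ t in Ioi (1 : ℝ), t⁻¹ * (θ t - b) := by
  obtain ⟨b, h1, h2, s₀, ζ, h3, h4, h5, h6⟩ := h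
  exact ⟨b, _, h1, h2, ⟨s₀, ζ, h3, h4, h5, rfl⟩, h6⟩

/-- The derivative of `1 / Γ (s + 1)` at `0`. -/
noncomputable def gam : ℝ := (deriv (fun s : ℂ => (Complex.Gamma (s + 1))⁻¹) 0).re

theorem le_of_antitone {θ : ℝ → ℝ} {b : ℝ} (hb : Tendsto θ atTop (𝓝 b))
    (hm : AntitoneOn θ (Ioi 0)) {t : ℝ} (ht : 0 < t) : b ≤ θ t :=
  le_of_tendsto hb ((eventually_ge_atTop t).mono fun _ hs => hm ht (ht.trans_le hs) hs)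

end Pool.Agent.Lib.MP_570070_gt.An
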