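import Pool.Agent.Lib.MP_570070_gt.An.GeoA

open MeasureTheory Filter Topology Set
open scoped ContDiff InnerProductSpace

namespace Pool.Agent.Lib.MP_570070_gt.An

variable {c : Par}

/-- smoothTransition (1 - x) = 1 - smoothTransition x (unfold; the denominator is symmetric). -/
theorem smoothTransition_one_sub (x : ℝ) :
    Real.smoothTransition (1 - x) = 1 - Real.smoothTransition x := by
  have h := Real.smoothTransition.pos_denom x
  unfold Real.smoothTransition
  rw [sub_sub_cancel, add_comm (expNegInvGlue (1 - x)), eq_sub_iff_add_eq, ← add_div,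
    add_comm (expNegInvGlue (1 - x)), div_self h.ne']

theorem geob_glue_lt {x y : ℝ} (hy : 0 < y) (h : x < y) : expNegInvGlue x < expNegInvGlue y := by
  rcases le_or_gt x 0 with hx | hx
  · rw [expNegInvGlue.zero_of_nonpos hx]
    exact expNegInvGlue.pos_of_pos hy
  · unfold expNegInvGlue
    rw [if_neg hx.not_ge, if_neg hy.not_ge]
    exact Real.exp_lt_exp.2 (neg_lt_neg (inv_strictAnti₀ hx h))

/-- expNegInvGlue is strictly increasing on [0, ∞). -/
theorem half_lt_smoothTransition (x : ℝ) : 1 / 2 < Real.smoothTransition x ↔ 1 / 2 < x := by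
  have h := Real.smoothTransition.pos_denom x
  unfold Real.smoothTransition
  rw [lt_div_iff₀ h]
  constructor
  · intro h1
    by_contra h2
    have h3 : expNegInvGlue x ≤ expNegInvGlue (1 - x) :=
      expNegInvGlue.monotone (by linarith [not_lt.1 h2])
    linarith
  · intro h1
    have h3 : expNegInvGlue (1 - x) < expNegInvGlue x := geob_glue_lt (by linarith) (by linarith)
    linarith

theorem half_lt_eta {y : Eu 3} (hy : y ∈ DR c) : 1 / 2 < eta c y ↔ ∀ e : Ed c, 0 < sc e y := by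
  by_cases h : ∃ e : Ed c, sc e y ≤ 2
  · obtain ⟨e, he⟩ := h
    have h1 : 1 / 2 < eta c y ↔ 0 < sc e y := by
      rw [eta_collar hy he, kap, ← smoothTransition_one_sub, half_lt_smoothTransition]
      constructor <;> intro h <;> linarith
    rw [h1]
    refine ⟨fun h2 e' => ?_, fun h2 => h2 e⟩
    by_cases hee : e = e'
    · exact hee ▸ h2
    · linarith [sc_disj hy hee he]
  · have h1 : ∀ e : Ed c, 2 < sc e y := fun e => not_le.1 fun he => h ⟨e, he⟩
    rw [eta_eq_one fun e => by linarith [h1 e]]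
    exact ⟨fun _ e => by linarith [h1 e], fun _ => by norm_num⟩

theorem eta_lt_half {y : Eu 3} (hy : y ∈ DR c) : eta c y < 1 / 2 ↔ ∃ e : Ed c, sc e y < 0 := by
  by_cases h : ∃ e : Ed c, sc e y ≤ 2
  · obtain ⟨e, he⟩ := h
    have h1 : eta c y < 1 / 2 ↔ sc e y < 0 := by
      have h2 := half_lt_smoothTransition (1 / 2 - sc e y)
      rw [eta_collar hy he, kap]
      constructor
      · intro h
        linarith [h2.1 (by linarith)]
      · intro h
        linarith [h2.2 (by linarith)]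
    rw [h1]
    refine ⟨fun h2 => ⟨e, h2⟩, fun ⟨e', h2⟩ => ?_⟩
    by_cases hee : e = e'
    · exact hee ▸ h2
    · linarith [sc_disj hy hee he]
  · have h1 : ∀ e : Ed c, 2 < sc e y := fun e => not_le.1 fun he => h ⟨e, he⟩
    rw [eta_eq_one fun e => by linarith [h1 e]]
    exact ⟨fun h2 => by norm_num at h2, fun ⟨e, h2⟩ => by linarith [h1 e]⟩

theorem eta_eq_half {y : Eu 3} (hy : y ∈ DR c) (h : eta c y = 1 / 2) :
    ∃ e : Ed c, sc e y = 0 := by
  by_contra h1
  refine h.not_gt ((half_lt_eta hy).2 fun e => lt_of_le_of_ne ?_ fun h2 => h1 ⟨e, h2.symm⟩)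
  exact not_lt.1 fun h2 => h.not_lt ((eta_lt_half hy).2 ⟨e, h2⟩)

theorem geob_some {a : ℝ} {j : Fin (c.m + 1)} {y : Eu 3} (h : 0 < rsq (c := c) (some j) y) :
    a ≤ sc (c := c) (some j) y ↔ Real.exp (2 * (a - 3)) ≤ rsq (c := c) (some j) y := by
  rw [← Real.le_log_iff_exp_le h]
  simp only [sc, sg, mid]
  constructor <;> intro h <;> linarith

theorem geob_none {a : ℝ} {y : Eu 3} (h : 0 < rsq (c := c) none y) :
    a ≤ sc (c := c) none y ↔ rsq (c := c) none y ≤ Real.exp (2 * (c.m + 4 - a)) := by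
  rw [← Real.log_le_iff_le_exp h]
  simp only [sc, sg, mid]
  constructor <;> intro h <;> linarith

/-- On this set rsq e y ≥ exp (2 (a - 3)) for inner e and rsq none y is bounded; it is closed
and bounded (rewrite the conditions as polynomial inequalities on rsq). -/
theorem isCompact_core {a : ℝ} (ha : -1 < a) (s t : ℝ) :
    IsCompact {y : Eu 3 | y ∈ DR c ∧ (∀ e : Ed c, a ≤ sc e y) ∧ y 2 ∈ Icc s t} := by
  have hK : {y : Eu 3 | y ∈ DR c ∧ (∀ e : Ed c, a ≤ sc e y) ∧ y 2 ∈ Icc s t} =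
      (⋂ j : Fin (c.m + 1), {y : Eu 3 | Real.exp (2 * (a - 3)) ≤ rsq (c := c) (some j) y}) ∩
        ({y : Eu 3 | rsq (c := c) none y ≤ Real.exp (2 * (c.m + 4 - a))} ∩
          (fun y : Eu 3 => y 2) ⁻¹' Icc s t) := by
    ext y
    simp only [mem_ofPred_eq, mem_inter_iff, mem_iInter, mem_preimage]
    constructor
    · rintro ⟨hy, h1, h2⟩
      exact ⟨fun j => (geob_some (hy _).1).1 (h1 _), (geob_none (hy _).1).1 (h1 _), h2⟩
    · rintro ⟨h1, h2, h3⟩
      have h4 : ∀ e : Ed c, 0 < rsq e y := by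
        rintro (_ | j)
        · have h5 := (Real.exp_pos _).trans_le (h1 0)
          simpa [rsq, ctr] using h5
        · exact (Real.exp_pos _).trans_le (h1 j)
      have h5 : ∀ e : Ed c, a ≤ sc e y := by
        rintro (_ | j)
        · exact (geob_none (h4 _)).2 h2
        · exact (geob_some (h4 _)).2 (h1 j)
      exact ⟨fun e => ⟨h4 e, ha.trans_le (h5 e)⟩, h5, h3⟩
  rw [hK]
  have hc : ∀ e : Ed c, Continuous (rsq e) := fun e => (contDiff_rsq e).continuous
  obtain ⟨R, hR⟩ : ∃ R, R = Real.exp (2 * (c.m + 4 - a)) := ⟨_, rfl⟩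
  have hR0 : 0 < R := hR ▸ Real.exp_pos _
  rw [← hR]
  refine (isCompact_Icc (a := (![-(R + 1), -(R + 1), s] : Eu 3))
    (b := ![R + 1, R + 1, t])).of_isClosed_subset ?_ ?_
  · exact (isClosed_iInter fun j => isClosed_le continuous_const (hc _)).inter
      ((isClosed_le (hc _) continuous_const).inter (isClosed_Icc.preimage (continuous_apply 2)))
  · rintro y ⟨-, h2, h3⟩
    have h4 : y 0 ^ 2 + y 1 ^ 2 ≤ R := by simpa [rsq, ctr] using h2
    constructor <;> intro i <;> fin_cases i
    · show -(R + 1) ≤ y 0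
      nlinarith [sq_nonneg (y 0 + 1), sq_nonneg (y 1)]
    · show -(R + 1) ≤ y 1
      nlinarith [sq_nonneg (y 1 + 1), sq_nonneg (y 0)]
    · exact h3.1
    · show y 0 ≤ R + 1
      nlinarith [sq_nonneg (y 0 - 1), sq_nonneg (y 1)]
    · show y 1 ≤ R + 1
      nlinarith [sq_nonneg (y 1 - 1), sq_nonneg (y 0)]
    · exact h3.2

theorem geob_convex (e : Ed c) (r : ℝ) : Convex ℝ {y : Eu 3 | rsq e y < r} := by
  refine convex_iff_forall_pos.2 fun x hx y hy a b ha hb hab => ?_
  obtain rfl : b = 1 - a := by linarith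
  simp only [mem_ofPred_eq, rsq, Pi.add_apply, Pi.smul_apply, smul_eq_mul] at hx hy ⊢
  have h1 := mul_lt_mul_of_pos_left hx ha
  have h2 := mul_lt_mul_of_pos_left hy hb
  have h3 := mul_nonneg (mul_pos ha hb).le (sq_nonneg (x 0 - y 0))
  have h4 := mul_nonneg (mul_pos ha hb).le (sq_nonneg (x 1 - y 1))
  nlinarith

theorem geob_null (e : Ed c) {r : ℝ} (hr : 0 < r) : volume {y : Eu 3 | rsq e y = r} = 0 := by
  refine measure_mono_null (fun y hy => ?_) ((geob_convex e r).addHaar_frontier volume)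
  have hy' : rsq e y = r := hy
  rw [(isOpen_lt (contDiff_rsq e).continuous continuous_const).frontier_eq]
  refine ⟨?_, fun h => hy'.not_lt h⟩
  refine closure_mono ?_ (segment_subset_closure_openSegment
    (right_mem_segment ℝ (![ctr e, 0, y 2] : Eu 3) y))
  rintro z ⟨a, b, ha, hb, hab, rfl⟩
  obtain rfl : a = 1 - b := by linarith
  have h1 : rsq e ((1 - b) • (![ctr e, 0, y 2] : Eu 3) + b • y) = b ^ 2 * rsq e y := by
    simp [rsq]
    ring
  show rsq e _ < r
  rw [h1, hy']
  have h2 : b ^ 2 < 1 := by nlinarith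
  nlinarith

/-- The middle tori are null. For instance: the set is contained in a finite union of sets
rsq e y = r, and each line parallel to the axis 0 meets such a set in at most two points
(measure_prod_null with MeasurableEquiv.piFinSuccAbove), or it is a countable union of
pieces of the frontier of a convex set (Convex.addHaar_frontier). -/
theorem volume_mid : volume {y : Eu 3 | y ∈ DR c ∧ ∃ e : Ed c, sc e y = 0} = 0 := by
  refine measure_mono_null (t := ⋃ e : Ed c, {y : Eu 3 | rsq e y = Real.exp (2 * mid e)}) ?_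
    (measure_iUnion_null fun e => geob_null e (Real.exp_pos _))
  rintro y ⟨hy, e, he⟩
  refine mem_iUnion.2 ⟨e, ?_⟩
  have h1 : sg e ≠ 0 := fun h => by simpa [h] using sg_sq e
  have h2 : Real.log (rsq e y) = 2 * mid e := by
    have h3 := (mul_eq_zero.1 he).resolve_left h1
    linarith
  show rsq e y = _
  rw [← h2, Real.exp_log (hy e).1]

theorem geob_fderiv_zero {e : Ed c} {y : Eu 3} (hy : y ∈ DR c) (h : 1 / 2 < |sc e y|) :
    fderiv ℝ (kap e) y = 0 := by
  have hc : ContinuousAt (sc e) y :=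
    (contDiffOn_sc e).continuousOn.continuousAt (isOpen_DR.mem_nhds hy)
  rcases lt_abs.1 h with h1 | h1
  · have h2 : kap e =ᶠ[𝓝 y] fun _ => 0 :=
      (hc.eventually (lt_mem_nhds h1)).mono fun z hz => kap_eq_zero (le_of_lt hz)
    rw [h2.fderiv_eq, fderiv_fun_const, Pi.zero_apply]
  · have h3 : sc e y < -1 / 2 := by linarith
    have h2 : kap e =ᶠ[𝓝 y] fun _ => 1 :=
      (hc.eventually (gt_mem_nhds h3)).mono fun z hz => kap_eq_one (le_of_lt hz)
    rw [h2.fderiv_eq, fderiv_fun_const, Pi.zero_apply]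

theorem geob_hasFDerivAt_sc (e : Ed c) {y : Eu 3} (h : 0 < rsq e y) :
    ∃ D : Eu 3 →L[ℝ] ℝ, HasFDerivAt (sc e) D y ∧
      ∀ v, D v = sg e * (((y 0 - ctr e) * v 0 + y 1 * v 1) / rsq e y) := by
  have h0 : HasFDerivAt (fun y : Eu 3 => y 0) (ContinuousLinearMap.proj 0 : Eu 3 →L[ℝ] ℝ) y :=
    hasFDerivAt_apply 0 y
  have h1 : HasFDerivAt (fun y : Eu 3 => y 1) (ContinuousLinearMap.proj 1 : Eu 3 →L[ℝ] ℝ) y :=
    hasFDerivAt_apply 1 y
  have h2 : HasFDerivAt (rsq e) _ y := ((h0.sub_const (ctr e)).pow 2).add (h1.pow 2)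
  have h3 := (((h2.log h.ne').mul_const (2 : ℝ)⁻¹).sub_const (mid e)).const_mul (sg e)
  refine ⟨_, h3, fun v => ?_⟩
  simp
  ring

/-- On the collar the frame is (r e0, r e1, e2) and d (sc e) = sg e (w0 dx + w1 dy) / r ^ 2 has
length one; the derivative of smoothTransition is continuous with compact support, so bounded;
off the collar kap e is locally zero. -/
theorem exists_grad_kap (c : Par) : ∃ c₀ : ℝ, 0 ≤ c₀ ∧ ∀ (e : Ed c), ∀ y ∈ DR c,
    gsq c y (fderiv ℝ (kap e) y) ≤ c₀ ^ 2 := by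
  have hT : ContDiff ℝ 1 Real.smoothTransition := Real.smoothTransition.contDiff (n := 1)
  obtain ⟨C, hC⟩ := (isCompact_Icc (a := (0 : ℝ)) (b := 1)).exists_bound_of_continuousOn
    (hT.continuous_deriv le_rfl).continuousOn
  have hC0 : 0 ≤ C := (norm_nonneg _).trans (hC 0 (left_mem_Icc.2 zero_le_one))
  refine ⟨C, hC0, fun e y hy => ?_⟩
  rcases lt_or_ge (1 / 2) |sc e y| with h | h
  · rw [geob_fderiv_zero hy h]
    simpa [gsq] using sq_nonneg C
  · obtain ⟨h1, h2⟩ := abs_le.1 h
    have hr := (hy e).1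
    obtain ⟨D, hD, hD'⟩ := geob_hasFDerivAt_sc e hr
    have h3 : HasFDerivAt (kap e) _ y :=
      (hT.differentiable one_ne_zero _).hasDerivAt.comp_hasFDerivAt y (hD.const_sub (1 / 2))
    have h4 := hC (1 / 2 - sc e y) ⟨by linarith, by linarith⟩
    rw [h3.fderiv]
    generalize deriv Real.smoothTransition (1 / 2 - sc e y) = d at h4 ⊢
    have h5 : gsq c y (d • -D) = d ^ 2 := by
      have h6 : √(rsq e y) ^ 2 = rsq e y := Real.sq_sqrt hr.le
      have h7 : (y 0 - ctr e) ^ 2 + y 1 ^ 2 = rsq e y := rfl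
      have h8 := sg_sq e
      rw [gsq, Fin.sum_univ_three]
      simp only [fr, lam_collar hy (show sc e y ≤ 1 by linarith), inv_inv, Matrix.cons_val_zero,
        Matrix.cons_val_one, Matrix.cons_val, smul_apply,
        neg_apply, hD', smul_eq_mul, Pi.smul_apply, bas]
      simp
      generalize √(rsq e y) = q at h6
      generalize rsq e y = r at hr h6 h7
      field_simp
      rw [h8, h6, h7]
      ring
    rw [h5, ← sq_abs d]
    exact pow_le_pow_left₀ (abs_nonneg d) h4 2

theorem fderiv_kap_eq_zero {e : Ed c} {y : Eu 3} (hy : y ∈ DR c) (h : 1 / 2 < |sc e y|) :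
    fderiv ℝ (kap e) y = 0 := by
  exact geob_fderiv_zero hy h

end Pool.Agent.Lib.MP_570070_gt.An
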