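import Pool.Agent.Lib.MP_570070_gt.An.GeoA

open MeasureTheory Filter Topology Set
open scoped ContDiff InnerProductSpace

namespace Pool.Agent.Lib.MP_570070_gt.An

variable {c : Par}

theorem geoc_mem {y : Eu 3} : y ∈ DR c ↔ y 0 ^ 2 + y 1 ^ 2 < Real.exp (2 * (c.m + 5)) ∧
    ∀ j : Fin (c.m + 1), Real.exp (-8) < (y 0 - (j : ℕ)) ^ 2 + y 1 ^ 2 := by
  constructor
  · intro h
    refine ⟨?_, fun j => ?_⟩
    · obtain ⟨h1, h2⟩ := h none
      simp only [sc, sg, mid, rsq, ctr, sub_zero] at h1 h2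
      rw [← Real.log_lt_iff_lt_exp h1]
      linarith
    · obtain ⟨h1, h2⟩ := h (some j)
      simp only [sc, sg, mid, rsq, ctr] at h1 h2
      rw [← Real.lt_log_iff_exp_lt h1]
      linarith
  · rintro ⟨h, h'⟩ (_ | j)
    · have h1 : 0 < y 0 ^ 2 + y 1 ^ 2 := by simpa using (Real.exp_pos _).trans (h' 0)
      rw [← Real.log_lt_iff_lt_exp h1] at h
      simp only [sc, sg, mid, rsq, ctr, sub_zero]
      exact ⟨h1, by linarith⟩
    · have h1 := (Real.exp_pos _).trans (h' j)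
      have h2 := (Real.lt_log_iff_exp_lt h1).2 (h' j)
      simp only [sc, sg, mid, rsq, ctr]
      exact ⟨h1, by linarith⟩

theorem geoc_big {u v : ℝ} (h0 : -1 ≤ u) (h1 : u ≤ c.m + 1) (h2 : v ^ 2 ≤ 1) :
    u ^ 2 + v ^ 2 < Real.exp (2 * (c.m + 5)) := by
  have hm : (0 : ℝ) ≤ c.m := Nat.cast_nonneg _
  have h3 := Real.add_one_le_exp ((c.m : ℝ) + 5)
  have h4 : u ^ 2 ≤ (c.m + 1) ^ 2 := sq_le_sq' (by linarith) h1
  rw [two_mul, Real.exp_add]
  nlinarith

theorem geoc_small : Real.exp (-8) < 1 := Real.exp_lt_one_iff.2 (by norm_num)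

theorem geoc_convex (B : ℝ) : Convex ℝ {y : Eu 3 | y 0 ^ 2 + y 1 ^ 2 < B} := by
  intro x hx y hy a b ha hb hab
  have h := convex_Iio B hx hy ha hb hab
  simp only [mem_ofPred_eq, Pi.add_apply, Pi.smul_apply, smul_eq_mul, mem_Iio] at h ⊢
  obtain rfl : b = 1 - a := by linarith
  nlinarith [mul_nonneg (mul_nonneg ha hb) (sq_nonneg (x 0 - y 0)),
    mul_nonneg (mul_nonneg ha hb) (sq_nonneg (x 1 - y 1))]

theorem geoc_half (i : Fin 3) (s t : ℝ)
    (h : ∀ y : Eu 3, t ≤ s * y i → ∀ j : Fin (c.m + 1), 1 ≤ (y 0 - (j : ℕ)) ^ 2 + y 1 ^ 2)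
    {x y : Eu 3} (hx : x 0 ^ 2 + x 1 ^ 2 < Real.exp (2 * (c.m + 5)))
    (hy : y 0 ^ 2 + y 1 ^ 2 < Real.exp (2 * (c.m + 5))) (hx' : t ≤ s * x i) (hy' : t ≤ s * y i) :
    JoinedIn (DR c) x y := by
  have hl : IsLinearMap ℝ fun y : Eu 3 => s * y i :=
    ⟨fun a b => by simp [mul_add], fun a b => by simp [mul_left_comm]⟩
  refine JoinedIn.of_segment_subset fun z hz => ?_
  have hz' := ((geoc_convex _).inter (convex_halfSpace_ge hl t)).segment_subset
    ⟨hx, hx'⟩ ⟨hy, hy'⟩ hz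
  exact geoc_mem.2 ⟨hz'.1, fun j => geoc_small.trans_le (h z hz'.2 j)⟩

theorem geoc_right {x y : Eu 3} (hx : x 0 ^ 2 + x 1 ^ 2 < Real.exp (2 * (c.m + 5)))
    (hy : y 0 ^ 2 + y 1 ^ 2 < Real.exp (2 * (c.m + 5))) (hx' : c.m + 1 ≤ x 0)
    (hy' : c.m + 1 ≤ y 0) : JoinedIn (DR c) x y := by
  refine geoc_half 0 1 (c.m + 1) (fun z hz j => ?_) hx hy (by linarith) (by linarith)
  have hj : ((j : ℕ) : ℝ) ≤ c.m := Nat.cast_le.2 (Nat.le_of_lt_succ j.2)
  nlinarith [sq_nonneg (z 1)]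

theorem geoc_top {s : ℝ} (hs : s ^ 2 = 1) {y : Eu 3}
    (hy : y 0 ^ 2 + y 1 ^ 2 < Real.exp (2 * (c.m + 5))) (hy' : 1 ≤ s * y 1) :
    JoinedIn (DR c) y ![c.m + 1, 0, 0] := by
  have hm : (0 : ℝ) ≤ c.m := Nat.cast_nonneg _
  have h1 : ((c.m : ℝ) + 1) ^ 2 + s ^ 2 < Real.exp (2 * (c.m + 5)) :=
    geoc_big (by linarith) le_rfl hs.le
  refine JoinedIn.trans (y := ![(c.m : ℝ) + 1, s, 0])
    (geoc_half 1 s 1 (fun z hz j => ?_) hy h1 hy' (by simp [← sq, hs]))
    (geoc_right h1 (geoc_big (u := c.m + 1) (v := 0) (by linarith) le_rfl (by norm_num))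
      le_rfl le_rfl)
  have h2 : 1 ≤ (s * z 1) ^ 2 := one_le_pow₀ hz
  rw [mul_pow, hs, one_mul] at h2
  linarith [sq_nonneg (z 0 - (j : ℕ))]

theorem geoc_vert {s : ℝ} (hs : s ^ 2 = 1) {y : Eu 3} (hy : y ∈ DR c) (h0 : -1 ≤ y 0)
    (h1 : y 0 ≤ c.m + 1) (h2 : 0 ≤ s * y 1) (h3 : s * y 1 ≤ 1) :
    JoinedIn (DR c) y ![c.m + 1, 0, 0] := by
  refine JoinedIn.trans (y := ![y 0, s, 0]) (JoinedIn.of_segment_subset ?_)
    (geoc_top hs (geoc_big h0 h1 hs.le) (by simp [← sq, hs]))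
  rintro z ⟨a, b, ha, hb, hab, rfl⟩
  obtain rfl : b = 1 - a := by linarith
  have e0 : (a • y + (1 - a) • ![y 0, s, 0]) 0 = y 0 := by simp; ring
  have e1 : (a • y + (1 - a) • ![y 0, s, 0]) 1 ^ 2 = (a * (s * y 1) + (1 - a)) ^ 2 := by
    simp only [Pi.add_apply, Pi.smul_apply, smul_eq_mul, Matrix.cons_val_one, Matrix.cons_val_zero]
    linear_combination ((1 - a) ^ 2 - a ^ 2 * y 1 ^ 2) * hs
  have e2 : y 1 ^ 2 = (s * y 1) ^ 2 := by rw [mul_pow, hs, one_mul]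
  have h4 : s * y 1 ≤ a * (s * y 1) + (1 - a) := by nlinarith
  have h5 : a * (s * y 1) + (1 - a) ≤ 1 := by nlinarith
  refine geoc_mem.2 ⟨?_, fun j => ((geoc_mem.1 hy).2 j).trans_le ?_⟩
  · rw [e0, e1]
    exact geoc_big h0 h1 (pow_le_one₀ (h2.trans h4) h5)
  · rw [e0, e1, e2]
    linarith [pow_le_pow_left₀ h2 h4 2]

theorem geoc_join {y : Eu 3} (hy : y ∈ DR c) : JoinedIn (DR c) y ![c.m + 1, 0, 0] := by
  have hm : (0 : ℝ) ≤ c.m := Nat.cast_nonneg _
  have hB := (geoc_mem.1 hy).1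
  rcases le_total 1 (y 1) with h1 | h1
  · exact geoc_top (s := 1) (by norm_num) hB (by linarith)
  rcases le_total (y 1) (-1) with h2 | h2
  · exact geoc_top (s := -1) (by norm_num) hB (by linarith)
  rcases le_total ((c.m : ℝ) + 1) (y 0) with h3 | h3
  · exact geoc_right hB (geoc_big (u := c.m + 1) (v := 0) (by linarith) le_rfl (by norm_num))
      h3 le_rfl
  rcases le_total (y 0) (-1) with h4 | h4
  · have h5 : (-1 : ℝ) ^ 2 + 1 ^ 2 < Real.exp (2 * (c.m + 5)) :=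
      geoc_big le_rfl (by linarith) (by norm_num)
    refine JoinedIn.trans (y := ![-1, 1, 0])
      (geoc_half 0 (-1) 1 (fun z hz j => ?_) hB h5 (by linarith) (by simp))
      (geoc_top (s := 1) (by norm_num) h5 (by simp))
    have hj : (0 : ℝ) ≤ (j : ℕ) := Nat.cast_nonneg _
    nlinarith [sq_nonneg (z 1)]
  rcases le_total 0 (y 1) with h5 | h5
  · exact geoc_vert (s := 1) (by norm_num) hy h4 h3 (by linarith) (by linarith)
  · exact geoc_vert (s := -1) (by norm_num) hy h4 h3 (by linarith) (by linarith)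

/-- With R = exp (m + 5), a = exp (-4): DR is the set of y whose planar part lies in the open disc
of radius R about 0 and outside the closed discs of radius a about 0, ..., m. It is covered by the
convex sets (disc and y 1 > 1), (disc and y 0 > m + 1), (disc and y 1 < -1), (disc and y 0 < -1),
which overlap in a chain, and by the vertical segments from the remaining points
(|y 1| ≤ 1, -1 ≤ y 0 ≤ m + 1) to height 2 or -2. -/
theorem isPreconnected_DR : IsPreconnected (DR c) := by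
  rcases (DR c).eq_empty_or_nonempty with h | ⟨x, hx⟩
  · rw [h]; exact isPreconnected_empty
  · exact (IsPathConnected.isConnected
      ⟨x, hx, fun y hy => (geoc_join hx).trans (geoc_join hy).symm⟩).isPreconnected

theorem nonempty_DR : (DR c).Nonempty := by
  have hm : (0 : ℝ) ≤ c.m := Nat.cast_nonneg _
  refine ⟨![0, 1, 0], geoc_mem.2 ⟨geoc_big (u := 0) (v := 1) (by norm_num) (by linarith)
    (by norm_num), fun j => geoc_small.trans_le ?_⟩⟩
  simp only [Matrix.cons_val_one, Matrix.cons_val_zero]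
  linarith [sq_nonneg ((0 : ℝ) - (j : ℕ))]

/-- Every middle torus is non-empty. -/
theorem exists_sc_eq (e : Ed c) {a : ℝ} (ha : -1 < a) (ha' : a ≤ 2) :
    ∃ y ∈ Cell c, sc e y = a := by
  have hm : (0 : ℝ) ≤ c.m := Nat.cast_nonneg _
  have e2 : ∀ t : ℝ, Real.exp t ^ 2 = Real.exp (2 * t) := fun t => by
    rw [two_mul, Real.exp_add, sq]
  refine ⟨![ctr e, Real.exp (mid e + sg e * a), 1], ⟨geoc_mem.2 ⟨?_, fun j => ?_⟩, ?_⟩, ?_⟩
  · simp only [Matrix.cons_val_one, Matrix.cons_val_zero]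
    rcases e with _ | j
    · simp only [ctr, mid, sg, e2]
      rw [zero_pow two_ne_zero, zero_add, Real.exp_lt_exp]
      linarith
    · have hj : ((j : ℕ) : ℝ) ≤ c.m := Nat.cast_le.2 (Nat.le_of_lt_succ j.2)
      have hj0 : (0 : ℝ) ≤ (j : ℕ) := Nat.cast_nonneg _
      simp only [ctr, mid, sg]
      refine geoc_big (by linarith) (by linarith) ?_
      rw [e2, Real.exp_le_one_iff]
      linarith
  · simp only [Matrix.cons_val_one, Matrix.cons_val_zero]
    refine lt_of_lt_of_le ?_ (le_add_of_nonneg_left (sq_nonneg _))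
    rw [e2, Real.exp_lt_exp]
    rcases e with _ | j <;> simp only [mid, sg] <;> linarith
  · exact ⟨one_pos, show (1 : ℝ) < 2 * Real.pi by linarith [Real.pi_gt_three]⟩
  · simp only [sc, rsq, Matrix.cons_val_one, Matrix.cons_val_zero, sub_self, e2]
    rw [zero_pow two_ne_zero, zero_add, Real.log_exp]
    linear_combination a * sg_sq e

end Pool.Agent.Lib.MP_570070_gt.An
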