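import Pool.Agent.Lib.MP_570070_gt.An.UDefs
import Pool.Agent.Lib.MP_570070_gt.An.GeoB
import Pool.Agent.Lib.MP_570070_gt.An.GeoC

open MeasureTheory Filter Topology Set
open scoped ContDiff InnerProductSpace

namespace Pool.Agent.Lib.MP_570070_gt.An

variable {c : Par}

/-- The planar field (u grad v - v grad u) / (u ^ 2 + v ^ 2), the differential of the argument of
u + i v. -/
noncomputable def argF (u v : Eu 3 → ℝ) (y : Eu 3) : Eu 3 :=
  (u y ^ 2 + v y ^ 2)⁻¹ • (u y • grad v y - v y • grad u y)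

theorem alphaa_pd {u : Eu 3 → ℝ} {y : Eu 3} (hu : ContDiffAt ℝ ∞ u y) (i : Fin 3) :
    ContDiffAt ℝ ∞ (pd i u) y :=
  (hu.fderiv_right (m := ∞) le_rfl).clm_apply contDiffAt_const

theorem alphaa_symm {u : Eu 3 → ℝ} {y : Eu 3} (hu : ContDiffAt ℝ ∞ u y) (i j : Fin 3) :
    fderiv ℝ (pd j u) y (bas i) = fderiv ℝ (pd i u) y (bas j) := by
  have h1 : DifferentiableAt ℝ (fderiv ℝ u) y :=
    (hu.fderiv_right (m := ∞) le_rfl).differentiableAt (by simp)
  have h2 : ∀ i j, fderiv ℝ (pd j u) y (bas i) = fderiv ℝ (fderiv ℝ u) y (bas i) (bas j) :=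
    fun i j => by
      have := fderiv_clm_apply h1 (differentiableAt_const (bas j))
      change fderiv ℝ (fun z => fderiv ℝ u z (bas j)) y (bas i) = _
      rw [this]
      simp
  rw [h2, h2]
  refine (hu.isSymmSndFDerivAt ?_).eq _ _
  rw [minSmoothness_of_isRCLikeNormedField]
  exact WithTop.coe_le_coe.2 le_top

theorem contDiffOn_argF {u v : Eu 3 → ℝ} {s : Set (Eu 3)} (hs : IsOpen s)
    (hu : ContDiffOn ℝ ∞ u s) (hv : ContDiffOn ℝ ∞ v s) (h : ∀ y ∈ s, u y ^ 2 + v y ^ 2 ≠ 0) :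
    ContDiffOn ℝ ∞ (argF u v) s := fun y hy => by
  have h1 := hu.contDiffAt (hs.mem_nhds hy)
  have h2 := hv.contDiffAt (hs.mem_nhds hy)
  have g1 : ContDiffAt ℝ ∞ (grad u) y := contDiffAt_pi.2 (alphaa_pd h1)
  have g2 : ContDiffAt ℝ ∞ (grad v) y := contDiffAt_pi.2 (alphaa_pd h2)
  exact ((((h1.pow 2).add (h2.pow 2)).inv (h y hy)).smul
    ((h1.smul g2).sub (h2.smul g1))).contDiffWithinAt

theorem alphaa_arg {u v : Eu 3 → ℝ} {y : Eu 3} (hu : ContDiffAt ℝ ∞ u y) (hv : ContDiffAt ℝ ∞ v y)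
    (h : u y ^ 2 + v y ^ 2 ≠ 0) (i j : Fin 3) :
    pd i (fun z => argF u v z j) y = pd j (fun z => argF u v z i) y := by
  have h1 := (hu.differentiableAt (by simp)).hasFDerivAt
  have h2 := (hv.differentiableAt (by simp)).hasFDerivAt
  have h3 := fun k => ((alphaa_pd hu k).differentiableAt (by simp)).hasFDerivAt
  have h4 := fun k => ((alphaa_pd hv k).differentiableAt (by simp)).hasFDerivAt
  have h5 := (hasDerivAt_inv h).comp_hasFDerivAt y ((h1.pow 2).fun_add (h2.pow 2))
  have h6 : ∀ k, fderiv ℝ (fun z => argF u v z k) y = _ := fun k =>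
    (h5.fun_mul ((h1.fun_mul (h4 k)).fun_sub (h2.fun_mul (h3 k)))).fderiv
  have h7 := alphaa_symm hu i j
  have h8 := alphaa_symm hv i j
  rw [pd, pd, h6, h6]
  simp only [add_apply, sub_apply, smul_apply, smul_eq_mul, h7, h8, pd, Function.comp, nsmul_eq_mul]
  field_simp
  ring

/-- Symmetry of second derivatives and the quotient rule. -/
theorem curl_argF {u v : Eu 3 → ℝ} {y : Eu 3} (hu : ContDiffAt ℝ ∞ u y) (hv : ContDiffAt ℝ ∞ v y)
    (h : u y ^ 2 + v y ^ 2 ≠ 0) : curl (argF u v) y = 0 := by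
  rw [curl, alphaa_arg hu hv h 1 2, alphaa_arg hu hv h 2 0, alphaa_arg hu hv h 0 1]
  simp

theorem curl_smul {f : Eu 3 → ℝ} {a : Eu 3 → Eu 3} {y : Eu 3} (hf : DifferentiableAt ℝ f y)
    (ha : DifferentiableAt ℝ a y) : curl (fun z => f z • a z) y = f y • curl a y +
      ![pd 1 f y * a y 2 - pd 2 f y * a y 1, pd 2 f y * a y 0 - pd 0 f y * a y 2,
        pd 0 f y * a y 1 - pd 1 f y * a y 0] := by
  have h : ∀ i k, pd i (fun z => (f z • a z) k) y =
      f y * pd i (fun z => a z k) y + pd i f y * a y k := fun i k => by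
    have := (hf.hasFDerivAt.fun_mul (differentiableAt_pi.1 ha k).hasFDerivAt).fderiv
    simp only [pd, Pi.smul_apply, smul_eq_mul]
    rw [this]
    simp [mul_comm]
  simp only [curl, h]
  funext i
  fin_cases i <;> simp <;> ring

theorem curl_add {a b : Eu 3 → Eu 3} {y : Eu 3} (ha : DifferentiableAt ℝ a y)
    (hb : DifferentiableAt ℝ b y) : curl (fun z => a z + b z) y = curl a y + curl b y := by
  have h : ∀ i k, pd i (fun z => (a z + b z) k) y =
      pd i (fun z => a z k) y + pd i (fun z => b z k) y := fun i k => by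
    simp only [pd, Pi.add_apply]
    rw [fderiv_fun_add (differentiableAt_pi.1 ha k) (differentiableAt_pi.1 hb k)]
    rfl
  simp only [curl, h]
  funext i
  fin_cases i <;> simp <;> ring

theorem curl_sub {a b : Eu 3 → Eu 3} {y : Eu 3} (ha : DifferentiableAt ℝ a y)
    (hb : DifferentiableAt ℝ b y) : curl (fun z => a z - b z) y = curl a y - curl b y := by
  have h : ∀ i k, pd i (fun z => (a z - b z) k) y =
      pd i (fun z => a z k) y - pd i (fun z => b z k) y := fun i k => by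
    simp only [pd, Pi.sub_apply]
    rw [fderiv_fun_sub (differentiableAt_pi.1 ha k) (differentiableAt_pi.1 hb k)]
    rfl
  simp only [curl, h]
  funext i
  fin_cases i <;> simp <;> ring

theorem argF_congr {u v u' v' : Eu 3 → ℝ} {y : Eu 3} (hu : u =ᶠ[𝓝 y] u') (hv : v =ᶠ[𝓝 y] v') :
    argF u v y = argF u' v' y := by
  have h : ∀ {f g : Eu 3 → ℝ}, f =ᶠ[𝓝 y] g → grad f y = grad g y := fun h => by
    funext i
    simp only [grad, pd, h.fderiv_eq]
  rw [argF, argF, hu.self_of_nhds, hv.self_of_nhds, h hu, h hv]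

theorem argF_const (a b : ℝ) (y : Eu 3) : argF (fun _ => a) (fun _ => b) y = 0 := by
  funext i
  simp [argF, grad, pd]

theorem argF_coord (e : Ed c) (y : Eu 3) : argF (fun z => z 0 - ctr e) (fun z => z 1) y =
    ![-(y 1 / rsq e y), (y 0 - ctr e) / rsq e y, 0] := by
  have h0 : HasFDerivAt (fun y : Eu 3 => y 0) (ContinuousLinearMap.proj 0 : Eu 3 →L[ℝ] ℝ) y :=
    hasFDerivAt_apply 0 y
  have h1 : HasFDerivAt (fun y : Eu 3 => y 1) (ContinuousLinearMap.proj 1 : Eu 3 →L[ℝ] ℝ) y :=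
    hasFDerivAt_apply 1 y
  funext i
  simp only [argF, grad, pd, Pi.smul_apply, Pi.sub_apply, (h0.sub_const (ctr e)).fderiv, h1.fderiv,
    rsq]
  fin_cases i <;> simp [bas, div_eq_inv_mul]

/-- A function of the first two coordinates has a gradient of the same kind. -/
theorem grad_planar {u : Eu 3 → ℝ} (h : ∀ y y' : Eu 3, y' 0 = y 0 → y' 1 = y 1 → u y' = u y) :
    (∀ y y' : Eu 3, y' 0 = y 0 → y' 1 = y 1 → grad u y' = grad u y) ∧ ∀ y, pd 2 u y = 0 := by
  refine ⟨fun y y' h0 h1 => ?_, fun y => ?_⟩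
  · have e : (fun z => u (z + (y' - y))) = u := funext fun z =>
      h _ _ (by simp [h0]) (by simp [h1])
    have e2 := fderiv_comp_add_right (𝕜 := ℝ) (f := u) (x := y) (y' - y)
    rw [e, add_sub_cancel] at e2
    funext i
    simp only [grad, pd, e2]
  · by_cases hd : DifferentiableAt ℝ u y
    · have e : (fun t : ℝ => u (y + t • bas 2)) = fun _ => u y := funext fun t =>
        h _ _ (by simp [bas]) (by simp [bas])
      rw [pd, ← hd.lineDeriv_eq_fderiv, lineDeriv, e, deriv_const]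
    · rw [pd, fderiv_zero_of_not_differentiableAt hd]
      rfl

/-- bet none = smoothTransition (2 - sc none), d (sc none) = -(w0 dx + w1 dy) / rsq. -/
theorem pd_bet_none {y : Eu 3} (hy : y ∈ DR c) :
    pd 0 (bet (none : Ed c)) y = deriv Real.smoothTransition (2 - sc (none : Ed c) y) *
      (y 0 / rsq (none : Ed c) y) ∧
    pd 1 (bet (none : Ed c)) y = deriv Real.smoothTransition (2 - sc (none : Ed c) y) *
      (y 1 / rsq (none : Ed c) y) ∧ pd 2 (bet (none : Ed c)) y = 0 := by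
  have hT : ContDiff ℝ 1 Real.smoothTransition := Real.smoothTransition.contDiff (n := 1)
  obtain ⟨D, hD, hD'⟩ := geob_hasFDerivAt_sc (none : Ed c) (hy none).1
  have h3 : HasFDerivAt (bet (none : Ed c)) _ y :=
    (hT.differentiable one_ne_zero _).hasDerivAt.comp_hasFDerivAt y (hD.const_sub 2)
  simp [pd, h3.fderiv, hD', bas, sg, ctr]

theorem deriv_smoothTransition_nonneg (x : ℝ) : 0 ≤ deriv Real.smoothTransition x :=
  Real.smoothTransition.monotone.deriv_nonneg

theorem deriv_smoothTransition_ne {x : ℝ} (h : deriv Real.smoothTransition x ≠ 0) :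
    0 ≤ x ∧ x ≤ 1 := by
  constructor <;> by_contra hx <;> refine h ?_
  · have : Real.smoothTransition =ᶠ[𝓝 x] fun _ => 0 :=
      (gt_mem_nhds (not_le.1 hx)).mono fun t ht => Real.smoothTransition.zero_of_nonpos ht.le
    rw [this.deriv_eq, deriv_const]
  · have : Real.smoothTransition =ᶠ[𝓝 x] fun _ => 1 :=
      (lt_mem_nhds (not_le.1 hx)).mono fun t ht => Real.smoothTransition.one_of_one_le ht.le
    rw [this.deriv_eq, deriv_const]

/-- Mean value theorem. -/
theorem exists_deriv_smoothTransition_pos :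
    ∃ x ∈ Ioo (0 : ℝ) 1, 0 < deriv Real.smoothTransition x := by
  have hT : ContDiff ℝ 1 Real.smoothTransition := Real.smoothTransition.contDiff (n := 1)
  obtain ⟨x, hx, h⟩ := exists_deriv_eq_slope Real.smoothTransition zero_lt_one
    hT.continuous.continuousOn (hT.differentiable one_ne_zero).differentiableOn
  exact ⟨x, hx, by rw [h]; simp⟩

end Pool.Agent.Lib.MP_570070_gt.An
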