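import Pool.Agent.Lib.MP_570070_gt.An.AlphaA

open MeasureTheory Filter Topology Set
open scoped ContDiff InnerProductSpace

namespace Pool.Agent.Lib.MP_570070_gt.An

section aux

variable {c : Par}

/-- First coordinate of the map whose argument is used for the inner circle j. -/
noncomputable def alphab_u (j : Fin (c.m + 1)) (z : Eu 3) : ℝ :=
  (z 0 - (j : ℕ)) - ∑ i ∈ Finset.univ.erase j, bet (some i : Ed c) z * (z 0 - (i : ℕ)) +
    Real.smoothTransition (3 - sc (none : Ed c) z) * (j : ℕ)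

/-- Second coordinate of that map. -/
noncomputable def alphab_v (j : Fin (c.m + 1)) (z : Eu 3) : ℝ :=
  z 1 - ∑ i ∈ Finset.univ.erase j, bet (some i : Ed c) z * z 1

/-- The differential of the polar angle. -/
noncomputable def alphab_ang (c : Par) : Eu 3 → Eu 3 :=
  argF (fun z => z 0 - ctr (none : Ed c)) (fun z => z 1)

theorem alphab_far {y : Eu 3} (hy : y ∈ DR c) (h : sc (none : Ed c) y ≤ 3) :
    ((c.m : ℝ) + 2) ^ 2 ≤ y 0 ^ 2 + y 1 ^ 2 := by
  have h0 := (hy none).1
  simp only [sc, sg, mid, rsq, ctr, sub_zero] at h h0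
  have h1 : Real.exp (2 * (c.m + 1)) ≤ y 0 ^ 2 + y 1 ^ 2 := by
    rw [← Real.le_log_iff_exp_le h0]
    linarith
  have h2 := Real.add_one_le_exp ((c.m : ℝ) + 1)
  have hm : (0 : ℝ) ≤ c.m := Nat.cast_nonneg _
  rw [two_mul, Real.exp_add] at h1
  nlinarith

theorem alphab_three {y : Eu 3} (hy : y ∈ DR c) {i : Fin (c.m + 1)}
    (h : sc (some i : Ed c) y ≤ 2) : Real.smoothTransition (3 - sc (none : Ed c) y) = 0 := by
  refine Real.smoothTransition.zero_of_nonpos ?_
  by_contra h1
  have h2 := alphab_far hy (by linarith)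
  have h3 := geoa_in (hy _).1 h
  simp only [rsq, ctr] at h3
  have hi : ((i : ℕ) : ℝ) ≤ c.m := Nat.cast_le.2 (Nat.le_of_lt_succ i.2)
  have hi0 : (0 : ℝ) ≤ (i : ℕ) := Nat.cast_nonneg _
  have h4 : y 0 - (i : ℕ) < 1 := by nlinarith [sq_nonneg (y 1)]
  nlinarith [sq_nonneg (y 0 - (i : ℕ) + 1)]

theorem alphab_sum_zero {y : Eu 3} {j : Fin (c.m + 1)} (f : Fin (c.m + 1) → ℝ)
    (h : ∀ i, i ≠ j → 2 < sc (some i : Ed c) y) :
    ∑ i ∈ Finset.univ.erase j, bet (some i : Ed c) y * f i = 0 :=
  Finset.sum_eq_zero fun i hi => by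
    rw [bet_eq_zero (h i (Finset.ne_of_mem_erase hi)).le, zero_mul]

theorem alphab_sum_one {y : Eu 3} (hy : y ∈ DR c) {i j : Fin (c.m + 1)} (hij : i ≠ j)
    (h : sc (some i : Ed c) y ≤ 2) (f : Fin (c.m + 1) → ℝ) :
    ∑ k ∈ Finset.univ.erase j, bet (some k : Ed c) y * f k = bet (some i : Ed c) y * f i :=
  Finset.sum_eq_single i (fun k _ hk => by
    rw [bet_eq_zero (sc_disj hy (fun e => hk (Option.some.inj e).symm) h).le, zero_mul])
    (fun hi => absurd (Finset.mem_erase.2 ⟨hij, Finset.mem_univ i⟩) hi)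

theorem alphab_self {y : Eu 3} (hy : y ∈ DR c) {j : Fin (c.m + 1)}
    (h : sc (some j : Ed c) y ≤ 2) :
    alphab_u j y = y 0 - ctr (some j : Ed c) ∧ alphab_v j y = y 1 := by
  have h1 : ∀ i, i ≠ j → 2 < sc (some i : Ed c) y := fun i hi =>
    sc_disj hy (fun e => hi (Option.some.inj e).symm) h
  rw [alphab_u, alphab_v, alphab_sum_zero _ h1, alphab_sum_zero _ h1, alphab_three hy h]
  simp [ctr]

theorem alphab_other {y : Eu 3} (hy : y ∈ DR c) {i j : Fin (c.m + 1)} (hij : i ≠ j)
    (h : sc (some i : Ed c) y ≤ 2) :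
    alphab_u j y = ((i : ℕ) : ℝ) - (j : ℕ) + (1 - bet (some i : Ed c) y) * (y 0 - (i : ℕ)) ∧
      alphab_v j y = (1 - bet (some i : Ed c) y) * y 1 := by
  rw [alphab_u, alphab_v, alphab_sum_one hy hij h, alphab_sum_one hy hij h, alphab_three hy h]
  constructor <;> ring

theorem alphab_out {y : Eu 3} (j : Fin (c.m + 1)) (h : ∀ i, 2 < sc (some i : Ed c) y) :
    alphab_u j y = y 0 - (1 - Real.smoothTransition (3 - sc (none : Ed c) y)) * (j : ℕ) ∧
      alphab_v j y = y 1 := by
  rw [alphab_u, alphab_v, alphab_sum_zero _ fun i _ => h i, alphab_sum_zero _ fun i _ => h i]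
  constructor <;> ring

theorem alphab_ne (j : Fin (c.m + 1)) {y : Eu 3} (hy : y ∈ DR c) :
    alphab_u j y ^ 2 + alphab_v j y ^ 2 ≠ 0 := by
  by_cases h : ∃ i, sc (some i : Ed c) y ≤ 2
  · obtain ⟨i, hi⟩ := h
    by_cases hij : i = j
    · subst hij
      rw [(alphab_self hy hi).1, (alphab_self hy hi).2]
      exact (hy (some i)).1.ne'
    · intro h0
      have h1 : alphab_u j y = 0 := by
        nlinarith [sq_nonneg (alphab_u j y), sq_nonneg (alphab_v j y)]
      rw [(alphab_other hy hij hi).1] at h1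
      have h3 := geoa_in (hy _).1 hi
      simp only [rsq, ctr] at h3
      have h4 : |y 0 - (i : ℕ)| < 1 := by
        rw [← sq_lt_one_iff_abs_lt_one]
        nlinarith [sq_nonneg (y 1)]
      have h5 : |(1 - bet (some i : Ed c) y) * (y 0 - (i : ℕ))| < 1 := by
        rw [abs_mul, abs_of_nonneg (sub_nonneg.2 (bet_le_one _ _))]
        nlinarith [bet_nonneg (some i : Ed c) y, abs_nonneg (y 0 - (i : ℕ))]
      rw [eq_neg_of_add_eq_zero_right h1, abs_neg] at h5
      have h6 : |((i : ℕ) : ℤ) - (j : ℕ)| < 1 := by exact_mod_cast h5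
      exact hij (Fin.ext (by exact_mod_cast sub_eq_zero.1 (Int.abs_lt_one_iff.1 h6)))
  · push Not at h
    rw [(alphab_out j h).1, (alphab_out j h).2]
    rcases le_total 3 (sc (none : Ed c) y) with h1 | h1
    · rw [Real.smoothTransition.zero_of_nonpos (by linarith), sub_zero, one_mul]
      exact (hy (some j)).1.ne'
    · intro h0
      have h2 := alphab_far hy h1
      have h3 := Real.smoothTransition.nonneg (3 - sc (none : Ed c) y)
      have h4 := Real.smoothTransition.le_one (3 - sc (none : Ed c) y)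
      generalize Real.smoothTransition (3 - sc (none : Ed c) y) = t at h0 h3 h4
      have hj : ((j : ℕ) : ℝ) ≤ c.m := Nat.cast_le.2 (Nat.le_of_lt_succ j.2)
      have hj0 : (0 : ℝ) ≤ (j : ℕ) := Nat.cast_nonneg _
      have h5 : y 0 - (1 - t) * (j : ℕ) = 0 := by
        nlinarith [sq_nonneg (y 0 - (1 - t) * (j : ℕ)), sq_nonneg (y 1)]
      have h6 : y 1 ^ 2 = 0 := by rw [h5] at h0; linarith
      have h7 : 0 ≤ y 0 := by nlinarith
      have h8 : y 0 ≤ c.m := by nlinarith
      nlinarith

theorem alphab_coord (i : Fin 3) : ContDiffOn ℝ ∞ (fun z : Eu 3 => z i) (DR c) :=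
  (contDiff_apply ℝ ℝ i).contDiffOn

theorem alphab_u_smooth (j : Fin (c.m + 1)) : ContDiffOn ℝ ∞ (alphab_u j) (DR c) :=
  (((alphab_coord 0).sub contDiffOn_const).sub (ContDiffOn.sum fun _ _ =>
    (contDiffOn_bet _).mul ((alphab_coord 0).sub contDiffOn_const))).add
    ((Real.smoothTransition.contDiff.comp_contDiffOn
      (contDiffOn_const.sub (contDiffOn_sc _))).mul contDiffOn_const)

theorem alphab_v_smooth (j : Fin (c.m + 1)) : ContDiffOn ℝ ∞ (alphab_v j) (DR c) :=
  (alphab_coord 1).sub (ContDiffOn.sum fun _ _ => (contDiffOn_bet _).mul (alphab_coord 1))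

theorem alphab_ang_smooth : ContDiffOn ℝ ∞ (alphab_ang c) (DR c) :=
  contDiffOn_argF isOpen_DR ((alphab_coord 0).sub contDiffOn_const) (alphab_coord 1)
    fun _ hy => (hy none).1.ne'

theorem alphab_planar {u v : Eu 3 → ℝ}
    (hu : ∀ y y' : Eu 3, y' 0 = y 0 → y' 1 = y 1 → u y' = u y)
    (hv : ∀ y y' : Eu 3, y' 0 = y 0 → y' 1 = y 1 → v y' = v y) :
    (∀ y y' : Eu 3, y' 0 = y 0 → y' 1 = y 1 → argF u v y' = argF u v y) ∧
      ∀ y, argF u v y 2 = 0 := by
  refine ⟨fun y y' h0 h1 => ?_, fun y => ?_⟩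
  · rw [argF, argF, hu y y' h0 h1, hv y y' h0 h1, (grad_planar hu).1 y y' h0 h1,
      (grad_planar hv).1 y y' h0 h1]
  · simp only [argF, grad, Pi.smul_apply, Pi.sub_apply, (grad_planar hu).2, (grad_planar hv).2,
      smul_zero, sub_zero]

theorem alphab_uv_planar (j : Fin (c.m + 1)) :
    (∀ y y' : Eu 3, y' 0 = y 0 → y' 1 = y 1 →
      argF (alphab_u j) (alphab_v j) y' = argF (alphab_u j) (alphab_v j) y) ∧
      ∀ y, argF (alphab_u j) (alphab_v j) y 2 = 0 :=
  alphab_planar
    (fun _ _ h0 h1 => by simp only [alphab_u, bet_congr _ h0 h1, sc_congr _ h0 h1, h0])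
    (fun _ _ h0 h1 => by simp only [alphab_v, bet_congr _ h0 h1, h1])

theorem alphab_ang_planar :
    (∀ y y' : Eu 3, y' 0 = y 0 → y' 1 = y 1 → alphab_ang c y' = alphab_ang c y) ∧
      ∀ y, alphab_ang c y 2 = 0 :=
  alphab_planar (fun _ _ h0 _ => by rw [h0]) (fun _ _ _ h1 => h1)

theorem alphab_near {y : Eu 3} (hy : y ∈ DR c) {e : Ed c} (h : sc e y < 1) :
    ∀ᶠ z in 𝓝 y, z ∈ DR c ∧ sc e z < 1 :=
  (show ∀ᶠ z in 𝓝 y, z ∈ DR c from isOpen_DR.mem_nhds hy).and
    ((geoa_sc (hy e).1).continuousAt.eventually (gt_mem_nhds h))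

theorem alphab_curl {y : Eu 3} (hy : y ∈ DR c) :
    curl (fun z => bet (none : Ed c) z • alphab_ang c z) y =
      ![0, 0, deriv Real.smoothTransition (2 - sc (none : Ed c) y) / rsq (none : Ed c) y] := by
  have hn := isOpen_DR.mem_nhds hy
  obtain ⟨h0, h1, h2⟩ := pd_bet_none hy
  have hr := (hy none).1
  rw [curl_smul (((contDiffOn_bet _).contDiffAt hn).differentiableAt (by simp))
    ((alphab_ang_smooth.contDiffAt hn).differentiableAt (by simp)), h0, h1, h2, alphab_ang,
    curl_argF (((alphab_coord 0).sub contDiffOn_const).contDiffAt hn)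
      ((alphab_coord 1).contDiffAt hn) hr.ne', argF_coord, smul_zero, zero_add]
  have h3 : rsq (none : Ed c) y = y 0 ^ 2 + y 1 ^ 2 := by simp [rsq, ctr]
  funext i
  fin_cases i
  · simp
  · simp
  · simp only [ctr, sub_zero, Fin.reduceFinMk, Matrix.cons_val]
    field_simp
    rw [h3]
    ring

end aux

/-- For the inner circle j put
u_j = (z 0 - j) - ∑_{i ≠ j} bet (some i) z * (z 0 - i) + smoothTransition (3 - sc none z) * j,
v_j = z 1 - ∑_{i ≠ j} bet (some i) z * z 1.
Then u_j + i v_j does not vanish on DR (near i it is (i - j) + (1 - bet) (z - i) with |z - i| < 1;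
for sc none ≤ 3 it is z - s j with |z| ≥ exp (m + 1) > j, and all inner bet vanish there), it is
z - j on the collar j, the constant i - j on the collar i, and z where sc none < 2.
A none = bet none • ang, A (some j) = argF u_j v_j - bet none • ang with ang = argF (z 0) (z 1),
γ = deriv smoothTransition (2 - sc none) / rsq none. -/
theorem exists_alpha (c : Par) : ∃ (A : Ed c → Eu 3 → Eu 3) (γ : Eu 3 → ℝ),
    (∀ e, ContDiffOn ℝ ∞ (A e) (DR c)) ∧ ContinuousOn γ (DR c) ∧
    (∀ e (y y' : Eu 3), y' 0 = y 0 → y' 1 = y 1 → A e y' = A e y) ∧ (∀ e y, A e y 2 = 0) ∧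
    (∀ e, ∀ y ∈ DR c, sc e y < 1 →
      A e y = ![-(y 1 / rsq e y), (y 0 - ctr e) / rsq e y, 0] ∧ ∀ e', e' ≠ e → A e' y = 0) ∧
    (∀ e, ∀ y ∈ DR c, curl (A e) y = ![0, 0, -(sg e * γ y)]) ∧ (∀ y ∈ DR c, 0 ≤ γ y) ∧
    (∀ y ∈ DR c, γ y ≠ 0 → 1 ≤ sc (none : Ed c) y ∧ sc (none : Ed c) y ≤ 2) ∧
    ∃ y ∈ Cell c, 0 < γ y := by
  have hb : ContDiffOn ℝ ∞ (fun z => bet (none : Ed c) z • alphab_ang c z) (DR c) :=
    (contDiffOn_bet _).smul alphab_ang_smooth
  have ha : ∀ j, ContDiffOn ℝ ∞ (argF (alphab_u j) (alphab_v j)) (DR c) := fun j =>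
    contDiffOn_argF isOpen_DR (alphab_u_smooth j) (alphab_v_smooth j) fun _ hy => alphab_ne j hy
  refine ⟨fun e z => e.elim (bet (none : Ed c) z • alphab_ang c z) fun j =>
      argF (alphab_u j) (alphab_v j) z - bet (none : Ed c) z • alphab_ang c z,
    fun y => deriv Real.smoothTransition (2 - sc (none : Ed c) y) / rsq (none : Ed c) y,
    ?_, ?_, ?_, ?_, ?_, ?_, ?_, ?_, ?_⟩
  · rintro (_ | j)
    · exact hb
    · exact (ha j).sub hb
  · have hT : ContDiff ℝ 1 Real.smoothTransition := Real.smoothTransition.contDiff (n := 1)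
    exact ((hT.continuous_deriv le_rfl).comp_continuousOn
      (continuousOn_const.sub (contDiffOn_sc _).continuousOn)).div
      (contDiff_rsq _).continuous.continuousOn fun _ hy => (hy none).1.ne'
  · rintro (_ | j) y y' h0 h1
    · simp only [Option.elim, bet_congr _ h0 h1, alphab_ang_planar.1 y y' h0 h1]
    · simp only [Option.elim, bet_congr _ h0 h1, alphab_ang_planar.1 y y' h0 h1,
        (alphab_uv_planar j).1 y y' h0 h1]
  · rintro (_ | j) y
    · simp only [Option.elim, Pi.smul_apply, alphab_ang_planar.2, smul_zero]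
    · simp only [Option.elim, Pi.sub_apply, Pi.smul_apply, alphab_ang_planar.2,
        (alphab_uv_planar j).2, smul_zero, sub_zero]
  · rintro (_ | i) y hy h
    · refine ⟨?_, ?_⟩
      · change bet (none : Ed c) y • alphab_ang c y = _
        rw [bet_eq_one h.le, one_smul, alphab_ang, argF_coord]
      · rintro (_ | j) hj
        · exact absurd rfl hj
        · change argF (alphab_u j) (alphab_v j) y - bet (none : Ed c) y • alphab_ang c y = 0
          rw [bet_eq_one h.le, one_smul, sub_eq_zero]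
          have h1 : ∀ z : Eu 3, z ∈ DR c ∧ sc (none : Ed c) z < 1 →
              ∀ i, 2 < sc (some i : Ed c) z := fun z hz i =>
            sc_disj hz.1 (e := none) (by simp) (by linarith [hz.2])
          refine argF_congr ((alphab_near hy h).mono fun z hz => ?_)
            ((alphab_near hy h).mono fun z hz => (alphab_out j (h1 z hz)).2)
          rw [(alphab_out j (h1 z hz)).1, Real.smoothTransition.one_of_one_le (by linarith [hz.2])]
          simp [ctr]
    · have h0 : bet (none : Ed c) y = 0 :=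
        bet_eq_zero (sc_disj hy (e := some i) (by simp) (by linarith)).le
      refine ⟨?_, ?_⟩
      · change argF (alphab_u i) (alphab_v i) y - bet (none : Ed c) y • alphab_ang c y = _
        rw [h0, zero_smul, sub_zero, ← argF_coord]
        exact argF_congr
          ((alphab_near hy h).mono fun z hz => (alphab_self hz.1 (by linarith [hz.2])).1)
          ((alphab_near hy h).mono fun z hz => (alphab_self hz.1 (by linarith [hz.2])).2)
      · rintro (_ | j) hj
        · change bet (none : Ed c) y • alphab_ang c y = 0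
          rw [h0, zero_smul]
        · change argF (alphab_u j) (alphab_v j) y - bet (none : Ed c) y • alphab_ang c y = 0
          have hij : i ≠ j := fun e => hj (by rw [e])
          rw [h0, zero_smul, sub_zero, ← argF_const (((i : ℕ) : ℝ) - (j : ℕ)) 0 y]
          refine argF_congr ((alphab_near hy h).mono fun z hz => ?_)
            ((alphab_near hy h).mono fun z hz => ?_)
          · rw [(alphab_other hz.1 hij (by linarith [hz.2])).1, bet_eq_one hz.2.le]
            simp
          · rw [(alphab_other hz.1 hij (by linarith [hz.2])).2, bet_eq_one hz.2.le]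
            simp
  · rintro (_ | j) y hy
    · refine (alphab_curl hy).trans ?_
      simp [sg]
    · have hn := isOpen_DR.mem_nhds hy
      refine (curl_sub (((ha j).contDiffAt hn).differentiableAt (by simp))
        ((hb.contDiffAt hn).differentiableAt (by simp))).trans ?_
      rw [curl_argF ((alphab_u_smooth j).contDiffAt hn) ((alphab_v_smooth j).contDiffAt hn)
        (alphab_ne j hy), alphab_curl hy]
      simp [sg]
  · exact fun y hy => div_nonneg (deriv_smoothTransition_nonneg _) (hy none).1.le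
  · intro y _ h
    obtain ⟨h1, h2⟩ := deriv_smoothTransition_ne (div_ne_zero_iff.1 h).1
    constructor <;> linarith
  · obtain ⟨x, hx, hx'⟩ := exists_deriv_smoothTransition_pos
    obtain ⟨y, hy, h⟩ := exists_sc_eq (none : Ed c) (a := 2 - x) (by linarith [hx.2])
      (by linarith [hx.1])
    refine ⟨y, hy, div_pos ?_ (hy.1 none).1⟩
    rwa [h, sub_sub_cancel]

end Pool.Agent.Lib.MP_570070_gt.An
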