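import Pool.Agent.Lib.MP_570070_gt.An.UDefs

open MeasureTheory Filter Topology Set
open scoped ContDiff InnerProductSpace

namespace Pool.Agent.Lib.MP_570070_gt.An

variable {c : Par} {P : Type} {Γ : Gl c P}

theorem Gl.card_ball (Γ : Gl c P) (S : Finset P) (n : ℕ) :
    (Γ.ball S n).card ≤ S.card * (Fintype.card (Ed c) + 1) ^ n := by
  classical
  induction n with
  | zero => simp [Gl.ball]
  | succ n ih =>
    have h1 : (Γ.ball S (n + 1)).card ≤
        (Γ.ball S n).card + Fintype.card (Ed c) * (Γ.ball S n).card := by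
      rw [Gl.ball]
      refine (Finset.card_union_le _ _).trans (Nat.add_le_add_left ?_ _)
      exact Finset.card_biUnion_le_card_mul _ _ _ fun e _ => Finset.card_image_le
    have h2 := Nat.mul_le_mul_right (Fintype.card (Ed c) + 1) ih
    rw [pow_succ, ← mul_assoc]
    nlinarith

/-- The truncated distance to S: the number of n < L with p ∉ ball S n. The balls increase, so
p ∈ ball S m gives ℓ p ≤ m, and p ∉ ball S m with m < L gives m + 1 ≤ ℓ p. -/
theorem Gl.exists_lev (Γ : Gl c P) (S : Finset P) (L : ℕ) : ∃ ℓ : P → ℕ,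
    (∀ e p, ℓ (Γ.σ e p) ≤ ℓ p + 1) ∧ (∀ p, ℓ p ≤ L) ∧ (∀ p ∈ S, ℓ p = 0) ∧
    ∀ m < L, ∀ p, ℓ p ≤ m → p ∈ Γ.ball S m := by
  classical
  have ex : ∀ p, ∃ m, L ≤ m ∨ p ∈ Γ.ball S m := fun p => ⟨L, Or.inl le_rfl⟩
  have mono : Monotone (Γ.ball S) := monotone_nat_of_le_succ fun n p hp => by
    rw [Gl.ball]
    exact Finset.mem_union.2 (Or.inl hp)
  refine ⟨fun p => Nat.find (ex p), fun e p => Nat.find_min' _ ?_,
    fun p => Nat.find_min' _ (Or.inl le_rfl),
    fun p hp => (Nat.find_eq_zero _).2 (Or.inr hp), fun m hm p hp => ?_⟩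
  · refine (Nat.find_spec (ex p)).imp Nat.le_succ_of_le fun h => ?_
    rw [Gl.ball]
    simp only [Finset.mem_union, Finset.mem_biUnion, Finset.mem_image]
    exact Or.inr ⟨e, Finset.mem_univ e, p, h, rfl⟩
  · rcases Nat.find_spec (ex p) with h | h
    · exact absurd (h.trans hp) (not_le.2 hm)
    · exact mono hp h

/-- An element x ≠ 1 is outside K i for large i; Filter.eventually_all_finset twice. -/
theorem eventually_injOn {G : Type} [Group G] (K : ℕ → Subgroup G) (ha : Antitone K)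
    (hi : ⨅ i, K i = ⊥) (B : Finset (G × Bool)) : ∀ᶠ i in atTop,
      InjOn (fun p : G × Bool => (((p.1 : G ⧸ K i), p.2) : (G ⧸ K i) × Bool)) B := by
  have key : ∀ x : G, ∀ᶠ i in atTop, x ∈ K i → x = 1 := by
    intro x
    by_cases hx : x = 1
    · exact Eventually.of_forall fun _ _ => hx
    · have h1 : ¬ ∀ i, x ∈ K i := fun h => hx (Subgroup.mem_bot.1 (hi ▸ Subgroup.mem_iInf.2 h))
      obtain ⟨j, hj⟩ := not_forall.1 h1
      filter_upwards [eventually_ge_atTop j] with i hij h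
      exact absurd (ha hij h) hj
  filter_upwards [(eventually_all_finset B).2 fun p _ => (eventually_all_finset B).2 fun q _ =>
    key (p.1⁻¹ * q.1)] with i h p hp q hq hpq
  obtain ⟨h1, h2⟩ := Prod.mk.inj hpq
  exact Prod.ext (inv_mul_eq_one.1 (h p hp q hq (QuotientGroup.eq.1 h1))) h2

end Pool.Agent.Lib.MP_570070_gt.An
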