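import Pool.Agent.Lib.MP_570070_gt.An.CGl

/-!
Maps between the manifolds of gluing patterns, group actions, quotients, fundamental domains.
-/

open MeasureTheory Filter Topology Set
open scoped Manifold ContDiff Pointwise

namespace Pool.Agent.Lib.MP_570070_gt.An

noncomputable section

variable {c : Par}

section map

variable {P P' : Type} [Nonempty P] [Nonempty P'] {Γ : Gl c P} {Γ' : Gl c P'} {f : P → P'}

/-- The map induced by a map of the pieces. -/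
def mapN (Γ : Gl c P) (Γ' : Gl c P') (f : P → P') (x : (et Γ).X) : (et Γ').X :=
  (et Γ').π (f (Etale.rv x)) (Etale.rx x)

theorem mapN_q (hf : ∀ e p, f (Γ.σ e p) = Γ'.σ e (f p)) (p : P) {y : Eu 3} (hy : y ∈ DR c) :
    mapN Γ Γ' f ((et Γ).π p y) = (et Γ').π (f p) y :=
  fun_rep (f := fun p y => (et Γ').π (f p) y) (fun p _ hy n => q_per (f p) hy n)
    (fun p e _ _ h => by rw [hf]; exact q_flip (f p) h) p hy

theorem contMDiff_mapN (hf : ∀ e p, f (Γ.σ e p) = Γ'.σ e (f p)) :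
    ContMDiff 𝓘(ℝ, Eu 3) 𝓘(ℝ, Eu 3) ∞ (mapN Γ Γ' f) := by
  intro x
  have h1 : mapN Γ Γ' f =ᶠ[𝓝 x] (et Γ').π (f (Etale.rv x)) ∘ chartAt (Eu 3) x := by
    filter_upwards [chart_source_mem_nhds (Eu 3) x]
    rintro _ ⟨y, hy, rfl⟩
    rw [mapN_q hf _ ((Etale.good_rx x).sub hy), Function.comp_apply, Etale.chartAt_eq,
      Etale.chart_π _ hy]
  refine ContMDiffAt.congr_of_eventuallyEq (ContMDiffAt.comp (I' := 𝓘(ℝ, Eu 3)) x ?_ ?_) h1
  · rw [Etale.chartAt_self]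
    exact Etale.contMDiffAt_π (S := et Γ') _ (Etale.rx_mem x)
  · exact contMDiffAt_of_mem_maximalAtlas (IsManifold.chart_mem_maximalAtlas x)
      (mem_chart_source _ x)

/-- The differential as a map of the model space. -/
def dN (Γ : Gl c P) (Γ' : Gl c P') (f : P → P') (x : (et Γ).X) : Eu 3 →L[ℝ] Eu 3 :=
  mfderiv 𝓘(ℝ, Eu 3) 𝓘(ℝ, Eu 3) (mapN Γ Γ' f) x

theorem dN_q (hf : ∀ e p, f (Γ.σ e p) = Γ'.σ e (f p)) (p : P) {y : Eu 3} (hy : y ∈ DR c) :
    (et Γ').D (f p) y = (dN Γ Γ' f ((et Γ).π p y)).comp ((et Γ).D p y) := by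
  have h1 : (et Γ').π (f p) =ᶠ[𝓝 y] mapN Γ Γ' f ∘ (et Γ).π p :=
    (isOpen_DR.eventually_mem hy).mono fun z hz => (mapN_q hf p hz).symm
  exact h1.mfderiv_eq.trans (mfderiv_comp y
    ((contMDiff_mapN hf _).mdifferentiableAt (by simp))
    ((Etale.contMDiffAt_π (S := et Γ) p hy).mdifferentiableAt (by simp)))

theorem isLocIso_mapN [Countable P] [Countable P'] (hf : ∀ e p, f (Γ.σ e p) = Γ'.σ e (f p)) :
    IsLocIso (mfd Γ) (mfd Γ') (mapN Γ Γ' f) := by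
  refine ⟨contMDiff_mapN hf, fun x v w => ?_⟩
  have h := dN_q hf (Etale.rv x) (Etale.rx_mem x)
  rw [Etale.D_rx, Etale.π_rx, ContinuousLinearMap.comp_id] at h
  change gB c (Etale.rx (mapN Γ Γ' f x)) (dN Γ Γ' f x v) (dN Γ Γ' f x w) = gB c (Etale.rx x) v w
  rw [← h, gB_apply, gB_apply]
  exact gUp_rep _ (Etale.rx_mem x) v w

end map

section grp

variable {Q : Type} [Group Q] (g : Ed c → Q)

theorem grp_equi {Q' : Type} [Group Q'] (φ : Q →* Q') (γ : Q') (e : Ed c) (p : Q × Bool) :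
    (γ * φ ((grpGl c g).σ e p).1, ((grpGl c g).σ e p).2) =
      (grpGl c fun e => φ (g e)).σ e (γ * φ p.1, p.2) := by
  rcases p with ⟨h, _ | _⟩ <;> simp [grpGl, mul_assoc]

theorem grp_left (γ : Q) (e : Ed c) (p : Q × Bool) :
    (γ * ((grpGl c g).σ e p).1, ((grpGl c g).σ e p).2) = (grpGl c g).σ e (γ * p.1, p.2) :=
  grp_equi g (MonoidHom.id Q) γ e p

instance actN : MulAction Q (et (grpGl c g)).X where
  smul γ := mapN _ _ fun p => (γ * p.1, p.2)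
  one_smul x := by
    obtain ⟨p, y, hy, rfl⟩ := Etale.exists_rep x
    exact (mapN_q (grp_left g 1) p hy).trans (by rw [one_mul])
  mul_smul a b x := by
    obtain ⟨p, y, hy, rfl⟩ := Etale.exists_rep x
    refine (mapN_q (grp_left g _) p hy).trans (Eq.symm ?_)
    refine (congrArg (mapN (grpGl c g) (grpGl c g) fun p : Q × Bool => (a * p.1, p.2))
      (mapN_q (Γ := grpGl c g) (Γ' := grpGl c g) (f := fun p : Q × Bool => (b * p.1, p.2))
        (grp_left g b) p hy)).trans ?_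
    exact (mapN_q (grp_left g a) _ hy).trans (by rw [mul_assoc])

variable {g}

theorem smul_q (γ : Q) (p : Q × Bool) {y : Eu 3} (hy : y ∈ DR c) :
    γ • (et (grpGl c g)).π p y = (et (grpGl c g)).π (γ * p.1, p.2) y :=
  mapN_q (grp_left g γ) p hy

theorem grp_ne (e : Ed c) (p : Q × Bool) : ((grpGl c g).σ e p).2 ≠ p.2 := by
  rcases p with ⟨h, _ | _⟩ <;> simp [grpGl]

variable [Countable Q]

theorem isAction_grp : IsAction Q (mfd (grpGl c g)) := by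
  refine ⟨⟨fun {K L} hK hL => ?_⟩, fun γ x h => ?_, ?_, fun γ => isLocIso_mapN (grp_left g γ)⟩
  · refine ((finite_pieces hL).image2 (fun a b : Q × Bool => a.1 * b.1⁻¹)
      (finite_pieces hK)).subset ?_
    rintro γ ⟨_, ⟨x, hx, rfl⟩, h⟩
    obtain ⟨p, y, hy, rfl⟩ := Etale.exists_rep x
    refine ⟨(γ * p.1, p.2), ⟨y, hy, ?_⟩, p, ⟨y, hy, hx⟩, by simp⟩
    rw [← smul_q γ p hy]
    exact h
  · obtain ⟨p, y, hy, rfl⟩ := Etale.exists_rep x
    rw [smul_q γ p hy] at h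
    rcases (q_eq hy hy).1 h with ⟨-, h, -⟩ | ⟨e, h, -⟩
    · exact mul_eq_right.1 (congrArg Prod.fst h).symm
    · exact absurd (congrArg Prod.snd h).symm (grp_ne e (γ * p.1, p.2))
  · refine ⟨⋃ b : Bool, (et (grpGl c g)).π (1, b) ''
      {y : Eu 3 | y ∈ DR c ∧ (∀ e : Ed c, 0 ≤ sc e y) ∧ y 2 ∈ Icc 0 (2 * Real.pi)},
      isCompact_iUnion fun b => isCompact_q _ (isCompact_core (by norm_num) _ _) fun _ h => h.1,
      fun x => ?_⟩
    obtain ⟨p, y, hy, h1, h2, rfl⟩ := exists_home x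
    refine ⟨p.1⁻¹, mem_iUnion.2 ⟨p.2, y, ⟨hy, h1, h2⟩, ?_⟩⟩
    rw [smul_q _ p hy, inv_mul_cancel]

theorem isFund_grp : IsFund Q (mfd (grpGl c g)) (core (grpGl c g) (base Q)) := by
  refine ⟨isOpen_core _, fun γ hγ => Set.disjoint_left.2 ?_, ?_⟩
  · rintro _ ⟨x, hx, rfl⟩ h
    obtain ⟨p, hp, y, ⟨hy, h1⟩, rfl⟩ := mem_iUnion₂.1 hx
    have h2 : (et (grpGl c g)).π (γ * p.1, p.2) y ∈ core (grpGl c g) (base Q) := by
      rw [← smul_q γ p hy]
      exact h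
    have h3 : γ * p.1 = 1 := ((core_home hy h1.le).1 h2).2
    rw [show p.1 = 1 from hp, mul_one] at h3
    exact hγ h3
  · rintro _ ⟨p, W, h, rfl⟩
    refine measure_mono_null ?_ (volume_mid (c := c))
    rintro _ ⟨_, ⟨⟨y, hy, rfl⟩, h1⟩, rfl⟩
    rw [Etale.chart_π h hy]
    refine ⟨h.sub hy, eta_eq_half (h.sub hy) (by_contra fun h2 => h1 ?_)⟩
    obtain ⟨p', y', hy', h3, -, e⟩ := exists_home ((et (grpGl c g)).π p y)
    have h4 : |eta c y' - 1 / 2| = |eta c y - 1 / 2| := by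
      rw [← phi_q (Γ := grpGl c g) p' hy', e, phi_q p (h.sub hy)]
    have h5 := half_le_eta hy' h3
    have h6 : 1 / 2 < eta c y' := lt_of_le_of_ne h5 fun h6 => h2 (by
      rw [← h6, sub_self, abs_zero] at h4
      exact sub_eq_zero.1 (abs_eq_zero.1 h4.symm))
    refine mem_iUnion.2 ⟨p'.1, (et (grpGl c g)).π (1, p'.2) y', (core_home hy' h5).2 ⟨h6, rfl⟩, ?_⟩
    exact (smul_q _ _ hy').trans (by rw [mul_one, ← e])

instance countable_quot (K : Subgroup Q) : Countable (Q ⧸ K) :=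
  QuotientGroup.mk_surjective.countable

theorem exists_quot (K : Subgroup Q) [K.Normal] :
    ∃ π, IsQuot K (mfd (grpGl c g)) (mfd (grpGl c fun e => (g e : Q ⧸ K))) π := by
  have hf : ∀ (e : Ed c) (p : Q × Bool),
      ((((grpGl c g).σ e p).1 : Q ⧸ K), ((grpGl c g).σ e p).2) =
        (grpGl c fun e => (g e : Q ⧸ K)).σ e ((p.1 : Q ⧸ K), p.2) := fun e p => by
    simpa using grp_equi g (QuotientGroup.mk' K) 1 e p
  have key : ∀ p p' : Q × Bool, ((p'.1 : Q ⧸ K), p'.2) = ((p.1 : Q ⧸ K), p.2) → ∀ y ∈ DR c,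
      ∃ γ ∈ K, γ • (et (grpGl c g)).π p y = (et (grpGl c g)).π p' y := fun p p' h y hy => by
    obtain ⟨h1, h2⟩ := Prod.ext_iff.1 h
    refine ⟨p'.1 * p.1⁻¹, Subgroup.Normal.mem_comm inferInstance (QuotientGroup.eq.1 h1.symm), ?_⟩
    rw [smul_q _ _ hy, inv_mul_cancel_right, ← show p'.2 = p.2 from h2]
  have eqv : ∀ (γ : Q) (x : (et (grpGl c g)).X),
      mapN _ (grpGl c fun e => (g e : Q ⧸ K)) (fun p => ((p.1 : Q ⧸ K), p.2)) (γ • x) =
        (γ : Q ⧸ K) • mapN _ (grpGl c fun e => (g e : Q ⧸ K))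
          (fun p => ((p.1 : Q ⧸ K), p.2)) x := fun γ x => by
    obtain ⟨p, y, hy, rfl⟩ := Etale.exists_rep x
    rw [smul_q γ p hy, mapN_q hf _ hy, mapN_q hf _ hy, smul_q _ _ hy]
    rfl
  refine ⟨mapN _ _ fun p : Q × Bool => ((p.1 : Q ⧸ K), p.2), fun x => ?_, isLocIso_mapN hf,
    fun x x' => ⟨fun h => ?_, ?_⟩, eqv⟩
  · obtain ⟨⟨a, b⟩, y, hy, rfl⟩ := Etale.exists_rep x
    obtain ⟨a, rfl⟩ := QuotientGroup.mk_surjective a
    exact ⟨_, mapN_q hf (a, b) hy⟩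
  · obtain ⟨p, y, hy, rfl⟩ := Etale.exists_rep x
    obtain ⟨p', y', hy', rfl⟩ := Etale.exists_rep x'
    rw [mapN_q hf _ hy, mapN_q hf _ hy'] at h
    rcases (q_eq hy hy').1 h with ⟨-, h1, n, rfl⟩ | ⟨e, h1, f⟩
    · rw [q_per p' hy]
      exact key p p' h1 y hy
    · rw [← q_flip p f]
      exact key _ p' (h1.trans (hf e p).symm) y' hy'
  · rintro ⟨γ, hγ, rfl⟩
    rw [eqv, (QuotientGroup.eq_one_iff γ).2 hγ, one_smul]

end grp

end

end Pool.Agent.Lib.MP_570070_gt.An
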