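import Pool.Agent.Lib.MP_570070_gt.An.CGl

/-!
The dictionary between forms on the manifold of a gluing pattern and families of forms.
-/

open MeasureTheory Filter Topology Set
open scoped Manifold ContDiff

namespace Pool.Agent.Lib.MP_570070_gt.An

noncomputable section

variable {c : Par} {P : Type} {k : ℕ} {Γ : Gl c P}

theorem isT_zper {Ω : Fam P k} (h : IsT Γ Ω) (p : P) {y : Eu 3} (hy : y ∈ DR c) (n : ℤ) :
    Ω p (y + n • per) = Ω p y := by
  induction n using Int.induction_on with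
  | zero => rw [zero_smul, add_zero]
  | succ n ih => rw [add_smul, one_smul, ← add_assoc, h.per p _ (zper_mem n hy), ih]
  | pred n ih =>
    rw [← h.per p _ (zper_mem _ hy), ← ih]
    congr 1
    rw [sub_smul, one_smul, add_assoc, sub_add_cancel]

variable [Nonempty P]

/-- A form read in the pieces. -/
def up (α : (et Γ).X → Alt 3 k) : Fam P k := fun p y =>
  (α ((et Γ).π p y)).compContinuousLinearMap ((et Γ).D p y)

/-- The form of a family. -/
def down (Γ : Gl c P) (Ω : Fam P k) (x : (et Γ).X) : Alt 3 k := Ω (Etale.rv x) (Etale.rx x)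

theorem down_up (α : (et Γ).X → Alt 3 k) : down Γ (up α) = α := by
  funext x
  rw [down, up, Etale.D_rx, Etale.π_rx]
  rfl

theorem up_down {Ω : Fam P k} (h : IsT Γ Ω) (p : P) {y : Eu 3} (hy : y ∈ DR c) :
    up (down Γ Ω) p y = Ω p y := by
  rw [up, down]
  rcases rep_cases p hy rfl with ⟨h1, ⟨n, e⟩, d⟩ | ⟨e, h1, f, d⟩
  · rw [d, h1, e, isT_zper h p hy]
    rfl
  · rw [d, h1, h.flip p e _ _ f]

theorem up_ne {α : (et Γ).X → Alt 3 k} {p : P} {y : Eu 3} (h : up α p y ≠ 0) :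
    α ((et Γ).π p y) ≠ 0 := fun h' => h (by rw [up, h']; rfl)

theorem ne_up {α : (et Γ).X → Alt 3 k} {p : P} {y : Eu 3} (hy : y ∈ DR c)
    (h : α ((et Γ).π p y) ≠ 0) : up α p y ≠ 0 := fun h' => h (by
  obtain ⟨A, hA⟩ := exists_inv_D (Γ := Γ) p hy
  ext v
  have h1 := DFunLike.congr_fun h' fun i => A (v i)
  rw [up, ContinuousAlternatingMap.compContinuousLinearMap_apply] at h1
  rwa [show ((et Γ).D p y ∘ fun i => A (v i)) = v from funext fun i => hA (v i)] at h1)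

theorem ne_of_down {Ω : Fam P k} (h : IsT Γ Ω) {p : P} {y : Eu 3} (hy : y ∈ DR c)
    (h' : down Γ Ω ((et Γ).π p y) ≠ 0) : Ω p y ≠ 0 := up_down h p hy ▸ ne_up hy h'

theorem hasCompactSupport_down {Ω : Fam P k} (h : IsT Γ Ω) : HasCompactSupport (down Γ Ω) := by
  refine HasCompactSupport.intro (h.fin.isCompact_biUnion fun p _ => isCompact_q (Γ := Γ) p
    (isCompact_core (c := c) (a := 0) (by norm_num) 0 (2 * Real.pi)) fun _ h => h.1)
    fun x hx => by_contra fun h' => hx ?_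
  obtain ⟨p, y, hy, h1, h2, rfl⟩ := exists_home x
  exact mem_iUnion₂.2 ⟨p, ⟨y, hy, ne_of_down h hy h'⟩, y, ⟨hy, h1, h2⟩, rfl⟩

theorem suppIn_up {α : (et Γ).X → Alt 3 k} (h : HasCompactSupport α) {S : Set P}
    (hS : tsupport α ⊆ core Γ S) : SuppIn c S (up α) := by
  obtain ⟨δ, h0, hδ⟩ := IsCompact.exists_forall_le' h (continuous_phi (Γ := Γ)).continuousOn
    (a := 0) fun x hx => by
      obtain ⟨p, -, y, ⟨hy, h1⟩, rfl⟩ := mem_iUnion₂.1 (hS hx)
      rw [phi_q p hy]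
      exact abs_pos.2 (sub_pos.2 h1).ne'
  refine ⟨δ, h0, fun p y hy h1 => ?_⟩
  have h2 := subset_tsupport α (up_ne h1)
  exact ⟨phi_q (Γ := Γ) p hy ▸ hδ _ h2, fun h3 => ((core_home hy h3.le).1 (hS h2)).2⟩

theorem tsupport_down {Ω : Fam P k} (h : IsT Γ Ω) {S : Set P} (hS : SuppIn c S Ω) :
    tsupport (down Γ Ω) ⊆ core Γ S := by
  obtain ⟨δ, h0, hδ⟩ := hS
  intro x hx
  have h1 : δ ≤ phi Γ x := by
    refine closure_minimal ?_ (isClosed_le continuous_const (continuous_phi (Γ := Γ))) hx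
    intro z hz
    obtain ⟨p, y, hy, rfl⟩ := Etale.exists_rep z
    rw [mem_ofPred_eq, phi_q p hy]
    exact (hδ p y hy (ne_of_down h hy hz)).1
  obtain ⟨p, y, hy, h2, -, rfl⟩ := exists_home x
  have h3 := half_le_eta hy h2
  rw [phi_q p hy, abs_of_nonneg (sub_nonneg.2 h3)] at h1
  have h4 : 1 / 2 < eta c y := by linarith
  obtain ⟨_, ⟨y', ⟨hy', h5⟩, rfl⟩, h6⟩ := mem_closure_iff.1 hx _
    (Etale.isOpen_image (S := et Γ) p isOpen_eta fun _ h => h.1) ⟨y, ⟨hy, h4⟩, rfl⟩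
  exact (core_home hy h3).2 ⟨h4, (hδ p y' hy' (ne_of_down h hy' h6)).2 h5⟩

variable [Countable P]

theorem inChart_chart (α : Form (mfd Γ) k) {p : P} {W : Set (Eu 3)} (h : (et Γ).Good p W) :
    inChart α (Etale.chart h) = up α p := rfl

theorem isT_up {α : Form (mfd Γ) k} (h : IsTest α) : IsT Γ (up α) := by
  refine ⟨fun p y hy => ?_, fun p y hy => ?_, fun p e y y' f => ?_, ?_⟩
  · obtain ⟨W, g, hW⟩ := Etale.exists_good (S := et Γ) p hy
    exact ((h.1 _ (Etale.chart_mem g)).contDiffAt (g.isOpen.mem_nhds hW)).contDiffWithinAt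
  · have h1 := q_per (Γ := Γ) p hy 1
    have h2 := D_per (Γ := Γ) p hy 1
    rw [one_smul] at h1 h2
    rw [up, up, h1, h2]
  · rw [up, up, q_flip p f, D_flip p f]
    rfl
  · exact (finite_pieces h.2).subset fun p ⟨y, hy, h1⟩ => ⟨y, hy, subset_tsupport α (up_ne h1)⟩

theorem isTest_down {Ω : Fam P k} (h : IsT Γ Ω) : IsTest (X := mfd Γ) (down Γ Ω) := by
  refine ⟨?_, hasCompactSupport_down h⟩
  rintro _ ⟨p, W, g, rfl⟩
  exact ((h.smooth p).mono g.sub).congr fun y hy => up_down h p (g.sub hy)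

theorem extD_down {Ω : Fam P k} (h : IsT Γ Ω) :
    extD (X := mfd Γ) (down Γ Ω) = down Γ (dF Ω) := by
  funext x
  have h1 : up (down Γ Ω) (Etale.rv x) =ᶠ[𝓝 (Etale.rx x)] Ω (Etale.rv x) :=
    (isOpen_DR.eventually_mem (Etale.rx_mem x)).mono fun y hy => up_down h _ hy
  refine Eq.trans ?_ h1.extDeriv_eq
  exact congrArg (extDeriv (up (down Γ Ω) (Etale.rv x))) (Etale.chartAt_self x)

theorem ipAt_down {Ω Ω' : Fam P k} (h : IsT Γ Ω) (h' : IsT Γ Ω') (p : P) {y : Eu 3}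
    (hy : y ∈ DR c) : ipAt (X := mfd Γ) (down Γ Ω) (down Γ Ω') ((et Γ).π p y) =
      ipUp c y (Ω p y) (Ω' p y) := by
  refine Eq.trans ?_ (fun_rep (Γ := Γ) (f := fun p y => ipUp c y (Ω p y) (Ω' p y))
    (fun p y hy n => ?_) (fun p e y y' f => ?_) p hy)
  · rw [← ipAlt_gUp (c := c) (Etale.rx_mem (S := et Γ) _)]
    simp only [← gB_apply]
    rfl
  · rw [isT_zper h p hy, isT_zper h' p hy, ipUp_congr (zper_zero n y) (zper_one n y)]
  · rw [h.flip p e y y' f, h'.flip p e y y' f, f.ipUp_fl]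

end

end Pool.Agent.Lib.MP_570070_gt.An
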