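import Mathlib

/-!
Manifolds glued from copies of an open subset of a vector space along an equivalence
relation that is locally the graph of a smooth map.
-/

noncomputable section

namespace Pool.Agent.Lib.MP_570070_gt.An

open Set Filter Topology
open scoped Manifold ContDiff

variable {V : Type} {E : Type} [NormedAddCommGroup E] [NormedSpace ℝ E]

/-- Copies of the open set `U`, indexed by `V`, and an equivalence relation that is locally the
graph of a smooth map. -/
structure Etale (V E : Type) [NormedAddCommGroup E] [NormedSpace ℝ E] where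
  U : Set E
  R : V → E → V → E → Prop
  isOpen : IsOpen U
  mem : ∀ {v x w y}, R v x w y → x ∈ U
  refl : ∀ v, ∀ x ∈ U, R v x v x
  symm : ∀ {v x w y}, R v x w y → R w y v x
  trans : ∀ {v x w y u z}, R v x w y → R w y u z → R v x u z
  loc : ∀ {v x w y}, R v x w y → ∃ τ : E → E, ContDiffAt ℝ ∞ τ x ∧ τ x = y ∧
    ∀ᶠ x' in 𝓝 x, R v x' w (τ x')
  inj : ∀ x ∈ U, ∃ W ∈ 𝓝 x, ∀ v, ∀ a ∈ W, ∀ b ∈ W, R v a v b → a = b
  v0 : V
  x0 : E
  mem0 : x0 ∈ U

namespace Etale

variable (S : Etale V E)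

theorem mem' {S : Etale V E} {v : V} {x : E} {w : V} {y : E} (h : S.R v x w y) : y ∈ S.U :=
  S.mem (S.symm h)

def setoid : Setoid (Σ _ : V, S.U) where
  r a b := S.R a.1 a.2 b.1 b.2
  iseqv := ⟨fun a => S.refl a.1 a.2 a.2.2, S.symm, S.trans⟩

/-- The glued space. -/
def X : Type := Quotient S.setoid

instance : TopologicalSpace S.X := inferInstanceAs (TopologicalSpace (Quotient S.setoid))

open Classical in
/-- The parametrisation of a piece. -/
def π (v : V) (x : E) : S.X :=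
  Quotient.mk S.setoid ⟨v, if h : x ∈ S.U then ⟨x, h⟩ else ⟨S.x0, S.mem0⟩⟩

variable {S}

theorem π_of {v : V} {x : E} (h : x ∈ S.U) : S.π v x = Quotient.mk S.setoid ⟨v, ⟨x, h⟩⟩ := by
  rw [π, dif_pos h]

theorem π_eq {v w : V} {x y : E} (hx : x ∈ S.U) (hy : y ∈ S.U) :
    S.π v x = S.π w y ↔ S.R v x w y := by
  rw [π_of hx, π_of hy]
  exact Quotient.eq

theorem π_eq_of {v w : V} {x y : E} (h : S.R v x w y) : S.π v x = S.π w y :=
  (π_eq (S.mem h) (mem' h)).2 h

theorem exists_rep (p : S.X) : ∃ v, ∃ x ∈ S.U, S.π v x = p := by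
  obtain ⟨⟨v, x, h⟩, rfl⟩ := Quotient.exists_rep p
  exact ⟨v, x, h, π_of h⟩

theorem isOpen_iff {O : Set S.X} : IsOpen O ↔ ∀ v, IsOpen (S.U ∩ S.π v ⁻¹' O) := by
  have h : IsOpen O ↔ IsOpen (Quotient.mk S.setoid ⁻¹' O) :=
    (isQuotientMap_quotient_mk' (s := S.setoid)).isOpen_preimage.symm
  rw [h, isOpen_sigma_iff]
  refine forall_congr' fun v => ?_
  rw [S.isOpen.isOpenEmbedding_subtypeVal.isOpen_iff_image_isOpen]
  refine iff_of_eq (congrArg _ ?_)
  ext x
  constructor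
  · rintro ⟨⟨x, hx⟩, h1, rfl⟩
    exact ⟨hx, by rw [mem_preimage, π_of hx]; exact h1⟩
  · rintro ⟨hx, h1⟩
    exact ⟨⟨x, hx⟩, by rw [mem_preimage, π_of hx] at h1; exact h1, rfl⟩

theorem continuousOn_π (v : V) : ContinuousOn (S.π v) S.U :=
  (continuousOn_open_iff S.isOpen).2 fun _ h => isOpen_iff.1 h v

theorem continuousAt_π (v : V) {x : E} (hx : x ∈ S.U) : ContinuousAt (S.π v) x :=
  (continuousOn_π v).continuousAt (S.isOpen.mem_nhds hx)

theorem isOpen_image (v : V) {W : Set E} (hW : IsOpen W) (hU : W ⊆ S.U) :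
    IsOpen (S.π v '' W) := by
  refine isOpen_iff.2 fun w => isOpen_iff_mem_nhds.2 ?_
  rintro y ⟨hy, x, hx, e⟩
  obtain ⟨τ, h1, h2, h3⟩ := S.loc ((π_eq hy (hU hx)).1 e.symm)
  have h4 : ∀ᶠ y' in 𝓝 y, τ y' ∈ W := h1.continuousAt.eventually_mem (hW.mem_nhds (h2 ▸ hx))
  filter_upwards [h3, h4] with y' a b
  exact ⟨S.mem a, τ y', b, (π_eq_of a).symm⟩

theorem image_mem_nhds (v : V) {x : E} (hx : x ∈ S.U) {W : Set E} (hW : W ∈ 𝓝 x) :
    S.π v '' W ∈ 𝓝 (S.π v x) := by
  obtain ⟨O, h1, h2, h3⟩ := mem_nhds_iff.1 (inter_mem hW (S.isOpen.mem_nhds hx))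
  exact mem_of_superset ((isOpen_image v h2 fun a ha => (h1 ha).2).mem_nhds ⟨x, h3, rfl⟩)
    (image_mono fun a ha => (h1 ha).1)

theorem map_nhds (v : V) {x : E} (hx : x ∈ S.U) : map (S.π v) (𝓝 x) = 𝓝 (S.π v x) :=
  le_antisymm (continuousAt_π v hx) (le_map fun _ h => image_mem_nhds v hx h)

theorem continuous_iff {Z : Type} [TopologicalSpace Z] {f : S.X → Z} :
    Continuous f ↔ ∀ v, ContinuousOn (fun x => f (S.π v x)) S.U := by
  refine ⟨fun h v => h.comp_continuousOn (continuousOn_π v), fun h => ?_⟩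
  refine continuous_iff_continuousAt.2 fun p => ?_
  obtain ⟨v, x, hx, rfl⟩ := exists_rep p
  rw [ContinuousAt, ← map_nhds v hx, tendsto_map'_iff]
  exact (h v).continuousAt (S.isOpen.mem_nhds hx)

/-- An open set on which a piece is embedded. -/
structure Good (S : Etale V E) (v : V) (W : Set E) : Prop where
  isOpen : IsOpen W
  sub : W ⊆ S.U
  inj : InjOn (S.π v) W

/-- The chart of a good set. -/
def chart {v : V} {W : Set E} (h : S.Good v W) : OpenPartialHomeomorph S.X E :=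
  (OpenPartialHomeomorph.ofContinuousOpenRestrict (h.inj.toPartialEquiv (S.π v) W)
    ((continuousOn_π v).mono h.sub) (fun O hO => by
      have := isOpen_image (S := S) v (h.isOpen.isOpenEmbedding_subtypeVal.isOpenMap O hO)
        (by rintro _ ⟨a, -, rfl⟩; exact h.sub a.2)
      rwa [image_image] at this) h.isOpen).symm

theorem chart_source {v : V} {W : Set E} (h : S.Good v W) : (chart h).source = S.π v '' W := rfl

theorem chart_target {v : V} {W : Set E} (h : S.Good v W) : (chart h).target = W := rfl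

theorem chart_symm {v : V} {W : Set E} (h : S.Good v W) : ⇑(chart h).symm = S.π v := rfl

theorem chart_π {v : V} {W : Set E} (h : S.Good v W) {x : E} (hx : x ∈ W) :
    chart h (S.π v x) = x := (chart h).right_inv hx

theorem exists_good (v : V) {x : E} (hx : x ∈ S.U) : ∃ W, S.Good v W ∧ x ∈ W := by
  obtain ⟨W, h1, h2⟩ := S.inj x hx
  obtain ⟨O, h3, h4, h5⟩ := mem_nhds_iff.1 (inter_mem h1 (S.isOpen.mem_nhds hx))
  exact ⟨O, ⟨h4, fun a ha => (h3 ha).2, fun a ha b hb e =>
    h2 v a (h3 ha).1 b (h3 hb).1 ((π_eq (h3 ha).2 (h3 hb).2).1 e)⟩, h5⟩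

/-- The piece of the chosen representative. -/
def rv (p : S.X) : V := (exists_rep p).choose

/-- The coordinates of the chosen representative. -/
def rx (p : S.X) : E := (exists_rep p).choose_spec.choose

theorem rx_mem (p : S.X) : rx p ∈ S.U := (exists_rep p).choose_spec.choose_spec.1

theorem π_rx (p : S.X) : S.π (rv p) (rx p) = p := (exists_rep p).choose_spec.choose_spec.2

theorem R_rx (v : V) {x : E} (hx : x ∈ S.U) : S.R v x (rv (S.π v x)) (rx (S.π v x)) :=
  (π_eq hx (rx_mem _)).1 (π_rx _).symm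

theorem good_rx (p : S.X) : S.Good (rv p) (exists_good (rv p) (rx_mem p)).choose :=
  (exists_good (rv p) (rx_mem p)).choose_spec.1

theorem mem_rx (p : S.X) : rx p ∈ (exists_good (rv p) (rx_mem p)).choose :=
  (exists_good (rv p) (rx_mem p)).choose_spec.2

instance : ChartedSpace E S.X where
  atlas := {e | ∃ (v : V) (W : Set E) (h : S.Good v W), e = chart h}
  chartAt p := chart (good_rx p)
  mem_chart_source p := ⟨rx p, mem_rx p, π_rx p⟩
  chart_mem_atlas p := ⟨_, _, good_rx p, rfl⟩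

theorem mem_atlas {e : OpenPartialHomeomorph S.X E} :
    e ∈ atlas E S.X ↔ ∃ (v : V) (W : Set E) (h : S.Good v W), e = chart h := Iff.rfl

theorem chart_mem {v : V} {W : Set E} (h : S.Good v W) : chart h ∈ atlas E S.X := ⟨v, W, h, rfl⟩

theorem chartAt_eq (p : S.X) : chartAt E p = chart (good_rx p) := rfl

theorem chartAt_self (p : S.X) : chartAt E p p = rx p := by
  have := chart_π (good_rx p) (mem_rx p)
  rwa [π_rx] at this

theorem chartAt_symm (p : S.X) : ⇑(chartAt E p).symm = S.π (rv p) := rfl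

/-- `τ` is a transition map from the piece `v` to the piece `w` near `x`. -/
structure Loc (S : Etale V E) (τ : E → E) (v : V) (x : E) (w : V) : Prop where
  smooth : ContDiffAt ℝ ∞ τ x
  rel : ∀ᶠ x' in 𝓝 x, S.R v x' w (τ x')

theorem Loc.R {τ : E → E} {v w : V} {x : E} (h : S.Loc τ v x w) : S.R v x w (τ x) :=
  h.rel.self_of_nhds

theorem exists_loc {v w : V} {x y : E} (h : S.R v x w y) : ∃ τ, S.Loc τ v x w ∧ τ x = y :=
  let ⟨τ, h1, h2, h3⟩ := S.loc h
  ⟨τ, ⟨h1, h3⟩, h2⟩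

theorem Loc.π_eq {τ : E → E} {v w : V} {x : E} (h : S.Loc τ v x w) :
    S.π v =ᶠ[𝓝 x] S.π w ∘ τ := h.rel.mono fun _ a => π_eq_of a

theorem Loc.chart_eq {τ : E → E} {v w : V} {x : E} (h : S.Loc τ v x w) {W : Set E}
    (g : S.Good w W) (hx : τ x ∈ W) : chart g ∘ S.π v =ᶠ[𝓝 x] τ := by
  filter_upwards [h.π_eq, h.smooth.continuousAt.eventually_mem (g.isOpen.mem_nhds hx)] with a h1 h2
  rw [Function.comp_apply, h1, Function.comp_apply, chart_π g h2]

theorem Loc.unique {τ τ' : E → E} {v w : V} {x : E} (h : S.Loc τ v x w) (h' : S.Loc τ' v x w)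
    (e : τ x = τ' x) : τ =ᶠ[𝓝 x] τ' := by
  obtain ⟨W, g, hW⟩ := exists_good w (mem' h.R)
  exact (h.chart_eq g hW).symm.trans (h'.chart_eq g (e ▸ hW))

theorem Loc.eventually {τ : E → E} {v w : V} {x : E} (h : S.Loc τ v x w) :
    ∀ᶠ x' in 𝓝 x, S.Loc τ v x' w := by
  obtain ⟨W, g, hW⟩ := exists_good w (mem' h.R)
  filter_upwards [h.rel.eventually_nhds, (h.chart_eq g hW).eventuallyEq_nhds,
    h.smooth.continuousAt.eventually_mem (g.isOpen.mem_nhds hW)] with a h1 h2 h3
  obtain ⟨σ, h4, h5⟩ := exists_loc h1.self_of_nhds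
  exact ⟨h4.smooth.congr_of_eventuallyEq (h2.symm.trans (h4.chart_eq g (h5 ▸ h3))), h1⟩

theorem Loc.id (v : V) {x : E} (hx : x ∈ S.U) : S.Loc id v x v :=
  ⟨contDiffAt_id, (S.isOpen.eventually_mem hx).mono fun a ha => S.refl v a ha⟩

theorem Loc.comp {τ σ : E → E} {v w u : V} {x : E} (h' : S.Loc σ w (τ x) u) (h : S.Loc τ v x w) :
    S.Loc (σ ∘ τ) v x u :=
  ⟨h'.smooth.comp x h.smooth, by
    filter_upwards [h.rel, h.smooth.continuousAt.eventually h'.rel] with a h1 h2
    exact S.trans h1 h2⟩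

theorem loc_chart (v : V) {x : E} (hx : x ∈ S.U) {w : V} {W : Set E} (g : S.Good w W)
    (h : S.π v x ∈ (chart g).source) : S.Loc (chart g ∘ S.π v) v x w := by
  obtain ⟨y, hy, e⟩ := h
  obtain ⟨τ, h1, h2⟩ := exists_loc ((π_eq hx (g.sub hy)).1 e.symm)
  have h3 := h1.chart_eq g (h2 ▸ hy)
  exact ⟨h1.smooth.congr_of_eventuallyEq h3, by
    filter_upwards [h1.rel, h3] with a h4 h5
    rwa [h5]⟩

instance : IsManifold 𝓘(ℝ, E) ∞ S.X := by
  refine isManifold_of_contDiffOn _ _ _ ?_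
  rintro _ _ ⟨v, W, h, rfl⟩ ⟨w, W', h', rfl⟩ x hx
  simp only [modelWithCornersSelf_coe, modelWithCornersSelf_coe_symm, preimage_id_eq, id_eq,
    range_id, inter_univ, OpenPartialHomeomorph.trans_source, OpenPartialHomeomorph.symm_source,
    mem_inter_iff, mem_preimage, Function.comp_id, Function.id_comp] at hx ⊢
  exact (loc_chart v (h.sub hx.1) h' hx.2).smooth.contDiffWithinAt

theorem contMDiffAt_π (v : V) {x : E} (hx : x ∈ S.U) :
    ContMDiffAt 𝓘(ℝ, E) 𝓘(ℝ, E) ∞ (S.π v) x := by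
  obtain ⟨W, g, hW⟩ := exists_good v hx
  exact contMDiffAt_symm_of_mem_maximalAtlas (IsManifold.subset_maximalAtlas (chart_mem g)) hW

/-- The derivative of the parametrisation. -/
def D (S : Etale V E) (v : V) (x : E) : E →L[ℝ] E := mfderiv 𝓘(ℝ, E) 𝓘(ℝ, E) (S.π v) x

theorem D_eq {τ : E → E} {v : V} {x : E} (h : S.Loc τ v x (rv (S.π v x)))
    (e : τ x = rx (S.π v x)) : S.D v x = fderiv ℝ τ x := by
  have h1 := (contMDiffAt_π v (S.mem h.R)).mdifferentiableAt (by simp)
  rw [D, mfderiv, if_pos h1]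
  simp only [writtenInExtChartAt, extChartAt_model_space_eq_id, modelWithCornersSelf_coe,
    range_id, fderivWithin_univ, PartialEquiv.refl_symm, PartialEquiv.refl_coe, Function.comp_id,
    id_eq]
  exact (h.chart_eq (good_rx _) (e.symm ▸ mem_rx (S.π v x))).fderiv_eq

theorem D_rx (p : S.X) : S.D (rv p) (rx p) = ContinuousLinearMap.id ℝ E := by
  have h : S.Loc id (rv p) (rx p) (rv (S.π (rv p) (rx p))) := by
    rw [π_rx]; exact Loc.id _ (rx_mem p)
  rw [D_eq h (by rw [π_rx]; rfl), fderiv_id]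

theorem Loc.D_eq {τ : E → E} {v w : V} {x : E} (h : S.Loc τ v x w) :
    S.D v x = (S.D w (τ x)).comp (fderiv ℝ τ x) := by
  obtain ⟨σ, h1, h2⟩ := exists_loc (R_rx w (mem' h.R))
  have e : S.π v x = S.π w (τ x) := π_eq_of h.R
  rw [Etale.D_eq h1 h2, Etale.D_eq (τ := σ ∘ τ) (e ▸ h1.comp h) (e ▸ h2)]
  exact fderiv_comp x (h1.smooth.differentiableAt (by simp)) (h.smooth.differentiableAt (by simp))

theorem secondCountable [Countable V] [SecondCountableTopology E] :
    SecondCountableTopology S.X := by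
  have : IsOpenQuotientMap (Quotient.mk S.setoid : _ → S.X) := by
    refine ⟨Quotient.mk_surjective, continuous_quotient_mk', isOpenMap_sigma.2 fun v O hO => ?_⟩
    have := isOpen_image (S := S) v (S.isOpen.isOpenEmbedding_subtypeVal.isOpenMap O hO)
      (by rintro _ ⟨a, -, rfl⟩; exact a.2)
    rw [image_image] at this
    rwa [show (fun a : S.U => Quotient.mk S.setoid ⟨v, a⟩) = fun a : S.U => S.π v a from
      funext fun a => (π_of a.2).symm]
  exact this.isQuotientMap.secondCountableTopology this.isOpenMap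

end Etale

end Pool.Agent.Lib.MP_570070_gt.An
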