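import Pool.Agent.Lib.MP_570070_gt.An.FlipA

open MeasureTheory Filter Topology Set
open scoped ContDiff InnerProductSpace

namespace Pool.Agent.Lib.MP_570070_gt.An

variable {c : Par} {e : Ed c} {y y' : Eu 3}

/-- The local gluing map. -/
noncomputable def flipbMap (e : Ed c) (y y' z : Eu 3) : Eu 3 :=
  ![ctr e + Real.exp (2 * mid e) / √(rsq e z) * Real.cos (z 2),
    c.ε e * (Real.exp (2 * mid e) / √(rsq e z) * Real.sin (z 2)),
    y' 2 + c.ε e * Real.arctan ((z 1 * (y 0 - ctr e) - (z 0 - ctr e) * y 1) /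
      ((z 0 - ctr e) * (y 0 - ctr e) + z 1 * y 1))]

theorem flipb_flip (h : Flip e y y') {z : Eu 3} (hz : z ∈ DR c) (hs : sc e z < 1)
    (hA : 0 < (z 0 - ctr e) * (y 0 - ctr e) + z 1 * y 1) : Flip e z (flipbMap e y y' z) := by
  obtain ⟨h1, h2, h3, h4, h5, -, -⟩ := flip_flipPt hz hs
  have e0 : flipbMap e y y' z 0 = flipPt e z 0 := rfl
  have e1 : flipbMap e y y' z 1 = flipPt e z 1 := rfl
  obtain ⟨hy, -, -, -, -, ha, hb⟩ := h
  have hr : 0 < √(rsq e y) := Real.sqrt_pos.2 (hy e).1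
  have hρ : 0 < √(rsq e z) := Real.sqrt_pos.2 (hz e).1
  have hr2 : √(rsq e y) ^ 2 = (y 0 - ctr e) ^ 2 + y 1 ^ 2 := Real.sq_sqrt (hy e).1.le
  have hρ2 : √(rsq e z) ^ 2 = (z 0 - ctr e) ^ 2 + z 1 ^ 2 := Real.sq_sqrt (hz e).1.le
  have hε := eps_sq e
  set r := √(rsq e y)
  set ρ := √(rsq e z)
  set A := (z 0 - ctr e) * (y 0 - ctr e) + z 1 * y 1 with hA'
  set B := z 1 * (y 0 - ctr e) - (z 0 - ctr e) * y 1 with hB'
  have hq : √(1 + (B / A) ^ 2) = ρ * r / A := by
    rw [Real.sqrt_eq_iff_mul_self_eq (by positivity) (by positivity)]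
    field_simp
    rw [hr2, hρ2, hA', hB']
    ring
  have hc : Real.cos (c.ε e * Real.arctan (B / A)) = A / (ρ * r) := by
    have : Real.cos (c.ε e * Real.arctan (B / A)) = Real.cos (Real.arctan (B / A)) := by
      rcases c.hε e with h | h <;> simp [h]
    rw [this, Real.cos_arctan, hq, one_div_div]
  have hsn : Real.sin (c.ε e * Real.arctan (B / A)) = c.ε e * (B / (ρ * r)) := by
    have : Real.sin (c.ε e * Real.arctan (B / A)) = c.ε e * Real.sin (Real.arctan (B / A)) := by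
      rcases c.hε e with h | h <;> simp [h]
    rw [this, Real.sin_arctan, hq]
    field_simp
  have hcos : Real.cos (y' 2) = (y 0 - ctr e) / r := by
    rw [ha]
    field_simp
  have hsin : Real.sin (y' 2) = c.ε e * (y 1 / r) := by
    rw [hb]
    field_simp
    rw [hε, mul_one]
  refine ⟨h1, (mem_DR_congr e0 e1).2 h2, (sc_congr e e0 e1).trans h3, ?_, ?_, ?_, ?_⟩
  · rw [rsq_congr e e0 e1, e0]
    exact h4
  · rw [rsq_congr e e0 e1, e1]
    exact h5
  · change _ = ρ * Real.cos (y' 2 + c.ε e * Real.arctan (B / A))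
    rw [Real.cos_add, hc, hsn, hcos, hsin]
    field_simp
    rw [hε, hr2, hA', hB']
    ring
  · change _ = c.ε e * (ρ * Real.sin (y' 2 + c.ε e * Real.arctan (B / A)))
    rw [Real.sin_add, hc, hsn, hcos, hsin]
    field_simp
    rw [hε, hr2, hA', hB']
    ring

theorem flipb_deriv {z : Eu 3} (hy : 0 < rsq e y) (hz : 0 < rsq e z)
    (hA : 0 < (z 0 - ctr e) * (y 0 - ctr e) + z 1 * y 1) :
    HasFDerivAt (flipbMap e y y') (fl e z (flipbMap e y y' z)) z := by
  have p : ∀ i : Fin 3, HasFDerivAt (fun x : Eu 3 => x i)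
      (ContinuousLinearMap.proj (R := ℝ) (φ := fun _ : Fin 3 => ℝ) i) z := fun i =>
    hasFDerivAt_apply i z
  have hρ : 0 < √(rsq e z) := Real.sqrt_pos.2 hz
  have hρ2 : √(rsq e z) ^ 2 = rsq e z := Real.sq_sqrt hz.le
  have hε := eps_sq e
  have hq : HasFDerivAt (rsq e) _ z := (((p 0).sub_const (ctr e)).pow 2).add ((p 1).pow 2)
  have hR := ((hasDerivAt_inv hρ.ne').comp_hasFDerivAt z (hq.sqrt hz.ne')).const_mul
    (Real.exp (2 * mid e))
  refine hasFDerivAt_pi'' fun i => ?_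
  fin_cases i
  · refine ((hR.mul (p 2).cos).const_add (ctr e)).congr_fderiv (ContinuousLinearMap.ext fun v => ?_)
    simp only [ContinuousLinearMap.comp_apply, ContinuousLinearMap.proj_apply, fl_apply]
    simp [flipbMap]
    rw [← hρ2, Real.sqrt_sq hρ.le]
    field_simp
    rw [hε]
    ring
  · refine ((hR.mul (p 2).sin).const_mul (c.ε e)).congr_fderiv (ContinuousLinearMap.ext fun v => ?_)
    simp only [ContinuousLinearMap.comp_apply, ContinuousLinearMap.proj_apply, fl_apply]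
    simp [flipbMap]
    rw [← hρ2, Real.sqrt_sq hρ.le]
    field_simp
    ring
  · have hB := ((p 1).mul_const (y 0 - ctr e)).sub (((p 0).sub_const (ctr e)).mul_const (y 1))
    have hA' := (((p 0).sub_const (ctr e)).mul_const (y 0 - ctr e)).add ((p 1).mul_const (y 1))
    have hi := (hasDerivAt_inv hA.ne').comp_hasFDerivAt z hA'
    refine ((((hB.mul hi).arctan).const_mul (c.ε e)).const_add (y' 2)).congr_fderiv
      (ContinuousLinearMap.ext fun v => ?_)
    simp only [ContinuousLinearMap.comp_apply, ContinuousLinearMap.proj_apply, fl_apply]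
    have hA0 := hA.ne'
    have h1 : 1 + ((z 1 * (y 0 - ctr e) - (z 0 - ctr e) * y 1) *
        ((z 0 - ctr e) * (y 0 - ctr e) + z 1 * y 1)⁻¹) ^ 2 =
        rsq e z * rsq e y / ((z 0 - ctr e) * (y 0 - ctr e) + z 1 * y 1) ^ 2 := by
      rw [rsq, rsq, eq_div_iff (pow_ne_zero 2 hA0), add_mul, mul_pow, mul_assoc, ← mul_pow,
        inv_mul_cancel₀ hA0]
      ring
    simp [h1]
    have h2 : rsq e y = (y 0 - ctr e) ^ 2 + y 1 ^ 2 := rfl
    generalize hA1 : (z 0 - ctr e) * (y 0 - ctr e) + z 1 * y 1 = A at hA0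
    field_simp
    rw [h2, ← hA1]
    ring

/-- The gluing is locally a smooth map with differential fl. Take
τ z = (ctr + R z cos (z 2), ε R z sin (z 2), y' 2 + ε arg (w z / w y)), R z = exp (2 mid) / √ rsq z,
w z = (z 0 - ctr) + i z 1; near y the quotient has positive real part, so arg is
arctan (im / re) or the imaginary part of Complex.log. -/
theorem Flip.exists_local (h : Flip e y y') : ∃ τ : Eu 3 → Eu 3, τ y = y' ∧
    ContDiffAt ℝ ∞ τ y ∧
    ∀ᶠ z in 𝓝 y, Flip e z (τ z) ∧ HasFDerivAt τ (fl e z (τ z)) z := by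
  have hy := h.1
  have hA : 0 < (y 0 - ctr e) * (y 0 - ctr e) + y 1 * y 1 := by
    have := (hy e).1
    rw [rsq] at this
    linarith
  have hρ : 0 < √(rsq e y) := Real.sqrt_pos.2 (hy e).1
  refine ⟨flipbMap e y y', ?_, ?_, ?_⟩
  · have h1 : Real.exp (2 * mid e) / √(rsq e y) = √(rsq e y') := by
      rw [div_eq_iff hρ.ne', mul_comm √_, ← Real.sqrt_mul (hy e).1.le, h.rsq_mul, eq_comm,
        Real.sqrt_eq_iff_mul_self_eq (by positivity) (by positivity), ← Real.exp_add]
      congr 1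
      ring
    funext i
    fin_cases i
    · change ctr e + _ * _ = y' 0
      rw [h1, ← h.2.2.2.1]
      ring
    · change c.ε e * (_ * _) = y' 1
      rw [h1, ← h.2.2.2.2.1]
    · change y' 2 + c.ε e * Real.arctan ((y 1 * _ - _ * y 1) / _) = y' 2
      rw [mul_comm (y 1), sub_self, zero_div, Real.arctan_zero, mul_zero, add_zero]
  · have hR : ContDiffAt ℝ ∞ (fun z : Eu 3 => Real.exp (2 * mid e) / √(rsq e z)) y :=
      contDiffAt_const.div ((contDiff_rsq e).contDiffAt.sqrt (hy e).1.ne') hρ.ne'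
    refine contDiffAt_pi.2 fun i => ?_
    fin_cases i
    · exact contDiffAt_const.add (hR.mul (contDiffAt_apply ℝ ℝ 2 y).cos)
    · exact contDiffAt_const.mul (hR.mul (contDiffAt_apply ℝ ℝ 2 y).sin)
    · refine contDiffAt_const.add (contDiffAt_const.mul (ContDiffAt.arctan ?_))
      exact ContDiffAt.div (by fun_prop) (by fun_prop) hA.ne'
  · have e1 : ∀ᶠ z in 𝓝 y, z ∈ DR c := isOpen_DR.mem_nhds hy
    have e2 : ∀ᶠ z in 𝓝 y, sc e z < 1 :=
      (((contDiffOn_sc e).continuousOn.continuousAt e1).eventually_lt continuousAt_const h.sc_lt)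
    have e3 : ∀ᶠ z : Eu 3 in 𝓝 y, 0 < (z 0 - ctr e) * (y 0 - ctr e) + z 1 * y 1 :=
      continuousAt_const.eventually_lt (by fun_prop) hA
    filter_upwards [e1, e2, e3] with z h1 h2 h3
    exact ⟨flipb_flip h h1 h2 h3, flipb_deriv (hy e).1 (h1 e).1 h3⟩

end Pool.Agent.Lib.MP_570070_gt.An
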