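import Pool.Agent.Lib.MP_570070_gt.An.CEt
import Pool.Agent.Lib.MP_570070_gt.An.FlipB
import Pool.Agent.Lib.MP_570070_gt.An.FlipC
import Pool.Agent.Lib.MP_570070_gt.An.GeoC

/-!
The manifold of a gluing pattern.
-/

open MeasureTheory Filter Topology Set
open scoped Manifold ContDiff

namespace Pool.Agent.Lib.MP_570070_gt.An

noncomputable section

variable {c : Par} {P : Type} {k : ℕ}

theorem zper_zero (n : ℤ) (y : Eu 3) : (y + n • per) 0 = y 0 := by simp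

theorem zper_one (n : ℤ) (y : Eu 3) : (y + n • per) 1 = y 1 := by simp

theorem zper_two (n : ℤ) (y : Eu 3) : (y + n • per) 2 = y 2 + n * (2 * Real.pi) := by simp

theorem zper_mem (n : ℤ) {y : Eu 3} (hy : y ∈ DR c) : y + n • per ∈ DR c :=
  (mem_DR_congr (zper_zero n y) (zper_one n y)).2 hy

/-- The gluing relation. -/
def Rel (Γ : Gl c P) (p : P) (y : Eu 3) (p' : P) (y' : Eu 3) : Prop :=
  (y ∈ DR c ∧ p' = p ∧ ∃ n : ℤ, y' = y + n • per) ∨ ∃ e, p' = Γ.σ e p ∧ Flip e y y'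

theorem zper_eq {a b : Eu 3} {n : ℤ} (e : b = a + n • per) (h : |b 2 - a 2| < 2 * Real.pi) :
    a = b := by
  have h1 : b 2 - a 2 = n * (2 * Real.pi) := by rw [e, zper_two]; ring
  have h2 : (0 : ℝ) < 2 * Real.pi := by positivity
  rw [h1, abs_mul, abs_of_pos h2, mul_lt_iff_lt_one_left h2, ← Int.cast_abs] at h
  have h3 : n = 0 := Int.abs_lt_one_iff.1 (by exact_mod_cast h)
  rw [e, h3, zero_smul, add_zero]

/-- The gluing data. -/
def et (Γ : Gl c P) [Nonempty P] : Etale P (Eu 3) where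
  U := DR c
  R := Rel Γ
  isOpen := isOpen_DR
  mem h := h.elim (fun h => h.1) fun ⟨_, _, h⟩ => h.1
  refl p y hy := Or.inl ⟨hy, rfl, 0, by simp⟩
  symm := by
    rintro p y p' y' (⟨hy, rfl, n, rfl⟩ | ⟨e, rfl, h⟩)
    · exact Or.inl ⟨zper_mem n hy, rfl, -n, by simp⟩
    · exact Or.inr ⟨e, (Γ.invol e p).symm, h.symm⟩
  trans := by
    rintro p y p' y' p'' y'' (⟨hy, rfl, n, rfl⟩ | ⟨e, rfl, h⟩) (⟨-, rfl, m, rfl⟩ | ⟨e', rfl, h'⟩)
    · exact Or.inl ⟨hy, rfl, n + m, by rw [add_smul, add_assoc]⟩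
    · exact Or.inr ⟨e', rfl, by simpa using h'.add_per_left (-n)⟩
    · exact Or.inr ⟨e, rfl, h.add_per_right m⟩
    · obtain rfl := h.symm.edge_eq h'
      exact Or.inl ⟨h.1, Γ.invol e p, h.symm.unique h'⟩
  loc := by
    rintro p y p' y' (⟨hy, rfl, n, rfl⟩ | ⟨e, rfl, h⟩)
    · exact ⟨fun z => z + n • per, contDiffAt_id.add contDiffAt_const, rfl,
        (isOpen_DR.eventually_mem hy).mono fun z hz => Or.inl ⟨hz, rfl, n, rfl⟩⟩
    · obtain ⟨τ, h1, h2, h3⟩ := h.exists_local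
      exact ⟨τ, h2, h1, h3.mono fun z hz => Or.inr ⟨e, rfl, hz.1⟩⟩
  inj y _ := by
    refine ⟨{z | |z 2 - y 2| < Real.pi}, (isOpen_lt (by fun_prop) continuous_const).mem_nhds
      (by simpa using Real.pi_pos), ?_⟩
    rintro p a ha b hb (⟨-, -, n, e⟩ | ⟨e, h, -⟩)
    · refine zper_eq e ?_
      rw [mem_ofPred_eq, abs_lt] at ha hb
      rw [abs_lt]
      constructor <;> linarith [ha.1, ha.2, hb.1, hb.2]
    · exact absurd h.symm (Γ.ne e p)
  v0 := Classical.arbitrary P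
  x0 := (nonempty_DR (c := c)).choose
  mem0 := (nonempty_DR (c := c)).choose_spec

variable {Γ : Gl c P} [Nonempty P]

theorem q_eq {p p' : P} {y y' : Eu 3} (hy : y ∈ DR c) (hy' : y' ∈ DR c) :
    (et Γ).π p y = (et Γ).π p' y' ↔ Rel Γ p y p' y' := Etale.π_eq (S := et Γ) hy hy'

theorem q_per (p : P) {y : Eu 3} (hy : y ∈ DR c) (n : ℤ) :
    (et Γ).π p (y + n • per) = (et Γ).π p y :=
  ((q_eq hy (zper_mem n hy)).2 (Or.inl ⟨hy, rfl, n, rfl⟩)).symm

theorem q_flip (p : P) {e : Ed c} {y y' : Eu 3} (h : Flip e y y') :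
    (et Γ).π (Γ.σ e p) y' = (et Γ).π p y :=
  ((q_eq h.1 h.2.1).2 (Or.inr ⟨e, rfl, h⟩)).symm

theorem D_per (p : P) {y : Eu 3} (hy : y ∈ DR c) (n : ℤ) :
    (et Γ).D p (y + n • per) = (et Γ).D p y := by
  have h : (et Γ).Loc (fun z => z + n • per) p y p := ⟨contDiffAt_id.add contDiffAt_const,
    (isOpen_DR.eventually_mem hy).mono fun z hz => Or.inl ⟨hz, rfl, n, rfl⟩⟩
  rw [h.D_eq, fderiv_add_const, fderiv_fun_id]
  rfl

theorem D_flip (p : P) {e : Ed c} {y y' : Eu 3} (h : Flip e y y') :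
    (et Γ).D p y = ((et Γ).D (Γ.σ e p) y').comp (fl e y y') := by
  obtain ⟨τ, h1, h2, h3⟩ := h.exists_local
  have h4 : (et Γ).Loc τ p y (Γ.σ e p) := ⟨h2, h3.mono fun z hz => Or.inr ⟨e, rfl, hz.1⟩⟩
  rw [h4.D_eq, h3.self_of_nhds.2.fderiv, h1]

/-- The relation with the chosen representative. -/
theorem rep_cases (p : P) {y : Eu 3} (hy : y ∈ DR c) {x : (et Γ).X} (hx : (et Γ).π p y = x) :
    (Etale.rv x = p ∧ (∃ n : ℤ, Etale.rx x = y + n • per) ∧
      (et Γ).D p y = ContinuousLinearMap.id ℝ _) ∨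
    ∃ e, Etale.rv x = Γ.σ e p ∧ Flip e y (Etale.rx x) ∧ (et Γ).D p y = fl e y (Etale.rx x) := by
  have h0 := Etale.D_rx x
  rcases (q_eq hy (Etale.rx_mem x)).1 (hx.trans (Etale.π_rx x).symm) with ⟨-, h, n, e⟩ | ⟨e, h, f⟩
  · exact Or.inl ⟨h, ⟨n, e⟩, by rw [← D_per p hy n, ← e, ← h, h0]⟩
  · exact Or.inr ⟨e, h, f, by rw [D_flip p f, ← h, h0]; rfl⟩

/-- Every point lies in the closed core of a piece. -/
theorem exists_home (x : (et Γ).X) : ∃ p, ∃ y ∈ DR c, (∀ e : Ed c, 0 ≤ sc e y) ∧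
    y 2 ∈ Icc 0 (2 * Real.pi) ∧ (et Γ).π p y = x := by
  have h1 : ∃ p, ∃ y ∈ DR c, (∀ e : Ed c, 0 ≤ sc e y) ∧ (et Γ).π p y = x := by
    obtain ⟨p, y, hy, rfl⟩ := Etale.exists_rep x
    by_cases h : ∀ e : Ed c, 0 ≤ sc e y
    · exact ⟨p, y, hy, h, rfl⟩
    · obtain ⟨e, he⟩ := not_forall.1 h
      have he := not_le.1 he
      have f := flip_flipPt hy (show sc e y < 1 by linarith)
      refine ⟨_, _, f.2.1, fun e' => ?_, q_flip p f⟩
      have h2 : 1 / 2 < eta c (flipPt e y) := by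
        rw [f.eta_eq]; linarith [(eta_lt_half hy).2 ⟨e, he⟩]
      exact ((half_lt_eta f.2.1).1 h2 e').le
  obtain ⟨p, y, hy, h, rfl⟩ := h1
  have h2 : (0 : ℝ) < 2 * Real.pi := by positivity
  refine ⟨p, y + (-⌊y 2 / (2 * Real.pi)⌋) • per, zper_mem _ hy, fun e => ?_, ?_, q_per p hy _⟩
  · rw [sc_congr e (zper_zero _ y) (zper_one _ y)]; exact h e
  · rw [zper_two]
    have h3 := (le_div_iff₀ h2).1 (Int.floor_le (y 2 / (2 * Real.pi)))
    have h4 := (div_lt_iff₀ h2).1 (Int.lt_floor_add_one (y 2 / (2 * Real.pi)))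
    push_cast
    constructor <;> linarith

theorem half_le_eta {y : Eu 3} (hy : y ∈ DR c) (h : ∀ e : Ed c, 0 ≤ sc e y) : 1 / 2 ≤ eta c y :=
  not_lt.1 fun h' => let ⟨e, he⟩ := (eta_lt_half hy).1 h'; (h e).not_gt he

/-- A function on the manifold from compatible functions on the pieces. -/
theorem fun_rep {Z : Type} {f : P → Eu 3 → Z}
    (h1 : ∀ p, ∀ y ∈ DR c, ∀ n : ℤ, f p (y + n • per) = f p y)
    (h2 : ∀ p e y y', Flip e y y' → f (Γ.σ e p) y' = f p y) (p : P) {y : Eu 3} (hy : y ∈ DR c) :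
    f (Etale.rv ((et Γ).π p y)) (Etale.rx ((et Γ).π p y)) = f p y := by
  rcases rep_cases p hy rfl with ⟨h, ⟨n, e⟩, -⟩ | ⟨e, h, f, -⟩
  · rw [h, e, h1 p y hy]
  · rw [h, h2 p e _ _ f]

open Classical in
/-- The partition of unity in the piece `p`. -/
def etaP (Γ : Gl c P) (p₀ p : P) (y : Eu 3) : ℝ :=
  (if p = p₀ then eta c y else 0) + ∑ e, if Γ.σ e p = p₀ then kap e y else 0

/-- The partition of unity. -/
def etaN (Γ : Gl c P) (p₀ : P) (x : (et Γ).X) : ℝ := etaP Γ p₀ (Etale.rv x) (Etale.rx x)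

omit [Nonempty P] in
open Classical in
theorem etaP_collar (p₀ p : P) {y : Eu 3} (hy : y ∈ DR c) {e : Ed c} (he : sc e y ≤ 2) :
    etaP Γ p₀ p y = (if p = p₀ then 1 - kap e y else 0) + if Γ.σ e p = p₀ then kap e y else 0 := by
  rw [etaP, eta_collar hy he, sum_collar hy he]
  intro e' h
  rw [kap_eq_zero (by linarith), ite_self]

theorem etaN_q (p₀ p : P) {y : Eu 3} (hy : y ∈ DR c) :
    etaN Γ p₀ ((et Γ).π p y) = etaP Γ p₀ p y := by
  refine fun_rep (f := etaP Γ p₀) (fun p y _ n => ?_) (fun p e y y' f => ?_) p hy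
  · simp only [etaP, eta_congr (zper_zero n y) (zper_one n y),
      kap_congr _ (zper_zero n y) (zper_one n y)]
  · rw [etaP_collar p₀ p f.1 (e := e) (by linarith [f.sc_lt]),
      etaP_collar p₀ _ f.2.1 (e := e) (by linarith [f.symm.sc_lt]), Γ.invol, f.kap_eq,
      sub_sub_cancel, add_comm]

omit [Nonempty P] in
theorem etaP_self (p : P) (y : Eu 3) : etaP Γ p p y = eta c y := by
  simp [etaP, Γ.ne]

theorem continuous_etaN (p₀ : P) : Continuous (etaN Γ p₀) := by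
  refine Etale.continuous_iff.2 fun p => ContinuousOn.congr ?_ fun y hy => etaN_q p₀ p hy
  refine ContinuousOn.add ?_ (continuousOn_finsetSum _ fun e _ => ?_)
  · split_ifs
    exacts [contDiffOn_eta.continuousOn, continuousOn_const]
  · split_ifs
    exacts [(contDiffOn_kap e).continuousOn, continuousOn_const]

theorem mem_of_kap (p : P) {y : Eu 3} (hy : y ∈ DR c) {e : Ed c} (h : kap e y ≠ 0) :
    ∃ y' ∈ DR c, (et Γ).π (Γ.σ e p) y' = (et Γ).π p y := by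
  have h1 : sc e y < 1 / 2 := not_le.1 fun h' => h (kap_eq_zero h')
  have f := flip_flipPt hy (show sc e y < 1 by linarith)
  exact ⟨_, f.2.1, q_flip p f⟩

theorem mem_of_etaN {p₀ : P} {x : (et Γ).X} (h : etaN Γ p₀ x ≠ 0) :
    ∃ y ∈ DR c, (et Γ).π p₀ y = x := by
  classical
  obtain ⟨p, y, hy, rfl⟩ := Etale.exists_rep x
  rw [etaN_q p₀ p hy, etaP] at h
  by_cases e : p = p₀
  · exact ⟨y, hy, e ▸ rfl⟩
  · rw [if_neg e, zero_add] at h
    obtain ⟨e, -, he⟩ := Finset.exists_ne_zero_of_sum_ne_zero h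
    obtain ⟨h1, h2⟩ := ite_ne_right_iff.1 he
    exact h1 ▸ mem_of_kap p hy h2

theorem good_strip (p : P) (t : ℝ) :
    (et Γ).Good p {y | y ∈ DR c ∧ y 2 ∈ Ioo t (t + 2 * Real.pi)} := by
  refine ⟨isOpen_DR.inter (isOpen_Ioo.preimage (continuous_apply 2)), fun y hy => hy.1, ?_⟩
  intro a ha b hb e
  rcases (q_eq ha.1 hb.1).1 e with ⟨-, -, n, e⟩ | ⟨e, h, -⟩
  · refine zper_eq e ?_
    rw [abs_lt]
    constructor <;> linarith [ha.2.1, ha.2.2, hb.2.1, hb.2.2]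
  · exact absurd h.symm (Γ.ne e p)

theorem good_cell (p : P) : (et Γ).Good p (Cell c) := by
  have := good_strip (Γ := Γ) p 0
  rwa [zero_add] at this

instance t2_et : T2Space (et Γ).X := by
  refine ⟨fun x x' hne => ?_⟩
  obtain ⟨p, y, hy, h, -, rfl⟩ := exists_home x
  by_cases e : etaN Γ p ((et Γ).π p y) = etaN Γ p x'
  · have h1 : etaN Γ p x' ≠ 0 := by
      rw [← e, etaN_q p p hy, etaP_self]
      linarith [half_le_eta hy h]
    obtain ⟨y', hy', rfl⟩ := mem_of_etaN h1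
    have h2 : (0 : ℝ) < 2 * Real.pi := by positivity
    set n : ℤ := -⌊(y' 2 - y 2) / (2 * Real.pi)⌋ with hn
    have h3 := (le_div_iff₀ h2).1 (Int.floor_le ((y' 2 - y 2) / (2 * Real.pi)))
    have h4 := (div_lt_iff₀ h2).1 (Int.lt_floor_add_one ((y' 2 - y 2) / (2 * Real.pi)))
    have h5 : (y' + n • per) 2 = y' 2 - ⌊(y' 2 - y 2) / (2 * Real.pi)⌋ * (2 * Real.pi) := by
      rw [zper_two, hn]; push_cast; ring
    rw [← q_per p hy' n] at hne ⊢
    have g := good_strip (Γ := Γ) p ((y 2 + (y' + n • per) 2) / 2 - Real.pi)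
    obtain ⟨A, B, hA, hB, a, b, d⟩ := t2_separation (x := y) (y := y' + n • per)
      fun h => hne (congrArg _ h)
    refine ⟨_, _, Etale.isOpen_image p (hA.inter g.isOpen) fun z hz => hz.2.1,
      Etale.isOpen_image p (hB.inter g.isOpen) fun z hz => hz.2.1,
      ⟨y, ⟨a, hy, ?_, ?_⟩, rfl⟩, ⟨_, ⟨b, zper_mem n hy', ?_, ?_⟩, rfl⟩, ?_⟩
    · rw [h5]; linarith
    · rw [h5]; linarith
    · rw [h5]; linarith
    · rw [h5]; linarith
    · rw [Set.disjoint_left]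
      rintro _ ⟨z, hz, rfl⟩ ⟨z', hz', e'⟩
      obtain rfl := g.inj hz'.2 hz.2 e'
      exact Set.disjoint_left.1 d hz.1 hz'.1
  · exact separated_by_continuous (continuous_etaN p) e

/-- The metric in coordinates. -/
def gB (c : Par) (y : Eu 3) : Eu 3 →L[ℝ] Eu 3 →L[ℝ] ℝ :=
  lam c y ^ 2 • ((ContinuousLinearMap.mul ℝ ℝ).bilinearComp (.proj 0) (.proj 0) +
    (ContinuousLinearMap.mul ℝ ℝ).bilinearComp (.proj 1) (.proj 1)) +
    (ContinuousLinearMap.mul ℝ ℝ).bilinearComp (.proj 2) (.proj 2)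

theorem gB_apply (y v w : Eu 3) : gB c y v w = gUp c y v w := by
  simp [gB, gUp, mul_add]

theorem gUp_rep (p : P) {y : Eu 3} (hy : y ∈ DR c) (v w : Eu 3) :
    gUp c (Etale.rx ((et Γ).π p y)) ((et Γ).D p y v) ((et Γ).D p y w) = gUp c y v w := by
  rcases rep_cases p hy rfl with ⟨-, ⟨n, e⟩, d⟩ | ⟨e, -, f, d⟩
  · rw [d, e, gUp, gUp, lam_congr (zper_zero n y) (zper_one n y)]; rfl
  · rw [d, f.gUp_fl]

theorem gUp_pos {y : Eu 3} (hy : y ∈ DR c) {v : Eu 3} (hv : v ≠ 0) : 0 < gUp c y v v := by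
  have h1 := pow_pos (lam_pos hy) 2
  have h2 := mul_self_nonneg (v 0)
  have h3 := mul_self_nonneg (v 1)
  have h4 := mul_self_nonneg (v 2)
  have h5 := mul_nonneg h1.le (add_nonneg h2 h3)
  refine lt_of_le_of_ne (add_nonneg h5 h4) fun h => hv ?_
  rw [gUp] at h
  have h6 : v 0 * v 0 + v 1 * v 1 = 0 := (mul_eq_zero.1 (by linarith)).resolve_left h1.ne'
  have h7 : v 0 = 0 := mul_self_eq_zero.1 (by linarith)
  have h8 : v 1 = 0 := mul_self_eq_zero.1 (by linarith)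
  have h9 : v 2 = 0 := mul_self_eq_zero.1 (by linarith)
  funext i
  fin_cases i
  exacts [h7, h8, h9]

/-- The Riemannian manifold of a gluing pattern. -/
abbrev mfd (Γ : Gl c P) [Countable P] : RMfd 3 :=
  haveI := Etale.secondCountable (S := et Γ)
  { M := (et Γ).X
    g := fun x => gB c (Etale.rx x)
    symm := fun x v w => by rw [ev, ev, gB_apply, gB_apply, gUp, gUp]; ring
    pos := fun x v hv => by rw [ev, gB_apply]; exact gUp_pos (Etale.rx_mem x) hv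
    smooth := by
      rintro _ ⟨p, W, h, rfl⟩ i j
      refine ContDiffOn.congr (f := fun y => gUp c y (bas i) (bas j)) ?_ fun y hy => ?_
      · exact (((contDiffOn_lam.mono h.sub).pow 2).mul contDiffOn_const).add contDiffOn_const
      · exact (gB_apply _ _ _).trans (gUp_rep p (h.sub hy) _ _) }

/-- Compact sets meet finitely many pieces. -/
theorem finite_pieces {K : Set (et Γ).X} (hK : IsCompact K) :
    {p | ∃ y ∈ DR c, (et Γ).π p y ∈ K}.Finite := by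
  obtain ⟨S, hS⟩ := hK.elim_finite_subcover (fun p => (et Γ).π p '' DR c)
    (fun p => Etale.isOpen_image p isOpen_DR Subset.rfl) fun x _ =>
      let ⟨p, y, hy, e⟩ := Etale.exists_rep x; mem_iUnion.2 ⟨p, y, hy, e⟩
  refine (S.finite_toSet.union (finite_iUnion fun e => S.finite_toSet.image (Γ.σ e))).subset ?_
  rintro p ⟨y, hy, h⟩
  obtain ⟨p', hp', y', hy', h'⟩ := mem_iUnion₂.1 (hS h)
  rcases (q_eq hy' hy).1 h' with ⟨-, rfl, -⟩ | ⟨e, rfl, -⟩
  · exact Or.inl hp'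
  · exact Or.inr (mem_iUnion.2 ⟨e, p', hp', rfl⟩)

theorem isCompact_q (p : P) {K : Set (Eu 3)} (hK : IsCompact K) (h : K ⊆ DR c) :
    IsCompact ((et Γ).π p '' K) :=
  hK.image_of_continuousOn ((Etale.continuousOn_π p).mono h)

theorem isOpen_eta : IsOpen {y | y ∈ DR c ∧ 1 / 2 < eta c y} :=
  contDiffOn_eta.continuousOn.isOpen_inter_preimage isOpen_DR isOpen_Ioi

/-- The union of the open cores of the pieces in `S`. -/
def core (Γ : Gl c P) (S : Set P) : Set (et Γ).X :=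
  ⋃ p ∈ S, (et Γ).π p '' {y | y ∈ DR c ∧ 1 / 2 < eta c y}

theorem isOpen_core (S : Set P) : IsOpen (core Γ S) :=
  isOpen_biUnion fun p _ => Etale.isOpen_image p isOpen_eta fun _ h => h.1

theorem core_home {S : Set P} {p : P} {y : Eu 3} (hy : y ∈ DR c) (h : 1 / 2 ≤ eta c y) :
    (et Γ).π p y ∈ core Γ S ↔ 1 / 2 < eta c y ∧ p ∈ S := by
  refine ⟨fun hx => ?_, fun h => mem_iUnion₂.2 ⟨p, h.2, y, ⟨hy, h.1⟩, rfl⟩⟩
  obtain ⟨p', hp', y', ⟨hy', h'⟩, e⟩ := mem_iUnion₂.1 hx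
  rcases (q_eq hy' hy).1 e with ⟨-, rfl, n, rfl⟩ | ⟨e, -, f⟩
  · exact ⟨by rwa [eta_congr (zper_zero n y') (zper_one n y')], hp'⟩
  · rw [f.eta_eq] at h
    linarith

/-- The distance of the partition of unity from one half. -/
def phi (Γ : Gl c P) (x : (et Γ).X) : ℝ := |eta c (Etale.rx x) - 1 / 2|

theorem phi_q (p : P) {y : Eu 3} (hy : y ∈ DR c) :
    phi Γ ((et Γ).π p y) = |eta c y - 1 / 2| := by
  refine fun_rep (f := fun _ y => |eta c y - 1 / 2|) (fun p y _ n => ?_)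
    (fun p e y y' f => ?_) p hy
  · rw [eta_congr (zper_zero n y) (zper_one n y)]
  · rw [f.eta_eq, ← abs_neg]
    congr 1
    ring

theorem continuous_phi : Continuous (phi Γ) :=
  Etale.continuous_iff.2 fun p => ContinuousOn.congr
    (contDiffOn_eta.continuousOn.sub continuousOn_const).abs fun _ hy => phi_q p hy

theorem exists_inv_D (p : P) {y : Eu 3} (hy : y ∈ DR c) :
    ∃ A : Eu 3 →L[ℝ] Eu 3, ∀ v, (et Γ).D p y (A v) = v := by
  rcases rep_cases p hy rfl with ⟨-, -, d⟩ | ⟨e, -, f, d⟩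
  · exact ⟨ContinuousLinearMap.id ℝ _, fun v => by rw [d]; rfl⟩
  · exact ⟨_, fun v => by rw [d]; exact DFunLike.congr_fun f.symm.fl_comp v⟩

end

end Pool.Agent.Lib.MP_570070_gt.An
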