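import Pool.Agent.Lib.MP_570070_gt.An.CGl

/-!
Integration on the manifold of a gluing pattern.
-/

open MeasureTheory Filter Topology Set
open scoped Manifold ContDiff

namespace Pool.Agent.Lib.MP_570070_gt.An

noncomputable section

variable {c : Par} {P : Type} {Γ : Gl c P} [Nonempty P]

instance measN : MeasurableSpace (et Γ).X := borel _

instance borelN : BorelSpace (et Γ).X := ⟨rfl⟩

/-- The volume formula in the pieces. -/
def VolN (Γ : Gl c P) (μ : Measure (et Γ).X) : Prop :=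
  ∀ (p : P) (W : Set (Eu 3)) (h : (et Γ).Good p W) (A : Set (et Γ).X), MeasurableSet A →
    A ⊆ (et Γ).π p '' W → μ A = ∫⁻ y in Etale.chart h '' A, ENNReal.ofReal (lam c y ^ 2)

theorem chart_image {p : P} {W : Set (Eu 3)} (h : (et Γ).Good p W) {A : Set (et Γ).X}
    (hA : A ⊆ (et Γ).π p '' W) : Etale.chart h '' A = W ∩ (et Γ).π p ⁻¹' A := by
  ext y
  constructor
  · rintro ⟨x, hx, rfl⟩
    obtain ⟨z, hz, rfl⟩ := hA hx
    rw [Etale.chart_π h hz]
    exact ⟨hz, hx⟩
  · exact fun hy => ⟨_, hy.2, Etale.chart_π h hy.1⟩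

theorem measurableSet_pre {p : P} {W : Set (Eu 3)} (h : (et Γ).Good p W) {A : Set (et Γ).X}
    (hA : MeasurableSet A) : MeasurableSet (W ∩ (et Γ).π p ⁻¹' A) := by
  have h1 : Measurable (W.domRestrict ((et Γ).π p)) :=
    ((Etale.continuousOn_π p).mono h.sub).domRestrict.measurable
  have h2 := h.isOpen.measurableSet.subtype_image (h1 hA)
  convert h2 using 1
  ext y
  exact ⟨fun h => ⟨⟨y, h.1⟩, h.2, rfl⟩, fun ⟨z, h1, h2⟩ => h2 ▸ ⟨z.2, h1⟩⟩

theorem volN_of_isVolume [Countable P] {μ : Measure (mfd Γ).M} (h : IsVolume (mfd Γ) μ) :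
    VolN Γ μ := by
  intro p W g A hA hs
  rw [h _ (Etale.chart_mem g) A hA hs, chart_image g hs]
  refine setLIntegral_congr_fun (measurableSet_pre g hA) fun y hy => ?_
  rw [← sqrt_det_gUp]
  congr 3
  ext i j
  exact (gB_apply _ _ _).trans (gUp_rep p (g.sub hy.1) _ _)

variable {μ : Measure (et Γ).X}

theorem VolN.restrict (h : VolN Γ μ) {p : P} {W : Set (Eu 3)} (g : (et Γ).Good p W) :
    μ.restrict ((et Γ).π p '' W) = Measure.map ((et Γ).π p)
      ((volume.restrict W).withDensity fun y => ENNReal.ofReal (lam c y ^ 2)) := by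
  have h0 := (Etale.isOpen_image p g.isOpen g.sub).measurableSet
  have h1 : AEMeasurable ((et Γ).π p) (volume.restrict W) :=
    ((Etale.continuousOn_π p).mono g.sub).aemeasurable g.isOpen.measurableSet
  ext A hA
  rw [Measure.restrict_apply hA, h p W g _ (hA.inter h0) inter_subset_right,
    chart_image g inter_subset_right,
    Measure.map_apply_of_aemeasurable (h1.mono_ac (withDensity_absolutelyContinuous _ _)) hA,
    withDensity_apply₀ _ (h1.nullMeasurable hA), Measure.restrict_restrict₀ (h1.nullMeasurable hA)]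
  congr 2
  ext y
  exact ⟨fun h => ⟨h.2.1, h.1⟩, fun h => ⟨h.2, h.1, y, h.2, rfl⟩⟩

theorem VolN.setIntegral (h : VolN Γ μ) {p : P} {W : Set (Eu 3)} (g : (et Γ).Good p W)
    {F : (et Γ).X → ℝ} (hF : Continuous F) :
    ∫ x in (et Γ).π p '' W, F x ∂μ = ∫ y in W, F ((et Γ).π p y) * lam c y ^ 2 := by
  have h1 : AEMeasurable ((et Γ).π p) (volume.restrict W) :=
    ((Etale.continuousOn_π p).mono g.sub).aemeasurable g.isOpen.measurableSet
  have h2 : AEMeasurable (fun y => lam c y ^ 2) (volume.restrict W) :=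
    ((contDiffOn_lam.continuousOn.mono g.sub).pow 2).aemeasurable g.isOpen.measurableSet
  rw [h.restrict g, integral_map (h1.mono_ac (withDensity_absolutelyContinuous _ _))
    hF.aestronglyMeasurable, integral_withDensity_eq_integral_toReal_smul₀ h2.ennreal_ofReal
    (Eventually.of_forall fun _ => ENNReal.ofReal_lt_top)]
  refine integral_congr_ae (Eventually.of_forall fun y => ?_)
  simp only [ENNReal.toReal_ofReal (sq_nonneg _), smul_eq_mul, mul_comm]

theorem VolN.null (h : VolN Γ μ) (p : P) : μ ((et Γ).π p '' DR c \ (et Γ).π p '' Cell c) = 0 := by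
  have g := good_strip (Γ := Γ) p (-Real.pi)
  have h2 : (0 : ℝ) < 2 * Real.pi := by positivity
  have key : ∀ x ∈ (et Γ).π p '' DR c \ (et Γ).π p '' Cell c,
      ∃ y ∈ DR c, y 2 = 0 ∧ (et Γ).π p y = x := by
    rintro _ ⟨⟨y, hy, rfl⟩, h1⟩
    have h3 := (le_div_iff₀ h2).1 (Int.floor_le (y 2 / (2 * Real.pi)))
    have h4 := (div_lt_iff₀ h2).1 (Int.lt_floor_add_one (y 2 / (2 * Real.pi)))
    refine ⟨_, zper_mem (-⌊y 2 / (2 * Real.pi)⌋) hy, by_contra fun h5 => h1
      ⟨_, ⟨zper_mem _ hy, lt_of_le_of_ne ?_ (Ne.symm h5), ?_⟩, q_per p hy _⟩, q_per p hy _⟩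
    · rw [zper_two]; push_cast; linarith
    · rw [zper_two]; push_cast; linarith
  have hs : ∀ y ∈ DR c, y 2 = 0 →
      y ∈ {y | y ∈ DR c ∧ y 2 ∈ Ioo (-Real.pi) (-Real.pi + 2 * Real.pi)} := fun y hy h0 =>
    ⟨hy, by rw [h0]; linarith, by rw [h0]; linarith⟩
  rw [h p _ g _ ((Etale.isOpen_image p isOpen_DR Subset.rfl).measurableSet.diff
    (Etale.isOpen_image p isOpen_Cell fun _ h => h.1).measurableSet) fun x hx =>
      let ⟨y, hy, h0, e⟩ := key x hx; ⟨y, hs y hy h0, e⟩]
  refine setLIntegral_measure_zero _ _ (measure_mono_null ?_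
    (Measure.pi_hyperplane (fun _ : Fin 3 => (volume : Measure ℝ)) 2 0))
  rintro _ ⟨x, hx, rfl⟩
  obtain ⟨y, hy, h0, rfl⟩ := key x hx
  rw [Etale.chart_π g (hs y hy h0)]
  exact h0

/-- The integral of a function that lives on one piece. -/
theorem VolN.piece (h : VolN Γ μ) (p : P) {F : (et Γ).X → ℝ} (hF : Continuous F)
    (hs : ∀ x, F x ≠ 0 → ∃ y ∈ DR c, (et Γ).π p y = x) :
    ∫ x, F x ∂μ = ∫ y in Cell c, F ((et Γ).π p y) * lam c y ^ 2 := by
  rw [← h.setIntegral (good_cell p) hF, ← setIntegral_eq_integral_of_forall_compl_eq_zero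
    (s := (et Γ).π p '' DR c) fun x hx => by_contra fun h' => hx (hs x h')]
  refine setIntegral_congr_set (ae_eq_set.2 ⟨h.null p, ?_⟩)
  rw [sdiff_eq_empty.2 (image_mono fun _ h => h.1), measure_empty]

theorem VolN.locallyFinite (h : VolN Γ μ) : IsLocallyFiniteMeasure μ := by
  refine ⟨fun x => ?_⟩
  obtain ⟨p, y, hy, rfl⟩ := Etale.exists_rep x
  obtain ⟨W, g, hW⟩ := Etale.exists_good p hy
  obtain ⟨K, h1, h2, h3⟩ := local_compact_nhds (g.isOpen.mem_nhds hW)
  refine ⟨_, Etale.image_mem_nhds p hy h1, ?_⟩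
  rw [h p W g _ (isCompact_q p h3 (h2.trans g.sub)).measurableSet (image_mono h2)]
  have h4 : Etale.chart g '' ((et Γ).π p '' K) ⊆ K := by
    rintro _ ⟨_, ⟨z, hz, rfl⟩, rfl⟩
    rwa [Etale.chart_π g (h2 hz)]
  exact (lintegral_mono_set h4).trans_lt (ContinuousOn.integrableOn_compact h3
    ((contDiffOn_lam.continuousOn.mono (h2.trans g.sub)).pow 2)).lintegral_lt_top

theorem sum_etaN {S : Finset P} {x : (et Γ).X} (hS : ∀ p, (∃ y ∈ DR c, (et Γ).π p y = x) → p ∈ S) :
    ∑ p ∈ S, etaN Γ p x = 1 := by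
  classical
  obtain ⟨p, y, hy, rfl⟩ := Etale.exists_rep x
  simp only [etaN_q _ p hy, etaP, Finset.sum_add_distrib]
  rw [Finset.sum_comm]
  simp only [Finset.sum_ite_eq]
  rw [if_pos (hS p ⟨y, hy, rfl⟩), eta, sub_add_eq_add_sub, sub_eq_iff_eq_add, add_right_inj]
  refine Finset.sum_congr rfl fun e _ => ?_
  by_cases h : kap e y = 0
  · rw [h, ite_self]
  · exact if_pos (hS _ (mem_of_kap p hy h))

/-- The integral through the partition of unity. -/
theorem VolN.partition (h : VolN Γ μ) {F : (et Γ).X → ℝ} (hF : Continuous F)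
    (hc : HasCompactSupport F) :
    ∫ x, F x ∂μ = ∑ᶠ p, ∫ y in Cell c, eta c y * F ((et Γ).π p y) * lam c y ^ 2 := by
  have := h.locallyFinite
  have hf := finite_pieces hc
  rw [finsum_eq_sum_of_support_subset (s := hf.toFinset)]
  · have h1 : ∀ x, F x = ∑ p ∈ hf.toFinset, etaN Γ p x * F x := fun x => by
      by_cases h0 : F x = 0
      · simp [h0]
      · rw [← Finset.sum_mul, sum_etaN, one_mul]
        rintro p ⟨y, hy, rfl⟩
        exact hf.mem_toFinset.2 ⟨y, hy, subset_tsupport F h0⟩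
    rw [integral_congr_ae (Eventually.of_forall h1), integral_finsetSum
      (f := fun p x => etaN Γ p x * F x) _ fun p _ =>
      ((continuous_etaN p).mul hF).integrable_of_hasCompactSupport hc.mul_left]
    refine Finset.sum_congr rfl fun p _ => ?_
    rw [h.piece p (F := fun x => etaN Γ p x * F x) ((continuous_etaN p).mul hF)
      fun x hx => mem_of_etaN (left_ne_zero_of_mul hx)]
    refine setIntegral_congr_fun isOpen_Cell.measurableSet fun y hy => ?_
    simp only [etaN_q p p hy.1, etaP_self]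
  · intro p hp
    refine hf.mem_toFinset.2 (by_contra fun h' => hp ?_)
    refine setIntegral_eq_zero_of_forall_eq_zero fun y hy => ?_
    rw [show F ((et Γ).π p y) = 0 from by_contra fun h0 => h' ⟨y, hy.1, subset_tsupport F h0⟩,
      mul_zero, zero_mul]

end

end Pool.Agent.Lib.MP_570070_gt.An
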