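import Pool.Agent.Lib.MP_570070_gt.An.CAct
import Pool.Agent.Lib.MP_570070_gt.An.CDic
import Pool.Agent.Lib.MP_570070_gt.An.CInt

open MeasureTheory Filter Topology Set
open scoped ContDiff InnerProductSpace

namespace Pool.Agent.Lib.MP_570070_gt.An

section

variable {c : Par} {P : Type} {Γ : Gl c P} [Nonempty P] [Countable P]

theorem continuous_ipAt_down {k : ℕ} {Ω Ω' : Fam P k} (h : IsT Γ Ω) (h' : IsT Γ Ω') :
    Continuous (ipAt (X := mfd Γ) (down Γ Ω) (down Γ Ω')) :=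
  Etale.continuous_iff.2 fun p => (continuousOn_ipUp (h.smooth p).continuousOn
    (h'.smooth p).continuousOn).congr fun _ hy => ipAt_down h h' p hy

theorem ne_of_ipAt_down {k : ℕ} {Ω Ω' : Fam P k} {x : (et Γ).X}
    (h : ipAt (X := mfd Γ) (down Γ Ω) (down Γ Ω') x ≠ 0) : down Γ Ω x ≠ 0 := fun h' => h (by
  simp [ipAt, ipAlt, h'])

/-- The L2 spaces of the manifold seen from upstairs. -/
noncomputable def upL2 (L : L2 (mfd Γ)) : UpL2 Γ where
  H := L.H
  j k Ω := L.ι k (down Γ Ω)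
  inner_eq k Ω Ω' h h' := by
    rw [L.inner_eq k _ _ (isTest_down h) (isTest_down h'),
      (volN_of_isVolume L.vol).partition (continuous_ipAt_down h h')
        ((hasCompactSupport_down h).mono fun _ => ne_of_ipAt_down)]
    refine finsum_congr fun p => setIntegral_congr_fun isOpen_Cell.measurableSet fun y hy => ?_
    simp only [ipAt_down h h' p hy.1]
  piece k p₀ Ω Ω' h h' hp := by
    rw [L.inner_eq k _ _ (isTest_down h) (isTest_down h'),
      (volN_of_isVolume L.vol).piece p₀ (continuous_ipAt_down h h')]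
    · refine setIntegral_congr_fun isOpen_Cell.measurableSet fun y hy => ?_
      simp only [ipAt_down h h' p₀ hy.1]
    · intro x hx
      obtain ⟨p, y, hy, rfl⟩ := Etale.exists_rep x
      rcases hp p y hy (ne_of_down h hy (ne_of_ipAt_down hx)) with rfl | ⟨e, rfl, he⟩
      · exact ⟨y, hy, rfl⟩
      · exact ⟨_, (flip_flipPt hy he).2.1, q_flip p (flip_flipPt hy he)⟩
  dense k := (L.dense k).mono (by
    rintro _ ⟨α, hα, rfl⟩
    exact ⟨up α, isT_up hα, congrArg (L.ι k) (down_up α)⟩)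

theorem upL2_D (L : L2 (mfd Γ)) : (upL2 L).D = L.D := by
  funext k a b
  refine propext ⟨?_, ?_⟩
  · rintro ⟨Ω, h, h1, h2⟩
    exact ⟨down Γ Ω, isTest_down h, h1, by rw [extD_down h]; exact h2⟩
  · rintro ⟨α, h, h1, h2⟩
    refine ⟨up α, isT_up h, h1.trans (congrArg (L.ι k) (down_up α).symm), h2.trans ?_⟩
    refine congrArg (L.ι (k + 1)) ?_
    rw [← extD_down (isT_up h), down_up]

theorem upL2_on (L : L2 (mfd Γ)) (k : ℕ) (S : Set P) : (upL2 L).on k S = L.on k (core Γ S) := by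
  refine congrArg closure (Subset.antisymm ?_ ?_)
  · rintro _ ⟨Ω, ⟨h, h1⟩, rfl⟩
    exact ⟨down Γ Ω, ⟨isTest_down h, tsupport_down h h1⟩, rfl⟩
  · rintro _ ⟨α, ⟨h, h1⟩, rfl⟩
    exact ⟨up α, ⟨isT_up h, suppIn_up h.2 h1⟩, congrArg (L.ι k) (down_up α)⟩

theorem upTorsion_of {S : Set P} {ρ : ℝ} (h : IsTorsion (mfd Γ) (core Γ S) ρ) :
    UpTorsion Γ S ρ := by
  obtain ⟨L, Pt, I, h1, h2, h3⟩ := h
  refine ⟨upL2 L, Pt, I, fun k => ?_, fun k hk => ?_, h3⟩
  · rw [upL2_D]
    exact h1 k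
  · rw [upL2_on]
    exact h2 k hk

end

/-- Block C: the manifolds, the actions, the coverings and the dictionary. -/
theorem exists_geometry (c : Par) {G : Type} [Group G] [Countable G] (g : Ed c → G)
    (K : ℕ → Subgroup G) [∀ i, (K i).Normal] :
    ∃ (X : RMfd 3) (_ : MulAction G X.M) (F : Set X.M) (Y : ℕ → RMfd 3)
      (_ : ∀ i, MulAction (G ⧸ K i) (Y i).M) (π : ∀ i, X.M → (Y i).M) (F' : ∀ i, Set (Y i).M),
      IsAction G X ∧ IsFund G X F ∧ (∀ i, IsQuot (K i) X (Y i) (π i)) ∧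
      (∀ i, IsFund (G ⧸ K i) (Y i) (F' i)) ∧
      (∀ ρ, IsTorsion X F ρ → UpTorsion (grpGl c g) (base G) ρ) ∧
      ∀ i ρ, IsTorsion (Y i) (F' i) ρ →
        UpTorsion (grpGl c fun e => (g e : G ⧸ K i)) (base (G ⧸ K i)) ρ := by
  choose π hπ using fun i => exists_quot (g := g) (K i)
  exact ⟨mfd (grpGl c g), actN g, core _ (base G), fun i => mfd (grpGl c fun e => (g e : G ⧸ K i)),
    fun i => actN _, π, fun i => core _ (base (G ⧸ K i)), isAction_grp, isFund_grp, hπ,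
    fun _ => isFund_grp, fun _ => upTorsion_of, fun _ _ => upTorsion_of⟩

end Pool.Agent.Lib.MP_570070_gt.An
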