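import Mathlib

open MeasureTheory Filter Topology Set
open scoped ContDiff InnerProductSpace

namespace Pool.Agent.Lib.MP_570070_gt.An

variable {P E : Type} [Fintype P] [DecidableEq P] [Fintype E]

open Relation in
omit [Fintype P] [DecidableEq P] in
theorem clus_mono {R R' : P → P → Prop} {a b : P} (h : ReflTransGen R a b)
    (h' : ∀ a b, R a b → R' a b) : ReflTransGen R' a b := by
  induction h with
  | refl => exact ReflTransGen.refl
  | tail _ hb ih => exact ih.tail (h' _ _ hb)

open Relation in
omit [Fintype P] [DecidableEq P] [Fintype E] in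
theorem clus_dep (σ : E → P → P) (r : P)
    (conn : ∀ p, ReflTransGen (fun a b => ∃ e, σ e a = b) p r) :
    ∃ dep : P → ℕ, ∀ q, ReflTransGen (fun a b => (∃ e, σ e a = b) ∧ dep b < dep a) q r := by
  classical
  have h : ∀ q, ∃ n, ∃ l : List E, l.length = n ∧ l.foldl (fun a e => σ e a) q = r := by
    intro q
    induction conn q using ReflTransGen.head_induction_on with
    | refl => exact ⟨0, [], rfl, rfl⟩
    | head hab _ ih =>
      obtain ⟨e, rfl⟩ := hab
      obtain ⟨n, l, hl, h⟩ := ih
      exact ⟨n + 1, e :: l, by simp [hl], h⟩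
  refine ⟨fun q => Nat.find (h q), fun q₀ => ?_⟩
  suffices H : ∀ n q, Nat.find (h q) = n → ReflTransGen
      (fun a b => (∃ e, σ e a = b) ∧ Nat.find (h b) < Nat.find (h a)) q r from H _ q₀ rfl
  intro n
  induction n using Nat.strong_induction_on with
  | _ n ih =>
    intro q hn
    obtain ⟨l, hl, hq⟩ := Nat.find_spec (h q)
    cases l with
    | nil =>
      have hqr : q = r := hq
      rw [hqr]
    | cons e l =>
      have h1 : Nat.find (h (σ e q)) ≤ l.length := Nat.find_min' _ ⟨l, rfl, hq⟩
      have h2 : Nat.find (h (σ e q)) < Nat.find (h q) := by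
        rw [← hl, List.length_cons]; omega
      exact ReflTransGen.head ⟨⟨e, rfl⟩, h2⟩ (ih _ (hn ▸ h2) _ rfl)

open Relation Classical in
omit [Fintype P] [DecidableEq P] in
theorem clus_bound (σ : E → P → P) (hσ : ∀ e p, σ e (σ e p) = p) {R : P → P → Prop}
    (hR : ∀ a b, R a b → ∃ e, σ e a = b) (S : Finset P) {L : ℕ} (p : P)
    (h : ∀ q, R q p → (S.filter fun a => ReflTransGen R a q).card ≤ L) :
    (S.filter fun a => ReflTransGen R a p).card ≤ Fintype.card E * L + 1 := by
  have hsub : (S.filter fun a => ReflTransGen R a p) ⊆ insert p (Finset.univ.biUnion fun e =>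
      if R (σ e p) p then S.filter fun a => ReflTransGen R a (σ e p) else ∅) := by
    intro a ha
    rw [Finset.mem_filter] at ha
    rcases ha.2.cases_tail with rfl | ⟨c, hc, hcp⟩
    · exact Finset.mem_insert_self _ _
    · obtain ⟨e, he⟩ := hR c p hcp
      have hc' : σ e p = c := by rw [← he, hσ]
      refine Finset.mem_insert_of_mem (Finset.mem_biUnion.2 ⟨e, Finset.mem_univ _, ?_⟩)
      rw [hc', if_pos hcp]
      exact Finset.mem_filter.2 ⟨ha.1, hc⟩
  refine (Finset.card_le_card hsub).trans ((Finset.card_insert_le _ _).trans ?_)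
  refine Nat.add_le_add_right (Finset.card_biUnion_le_card_mul _ _ _ fun e _ => ?_) 1
  split_ifs with he
  · exact h _ he
  · simp

open Relation in
omit [Fintype P] [DecidableEq P] in
theorem clus_closed {R : P → P → Prop} {S : Finset P} (hS : ∀ a ∈ S, ∀ b, R a b → b ∈ S)
    {q p : P} (h : ReflTransGen R q p) (hq : q ∈ S) : p ∈ S := by
  induction h with
  | refl => exact hq
  | tail _ hb ih => exact hS _ ih _ hb

open Relation in
omit [Fintype P] [DecidableEq P] in
theorem clus_path {R : P → P → Prop} {S : Finset P} (hS : ∀ a ∈ S, ∀ b, R a b → b ∈ S)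
    {q p : P} (h : ReflTransGen R q p) (hq : q ∈ S) :
    ReflTransGen (fun a b => (a ∈ S ∧ ReflTransGen R a p) ∧ (b ∈ S ∧ ReflTransGen R b p) ∧ R a b)
      q p := by
  induction h using ReflTransGen.head_induction_on with
  | refl => exact ReflTransGen.refl
  | head hab hb ih =>
    exact ReflTransGen.head ⟨⟨hq, hb.head hab⟩, ⟨hS _ hq _ hab, hb⟩, hab⟩ (ih (hS _ hq _ hab))

open Relation in
theorem clus_main (σ : E → P → P) (hσ : ∀ e p, σ e (σ e p) = p) {R : P → P → Prop}
    (hR : ∀ a b, R a b → ∃ e, σ e a = b) (dep : P → ℕ) (hd : ∀ a b, R a b → dep b < dep a)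
    (r : P) (hr : ∀ q, ReflTransGen R q r) {L : ℕ} (hL : 1 ≤ L) (S : Finset P)
    (hS : ∀ a ∈ S, ∀ b, R a b → b ∈ S) :
    ∃ cl : P → P, (∀ q ∈ S, cl q ∈ S) ∧ (S.image cl).card * L ≤ S.card + L ∧
      (∀ x, (S.filter fun p => cl p = x).card ≤ Fintype.card E * L + 1) ∧
      ∀ p ∈ S, ReflTransGen
        (fun a b => a ∈ S ∧ b ∈ S ∧ cl a = cl p ∧ cl b = cl p ∧ ∃ e, σ e a = b) p (cl p) := by
  classical
  induction S using Finset.strongInduction with
  | H S ih =>
  by_cases hex : (Finset.univ.filter fun p =>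
      L ≤ (S.filter fun a => ReflTransGen R a p).card).Nonempty
  · obtain ⟨p, hp, hmax⟩ := Finset.exists_max_image _ dep hex
    set D := S.filter fun a => ReflTransGen R a p with hD
    have hLD : L ≤ D.card := (Finset.mem_filter.1 hp).2
    have hDb : D.card ≤ Fintype.card E * L + 1 := by
      refine le_trans (le_of_eq ?_) (clus_bound σ hσ hR S p fun q hq => ?_)
      · rw [hD]
      · by_contra hc
        have h1 := hmax q (Finset.mem_filter.2 ⟨Finset.mem_univ _, by
          convert (not_le.1 hc).le⟩)
        exact absurd (hd q p hq) (not_lt.2 h1)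
    have hpD : p ∈ D := by
      obtain ⟨q, hq⟩ := Finset.card_pos.1 (lt_of_lt_of_le hL hLD)
      rw [hD, Finset.mem_filter] at hq
      exact Finset.mem_filter.2 ⟨clus_closed hS hq.2 hq.1, ReflTransGen.refl⟩
    have hDS : D ⊆ S := Finset.filter_subset _ _
    have hcl : ∀ a ∈ S \ D, ∀ b, R a b → b ∈ S \ D := fun a ha b hab => by
      rw [Finset.mem_sdiff] at ha ⊢
      exact ⟨hS a ha.1 b hab, fun hb =>
        ha.2 (Finset.mem_filter.2 ⟨ha.1, (Finset.mem_filter.1 hb).2.head hab⟩)⟩
    obtain ⟨c, h1, h2, h3, h4⟩ := ih (S \ D) (Finset.sdiff_ssubset hDS ⟨p, hpD⟩) hcl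
    refine ⟨fun q => if q ∈ D then p else c q, fun q hq => ?_, ?_, fun x => ?_, fun q hq => ?_⟩
    · dsimp only
      split_ifs with h
      · exact hDS hpD
      · exact (Finset.mem_sdiff.1 (h1 q (Finset.mem_sdiff.2 ⟨hq, h⟩))).1
    · have hsub : S.image (fun q => if q ∈ D then p else c q) ⊆ insert p ((S \ D).image c) := by
        intro x hx
        obtain ⟨q, hq, rfl⟩ := Finset.mem_image.1 hx
        split_ifs with h
        · exact Finset.mem_insert_self _ _
        · exact Finset.mem_insert_of_mem (Finset.mem_image_of_mem _ (Finset.mem_sdiff.2 ⟨hq, h⟩))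
      have h5 := (Finset.card_le_card hsub).trans (Finset.card_insert_le _ _)
      have h6 := Finset.card_sdiff_add_card_eq_card hDS
      have h7 := Nat.mul_le_mul_right L h5
      rw [Nat.add_mul, Nat.one_mul] at h7
      omega
    · by_cases hx : x = p
      · refine le_trans (Finset.card_le_card fun q hq => ?_) hDb
        rw [Finset.mem_filter] at hq
        by_contra h
        have h5 := h1 q (Finset.mem_sdiff.2 ⟨hq.1, h⟩)
        have h6 : c q = p := by simpa [h, hx] using hq.2
        exact (Finset.mem_sdiff.1 h5).2 (h6 ▸ hpD)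
      · refine le_trans (Finset.card_le_card fun q hq => ?_) (h3 x)
        rw [Finset.mem_filter] at hq ⊢
        by_cases h : q ∈ D
        · exact absurd (by simpa [h] using hq.2.symm) hx
        · exact ⟨Finset.mem_sdiff.2 ⟨hq.1, h⟩, by simpa [h] using hq.2⟩
    · by_cases h : q ∈ D
      · simp only [if_pos h]
        refine clus_mono (clus_path hS (Finset.mem_filter.1 h).2 hq) fun a b hab => ?_
        exact ⟨hab.1.1, hab.2.1.1, if_pos (Finset.mem_filter.2 hab.1),
          if_pos (Finset.mem_filter.2 hab.2.1), hR a b hab.2.2⟩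
      · simp only [if_neg h]
        refine clus_mono (h4 q (Finset.mem_sdiff.2 ⟨hq, h⟩)) fun a b hab => ?_
        have ha := Finset.mem_sdiff.1 hab.1
        have hb := Finset.mem_sdiff.1 hab.2.1
        exact ⟨ha.1, hb.1, (if_neg ha.2).trans hab.2.2.1, (if_neg hb.2).trans hab.2.2.2.1,
          hab.2.2.2.2⟩
  · refine ⟨fun _ => r, fun q hq => clus_closed hS (hr q) hq, ?_, fun x => ?_, fun q hq => ?_⟩
    · have h5 : (S.image fun _ => r).card ≤ 1 :=
        Finset.card_le_one.2 fun a ha b hb => by
          obtain ⟨_, _, rfl⟩ := Finset.mem_image.1 ha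
          obtain ⟨_, _, h⟩ := Finset.mem_image.1 hb
          exact h
      have h7 := Nat.mul_le_mul_right L h5
      omega
    · refine le_trans (Finset.card_le_card fun q hq => ?_) (clus_bound σ hσ hR S r fun q _ => ?_)
      · exact Finset.mem_filter.2 ⟨(Finset.mem_filter.1 hq).1, hr q⟩
      · by_contra hc
        exact hex ⟨q, Finset.mem_filter.2 ⟨Finset.mem_univ _, by convert (not_le.1 hc).le⟩⟩
    · exact clus_mono (clus_path hS (hr q) hq) fun a b hab =>
        ⟨hab.1.1, hab.2.1.1, rfl, rfl, hR a b hab.2.2⟩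

/-- Clusters. Fix a root, let dep p be the distance to the root and par p a neighbour of smaller
depth; p has at most card E children (a child is σ e p for some e). Define by recursion from the
leaves w p = 1 + ∑ of w q over the children q with w q < L, so w p ≤ card E * L + 1. Centres are
the root and the p with L ≤ w p; cl p is the first centre on the way to the root; the cluster of a
centre x has w x elements. Any other proof is welcome (for instance induction on a connected
finite set, cutting off a minimal connected piece with at least L points and connected rest). -/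
theorem exists_cluster (σ : E → P → P) (hσ : ∀ e p, σ e (σ e p) = p)
    (conn : ∀ p q, Relation.ReflTransGen (fun a b => ∃ e, σ e a = b) p q) {L : ℕ} (hL : 1 ≤ L) :
    ∃ cl : P → P, ((Finset.univ.image cl).card : ℝ) ≤ Fintype.card P / L + 1 ∧
      (∀ x, (Finset.univ.filter fun p => cl p = x).card ≤ Fintype.card E * L + 1) ∧
      ∀ p, Relation.ReflTransGen (fun a b => cl a = cl p ∧ cl b = cl p ∧ ∃ e, σ e a = b) p
        (cl p) := by
  rcases isEmpty_or_nonempty P with hP | ⟨⟨r⟩⟩
  · exact ⟨id, by simp, fun x => isEmptyElim x, fun x => isEmptyElim x⟩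
  obtain ⟨dep, hr⟩ := clus_dep σ r fun p => conn p r
  obtain ⟨cl, -, h2, h3, h4⟩ := clus_main σ hσ (fun a b h => h.1) dep (fun a b h => h.2) r hr hL
    Finset.univ fun _ _ _ _ => Finset.mem_univ _
  refine ⟨cl, ?_, h3, fun p => clus_mono (h4 p (Finset.mem_univ _)) fun a b h => h.2.2⟩
  have hL' : (0 : ℝ) < L := by exact_mod_cast hL
  rw [div_add_one hL'.ne', le_div_iff₀ hL']
  exact_mod_cast h2

end Pool.Agent.Lib.MP_570070_gt.An
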