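import Pool.Agent.Lib.MP_570070_gt.An.Wedge

open MeasureTheory Filter Topology Set
open scoped ContDiff InnerProductSpace

namespace Pool.Agent.Lib.MP_570070_gt.An

variable {c : Par} {y : Eu 3}

theorem f0_apply (h : ℝ) (v : Fin 0 → Eu 3) : f0 h v = h := rfl
theorem f1_apply (a : Eu 3) (v : Fin 1 → Eu 3) :
    f1 a v = a 0 * v 0 0 + a 1 * v 0 1 + a 2 * v 0 2 := by
  simp [f1, wedge_apply, Fin.sum_univ_three, f0_apply, dx]
theorem f2_apply (b : Eu 3) (v : Fin 2 → Eu 3) :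
    f2 b v = b 0 * (v 0 1 * v 1 2 - v 0 2 * v 1 1) + b 1 * (v 0 2 * v 1 0 - v 0 0 * v 1 2) +
      b 2 * (v 0 0 * v 1 1 - v 0 1 * v 1 0) := by
  simp [f2, wedge_apply, f1_apply, dx, bas, Fin.removeNth, Fin.succAbove]
  ring
theorem f3_apply (h : ℝ) (v : Fin 3 → Eu 3) :
    f3 h v = h * (v 0 0 * (v 1 1 * v 2 2 - v 1 2 * v 2 1) - v 1 0 * (v 0 1 * v 2 2 - v 0 2 * v 2 1) +
      v 2 0 * (v 0 1 * v 1 2 - v 0 2 * v 1 1)) := by
  simp [f3, wedge_apply, f2_apply, dx, bas, Fin.removeNth, Fin.succAbove, Fin.sum_univ_three]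
  left
  ring

@[simp] theorem c0_f0 (h : ℝ) : c0 (f0 h) = h := rfl
@[simp] theorem c1_f1 (a : Eu 3) : c1 (f1 a) = a := by
  funext i
  fin_cases i <;> simp [c1, f1_apply, bas]
@[simp] theorem c2_f2 (b : Eu 3) : c2 (f2 b) = b := by
  funext i
  fin_cases i <;> simp [c2, f2_apply, bas]
@[simp] theorem c3_f3 (h : ℝ) : c3 (f3 h) = h := by
  simp [c3, f3_apply, bas]

theorem comp_ext {k : ℕ} {α β : Alt 3 k} (h : ∀ I : Fin k → Fin 3, Function.Injective I →
    α (fun l => bas (I l)) = β fun l => bas (I l)) : α = β :=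
  ContinuousAlternatingMap.toAlternatingMap_injective
    (Module.Basis.ext_alternating (Pi.basisFun ℝ (Fin 3)) fun I hI => by
      simpa [bas] using h I hI)

theorem comp_swap (α : Alt 3 2) (u v : Eu 3) : α ![u, v] = -α ![v, u] := by
  have h := α.toAlternatingMap.map_swap ![v, u] (i := 0) (j := 1) (by decide)
  have e : ![v, u] ∘ Equiv.swap (0 : Fin 2) 1 = ![u, v] := by
    funext l
    fin_cases l <;> rfl
  rw [e] at h
  exact h

theorem comp_ext1 {α β : Alt 3 1} (h : c1 α = c1 β) : α = β := comp_ext fun I _ => by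
  have e : (fun l => (bas (I l) : Eu 3)) = ![bas (I 0)] := by
    funext l
    fin_cases l
    rfl
  rw [e]
  exact congrFun h (I 0)

theorem comp_ext2 {α β : Alt 3 2} (h : c2 α = c2 β) : α = β := comp_ext fun I hI => by
  have e : (fun l => (bas (I l) : Eu 3)) = ![bas (I 0), bas (I 1)] := by
    funext l
    fin_cases l <;> rfl
  have h0 : α ![bas 1, bas 2] = β ![bas 1, bas 2] := congrFun h 0
  have h1 : α ![bas 2, bas 0] = β ![bas 2, bas 0] := congrFun h 1
  have h2 : α ![bas 0, bas 1] = β ![bas 0, bas 1] := congrFun h 2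
  have h3 : α ![bas 2, bas 1] = β ![bas 2, bas 1] := by rw [comp_swap α, comp_swap β, h0]
  have h4 : α ![bas 0, bas 2] = β ![bas 0, bas 2] := by rw [comp_swap α, comp_swap β, h1]
  have h5 : α ![bas 1, bas 0] = β ![bas 1, bas 0] := by rw [comp_swap α, comp_swap β, h2]
  have hne : I 0 ≠ I 1 := hI.ne (by decide)
  rw [e]
  generalize I 0 = a at hne
  generalize I 1 = b at hne
  fin_cases a <;> fin_cases b <;> first | exact absurd rfl hne | assumption

theorem comp_ext3 {α β : Alt 3 3} (h : c3 α = c3 β) : α = β := by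
  have e : ⇑(Pi.basisFun ℝ (Fin 3)) = ![bas 0, bas 1, bas 2] := by
    funext l
    fin_cases l <;> simp [bas]
  refine ContinuousAlternatingMap.toAlternatingMap_injective ?_
  rw [α.toAlternatingMap.eq_smul_basis_det (Pi.basisFun ℝ (Fin 3)),
    β.toAlternatingMap.eq_smul_basis_det (Pi.basisFun ℝ (Fin 3)), e]
  exact congrArg (· • _) h

/-- Expand the arguments in the basis bas and use multilinearity and map_swap, map_eq_zero_of_eq. -/
@[simp] theorem f0_c0 (α : Alt 3 0) : f0 (c0 α) = α := by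
  ext v
  rw [f0_apply, c0, Subsingleton.elim v ![]]
@[simp] theorem f1_c1 (α : Alt 3 1) : f1 (c1 α) = α :=
  comp_ext1 (c1_f1 _)
@[simp] theorem f2_c2 (α : Alt 3 2) : f2 (c2 α) = α :=
  comp_ext2 (c2_f2 _)
@[simp] theorem f3_c3 (α : Alt 3 3) : f3 (c3 α) = α :=
  comp_ext3 (c3_f3 _)

theorem f0_add (a b : ℝ) : f0 (a + b) = f0 a + f0 b := by
  ext v
  simp [f0_apply]
theorem f1_add (a b : Eu 3) : f1 (a + b) = f1 a + f1 b := by
  ext v
  simp [f1_apply]
  ring
theorem f2_add (a b : Eu 3) : f2 (a + b) = f2 a + f2 b := by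
  ext v
  simp [f2_apply]
  ring
theorem f3_add (a b : ℝ) : f3 (a + b) = f3 a + f3 b := add_smul _ _ _
theorem f0_smul (t a : ℝ) : f0 (t * a) = t • f0 a := by
  ext v
  simp [f0_apply]
theorem f1_smul (t : ℝ) (a : Eu 3) : f1 (t • a) = t • f1 a := by
  ext v
  simp [f1_apply]
  ring
theorem f2_smul (t : ℝ) (a : Eu 3) : f2 (t • a) = t • f2 a := by
  ext v
  simp [f2_apply]
  ring
theorem f3_smul (t a : ℝ) : f3 (t * a) = t • f3 a := mul_smul _ _ _
@[simp] theorem f0_zero : f0 0 = 0 := by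
  ext v
  simp [f0_apply]
@[simp] theorem f1_zero : f1 0 = 0 := by simp [f1]
@[simp] theorem f2_zero : f2 0 = 0 := by simp [f2]
@[simp] theorem f3_zero : f3 0 = 0 := zero_smul _ _
theorem c0_add (α β : Alt 3 0) : c0 (α + β) = c0 α + c0 β := rfl
theorem c1_add (α β : Alt 3 1) : c1 (α + β) = c1 α + c1 β := rfl
theorem c2_add (α β : Alt 3 2) : c2 (α + β) = c2 α + c2 β := by
  funext i
  fin_cases i <;> rfl
theorem c3_add (α β : Alt 3 3) : c3 (α + β) = c3 α + c3 β := rfl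
theorem c0_smul (t : ℝ) (α : Alt 3 0) : c0 (t • α) = t * c0 α := rfl
theorem c1_smul (t : ℝ) (α : Alt 3 1) : c1 (t • α) = t • c1 α := rfl
theorem c2_smul (t : ℝ) (α : Alt 3 2) : c2 (t • α) = t • c2 α := by
  funext i
  fin_cases i <;> rfl
theorem c3_smul (t : ℝ) (α : Alt 3 3) : c3 (t • α) = t * c3 α := rfl
@[simp] theorem c0_zero : c0 0 = 0 := rfl
@[simp] theorem c1_zero : c1 0 = 0 := rfl
@[simp] theorem c2_zero : c2 0 = 0 := by
  funext i
  fin_cases i <;> rfl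
@[simp] theorem c3_zero : c3 0 = 0 := rfl

theorem comp_ev {k : ℕ} (v : Fin k → Eu 3) : ContDiff ℝ ∞ fun α : Alt 3 k => α v :=
  (ContinuousAlternatingMap.apply ℝ (Eu 3) ℝ v).contDiff

/-- All eight maps are linear maps between finite dimensional spaces. -/
theorem contDiff_f0 : ContDiff ℝ ∞ f0 :=
  (IsLinearMap.mk' f0 ⟨f0_add, f0_smul⟩).toContinuousLinearMap.contDiff
theorem contDiff_f1 : ContDiff ℝ ∞ f1 :=
  (IsLinearMap.mk' f1 ⟨f1_add, f1_smul⟩).toContinuousLinearMap.contDiff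
theorem contDiff_f2 : ContDiff ℝ ∞ f2 :=
  (IsLinearMap.mk' f2 ⟨f2_add, f2_smul⟩).toContinuousLinearMap.contDiff
theorem contDiff_f3 : ContDiff ℝ ∞ f3 :=
  (IsLinearMap.mk' f3 ⟨f3_add, f3_smul⟩).toContinuousLinearMap.contDiff
theorem contDiff_c0 : ContDiff ℝ ∞ c0 := comp_ev _
theorem contDiff_c1 : ContDiff ℝ ∞ c1 := contDiff_pi.2 fun _ => comp_ev _
theorem contDiff_c2 : ContDiff ℝ ∞ c2 := contDiff_pi.2 fun i => by
  fin_cases i <;> exact comp_ev _
theorem contDiff_c3 : ContDiff ℝ ∞ c3 := comp_ev _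

theorem comp_sum {k : ℕ} (F : (Fin (k + 1) → Fin 3) → ℝ) :
    ∑ I, F I = ∑ a, ∑ J : Fin k → Fin 3, F (Matrix.vecCons a J) := by
  rw [← (Fin.consEquiv fun _ => Fin 3).sum_comp, Fintype.sum_prod_type]
  rfl

theorem ipUp_zero_deg (α β : Alt 3 0) : ipUp c y α β = c0 α * c0 β := by
  rw [← f0_c0 α, ← f0_c0 β, ipUp]
  simp only [f0_apply, c0_f0]
  simp
theorem ipUp_one_deg (α β : Alt 3 1) : ipUp c y α β =
    (lam c y ^ 2)⁻¹ * (c1 α 0 * c1 β 0 + c1 α 1 * c1 β 1) + c1 α 2 * c1 β 2 := by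
  rw [← f1_c1 α, ← f1_c1 β, ipUp]
  simp only [comp_sum, Fin.sum_univ_three, Finset.univ_unique, Finset.sum_singleton, f1_apply, c1_f1]
  simp [fr, bas]
  ring
theorem ipUp_two_deg (α β : Alt 3 2) : ipUp c y α β =
    (lam c y ^ 2)⁻¹ * (c2 α 0 * c2 β 0 + c2 α 1 * c2 β 1) +
      (lam c y ^ 2)⁻¹ ^ 2 * (c2 α 2 * c2 β 2) := by
  rw [← f2_c2 α, ← f2_c2 β, ipUp]
  simp only [comp_sum, Fin.sum_univ_three, Finset.univ_unique, Finset.sum_singleton, f2_apply, c2_f2]
  simp [fr, bas, Nat.factorial]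
  ring
theorem ipUp_three_deg (α β : Alt 3 3) :
    ipUp c y α β = (lam c y ^ 2)⁻¹ ^ 2 * (c3 α * c3 β) := by
  rw [← f3_c3 α, ← f3_c3 β, ipUp]
  simp only [comp_sum, Fin.sum_univ_three, Finset.univ_unique, Finset.sum_singleton, f3_apply, c3_f3]
  simp [fr, bas, Nat.factorial]
  ring

/-- extDeriv_apply. -/
theorem c1_extDeriv {α : Eu 3 → Alt 3 0} (h : DifferentiableAt ℝ α y) :
    c1 (extDeriv α y) = grad (fun z => c0 (α z)) y := by
  funext i
  have h0 : (0 : Fin 1).removeNth ![(bas i : Eu 3)] = ![] := Subsingleton.elim _ _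
  rw [c1, extDeriv_apply h, Fin.sum_univ_one, h0]
  simp [grad, pd, c0]
theorem c2_extDeriv {α : Eu 3 → Alt 3 1} (h : DifferentiableAt ℝ α y) :
    c2 (extDeriv α y) = curl (fun z => c1 (α z)) y := by
  have e : ∀ i j, extDeriv α y ![bas i, bas j] =
      pd i (fun z => c1 (α z) j) y - pd j (fun z => c1 (α z) i) y := fun i j => by
    have h0 : (0 : Fin 2).removeNth ![(bas i : Eu 3), bas j] = ![bas j] := by
      funext l
      fin_cases l
      rfl
    have h1 : (1 : Fin 2).removeNth ![(bas i : Eu 3), bas j] = ![bas i] := by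
      funext l
      fin_cases l
      rfl
    rw [extDeriv_apply h, Fin.sum_univ_two, h0, h1]
    simp [pd, c1, sub_eq_add_neg]
  rw [c2, e, e, e, curl]
theorem c3_extDeriv {α : Eu 3 → Alt 3 2} (h : DifferentiableAt ℝ α y) :
    c3 (extDeriv α y) = dvg (fun z => c2 (α z)) y := by
  have h0 : (0 : Fin 3).removeNth ![(bas 0 : Eu 3), bas 1, bas 2] = ![bas 1, bas 2] := by
    funext l
    fin_cases l <;> rfl
  have h1 : (1 : Fin 3).removeNth ![(bas 0 : Eu 3), bas 1, bas 2] = ![bas 0, bas 2] := by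
    funext l
    fin_cases l <;> rfl
  have h2 : (2 : Fin 3).removeNth ![(bas 0 : Eu 3), bas 1, bas 2] = ![bas 0, bas 1] := by
    funext l
    fin_cases l <;> rfl
  have h3 : (fun z => α z ![bas 0, bas 2]) = fun z => -α z ![bas 2, bas 0] :=
    funext fun z => comp_swap _ _ _
  rw [c3, extDeriv_apply h, Fin.sum_univ_three, h0, h1, h2, h3, fderiv_fun_neg, dvg,
    Fin.sum_univ_three]
  simp [pd, c2]

end Pool.Agent.Lib.MP_570070_gt.An
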