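import Mathlib

/-!
Definitions for the analytic L2-torsion of a Riemannian manifold with a free cocompact action.
All analytic objects (volume, L2 spaces, Laplacian, heat flow) are characterised by predicates.
-/

open MeasureTheory Filter Topology Set
open scoped Manifold ContDiff InnerProductSpace Pointwise

namespace Pool.Agent.Lib.MP_570070_gt.An

noncomputable section

/-- The model space. -/
abbrev Eu (n : ℕ) : Type := Fin n → ℝ

/-- Alternating k-forms on the model space. -/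
abbrev Alt (n k : ℕ) : Type := Eu n [⋀^Fin k]→L[ℝ] ℝ

/-- The standard basis vectors. -/
def bas {n : ℕ} (i : Fin n) : Eu n := Pi.single i 1

/-- The differential of the inverse of a chart: coordinates at y to the tangent space at the
point with coordinates y (the tangent space of Mathlib is the model space by definition). -/
def tang {n : ℕ} {M : Type} [TopologicalSpace M] [ChartedSpace (Eu n) M]
    (e : OpenPartialHomeomorph M (Eu n)) (y : Eu n) : Eu n →L[ℝ] Eu n :=
  mfderiv 𝓘(ℝ, Eu n) 𝓘(ℝ, Eu n) e.symm y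

/-- Bilinear forms on the model space. -/
abbrev Bil (n : ℕ) : Type := Eu n →L[ℝ] Eu n →L[ℝ] ℝ

/-- The value of a bilinear form. -/
def ev {n : ℕ} (g : Bil n) (v w : Eu n) : ℝ := g v w

/-- The Gram matrix of a bilinear form on the images of the basis vectors under T. -/
def gram {n : ℕ} (g : Bil n) (T : Eu n → Eu n) : Matrix (Fin n) (Fin n) ℝ :=
  Matrix.of fun i j => ev g (T (bas i)) (T (bas j))

/-- A smooth Riemannian manifold of dimension n without boundary. -/
structure RMfd (n : ℕ) where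
  M : Type
  [top : TopologicalSpace M]
  [t2 : T2Space M]
  [sc : SecondCountableTopology M]
  [ch : ChartedSpace (Eu n) M]
  [mf : IsManifold 𝓘(ℝ, Eu n) ∞ M]
  g : M → Bil n
  symm : ∀ x v w, ev (g x) v w = ev (g x) w v
  pos : ∀ x v, v ≠ 0 → 0 < ev (g x) v v
  smooth : ∀ e ∈ atlas (Eu n) M, ∀ i j,
    ContDiffOn ℝ ∞ (fun y => gram (g (e.symm y)) (tang e y) i j) e.target

attribute [instance] RMfd.top RMfd.t2 RMfd.sc RMfd.ch RMfd.mf

instance RMfd.meas {n : ℕ} (X : RMfd n) : MeasurableSpace X.M := borel X.M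

instance RMfd.borel {n : ℕ} (X : RMfd n) : BorelSpace X.M := ⟨rfl⟩

section forms

variable {n k : ℕ} {X : RMfd n}

/-- Differential k-forms (no regularity). -/
abbrev Form (X : RMfd n) (k : ℕ) : Type := X.M → Alt n k

/-- The expression of a form in a chart. -/
def inChart (α : Form X k) (e : OpenPartialHomeomorph X.M (Eu n)) (y : Eu n) : Alt n k :=
  (α (e.symm y)).compContinuousLinearMap (tang e y)

/-- Smooth compactly supported forms. -/
def IsTest (α : Form X k) : Prop :=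
  (∀ e ∈ atlas (Eu n) X.M, ContDiffOn ℝ ∞ (inChart α e) e.target) ∧ HasCompactSupport α

/-- The exterior derivative, computed in the preferred chart at each point. -/
def extD (α : Form X k) : Form X (k + 1) := fun x =>
  extDeriv (inChart α (chartAt (Eu n) x)) (chartAt (Eu n) x x)

/-- The scalar product of alternating forms for the metric with Gram matrix A. -/
def ipAlt (A : Matrix (Fin n) (Fin n) ℝ) (α β : Alt n k) : ℝ :=
  ((k.factorial : ℝ))⁻¹ * ∑ I : Fin k → Fin n, ∑ J : Fin k → Fin n,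
    (∏ l, A⁻¹ (I l) (J l)) * α (fun l => bas (I l)) * β (fun l => bas (J l))

/-- The pointwise scalar product of two forms. -/
def ipAt (α β : Form X k) (x : X.M) : ℝ :=
  ipAlt (gram (X.g x) id) (α x) (β x)

/-- The Riemannian volume: density square root of det g in every chart. -/
def IsVolume (X : RMfd n) (μ : Measure X.M) : Prop :=
  ∀ e ∈ atlas (Eu n) X.M, ∀ A : Set X.M, MeasurableSet A → A ⊆ e.source →
    μ A = ∫⁻ y in e '' A, ENNReal.ofReal (Real.sqrt (gram (X.g (e.symm y)) (tang e y)).det)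

end forms

/-- The L2 spaces of forms: Hilbert space completions of the test forms. -/
structure L2 {n : ℕ} (X : RMfd n) where
  μ : Measure X.M
  vol : IsVolume X μ
  H : ℕ → Type
  [nacg : ∀ k, NormedAddCommGroup (H k)]
  [ips : ∀ k, InnerProductSpace ℝ (H k)]
  [cs : ∀ k, CompleteSpace (H k)]
  ι : ∀ k, Form X k → H k
  inner_eq : ∀ k (α β : Form X k), IsTest α → IsTest β →
    ⟪ι k α, ι k β⟫_ℝ = ∫ x, ipAt α β x ∂μ
  dense : ∀ k, Dense (ι k '' {α | IsTest α})

attribute [instance] L2.nacg L2.ips L2.cs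

/-- The graph of the exterior derivative on test forms. -/
def L2.D {n : ℕ} {X : RMfd n} (L : L2 X) (k : ℕ) (a : L.H k) (b : L.H (k + 1)) : Prop :=
  ∃ α : Form X k, IsTest α ∧ a = L.ι k α ∧ b = L.ι (k + 1) (extD α)

/-- The L2 forms living on an open set F: the closure of the test forms supported in F. -/
def L2.on {n : ℕ} {X : RMfd n} (L : L2 X) (k : ℕ) (F : Set X.M) : Set (L.H k) :=
  closure (L.ι k '' {α | IsTest α ∧ tsupport α ⊆ F})

section weak

variable {H : ℕ → Type} [∀ k, NormedAddCommGroup (H k)] [∀ k, InnerProductSpace ℝ (H k)]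
  (D : ∀ k, H k → H (k + 1) → Prop)

/-- The weak codifferential of u is ψ. -/
def WCod (k : ℕ) (u : H (k + 1)) (ψ : H k) : Prop :=
  ∀ a b, D k a b → ⟪b, u⟫_ℝ = ⟪a, ψ⟫_ℝ

/-- The weak exterior derivative of u is η: tested against test forms φ and their
codifferentials ψ. -/
def WD (k : ℕ) (u : H k) (η : H (k + 1)) : Prop :=
  ∀ φ ψ, (∃ b, D (k + 1) φ b) → WCod D k φ ψ → ⟪u, ψ⟫_ℝ = ⟪η, φ⟫_ℝ

/-- The weak codifferential in every degree (zero in degree zero). -/
def WCod' : ∀ k : ℕ, H k → H (k - 1) → Prop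
  | 0, _, ψ => ψ = 0
  | k + 1, u, ψ => WCod D k u ψ

/-- The form domain of the Hodge Laplacian: triples (u, du, codifferential of u). -/
def dom (k : ℕ) : Set (H k × H (k + 1) × H (k - 1)) :=
  {z | WD D k z.1 z.2.1 ∧ WCod' D k z.1 z.2.2}

end weak

section heat

variable {A B C : Type} [NormedAddCommGroup A] [InnerProductSpace ℝ A]
  [NormedAddCommGroup B] [InnerProductSpace ℝ B] [NormedAddCommGroup C] [InnerProductSpace ℝ C]

/-- The Laplacian of u is h, for the self-adjoint operator of the closed quadratic form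
norm of du squared plus norm of the codifferential squared on the domain V. -/
def IsLap (V : Set (A × B × C)) (u h : A) : Prop :=
  ∃ η ψ, (u, η, ψ) ∈ V ∧ ∀ w η' ψ', (w, η', ψ') ∈ V → ⟪η, η'⟫_ℝ + ⟪ψ, ψ'⟫_ℝ = ⟪h, w⟫_ℝ

/-- P t is the heat semigroup: t ↦ P t f solves the heat equation with initial value f. -/
def IsHeat (V : Set (A × B × C)) (P : ℝ → A →L[ℝ] A) : Prop :=
  ∀ f, P 0 f = f ∧ ContinuousOn (fun t => P t f) (Ici 0) ∧
    ∀ t, 0 < t → ∃ h, IsLap V (P t f) h ∧ HasDerivAt (fun s => P s f) (-h) t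

/-- The trace of the compression of a positive operator to a closed subspace S. -/
def trOn (S : Set A) (T : A →L[ℝ] A) : ENNReal :=
  ⨆ (m : ℕ) (e : Fin m → A) (_ : Orthonormal ℝ e) (_ : ∀ i, e i ∈ S),
    ENNReal.ofReal (∑ i, ⟪T (e i), e i⟫_ℝ)

end heat

/-- The bracket in the definition of the torsion, for the heat trace θ: the limit b exists,
the determinant class integral converges, and I is the derivative at 0 of the meromorphic
continuation plus the large time integral. -/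
def IsRegInt (θ : ℝ → ℝ) (I : ℝ) : Prop :=
  ∃ b : ℝ, Tendsto θ atTop (𝓝 b) ∧ IntegrableOn (fun t => t⁻¹ * (θ t - b)) (Ioi 1) ∧
    ∃ (s₀ : ℝ) (ζ : ℂ → ℂ), MeromorphicOn ζ univ ∧ AnalyticAt ℂ ζ 0 ∧
      (∀ s : ℂ, s₀ < s.re →
        IntegrableOn (fun t : ℝ => (t : ℂ) ^ (s - 1) * ((θ t - b : ℝ) : ℂ)) (Ioc 0 1) ∧
        ζ s = (Complex.Gamma s)⁻¹ *
          ∫ t in Ioc (0 : ℝ) 1, (t : ℂ) ^ (s - 1) * ((θ t - b : ℝ) : ℂ)) ∧
      I = (deriv ζ 0).re + ∫ t in Ioi (1 : ℝ), t⁻¹ * (θ t - b)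

/-- X is of determinant class and its analytic L2-torsion, for the fundamental domain F, is ρ. -/
def IsTorsion {n : ℕ} (X : RMfd n) (F : Set X.M) (ρ : ℝ) : Prop :=
  ∃ (L : L2 X) (P : ∀ k, ℝ → L.H k →L[ℝ] L.H k) (I : ℕ → ℝ),
    (∀ k, IsHeat (dom L.D k) (P k)) ∧
    (∀ k ≤ n, (∀ t, 0 < t → trOn (L.on k F) (P k t) ≠ ⊤) ∧
      IsRegInt (fun t => (trOn (L.on k F) (P k t)).toReal) (I k)) ∧
    ρ = 1 / 2 * ∑ k ∈ Finset.range (n + 1), (-1) ^ k * k * I k

/-- The L2 spaces and the heat semigroups exist. -/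
def HasHeat {n : ℕ} (X : RMfd n) : Prop :=
  ∃ (L : L2 X) (P : ∀ k, ℝ → L.H k →L[ℝ] L.H k), ∀ k, IsHeat (dom L.D k) (P k)

/-- The differential of a map between manifolds. -/
def diff {n : ℕ} (X Y : RMfd n) (f : X.M → Y.M) (x : X.M) : Eu n →L[ℝ] Eu n :=
  mfderiv 𝓘(ℝ, Eu n) 𝓘(ℝ, Eu n) f x

/-- A smooth map that pulls the metric of Y back to the metric of X. -/
def IsLocIso {n : ℕ} (X Y : RMfd n) (f : X.M → Y.M) : Prop :=
  ContMDiff 𝓘(ℝ, Eu n) 𝓘(ℝ, Eu n) ∞ f ∧ ∀ x (v w : Eu n),
    ev (Y.g (f x)) (diff X Y f x v) (diff X Y f x w) = ev (X.g x) v w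

/-- A proper, free, cocompact, isometric action. -/
def IsAction {n : ℕ} (G : Type) [Group G] (X : RMfd n) [MulAction G X.M] : Prop :=
  ProperlyDiscontinuousSMul G X.M ∧ (∀ (γ : G) (x : X.M), γ • x = x → γ = 1) ∧
    (∃ K : Set X.M, IsCompact K ∧ ∀ x, ∃ γ : G, γ • x ∈ K) ∧
    ∀ γ : G, IsLocIso X X (fun x => γ • x)

/-- The map π identifies Y, with its metric and action, with the quotient of X by K. -/
def IsQuot {n : ℕ} {G : Type} [Group G] (K : Subgroup G) [K.Normal] (X Y : RMfd n)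
    [MulAction G X.M] [MulAction (G ⧸ K) Y.M] (π : X.M → Y.M) : Prop :=
  Function.Surjective π ∧ IsLocIso X Y π ∧ (∀ x y, π x = π y ↔ ∃ γ ∈ K, γ • x = y) ∧
    ∀ (γ : G) (x : X.M), π (γ • x) = (γ : G ⧸ K) • π x

/-- An open fundamental domain: disjoint translates that cover up to a null set. -/
def IsFund {n : ℕ} (G : Type) [Group G] (X : RMfd n) [MulAction G X.M] (F : Set X.M) : Prop :=
  IsOpen F ∧ (∀ γ : G, γ ≠ 1 → Disjoint (γ • F) F) ∧
    ∀ e ∈ atlas (Eu n) X.M, volume (e '' (e.source \ ⋃ γ : G, γ • F)) = 0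

end

end Pool.Agent.Lib.MP_570070_gt.An
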