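import Mathlib

open MeasureTheory Filter Topology Set
open scoped ContDiff InnerProductSpace

namespace Pool.Agent.Lib.MP_570070_gt.An

variable {P E : Type} [Fintype P] [DecidableEq P] [Fintype E]

omit [Fintype P] [Fintype E] in
theorem disc_last (σ : E → P → P) (S : Finset P) (p : P) {a q : P}
    (h : Relation.ReflTransGen (fun a b => a ∈ S ∧ ∃ e, σ e a = b) a q) :
    Relation.ReflTransGen (fun a b => a ∈ S.erase p ∧ ∃ e, σ e a = b) a q ∨
      (p ∈ S ∧ ∃ e, Relation.ReflTransGen (fun a b => a ∈ S.erase p ∧ ∃ e, σ e a = b) (σ e p) q) := by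
  induction h using Relation.ReflTransGen.head_induction_on with
  | refl => exact Or.inl Relation.ReflTransGen.refl
  | @head a c hac _ ih =>
    rcases ih with ih | ih
    · obtain ⟨ha, e, he⟩ := hac
      by_cases hp : a = p
      · subst hp
        exact Or.inr ⟨ha, e, he ▸ ih⟩
      · exact Or.inl (Relation.ReflTransGen.head ⟨Finset.mem_erase.2 ⟨hp, ha⟩, e, he⟩ ih)
    · exact Or.inr ih

omit [Fintype P] in
theorem disc_osc (σ : E → P → P) (v : P → ℝ) (S : Finset P) : ∀ p q : P,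
    Relation.ReflTransGen (fun a b => a ∈ S ∧ ∃ e, σ e a = b) p q →
    |v p - v q| ≤ ∑ x ∈ S, ∑ e, |v x - v (σ e x)| := by
  induction S using Finset.strongInduction with
  | H S ih =>
    intro p q h
    rcases disc_last σ S p h with h1 | ⟨hp, e, h1⟩
    · rcases h1.cases_head with rfl | ⟨c, ⟨hc, -⟩, -⟩
      · rw [sub_self, abs_zero]
        exact Finset.sum_nonneg fun x _ => Finset.sum_nonneg fun e _ => abs_nonneg _
      · exact absurd hc (Finset.notMem_erase p S)
    · have h2 := ih _ (Finset.erase_ssubset hp) _ _ h1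
      have h3 : |v p - v (σ e p)| ≤ ∑ e, |v p - v (σ e p)| :=
        Finset.single_le_sum (f := fun e => |v p - v (σ e p)|) (fun e _ => abs_nonneg _)
          (Finset.mem_univ e)
      rw [← Finset.add_sum_erase S _ hp]
      have h4 := abs_sub_le (v p) (v (σ e p)) (v q)
      linarith

theorem disc_int {T B : ℝ} (hT : 0 < T) :
    IntegrableOn (fun t : ℝ => t⁻¹) (Ioc T B) ∧
      ∫ t in Ioc T B, t⁻¹ = if T ≤ B then Real.log (B / T) else 0 := by
  refine ⟨?_, ?_⟩
  · refine IntegrableOn.mono_set (ContinuousOn.integrableOn_Icc ?_) Ioc_subset_Icc_self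
    exact continuousOn_id.inv₀ fun t ht => (hT.trans_le ht.1).ne'
  · split_ifs with h
    · rw [← intervalIntegral.integral_of_le h, integral_inv_of_pos hT (hT.trans_le h)]
    · rw [Ioc_eq_empty (fun h' => h h'.le)]
      simp

/-- Strong induction on S: follow the chain from the last visit of p on, inside S.erase p after
the first step; or grow a set T with oscillation at most the sum over T. -/
theorem osc_le (σ : E → P → P) (v : P → ℝ) (S : Finset P) {p q : P}
    (h : Relation.ReflTransGen (fun a b => a ∈ S ∧ b ∈ S ∧ ∃ e, σ e a = b) p q) :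
    |v p - v q| ≤ ∑ x ∈ S, ∑ e, |v x - v (σ e x)| :=
  disc_osc σ v S p q (Relation.ReflTransGen.mono (fun _ _ hab => ⟨hab.1, hab.2.2⟩) _ _ h)

/-- Cauchy-Schwarz twice (sq_sum_le_card_mul_sum_sq) and Finset.sum_fiberwise. -/
theorem discrete_poincare (σ : E → P → P) (cl : P → P) {Λ : ℕ}
    (hΛ : ∀ x, (Finset.univ.filter fun p => cl p = x).card ≤ Λ)
    (hc : ∀ p, Relation.ReflTransGen (fun a b => cl a = cl p ∧ cl b = cl p ∧ ∃ e, σ e a = b) p
      (cl p)) (v : P → ℝ) :
    ∑ p, (v p - v (cl p)) ^ 2 ≤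
      (Λ : ℝ) ^ 2 * Fintype.card E * ∑ x, ∑ e, (v x - v (σ e x)) ^ 2 := by
  set g : P → ℝ := fun x => Fintype.card E * ∑ e, (v x - v (σ e x)) ^ 2 with hg
  have hg0 : ∀ x, 0 ≤ g x := fun x =>
    mul_nonneg (Nat.cast_nonneg _) (Finset.sum_nonneg fun e _ => sq_nonneg _)
  have h1 : ∀ p, (v p - v (cl p)) ^ 2 ≤
      Λ * ∑ x ∈ Finset.univ.filter fun x => cl x = cl p, g x := fun p => by
    have h2 := osc_le σ v (Finset.univ.filter fun x => cl x = cl p) (p := p) (q := cl p)
      (Relation.ReflTransGen.mono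
        (fun a b hab => ⟨by simpa using hab.1, by simpa using hab.2.1, hab.2.2⟩) _ _ (hc p))
    have h3 : ∀ x, (∑ e, |v x - v (σ e x)|) ^ 2 ≤ g x := fun x => by
      have := sq_sum_le_card_mul_sum_sq (s := Finset.univ) (f := fun e => |v x - v (σ e x)|)
      simpa only [sq_abs, Finset.card_univ] using this
    calc (v p - v (cl p)) ^ 2 = |v p - v (cl p)| ^ 2 := (sq_abs _).symm
      _ ≤ (∑ x ∈ Finset.univ.filter fun x => cl x = cl p, ∑ e, |v x - v (σ e x)|) ^ 2 :=
        pow_le_pow_left₀ (abs_nonneg _) h2 2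
      _ ≤ (Finset.univ.filter fun x => cl x = cl p).card *
          ∑ x ∈ Finset.univ.filter fun x => cl x = cl p, (∑ e, |v x - v (σ e x)|) ^ 2 :=
        sq_sum_le_card_mul_sum_sq
      _ ≤ Λ * ∑ x ∈ Finset.univ.filter fun x => cl x = cl p, g x :=
        mul_le_mul (Nat.cast_le.2 (hΛ _)) (Finset.sum_le_sum fun x _ => h3 x)
          (Finset.sum_nonneg fun x _ => sq_nonneg _) (Nat.cast_nonneg _)
  have h4 : ∑ p, ∑ x ∈ Finset.univ.filter fun x => cl x = cl p, g x ≤ Λ * ∑ x, g x := by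
    rw [Finset.sum_comm' (t' := Finset.univ)
      (s' := fun x => Finset.univ.filter fun p => cl p = cl x) (by simp [eq_comm]),
      Finset.mul_sum]
    refine Finset.sum_le_sum fun x _ => ?_
    rw [Finset.sum_const, nsmul_eq_mul]
    exact mul_le_mul_of_nonneg_right (Nat.cast_le.2 (hΛ _)) (hg0 x)
  calc ∑ p, (v p - v (cl p)) ^ 2
      ≤ ∑ p, Λ * ∑ x ∈ Finset.univ.filter fun x => cl x = cl p, g x :=
        Finset.sum_le_sum fun p _ => h1 p
    _ ≤ Λ * (Λ * ∑ x, g x) := by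
        rw [← Finset.mul_sum]
        exact mul_le_mul_of_nonneg_left h4 (Nat.cast_nonneg _)
    _ = _ := by
        rw [hg, ← Finset.mul_sum]
        ring

/-- Lower bound for the large time integral from a counting function: each j contributes the
integral of 1 / t over T < t ≤ κ / (2 x j). -/
theorem tail_integral {ι : Type} [Fintype ι] (x : ι → ℝ) {φ : ℝ → ℝ} {κ d T : ℝ} (hκ : 0 < κ)
    (hd : 0 < d) (hT : 1 ≤ T) (hφ : IntegrableOn (fun t => t⁻¹ * φ t) (Ioi 1))
    (h : ∀ t, 0 < t →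
      ((Finset.univ.filter fun j => 0 < x j ∧ x j ≤ κ / (2 * t)).card : ℝ) / d ≤ φ t) :
    (∑ j, if 0 < x j then max 0 (-Real.log (max 1 (2 * T / κ) * x j)) else 0) / d ≤
      ∫ t in Ioi T, t⁻¹ * φ t := by
  have hT0 : 0 < T := one_pos.trans_le hT
  set B : ι → ℝ := fun j => if 0 < x j then κ / (2 * x j) else T with hB
  have hint : ∀ j, IntegrableOn ((Ioc T (B j)).indicator fun t : ℝ => t⁻¹) (Ioi T) := fun j =>
    ((integrable_indicator_iff measurableSet_Ioc).2 (disc_int hT0).1).integrableOn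
  have h1 : ∀ j, (if 0 < x j then max 0 (-Real.log (max 1 (2 * T / κ) * x j)) else 0) ≤
      ∫ t in Ioi T, (Ioc T (B j)).indicator (fun t : ℝ => t⁻¹) t := fun j => by
    rw [setIntegral_indicator measurableSet_Ioc,
      inter_eq_self_of_subset_right Ioc_subset_Ioi_self, (disc_int hT0).2]
    by_cases hx : 0 < x j
    · have hBj : B j = κ / (2 * x j) := if_pos hx
      have h2 : -Real.log (max 1 (2 * T / κ) * x j) ≤ Real.log (B j / T) := by
        have h3 : B j / T = (2 * T / κ * x j)⁻¹ := by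
          rw [hBj]
          field_simp
        rw [h3, Real.log_inv, neg_le_neg_iff]
        exact Real.log_le_log (by positivity)
          (mul_le_mul_of_nonneg_right (le_max_right _ _) hx.le)
      rw [if_pos hx]
      split_ifs with h4
      · exact max_le (Real.log_nonneg ((one_le_div hT0).2 h4)) h2
      · refine max_le le_rfl (h2.trans (Real.log_nonpos ?_ ?_))
        · rw [hBj]
          positivity
        · exact (div_le_one hT0).2 (not_le.1 h4).le
    · have hBj : B j = T := if_neg hx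
      rw [if_neg hx, hBj, if_pos le_rfl, div_self hT0.ne', Real.log_one]
  calc _ ≤ (∑ j, ∫ t in Ioi T, (Ioc T (B j)).indicator (fun t : ℝ => t⁻¹) t) / d :=
        div_le_div_of_nonneg_right (Finset.sum_le_sum fun j _ => h1 j) hd.le
    _ = ∫ t in Ioi T, (∑ j, (Ioc T (B j)).indicator (fun t : ℝ => t⁻¹) t) / d := by
        rw [integral_div, integral_finsetSum _ fun j _ => hint j]
    _ ≤ _ := by
        refine setIntegral_mono_on ((integrable_finsetSum _ fun j _ => hint j).div_const d)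
          (hφ.mono_set (Ioi_subset_Ioi hT)) measurableSet_Ioi fun t ht => ?_
        have ht0 : 0 < t := hT0.trans ht
        have h5 : ∑ j, (Ioc T (B j)).indicator (fun t : ℝ => t⁻¹) t ≤
            t⁻¹ * (Finset.univ.filter fun j => 0 < x j ∧ x j ≤ κ / (2 * t)).card := by
          rw [Finset.card_filter, Nat.cast_sum, Finset.mul_sum]
          refine Finset.sum_le_sum fun j _ => ?_
          by_cases hj : t ∈ Ioc T (B j)
          · have hx : 0 < x j := by
              by_contra hx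
              have hBj : B j = T := if_neg hx
              rw [hBj] at hj
              exact absurd hj.2 (not_le.2 hj.1)
            have hBj : B j = κ / (2 * x j) := if_pos hx
            have h6 := hj.2
            rw [hBj, le_div_iff₀ (by positivity)] at h6
            rw [indicator_of_mem hj, if_pos ⟨hx, by
              rw [le_div_iff₀ (by positivity)]
              linarith⟩]
            simp
          · rw [indicator_of_notMem hj]
            positivity
        calc _ ≤ t⁻¹ * (Finset.univ.filter fun j => 0 < x j ∧ x j ≤ κ / (2 * t)).card / d :=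
              div_le_div_of_nonneg_right h5 hd.le
          _ ≤ _ := by
              rw [mul_div_assoc]
              exact mul_le_mul_of_nonneg_left (h t ht0) (inv_nonneg.2 ht0.le)

/-- With τ = (t - 2) / 2 ≥ t / 4 ≥ 1 take L the ceiling of τ ^ (1 / 4) when τ ^ (1 / 4) ≤ d and the
second bound otherwise. -/
theorem tail_zero_numeric (A K : ℝ) (hA : 0 ≤ A) (hK : 0 ≤ K) : ∃ C : ℝ,
    ∀ (θ : ℝ → ℝ) (d : ℝ), 1 ≤ d →
      (∀ L : ℕ, 1 ≤ L → ∀ τ, 0 < τ →
        θ (2 * τ + 2) ≤ 2 * (2 * d / L + 1) / d + (K * L + 1) ^ 2 * A / τ) →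
      (∀ t, 4 ≤ t → t ≤ d → θ t ≤ C * t ^ (-(1 / 4 : ℝ))) ∧
      ∀ b, 0 ≤ b → (∀ τ, 0 < τ → θ (2 * τ + 2) - b ≤ (2 * d) ^ 2 * A / τ) →
        ∀ t, 4 ≤ t → θ t - b ≤ C * t ^ (-(1 / 4 : ℝ)) := by
  refine ⟨6 + 4 * (2 * K + 1) ^ 2 * A + 16 * A, fun θ d hd h1 => ?_⟩
  have hs : ∀ t : ℝ, 4 ≤ t → ∃ s : ℝ, 1 ≤ s ∧ s ^ 4 = t ∧ t ^ (-(1 / 4 : ℝ)) = s⁻¹ := fun t ht => by
    have ht0 : 0 ≤ t := by linarith
    refine ⟨t ^ (1 / 4 : ℝ), Real.one_le_rpow (by linarith) (by norm_num), ?_,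
      Real.rpow_neg ht0 _⟩
    rw [← Real.rpow_natCast, ← Real.rpow_mul ht0]
    norm_num
  have hτ : ∀ s c : ℝ, 1 ≤ s → 4 ≤ s ^ 4 → 0 ≤ c →
      c * s ^ 2 / ((s ^ 4 - 2) / 2) ≤ 4 * c * s⁻¹ := fun s c hs1 hs4 hc => by
    have hs0 : 0 < s := by linarith
    rw [← div_eq_mul_inv, div_le_div_iff₀ (by linarith) hs0]
    have h2 : s ^ 3 ≤ s ^ 4 := pow_le_pow_right₀ hs1 (by norm_num)
    have h3 : s ^ 2 * s ≤ 4 * ((s ^ 4 - 2) / 2) := by nlinarith
    nlinarith [mul_le_mul_of_nonneg_left h3 hc]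
  have key : ∀ s : ℝ, 1 ≤ s → 4 ≤ s ^ 4 → s ≤ d →
      θ (s ^ 4) ≤ (6 + 4 * (2 * K + 1) ^ 2 * A) * s⁻¹ := fun s hs1 hs4 hsd => by
    have hs0 : 0 < s := by linarith
    have hL1 : s ≤ (⌈s⌉₊ : ℝ) := Nat.le_ceil s
    have hL2 : (⌈s⌉₊ : ℝ) ≤ 2 * s := by linarith [Nat.ceil_lt_add_one hs0.le]
    have h2 := h1 ⌈s⌉₊ (Nat.one_le_ceil_iff.2 hs0) ((s ^ 4 - 2) / 2) (by linarith)
    rw [show 2 * ((s ^ 4 - 2) / 2) + 2 = s ^ 4 by ring] at h2
    generalize (⌈s⌉₊ : ℝ) = L at hL1 hL2 h2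
    have hL0 : 0 < L := by linarith
    have hd0 : 0 < d := by linarith
    have h3 : 2 * (2 * d / L + 1) / d = 4 * L⁻¹ + 2 * d⁻¹ := by field_simp; ring
    have h4 : L⁻¹ ≤ s⁻¹ := inv_anti₀ hs0 hL1
    have h5 : d⁻¹ ≤ s⁻¹ := inv_anti₀ hs0 hsd
    have h6 : (K * L + 1) ^ 2 * A ≤ (2 * K + 1) ^ 2 * A * s ^ 2 := by
      have h7 : K * L + 1 ≤ (2 * K + 1) * s := by nlinarith [mul_le_mul_of_nonneg_left hL2 hK]
      have h8 := mul_le_mul_of_nonneg_right (pow_le_pow_left₀ (by positivity) h7 2) hA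
      linarith [show ((2 * K + 1) * s) ^ 2 * A = (2 * K + 1) ^ 2 * A * s ^ 2 by ring]
    have h9 := (div_le_div_of_nonneg_right h6 (by linarith : 0 ≤ (s ^ 4 - 2) / 2)).trans
      (hτ s _ hs1 hs4 (by positivity))
    linarith
  refine ⟨fun t ht htd => ?_, fun b hb h2 t ht => ?_⟩
  · obtain ⟨s, hs1, rfl, h3⟩ := hs t ht
    have h4 := key s hs1 ht ((le_self_pow₀ hs1 (by norm_num)).trans htd)
    have h5 : 0 ≤ 16 * A * s⁻¹ := by positivity
    rw [h3]
    linarith
  · obtain ⟨s, hs1, rfl, h3⟩ := hs t ht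
    rw [h3]
    have hs0 : 0 < s := by linarith
    rcases le_total s d with hsd | hsd
    · have h4 := key s hs1 ht hsd
      have h5 : 0 ≤ 16 * A * s⁻¹ := by positivity
      linarith
    · have h4 := h2 ((s ^ 4 - 2) / 2) (by linarith)
      rw [show 2 * ((s ^ 4 - 2) / 2) + 2 = s ^ 4 by ring] at h4
      have h6 : (2 * d) ^ 2 * A ≤ 4 * A * s ^ 2 := by
        have h8 := mul_le_mul_of_nonneg_right (pow_le_pow_left₀ (by linarith) hsd 2) hA
        linarith [show (2 * d) ^ 2 * A = 4 * (d ^ 2 * A) by ring]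
      have h9 := (div_le_div_of_nonneg_right h6 (by linarith : 0 ≤ (s ^ 4 - 2) / 2)).trans
        (hτ s _ hs1 ht (by positivity))
      have h5 : 0 ≤ (6 + 4 * (2 * K + 1) ^ 2 * A) * s⁻¹ := by positivity
      linarith

end Pool.Agent.Lib.MP_570070_gt.An
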