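import Pool.Agent.Lib.MP_570070_gt.An.UDefs

open MeasureTheory Filter Topology Set
open scoped ContDiff InnerProductSpace

namespace Pool.Agent.Lib.MP_570070_gt.An

section

variable {E : Type} [NormedAddCommGroup E] [NormedSpace ℝ E] [FiniteDimensional ℝ E] {K : Set ℝ}

theorem diva_fderiv {G : E × ℝ → ℝ} (hK : IsCompact K) (hG : ContDiff ℝ 1 G) (y : E) :
    DifferentiableAt ℝ (fun y => ∫ p in K, G (y, p)) y ∧
      ∀ v, fderiv ℝ (fun y => ∫ p in K, G (y, p)) y v = ∫ p in K, fderiv ℝ G (y, p) (v, 0) := by
  have hc := hG.continuous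
  have hd : Continuous fun q => (fderiv ℝ G q).comp (ContinuousLinearMap.inl ℝ E ℝ) :=
    (hG.continuous_fderiv one_ne_zero).clm_comp continuous_const
  have hd2 : Continuous fun p => (fderiv ℝ G (y, p)).comp (ContinuousLinearMap.inl ℝ E ℝ) :=
    hd.comp (f := fun p : ℝ => (y, p)) (by fun_prop)
  obtain ⟨C, hC⟩ := ((isCompact_closedBall y 1).prod hK).exists_bound_of_continuousOn
    hd.continuousOn
  have key := hasFDerivAt_integral_of_dominated_of_fderiv_le (𝕜 := ℝ) (μ := volume.restrict K)
    (F := fun x p => G (x, p))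
    (F' := fun x p => (fderiv ℝ G (x, p)).comp (ContinuousLinearMap.inl ℝ E ℝ))
    (bound := fun _ => C) (Metric.closedBall_mem_nhds y one_pos)
    (Filter.Eventually.of_forall fun x => Continuous.aestronglyMeasurable (by fun_prop))
    (ContinuousOn.integrableOn_compact hK (by fun_prop)) hd2.aestronglyMeasurable
    ((ae_restrict_mem hK.measurableSet).mono fun p hp x hx => hC (x, p) ⟨hx, hp⟩)
    (continuousOn_const.integrableOn_compact hK)
    (Filter.Eventually.of_forall fun p x _ =>
      (hG.differentiable one_ne_zero (x, p)).hasFDerivAt.comp x (hasFDerivAt_prodMk_left x p))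
  refine ⟨key.differentiableAt, fun v => ?_⟩
  rw [key.fderiv, ContinuousLinearMap.integral_apply (hd2.continuousOn.integrableOn_compact hK)]
  rfl

theorem diva_setInt {k : ℕ} {G : E × ℝ → ℝ} (hK : IsCompact K) (hG : ContDiff ℝ k G) :
    ContDiff ℝ k fun y => ∫ p in K, G (y, p) := by
  induction k generalizing G with
  | zero =>
    exact contDiff_zero.2 (continuous_parametric_integral_of_continuous
      (f := fun y p => G (y, p)) hG.continuous hK)
  | succ k ih =>
    have h1 : ContDiff ℝ 1 G := hG.of_le (by exact_mod_cast Nat.le_add_left 1 k)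
    rw [Nat.cast_succ, contDiff_succ_iff_fderiv] at hG ⊢
    refine ⟨fun y => (diva_fderiv hK h1 y).1, by simp, contDiff_clm_apply_iff.2 fun v => ?_⟩
    rw [funext fun y => (diva_fderiv hK h1 y).2 v]
    exact ih (G := fun q => fderiv ℝ G q (v, 0)) (hG.2.2.clm_apply contDiff_const)

end

theorem diva_update (i : Fin 3) {g : Eu 3 × ℝ → ℝ} (hg : ContDiff ℝ ∞ g) :
    ContDiff ℝ ∞ fun q : Eu 3 × ℝ => Function.update q.1 i (g q) := by
  refine contDiff_pi.2 fun j => ?_
  by_cases h : j = i
  · subst h
    simpa only [Function.update_self] using hg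
  · simp only [Function.update_of_ne h]
    fun_prop

/-- Smoothness of an integral with parameters. One way: induction on n with
hasFDerivAt_integral_of_dominated_of_fderiv_le (contDiff_succ_iff_fderiv_apply, contDiff_infty);
another way: contDiffOn_convolution_right_with_param or HasCompactSupport.contDiff_convolution
after a cut-off. -/
theorem contDiff_integral_param {E : Type} [NormedAddCommGroup E] [NormedSpace ℝ E]
    [FiniteDimensional ℝ E] {G : E × ℝ → ℝ} (hG : ContDiff ℝ ∞ G) (a b : ℝ) :
    ContDiff ℝ ∞ fun y => ∫ t in a..b, G (y, t) := by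
  have key : ∀ a b : ℝ, ContDiff ℝ ∞ fun y => ∫ t in Ioc a b, G (y, t) := fun a b => by
    simp only [← integral_Icc_eq_integral_Ioc]
    exact contDiff_infty.2 fun k => diva_setInt isCompact_Icc (contDiff_infty.1 hG k)
  exact (key a b).sub (key b a)

theorem contDiff_tot (i : Fin 3) (a b : ℝ) {F : Eu 3 → ℝ} (hF : ContDiff ℝ ∞ F) :
    ContDiff ℝ ∞ (tot i a b F) :=
  contDiff_integral_param (G := fun q => F (Function.update q.1 i q.2))
    (hF.comp (diva_update i contDiff_snd)) a b

/-- Substitute t = a + s (y i - a), s ∈ [0, 1]. -/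
theorem contDiff_prim (i : Fin 3) (a : ℝ) {F : Eu 3 → ℝ} (hF : ContDiff ℝ ∞ F) :
    ContDiff ℝ ∞ (prim i a F) := by
  have h : prim i a F = fun y =>
      (y i - a) * ∫ s in (0 : ℝ)..1, F (Function.update y i (a + (y i - a) * s)) := by
    funext y
    have h1 := intervalIntegral.smul_integral_comp_add_mul (a := 0) (b := 1)
      (fun t => F (Function.update y i t)) (y i - a) a
    rw [mul_zero, add_zero, mul_one, add_sub_cancel, smul_eq_mul] at h1
    exact h1.symm
  rw [h]
  refine ContDiff.mul (by fun_prop) (contDiff_integral_param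
    (G := fun q : Eu 3 × ℝ => F (Function.update q.1 i (a + (q.1 i - a) * q.2)))
    (hF.comp (diva_update i ?_)) 0 1)
  fun_prop

/-- The derivative along the line s ↦ y + s • bas i and the fundamental theorem of calculus. -/
theorem pd_prim (i : Fin 3) (a : ℝ) {F : Eu 3 → ℝ} (hF : ContDiff ℝ ∞ F) (y : Eu 3) :
    pd i (prim i a F) y = F y := by
  have h1 := ((contDiff_prim i a hF).differentiable (by simp)
    (Function.update y i (y i))).hasFDerivAt.comp_hasDerivAt (y i) (hasDerivAt_update y i (y i))
  have hc : Continuous fun t => F (Function.update y i t) :=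
    hF.continuous.comp (continuous_const.update i continuous_id)
  have h2 := (hc.integral_hasStrictDerivAt a (y i)).hasDerivAt
  have h3 : prim i a F ∘ Function.update y i = fun s => ∫ t in a..s, F (Function.update y i t) := by
    funext s
    simp only [Function.comp_apply, prim, Function.update_self, Function.update_idem]
  rw [h3, Function.update_eq_self] at h1
  rw [Function.update_eq_self] at h2
  exact h1.unique h2

theorem tot_update (i : Fin 3) (a b : ℝ) (F : Eu 3 → ℝ) (y : Eu 3) (t : ℝ) :
    tot i a b F (Function.update y i t) = tot i a b F y := by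
  simp only [tot, Function.update_idem]

end Pool.Agent.Lib.MP_570070_gt.An
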