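import Pool.Agent.Lib.MP_570070_gt.An.UDefs

open MeasureTheory Filter Topology Set
open scoped ContDiff InnerProductSpace

namespace Pool.Agent.Lib.MP_570070_gt.An

theorem divb_box (lo hi : Eu 3) (i : Fin 3) (G : Eu 3 → ℝ) :
    ∫ y in Icc lo hi, G y =
      ∫ p in Icc (lo i) (hi i) ×ˢ Icc (fun j => lo (i.succAbove j)) (fun j => hi (i.succAbove j)),
        G (i.insertNth p.1 p.2) ∂((volume : Measure ℝ).prod (volume : Measure (Fin 2 → ℝ))) := by
  set e : ℝ × (Fin 2 → ℝ) ≃ᵐ (Fin 3 → ℝ) :=
    (MeasurableEquiv.piFinSuccAbove (fun _ : Fin 3 => ℝ) i).symm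
  have hem : MeasurePreserving e :=
    (volume_preserving_piFinSuccAbove (fun _ : Fin 3 => ℝ) i).symm _
  have he : e ⁻¹' Icc lo hi =
      Icc (lo i) (hi i) ×ˢ Icc (fun j => lo (i.succAbove j)) (fun j => hi (i.succAbove j)) :=
    ((Fin.insertNthOrderIso (fun _ : Fin 3 => ℝ) i).preimage_Icc _ _).trans (Icc_prod_eq _ _)
  rw [← hem.map_eq, setIntegral_map_equiv, he, Measure.volume_eq_prod]
  rfl

theorem divb_cont_ins (i : Fin 3) :
    Continuous fun p : ℝ × (Fin 2 → ℝ) => (i.insertNth p.1 p.2 : Eu 3) :=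
  Continuous.finInsertNth (A := fun _ : Fin 3 => ℝ) i continuous_fst continuous_snd

theorem divb_cont_upd (i : Fin 3) {F : Eu 3 → ℝ} (hF : Continuous F) :
    Continuous (Function.uncurry fun (y : Eu 3) (t : ℝ) => F (Function.update y i t)) :=
  hF.comp (continuous_fst.update i continuous_snd)

/-- Fubini in the direction i (measurePreserving_piFinSuccAbove or
MeasurableEquiv.piFinSuccAbove, volume_pi, Measure.restrict of a box is a product). -/
theorem integral_mul_tot {lo hi : Eu 3} (h : lo ≤ hi) (i : Fin 3) {F : Eu 3 → ℝ}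
    (hF : Continuous F) {u : ℝ → ℝ} (hu : Continuous u) :
    ∫ y in Icc lo hi, u (y i) * tot i (lo i) (hi i) F y =
      (∫ t in lo i..hi i, u t) * ∫ y in Icc lo hi, F y := by
  have _hu := hu
  have h1 : ∀ p : ℝ × (Fin 2 → ℝ),
      u ((i.insertNth p.1 p.2 : Eu 3) i) * tot i (lo i) (hi i) F (i.insertNth p.1 p.2) =
        u p.1 * ∫ t in Icc (lo i) (hi i), F (i.insertNth t p.2) := by
    intro p
    rw [Fin.insertNth_apply_same, tot, intervalIntegral.integral_of_le (h i),
      integral_Icc_eq_integral_Ioc]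
    simp only [Fin.update_insertNth]
  rw [divb_box lo hi i, divb_box lo hi i F]
  simp only [h1]
  rw [setIntegral_prod_mul u (fun x : Fin 2 → ℝ => ∫ t in Icc (lo i) (hi i), F (i.insertNth t x)),
    intervalIntegral.integral_of_le (h i), integral_Icc_eq_integral_Ioc, ← Measure.prod_restrict,
    integral_prod_symm]
  rw [Measure.prod_restrict]
  exact (hF.comp (divb_cont_ins i)).continuousOn.integrableOn_compact
    (isCompact_Icc.prod isCompact_Icc)

theorem continuous_tot (i : Fin 3) (a b : ℝ) {F : Eu 3 → ℝ} (hF : Continuous F) :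
    Continuous (tot i a b F) :=
  intervalIntegral.continuous_parametric_intervalIntegral_of_continuous' (divb_cont_upd i hF) a b

theorem continuous_prim (i : Fin 3) (a : ℝ) {F : Eu 3 → ℝ} (hF : Continuous F) :
    Continuous (prim i a F) :=
  intervalIntegral.continuous_parametric_intervalIntegral_of_continuous (divb_cont_upd i hF)
    (continuous_apply i)

theorem divb_cs {a b : ℝ} (hab : a ≤ b) {f : ℝ → ℝ} (hf : Continuous f) :
    (∫ t in a..b, f t) ^ 2 ≤ (b - a) * ∫ t in a..b, f t ^ 2 := by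
  rcases hab.eq_or_lt with rfl | hlt
  · simp
  set I := ∫ t in a..b, f t with hI
  have h0 : 0 ≤ ∫ t in a..b, ((b - a) * f t - I) ^ 2 :=
    intervalIntegral.integral_nonneg hab fun t _ => sq_nonneg _
  have h1 : ∀ t, ((b - a) * f t - I) ^ 2 =
      (b - a) ^ 2 * f t ^ 2 - 2 * (b - a) * I * f t + I ^ 2 := fun t => by ring
  simp only [h1] at h0
  rw [intervalIntegral.integral_add (Continuous.intervalIntegrable (by fun_prop) _ _)
      (Continuous.intervalIntegrable (by fun_prop) _ _),
    intervalIntegral.integral_sub (Continuous.intervalIntegrable (by fun_prop) _ _)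
      (Continuous.intervalIntegrable (by fun_prop) _ _),
    intervalIntegral.integral_const_mul, intervalIntegral.integral_const_mul,
    intervalIntegral.integral_const, ← hI, smul_eq_mul] at h0
  have h2 : 0 < b - a := sub_pos.2 hlt
  refine le_of_mul_le_mul_left ?_ h2
  nlinarith

theorem divb_cs' {a s b : ℝ} (h1 : a ≤ s) (h2 : s ≤ b) {f : ℝ → ℝ} (hf : Continuous f) :
    (∫ t in a..s, f t) ^ 2 ≤ (b - a) * ∫ t in a..b, f t ^ 2 := by
  refine (divb_cs h1 hf).trans (mul_le_mul (by linarith) ?_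
    (intervalIntegral.integral_nonneg h1 fun t _ => sq_nonneg _) (by linarith))
  exact intervalIntegral.integral_mono_interval le_rfl h1 h2
    (Eventually.of_forall fun t => sq_nonneg _) (Continuous.intervalIntegrable (by fun_prop) _ _)

theorem divb_sq_le {lo hi : Eu 3} (h : lo ≤ hi) (i : Fin 3) {F G : Eu 3 → ℝ}
    (hF : Continuous F) (hG : Continuous G)
    (hb : ∀ y ∈ Icc lo hi, G y ^ 2 ≤ (hi i - lo i) * tot i (lo i) (hi i) (fun z => F z ^ 2) y) :
    ∫ y in Icc lo hi, G y ^ 2 ≤ (hi i - lo i) ^ 2 * ∫ y in Icc lo hi, F y ^ 2 := by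
  have hF2 : Continuous fun z => F z ^ 2 := hF.pow 2
  have h1 := integral_mul_tot h i hF2 (u := fun _ => hi i - lo i) continuous_const
  rw [intervalIntegral.integral_const, smul_eq_mul, ← sq] at h1
  rw [← h1]
  exact setIntegral_mono_on ((hG.pow 2).continuousOn.integrableOn_compact isCompact_Icc)
    ((continuous_const.mul (continuous_tot i _ _ hF2)).continuousOn.integrableOn_compact
      isCompact_Icc) measurableSet_Icc hb

/-- Cauchy-Schwarz: the square is at most (hi i - lo i) * tot i (F ^ 2), then the first lemma. -/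
theorem integral_tot_sq_le {lo hi : Eu 3} (h : lo ≤ hi) (i : Fin 3) {F : Eu 3 → ℝ}
    (hF : Continuous F) : ∫ y in Icc lo hi, tot i (lo i) (hi i) F y ^ 2 ≤
      (hi i - lo i) ^ 2 * ∫ y in Icc lo hi, F y ^ 2 :=
  divb_sq_le h i hF (continuous_tot i _ _ hF) fun y _ =>
    divb_cs (h i) (f := fun t => F (Function.update y i t))
      (hF.comp (continuous_const.update i continuous_id))

theorem integral_prim_sq_le {lo hi : Eu 3} (h : lo ≤ hi) (i : Fin 3) {F : Eu 3 → ℝ}
    (hF : Continuous F) : ∫ y in Icc lo hi, prim i (lo i) F y ^ 2 ≤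
      (hi i - lo i) ^ 2 * ∫ y in Icc lo hi, F y ^ 2 :=
  divb_sq_le h i hF (continuous_prim i _ hF) fun y hy =>
    divb_cs' (hy.1 i) (hy.2 i) (f := fun t => F (Function.update y i t))
      (hF.comp (continuous_const.update i continuous_id))

end Pool.Agent.Lib.MP_570070_gt.An
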