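import Pool.Agent.Lib.MP_570070_gt.An.UDefs
import Pool.Agent.Lib.MP_570070_gt.An.GeoB

open MeasureTheory Filter Topology Set
open scoped ContDiff InnerProductSpace

namespace Pool.Agent.Lib.MP_570070_gt.An

variable {c : Par}

theorem ibp_zero {F : Eu 3 → ℝ} {a : ℝ} (ha : -1 < a)
    (hs : ∀ y ∈ DR c, F y ≠ 0 → ∀ e : Ed c, a ≤ sc e y) {y : Eu 3} (hy : y ∉ DR c) :
    (DR c).indicator F =ᶠ[𝓝 y] fun _ => 0 := by
  filter_upwards [(isCompact_core (c := c) ha (y 2 - 1) (y 2 + 1)).isClosed.isOpen_compl.mem_nhds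
    fun h => hy h.1, (continuous_apply 2).continuousAt.eventually
      (Icc_mem_nhds (sub_one_lt (y 2)) (lt_add_one (y 2)))] with z hz hz2
  by_cases h : z ∈ DR c
  · rw [indicator_of_mem h]
    by_contra h0
    exact hz ⟨h, hs z h h0, hz2⟩
  · exact indicator_of_notMem h _

theorem ibp_eq (F : Eu 3 → ℝ) {y : Eu 3} (hy : y ∈ DR c) : (DR c).indicator F =ᶠ[𝓝 y] F := by
  filter_upwards [isOpen_DR.mem_nhds hy] with z hz using indicator_of_mem hz _

theorem ibp_meas : MeasurableSet Slab := (isOpen_Ioo.preimage (continuous_apply 2)).measurableSet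

theorem ibp_box {lo hi y : Eu 3} (h0 : y 0 ∈ Icc (lo 0) (hi 0)) (h1 : y 1 ∈ Icc (lo 1) (hi 1))
    (h2 : y 2 ∈ Icc (lo 2) (hi 2)) : y ∈ Icc lo hi := by
  constructor <;> intro i <;> fin_cases i
  exacts [h0.1, h1.1, h2.1, h0.2, h1.2, h2.2]

/-- Extension by zero of a function that vanishes near the boundary of the planar domain: at a
point outside DR it vanishes in a neighbourhood, because the set
(y ∈ DR, ∀ e, a ≤ sc e y) is closed (isCompact_core, or rewrite with rsq). -/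
theorem pf_indicator {F : Eu 3 → ℝ} (hF : ContDiffOn ℝ ∞ F (DR c))
    (hp : ∀ y ∈ DR c, F (y + per) = F y) {a : ℝ} (ha : -1 < a)
    (hs : ∀ y ∈ DR c, F y ≠ 0 → ∀ e : Ed c, a ≤ sc e y) : Pf ((DR c).indicator F) := by
  refine ⟨contDiff_iff_contDiffAt.2 fun y => ?_, fun y => ?_,
    √(Real.exp (2 * (c.m + 4 - a))), fun y hy => ?_⟩
  · by_cases hy : y ∈ DR c
    · exact (hF.contDiffAt (isOpen_DR.mem_nhds hy)).congr_of_eventuallyEq (ibp_eq F hy)
    · exact contDiffAt_const.congr_of_eventuallyEq (ibp_zero ha hs hy)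
  · have h : y + per ∈ DR c ↔ y ∈ DR c := mem_DR_congr (by simp) (by simp)
    by_cases hy : y ∈ DR c
    · rw [indicator_of_mem hy, indicator_of_mem (h.2 hy), hp y hy]
    · rw [indicator_of_notMem hy, indicator_of_notMem (mt h.1 hy)]
  · have h1 : y ∈ DR c := mem_of_indicator_ne_zero hy
    rw [indicator_of_mem h1] at hy
    have h2 := (geob_none (h1 none).1).1 (hs y h1 hy none)
    simp only [rsq, ctr, sub_zero] at h2
    exact ⟨Real.abs_le_sqrt (by linarith [sq_nonneg (y 1)]),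
      Real.abs_le_sqrt (by linarith [sq_nonneg (y 0)])⟩

theorem integral_slab_indicator (F : Eu 3 → ℝ) :
    ∫ y in Slab, (DR c).indicator F y = ∫ y in Cell c, F y := by
  rw [setIntegral_indicator isOpen_DR.measurableSet, inter_comm]
  rfl

theorem Pf.integrableOn {F : Eu 3 → ℝ} (h : Pf F) : IntegrableOn F Slab := by
  obtain ⟨R, hR⟩ := h.bd
  refine (h.smooth.continuous.continuousOn.integrableOn_compact (isCompact_Icc
    (a := (![-R, -R, 0] : Eu 3)) (b := ![R, R, 2 * Real.pi]))).of_forall_sdiff_eq_zero ibp_meas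
    fun y hy => ?_
  by_contra h0
  exact hy.2 (ibp_box (abs_le.1 (hR y h0).1) (abs_le.1 (hR y h0).2) (Ioo_subset_Icc_self hy.1))

theorem Pf.mul {F G : Eu 3 → ℝ} (hF : Pf F) (hG : Pf G) : Pf fun y => F y * G y :=
  ⟨hF.smooth.mul hG.smooth, fun y => by rw [hF.per, hG.per],
    hF.bd.imp fun _ h y hy => h y (left_ne_zero_of_mul hy)⟩
theorem Pf.add {F G : Eu 3 → ℝ} (hF : Pf F) (hG : Pf G) : Pf fun y => F y + G y := by
  obtain ⟨R, hR⟩ := hF.bd
  obtain ⟨R', hR'⟩ := hG.bd
  refine ⟨hF.smooth.add hG.smooth, fun y => by rw [hF.per, hG.per], max R R', fun y hy => ?_⟩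
  by_cases h : F y = 0
  · have h' := hR' y fun e => hy (by rw [h, e, add_zero])
    exact ⟨le_max_of_le_right h'.1, le_max_of_le_right h'.2⟩
  · exact ⟨le_max_of_le_left (hR y h).1, le_max_of_le_left (hR y h).2⟩
theorem ibp_const_mul {F : Eu 3 → ℝ} (hF : Pf F) (t : ℝ) : Pf fun y => t * F y :=
  ⟨contDiff_const.mul hF.smooth, fun y => by rw [hF.per],
    hF.bd.imp fun _ h y hy => h y (right_ne_zero_of_mul hy)⟩
theorem Pf.sub {F G : Eu 3 → ℝ} (hF : Pf F) (hG : Pf G) : Pf fun y => F y - G y := by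
  simpa only [neg_one_mul, ← sub_eq_add_neg] using hF.add (ibp_const_mul hG (-1))
theorem Pf.const_mul {F : Eu 3 → ℝ} (hF : Pf F) (t : ℝ) : Pf fun y => t * F y :=
  ibp_const_mul hF t
theorem Pf.pd {F : Eu 3 → ℝ} (hF : Pf F) (i : Fin 3) : Pf (pd i F) := by
  refine ⟨(hF.smooth.fderiv_right (m := ∞) (by simp)).clm_apply contDiff_const, fun y => ?_,
    hF.bd.imp fun R h y hy => ?_⟩
  · unfold An.pd
    rw [← fderiv_comp_add_right, funext hF.per]
  · have h1 : y ∈ tsupport F := support_fderiv_subset ℝ fun e => hy (by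
      unfold An.pd
      rw [e]
      rfl)
    exact closure_minimal (t := {y : Eu 3 | |y 0| ≤ R ∧ |y 1| ≤ R}) h
      ((isClosed_le (continuous_apply 0).abs continuous_const).inter
        (isClosed_le (continuous_apply 1).abs continuous_const)) h1

/-- The integral over the slab is the integral over a closed box. -/
theorem integral_slab_eq_box {F : Eu 3 → ℝ} {lo hi : Eu 3} (h2 : lo 2 = 0)
    (h2' : hi 2 = 2 * Real.pi)
    (hs : ∀ y, F y ≠ 0 → y 0 ∈ Icc (lo 0) (hi 0) ∧ y 1 ∈ Icc (lo 1) (hi 1)) :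
    ∫ y in Slab, F y = ∫ y in Icc lo hi, F y := by
  rw [setIntegral_eq_of_subset_of_forall_sdiff_eq_zero (s := Slab ∩ Icc lo hi) ibp_meas
    inter_subset_left fun y hy => by
      by_contra h0
      exact hy.2 ⟨hy.1, ibp_box (hs y h0).1 (hs y h0).2
        (by rw [h2, h2']; exact Ioo_subset_Icc_self hy.1)⟩]
  refine setIntegral_congr_set ?_
  filter_upwards [Measure.ae_eval_ne (fun _ : Fin 3 => (volume : Measure ℝ)) 2 0,
    Measure.ae_eval_ne (fun _ : Fin 3 => (volume : Measure ℝ)) 2 (2 * Real.pi)] with y h0 h1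
  refine propext ⟨fun h => h.2, fun h => ⟨⟨lt_of_le_of_ne ?_ h0.symm, lt_of_le_of_ne ?_ h1⟩, h⟩⟩
  · exact h2 ▸ h.1 2
  · exact h2' ▸ h.2 2

/-- MeasureTheory.integral_divergence_of_hasFDerivAt_off_countable on a large box: the faces in
the planar directions vanish, the two faces in the angle direction cancel. -/
theorem integral_dvg_slab {b : Eu 3 → Eu 3} (hb : ∀ i, Pf fun y => b y i) :
    ∫ y in Slab, dvg b y = 0 := by
  have hd : Pf (dvg b) := by
    have h := (((hb 0).pd 0).add ((hb 1).pd 1)).add ((hb 2).pd 2)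
    unfold dvg
    simpa only [Fin.sum_univ_three] using h
  obtain ⟨R₀, h₀⟩ := (hb 0).bd
  obtain ⟨R₁, h₁⟩ := (hb 1).bd
  obtain ⟨R₂, h₂⟩ := hd.bd
  obtain ⟨R, hR, g₀, g₁, g₂⟩ : ∃ R : ℝ, 0 < R ∧ R₀ < R ∧ R₁ < R ∧ R₂ < R :=
    ⟨|R₀| + |R₁| + |R₂| + 1, by positivity,
      by linarith [le_abs_self R₀, abs_nonneg R₁, abs_nonneg R₂],
      by linarith [le_abs_self R₁, abs_nonneg R₀, abs_nonneg R₂],
      by linarith [le_abs_self R₂, abs_nonneg R₀, abs_nonneg R₁]⟩
  rw [integral_slab_eq_box (lo := ![-R, -R, 0]) (hi := ![R, R, 2 * Real.pi]) rfl rfl fun y hy =>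
    ⟨abs_le.1 ((h₂ y hy).1.trans g₂.le), abs_le.1 ((h₂ y hy).2.trans g₂.le)⟩]
  refine (integral_divergence_of_hasFDerivAt_off_countable' _ _ (fun i => ?_)
    (fun i y => b y i) (fun i y => fderiv ℝ (fun z => b z i) y) ∅ countable_empty
    (fun i => (hb i).smooth.continuous.continuousOn)
    (fun y _ i => ((hb i).smooth.differentiable (by simp) y).hasFDerivAt)
    (hd.smooth.continuous.continuousOn.integrableOn_compact isCompact_Icc)).trans ?_
  · fin_cases i
    exacts [neg_le_self hR.le, neg_le_self hR.le, Real.two_pi_pos.le]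
  have e0 : ∀ y : Eu 3, |y 0| = R → b y 0 = 0 := fun y hy => by
    by_contra h
    linarith [(h₀ y h).1]
  have e1 : ∀ y : Eu 3, |y 1| = R → b y 1 = 0 := fun y hy => by
    by_contra h
    linarith [(h₁ y h).2]
  have e2 : ∀ x : Fin 2 → ℝ, (Fin.insertNth (α := fun _ => ℝ) 2 (2 * Real.pi) x : Eu 3) =
      Fin.insertNth (α := fun _ => ℝ) 2 0 x + per := fun x => by
    funext j
    refine Fin.succAboveCases 2 ?_ (fun k => ?_) j
    · simp
    · rw [Pi.add_apply, Fin.insertNth_apply_succAbove, Fin.insertNth_apply_succAbove]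
      fin_cases k
      · exact (add_zero _).symm.trans (congrArg _ per_zero.symm)
      · exact (add_zero _).symm.trans (congrArg _ per_one.symm)
  refine Finset.sum_eq_zero fun i _ => sub_eq_zero.2
    (integral_congr_ae (Eventually.of_forall fun x => ?_))
  fin_cases i
  · exact (e0 _ (by simpa using hR.le)).trans (e0 _ (by simpa using hR.le)).symm
  · exact (e1 _ (by simpa using hR.le)).trans (e1 _ (by simpa using hR.le)).symm
  · exact (congrArg (b · 2) (e2 x)).trans ((hb 2).per _)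

theorem integral_dvg_eq_zero {b : Eu 3 → Eu 3} (hb : ContDiffOn ℝ ∞ b (DR c))
    (hp : ∀ y ∈ DR c, b (y + per) = b y) {a : ℝ} (ha : -1 < a)
    (hs : ∀ y ∈ DR c, b y ≠ 0 → ∀ e : Ed c, a ≤ sc e y) : ∫ y in Cell c, dvg b y = 0 := by
  have hs' : ∀ i, ∀ y ∈ DR c, b y i ≠ 0 → ∀ e : Ed c, a ≤ sc e y := fun i y hy h =>
    hs y hy fun e => h (by rw [e]; rfl)
  rw [← integral_slab_indicator, ← integral_dvg_slab
    (b := fun z i => (DR c).indicator (fun y => b y i) z) fun i =>
      pf_indicator (contDiffOn_pi.1 hb i) (fun y hy => by rw [hp y hy]) ha (hs' i)]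
  refine integral_congr_ae (Eventually.of_forall fun y => ?_)
  by_cases hy : y ∈ DR c
  · refine (indicator_of_mem hy _).trans (Finset.sum_congr rfl fun i _ => ?_)
    unfold pd
    rw [(ibp_eq _ hy).fderiv_eq]
  · refine (indicator_of_notMem hy _).trans (Finset.sum_eq_zero fun i _ => ?_).symm
    unfold pd
    rw [(ibp_zero ha (hs' i) hy).fderiv_eq]
    simp

/-- A continuous function that vanishes near the boundary is integrable on the cell. -/
theorem integrableOn_cell {F : Eu 3 → ℝ} (hF : ContinuousOn F (DR c)) {a : ℝ} (ha : -1 < a)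
    (hs : ∀ y ∈ DR c, F y ≠ 0 → ∀ e : Ed c, a ≤ sc e y) : IntegrableOn F (Cell c) := by
  refine ((hF.mono fun y hy => hy.1).integrableOn_compact
    (isCompact_core ha 0 (2 * Real.pi))).of_forall_sdiff_eq_zero isOpen_Cell.measurableSet
    fun y hy => ?_
  by_contra h0
  exact hy.2 ⟨hy.1.1, hs y hy.1.1 h0, Ioo_subset_Icc_self hy.1.2⟩

end Pool.Agent.Lib.MP_570070_gt.An
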