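import Pool.Agent.Lib.MP_570070_gt.An.DivA
import Pool.Agent.Lib.MP_570070_gt.An.DivB
import Pool.Agent.Lib.MP_570070_gt.An.Ibp

open MeasureTheory Filter Topology Set
open scoped ContDiff InnerProductSpace

namespace Pool.Agent.Lib.MP_570070_gt.An

theorem divc_contDiff_mul (i : Fin 3) (a b : ℝ) {u : ℝ → ℝ} (hu : ContDiff ℝ ∞ u)
    {F : Eu 3 → ℝ} (hF : ContDiff ℝ ∞ F) : ContDiff ℝ ∞ fun z : Eu 3 => u (z i) * tot i a b F z :=
  (hu.comp (contDiff_apply ℝ ℝ i)).mul (contDiff_tot i a b hF)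

theorem divc_cont_line (i : Fin 3) {F : Eu 3 → ℝ} (hF : Continuous F) (y : Eu 3) :
    Continuous fun t : ℝ => F (Function.update y i t) :=
  hF.comp (continuous_const.update i continuous_id)

theorem divc_intOn {lo hi : Eu 3} {F : Eu 3 → ℝ} (hF : Continuous F) :
    IntegrableOn F (Icc lo hi) :=
  hF.continuousOn.integrableOn_compact isCompact_Icc

/-- One step. u is a weight with integral one on [lo i, hi i]. Put
F' = u (y i) * tot i F and b = prim i (lo i) (F - F'); then pd i b = F - F'. -/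
theorem div_step {lo hi : Eu 3} (h : lo ≤ hi) (i : Fin 3) {u : ℝ → ℝ} (hu : ContDiff ℝ ∞ u)
    (hu1 : ∫ t in lo i..hi i, u t = 1) : ∃ C, 0 ≤ C ∧ ∀ F : Eu 3 → ℝ, ContDiff ℝ ∞ F →
      (∀ y, pd i (prim i (lo i) fun z => F z - u (z i) * tot i (lo i) (hi i) F z) y =
        F y - u (y i) * tot i (lo i) (hi i) F y) ∧
      (∀ y, tot i (lo i) (hi i) (fun z => F z - u (z i) * tot i (lo i) (hi i) F z) y = 0) ∧
      ∫ y in Icc lo hi, u (y i) * tot i (lo i) (hi i) F y = ∫ y in Icc lo hi, F y ∧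
      ∫ y in Icc lo hi, (u (y i) * tot i (lo i) (hi i) F y) ^ 2 ≤
        C * ∫ y in Icc lo hi, F y ^ 2 ∧
      ∫ y in Icc lo hi, prim i (lo i) (fun z => F z - u (z i) * tot i (lo i) (hi i) F z) y ^ 2 ≤
        C * ∫ y in Icc lo hi, F y ^ 2 := by
  obtain ⟨M, hM⟩ := (isCompact_Icc (a := lo i) (b := hi i)).exists_bound_of_continuousOn
    hu.continuous.continuousOn
  refine ⟨M ^ 2 * (hi i - lo i) ^ 2 + (hi i - lo i) ^ 2 * (2 + 2 * (M ^ 2 * (hi i - lo i) ^ 2)),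
    by positivity, fun F hF => ?_⟩
  have hT := divc_contDiff_mul i (lo i) (hi i) hu hF
  have hG : ContDiff ℝ ∞ fun z : Eu 3 => F z - u (z i) * tot i (lo i) (hi i) F z := hF.sub hT
  have hI : 0 ≤ ∫ y in Icc lo hi, F y ^ 2 := integral_nonneg fun y => sq_nonneg _
  have h4 : ∫ y in Icc lo hi, (u (y i) * tot i (lo i) (hi i) F y) ^ 2 ≤
      M ^ 2 * (hi i - lo i) ^ 2 * ∫ y in Icc lo hi, F y ^ 2 := by
    calc ∫ y in Icc lo hi, (u (y i) * tot i (lo i) (hi i) F y) ^ 2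
        ≤ ∫ y in Icc lo hi, M ^ 2 * tot i (lo i) (hi i) F y ^ 2 := by
          refine setIntegral_mono_on (divc_intOn (hT.continuous.pow 2))
            (divc_intOn (continuous_const.mul ((continuous_tot i _ _ hF.continuous).pow 2)))
            measurableSet_Icc fun y hy => ?_
          rw [mul_pow]
          refine mul_le_mul_of_nonneg_right ?_ (sq_nonneg _)
          have h1 := hM (y i) ⟨hy.1 i, hy.2 i⟩
          rw [Real.norm_eq_abs] at h1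
          exact sq_le_sq' (abs_le.1 h1).1 (abs_le.1 h1).2
      _ = M ^ 2 * ∫ y in Icc lo hi, tot i (lo i) (hi i) F y ^ 2 := integral_const_mul _ _
      _ ≤ M ^ 2 * ((hi i - lo i) ^ 2 * ∫ y in Icc lo hi, F y ^ 2) :=
          mul_le_mul_of_nonneg_left (integral_tot_sq_le h i hF.continuous) (sq_nonneg _)
      _ = _ := by ring
  refine ⟨fun y => pd_prim i (lo i) hG y, fun y => ?_, ?_, ?_, ?_⟩
  · have h1 : ∀ t, (fun z : Eu 3 => F z - u (z i) * tot i (lo i) (hi i) F z)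
        (Function.update y i t) =
        F (Function.update y i t) - u t * tot i (lo i) (hi i) F y := by
      intro t
      simp only [Function.update_self, tot_update]
    have h2 : Continuous fun t => u t * tot i (lo i) (hi i) F y :=
      hu.continuous.mul continuous_const
    have h3 : tot i (lo i) (hi i) (fun z : Eu 3 => F z - u (z i) * tot i (lo i) (hi i) F z) y =
        ∫ t in lo i..hi i, (F (Function.update y i t) - u t * tot i (lo i) (hi i) F y) :=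
      intervalIntegral.integral_congr (fun t _ => h1 t)
    rw [h3, intervalIntegral.integral_sub
      ((divc_cont_line i hF.continuous y).intervalIntegrable _ _) (h2.intervalIntegrable _ _),
      intervalIntegral.integral_mul_const, hu1, one_mul]
    exact sub_self _
  · rw [integral_mul_tot h i hF.continuous hu.continuous, hu1, one_mul]
  · refine h4.trans (mul_le_mul_of_nonneg_right ?_ hI)
    have : 0 ≤ (hi i - lo i) ^ 2 * (2 + 2 * (M ^ 2 * (hi i - lo i) ^ 2)) := by positivity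
    linarith
  · have h5 : ∫ y in Icc lo hi, (F y - u (y i) * tot i (lo i) (hi i) F y) ^ 2 ≤
        (2 + 2 * (M ^ 2 * (hi i - lo i) ^ 2)) * ∫ y in Icc lo hi, F y ^ 2 := by
      calc ∫ y in Icc lo hi, (F y - u (y i) * tot i (lo i) (hi i) F y) ^ 2
          ≤ ∫ y in Icc lo hi, (2 * F y ^ 2 + 2 * (u (y i) * tot i (lo i) (hi i) F y) ^ 2) := by
            refine setIntegral_mono_on (divc_intOn (hG.continuous.pow 2))
              (divc_intOn ((continuous_const.mul (hF.continuous.pow 2)).add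
                (continuous_const.mul (hT.continuous.pow 2)))) measurableSet_Icc fun y _ => ?_
            nlinarith [sq_nonneg (F y + u (y i) * tot i (lo i) (hi i) F y)]
        _ = 2 * (∫ y in Icc lo hi, F y ^ 2) +
            2 * ∫ y in Icc lo hi, (u (y i) * tot i (lo i) (hi i) F y) ^ 2 := by
            have e1 : Continuous fun y => 2 * F y ^ 2 := continuous_const.mul (hF.continuous.pow 2)
            have e2 : Continuous fun y : Eu 3 => 2 * (u (y i) * tot i (lo i) (hi i) F y) ^ 2 :=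
              continuous_const.mul (hT.continuous.pow 2)
            rw [integral_add (divc_intOn e1) (divc_intOn e2), integral_const_mul,
              integral_const_mul]
        _ ≤ _ := by linarith
    refine (integral_prim_sq_le h i hG.continuous).trans ?_
    refine (mul_le_mul_of_nonneg_left h5 (sq_nonneg _)).trans ?_
    have : 0 ≤ M ^ 2 * (hi i - lo i) ^ 2 * ∫ y in Icc lo hi, F y ^ 2 := by positivity
    nlinarith

theorem divc_bump {a b : ℝ} (h : a < b) : ∃ u : ℝ → ℝ, ContDiff ℝ ∞ u ∧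
    (∀ t, u t ≠ 0 → t ∈ Icc a b) ∧ ∫ t in a..b, u t = 1 := by
  let f : ContDiffBump ((a + b) / 2) := ⟨(b - a) / 4, (b - a) / 2, by linarith, by linarith⟩
  have hs : ∀ t, f.normed volume t ≠ 0 → t ∈ Ioo a b := by
    intro t ht
    have h1 : t ∈ Function.support (f.normed volume) := ht
    rw [f.support_normed_eq, Metric.mem_ball, Real.dist_eq, abs_lt] at h1
    have h2 : f.rOut = (b - a) / 2 := rfl
    rw [h2] at h1
    constructor <;> linarith [h1.1, h1.2]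
  refine ⟨f.normed volume, f.contDiff_normed, fun t ht => Ioo_subset_Icc_self (hs t ht), ?_⟩
  rw [intervalIntegral.integral_eq_integral_of_support_subset
    (fun t ht => Ioo_subset_Ioc_self (hs t ht))]
  exact f.integral_normed

theorem divc_ne_zero {g : ℝ → ℝ} {a b : ℝ} (h : ∫ t in a..b, g t ≠ 0) : ∃ t, g t ≠ 0 := by
  by_contra hc
  push Not at hc
  simp [hc] at h

theorem divc_out {g : ℝ → ℝ} {a b x : ℝ} (hg : Continuous g)
    (hs : ∀ t, g t ≠ 0 → t ∈ Icc a b) (h0 : ∫ t in a..b, g t = 0) (hx : ∫ t in a..x, g t ≠ 0) :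
    x ∈ Icc a b := by
  by_contra hc
  apply hx
  have hz : ∀ p q : ℝ, (∀ t ∈ Ioo (min p q) (max p q), t ∉ Icc a b) → ∫ t in p..q, g t = 0 := by
    intro p q hpq
    rw [intervalIntegral.integral_congr_ae (g := fun _ => (0 : ℝ))]
    · simp
    · have : ∀ᵐ t : ℝ, t ≠ max p q := by
        simp [ae_iff]
      filter_upwards [this] with t ht htm
      by_contra hne
      exact hpq t ⟨htm.1, lt_of_le_of_ne htm.2 ht⟩ (hs t hne)
  rcases lt_or_ge x a with hxa | hxa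
  · refine hz a x fun t ht htm => ?_
    rw [max_eq_left hxa.le] at ht
    linarith [ht.2, htm.1]
  · have hbx : b < x := by
      by_contra hbx
      exact hc ⟨hxa, not_lt.1 hbx⟩
    rw [← intervalIntegral.integral_add_adjacent_intervals (b := b) (hg.intervalIntegrable _ _)
      (hg.intervalIntegrable _ _), h0, zero_add]
    refine hz b x fun t ht htm => ?_
    rw [min_eq_left hbx.le] at ht
    linarith [ht.1, htm.2]

theorem divc_update_per {i : Fin 3} (hi : i ≠ 2) (y : Eu 3) (t : ℝ) :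
    Function.update (y + per) i t = Function.update y i t + per := by
  funext j
  by_cases hj : j = i
  · subst hj
    simp [per, bas, hi]
  · simp [Function.update_of_ne hj]

theorem divc_per_apply {i : Fin 3} (hi : i ≠ 2) (y : Eu 3) : (y + per) i = y i := by
  simp [per, bas, hi]

theorem divc_per_two (y : Eu 3) : (y + per) 2 = y 2 + 2 * Real.pi := by
  simp [per, bas]

theorem divc_update_two (y : Eu 3) (t : ℝ) :
    Function.update (y + per) 2 t = Function.update y 2 t := by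
  funext j
  by_cases hj : j = 2
  · subst hj
    simp
  · simp [per, bas, hj]

theorem divc_update_two_add (y : Eu 3) (t : ℝ) :
    Function.update y 2 (t + 2 * Real.pi) = Function.update y 2 t + per := by
  funext j
  by_cases hj : j = 2
  · subst hj
    simp [per, bas]
  · simp [per, bas, hj]

theorem divc_tot_per {i : Fin 3} (hi : i ≠ 2) (a b : ℝ) {G : Eu 3 → ℝ}
    (hG : ∀ y, G (y + per) = G y) (y : Eu 3) : tot i a b G (y + per) = tot i a b G y := by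
  simp only [tot, divc_update_per hi, hG]

theorem divc_prim_per {i : Fin 3} (hi : i ≠ 2) (a : ℝ) {G : Eu 3 → ℝ}
    (hG : ∀ y, G (y + per) = G y) (y : Eu 3) : prim i a G (y + per) = prim i a G y := by
  simp only [prim, divc_update_per hi, hG, divc_per_apply hi]

theorem divc_tot_two_per (a b : ℝ) (G : Eu 3 → ℝ) (y : Eu 3) :
    tot 2 a b G (y + per) = tot 2 a b G y := by
  simp only [tot, divc_update_two]

theorem divc_prim_two_per {G : Eu 3 → ℝ} (hc : Continuous G) (hG : ∀ y, G (y + per) = G y)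
    (h0 : ∀ y, tot 2 0 (2 * Real.pi) G y = 0) (y : Eu 3) :
    prim 2 0 G (y + per) = prim 2 0 G y := by
  simp only [prim, divc_update_two, divc_per_two]
  have hg := divc_cont_line 2 hc y
  have hp : Function.Periodic (fun t : ℝ => G (Function.update y 2 t)) (2 * Real.pi) := by
    intro t
    simp only [divc_update_two_add, hG]
  rw [← intervalIntegral.integral_add_adjacent_intervals (b := y 2) (hg.intervalIntegrable _ _)
    (hg.intervalIntegrable _ _), hp.intervalIntegral_add_eq (y 2) 0, zero_add]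
  have h1 : ∫ t in (0 : ℝ)..2 * Real.pi, G (Function.update y 2 t) = 0 := h0 y
  rw [h1, add_zero]

theorem divc_pf {a₀ b₀ a₁ b₁ : ℝ} {G : Eu 3 → ℝ} (hG : ContDiff ℝ ∞ G)
    (hp : ∀ y, G (y + per) = G y) (hs : ∀ y, G y ≠ 0 → y 0 ∈ Icc a₀ b₀ ∧ y 1 ∈ Icc a₁ b₁) :
    Pf G := by
  refine ⟨hG, hp, |a₀| + |b₀| + |a₁| + |b₁|, fun y hy => ?_⟩
  obtain ⟨⟨h1, h2⟩, h3, h4⟩ := hs y hy
  have e1 := neg_abs_le a₀
  have e2 := le_abs_self b₀
  have e3 := neg_abs_le a₁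
  have e4 := le_abs_self b₁
  have e5 := abs_nonneg a₀
  have e6 := abs_nonneg b₀
  have e7 := abs_nonneg a₁
  have e8 := abs_nonneg b₁
  exact ⟨abs_le.2 ⟨by linarith, by linarith⟩, abs_le.2 ⟨by linarith, by linarith⟩⟩

theorem divc_sub_ne {x y : ℝ} (h : x - y ≠ 0) : x ≠ 0 ∨ y ≠ 0 := by
  by_contra hc
  push Not at hc
  simp [hc.1, hc.2] at h

theorem divc_int_B {lo hi : Eu 3} (h : lo ≤ hi) {u : Fin 3 → ℝ → ℝ}
    (hu1 : ∀ i, ∫ t in lo i..hi i, u i t = 1) : ∫ y in Icc lo hi, ∏ i, u i (y i) = 1 := by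
  rw [← Set.pi_univ_Icc, volume_pi, Measure.restrict_pi_pi, integral_fintype_prod_eq_prod]
  refine Finset.prod_eq_one fun i _ => ?_
  rw [← hu1 i, intervalIntegral.integral_of_le (h i), integral_Icc_eq_integral_Ioc]

/-- The box lemma. Box lo = (a₀, a₁, 0), hi = (b₀, b₁, 2π); weights u₂ = 1 / (2π), and u₀, u₁
normalised bumps supported in [a₀, b₀], [a₁, b₁] (ContDiffBump.normed). Apply div_step in the
directions 2, 0, 1: F₁ = u₂ tot₂ F, F₂ = u₀ tot₀ F₁, F₃ = u₁ tot₁ F₂. F₃ / (u₀ u₁) does not depend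
on any variable, so F₃ = m B with B = u₀ u₁ u₂, and m is the integral of F. The primitive in the
direction 2 is periodic because the integrand is periodic with zero mean; the primitives in the
directions 0, 1 vanish outside the rectangle because the total integral is zero. -/
theorem div_box {a₀ b₀ a₁ b₁ : ℝ} (h₀ : a₀ < b₀) (h₁ : a₁ < b₁) : ∃ (B : Eu 3 → ℝ) (C : ℝ),
    0 ≤ C ∧ Pf B ∧ (∀ y, B y ≠ 0 → y 0 ∈ Icc a₀ b₀ ∧ y 1 ∈ Icc a₁ b₁) ∧ ∫ y in Slab, B y = 1 ∧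
    ∀ F, Pf F → (∀ y, F y ≠ 0 → y 0 ∈ Icc a₀ b₀ ∧ y 1 ∈ Icc a₁ b₁) → ∃ b : Eu 3 → Eu 3,
      (∀ i, Pf fun y => b y i) ∧ (∀ y, b y ≠ 0 → y 0 ∈ Icc a₀ b₀ ∧ y 1 ∈ Icc a₁ b₁) ∧
      (∀ y, dvg b y = F y - (∫ z in Slab, F z) * B y) ∧
      ∫ y in Slab, ∑ i, b y i ^ 2 ≤ C * ∫ y in Slab, F y ^ 2 := by
  obtain ⟨u₀, hu₀, hs₀, hi₀⟩ := divc_bump h₀
  obtain ⟨u₁, hu₁, hs₁, hi₁⟩ := divc_bump h₁
  have hπ : 0 < 2 * Real.pi := Real.two_pi_pos
  obtain ⟨u₂, hu₂d⟩ : ∃ u₂ : ℝ → ℝ, u₂ = fun _ => (2 * Real.pi)⁻¹ := ⟨_, rfl⟩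
  have hu₂ : ContDiff ℝ ∞ u₂ := by rw [hu₂d]; exact contDiff_const
  have hu₂c : ∀ s t, u₂ s = u₂ t := by intro s t; rw [hu₂d]
  have hi₂ : ∫ t in (0 : ℝ)..2 * Real.pi, u₂ t = 1 := by
    rw [hu₂d, intervalIntegral.integral_const, smul_eq_mul, sub_zero, mul_inv_cancel₀ hπ.ne']
  obtain ⟨lo, hlo⟩ : ∃ lo : Eu 3, lo = ![a₀, a₁, 0] := ⟨_, rfl⟩
  obtain ⟨hi, hhi⟩ : ∃ hi : Eu 3, hi = ![b₀, b₁, 2 * Real.pi] := ⟨_, rfl⟩
  have l0 : lo 0 = a₀ := by rw [hlo]; rfl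
  have l1 : lo 1 = a₁ := by rw [hlo]; rfl
  have l2 : lo 2 = 0 := by rw [hlo]; rfl
  have r0 : hi 0 = b₀ := by rw [hhi]; rfl
  have r1 : hi 1 = b₁ := by rw [hhi]; rfl
  have r2 : hi 2 = 2 * Real.pi := by rw [hhi]; rfl
  have h : lo ≤ hi := by
    intro i
    fin_cases i
    · exact (l0.trans_le h₀.le).trans_eq r0.symm
    · exact (l1.trans_le h₁.le).trans_eq r1.symm
    · exact (l2.trans_le hπ.le).trans_eq r2.symm
  have hbox : ∀ {G : Eu 3 → ℝ}, (∀ y, G y ≠ 0 → y 0 ∈ Icc a₀ b₀ ∧ y 1 ∈ Icc a₁ b₁) →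
      ∫ y in Slab, G y = ∫ y in Icc lo hi, G y := by
    intro G hG
    refine integral_slab_eq_box l2 r2 ?_
    rw [l0, l1, r0, r1]
    exact hG
  obtain ⟨C₀, hC₀, H₀⟩ := div_step h 0 hu₀ (by rw [l0, r0]; exact hi₀)
  obtain ⟨C₁, hC₁, H₁⟩ := div_step h 1 hu₁ (by rw [l1, r1]; exact hi₁)
  obtain ⟨C₂, hC₂, H₂⟩ := div_step h 2 hu₂ (by rw [l2, r2]; exact hi₂)
  rw [l0, r0] at H₀
  rw [l1, r1] at H₁
  rw [l2, r2] at H₂
  obtain ⟨B, hB⟩ : ∃ B : Eu 3 → ℝ, B = fun y => u₀ (y 0) * u₁ (y 1) * u₂ (y 2) := ⟨_, rfl⟩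
  have hBs : ∀ y, B y ≠ 0 → y 0 ∈ Icc a₀ b₀ ∧ y 1 ∈ Icc a₁ b₁ := by
    intro y hy
    rw [hB] at hy
    have h1 := left_ne_zero_of_mul hy
    exact ⟨hs₀ _ (left_ne_zero_of_mul h1), hs₁ _ (right_ne_zero_of_mul h1)⟩
  have hB1 : ∫ y in Icc lo hi, B y = 1 := by
    rw [← divc_int_B h (u := ![u₀, u₁, u₂])]
    · simp only [hB, Fin.prod_univ_three]
      rfl
    · intro i
      fin_cases i
      · exact (by rw [l0, r0]; exact hi₀ : ∫ t in lo 0..hi 0, u₀ t = 1)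
      · exact (by rw [l1, r1]; exact hi₁ : ∫ t in lo 1..hi 1, u₁ t = 1)
      · exact (by rw [l2, r2]; exact hi₂ : ∫ t in lo 2..hi 2, u₂ t = 1)
  refine ⟨B, C₀ * C₂ + C₁ * (C₀ * C₂) + C₂, by positivity, divc_pf ?_ ?_ hBs, hBs,
    (hbox hBs).trans hB1, fun F hF hFs => ?_⟩
  · rw [hB]
    exact ((hu₀.comp (contDiff_apply ℝ ℝ 0)).mul (hu₁.comp (contDiff_apply ℝ ℝ 1))).mul
      (hu₂.comp (contDiff_apply ℝ ℝ 2))
  · intro y
    simp only [hB]
    rw [divc_per_apply (i := 0) (by decide), divc_per_apply (i := 1) (by decide),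
      hu₂c ((y + per) 2) (y 2)]
  obtain ⟨F₁, hF₁⟩ : ∃ F₁ : Eu 3 → ℝ, F₁ = fun y => u₂ (y 2) * tot 2 0 (2 * Real.pi) F y :=
    ⟨_, rfl⟩
  obtain ⟨F₂, hF₂⟩ : ∃ F₂ : Eu 3 → ℝ, F₂ = fun y => u₀ (y 0) * tot 0 a₀ b₀ F₁ y := ⟨_, rfl⟩
  obtain ⟨F₃, hF₃⟩ : ∃ F₃ : Eu 3 → ℝ, F₃ = fun y => u₁ (y 1) * tot 1 a₁ b₁ F₂ y := ⟨_, rfl⟩
  have e₁ : ∀ y, u₂ (y 2) * tot 2 0 (2 * Real.pi) F y = F₁ y := fun y => by rw [hF₁]
  have e₂ : ∀ y, u₀ (y 0) * tot 0 a₀ b₀ F₁ y = F₂ y := fun y => by rw [hF₂]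
  have e₃ : ∀ y, u₁ (y 1) * tot 1 a₁ b₁ F₂ y = F₃ y := fun y => by rw [hF₃]
  have s₁ : ContDiff ℝ ∞ F₁ := by rw [hF₁]; exact divc_contDiff_mul 2 _ _ hu₂ hF.smooth
  have s₂ : ContDiff ℝ ∞ F₂ := by rw [hF₂]; exact divc_contDiff_mul 0 _ _ hu₀ s₁
  have s₃ : ContDiff ℝ ∞ F₃ := by rw [hF₃]; exact divc_contDiff_mul 1 _ _ hu₁ s₂
  obtain ⟨A₂, T₂, I₂, Q₂, P₂⟩ := H₂ F hF.smooth
  obtain ⟨A₀, T₀, I₀, Q₀, P₀⟩ := H₀ F₁ s₁
  obtain ⟨A₁, T₁, I₁, -, P₁⟩ := H₁ F₂ s₂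
  simp only [e₁] at A₂ T₂ I₂ Q₂ P₂
  simp only [e₂] at A₀ T₀ I₀ Q₀ P₀
  simp only [e₃] at A₁ T₁ I₁ P₁
  have p₁ : ∀ y, F₁ (y + per) = F₁ y := fun y => by
    rw [← e₁, ← e₁, divc_tot_two_per, hu₂c ((y + per) 2) (y 2)]
  have p₂ : ∀ y, F₂ (y + per) = F₂ y := fun y => by
    rw [← e₂, ← e₂, divc_tot_per (by decide) _ _ p₁, divc_per_apply (by decide)]
  have p₃ : ∀ y, F₃ (y + per) = F₃ y := fun y => by
    rw [← e₃, ← e₃, divc_tot_per (by decide) _ _ p₂, divc_per_apply (by decide)]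
  have z₁ : ∀ y, F₁ y ≠ 0 → y 0 ∈ Icc a₀ b₀ ∧ y 1 ∈ Icc a₁ b₁ := fun y hy => by
    rw [← e₁] at hy
    obtain ⟨t, ht⟩ := divc_ne_zero (right_ne_zero_of_mul hy)
    simpa using hFs _ ht
  have z₂ : ∀ y, F₂ y ≠ 0 → y 0 ∈ Icc a₀ b₀ ∧ y 1 ∈ Icc a₁ b₁ := fun y hy => by
    rw [← e₂] at hy
    obtain ⟨t, ht⟩ := divc_ne_zero (right_ne_zero_of_mul hy)
    exact ⟨hs₀ _ (left_ne_zero_of_mul hy), by simpa using (z₁ _ ht).2⟩
  have z₃ : ∀ y, F₃ y ≠ 0 → y 0 ∈ Icc a₀ b₀ ∧ y 1 ∈ Icc a₁ b₁ := fun y hy => by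
    rw [← e₃] at hy
    obtain ⟨t, ht⟩ := divc_ne_zero (right_ne_zero_of_mul hy)
    exact ⟨by simpa using (z₂ _ ht).1, hs₁ _ (left_ne_zero_of_mul hy)⟩
  have hK : ∃ K : ℝ, ∀ y, F₃ y = K * B y := by
    refine ⟨∫ s in a₁..b₁, ∫ t in a₀..b₀, ∫ r in (0 : ℝ)..2 * Real.pi, F ![t, s, r], fun y => ?_⟩
    have hup : ∀ s t r, Function.update (Function.update (Function.update y 1 s) 0 t) 2 r =
        ![t, s, r] := by
      intro s t r
      funext j
      fin_cases j <;> simp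
    have k1 : ∀ s t, F₁ (Function.update (Function.update y 1 s) 0 t) =
        u₂ (y 2) * ∫ r in (0 : ℝ)..2 * Real.pi, F ![t, s, r] := by
      intro s t
      rw [← e₁, hu₂c _ (y 2)]
      simp only [tot, hup]
    have k2 : ∀ s, F₂ (Function.update y 1 s) =
        u₀ (y 0) * u₂ (y 2) * ∫ t in a₀..b₀, ∫ r in (0 : ℝ)..2 * Real.pi, F ![t, s, r] := by
      intro s
      rw [← e₂, Function.update_of_ne (by decide)]
      simp only [tot, k1]
      rw [intervalIntegral.integral_const_mul, mul_assoc]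
    rw [← e₃]
    simp only [tot, k2, hB]
    rw [intervalIntegral.integral_const_mul]
    ring
  obtain ⟨K, hK⟩ := hK
  have hKF : K = ∫ z in Slab, F z := by
    rw [hbox hFs, ← I₂, ← I₀, ← I₁]
    simp only [hK]
    rw [integral_const_mul, hB1, mul_one]
  have g₀ : ContDiff ℝ ∞ fun z => F₁ z - F₂ z := s₁.sub s₂
  have g₁ : ContDiff ℝ ∞ fun z => F₂ z - F₃ z := s₂.sub s₃
  have g₂ : ContDiff ℝ ∞ fun z => F z - F₁ z := hF.smooth.sub s₁
  have y₀ : ∀ y, F₁ y - F₂ y ≠ 0 → y 0 ∈ Icc a₀ b₀ ∧ y 1 ∈ Icc a₁ b₁ := fun y hy =>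
    (divc_sub_ne hy).elim (z₁ y) (z₂ y)
  have y₁ : ∀ y, F₂ y - F₃ y ≠ 0 → y 0 ∈ Icc a₀ b₀ ∧ y 1 ∈ Icc a₁ b₁ := fun y hy =>
    (divc_sub_ne hy).elim (z₂ y) (z₃ y)
  have y₂ : ∀ y, F y - F₁ y ≠ 0 → y 0 ∈ Icc a₀ b₀ ∧ y 1 ∈ Icc a₁ b₁ := fun y hy =>
    (divc_sub_ne hy).elim (hFs y) (z₁ y)
  have w₀ : ∀ y, prim 0 a₀ (fun z => F₁ z - F₂ z) y ≠ 0 →
      y 0 ∈ Icc a₀ b₀ ∧ y 1 ∈ Icc a₁ b₁ := fun y hy => by
    obtain ⟨t, ht⟩ := divc_ne_zero hy
    refine ⟨divc_out (divc_cont_line 0 g₀.continuous y) (fun t ht => ?_) (T₀ y) hy,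
      by simpa using (y₀ _ ht).2⟩
    simpa using (y₀ _ ht).1
  have w₁ : ∀ y, prim 1 a₁ (fun z => F₂ z - F₃ z) y ≠ 0 →
      y 0 ∈ Icc a₀ b₀ ∧ y 1 ∈ Icc a₁ b₁ := fun y hy => by
    obtain ⟨t, ht⟩ := divc_ne_zero hy
    refine ⟨by simpa using (y₁ _ ht).1,
      divc_out (divc_cont_line 1 g₁.continuous y) (fun t ht => ?_) (T₁ y) hy⟩
    simpa using (y₁ _ ht).2
  have w₂ : ∀ y, prim 2 0 (fun z => F z - F₁ z) y ≠ 0 →
      y 0 ∈ Icc a₀ b₀ ∧ y 1 ∈ Icc a₁ b₁ := fun y hy => by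
    obtain ⟨t, ht⟩ := divc_ne_zero hy
    simpa using y₂ _ ht
  have f₀ : Pf (prim 0 a₀ fun z => F₁ z - F₂ z) := divc_pf (contDiff_prim _ _ g₀)
    (divc_prim_per (by decide) _ fun y => by simp only [p₁, p₂]) w₀
  have f₁ : Pf (prim 1 a₁ fun z => F₂ z - F₃ z) := divc_pf (contDiff_prim _ _ g₁)
    (divc_prim_per (by decide) _ fun y => by simp only [p₂, p₃]) w₁
  have f₂ : Pf (prim 2 0 fun z => F z - F₁ z) := divc_pf (contDiff_prim _ _ g₂)
    (divc_prim_two_per g₂.continuous (fun y => by simp only [hF.per, p₁]) T₂) w₂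
  obtain ⟨q₀, hq₀⟩ : ∃ q, q = prim 0 a₀ fun z => F₁ z - F₂ z := ⟨_, rfl⟩
  obtain ⟨q₁, hq₁⟩ : ∃ q, q = prim 1 a₁ fun z => F₂ z - F₃ z := ⟨_, rfl⟩
  obtain ⟨q₂, hq₂⟩ : ∃ q, q = prim 2 0 fun z => F z - F₁ z := ⟨_, rfl⟩
  rw [← hq₀] at A₀ P₀ w₀ f₀
  rw [← hq₁] at A₁ P₁ w₁ f₁
  rw [← hq₂] at A₂ P₂ w₂ f₂
  have hsup : ∀ y, ¬ (y 0 ∈ Icc a₀ b₀ ∧ y 1 ∈ Icc a₁ b₁) → q₀ y = 0 ∧ q₁ y = 0 ∧ q₂ y = 0 :=
    fun y hy => ⟨by_contra fun hc => hy (w₀ y hc), by_contra fun hc => hy (w₁ y hc),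
      by_contra fun hc => hy (w₂ y hc)⟩
  refine ⟨fun y => ![q₀ y, q₁ y, q₂ y], fun i => ?_, fun y hy => ?_, fun y => ?_, ?_⟩
  · fin_cases i
    · exact f₀
    · exact f₁
    · exact f₂
  · by_contra hc
    obtain ⟨h1, h2, h3⟩ := hsup y hc
    apply hy
    funext j
    fin_cases j <;> simp [h1, h2, h3]
  · have : dvg (fun y => ![q₀ y, q₁ y, q₂ y]) y = pd 0 q₀ y + pd 1 q₁ y + pd 2 q₂ y := by
      rw [dvg, Fin.sum_univ_three]
      rfl
    rw [this, A₀, A₁, A₂, ← hKF, ← hK]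
    ring
  · have hsum : ∀ y, ∑ i, (![q₀ y, q₁ y, q₂ y] : Eu 3) i ^ 2 = q₀ y ^ 2 + q₁ y ^ 2 + q₂ y ^ 2 := by
      intro y
      rw [Fin.sum_univ_three]
      rfl
    simp only [hsum]
    have c₀ : Continuous fun y => q₀ y ^ 2 := f₀.smooth.continuous.pow 2
    have c₁ : Continuous fun y => q₁ y ^ 2 := f₁.smooth.continuous.pow 2
    have c₂ : Continuous fun y => q₂ y ^ 2 := f₂.smooth.continuous.pow 2
    have c₃ : Continuous fun y => q₀ y ^ 2 + q₁ y ^ 2 := c₀.add c₁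
    rw [hbox (G := fun y => q₀ y ^ 2 + q₁ y ^ 2 + q₂ y ^ 2) fun y hy => by
        by_contra hc
        obtain ⟨h1, h2, h3⟩ := hsup y hc
        simp [h1, h2, h3] at hy,
      hbox (G := fun y => F y ^ 2) fun y hy => hFs y (fun hc => by simp [hc] at hy),
      integral_add (divc_intOn c₃) (divc_intOn c₂), integral_add (divc_intOn c₀) (divc_intOn c₁)]
    have n₁ := mul_le_mul_of_nonneg_left Q₂ hC₀
    have n₂ := mul_le_mul_of_nonneg_left (Q₀.trans n₁) hC₁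
    nlinarith

end Pool.Agent.Lib.MP_570070_gt.An
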