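import Pool.Agent.Lib.MP_570070_gt.An.DivC

open MeasureTheory Filter Topology Set
open scoped ContDiff InnerProductSpace

namespace Pool.Agent.Lib.MP_570070_gt.An

/-- A cut-off function. -/
structure IsCut (ζ : Eu 3 → ℝ) : Prop where
  pf : Pf ζ
  nonneg : ∀ y, 0 ≤ ζ y
  le_one : ∀ y, ζ y ≤ 1

/-- ζ F minus its mass times B is a divergence, with a bound. -/
def Good (c : Par) (B ζ : Eu 3 → ℝ) : Prop :=
  ∃ C a : ℝ, 0 ≤ C ∧ -1 < a ∧ ∀ F, Pf F → ∃ b : Eu 3 → Eu 3, (∀ i, Pf fun y => b y i) ∧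
    (∀ y, b y ≠ 0 → y ∈ DR c ∧ ∀ e : Ed c, a ≤ sc e y) ∧
    (∀ y, dvg b y = ζ y * F y - (∫ z in Slab, ζ z * F z) * B y) ∧
    ∫ y in Slab, ∑ i, b y i ^ 2 ≤ C * ∫ y in Slab, F y ^ 2

/-- B - B' is a divergence. -/
def Sim (c : Par) (B B' : Eu 3 → ℝ) : Prop :=
  ∃ (a : ℝ) (b : Eu 3 → Eu 3), -1 < a ∧ (∀ i, Pf fun y => b y i) ∧
    (∀ y, b y ≠ 0 → y ∈ DR c ∧ ∀ e : Ed c, a ≤ sc e y) ∧ ∀ y, dvg b y = B y - B' y

variable {c : Par} {B B' B'' ζ ζ' : Eu 3 → ℝ}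

theorem dvg_add {b b' : Eu 3 → Eu 3} (hb : ∀ i, Pf fun y => b y i) (hb' : ∀ i, Pf fun y => b' y i)
    (t : ℝ) (y : Eu 3) : dvg (fun z => b z + t • b' z) y = dvg b y + t * dvg b' y := by
  simp only [dvg, pd, Finset.mul_sum, ← Finset.sum_add_distrib]
  refine Finset.sum_congr rfl fun i _ => ?_
  have h1 := ((hb i).smooth.differentiable (by simp) y).hasFDerivAt
  have h2 := ((hb' i).smooth.differentiable (by simp) y).hasFDerivAt
  have h3 := (h1.fun_add (h2.const_mul t)).fderiv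
  simp only [Pi.add_apply, Pi.smul_apply, smul_eq_mul]
  rw [h3]
  simp

theorem divd_sq {F : Eu 3 → ℝ} (h : Pf F) : IntegrableOn (fun y => F y ^ 2) Slab := by
  simpa only [sq] using (h.mul h).integrableOn

theorem divd_sum {b : Eu 3 → Eu 3} (hb : ∀ i, Pf fun y => b y i) :
    IntegrableOn (fun y => ∑ i, b y i ^ 2) Slab :=
  integrable_finsetSum _ fun i _ => divd_sq (hb i)

theorem divd_sq_nonneg (F : Eu 3 → ℝ) : 0 ≤ ∫ y in Slab, F y ^ 2 :=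
  integral_nonneg fun _ => sq_nonneg _

theorem divd_sq_le {F G : Eu 3 → ℝ} (hF : Pf F) (hG : Pf G) (h : ∀ y, G y ^ 2 ≤ F y ^ 2) :
    ∫ y in Slab, G y ^ 2 ≤ ∫ y in Slab, F y ^ 2 := integral_mono (divd_sq hG) (divd_sq hF) h

theorem divd_pf {b b' : Eu 3 → Eu 3} (hb : ∀ i, Pf fun y => b y i) (hb' : ∀ i, Pf fun y => b' y i)
    (t : ℝ) (i : Fin 3) : Pf fun y => (b y + t • b' y) i := (hb i).add ((hb' i).const_mul t)

theorem divd_supp {b b' : Eu 3 → Eu 3} {a a' : ℝ}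
    (h : ∀ y, b y ≠ 0 → y ∈ DR c ∧ ∀ e : Ed c, a ≤ sc e y)
    (h' : ∀ y, b' y ≠ 0 → y ∈ DR c ∧ ∀ e : Ed c, a' ≤ sc e y) (t : ℝ) (y : Eu 3)
    (hy : b y + t • b' y ≠ 0) : y ∈ DR c ∧ ∀ e : Ed c, min a a' ≤ sc e y := by
  by_cases h0 : b y = 0
  · have h1 : b' y ≠ 0 := fun h1 => hy (by rw [h0, h1, smul_zero, add_zero])
    exact ⟨(h' y h1).1, fun e => (min_le_right _ _).trans ((h' y h1).2 e)⟩
  · exact ⟨(h y h0).1, fun e => (min_le_left _ _).trans ((h y h0).2 e)⟩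

theorem divd_bound {b b' : Eu 3 → Eu 3} (hb : ∀ i, Pf fun y => b y i)
    (hb' : ∀ i, Pf fun y => b' y i) (t : ℝ) : ∫ y in Slab, ∑ i, (b y + t • b' y) i ^ 2 ≤
      2 * (∫ y in Slab, ∑ i, b y i ^ 2) + 2 * t ^ 2 * ∫ y in Slab, ∑ i, b' y i ^ 2 := by
  rw [← integral_const_mul, ← integral_const_mul,
    ← integral_add ((divd_sum hb).const_mul _) ((divd_sum hb').const_mul _)]
  refine integral_mono (divd_sum (divd_pf hb hb' t))
    (((divd_sum hb).const_mul _).add ((divd_sum hb').const_mul _)) fun y => ?_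
  simp only [Finset.mul_sum, ← Finset.sum_add_distrib, Pi.add_apply, Pi.smul_apply, smul_eq_mul]
  exact Finset.sum_le_sum fun i _ => by nlinarith [sq_nonneg (b y i - t * b' y i)]

theorem divd_cs {F G : Eu 3 → ℝ} (hF : Pf F) (hG : Pf G) :
    (∫ y in Slab, F y * G y) ^ 2 ≤ (∫ y in Slab, F y ^ 2) * ∫ y in Slab, G y ^ 2 := by
  have h := discrim_le_zero (a := ∫ y in Slab, F y ^ 2) (b := 2 * ∫ y in Slab, F y * G y)
    (c := ∫ y in Slab, G y ^ 2) fun t => by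
      have i1 := (divd_sq hF).const_mul (t * t)
      have i2 := (hF.mul hG).integrableOn.const_mul (2 * t)
      have e : ∫ y in Slab, (t * F y + G y) ^ 2 =
          ∫ y in Slab, (t * t * F y ^ 2 + 2 * t * (F y * G y)) + G y ^ 2 :=
        integral_congr_ae (Eventually.of_forall fun y => by ring)
      have h0 := divd_sq_nonneg fun y => t * F y + G y
      rw [e, integral_add (i1.fun_add i2) (divd_sq hG), integral_add i1 i2, integral_const_mul,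
        integral_const_mul] at h0
      linarith
  rw [discrim] at h
  linarith

theorem Sim.symm (h : Sim c B B') : Sim c B' B := by
  obtain ⟨a, b, ha, hb, hs, hd⟩ := h
  refine ⟨min a a, fun z => b z + (-2 : ℝ) • b z, by simpa using ha, divd_pf hb hb _,
    divd_supp hs hs _, fun y => ?_⟩
  rw [dvg_add hb hb, hd]
  ring

theorem Sim.trans (h : Sim c B B') (h' : Sim c B' B'') : Sim c B B'' := by
  obtain ⟨a, b, ha, hb, hs, hd⟩ := h
  obtain ⟨a', b', ha', hb', hs', hd'⟩ := h'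
  refine ⟨min a a', fun z => b z + (1 : ℝ) • b' z, lt_min ha ha', divd_pf hb hb' _,
    divd_supp hs hs' _, fun y => ?_⟩
  rw [dvg_add hb hb', hd, hd']
  ring

theorem IsCut.union (h : IsCut ζ) (h' : IsCut ζ') : IsCut fun y => ζ y + ζ' y - ζ y * ζ' y :=
  ⟨(h.pf.add h'.pf).sub (h.pf.mul h'.pf),
    fun y => by nlinarith [h.nonneg y, h'.nonneg y, h.le_one y, h'.le_one y],
    fun y => by nlinarith [h.nonneg y, h'.nonneg y, h.le_one y, h'.le_one y]⟩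

/-- Apply the second hypothesis to F - ζ F. -/
theorem Good.union (h : Good c B ζ) (h' : Good c B ζ') (hc : IsCut ζ) (hc' : IsCut ζ') :
    Good c B fun y => ζ y + ζ' y - ζ y * ζ' y := by
  obtain ⟨C, a, hC, ha, h⟩ := h
  obtain ⟨C', a', hC', ha', h'⟩ := h'
  refine ⟨2 * C + 2 * C', min a a', by positivity, lt_min ha ha', fun F hF => ?_⟩
  have hG : Pf fun y => F y - ζ y * F y := hF.sub (hc.pf.mul hF)
  obtain ⟨b, hb, hs, hd, hn⟩ := h F hF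
  obtain ⟨b', hb', hs', hd', hn'⟩ := h' _ hG
  refine ⟨fun z => b z + (1 : ℝ) • b' z, divd_pf hb hb' _, divd_supp hs hs' _, fun y => ?_,
    (divd_bound hb hb' 1).trans ?_⟩
  · have e : ∫ z in Slab, (ζ z + ζ' z - ζ z * ζ' z) * F z =
        (∫ z in Slab, ζ z * F z) + ∫ z in Slab, ζ' z * (F z - ζ z * F z) := by
      rw [← integral_add (hc.pf.mul hF).integrableOn (hc'.pf.mul hG).integrableOn]
      exact integral_congr_ae (Eventually.of_forall fun y => by ring)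
    rw [dvg_add hb hb', hd, hd', e]
    ring
  · have h1 := divd_sq_le hF hG fun y => by
      have : (1 - ζ y) ^ 2 ≤ 1 := by nlinarith [hc.nonneg y, hc.le_one y]
      nlinarith [mul_le_mul_of_nonneg_right this (sq_nonneg (F y))]
    have h2 := mul_le_mul_of_nonneg_left h1 hC'
    linarith

/-- The mass m satisfies m ^ 2 ≤ (∫ ζ ^ 2) (∫ F ^ 2). -/
theorem Good.of_sim (h : Good c B ζ) (hc : IsCut ζ) (hs : Sim c B B') : Good c B' ζ := by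
  obtain ⟨C, a, hC, ha, h⟩ := h
  obtain ⟨a', b', ha', hb', hs', hd'⟩ := hs
  have hK : 0 ≤ ∫ y in Slab, ∑ i, b' y i ^ 2 :=
    integral_nonneg fun _ => Finset.sum_nonneg fun _ _ => sq_nonneg _
  have hA := divd_sq_nonneg ζ
  refine ⟨2 * C + 2 * ((∫ y in Slab, ζ y ^ 2) * ∫ y in Slab, ∑ i, b' y i ^ 2), min a a',
    by positivity, lt_min ha ha', fun F hF => ?_⟩
  obtain ⟨b, hb, hs, hd, hn⟩ := h F hF
  refine ⟨fun z => b z + (∫ z in Slab, ζ z * F z) • b' z, divd_pf hb hb' _, divd_supp hs hs' _,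
    fun y => ?_, (divd_bound hb hb' _).trans ?_⟩
  · rw [dvg_add hb hb', hd, hd']
    ring
  · have h1 := mul_le_mul_of_nonneg_right (divd_cs hc.pf hF) hK
    linarith

theorem Good.sim (h : Good c B ζ) (hB' : Pf B') (h1 : ∀ y, ζ y * B' y = B' y)
    (hm : ∫ y in Slab, B' y = 1) : Sim c B' B := by
  obtain ⟨C, a, -, ha, h⟩ := h
  obtain ⟨b, hb, hs, hd, -⟩ := h B' hB'
  refine ⟨a, b, ha, hb, hs, fun y => ?_⟩
  simp only [hd, h1, hm, one_mul]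

/-- A closed rectangle inside the planar domain. -/
theorem good_box {a₀ b₀ a₁ b₁ : ℝ} (h₀ : a₀ < b₀) (h₁ : a₁ < b₁)
    (hD : ∀ y : Eu 3, y 0 ∈ Icc a₀ b₀ → y 1 ∈ Icc a₁ b₁ → y ∈ DR c) : ∃ B, Pf B ∧
    (∀ y, B y ≠ 0 → y 0 ∈ Icc a₀ b₀ ∧ y 1 ∈ Icc a₁ b₁) ∧ ∫ y in Slab, B y = 1 ∧
    ∀ ζ, IsCut ζ → (∀ y, ζ y ≠ 0 → y 0 ∈ Icc a₀ b₀ ∧ y 1 ∈ Icc a₁ b₁) → Good c B ζ := by
  obtain ⟨B, C, hC, hB, hBs, hB1, h⟩ := div_box h₀ h₁
  have hK : Icc (![a₀, a₁, 0] : Eu 3) ![b₀, b₁, 0] ⊆ DR c := fun y hy =>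
    hD y ⟨hy.1 0, hy.2 0⟩ ⟨hy.1 1, hy.2 1⟩
  have hmem : ∀ s t, s ∈ Icc a₀ b₀ → t ∈ Icc a₁ b₁ →
      (![s, t, 0] : Eu 3) ∈ Icc (![a₀, a₁, 0] : Eu 3) ![b₀, b₁, 0] := fun s t hs ht =>
    ⟨fun i => by fin_cases i <;> simp [hs.1, ht.1], fun i => by fin_cases i <;> simp [hs.2, ht.2]⟩
  have hmin : ∀ e : Ed c, ∃ a, -1 < a ∧ ∀ y : Eu 3, y 0 ∈ Icc a₀ b₀ → y 1 ∈ Icc a₁ b₁ →
      a ≤ sc e y := fun e => by
    obtain ⟨x, hx, hm⟩ := isCompact_Icc.exists_isMinOn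
      ⟨_, hmem a₀ a₁ ⟨le_rfl, h₀.le⟩ ⟨le_rfl, h₁.le⟩⟩ ((contDiffOn_sc e).continuousOn.mono hK)
    refine ⟨sc e x, (hK hx e).2, fun y h0 h1 => ?_⟩
    rw [← sc_congr e (y := y) (y' := ![y 0, y 1, 0]) rfl rfl]
    exact hm (hmem _ _ h0 h1)
  choose a ha ha' using hmin
  obtain ⟨e₀, he₀⟩ := Finite.exists_min a
  refine ⟨B, hB, hBs, hB1, fun ζ hc hζ => ⟨C, a e₀, hC, ha e₀, fun F hF => ?_⟩⟩
  obtain ⟨b, hb, hs, hd, hn⟩ := h _ (hc.pf.mul hF) fun y hy => hζ y (left_ne_zero_of_mul hy)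
  refine ⟨b, hb, fun y hy => ⟨hD y (hs y hy).1 (hs y hy).2, fun e =>
    (he₀ e).trans (ha' e y (hs y hy).1 (hs y hy).2)⟩, hd, hn.trans ?_⟩
  refine mul_le_mul_of_nonneg_left (divd_sq_le hF (hc.pf.mul hF) fun y => ?_) hC
  have : ζ y ^ 2 ≤ 1 := by nlinarith [hc.nonneg y, hc.le_one y]
  nlinarith [mul_le_mul_of_nonneg_right this (sq_nonneg (F y))]

/-- A product of two one-dimensional bumps. -/
theorem exists_cut (x₀ x₁ : ℝ) {r R : ℝ} (hr : 0 < r) (hR : r < R) : ∃ ζ, IsCut ζ ∧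
    (∀ y, |y 0 - x₀| ≤ r → |y 1 - x₁| ≤ r → ζ y = 1) ∧
    ∀ y, ζ y ≠ 0 → |y 0 - x₀| ≤ R ∧ |y 1 - x₁| ≤ R := by
  let f : ContDiffBump x₀ := ⟨r, R, hr, hR⟩
  let g : ContDiffBump x₁ := ⟨r, R, hr, hR⟩
  have hs : ∀ y : Eu 3, f (y 0) * g (y 1) ≠ 0 → |y 0 - x₀| ≤ R ∧ |y 1 - x₁| ≤ R := fun y hy => by
    have h1 : y 0 ∈ Function.support f := left_ne_zero_of_mul hy
    have h2 : y 1 ∈ Function.support g := right_ne_zero_of_mul hy
    rw [ContDiffBump.support_eq, Metric.mem_ball, Real.dist_eq] at h1 h2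
    exact ⟨h1.le, h2.le⟩
  refine ⟨fun y => f (y 0) * g (y 1), ⟨⟨?_, fun y => by simp, R + |x₀| + |x₁|, fun y hy => ?_⟩,
    fun y => mul_nonneg f.nonneg g.nonneg,
    fun y => mul_le_one₀ f.le_one g.nonneg g.le_one⟩, fun y h0 h1 => ?_, hs⟩
  · exact (f.contDiff.comp (contDiff_apply ℝ ℝ 0)).mul (g.contDiff.comp (contDiff_apply ℝ ℝ 1))
  · have h1 := abs_sub_abs_le_abs_sub (y 0) x₀
    have h2 := abs_sub_abs_le_abs_sub (y 1) x₁
    have h3 := hs y hy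
    constructor <;> linarith [h3.1, h3.2, abs_nonneg x₀, abs_nonneg x₁]
  · beta_reduce
    rw [f.one_of_mem_closedBall (by rwa [Metric.mem_closedBall, Real.dist_eq]),
      g.one_of_mem_closedBall (by rwa [Metric.mem_closedBall, Real.dist_eq]), one_mul]

end Pool.Agent.Lib.MP_570070_gt.An
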