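import Pool.Agent.Lib.MP_570070_gt.An.DivD
import Pool.Agent.Lib.MP_570070_gt.An.GeoC

open MeasureTheory Filter Topology Set
open scoped ContDiff InnerProductSpace

namespace Pool.Agent.Lib.MP_570070_gt.An

variable {c : Par}

/-- Near z some good cut-off is equal to one (on a square times the line of angles). -/
def GoodAt (c : Par) (B : Eu 3 → ℝ) (z : Eu 3) : Prop :=
  ∃ ζ r, 0 < r ∧ IsCut ζ ∧ Good c B ζ ∧ ∀ y : Eu 3, |y 0 - z 0| < r → |y 1 - z 1| < r → ζ y = 1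

theorem dive_icc {t x R : ℝ} : t ∈ Icc (x - R) (x + R) ↔ |t - x| ≤ R := by
  rw [mem_Icc, abs_le]
  constructor <;> rintro ⟨h1, h2⟩ <;> constructor <;> linarith

theorem dive_ball {y z : Eu 3} {r : ℝ} (h : dist y z < r) (i : Fin 3) : |y i - z i| < r :=
  (dist_le_pi_dist y z i).trans_lt h

theorem dive_square {z : Eu 3} (hz : z ∈ DR c) :
    ∃ R, 0 < R ∧ ∀ y : Eu 3, |y 0 - z 0| ≤ R → |y 1 - z 1| ≤ R → y ∈ DR c := by
  obtain ⟨ε, hε, h⟩ := Metric.isOpen_iff.1 isOpen_DR z hz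
  refine ⟨ε / 2, half_pos hε, fun y h0 h1 => ?_⟩
  refine (mem_DR_congr (y := ![y 0, y 1, z 2]) (y' := y) rfl rfl).2 (h ?_)
  rw [Metric.mem_ball, dist_pi_lt_iff hε]
  intro i
  fin_cases i
  · exact h0.trans_lt (half_lt_self hε)
  · exact h1.trans_lt (half_lt_self hε)
  · simpa using hε

theorem dive_box {x₀ x₁ R : ℝ} (hR : 0 < R)
    (hD : ∀ y : Eu 3, |y 0 - x₀| ≤ R → |y 1 - x₁| ≤ R → y ∈ DR c) : ∃ B, Pf B ∧
    (∀ y, B y ≠ 0 → |y 0 - x₀| ≤ R ∧ |y 1 - x₁| ≤ R) ∧ ∫ y in Slab, B y = 1 ∧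
    ∀ ζ, IsCut ζ → (∀ y, ζ y ≠ 0 → |y 0 - x₀| ≤ R ∧ |y 1 - x₁| ≤ R) → Good c B ζ := by
  simpa only [dive_icc] using good_box (c := c) (a₀ := x₀ - R) (b₀ := x₀ + R) (a₁ := x₁ - R)
    (b₁ := x₁ + R) (by linarith) (by linarith) (by simpa only [dive_icc] using hD)

theorem dive_low {x₀ x₁ R : ℝ}
    (hD : ∀ y : Eu 3, |y 0 - x₀| ≤ R → |y 1 - x₁| ≤ R → y ∈ DR c) : ∃ a : ℝ, -1 < a ∧
    ∀ y : Eu 3, |y 0 - x₀| ≤ R → |y 1 - x₁| ≤ R → ∀ e : Ed c, a ≤ sc e y := by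
  have hK : Icc (![x₀ - R, x₁ - R, 0] : Eu 3) ![x₀ + R, x₁ + R, 0] ⊆ DR c := fun y hy =>
    hD y (dive_icc.1 ⟨hy.1 0, hy.2 0⟩) (dive_icc.1 ⟨hy.1 1, hy.2 1⟩)
  choose a ha ha' using fun e : Ed c => isCompact_Icc.exists_forall_le'
    ((contDiffOn_sc e).continuousOn.mono hK) fun y hy => (hK hy e).2
  obtain ⟨e₀, he₀⟩ := Finite.exists_min a
  refine ⟨a e₀, ha e₀, fun y h0 h1 e => (he₀ e).trans ?_⟩
  rw [sc_congr e (y := ![y 0, y 1, 0]) (y' := y) rfl rfl]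
  refine ha' e _ ⟨fun i => ?_, fun i => ?_⟩ <;> fin_cases i
  · exact (dive_icc.2 h0).1
  · exact (dive_icc.2 h1).1
  · exact le_rfl
  · exact (dive_icc.2 h0).2
  · exact (dive_icc.2 h1).2
  · exact le_rfl

/-- Take a square of radius 3r about z inside the planar domain (isOpen_DR, mem_DR_congr), its
bump B₁ and cut-offs ζ₁ (one on radius r), ζ₂ (one on radius 2r) from good_box and exists_cut.
If z' is GoodAt B and is within r of z, the bump B₂ of a tiny square about z' is Sim to B and to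
B₁, so ζ₁ is good for B. -/
theorem goodAt_of_mem_closure {B : Eu 3 → ℝ} {z : Eu 3} (hz : z ∈ DR c)
    (h : z ∈ closure {y | y ∈ DR c ∧ GoodAt c B y}) : GoodAt c B z := by
  obtain ⟨R, hR, hD⟩ := dive_square hz
  obtain ⟨B₁, -, -, -, hB₁⟩ := dive_box hR hD
  obtain ⟨ζ₁, hc₁, h1, hs₁⟩ := exists_cut (z 0) (z 1) (half_pos hR) (half_lt_self hR)
  have hg₁ := hB₁ ζ₁ hc₁ hs₁
  obtain ⟨z', ⟨-, ζ, r, hr, -, hg, hζ⟩, hd⟩ := Metric.mem_closure_iff.1 h (R / 4) (by linarith)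
  rw [dist_comm] at hd
  have hρ : 0 < min (r / 2) (R / 4) := lt_min (half_pos hr) (by linarith)
  have hn : ∀ (y : Eu 3) (i : Fin 3), |y i - z' i| ≤ min (r / 2) (R / 4) →
      |y i - z i| ≤ R / 2 := fun y i hy => by
    linarith [abs_sub_le (y i) (z' i) (z i), dive_ball hd i, min_le_right (r / 2) (R / 4)]
  obtain ⟨B₂, hp₂, hs₂, hm₂, -⟩ := dive_box (c := c) (x₀ := z' 0) (x₁ := z' 1) hρ fun y h0 h1 =>
    hD y (by linarith [hn y 0 h0]) (by linarith [hn y 1 h1])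
  have s1 : Sim c B₂ B := hg.sim hp₂ (fun y => by
    by_cases hy : B₂ y = 0
    · rw [hy, mul_zero]
    · obtain ⟨h0, h1⟩ := hs₂ y hy
      rw [hζ y (by linarith [min_le_left (r / 2) (R / 4)])
        (by linarith [min_le_left (r / 2) (R / 4)]), one_mul]) hm₂
  have s2 : Sim c B₂ B₁ := hg₁.sim hp₂ (fun y => by
    by_cases hy : B₂ y = 0
    · rw [hy, mul_zero]
    · rw [h1 y (hn y 0 (hs₂ y hy).1) (hn y 1 (hs₂ y hy).2), one_mul]) hm₂
  exact ⟨ζ₁, R / 2, half_pos hR, hc₁, hg₁.of_sim hc₁ (s2.symm.trans s1),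
    fun y h0 h1' => h1 y h0.le h1'.le⟩

/-- Open, closed, non-empty in the preconnected set DR. -/
theorem exists_goodAt (c : Par) : ∃ (B : Eu 3 → ℝ) (a : ℝ), -1 < a ∧ Pf B ∧
    (∀ y, B y ≠ 0 → y ∈ DR c ∧ ∀ e : Ed c, a ≤ sc e y) ∧ ∀ z ∈ DR c, GoodAt c B z := by
  obtain ⟨z, hz⟩ := nonempty_DR (c := c)
  obtain ⟨R, hR, hD⟩ := dive_square hz
  obtain ⟨B, hp, hs, -, hB⟩ := dive_box hR hD
  obtain ⟨a, ha, ha'⟩ := dive_low hD
  obtain ⟨ζ₁, hc₁, h1, hs₁⟩ := exists_cut (z 0) (z 1) (half_pos hR) (half_lt_self hR)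
  have hU : IsOpen {y | y ∈ DR c ∧ GoodAt c B y} := by
    refine isOpen_iff_mem_nhds.2 ?_
    rintro x ⟨hx, ζ, r, hr, hc, hg, hζ⟩
    filter_upwards [isOpen_DR.mem_nhds hx, Metric.ball_mem_nhds x (half_pos hr)] with x' h2 h3
    refine ⟨h2, ζ, r / 2, half_pos hr, hc, hg, fun y h4 h5 => hζ y ?_ ?_⟩
    · linarith [abs_sub_le (y 0) (x' 0) (x 0), dive_ball h3 0]
    · linarith [abs_sub_le (y 1) (x' 1) (x 1), dive_ball h3 1]
  have key : DR c ⊆ {y | y ∈ DR c ∧ GoodAt c B y} :=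
    isPreconnected_DR.subset_of_closure_inter_subset hU
      ⟨z, hz, hz, ζ₁, R / 2, half_pos hR, hc₁, hB ζ₁ hc₁ hs₁, fun y h0 h1' => h1 y h0.le h1'.le⟩
      fun y hy => ⟨hy.2, goodAt_of_mem_closure hy.2 hy.1⟩
  exact ⟨B, a, ha, hp, fun y hy => ⟨hD y (hs y hy).1 (hs y hy).2, ha' y (hs y hy).1 (hs y hy).2⟩,
    fun y hy => (key hy).2⟩

/-- IsCompact.induction_on for isCompact_core (with y 2 = 0) and Good.union give a good cut-off
that is one on the whole core; apply it to the extension by zero (pf_indicator). -/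
theorem exists_div (c : Par) : ∃ (B : Eu 3 → ℝ) (C a : ℝ), 0 ≤ C ∧ -1 < a ∧ Pf B ∧
    (∀ y, B y ≠ 0 → y ∈ DR c ∧ ∀ e : Ed c, a ≤ sc e y) ∧
    ∀ F : Eu 3 → ℝ, ContDiffOn ℝ ∞ F (DR c) → (∀ y ∈ DR c, F (y + per) = F y) →
      (∀ y ∈ DR c, F y ≠ 0 → ∀ e : Ed c, -1 / 2 ≤ sc e y) → ∃ b : Eu 3 → Eu 3,
        ContDiff ℝ ∞ b ∧ (∀ y, b (y + per) = b y) ∧
        (∀ y, b y ≠ 0 → y ∈ DR c ∧ ∀ e : Ed c, a ≤ sc e y) ∧
        (∀ y ∈ DR c, dvg b y = F y - (∫ z in Cell c, F z) * B y) ∧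
        ∫ y in Cell c, ∑ i, b y i ^ 2 ≤ C * ∫ y in Cell c, F y ^ 2 := by
  obtain ⟨B, a, ha, hp, hs, hB⟩ := exists_goodAt c
  have hhalf : (-1 : ℝ) < -1 / 2 := by norm_num
  obtain ⟨ζ, -, ⟨C, a', hC, ha', hg⟩, hζ⟩ := (isCompact_core (c := c) hhalf 0 0).induction_on
    (p := fun s => ∃ ζ, IsCut ζ ∧ Good c B ζ ∧
      ∀ z ∈ s, ∀ y : Eu 3, y 0 = z 0 → y 1 = z 1 → ζ y = 1)
    (by
      obtain ⟨z, hz⟩ := nonempty_DR (c := c)
      obtain ⟨ζ, -, -, hc, hg, -⟩ := hB z hz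
      exact ⟨ζ, hc, hg, fun _ h => h.elim⟩)
    (fun s t hst ⟨ζ, hc, hg, h⟩ => ⟨ζ, hc, hg, fun z hz => h z (hst hz)⟩)
    (by
      rintro s t ⟨ζ, hc, hg, h⟩ ⟨ζ', hc', hg', h'⟩
      refine ⟨_, hc.union hc', hg.union hg' hc hc', ?_⟩
      rintro z (hz | hz) y h0 h1
      · rw [h z hz y h0 h1]
        ring
      · rw [h' z hz y h0 h1]
        ring)
    (by
      intro x hx
      obtain ⟨ζ, r, hr, hc, hg, h⟩ := hB x hx.1
      refine ⟨_, mem_nhdsWithin_of_mem_nhds (Metric.ball_mem_nhds x hr), ζ, hc, hg,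
        fun z hz y h0 h1 => h y ?_ ?_⟩
      · rw [h0]
        exact dive_ball hz 0
      · rw [h1]
        exact dive_ball hz 1)
  refine ⟨B, C, min a a', hC, lt_min ha ha', hp,
    fun y hy => ⟨(hs y hy).1, fun e => (min_le_left _ _).trans ((hs y hy).2 e)⟩,
    fun F hF hFp hFs => ?_⟩
  obtain ⟨b, hb, hbs, hbd, hbi⟩ := hg _ (pf_indicator hF hFp hhalf hFs)
  have h1 : ∀ y, ζ y * (DR c).indicator F y = (DR c).indicator F y := by
    intro y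
    by_cases hy : y ∈ DR c
    · rw [indicator_of_mem hy]
      by_cases h0 : F y = 0
      · rw [h0, mul_zero]
      · rw [hζ ![y 0, y 1, 0] ⟨(mem_DR_congr rfl rfl).2 hy, fun e => ?_, le_rfl, le_rfl⟩ y rfl rfl,
          one_mul]
        rw [sc_congr e (y := y) (y' := ![y 0, y 1, 0]) rfl rfl]
        exact hFs y hy h0 e
    · rw [indicator_of_notMem hy, mul_zero]
  have h2 : ∀ y, (DR c).indicator (fun y => ∑ i, b y i ^ 2) y = ∑ i, b y i ^ 2 := by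
    intro y
    by_cases hy : y ∈ DR c
    · rw [indicator_of_mem hy]
    · have h3 : b y = 0 := by
        by_contra h4
        exact hy (hbs y h4).1
      rw [indicator_of_notMem hy, h3]
      simp
  have h3 : ∀ y, (DR c).indicator F y ^ 2 = (DR c).indicator (fun y => F y ^ 2) y := by
    intro y
    by_cases hy : y ∈ DR c
    · rw [indicator_of_mem hy, indicator_of_mem hy]
    · rw [indicator_of_notMem hy, indicator_of_notMem hy, zero_pow two_ne_zero]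
  simp only [h1, integral_slab_indicator] at hbd
  simp only [h3, integral_slab_indicator] at hbi
  refine ⟨b, contDiff_pi.2 fun i => (hb i).smooth, fun y => funext fun i => (hb i).per y,
    fun y hy => ⟨(hbs y hy).1, fun e => (min_le_right _ _).trans ((hbs y hy).2 e)⟩,
    fun y hy => by rw [hbd, indicator_of_mem hy], ?_⟩
  rw [← integral_slab_indicator (c := c)]
  simpa only [h2] using hbi

end Pool.Agent.Lib.MP_570070_gt.An
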