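import Pool.Agent.Lib.MP_570070_gt.An.SBas

/-! Extension to the neighbours of a form given in one piece. -/

open MeasureTheory Filter Topology Set
open scoped ContDiff InnerProductSpace

namespace Pool.Agent.Lib.MP_570070_gt.An

variable {c : Par} {P : Type} {Γ : Gl c P} {k l : ℕ}

theorem ext_contDiffAt {F : Eu 3 → Alt 3 k} {y : Eu 3}
    (h : ∀ v : Fin k → Eu 3, ContDiffAt ℝ ∞ (fun z => F z v) y) : ContDiffAt ℝ ∞ F y := by
  let ev : Alt 3 k →L[ℝ] ((Fin k → Fin 3) → ℝ) := ContinuousLinearMap.pi fun I =>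
    ContinuousAlternatingMap.apply ℝ (Eu 3) ℝ fun l => Pi.basisFun ℝ (Fin 3) (I l)
  obtain ⟨g, hg⟩ := ContinuousLinearMap.HasLeftInverse.of_injective_of_finiteDimensional (f := ev)
    fun α β e => ContinuousAlternatingMap.toAlternatingMap_injective
      ((Pi.basisFun ℝ (Fin 3)).ext_alternating fun I _ => congrFun e I)
  rw [show F = fun z => g (ev (F z)) from funext fun z => (hg (F z)).symm]
  exact g.contDiff.contDiffAt.comp y (contDiffAt_pi.2 fun I => h _)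

theorem ext_contDiffAt_comp {α : Eu 3 → Alt 3 k} {A : Eu 3 → Eu 3 →L[ℝ] Eu 3} {y : Eu 3}
    (hα : ContDiffAt ℝ ∞ α y) (hA : ContDiffAt ℝ ∞ A y) :
    ContDiffAt ℝ ∞ (fun z => (α z).compContinuousLinearMap (A z)) y := by
  refine ext_contDiffAt fun v => ?_
  exact ((ContinuousAlternatingMap.toContinuousMultilinearMapCLM ℝ : Alt 3 k →L[ℝ]
    _).analyticAt_uncurry_of_multilinear.contDiffAt (n := ∞)).comp y
    (hα.prodMk (contDiffAt_pi.2 fun l => hA.clm_apply (contDiffAt_const (c := v l))))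

/-- Smooth, periodic, zero near the boundary. -/
structure IsP (c : Par) (a : ℝ) (α : Eu 3 → Alt 3 k) : Prop where
  lt : -1 < a
  smooth : ContDiffOn ℝ ∞ α (DR c)
  per : ∀ y ∈ DR c, α (y + per) = α y
  supp : ∀ y ∈ DR c, α y ≠ 0 → ∀ e : Ed c, a ≤ sc e y

variable {a : ℝ} {α : Eu 3 → Alt 3 k} {p₀ p : P} {y y' : Eu 3} {e : Ed c}

theorem extP_self (p₀ : P) (α : Eu 3 → Alt 3 k) : extP Γ p₀ α p₀ = α :=
  funext fun _ => if_pos rfl

theorem extP_zero (h : p ≠ p₀) (h' : ∀ e, Γ.σ e p = p₀ → 1 ≤ sc e y) : extP Γ p₀ α p y = 0 := by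
  rw [extP, if_neg h]
  exact Finset.sum_eq_zero fun e _ => if_neg fun h1 => (h' e h1.1).not_gt h1.2

theorem extP_flip (hα : IsP c a α) (h : Γ.σ e p = p₀) (f : Flip e y y') :
    extP Γ p₀ α p y = (α y').compContinuousLinearMap (fl e y y') := by
  have f' := flip_flipPt f.1 f.sc_lt
  obtain ⟨n, rfl⟩ := f'.unique f
  rw [extP, if_neg fun h1 => Γ.ne e p (h.trans h1.symm),
    sum_collar f.1 (e := e) (by linarith [f.sc_lt]) _ fun e' h1 => if_neg fun h2 => by
      linarith [h2.2], if_pos ⟨h, f.sc_lt⟩, per_int hα.per f'.2.1,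
    fl_congr (e := e) (y := y) (y' := flipPt e y) (z := y) (z' := flipPt e y + n • per) rfl rfl
      (by simp) (by simp)]

/-- The form lives in the piece p₀ with a margin. -/
def InP (Γ : Gl c P) (b : ℝ) (p₀ : P) (Ω : Fam P k) : Prop :=
  ∀ p, ∀ y ∈ DR c, Ω p y ≠ 0 → p = p₀ ∨ ∃ e, Γ.σ e p = p₀ ∧ sc e y ≤ b

theorem InP.inPiece {b : ℝ} {Ω : Fam P k} (h : InP Γ b p₀ Ω) (hb : b < 1) : InPiece Γ p₀ Ω :=
  fun p y hy h1 => (h p y hy h1).imp_right fun ⟨e, h2, h3⟩ => ⟨e, h2, h3.trans_lt hb⟩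

theorem InP.eventually {b : ℝ} {Ω : Fam P k} (h : InP Γ b p₀ Ω) (hy : y ∈ DR c) (hp : p ≠ p₀)
    (h' : ∀ e, Γ.σ e p = p₀ → b < sc e y) : ∀ᶠ z in 𝓝 y, Ω p z = 0 := by
  have h4 : ∀ᶠ z in 𝓝 y, ∀ e, Γ.σ e p = p₀ → b < sc e z := by
    refine eventually_all.2 fun e => ?_
    by_cases h1 : Γ.σ e p = p₀
    · exact (continuousAt_const.eventually_lt ((contDiffOn_sc e).continuousOn.continuousAt
        (isOpen_DR.mem_nhds hy)) (h' e h1)).mono fun z hz _ => hz
    · exact Eventually.of_forall fun _ h => absurd h h1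
  filter_upwards [isOpen_DR.eventually_mem hy, h4] with z h5 h6
  exact by_contra fun h7 => (h p z h5 h7).elim hp fun ⟨e, h8, h9⟩ => (h6 e h8).not_ge h9

theorem InP.d {b : ℝ} {Ω : Fam P k} (h : InP Γ b p₀ Ω) : InP Γ b p₀ (dF Ω) := by
  intro p y hy h1
  by_contra h2
  rw [not_or, not_exists] at h2
  exact h1 (dF_eq_zero (h.eventually hy h2.1 fun e he => not_le.1 fun h3 => h2.2 e ⟨he, h3⟩))

theorem InPiece.mono {Ω : Fam P k} {Θ : Fam P l} (h : InPiece Γ p₀ Ω)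
    (h' : ∀ p y, Ω p y = 0 → Θ p y = 0) : InPiece Γ p₀ Θ :=
  fun p y hy h1 => h p y hy fun h2 => h1 (h' p y h2)

theorem IsP.inP (hα : IsP c a α) (p₀ : P) : InP Γ (-a) p₀ (extP Γ p₀ α) := by
  intro p y hy h
  refine or_iff_not_imp_left.2 fun hp => ?_
  obtain ⟨e, h1, h2⟩ : ∃ e, Γ.σ e p = p₀ ∧ sc e y < 1 := by_contra fun h1 =>
    h (extP_zero hp fun e he => not_lt.1 fun h2 => h1 ⟨e, he, h2⟩)
  have f := flip_flipPt hy h2
  have h3 := hα.supp _ f.2.1 (fun h3 => h (by rw [extP_flip hα h1 f, h3]; rfl)) e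
  exact ⟨e, h1, by linarith [f.2.2.1]⟩

theorem IsP.inPiece (hα : IsP c a α) (p₀ : P) : InPiece Γ p₀ (extP Γ p₀ α) :=
  (hα.inP p₀).inPiece (by linarith [hα.lt])

theorem IsP.isT (hα : IsP c a α) (p₀ : P) : IsT Γ (extP Γ p₀ α) := by
  refine ⟨fun p y hy => ?_, fun p y hy => ?_, fun p e y y' f => ?_, ?_⟩
  · by_cases hp : p = p₀
    · rw [hp, extP_self]
      exact hα.smooth y hy
    refine ContDiffAt.contDiffWithinAt ?_
    by_cases h : ∃ e, Γ.σ e p = p₀ ∧ sc e y < 1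
    · obtain ⟨e, h1, h2⟩ := h
      have f := flip_flipPt hy h2
      obtain ⟨τ, h3, h4, h5⟩ := f.exists_local
      refine (ext_contDiffAt_comp (α := α ∘ τ) (ContDiffAt.comp y ?_ h4)
        (h4.fderiv_right (m := ∞) le_rfl)).congr_of_eventuallyEq (h5.mono fun z hz => ?_)
      · rw [h3]
        exact hα.smooth.contDiffAt (isOpen_DR.mem_nhds f.2.1)
      · rw [extP_flip hα h1 hz.1, ← hz.2.fderiv]
        rfl
    · exact contDiffAt_const.congr_of_eventuallyEq ((hα.inP p₀).eventually hy hp fun e he =>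
        lt_of_lt_of_le (by linarith [hα.lt]) (not_lt.1 fun h1 => h ⟨e, he, h1⟩))
  · have h0 : (y + An.per) 0 = y 0 := by simp
    have h1 : (y + An.per) 1 = y 1 := by simp
    by_cases hp : p = p₀
    · rw [hp, extP_self]
      exact hα.per y hy
    by_cases h : ∃ e, Γ.σ e p = p₀ ∧ sc e y < 1
    · obtain ⟨e, h2, h3⟩ := h
      have f := flip_flipPt hy h3
      have f' := f.add_per_left 1
      rw [one_smul] at f'
      rw [extP_flip hα h2 f, extP_flip hα h2 f', fl_congr h0 h1 rfl rfl]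
    · have h2 : ∀ e, Γ.σ e p = p₀ → 1 ≤ sc e y := fun e he => not_lt.1 fun h1 => h ⟨e, he, h1⟩
      rw [extP_zero hp h2, extP_zero hp fun e he => by rw [sc_congr e h0 h1]; exact h2 e he]
  · by_cases h1 : Γ.σ e p = p₀
    · rw [extP_flip hα h1 f, h1, extP_self]
    by_cases h2 : p = p₀
    · rw [extP_flip hα ((Γ.invol e p).trans h2) f.symm, h2, extP_self]
      ext v
      exact congrArg (α y) (funext fun i => (DFunLike.congr_fun f.fl_comp (v i)).symm)
    rw [extP_zero h2, extP_zero h1]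
    · rfl
    · intro e' he
      have : e ≠ e' := fun h => h2 (by rw [← he, ← h, Γ.invol])
      linarith [sc_disj f.2.1 this (by linarith [f.symm.sc_lt])]
    · intro e' he
      have : e ≠ e' := fun h => h1 (by rw [← he, h])
      linarith [sc_disj f.1 this (by linarith [f.sc_lt])]
  · refine ((finite_range fun e => Γ.σ e p₀).insert p₀).subset fun p ⟨y, hy, h⟩ => ?_
    rcases hα.inP p₀ p y hy h with h1 | ⟨e, h1, -⟩
    · exact Or.inl h1
    · exact Or.inr ⟨e, h1 ▸ Γ.invol e p⟩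

/-- Forms that live in one piece are determined by their values there. -/
theorem UpL2.j_eq_of_piece (U : UpL2 Γ) {Ω Ω' : Fam P k} (h : IsT Γ Ω) (h' : IsT Γ Ω')
    (g : InPiece Γ p₀ Ω) (g' : InPiece Γ p₀ Ω') (e : ∀ y ∈ DR c, Ω p₀ y = Ω' p₀ y) :
    U.j k Ω = U.j k Ω' := by
  refine U.ext_inner fun Θ hΘ => ?_
  rw [real_inner_comm, U.piece k p₀ _ _ h hΘ g, real_inner_comm, U.piece k p₀ _ _ h' hΘ g']
  refine setIntegral_congr_fun isOpen_Cell.measurableSet fun y hy => ?_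
  simp only [e y hy.1]

theorem InPiece.sub {Ω Ω' : Fam P k} (h : InPiece Γ p₀ Ω) (h' : InPiece Γ p₀ Ω') (t : ℝ) :
    InPiece Γ p₀ (Ω - t • Ω') := fun p y hy h1 => by
  by_cases h2 : Ω p y = 0
  · exact h' p y hy fun h3 => h1 (by simp [h2, h3])
  · exact h p y hy h2

end Pool.Agent.Lib.MP_570070_gt.An
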