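import Pool.Agent.Lib.MP_570070_gt.An.GeoB

open MeasureTheory Filter Topology Set
open scoped ContDiff InnerProductSpace

namespace Pool.Agent.Lib.MP_570070_gt.An

variable {c : Par} {e : Ed c} {y y' : Eu 3}

theorem fl_apply (e : Ed c) (y y' v : Eu 3) : fl e y y' v =
    ![-((y' 0 - ctr e) * (((y 0 - ctr e) * v 0 + y 1 * v 1) / rsq e y)) - c.ε e * y' 1 * v 2,
      -(y' 1 * (((y 0 - ctr e) * v 0 + y 1 * v 1) / rsq e y)) + c.ε e * (y' 0 - ctr e) * v 2,
      c.ε e * (((y 0 - ctr e) * v 1 - y 1 * v 0) / rsq e y)] := by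
  ext i
  fin_cases i <;> simp [fl, Matrix.toLin'_apply, Matrix.mulVec, dotProduct, Fin.sum_univ_three] <;>
    ring

theorem fl_congr {z z' : Eu 3} (h0 : z 0 = y 0) (h1 : z 1 = y 1) (h0' : z' 0 = y' 0)
    (h1' : z' 1 = y' 1) : fl e z z' = fl e y y' := by
  simp only [fl, h0, h1, h0', h1', rsq_congr e h0 h1]

theorem Flip.symm (h : Flip e y y') : Flip e y' y := by
  obtain ⟨h1, h2, h3, h4, h5, h6, h7⟩ := h
  exact ⟨h2, h1, by rw [h3, neg_neg], h6, h7, h4, h5⟩

theorem Flip.sc_lt (h : Flip e y y') : sc e y < 1 := by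
  have h1 := (h.2.1 e).2
  rw [h.2.2.1] at h1
  linarith

theorem Flip.edge_eq {e' : Ed c} {y'' : Eu 3} (h : Flip e y y') (h' : Flip e' y y'') :
    e = e' := by
  by_contra hne
  have h1 := sc_disj h.1 hne (by linarith [h.sc_lt])
  linarith [h'.sc_lt]

theorem Flip.rsq_mul (h : Flip e y y') : rsq e y * rsq e y' = Real.exp (4 * mid e) := by
  have h1 := h.2.2.1
  have h2 : sg e ≠ 0 := fun h0 => by simpa [h0] using sg_sq e
  rw [sc, sc, ← mul_neg] at h1
  have h3 := mul_left_cancel₀ h2 h1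
  rw [← Real.exp_log (h.1 e).1, ← Real.exp_log (h.2.1 e).1, ← Real.exp_add]
  congr 1
  linarith

theorem Flip.add_per_left (h : Flip e y y') (n : ℤ) : Flip e (y + n • per) y' := by
  have h0 : (y + n • per) 0 = y 0 := by simp
  have h1 : (y + n • per) 1 = y 1 := by simp
  have h2 : (y + n • per) 2 = y 2 + n * (2 * Real.pi) := by simp
  unfold Flip
  rw [mem_DR_congr h0 h1, sc_congr e h0 h1, rsq_congr e h0 h1, h0, h1, h2,
    Real.cos_add_int_mul_two_pi, Real.sin_add_int_mul_two_pi]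
  exact h

theorem Flip.add_per_right (h : Flip e y y') (n : ℤ) : Flip e y (y' + n • per) :=
  (h.symm.add_per_left n).symm

/-- Real.Angle.cos_sin_inj, or Real.cos_eq_cos_iff. -/
theorem Flip.unique {y'' : Eu 3} (h : Flip e y y') (h' : Flip e y y'') :
    ∃ n : ℤ, y'' = y' + n • per := by
  have hr : rsq e y'' = rsq e y' :=
    mul_left_cancel₀ (h.1 e).1.ne' (h'.rsq_mul.trans h.rsq_mul.symm)
  have hs : √(rsq e y) ≠ 0 := (Real.sqrt_pos.2 (h.1 e).1).ne'
  have he : c.ε e ≠ 0 := fun h0 => by simpa [h0] using eps_sq e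
  obtain ⟨-, -, -, h4, h5, h6, h7⟩ := h
  obtain ⟨-, -, -, k4, k5, k6, k7⟩ := h'
  rw [hr] at k4 k5
  obtain ⟨n, hn⟩ := Real.Angle.angle_eq_iff_two_pi_dvd_sub.1 (Real.Angle.cos_sin_inj
    (mul_left_cancel₀ hs (k6.symm.trans h6))
    (mul_left_cancel₀ hs (mul_left_cancel₀ he (k7.symm.trans h7))))
  refine ⟨n, funext fun i => ?_⟩
  fin_cases i
  · simp; linarith
  · simp; linarith
  · simp; linarith

theorem flipa_mem {z : Eu 3} (h0 : 0 < rsq e z) (h1 : -1 < sc e z) (h2 : sc e z < 1) :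
    z ∈ DR c := by
  intro e'
  by_cases hne : e' = e
  · rw [hne]; exact ⟨h0, h1⟩
  have hm : (0 : ℝ) ≤ c.m := Nat.cast_nonneg _
  have hj : ∀ j : Fin (c.m + 1), (0 : ℝ) ≤ (j : ℕ) ∧ ((j : ℕ) : ℝ) ≤ c.m := fun j =>
    ⟨Nat.cast_nonneg _, by exact_mod_cast Nat.lt_succ_iff.1 j.2⟩
  have hx : ∀ x : ℝ, 0 ≤ x → (x + 1) ^ 2 ≤ Real.exp (2 * x) := fun x hx => by
    rw [two_mul, Real.exp_add, sq]
    exact mul_self_le_mul_self (by linarith) (Real.add_one_le_exp x)
  rcases e with _ | j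
  · rcases e' with _ | j'
    · exact absurd rfl hne
    have h3 : ((c.m : ℝ) + 3 + 1) ^ 2 < rsq (none : Ed c) z := by
      refine (hx _ (by linarith)).trans_lt ((Real.lt_log_iff_exp_lt h0).1 ?_)
      simp only [sc, sg, mid] at h2
      linarith
    have h4 : 1 < rsq (some j' : Ed c) z := by
      by_contra h
      simp only [rsq, ctr, not_lt, sub_zero] at h h3
      obtain ⟨k1, k2⟩ := hj j'
      have k3 := abs_le.1 ((sq_le_one_iff_abs_le_one (z 0 - (j' : ℕ))).1
        (by nlinarith [sq_nonneg (z 1)]))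
      nlinarith [sq_nonneg (z 0 - (j' : ℕ)), k3.1, k3.2]
    refine ⟨by linarith, ?_⟩
    have := Real.log_pos h4
    simp only [sc, sg, mid]
    linarith
  have h3 : rsq (some j : Ed c) z < 1 / 4 := by
    have k1 : rsq (some j : Ed c) z < Real.exp (-(2 * 2)) := by
      refine (Real.log_lt_iff_lt_exp h0).1 ?_
      simp only [sc, sg, mid] at h2
      linarith
    refine k1.trans_le ?_
    rw [Real.exp_neg, one_div]
    exact inv_anti₀ (by norm_num) (le_trans (by norm_num) (hx 2 (by norm_num)))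
  obtain ⟨k1, k2⟩ := hj j
  have k3 : |z 0 - (j : ℕ)| < 1 / 2 := by
    refine abs_lt_of_sq_lt_sq ?_ (by norm_num)
    simp only [rsq, ctr] at h3
    nlinarith [sq_nonneg (z 1)]
  obtain ⟨k4, k5⟩ := abs_lt.1 k3
  rcases e' with _ | j'
  · have h4 : 0 < rsq (none : Ed c) z := by
      rcases Nat.eq_zero_or_pos j with h | h
      · simpa only [rsq, ctr, h, Nat.cast_zero] using h0
      · have : (1 : ℝ) ≤ (j : ℕ) := by exact_mod_cast h
        simp only [rsq, ctr, sub_zero]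
        nlinarith [sq_nonneg (z 1)]
    refine ⟨h4, ?_⟩
    have h5 : Real.log (rsq (none : Ed c) z) < 2 * (c.m + 5) := by
      refine (Real.log_lt_iff_lt_exp h4).2 (lt_of_lt_of_le ?_ (hx _ (by linarith)))
      simp only [rsq, ctr, sub_zero] at h3 ⊢
      nlinarith [sq_nonneg (z 0 - (j : ℕ))]
    simp only [sc, sg, mid]
    linarith
  have h4 : 1 / 4 < rsq (some j' : Ed c) z := by
    have k6 : (j' : ℕ) ≠ j := fun h => hne (congrArg some (Fin.ext h))
    simp only [rsq, ctr]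
    rcases k6.lt_or_gt with h | h
    · have : ((j' : ℕ) : ℝ) + 1 ≤ (j : ℕ) := by exact_mod_cast h
      nlinarith [sq_nonneg (z 1)]
    · have : ((j : ℕ) : ℝ) + 1 ≤ (j' : ℕ) := by exact_mod_cast h
      nlinarith [sq_nonneg (z 1)]
  refine ⟨by linarith, ?_⟩
  have h5 : -(2 * 2) < Real.log (rsq (some j' : Ed c) z) := by
    refine (Real.lt_log_iff_exp_lt (by linarith)).2 (lt_of_le_of_lt ?_ h4)
    rw [Real.exp_neg, one_div]
    exact inv_anti₀ (by norm_num) (le_trans (by norm_num) (hx 2 (by norm_num)))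
  simp only [sc, sg, mid]
  linarith

/-- For the other edges use sc_disj in the form: a point with positive rsq e and
|sc e| < 1 lies in DR (prove this from the explicit radii). -/
theorem flip_flipPt (hy : y ∈ DR c) (he : sc e y < 1) : Flip e y (flipPt e y) := by
  have hr := (hy e).1
  have hs : 0 < √(rsq e y) := Real.sqrt_pos.2 hr
  have hR : 0 < Real.exp (2 * mid e) / √(rsq e y) := div_pos (Real.exp_pos _) hs
  have e0 : flipPt e y 0 = ctr e + Real.exp (2 * mid e) / √(rsq e y) * Real.cos (y 2) := rfl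
  have e1 : flipPt e y 1 = c.ε e * (Real.exp (2 * mid e) / √(rsq e y) * Real.sin (y 2)) := rfl
  have e2 : flipPt e y 2 = c.ε e * Complex.arg ⟨y 0 - ctr e, y 1⟩ := rfl
  have h1 : rsq e (flipPt e y) = (Real.exp (2 * mid e) / √(rsq e y)) ^ 2 := by
    rw [rsq, e0, e1, add_sub_cancel_left, mul_pow (c.ε e), eps_sq, one_mul, mul_pow, mul_pow,
      ← mul_add, Real.cos_sq_add_sin_sq, mul_one]
  have h2 : sc e (flipPt e y) = -sc e y := by
    rw [sc, sc, h1, Real.log_pow, Real.log_div (Real.exp_pos _).ne' hs.ne', Real.log_exp,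
      Real.log_sqrt hr.le]
    push_cast
    ring
  have h3 : ‖(⟨y 0 - ctr e, y 1⟩ : ℂ)‖ = √(rsq e y) := by
    rw [Complex.norm_eq_sqrt_sq_add_sq, rsq]
  have h4 := Complex.norm_mul_cos_arg ⟨y 0 - ctr e, y 1⟩
  have h5 := Complex.norm_mul_sin_arg ⟨y 0 - ctr e, y 1⟩
  rw [h3] at h4 h5
  refine ⟨hy, flipa_mem (e := e) (h1 ▸ pow_pos hR 2) (by rw [h2]; linarith)
    (by rw [h2]; linarith [(hy e).2]), h2, ?_, ?_, ?_, ?_⟩
  · rw [h1, Real.sqrt_sq hR.le, e0, add_sub_cancel_left]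
  · rw [h1, Real.sqrt_sq hR.le, e1]
  · rw [e2]
    rcases c.hε e with h | h <;> simp only [h, one_mul, neg_mul, Real.cos_neg, h4]
  · rw [e2]
    rcases c.hε e with h | h <;>
      simp only [h, one_mul, neg_mul, Real.sin_neg, mul_neg, neg_neg, h5]

theorem Flip.kap_eq (h : Flip e y y') : kap e y' = 1 - kap e y := by
  rw [kap, kap, ← smoothTransition_one_sub, h.2.2.1]
  congr 1
  ring

theorem Flip.eta_eq (h : Flip e y y') : eta c y' = 1 - eta c y := by
  rw [eta_collar h.1 (e := e) (by linarith [h.sc_lt]),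
    eta_collar h.2.1 (e := e) (by linarith [h.symm.sc_lt]), h.kap_eq]

theorem Flip.fl_comp (h : Flip e y y') :
    (fl e y' y).comp (fl e y y') = ContinuousLinearMap.id ℝ (Eu 3) := by
  have h1 := (h.1 e).1.ne'
  have h2 := (h.2.1 e).1.ne'
  ext1 v
  rw [ContinuousLinearMap.comp_apply, fl_apply e y y', fl_apply]
  ext i
  fin_cases i <;> simp only [Fin.zero_eta, Fin.mk_one, Fin.reduceFinMk, Matrix.cons_val_zero,
      Matrix.cons_val_one, Matrix.cons_val, ContinuousLinearMap.id_apply] <;>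
    rcases c.hε e with h | h <;> rw [h] <;> field_simp <;> simp only [rsq] <;> ring

theorem Flip.gUp_fl (h : Flip e y y') (v w : Eu 3) :
    gUp c y' (fl e y y' v) (fl e y y' w) = gUp c y v w := by
  have h1 := (h.1 e).1
  have h2 := (h.2.1 e).1
  rw [gUp, gUp, lam_collar h.1 h.sc_lt.le, lam_collar h.2.1 h.symm.sc_lt.le, inv_pow, inv_pow,
    Real.sq_sqrt h1.le, Real.sq_sqrt h2.le, fl_apply, fl_apply]
  simp only [Matrix.cons_val_zero, Matrix.cons_val_one, Matrix.cons_val]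
  rcases c.hε e with h | h <;> rw [h] <;> field_simp <;> simp only [rsq] <;> ring

theorem Flip.det_fl (h : Flip e y y') :
    lam c y' ^ 2 * LinearMap.det (fl e y y' : Eu 3 →ₗ[ℝ] Eu 3) = lam c y ^ 2 := by
  have h1 := (h.1 e).1
  have h2 := (h.2.1 e).1
  rw [lam_collar h.1 h.sc_lt.le, lam_collar h.2.1 h.symm.sc_lt.le, inv_pow, inv_pow,
    Real.sq_sqrt h1.le, Real.sq_sqrt h2.le, fl, LinearMap.coe_toContinuousLinearMap,
    LinearMap.det_toLin', Matrix.det_fin_three]
  simp only [Matrix.of_apply, Matrix.cons_val', Matrix.cons_val_zero, Matrix.cons_val_one,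
    Matrix.cons_val, Matrix.cons_val_fin_one]
  rcases c.hε e with h | h <;> rw [h] <;> field_simp <;> simp only [rsq] <;> ring

end Pool.Agent.Lib.MP_570070_gt.An
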