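import Pool.Agent.Lib.MP_570070_gt.An.Defs

/-!
The building block of the example and the upstairs description of forms.
A point of a piece is y = (y 0, y 1, y 2): a point of a planar domain and an angle.
-/

open MeasureTheory Filter Topology Set
open scoped ContDiff InnerProductSpace

namespace Pool.Agent.Lib.MP_570070_gt.An

noncomputable section

/-- Number of holes (m + 1 inner holes and the outer circle) and the gluing signs. -/
structure Par where
  m : ℕ
  ε : Option (Fin (m + 1)) → ℝ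
  hε : ∀ e, ε e = 1 ∨ ε e = -1

/-- Boundary circles of the planar domain: none is the outer circle. -/
abbrev Ed (c : Par) : Type := Option (Fin (c.m + 1))

variable {c : Par}

/-- The centre (ctr e, 0) of the circle e. -/
def ctr : Ed c → ℝ
  | none => 0
  | some j => (j : ℕ)

/-- Inner circles have sign 1, the outer circle has sign -1. -/
def sg : Ed c → ℝ
  | none => -1
  | some _ => 1

/-- Logarithm of the radius of the middle circle of the collar. -/
def mid : Ed c → ℝ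
  | none => c.m + 4
  | some _ => -3

/-- Squared distance to the centre. -/
def rsq (e : Ed c) (y : Eu 3) : ℝ := (y 0 - ctr e) ^ 2 + y 1 ^ 2

/-- Collar coordinate, increasing towards the inside of the piece. -/
def sc (e : Ed c) (y : Eu 3) : ℝ := sg e * (Real.log (rsq e y) / 2 - mid e)

/-- The planar domain times the line of angles. -/
def DR (c : Par) : Set (Eu 3) := {y | ∀ e : Ed c, 0 < rsq e y ∧ -1 < sc e y}

/-- One period. -/
def Cell (c : Par) : Set (Eu 3) := {y | y ∈ DR c ∧ y 2 ∈ Ioo 0 (2 * Real.pi)}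

/-- The period vector. -/
def per : Eu 3 := (2 * Real.pi) • bas 2

/-- y and y' are glued along the collar e. -/
def Flip (e : Ed c) (y y' : Eu 3) : Prop :=
  y ∈ DR c ∧ y' ∈ DR c ∧ sc e y' = -sc e y ∧
    y' 0 - ctr e = √(rsq e y') * Real.cos (y 2) ∧
    y' 1 = c.ε e * (√(rsq e y') * Real.sin (y 2)) ∧
    y 0 - ctr e = √(rsq e y) * Real.cos (y' 2) ∧
    y 1 = c.ε e * (√(rsq e y) * Real.sin (y' 2))

/-- The differential of the gluing map at y. -/
def fl (e : Ed c) (y y' : Eu 3) : Eu 3 →L[ℝ] Eu 3 :=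
  LinearMap.toContinuousLinearMap (Matrix.toLin'
    !![-((y' 0 - ctr e) * (y 0 - ctr e) / rsq e y), -((y' 0 - ctr e) * y 1 / rsq e y),
        -(c.ε e * y' 1);
       -(y' 1 * (y 0 - ctr e) / rsq e y), -(y' 1 * y 1 / rsq e y), c.ε e * (y' 0 - ctr e);
       -(c.ε e * y 1 / rsq e y), c.ε e * (y 0 - ctr e) / rsq e y, 0])

/-- One point glued to y along e (for y in the collar e). -/
def flipPt (e : Ed c) (y : Eu 3) : Eu 3 :=
  ![ctr e + Real.exp (2 * mid e) / √(rsq e y) * Real.cos (y 2),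
    c.ε e * (Real.exp (2 * mid e) / √(rsq e y) * Real.sin (y 2)),
    c.ε e * Complex.arg ⟨y 0 - ctr e, y 1⟩]

/-- Equal to 1 on the collar e, zero for sc e y ≥ 2. -/
def bet (e : Ed c) (y : Eu 3) : ℝ := Real.smoothTransition (2 - sc e y)

/-- The conformal factor; the metric is lam ^ 2 (dx ^ 2 + dy ^ 2) + dθ ^ 2. -/
def lam (c : Par) (y : Eu 3) : ℝ := 1 + ∑ e : Ed c, bet e y * ((√(rsq e y))⁻¹ - 1)

/-- The metric in coordinates. -/
def gUp (c : Par) (y v w : Eu 3) : ℝ := lam c y ^ 2 * (v 0 * w 0 + v 1 * w 1) + v 2 * w 2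

/-- An orthonormal frame. -/
def fr (c : Par) (y : Eu 3) : Fin 3 → Eu 3 :=
  ![(lam c y)⁻¹ • bas 0, (lam c y)⁻¹ • bas 1, bas 2]

/-- The scalar product of forms in coordinates. -/
def ipUp (c : Par) {k : ℕ} (y : Eu 3) (α β : Alt 3 k) : ℝ :=
  ((k.factorial : ℝ))⁻¹ * ∑ I : Fin k → Fin 3,
    α (fun l => fr c y (I l)) * β (fun l => fr c y (I l))

/-- Squared length of a covector. -/
def gsq (c : Par) (y : Eu 3) (ℓ : Eu 3 →L[ℝ] ℝ) : ℝ := ∑ i, ℓ (fr c y i) ^ 2

/-- The part of the partition of unity that belongs to the neighbour across e. -/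
def kap (e : Ed c) (y : Eu 3) : ℝ := Real.smoothTransition (1 / 2 - sc e y)

/-- The part of the partition of unity that belongs to the piece itself. -/
def eta (c : Par) (y : Eu 3) : ℝ := 1 - ∑ e : Ed c, kap e y

/-- Gluing pattern: the piece p is glued to σ e p along e. -/
structure Gl (c : Par) (P : Type) where
  σ : Ed c → P → P
  invol : ∀ e p, σ e (σ e p) = p
  ne : ∀ e p, σ e p ≠ p

variable {P : Type} {k : ℕ}

/-- Forms read in all pieces. -/
abbrev Fam (P : Type) (k : ℕ) : Type := P → Eu 3 → Alt 3 k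

/-- Families that come from smooth compactly supported forms. -/
structure IsT (Γ : Gl c P) (Ω : Fam P k) : Prop where
  smooth : ∀ p, ContDiffOn ℝ ∞ (Ω p) (DR c)
  per : ∀ p, ∀ y ∈ DR c, Ω p (y + per) = Ω p y
  flip : ∀ p e y y', Flip e y y' →
    Ω p y = (Ω (Γ.σ e p) y').compContinuousLinearMap (fl e y y')
  fin : {p | ∃ y ∈ DR c, Ω p y ≠ 0}.Finite

/-- Exterior derivative of a family. -/
def dF (Ω : Fam P k) : Fam P (k + 1) := fun p y => extDeriv (Ω p) y

/-- The form vanishes outside the open piece p₀. -/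
def InPiece (Γ : Gl c P) (p₀ : P) (Ω : Fam P k) : Prop :=
  ∀ p, ∀ y ∈ DR c, Ω p y ≠ 0 → p = p₀ ∨ ∃ e, Γ.σ e p = p₀ ∧ sc e y < 1

/-- The support is a compact subset of the union of the cores (eta > 1 / 2) of the pieces in S. -/
def SuppIn (c : Par) (S : Set P) (Ω : Fam P k) : Prop :=
  ∃ δ > 0, ∀ p, ∀ y ∈ DR c, Ω p y ≠ 0 → δ ≤ |eta c y - 1 / 2| ∧ (1 / 2 < eta c y → p ∈ S)

/-- The L2 spaces seen from upstairs. -/
structure UpL2 (Γ : Gl c P) where
  H : ℕ → Type
  [nacg : ∀ k, NormedAddCommGroup (H k)]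
  [ips : ∀ k, InnerProductSpace ℝ (H k)]
  [cs : ∀ k, CompleteSpace (H k)]
  j : ∀ k, Fam P k → H k
  inner_eq : ∀ k (Ω Ω' : Fam P k), IsT Γ Ω → IsT Γ Ω' → ⟪j k Ω, j k Ω'⟫_ℝ =
    ∑ᶠ p, ∫ y in Cell c, eta c y * ipUp c y (Ω p y) (Ω' p y) * lam c y ^ 2
  piece : ∀ k (p₀ : P) (Ω Ω' : Fam P k), IsT Γ Ω → IsT Γ Ω' → InPiece Γ p₀ Ω →
    ⟪j k Ω, j k Ω'⟫_ℝ = ∫ y in Cell c, ipUp c y (Ω p₀ y) (Ω' p₀ y) * lam c y ^ 2
  dense : ∀ k, Dense (j k '' {Ω | IsT Γ Ω})

attribute [instance] UpL2.nacg UpL2.ips UpL2.cs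

/-- The graph of d on test families. -/
def UpL2.D {Γ : Gl c P} (U : UpL2 Γ) (k : ℕ) (a : U.H k) (b : U.H (k + 1)) : Prop :=
  ∃ Ω : Fam P k, IsT Γ Ω ∧ a = U.j k Ω ∧ b = U.j (k + 1) (dF Ω)

/-- L2 forms on the union of the cores of the pieces in S. -/
def UpL2.on {Γ : Gl c P} (U : UpL2 Γ) (k : ℕ) (S : Set P) : Set (U.H k) :=
  closure (U.j k '' {Ω | IsT Γ Ω ∧ SuppIn c S Ω})

/-- The torsion predicate upstairs. -/
def UpTorsion (Γ : Gl c P) (S : Set P) (ρ : ℝ) : Prop :=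
  ∃ (U : UpL2 Γ) (Pt : ∀ k, ℝ → U.H k →L[ℝ] U.H k) (I : ℕ → ℝ),
    (∀ k, IsHeat (dom U.D k) (Pt k)) ∧
    (∀ k ≤ 3, (∀ t, 0 < t → trOn (U.on k S) (Pt k t) ≠ ⊤) ∧
      IsRegInt (fun t => (trOn (U.on k S) (Pt k t)).toReal) (I k)) ∧
    ρ = 1 / 2 * ∑ k ∈ Finset.range (3 + 1), (-1) ^ k * k * I k

/-- The gluing pattern of a group Q with labels g: pieces (h, true) and (h g_e, false) are
glued along e. -/
def grpGl (c : Par) {Q : Type} [Group Q] (g : Ed c → Q) : Gl c (Q × Bool) where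
  σ e p := if p.2 then (p.1 * g e, false) else (p.1 * (g e)⁻¹, true)
  invol e p := by rcases p with ⟨h, _ | _⟩ <;> simp
  ne e p := by rcases p with ⟨h, _ | _⟩ <;> simp

/-- The two base pieces. -/
def base (Q : Type) [Group Q] : Set (Q × Bool) := {p | p.1 = 1}

end

end Pool.Agent.Lib.MP_570070_gt.An
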