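import Pool.Agent.Lib.MP_570070_gt.An.Geo

open MeasureTheory Filter Topology Set
open scoped ContDiff InnerProductSpace

namespace Pool.Agent.Lib.MP_570070_gt.An

variable {c : Par}

theorem eps_sq (e : Ed c) : c.ε e ^ 2 = 1 := by
  rcases c.hε e with h | h <;> simp [h]

theorem sg_sq (e : Ed c) : sg e ^ 2 = 1 := by
  cases e <;> simp [sg]

@[simp] theorem per_zero : per 0 = 0 := by simp [per, bas]
@[simp] theorem per_one : per 1 = 0 := by simp [per, bas]
@[simp] theorem per_two : per 2 = 2 * Real.pi := by simp [per, bas]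

theorem contDiff_rsq (e : Ed c) : ContDiff ℝ ∞ (rsq e) := by
  unfold rsq
  fun_prop

theorem geoa_sc {e : Ed c} {y : Eu 3} (h : 0 < rsq e y) : ContDiffAt ℝ ∞ (sc e) y :=
  contDiffAt_const.mul ((((contDiff_rsq e).contDiffAt.log h.ne').div_const 2).sub contDiffAt_const)

theorem isOpen_DR : IsOpen (DR c) := by
  refine isOpen_iff_mem_nhds.2 fun y hy => ?_
  have : ∀ᶠ z in 𝓝 y, ∀ e : Ed c, 0 < rsq e z ∧ -1 < sc e z := by
    refine eventually_all.2 fun e => ?_
    exact ((contDiff_rsq e).continuous.continuousAt.eventually (lt_mem_nhds (hy e).1)).and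
      ((geoa_sc (hy e).1).continuousAt.eventually (lt_mem_nhds (hy e).2))
  exact this

theorem isOpen_Cell : IsOpen (Cell c) :=
  isOpen_DR.inter (isOpen_Ioo.preimage (continuous_apply 2))

theorem contDiffOn_sc (e : Ed c) : ContDiffOn ℝ ∞ (sc e) (DR c) :=
  fun _ hy => (geoa_sc (hy e).1).contDiffWithinAt
theorem contDiffOn_kap (e : Ed c) : ContDiffOn ℝ ∞ (kap e) (DR c) :=
  Real.smoothTransition.contDiff.comp_contDiffOn (contDiffOn_const.sub (contDiffOn_sc e))
theorem contDiffOn_bet (e : Ed c) : ContDiffOn ℝ ∞ (bet e) (DR c) :=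
  Real.smoothTransition.contDiff.comp_contDiffOn (contDiffOn_const.sub (contDiffOn_sc e))
theorem contDiffOn_lam : ContDiffOn ℝ ∞ (lam c) (DR c) :=
  contDiffOn_const.add (ContDiffOn.sum fun e _ => (contDiffOn_bet e).mul
    ((((contDiff_rsq e).contDiffOn.sqrt fun _ hy => (hy e).1.ne').inv
      fun _ hy => (Real.sqrt_pos.2 (hy e).1).ne').sub contDiffOn_const))
theorem contDiffOn_eta : ContDiffOn ℝ ∞ (eta c) (DR c) :=
  contDiffOn_const.sub (ContDiffOn.sum fun e _ => contDiffOn_kap e)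

/-- Everything planar depends on the first two coordinates only. -/
theorem rsq_congr (e : Ed c) {y y' : Eu 3} (h0 : y' 0 = y 0) (h1 : y' 1 = y 1) :
    rsq e y' = rsq e y := by
  rw [rsq, rsq, h0, h1]
theorem sc_congr (e : Ed c) {y y' : Eu 3} (h0 : y' 0 = y 0) (h1 : y' 1 = y 1) :
    sc e y' = sc e y := by
  rw [sc, sc, rsq_congr e h0 h1]
theorem mem_DR_congr {y y' : Eu 3} (h0 : y' 0 = y 0) (h1 : y' 1 = y 1) :
    y' ∈ DR c ↔ y ∈ DR c := by
  simp only [DR, mem_ofPred_eq, rsq_congr _ h0 h1, sc_congr _ h0 h1]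
theorem kap_congr (e : Ed c) {y y' : Eu 3} (h0 : y' 0 = y 0) (h1 : y' 1 = y 1) :
    kap e y' = kap e y := by
  rw [kap, kap, sc_congr e h0 h1]
theorem bet_congr (e : Ed c) {y y' : Eu 3} (h0 : y' 0 = y 0) (h1 : y' 1 = y 1) :
    bet e y' = bet e y := by
  rw [bet, bet, sc_congr e h0 h1]
theorem lam_congr {y y' : Eu 3} (h0 : y' 0 = y 0) (h1 : y' 1 = y 1) : lam c y' = lam c y := by
  simp only [lam, rsq_congr _ h0 h1, bet_congr _ h0 h1]
theorem eta_congr {y y' : Eu 3} (h0 : y' 0 = y 0) (h1 : y' 1 = y 1) : eta c y' = eta c y := by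
  simp only [eta, kap_congr _ h0 h1]

theorem geoa_in {y : Eu 3} {j : Fin (c.m + 1)} (h0 : 0 < rsq (some j : Ed c) y)
    (h : sc (some j : Ed c) y ≤ 2) : rsq (some j : Ed c) y < 1 / 4 := by
  simp only [sc, sg, mid] at h
  have h1 : Real.log (rsq (some j : Ed c) y) ≤ -2 := by linarith
  have h2 := (Real.log_le_iff_le_exp h0).1 h1
  have h3 : 2 < Real.exp 1 := by linarith [Real.add_one_lt_exp (one_ne_zero (α := ℝ))]
  have h4 : Real.exp (-2) * (Real.exp 1 * Real.exp 1) = 1 := by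
    rw [← Real.exp_add, ← Real.exp_add]
    norm_num
  have h5 : 4 < Real.exp 1 * Real.exp 1 := by nlinarith
  nlinarith [Real.exp_pos (-2)]

theorem geoa_mix {y : Eu 3} (hy : y ∈ DR c) (j : Fin (c.m + 1)) (h : sc (none : Ed c) y ≤ 2)
    (h' : sc (some j : Ed c) y ≤ 2) : False := by
  have h1 := geoa_in (hy _).1 h'
  have h0 := (hy none).1
  simp only [sc, sg, mid] at h
  have h2 : (c.m + 2 : ℝ) + (c.m + 2) ≤ Real.log (rsq (none : Ed c) y) := by linarith
  have h3 := (Real.le_log_iff_exp_le h0).1 h2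
  rw [Real.exp_add] at h3
  have h4 := Real.add_one_le_exp (c.m + 2 : ℝ)
  have hm : (0 : ℝ) ≤ c.m := Nat.cast_nonneg _
  have hj : ((j : ℕ) : ℝ) ≤ c.m := by exact_mod_cast Nat.lt_succ_iff.1 j.2
  have hj0 : (0 : ℝ) ≤ (j : ℕ) := Nat.cast_nonneg _
  have h5 : (c.m + 3 : ℝ) * (c.m + 3) ≤ rsq (none : Ed c) y :=
    (mul_self_le_mul_self (by linarith) (by linarith)).trans h3
  simp only [rsq, ctr, sub_zero] at h1 h5
  have h6 : |y 0 - (j : ℕ)| < 1 / 2 := abs_lt_of_sq_lt_sq (by nlinarith) (by norm_num)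
  rw [abs_lt] at h6
  have h7 : y 0 ^ 2 ≤ (c.m + 1) ^ 2 := sq_le_sq' (by linarith) (by linarith)
  nlinarith [sq_nonneg (y 0 - (j : ℕ))]

/-- The extended collars are disjoint. Inner e: sc e y ≤ 2 means rsq e y ≤ exp (-2) < 1 / 4, and
the centres are distinct integers in [0, m]; outer e: sc e y ≤ 2 means
rsq e y ≥ exp (2 (m + 2)) ≥ (m + 3) ^ 2. -/
theorem sc_disj {y : Eu 3} (hy : y ∈ DR c) {e e' : Ed c} (h : e ≠ e') (he : sc e y ≤ 2) :
    2 < sc e' y := by
  by_contra he'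
  rw [not_lt] at he'
  rcases e with _ | j <;> rcases e' with _ | j'
  · exact h rfl
  · exact geoa_mix hy j' he he'
  · exact geoa_mix hy j he' he
  · have h1 := geoa_in (hy _).1 he
    have h2 := geoa_in (hy _).1 he'
    simp only [rsq, ctr] at h1 h2
    have h3 : |y 0 - (j : ℕ)| < 1 / 2 := abs_lt_of_sq_lt_sq (by nlinarith) (by norm_num)
    have h4 : |y 0 - (j' : ℕ)| < 1 / 2 := abs_lt_of_sq_lt_sq (by nlinarith) (by norm_num)
    rw [abs_lt] at h3 h4
    have h5 : ((j : ℕ) : ℝ) < (j' : ℕ) + 1 := by linarith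
    have h6 : ((j' : ℕ) : ℝ) < (j : ℕ) + 1 := by linarith
    have h7 : (j : ℕ) < j' + 1 := by exact_mod_cast h5
    have h8 : (j' : ℕ) < j + 1 := by exact_mod_cast h6
    exact h (congrArg some (Fin.ext (by omega)))

theorem kap_nonneg (e : Ed c) (y : Eu 3) : 0 ≤ kap e y := Real.smoothTransition.nonneg _
theorem kap_le_one (e : Ed c) (y : Eu 3) : kap e y ≤ 1 := Real.smoothTransition.le_one _
theorem kap_eq_zero {e : Ed c} {y : Eu 3} (h : 1 / 2 ≤ sc e y) : kap e y = 0 :=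
  Real.smoothTransition.zero_of_nonpos (by linarith)
theorem kap_eq_one {e : Ed c} {y : Eu 3} (h : sc e y ≤ -1 / 2) : kap e y = 1 :=
  Real.smoothTransition.one_of_one_le (by linarith)
theorem bet_nonneg (e : Ed c) (y : Eu 3) : 0 ≤ bet e y := Real.smoothTransition.nonneg _
theorem bet_le_one (e : Ed c) (y : Eu 3) : bet e y ≤ 1 := Real.smoothTransition.le_one _
theorem bet_eq_zero {e : Ed c} {y : Eu 3} (h : 2 ≤ sc e y) : bet e y = 0 :=
  Real.smoothTransition.zero_of_nonpos (by linarith)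
theorem bet_eq_one {e : Ed c} {y : Eu 3} (h : sc e y ≤ 1) : bet e y = 1 :=
  Real.smoothTransition.one_of_one_le (by linarith)

/-- A sum over the collars has at most one non-zero term. -/
theorem sum_collar {y : Eu 3} (hy : y ∈ DR c) {e : Ed c} (he : sc e y ≤ 2) {M : Type*}
    [AddCommMonoid M] (f : Ed c → M) (hf : ∀ e', 2 < sc e' y → f e' = 0) :
    ∑ e', f e' = f e :=
  Finset.sum_eq_single e (fun _ _ h => hf _ (sc_disj hy h.symm he))
    fun h => absurd (Finset.mem_univ e) h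

theorem lam_collar {y : Eu 3} (hy : y ∈ DR c) {e : Ed c} (he : sc e y ≤ 1) :
    lam c y = (√(rsq e y))⁻¹ := by
  rw [lam, sum_collar hy (he.trans one_le_two) _ fun e' h => by rw [bet_eq_zero h.le, zero_mul],
    bet_eq_one he]
  ring

theorem lam_pos {y : Eu 3} (hy : y ∈ DR c) : 0 < lam c y := by
  by_cases h : ∃ e : Ed c, sc e y ≤ 2
  · obtain ⟨e, he⟩ := h
    rw [lam, sum_collar hy he _ fun e' h => by rw [bet_eq_zero h.le, zero_mul]]
    have h1 : 0 < (√(rsq e y))⁻¹ := inv_pos.2 (Real.sqrt_pos.2 (hy e).1)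
    have h2 := bet_nonneg e y
    have h3 := bet_le_one e y
    rcases h2.eq_or_lt with h4 | h4
    · rw [← h4]
      norm_num
    · nlinarith [mul_pos h4 h1]
  · rw [lam, Finset.sum_eq_zero fun e _ => by
      rw [bet_eq_zero (not_le.1 fun h' => h ⟨e, h'⟩).le, zero_mul]]
    norm_num

theorem eta_collar {y : Eu 3} (hy : y ∈ DR c) {e : Ed c} (he : sc e y ≤ 2) :
    eta c y = 1 - kap e y := by
  rw [eta, sum_collar hy he (fun e => kap e y) fun e' h => kap_eq_zero (by linarith)]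

theorem eta_eq_one {y : Eu 3} (h : ∀ e : Ed c, 1 / 2 ≤ sc e y) : eta c y = 1 := by
  rw [eta, Finset.sum_eq_zero fun e _ => kap_eq_zero (h e), sub_zero]
theorem eta_nonneg {y : Eu 3} (hy : y ∈ DR c) : 0 ≤ eta c y := by
  by_cases h : ∃ e : Ed c, sc e y ≤ 2
  · obtain ⟨e, he⟩ := h
    rw [eta_collar hy he]
    exact sub_nonneg.2 (kap_le_one e y)
  · rw [eta_eq_one fun e => by linarith [not_le.1 fun h' => h ⟨e, h'⟩]]
    exact zero_le_one
theorem eta_le_one (y : Eu 3) : eta c y ≤ 1 :=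
  sub_le_self _ (Finset.sum_nonneg fun e _ => kap_nonneg e y)

/-- Where eta is not zero we are in a compact part of the planar domain. -/
theorem sc_ge_of_eta_ne {y : Eu 3} (hy : y ∈ DR c) (h : eta c y ≠ 0) (e : Ed c) :
    -1 / 2 ≤ sc e y := by
  by_contra h'
  rw [not_le] at h'
  apply h
  rw [eta_collar hy (e := e) (by linarith), kap_eq_one h'.le, sub_self]

end Pool.Agent.Lib.MP_570070_gt.An
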