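import Pool.Agent.Lib.MP_570070_gt.An.Comp

open MeasureTheory Filter Topology Set
open scoped ContDiff InnerProductSpace

namespace Pool.Agent.Lib.MP_570070_gt.An

variable {c : Par} {e : Ed c} {y y' : Eu 3}

theorem starpt_inj0 {α β : Alt 3 0} (h : c0 α = c0 β) : α = β := by
  rw [← f0_c0 α, h, f0_c0]

theorem starpt_inj1 {α β : Alt 3 1} (h : c1 α = c1 β) : α = β := by
  rw [← f1_c1 α, h, f1_c1]

theorem starpt_inj2 {α β : Alt 3 2} (h : c2 α = c2 β) : α = β := by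
  rw [← f2_c2 α, h, f2_c2]

theorem starpt_inj3 {α β : Alt 3 3} (h : c3 α = c3 β) : α = β := by
  rw [← f3_c3 α, h, f3_c3]

theorem starpt_ne (hy : y ∈ DR c) : lam c y ^ 2 ≠ 0 := pow_ne_zero 2 (lam_pos hy).ne'

theorem starpt_eta (a : Eu 3) : ![a 0, a 1, a 2] = a := by
  ext i
  fin_cases i <;> rfl

theorem starpt_lam (h : Flip e y y') : lam c y ^ 2 = (rsq e y)⁻¹ := by
  rw [lam_collar h.1 h.sc_lt.le, inv_pow, Real.sq_sqrt (h.1 e).1.le]

theorem starpt_b0 (e : Ed c) (y y' : Eu 3) : fl e y y' (bas 0) =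
    ![-((y' 0 - ctr e) * (y 0 - ctr e) / rsq e y), -(y' 1 * (y 0 - ctr e) / rsq e y),
      -(c.ε e * y 1 / rsq e y)] := by
  rw [fl_apply]
  ext i
  fin_cases i <;> simp [bas] <;> ring

theorem starpt_b1 (e : Ed c) (y y' : Eu 3) : fl e y y' (bas 1) =
    ![-((y' 0 - ctr e) * y 1 / rsq e y), -(y' 1 * y 1 / rsq e y),
      c.ε e * (y 0 - ctr e) / rsq e y] := by
  rw [fl_apply]
  ext i
  fin_cases i <;> simp [bas] <;> ring

theorem starpt_b2 (e : Ed c) (y y' : Eu 3) : fl e y y' (bas 2) =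
    ![-(c.ε e * y' 1), c.ε e * (y' 0 - ctr e), 0] := by
  rw [fl_apply]
  ext i
  fin_cases i <;> simp [bas]

theorem starpt_c0 (α : Alt 3 0) (A : Eu 3 →L[ℝ] Eu 3) :
    c0 (α.compContinuousLinearMap A) = c0 α :=
  congrArg α (Subsingleton.elim _ _)

theorem starpt_c1 (α : Alt 3 1) (A : Eu 3 →L[ℝ] Eu 3) (i : Fin 3) :
    c1 (α.compContinuousLinearMap A) i =
      c1 α 0 * A (bas i) 0 + c1 α 1 * A (bas i) 1 + c1 α 2 * A (bas i) 2 := by
  conv_lhs => rw [← f1_c1 α]
  exact f1_apply _ _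

theorem starpt_c2 (b : Eu 3) (A : Eu 3 →L[ℝ] Eu 3) (v w : Eu 3) :
    (f2 b).compContinuousLinearMap A ![v, w] =
      b 0 * (A v 1 * A w 2 - A v 2 * A w 1) + b 1 * (A v 2 * A w 0 - A v 0 * A w 2) +
        b 2 * (A v 0 * A w 1 - A v 1 * A w 0) :=
  f2_apply _ _

theorem starpt_c3 (h : ℝ) (A : Eu 3 →L[ℝ] Eu 3) (u v w : Eu 3) :
    (f3 h).compContinuousLinearMap A ![u, v, w] =
      h * (A u 0 * (A v 1 * A w 2 - A v 2 * A w 1) - A v 0 * (A u 1 * A w 2 - A u 2 * A w 1) +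
        A w 0 * (A u 1 * A v 2 - A u 2 * A v 1)) :=
  f3_apply _ _

theorem starpt_per (y : Eu 3) : lam c (y + per) = lam c y :=
  lam_congr (by simp) (by simp)

theorem starpt_vec {F G H : Eu 3 → ℝ} (hF : ContDiffOn ℝ ∞ F (DR c))
    (hG : ContDiffOn ℝ ∞ G (DR c)) (hH : ContDiffOn ℝ ∞ H (DR c)) :
    ContDiffOn ℝ ∞ (fun y => (![F y, G y, H y] : Eu 3)) (DR c) := by
  refine contDiffOn_pi.2 fun i => ?_
  fin_cases i
  · exact hF
  · exact hG
  · exact hH

theorem st3_st0 (hy : y ∈ DR c) (α : Alt 3 0) : st3 c y (st0 c y α) = α := by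
  rw [st3, st0, c3_f3, inv_mul_cancel_left₀ (starpt_ne hy), f0_c0]

theorem st0_st3 (hy : y ∈ DR c) (α : Alt 3 3) : st0 c y (st3 c y α) = α := by
  rw [st0, st3, c0_f0, mul_inv_cancel_left₀ (starpt_ne hy), f3_c3]

theorem st2_st1 (hy : y ∈ DR c) (α : Alt 3 1) : st2 c y (st1 c y α) = α := by
  rw [st2, st1, c2_f2]
  simp only [Matrix.cons_val_zero, Matrix.cons_val_one, Matrix.cons_val]
  rw [inv_mul_cancel_left₀ (starpt_ne hy), starpt_eta, f1_c1]

theorem st1_st2 (hy : y ∈ DR c) (α : Alt 3 2) : st1 c y (st2 c y α) = α := by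
  rw [st1, st2, c1_f1]
  simp only [Matrix.cons_val_zero, Matrix.cons_val_one, Matrix.cons_val]
  rw [mul_inv_cancel_left₀ (starpt_ne hy), starpt_eta, f2_c2]

theorem st0_add (α β : Alt 3 0) : st0 c y (α + β) = st0 c y α + st0 c y β := by
  rw [st0, st0, st0, c0_add, mul_add, f3_add]

theorem st1_add (α β : Alt 3 1) : st1 c y (α + β) = st1 c y α + st1 c y β := by
  rw [st1, st1, st1, c1_add, ← f2_add]
  congr 1
  ext i
  fin_cases i <;> simp [mul_add]

theorem st0_smul (t : ℝ) (α : Alt 3 0) : st0 c y (t • α) = t • st0 c y α := by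
  rw [st0, st0, c0_smul, mul_left_comm, f3_smul]

theorem st1_smul (t : ℝ) (α : Alt 3 1) : st1 c y (t • α) = t • st1 c y α := by
  rw [st1, st1, c1_smul, ← f2_smul]
  congr 1
  ext i
  fin_cases i <;> simp [mul_left_comm]

theorem st0_zero : st0 c y 0 = 0 := by
  rw [st0, c0_zero, mul_zero, f3_zero]

theorem st1_zero : st1 c y 0 = 0 := by
  rw [st1, c1_zero, ← f2_zero]
  congr 1
  ext i
  fin_cases i <;> simp

theorem st2_zero : st2 c y 0 = 0 := by
  rw [st2, c2_zero, ← f1_zero]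
  congr 1
  ext i
  fin_cases i <;> simp

theorem st3_zero : st3 c y 0 = 0 := by
  rw [st3, c3_zero, mul_zero, f0_zero]

theorem ipUp_st0 (hy : y ∈ DR c) (α β : Alt 3 0) :
    ipUp c y (st0 c y α) (st0 c y β) = ipUp c y α β := by
  have h := starpt_ne hy
  rw [ipUp_three_deg, ipUp_zero_deg, st0, st0, c3_f3, c3_f3]
  generalize lam c y ^ 2 = L at h
  field_simp

theorem ipUp_st1 (hy : y ∈ DR c) (α β : Alt 3 1) :
    ipUp c y (st1 c y α) (st1 c y β) = ipUp c y α β := by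
  have h := starpt_ne hy
  rw [ipUp_two_deg, ipUp_one_deg, st1, st1, c2_f2, c2_f2]
  simp only [Matrix.cons_val_zero, Matrix.cons_val_one, Matrix.cons_val]
  generalize lam c y ^ 2 = L at h
  field_simp

/-- f3 h composed with A is f3 (h * det A); use Flip.det_fl (LinearMap.det_toLin', det_fin_three)
or compute with fl_apply, lam_collar and the polar relations. -/
theorem Flip.st0_fl (h : Flip e y y') (α : Alt 3 0) :
    st0 c y (α.compContinuousLinearMap (fl e y y')) =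
      (st0 c y' α).compContinuousLinearMap (fl e y y') := by
  have h1 := (h.1 e).1.ne'
  have h2 := (h.2.1 e).1.ne'
  apply starpt_inj3
  rw [st0, st0, c3_f3, starpt_c0, c3, starpt_c3, starpt_lam h, starpt_lam h.symm, starpt_b0,
    starpt_b1, starpt_b2]
  simp only [Matrix.cons_val_zero, Matrix.cons_val_one, Matrix.cons_val]
  rcases c.hε e with h | h <;> rw [h] <;> field_simp <;> simp only [rsq] <;> ring

/-- Compare c2 of both sides: with q = rsq e y, q' = rsq e y', lam ^ 2 = 1 / q and 1 / q',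
q = w0 ^ 2 + w1 ^ 2, eps ^ 2 = 1; field_simp and ring (linear_combination). -/
theorem Flip.st1_fl (h : Flip e y y') (α : Alt 3 1) :
    st1 c y (α.compContinuousLinearMap (fl e y y')) =
      (st1 c y' α).compContinuousLinearMap (fl e y y') := by
  have h1 := (h.1 e).1.ne'
  have h2 := (h.2.1 e).1.ne'
  apply starpt_inj2
  rw [st1, st1, c2_f2, starpt_c1, starpt_c1, starpt_c1, c2, starpt_c2, starpt_c2, starpt_c2,
    starpt_lam h, starpt_lam h.symm, starpt_b0, starpt_b1, starpt_b2]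
  simp only [Matrix.cons_val_zero, Matrix.cons_val_one, Matrix.cons_val]
  ext i
  fin_cases i <;> simp only [Fin.zero_eta, Fin.mk_one, Fin.reduceFinMk, Matrix.cons_val_zero,
      Matrix.cons_val_one, Matrix.cons_val] <;>
    rcases c.hε e with h | h <;> rw [h] <;> field_simp <;> simp only [rsq] <;> ring

/-- From the two previous facts and the inversion formulas. -/
theorem Flip.st2_fl (h : Flip e y y') (α : Alt 3 2) :
    st2 c y (α.compContinuousLinearMap (fl e y y')) =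
      (st2 c y' α).compContinuousLinearMap (fl e y y') := by
  conv_lhs => rw [← st1_st2 h.2.1 α, ← h.st1_fl, st2_st1 h.1]

theorem Flip.st3_fl (h : Flip e y y') (α : Alt 3 3) :
    st3 c y (α.compContinuousLinearMap (fl e y y')) =
      (st3 c y' α).compContinuousLinearMap (fl e y y') := by
  conv_lhs => rw [← st0_st3 h.2.1 α, ← h.st0_fl, st3_st0 h.1]

variable {P : Type} {Γ : Gl c P}

theorem IsT.st0 {Ω : Fam P 0} (h : IsT Γ Ω) : IsT Γ fun p y => st0 c y (Ω p y) := by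
  refine ⟨fun p => ?_, fun p y hy => ?_, fun p e y y' hf => ?_, h.fin.subset ?_⟩
  · exact contDiff_f3.comp_contDiffOn
      ((contDiffOn_lam.pow 2).mul (contDiff_c0.comp_contDiffOn (h.smooth p)))
  · rw [h.per p y hy, An.st0, An.st0, starpt_per]
  · rw [h.flip p e y y' hf, hf.st0_fl]
  · rintro p ⟨y, hy, h0⟩
    exact ⟨y, hy, fun h1 => h0 (by rw [h1, st0_zero])⟩

theorem IsT.st1 {Ω : Fam P 1} (h : IsT Γ Ω) : IsT Γ fun p y => st1 c y (Ω p y) := by
  refine ⟨fun p => ?_, fun p y hy => ?_, fun p e y y' hf => ?_, h.fin.subset ?_⟩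
  · have h1 := contDiffOn_pi.1 (contDiff_c1.comp_contDiffOn (h.smooth p))
    exact contDiff_f2.comp_contDiffOn
      (starpt_vec (h1 0) (h1 1) ((contDiffOn_lam.pow 2).mul (h1 2)))
  · rw [h.per p y hy, An.st1, An.st1, starpt_per]
  · rw [h.flip p e y y' hf, hf.st1_fl]
  · rintro p ⟨y, hy, h0⟩
    exact ⟨y, hy, fun h1 => h0 (by rw [h1, st1_zero])⟩

theorem IsT.st2 {Ω : Fam P 2} (h : IsT Γ Ω) : IsT Γ fun p y => st2 c y (Ω p y) := by
  refine ⟨fun p => ?_, fun p y hy => ?_, fun p e y y' hf => ?_, h.fin.subset ?_⟩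
  · have h1 := contDiffOn_pi.1 (contDiff_c2.comp_contDiffOn (h.smooth p))
    exact contDiff_f1.comp_contDiffOn (starpt_vec (h1 0) (h1 1)
      (((contDiffOn_lam.pow 2).inv fun _ hy => starpt_ne hy).mul (h1 2)))
  · rw [h.per p y hy, An.st2, An.st2, starpt_per]
  · rw [h.flip p e y y' hf, hf.st2_fl]
  · rintro p ⟨y, hy, h0⟩
    exact ⟨y, hy, fun h1 => h0 (by rw [h1, st2_zero])⟩

theorem IsT.st3 {Ω : Fam P 3} (h : IsT Γ Ω) : IsT Γ fun p y => st3 c y (Ω p y) := by
  refine ⟨fun p => ?_, fun p y hy => ?_, fun p e y y' hf => ?_, h.fin.subset ?_⟩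
  · exact contDiff_f0.comp_contDiffOn (((contDiffOn_lam.pow 2).inv fun _ hy => starpt_ne hy).mul
      (contDiff_c3.comp_contDiffOn (h.smooth p)))
  · rw [h.per p y hy, An.st3, An.st3, starpt_per]
  · rw [h.flip p e y y' hf, hf.st3_fl]
  · rintro p ⟨y, hy, h0⟩
    exact ⟨y, hy, fun h1 => h0 (by rw [h1, st3_zero])⟩

end Pool.Agent.Lib.MP_570070_gt.An
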