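import Pool.Agent.Lib.MP_570070_gt.An.SBas
import Pool.Agent.Lib.MP_570070_gt.An.StarPt
import Pool.Agent.Lib.MP_570070_gt.An.AStar
import Pool.Agent.Lib.MP_570070_gt.An.AOn

/-! Stokes and the Hodge star on L2. -/

open MeasureTheory Filter Topology Set
open scoped ContDiff InnerProductSpace

namespace Pool.Agent.Lib.MP_570070_gt.An

variable {c : Par} {P : Type} {Γ : Gl c P}

theorem star_pd_mul {f g : Eu 3 → ℝ} {y : Eu 3} (hf : DifferentiableAt ℝ f y)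
    (hg : DifferentiableAt ℝ g y) (i : Fin 3) :
    pd i (fun z => f z * g z) y = pd i f y * g y + f y * pd i g y := by
  rw [pd, fderiv_fun_mul hf hg]
  simp only [pd, add_apply, smul_apply, smul_eq_mul]
  ring

theorem star_pd_cross {f g f' g' : Eu 3 → ℝ} {y : Eu 3} (hf : DifferentiableAt ℝ f y)
    (hg : DifferentiableAt ℝ g y) (hf' : DifferentiableAt ℝ f' y)
    (hg' : DifferentiableAt ℝ g' y) (i : Fin 3) :
    pd i (fun z => f z * g z - f' z * g' z) y =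
      pd i f y * g y + f y * pd i g y - (pd i f' y * g' y + f' y * pd i g' y) := by
  rw [← star_pd_mul hf hg, ← star_pd_mul hf' hg', pd, fderiv_fun_sub (hf.fun_mul hg)
    (hf'.fun_mul hg')]
  rfl

theorem star_dvg_cross {a b : Eu 3 → Eu 3} {y : Eu 3} (ha : DifferentiableAt ℝ a y)
    (hb : DifferentiableAt ℝ b y) :
    dvg (fun z => ![a z 1 * b z 2 - a z 2 * b z 1, a z 2 * b z 0 - a z 0 * b z 2,
      a z 0 * b z 1 - a z 1 * b z 0]) y =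
      ∑ i, curl a y i * b y i - ∑ i, a y i * curl b y i := by
  have h1 := differentiableAt_pi.1 ha
  have h2 := differentiableAt_pi.1 hb
  simp only [dvg, Fin.sum_univ_three, curl, Matrix.cons_val_zero, Matrix.cons_val_one,
    Matrix.cons_val]
  rw [star_pd_cross (h1 1) (h2 2) (h1 2) (h2 1), star_pd_cross (h1 2) (h2 0) (h1 0) (h2 2),
    star_pd_cross (h1 0) (h2 1) (h1 1) (h2 0)]
  ring

theorem star_dvg_smul {f : Eu 3 → ℝ} {b : Eu 3 → Eu 3} {y : Eu 3} (hf : DifferentiableAt ℝ f y)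
    (hb : DifferentiableAt ℝ b y) :
    dvg (fun z => f z • b z) y = ∑ i, grad f y i * b y i + f y * dvg b y := by
  have h2 := differentiableAt_pi.1 hb
  simp only [dvg, Fin.sum_univ_three, grad, Pi.smul_apply, smul_eq_mul]
  rw [star_pd_mul hf (h2 0), star_pd_mul hf (h2 1), star_pd_mul hf (h2 2)]
  ring

theorem Lcl.integrableOn {k : ℕ} {Ω Ω' : Fam P k} {p₀ : P} (hl : Lcl Γ p₀ Ω) (h : IsT Γ Ω)
    (h' : IsT Γ Ω') :
    IntegrableOn (fun y => ipUp c y (Ω p₀ y) (Ω' p₀ y) * lam c y ^ 2) (Cell c) :=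
  integrableOn_cell (a := -1 / 2) ((continuousOn_ipUp (h.smooth p₀).continuousOn
    (h'.smooth p₀).continuousOn).mul (contDiffOn_lam.continuousOn.pow 2)) (by norm_num)
    fun _ hy h1 => hl.core hy fun h2 => h1 (by rw [h2, ipUp_zero_left, zero_mul])

theorem UpL2.j_st0_add (U : UpL2 Γ) {Ω Ω' : Fam P 0} (h : IsT Γ Ω) (h' : IsT Γ Ω') :
    U.j 3 (fun p y => st0 c y ((Ω + Ω') p y)) =
      U.j 3 (fun p y => st0 c y (Ω p y)) + U.j 3 fun p y => st0 c y (Ω' p y) := by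
  rw [← U.j_add h.st0 h'.st0]
  exact congrArg _ (funext₂ fun p y => st0_add _ _)

theorem UpL2.j_st1_add (U : UpL2 Γ) {Ω Ω' : Fam P 1} (h : IsT Γ Ω) (h' : IsT Γ Ω') :
    U.j 2 (fun p y => st1 c y ((Ω + Ω') p y)) =
      U.j 2 (fun p y => st1 c y (Ω p y)) + U.j 2 fun p y => st1 c y (Ω' p y) := by
  rw [← U.j_add h.st1 h'.st1]
  exact congrArg _ (funext₂ fun p y => st1_add _ _)

theorem UpL2.stokes1 (U : UpL2 Γ) {Ω Ω' : Fam P 1} (h : IsT Γ Ω) (h' : IsT Γ Ω') :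
    ⟪U.j 2 (dF Ω), U.j 2 fun p y => st1 c y (Ω' p y)⟫_ℝ =
      ⟪U.j 2 fun p y => st1 c y (Ω p y), U.j 2 (dF Ω')⟫_ℝ := by
  refine sub_eq_zero.1 (eq_zero_of_lcl (B := fun Ω : Fam P 1 =>
    ⟪U.j 2 (dF Ω), U.j 2 fun p y => st1 c y (Ω' p y)⟫_ℝ -
      ⟪U.j 2 fun p y => st1 c y (Ω p y), U.j 2 (dF Ω')⟫_ℝ) (fun Ω Θ h g => ?_)
    (fun p₀ Ω h hl => ?_) h)
  · rw [U.j_dF_add h g, U.j_st1_add h g, inner_add_left, inner_add_left]
    ring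
  · have hl' : Lcl Γ p₀ fun p y => st1 c y (Ω p y) :=
      hl.mono fun p y _ h0 => by rw [h0, st1_zero]
    have ha := contDiff_c1.comp_contDiffOn (h.smooth p₀)
    have hb := contDiff_c1.comp_contDiffOn (h'.smooth p₀)
    have h1 := contDiffOn_pi.1 ha
    have h2 := contDiffOn_pi.1 hb
    rw [U.piece 2 p₀ _ _ h.dF h'.st1 hl.d.inPiece,
      U.piece 2 p₀ _ _ h.st1 h'.dF hl'.inPiece,
      ← integral_sub (hl.d.integrableOn h.dF h'.st1) (hl'.integrableOn h.st1 h'.dF),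
      ← integral_dvg_eq_zero (c := c) (a := -1 / 2) (b := fun z =>
        ![c1 (Ω p₀ z) 1 * c1 (Ω' p₀ z) 2 - c1 (Ω p₀ z) 2 * c1 (Ω' p₀ z) 1,
          c1 (Ω p₀ z) 2 * c1 (Ω' p₀ z) 0 - c1 (Ω p₀ z) 0 * c1 (Ω' p₀ z) 2,
          c1 (Ω p₀ z) 0 * c1 (Ω' p₀ z) 1 - c1 (Ω p₀ z) 1 * c1 (Ω' p₀ z) 0])
        (contDiffOn_pi.2 fun i => ?_) (fun y hy => by simp only [h.per p₀ y hy, h'.per p₀ y hy])
        (by norm_num) fun y hy h0 => hl.core hy fun h3 => h0 (by simp [h3])]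
    · refine setIntegral_congr_fun isOpen_Cell.measurableSet fun y hy => ?_
      have h3 := (lam_pos hy.1).ne'
      have hn := isOpen_DR.mem_nhds hy.1
      rw [star_dvg_cross (a := fun z => c1 (Ω p₀ z)) (b := fun z => c1 (Ω' p₀ z))
        ((ha.contDiffAt hn).differentiableAt (by simp))
        ((hb.contDiffAt hn).differentiableAt (by simp)), ipUp_two_deg, ipUp_two_deg, dF, dF,
        c2_extDeriv (h.differentiableAt p₀ hy.1), c2_extDeriv (h'.differentiableAt p₀ hy.1)]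
      simp only [st1, c2_f2, Fin.sum_univ_three, Matrix.cons_val_zero, Matrix.cons_val_one,
        Matrix.cons_val]
      field_simp
    · fin_cases i
      · exact ((h1 1).mul (h2 2)).sub ((h1 2).mul (h2 1))
      · exact ((h1 2).mul (h2 0)).sub ((h1 0).mul (h2 2))
      · exact ((h1 0).mul (h2 1)).sub ((h1 1).mul (h2 0))

theorem UpL2.stokes0 (U : UpL2 Γ) {Ω : Fam P 0} {Ω' : Fam P 2} (h : IsT Γ Ω) (h' : IsT Γ Ω') :
    ⟪U.j 1 (dF Ω), U.j 1 fun p y => st2 c y (Ω' p y)⟫_ℝ =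
      -⟪U.j 3 fun p y => st0 c y (Ω p y), U.j 3 (dF Ω')⟫_ℝ := by
  refine eq_neg_of_add_eq_zero_left (eq_zero_of_lcl (B := fun Ω : Fam P 0 =>
    ⟪U.j 1 (dF Ω), U.j 1 fun p y => st2 c y (Ω' p y)⟫_ℝ +
      ⟪U.j 3 fun p y => st0 c y (Ω p y), U.j 3 (dF Ω')⟫_ℝ) (fun Ω Θ h g => ?_)
    (fun p₀ Ω h hl => ?_) h)
  · rw [U.j_dF_add h g, U.j_st0_add h g, inner_add_left, inner_add_left]
    ring
  · have hl' : Lcl Γ p₀ fun p y => st0 c y (Ω p y) :=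
      hl.mono fun p y _ h0 => by rw [h0, st0_zero]
    have ha := contDiff_c0.comp_contDiffOn (h.smooth p₀)
    have hb := contDiff_c2.comp_contDiffOn (h'.smooth p₀)
    rw [U.piece 1 p₀ _ _ h.dF h'.st2 hl.d.inPiece,
      U.piece 3 p₀ _ _ h.st0 h'.dF hl'.inPiece,
      ← integral_add (hl.d.integrableOn h.dF h'.st2) (hl'.integrableOn h.st0 h'.dF),
      ← integral_dvg_eq_zero (c := c) (a := -1 / 2) (b := fun z => c0 (Ω p₀ z) • c2 (Ω' p₀ z))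
        (ha.smul hb) (fun y hy => by simp only [h.per p₀ y hy, h'.per p₀ y hy])
        (by norm_num) fun y hy h0 => hl.core hy fun h3 => h0 (by simp [h3])]
    refine setIntegral_congr_fun isOpen_Cell.measurableSet fun y hy => ?_
    have h3 := (lam_pos hy.1).ne'
    have hn := isOpen_DR.mem_nhds hy.1
    rw [star_dvg_smul (f := fun z => c0 (Ω p₀ z)) (b := fun z => c2 (Ω' p₀ z))
      ((ha.contDiffAt hn).differentiableAt (by simp))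
      ((hb.contDiffAt hn).differentiableAt (by simp)), ipUp_one_deg, ipUp_three_deg, dF, dF,
      c1_extDeriv (h.differentiableAt p₀ hy.1), c3_extDeriv (h'.differentiableAt p₀ hy.1)]
    simp only [st0, st2, c1_f1, c3_f3, Fin.sum_univ_three, Matrix.cons_val_zero,
      Matrix.cons_val_one, Matrix.cons_val]
    field_simp

theorem UpL2.exists_st0 (U : UpL2 Γ) : ∃ V : U.H 0 ≃ₗᵢ[ℝ] U.H 3,
    ∀ Ω, IsT Γ Ω → V (U.j 0 Ω) = U.j 3 fun p y => st0 c y (Ω p y) := by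
  refine exists_unitary U U (fun Ω p y => st0 c y (Ω p y)) (fun Ω Ω' h h' => ?_) fun Θ h =>
    ⟨_, h.st3, U.j_congr h fun p y hy => st0_st3 hy _⟩
  rw [U.inner_eq 3 _ _ h.st0 h'.st0, U.inner_eq 0 _ _ h h']
  refine finsum_congr fun p => setIntegral_congr_fun isOpen_Cell.measurableSet fun y hy => ?_
  simp only [ipUp_st0 hy.1]

theorem UpL2.exists_st1 (U : UpL2 Γ) : ∃ V : U.H 1 ≃ₗᵢ[ℝ] U.H 2,
    ∀ Ω, IsT Γ Ω → V (U.j 1 Ω) = U.j 2 fun p y => st1 c y (Ω p y) := by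
  refine exists_unitary U U (fun Ω p y => st1 c y (Ω p y)) (fun Ω Ω' h h' => ?_) fun Θ h =>
    ⟨_, h.st2, U.j_congr h fun p y hy => st1_st2 hy _⟩
  rw [U.inner_eq 2 _ _ h.st1 h'.st1, U.inner_eq 1 _ _ h h']
  refine finsum_congr fun p => setIntegral_congr_fun isOpen_Cell.measurableSet fun y hy => ?_
  simp only [ipUp_st1 hy.1]

theorem SuppIn.mono' {k l : ℕ} {S : Set P} {Ω : Fam P k} {Θ : Fam P l} (h : SuppIn c S Ω)
    (h' : ∀ p y, Ω p y = 0 → Θ p y = 0) : SuppIn c S Θ :=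
  let ⟨δ, h0, hδ⟩ := h
  ⟨δ, h0, fun p y hy h1 => hδ p y hy fun h2 => h1 (h' p y h2)⟩

theorem UpL2.image_on (U : UpL2 Γ) {k l : ℕ} (V : U.H k ≃ₗᵢ[ℝ] U.H l) (S : Set P)
    (h : ∀ Ω, IsT Γ Ω → SuppIn c S Ω → ∃ Θ, IsT Γ Θ ∧ SuppIn c S Θ ∧ U.j l Θ = V (U.j k Ω))
    (h' : ∀ Θ, IsT Γ Θ → SuppIn c S Θ → ∃ Ω, IsT Γ Ω ∧ SuppIn c S Ω ∧ V (U.j k Ω) = U.j l Θ) :
    V '' U.on k S = U.on l S := by
  refine (V.toHomeomorph.image_closure _).trans (congrArg closure (Subset.antisymm ?_ ?_))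
  · rintro _ ⟨_, ⟨Ω, ⟨h1, h2⟩, rfl⟩, rfl⟩
    obtain ⟨Θ, h3, h4, h5⟩ := h Ω h1 h2
    exact ⟨Θ, ⟨h3, h4⟩, h5⟩
  · rintro _ ⟨Θ, ⟨h1, h2⟩, rfl⟩
    obtain ⟨Ω, h3, h4, h5⟩ := h' Θ h1 h2
    exact ⟨_, ⟨Ω, ⟨h3, h4⟩, rfl⟩, h5⟩

/-- Poincaré duality for the heat traces. -/
theorem UpL2.star_trace (U : UpL2 Γ) {Pt : ∀ k, ℝ → U.H k →L[ℝ] U.H k}
    (hP : ∀ k, IsHeat (dom U.D k) (Pt k)) (S : Set P) {t : ℝ} (ht : 0 ≤ t) :
    trOn (U.on 3 S) (Pt 3 t) = trOn (U.on 0 S) (Pt 0 t) ∧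
      trOn (U.on 2 S) (Pt 2 t) = trOn (U.on 1 S) (Pt 1 t) := by
  obtain ⟨V₀, h₀⟩ := U.exists_st0
  obtain ⟨V₁, h₁⟩ := U.exists_st1
  have e₀ : ∀ Θ, IsT Γ Θ → V₀ (U.j 0 fun p y => st3 c y (Θ p y)) = U.j 3 Θ := fun Θ h =>
    (h₀ _ h.st3).trans (U.j_congr h fun p y hy => st0_st3 hy _)
  have e₁ : ∀ Θ, IsT Γ Θ → V₁ (U.j 1 fun p y => st2 c y (Θ p y)) = U.j 2 Θ := fun Θ h =>
    (h₁ _ h.st2).trans (U.j_congr h fun p y hy => st1_st2 hy _)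
  refine And.elim (fun a₀ a₁ => ?_) (star_heat (D := U.D) V₀ V₁ U.dense_test U.four_eq_zero
    (fun a => ⟨?_, ?_⟩) (fun a => ⟨?_, ?_⟩) ?_ ?_ hP ht)
  · rw [← trOn_equiv V₀ a₀, ← trOn_equiv V₁ a₁, U.image_on V₀ S
      (fun Ω h g => ⟨_, h.st0, g.mono' fun p y e => by rw [e, st0_zero], (h₀ Ω h).symm⟩)
      (fun Ω h g => ⟨_, h.st3, g.mono' fun p y e => by rw [e, st3_zero], e₀ Ω h⟩), U.image_on V₁ S
      (fun Ω h g => ⟨_, h.st1, g.mono' fun p y e => by rw [e, st1_zero], (h₁ Ω h).symm⟩)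
      (fun Ω h g => ⟨_, h.st2, g.mono' fun p y e => by rw [e, st2_zero], e₁ Ω h⟩)]
    exact ⟨rfl, rfl⟩
  · rintro ⟨_, Ω, h, rfl, -⟩
    exact ⟨_, _, h.st0, h₀ Ω h, rfl⟩
  · rintro ⟨_, Θ, h, e, -⟩
    exact ⟨_, _, h.st3, V₀.injective (e.trans (e₀ Θ h).symm), rfl⟩
  · rintro ⟨_, Ω, h, rfl, -⟩
    exact ⟨_, _, h.st1, h₁ Ω h, rfl⟩
  · rintro ⟨_, Θ, h, e, -⟩
    exact ⟨_, _, h.st2, V₁.injective (e.trans (e₁ Θ h).symm), rfl⟩
  · rintro _ _ _ _ ⟨Ω, h, rfl, rfl⟩ ⟨Ω', h', rfl, rfl⟩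
    rw [h₁ Ω h, h₁ Ω' h']
    exact U.stokes1 h h'
  · rintro _ _ β _ ⟨Ω, h, rfl, rfl⟩ ⟨Ω', h', e, rfl⟩
    rw [V₁.injective (e.trans (e₁ Ω' h').symm), h₀ Ω h]
    exact U.stokes0 h h'

end Pool.Agent.Lib.MP_570070_gt.An
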