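import Pool.Agent.Lib.MP_570070_gt.An.Wedge
import Pool.Agent.Lib.MP_570070_gt.An.GeoB

open MeasureTheory Filter Topology Set
open scoped ContDiff InnerProductSpace

namespace Pool.Agent.Lib.MP_570070_gt.An

variable {c : Par} {P P' : Type} {Γ : Gl c P} {Γ' : Gl c P'} {k : ℕ} {w w' : Fn P}

theorem ufn_diff (h : IsFn Γ w) (p : P) {y : Eu 3} (hy : y ∈ DR c) :
    DifferentiableAt ℝ (w p) y :=
  ((h.smooth p).contDiffAt (isOpen_DR.mem_nhds hy)).differentiableAt (by simp)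

/-- Composition with a smooth function of one variable. -/
theorem ufn_comp (h : IsFn Γ w) {φ : ℝ → ℝ} (hφ : ContDiff ℝ ∞ φ) :
    IsFn Γ fun p y => φ (w p y) := by
  refine ⟨fun p => hφ.comp_contDiffOn (h.smooth p), fun p y hy => by rw [h.per p y hy],
    fun p e y y' hf => by rw [h.flip p e y y' hf], ?_⟩
  obtain ⟨B, hB⟩ := h.bdd
  obtain ⟨C, hC⟩ := (isCompact_Icc (a := -B) (b := B)).exists_bound_of_continuousOn
    hφ.continuous.continuousOn
  obtain ⟨D, hD⟩ := (isCompact_Icc (a := -B) (b := B)).exists_bound_of_continuousOn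
    (hφ.continuous_deriv (by simp)).continuousOn
  refine ⟨max C (D ^ 2 * B), fun p y hy => ?_⟩
  obtain ⟨h1, h2⟩ := hB p y hy
  have h3 : w p y ∈ Icc (-B) B := abs_le.1 h1
  refine ⟨(hC _ h3).trans (le_max_left _ _), le_trans ?_ (le_max_right _ _)⟩
  have h4 : HasFDerivAt (fun y => φ (w p y)) _ y :=
    (hφ.differentiable (by simp) _).hasDerivAt.comp_hasFDerivAt y (ufn_diff h p hy).hasFDerivAt
  rw [h4.fderiv, gsq_smul]
  refine mul_le_mul ?_ h2 (gsq_nonneg _) (sq_nonneg _)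
  rw [← sq_abs]
  exact pow_le_pow_left₀ (abs_nonneg _) (hD _ h3) 2

theorem IsFn.const (t : ℝ) : IsFn Γ fun _ _ => t := by
  refine ⟨fun _ => contDiffOn_const, fun _ _ _ => rfl, fun _ _ _ _ _ => rfl, |t|, fun p y _ => ?_⟩
  refine ⟨le_rfl, ?_⟩
  rw [fderiv_fun_const, Pi.zero_apply, gsq_zero]
  exact abs_nonneg t

theorem IsFn.add (h : IsFn Γ w) (h' : IsFn Γ w') : IsFn Γ fun p y => w p y + w' p y := by
  refine ⟨fun p => (h.smooth p).add (h'.smooth p),
    fun p y hy => by rw [h.per p y hy, h'.per p y hy],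
    fun p e y y' hf => by rw [h.flip p e y y' hf, h'.flip p e y y' hf], ?_⟩
  obtain ⟨B, hB⟩ := h.bdd
  obtain ⟨B', hB'⟩ := h'.bdd
  refine ⟨2 * B + 2 * B', fun p y hy => ?_⟩
  obtain ⟨h1, h2⟩ := hB p y hy
  obtain ⟨h3, h4⟩ := hB' p y hy
  constructor
  · linarith [abs_add_le (w p y) (w' p y), abs_nonneg (w p y), abs_nonneg (w' p y)]
  · rw [fderiv_fun_add (ufn_diff h p hy) (ufn_diff h' p hy)]
    linarith [gsq_add_le (c := c) (y := y) (fderiv ℝ (w p) y) (fderiv ℝ (w' p) y)]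

theorem IsFn.const_mul (h : IsFn Γ w) (t : ℝ) : IsFn Γ fun p y => t * w p y :=
  ufn_comp h (φ := fun x => t * x) (by fun_prop)

theorem IsFn.sub (h : IsFn Γ w) (h' : IsFn Γ w') : IsFn Γ fun p y => w p y - w' p y := by
  simpa only [neg_one_mul, ← sub_eq_add_neg] using h.add (h'.const_mul (-1))

theorem IsFn.mul (h : IsFn Γ w) (h' : IsFn Γ w') : IsFn Γ fun p y => w p y * w' p y := by
  have h1 := ((ufn_comp (h.add h') (φ := fun x => x ^ 2) (by fun_prop)).sub
    (ufn_comp (h.sub h') (φ := fun x => x ^ 2) (by fun_prop))).const_mul (1 / 4)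
  convert h1 using 3
  ring

theorem IsFn.sq (h : IsFn Γ w) : IsFn Γ fun p y => w p y ^ 2 :=
  ufn_comp h (φ := fun x => x ^ 2) (by fun_prop)

theorem IsFn.sum {ι : Type} (s : Finset ι) {F : ι → Fn P} (h : ∀ i ∈ s, IsFn Γ (F i)) :
    IsFn Γ fun p y => ∑ i ∈ s, F i p y := by
  classical
  induction s using Finset.induction_on with
  | empty => simpa using IsFn.const (Γ := Γ) 0
  | insert i s hi ih =>
    simp only [Finset.sum_insert hi]
    exact (h i (Finset.mem_insert_self _ _)).add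
      (ih fun j hj => h j (Finset.mem_insert_of_mem hj))

/-- The derivative of smoothTransition is bounded. -/
theorem IsFn.smoothTransition (h : IsFn Γ w) :
    IsFn Γ fun p y => Real.smoothTransition (w p y) :=
  ufn_comp h Real.smoothTransition.contDiff

theorem ufn_edge {y : Eu 3} {e : Ed c} (he : ∀ e', e' ≠ e → 2 < sc e' y) (a : P → ℝ) (p : P) :
    wt Γ a p y = (1 - kap e y) * a p + kap e y * a (Γ.σ e p) := by
  rw [wt, Finset.sum_eq_single e
    (fun e' _ h => by rw [kap_eq_zero (by linarith [he e' h]), mul_zero])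
    fun h => absurd (Finset.mem_univ e) h]
  ring

/-- At most one collar matters at a point: take the edge with sc e y ≤ 2 if there is one (the
other kap vanish near y), any edge otherwise (all kap vanish near y). -/
theorem exists_edge {y : Eu 3} (hy : y ∈ DR c) : ∃ e : Ed c, eta c y = 1 - kap e y ∧
    ∀ {P : Type} (Γ : Gl c P) (a : P → ℝ) (p : P),
      wt Γ a p y = (1 - kap e y) * a p + kap e y * a (Γ.σ e p) ∧
      fderiv ℝ (wt Γ a p) y = (a (Γ.σ e p) - a p) • fderiv ℝ (kap e) y := by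
  obtain ⟨e, he⟩ : ∃ e : Ed c, ∀ e', e' ≠ e → 2 < sc e' y := by
    by_cases h : ∃ e : Ed c, sc e y ≤ 2
    · obtain ⟨e, he⟩ := h
      exact ⟨e, fun e' h => sc_disj hy h.symm he⟩
    · exact ⟨none, fun e' _ => not_le.1 fun h' => h ⟨e', h'⟩⟩
  refine ⟨e, ?_, fun Γ a p => ⟨ufn_edge he a p, ?_⟩⟩
  · rw [eta, Finset.sum_eq_single e (fun e' _ h => kap_eq_zero (by linarith [he e' h]))
      fun h => absurd (Finset.mem_univ e) h]
  · have hk : ∀ e' : Ed c, HasFDerivAt (kap e') (fderiv ℝ (kap e') y) y := fun e' =>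
      (((contDiffOn_kap e').contDiffAt (isOpen_DR.mem_nhds hy)).differentiableAt
        (by simp)).hasFDerivAt
    have h1 : HasFDerivAt (wt Γ a p) (∑ e', (a (Γ.σ e' p) - a p) • fderiv ℝ (kap e') y) y :=
      (HasFDerivAt.fun_sum fun e' _ => (hk e').const_mul (a (Γ.σ e' p) - a p)).const_add (a p)
    rw [h1.fderiv, Finset.sum_eq_single e (fun e' _ h => by
      rw [fderiv_kap_eq_zero hy (lt_abs.2 (Or.inl (by linarith [he e' h]))), smul_zero])
      fun h => absurd (Finset.mem_univ e) h]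

theorem isFn_wt {a : P → ℝ} {B : ℝ} (ha : ∀ p, |a p| ≤ B) : IsFn Γ (wt Γ a) := by
  refine ⟨fun p => contDiffOn_const.add (ContDiffOn.sum fun e _ =>
    contDiffOn_const.mul (contDiffOn_kap e)), fun p y _ => ?_, fun p e y y' hf => ?_, ?_⟩
  · simp only [wt, kap_congr _ (show (y + per) 0 = y 0 by simp) (show (y + per) 1 = y 1 by simp)]
  · rw [ufn_edge (e := e) (fun e' h => sc_disj hf.1 h.symm (by linarith [hf.sc_lt])),
      ufn_edge (e := e) (fun e' h => sc_disj hf.2.1 h.symm (by linarith [hf.symm.sc_lt])),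
      hf.kap_eq, Γ.invol]
    ring
  · obtain ⟨c₀, -, hc⟩ := exists_grad_kap c
    refine ⟨max B ((2 * B) ^ 2 * c₀ ^ 2), fun p y hy => ?_⟩
    obtain ⟨e, -, he⟩ := exists_edge hy
    obtain ⟨h1, h2⟩ := he Γ a p
    obtain ⟨h3, h4⟩ := abs_le.1 (ha p)
    obtain ⟨h5, h6⟩ := abs_le.1 (ha (Γ.σ e p))
    have h7 := kap_nonneg e y
    have h8 := sub_nonneg.2 (kap_le_one e y)
    constructor
    · refine le_trans ?_ (le_max_left _ _)
      rw [h1, abs_le]
      constructor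
      · nlinarith [mul_le_mul_of_nonneg_left h3 h8, mul_le_mul_of_nonneg_left h5 h7]
      · nlinarith [mul_le_mul_of_nonneg_left h4 h8, mul_le_mul_of_nonneg_left h6 h7]
    · refine le_trans ?_ (le_max_right _ _)
      rw [h2, gsq_smul]
      exact mul_le_mul (sq_le_sq' (by linarith) (by linarith)) (hc e y hy) (gsq_nonneg _)
        (sq_nonneg _)

theorem ufn_ind_nonneg (S : Set P) (p : P) : (0 : ℝ) ≤ indicator S (1 : P → ℝ) p :=
  indicator_nonneg (fun _ _ => zero_le_one) p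

theorem ufn_ind_le (S : Set P) (p : P) : indicator S (1 : P → ℝ) p ≤ 1 := by
  by_cases h : p ∈ S <;> simp [h]

theorem isFn_wt_ind (S : Set P) : IsFn Γ (wt Γ (indicator S 1)) :=
  isFn_wt (B := 1) fun p => by
    rw [abs_of_nonneg (ufn_ind_nonneg S p)]
    exact ufn_ind_le S p

theorem wt_const (t : ℝ) (p : P) (y : Eu 3) : wt Γ (fun _ => t) p y = t := by
  simp [wt]

theorem wt_sum {ι : Type} (s : Finset ι) (a : ι → P → ℝ) (p : P) (y : Eu 3) :
    wt Γ (fun q => ∑ i ∈ s, a i q) p y = ∑ i ∈ s, wt Γ (a i) p y := by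
  simp only [wt, Finset.sum_add_distrib, ← Finset.sum_sub_distrib, Finset.sum_mul]
  rw [Finset.sum_comm]

theorem wt_congr {a a' : P → ℝ} {p : P} (h : a p = a' p) (h' : ∀ e, a (Γ.σ e p) = a' (Γ.σ e p))
    (y : Eu 3) : wt Γ a p y = wt Γ a' p y := by
  simp only [wt, h, h']

theorem le_wt {a : P → ℝ} {p : P} {t : ℝ} (h : t ≤ a p) (h' : ∀ e, t ≤ a (Γ.σ e p)) {y : Eu 3}
    (hy : y ∈ DR c) : t ≤ wt Γ a p y := by
  obtain ⟨e, -, he⟩ := exists_edge hy
  rw [(he Γ a p).1]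
  nlinarith [mul_le_mul_of_nonneg_left h (sub_nonneg.2 (kap_le_one e y)),
    mul_le_mul_of_nonneg_left (h' e) (kap_nonneg e y)]

theorem wt_le {a : P → ℝ} {p : P} {t : ℝ} (h : a p ≤ t) (h' : ∀ e, a (Γ.σ e p) ≤ t) {y : Eu 3}
    (hy : y ∈ DR c) : wt Γ a p y ≤ t := by
  obtain ⟨e, -, he⟩ := exists_edge hy
  rw [(he Γ a p).1]
  nlinarith [mul_le_mul_of_nonneg_left h (sub_nonneg.2 (kap_le_one e y)),
    mul_le_mul_of_nonneg_left (h' e) (kap_nonneg e y)]

theorem wt_ind_nonneg (S : Set P) (p : P) {y : Eu 3} (hy : y ∈ DR c) :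
    0 ≤ wt Γ (indicator S 1) p y :=
  le_wt (ufn_ind_nonneg S p) (fun _ => ufn_ind_nonneg S _) hy

theorem wt_ind_le_one (S : Set P) (p : P) {y : Eu 3} (hy : y ∈ DR c) :
    wt Γ (indicator S 1) p y ≤ 1 :=
  wt_le (ufn_ind_le S p) (fun _ => ufn_ind_le S _) hy

theorem wt_single_self (p : P) (y : Eu 3) : wt Γ (indicator {p} 1) p y = eta c y := by
  have h : ∀ e, indicator ({p} : Set P) (1 : P → ℝ) (Γ.σ e p) = 0 := fun e =>
    indicator_of_notMem (notMem_singleton_iff.2 (Γ.ne e p)) _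
  have h' : indicator ({p} : Set P) (1 : P → ℝ) p = 1 := indicator_of_mem (mem_singleton p) _
  simp only [wt, eta, h, h', zero_sub, neg_one_mul, Finset.sum_neg_distrib]
  ring

theorem wt_ne_zero {a : P → ℝ} {p : P} {y : Eu 3} (h : wt Γ a p y ≠ 0) (hy : y ∈ DR c) :
    a p ≠ 0 ∨ ∃ e, a (Γ.σ e p) ≠ 0 ∧ sc e y < 1 / 2 := by
  obtain ⟨e, -, he⟩ := exists_edge hy
  rw [(he Γ a p).1] at h
  by_cases h0 : a p = 0
  · rw [h0, mul_zero, zero_add] at h
    exact Or.inr ⟨e, right_ne_zero_of_mul h,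
      not_le.1 fun h1 => left_ne_zero_of_mul h (kap_eq_zero h1)⟩
  · exact Or.inl h0

theorem wt_single_le {p q : P} (h : q ≠ p) {y : Eu 3} (hy : y ∈ DR c) :
    wt Γ (indicator {p} 1) q y ≤ 1 - eta c y := by
  obtain ⟨e, h1, he⟩ := exists_edge hy
  have h0 : indicator ({p} : Set P) (1 : P → ℝ) q = 0 :=
    indicator_of_notMem (notMem_singleton_iff.2 h) _
  rw [(he Γ _ q).1, h1, h0, mul_zero, zero_add, sub_sub_cancel]
  exact mul_le_of_le_one_right (kap_nonneg e y) (ufn_ind_le _ _)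

theorem finite_wt {a : P → ℝ} (h : {p | a p ≠ 0}.Finite) :
    {p | ∃ y ∈ DR c, wt Γ a p y ≠ 0}.Finite := by
  refine (h.union (finite_iUnion fun e => h.image (Γ.σ e))).subset ?_
  rintro p ⟨y, hy, hp⟩
  rcases wt_ne_zero hp hy with h1 | ⟨e, h1, -⟩
  · exact Or.inl h1
  · exact Or.inr (mem_iUnion.2 ⟨e, _, h1, Γ.invol e p⟩)

/-- The sum of the partition of unity over a finite set that contains q and, when kap e y is not
zero, the neighbour across e. -/
theorem sum_wt_single (S : Finset P) {q : P} {y : Eu 3} (hy : y ∈ DR c) (hq : q ∈ S)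
    (hn : ∀ e, sc e y < 1 → Γ.σ e q ∈ S) : ∑ p ∈ S, wt Γ (indicator {p} 1) q y = 1 := by
  classical
  have h0 : ∀ r ∈ S, ∑ p ∈ S, indicator ({p} : Set P) (1 : P → ℝ) r = 1 := fun r hr => by
    rw [Finset.sum_eq_single r
      (fun p _ h => indicator_of_notMem (notMem_singleton_iff.2 h.symm) _) fun h => absurd hr h]
    exact indicator_of_mem (mem_singleton r) _
  obtain ⟨e, -, he⟩ := exists_edge hy
  rw [← wt_sum S (fun p => indicator ({p} : Set P) (1 : P → ℝ)), (he Γ _ q).1, h0 q hq]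
  by_cases h1 : sc e y < 1
  · rw [h0 _ (hn e h1)]
    ring
  · rw [kap_eq_zero (by linarith [not_lt.1 h1])]
    ring

theorem isFn_cut (n : ℕ) (p : P) : IsFn Γ (cut Γ n p) :=
  ((((isFn_wt_ind {p}).sub (IsFn.const (1 / 2))).const_mul n).sub (IsFn.const 1)).smoothTransition

end Pool.Agent.Lib.MP_570070_gt.An
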