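import Pool.Agent.Lib.MP_570070_gt.An.UInt
import Pool.Agent.Lib.MP_570070_gt.An.UFn

open MeasureTheory Filter Topology Set
open scoped ContDiff InnerProductSpace

namespace Pool.Agent.Lib.MP_570070_gt.An

variable {c : Par} {P P' : Type} {Γ : Gl c P} {Γ' : Gl c P'} {k : ℕ} {Ω : Fam P k} {w w' : Fn P}

/-- extOp_j; the bound is intF_comp_le with the bound of τ.fn.bdd. -/
theorem Tr.M_j (τ : Tr Γ Γ') (U : UpL2 Γ) (U' : UpL2 Γ') (h : IsT Γ Ω) :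
    τ.M U U' k (U.j k Ω) = U'.j k (τ.mul Ω) := by
  obtain ⟨B, hB⟩ := τ.fn.bdd
  refine extOp_j U U' (fun Ω h => τ.isT_mul h) (fun Ω Ω' _ _ p y _ => smul_add _ _ _)
    (fun t Ω _ p y _ => smul_comm (τ.w p y) t (Ω (τ.f p) y)) (B := B ^ 2) (fun Ω h => ?_) h
  have h1 := h.isC_ip h
  have h2 : ∀ p, (∃ y ∈ DR c, ipUp c y (τ.mul Ω p y) (τ.mul Ω p y) ≠ 0) →
      ∃ y ∈ DR c, τ.w p y ≠ 0 := by
    rintro p ⟨y, hy, h0⟩
    refine ⟨y, hy, fun e => h0 ?_⟩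
    rw [Tr.mul, e, zero_smul, ipUp_zero_left]
  rw [U'.norm_sq_intF (τ.isT_mul h), U.norm_sq_intF h, ← intF_const_mul h1]
  refine intF_comp_le ((τ.isT_mul h).isC_ip (τ.isT_mul h)) (h1.const_mul _) τ.f
    (fun p y _ => mul_nonneg (sq_nonneg _) (ipUp_self_nonneg _)) (fun p y hy => ?_)
    fun p q hp hq => τ.inj p q (h2 p hp) (h2 q hq)
  rw [Tr.mul, ipUp_smul_left, ipUp_smul_right, ← mul_assoc, ← sq, ← sq_abs]
  exact mul_le_mul_of_nonneg_right (pow_le_pow_left₀ (abs_nonneg _) (hB p y hy).1 2)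
    (ipUp_self_nonneg _)

/-- ipUp_wedge_le, exists_ne_of_fderiv_ne for the injectivity. -/
theorem Tr.E_j (τ : Tr Γ Γ') (U : UpL2 Γ) (U' : UpL2 Γ') (h : IsT Γ Ω) :
    τ.E U U' k (U.j k Ω) = U'.j (k + 1) (τ.wed Ω) := by
  obtain ⟨B, hB⟩ := τ.fn.bdd
  refine extOp_j U U' (fun Ω h => τ.isT_wed h) (fun Ω Ω' _ _ p y _ => wedge_add_right _ _ _)
    (fun t Ω _ p y _ => wedge_smul_right _ _ _) (B := (k + 1) * |B|) (fun Ω h => ?_) h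
  have h1 := h.isC_ip h
  have h2 : ∀ p, (∃ y ∈ DR c, ipUp c y (τ.wed Ω p y) (τ.wed Ω p y) ≠ 0) →
      ∃ y ∈ DR c, τ.w p y ≠ 0 := by
    rintro p ⟨y, hy, h0⟩
    refine exists_ne_of_fderiv_ne (y := y) (fun e => h0 ?_) (isOpen_DR.mem_nhds hy)
    rw [Tr.wed, e, wedge_zero_left, ipUp_zero_left]
  rw [U'.norm_sq_intF (τ.isT_wed h), U.norm_sq_intF h, ← intF_const_mul h1]
  refine intF_comp_le ((τ.isT_wed h).isC_ip (τ.isT_wed h)) (h1.const_mul _) τ.f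
    (fun p y _ => mul_nonneg (by positivity) (ipUp_self_nonneg _)) (fun p y hy => ?_)
    fun p q hp hq => τ.inj p q (h2 p hp) (h2 q hq)
  refine (ipUp_wedge_le _ _).trans (mul_le_mul_of_nonneg_right ?_ (ipUp_self_nonneg _))
  exact mul_le_mul_of_nonneg_left ((hB p y hy).2.trans (le_abs_self B)) (by positivity)

theorem UpL2.m_eq (U : UpL2 Γ) (hw : IsFn Γ w) (k : ℕ) : U.m w k = (Tr.ofFn hw).M U U k := rfl

theorem UpL2.m_j (U : UpL2 Γ) (hw : IsFn Γ w) (h : IsT Γ Ω) :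
    U.m w k (U.j k Ω) = U.j k fun p y => w p y • Ω p y :=
  (Tr.ofFn hw).M_j U U h

theorem Tr.D_map (τ : Tr Γ Γ') (U : UpL2 Γ) (U' : UpL2 Γ') (k : ℕ) (a : U.H k) (b : U.H (k + 1))
    (h : U.D k a b) : U'.D k (τ.M U U' k a) (τ.M U U' (k + 1) b + τ.E U U' k a) := by
  obtain ⟨Ω, hΩ, rfl, rfl⟩ := h
  refine ⟨τ.mul Ω, τ.isT_mul hΩ, τ.M_j U U' hΩ, ?_⟩
  rw [τ.M_j U U' hΩ.dF, τ.E_j U U' hΩ, ← U'.j_add (τ.isT_mul hΩ.dF) (τ.isT_wed hΩ)]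
  exact (U'.j_congr ((τ.isT_mul hΩ.dF).add (τ.isT_wed hΩ)) fun p y hy => τ.dF_mul hΩ p hy).symm

theorem Tr.Pair.symm {τ : Tr Γ Γ'} {τ' : Tr Γ' Γ} (h : τ.Pair τ') : τ'.Pair τ := ⟨h.2, h.1⟩

theorem Tr.pair_ofFn (hw : IsFn Γ w) : (Tr.ofFn hw).Pair (Tr.ofFn hw) :=
  ⟨fun _ _ _ _ => ⟨rfl, rfl⟩, fun _ _ _ _ => ⟨rfl, rfl⟩⟩

/-- intF_bij. -/
theorem Tr.Pair.adj {τ : Tr Γ Γ'} {τ' : Tr Γ' Γ} (h : τ.Pair τ') (U : UpL2 Γ) (U' : UpL2 Γ')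
    (k : ℕ) (u : U.H k) (v : U'.H k) : ⟪τ.M U U' k u, v⟫_ℝ = ⟪u, τ'.M U' U k v⟫_ℝ := by
  refine U.ind₂ U' (q := fun u v => ⟪τ.M U U' k u, v⟫_ℝ = ⟪u, τ'.M U' U k v⟫_ℝ)
    (isClosed_eq (by fun_prop) (by fun_prop)) (fun Ω Ω' hΩ hΩ' => ?_) u v
  rw [τ.M_j U U' hΩ, τ'.M_j U' U hΩ', U'.inner_intF (τ.isT_mul hΩ) hΩ',
    U.inner_intF hΩ (τ'.isT_mul hΩ')]
  refine intF_bij ((τ.isT_mul hΩ).isC_ip hΩ') (hΩ.isC_ip (τ'.isT_mul hΩ')) τ.f τ'.f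
    (fun p y hy h0 => ?_) fun p y hy h0 => ?_
  · obtain ⟨h1, h2⟩ := h.1 p y hy fun e => h0 (by rw [Tr.mul, e, zero_smul, ipUp_zero_left])
    refine ⟨h1, ?_⟩
    rw [Tr.mul, Tr.mul, ipUp_smul_left, ipUp_smul_right, h1, h2]
  · obtain ⟨h1, h2⟩ := h.2 p y hy fun e => h0 (by rw [Tr.mul, e, zero_smul, ipUp_zero_right])
    refine ⟨h1, ?_⟩
    rw [Tr.mul, Tr.mul, ipUp_smul_left, ipUp_smul_right, h1, h2]

theorem Tr.Pair.comp {τ : Tr Γ Γ'} {τ' : Tr Γ' Γ} (h : τ.Pair τ') (U : UpL2 Γ) (U' : UpL2 Γ')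
    (u : U.H k) : τ'.M U' U k (τ.M U U' k u) = U.m (fun p y => τ'.w p y ^ 2) k u := by
  refine U.ind (q := fun u => τ'.M U' U k (τ.M U U' k u) = U.m (fun p y => τ'.w p y ^ 2) k u)
    (isClosed_eq (by fun_prop) (by fun_prop)) (fun Ω hΩ => ?_) u
  rw [τ.M_j U U' hΩ, τ'.M_j U' U (τ.isT_mul hΩ), U.m_j τ'.fn.sq hΩ]
  refine U.j_congr (τ'.fn.sq.isT_smul hΩ) fun p y hy => ?_
  rw [Tr.mul, Tr.mul]
  by_cases h0 : τ'.w p y = 0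
  · rw [h0, zero_smul, zero_pow two_ne_zero, zero_smul]
  · obtain ⟨h1, h2⟩ := h.2 p y hy h0
    rw [h1, h2, smul_smul, sq]

theorem Tr.Pair.norm_sq {τ : Tr Γ Γ'} {τ' : Tr Γ' Γ} (h : τ.Pair τ') (U : UpL2 Γ) (U' : UpL2 Γ')
    (u : U.H k) : ‖τ.M U U' k u‖ ^ 2 = ⟪U.m (fun p y => τ'.w p y ^ 2) k u, u⟫_ℝ := by
  rw [← real_inner_self_eq_norm_sq, h.adj, h.comp, real_inner_comm]

/-- If τ.w p is not identically zero on DR it agrees there with τ'.w (τ.f p). -/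
theorem Tr.Pair.gsq_le {τ : Tr Γ Γ'} {τ' : Tr Γ' Γ} (h : τ.Pair τ') {F : Fn P}
    (hF : ∀ p, ∀ y ∈ DR c, gsq c y (fderiv ℝ (τ'.w p) y) ≤ F p y) (p : P') {y : Eu 3}
    (hy : y ∈ DR c) : gsq c y (fderiv ℝ (τ.w p) y) ≤ F (τ.f p) y := by
  by_cases h0 : fderiv ℝ (τ.w p) y = 0
  · rw [h0, gsq_zero]
    exact (gsq_nonneg _).trans (hF _ y hy)
  obtain ⟨z, hz, h1⟩ := exists_ne_of_fderiv_ne h0 (isOpen_DR.mem_nhds hy)
  have h2 := (h.1 p z hz h1).1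
  have h3 : τ.w p =ᶠ[𝓝 y] τ'.w (τ.f p) := by
    filter_upwards [isOpen_DR.mem_nhds hy] with x hx
    by_cases h4 : τ.w p x = 0
    · by_contra h5
      have h6 := (h.2 (τ.f p) x hx fun e => h5 (h4.trans e.symm)).2
      rw [h2] at h6
      exact h5 h6
    · exact (h.1 p x hx h4).2.symm
  rw [h3.fderiv_eq]
  exact hF _ y hy

theorem UpL2.m_congr (U : UpL2 Γ) (hw : IsFn Γ w) (hw' : IsFn Γ w')
    (h : ∀ p, ∀ y ∈ DR c, w p y = w' p y) (z : U.H k) : U.m w k z = U.m w' k z := by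
  refine U.ind (q := fun z => U.m w k z = U.m w' k z)
    (isClosed_eq (by fun_prop) (by fun_prop)) (fun Ω hΩ => ?_) z
  rw [U.m_j hw hΩ, U.m_j hw' hΩ]
  exact U.j_congr (hw'.isT_smul hΩ) fun p y hy => by rw [h p y hy]
theorem UpL2.m_const (U : UpL2 Γ) (t : ℝ) (z : U.H k) : U.m (fun _ _ => t) k z = t • z := by
  refine U.ind (q := fun z => U.m (fun _ _ => t) k z = t • z)
    (isClosed_eq (by fun_prop) (by fun_prop)) (fun Ω hΩ => ?_) z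
  rw [U.m_j (IsFn.const t) hΩ, ← U.j_smul hΩ]
  rfl
theorem UpL2.m_add (U : UpL2 Γ) (hw : IsFn Γ w) (hw' : IsFn Γ w') (z : U.H k) :
    U.m (fun p y => w p y + w' p y) k z = U.m w k z + U.m w' k z := by
  refine U.ind (q := fun z => U.m (fun p y => w p y + w' p y) k z = U.m w k z + U.m w' k z)
    (isClosed_eq (by fun_prop) (by fun_prop)) (fun Ω hΩ => ?_) z
  rw [U.m_j (hw.add hw') hΩ, U.m_j hw hΩ, U.m_j hw' hΩ,
    ← U.j_add (hw.isT_smul hΩ) (hw'.isT_smul hΩ)]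
  exact U.j_congr ((hw.isT_smul hΩ).add (hw'.isT_smul hΩ)) fun p y _ => add_smul _ _ _
theorem UpL2.m_sub (U : UpL2 Γ) (hw : IsFn Γ w) (hw' : IsFn Γ w') (z : U.H k) :
    U.m (fun p y => w p y - w' p y) k z = U.m w k z - U.m w' k z := by
  refine U.ind (q := fun z => U.m (fun p y => w p y - w' p y) k z = U.m w k z - U.m w' k z)
    (isClosed_eq (by fun_prop) (by fun_prop)) (fun Ω hΩ => ?_) z
  rw [U.m_j (hw.sub hw') hΩ, U.m_j hw hΩ, U.m_j hw' hΩ,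
    ← U.j_sub (hw.isT_smul hΩ) (hw'.isT_smul hΩ)]
  exact U.j_congr ((hw.isT_smul hΩ).sub (hw'.isT_smul hΩ)) fun p y _ =>
    sub_smul (w p y) (w' p y) (Ω p y)
theorem UpL2.m_const_mul (U : UpL2 Γ) (hw : IsFn Γ w) (t : ℝ) (z : U.H k) :
    U.m (fun p y => t * w p y) k z = t • U.m w k z := by
  refine U.ind (q := fun z => U.m (fun p y => t * w p y) k z = t • U.m w k z)
    (isClosed_eq (by fun_prop) (by fun_prop)) (fun Ω hΩ => ?_) z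
  rw [U.m_j (hw.const_mul t) hΩ, U.m_j hw hΩ, ← U.j_smul (hw.isT_smul hΩ)]
  exact U.j_congr ((hw.isT_smul hΩ).smul t) fun p y _ => mul_smul _ _ _
theorem UpL2.m_mul (U : UpL2 Γ) (hw : IsFn Γ w) (hw' : IsFn Γ w') (z : U.H k) :
    U.m (fun p y => w p y * w' p y) k z = U.m w k (U.m w' k z) := by
  refine U.ind (q := fun z => U.m (fun p y => w p y * w' p y) k z = U.m w k (U.m w' k z))
    (isClosed_eq (by fun_prop) (by fun_prop)) (fun Ω hΩ => ?_) z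
  rw [U.m_j (hw.mul hw') hΩ, U.m_j hw' hΩ, U.m_j hw (hw'.isT_smul hΩ)]
  exact U.j_congr (hw.isT_smul (hw'.isT_smul hΩ)) fun p y _ => mul_smul _ _ _
theorem UpL2.m_sum (U : UpL2 Γ) {ι : Type} (s : Finset ι) {F : ι → Fn P}
    (h : ∀ i ∈ s, IsFn Γ (F i)) (z : U.H k) :
    U.m (fun p y => ∑ i ∈ s, F i p y) k z = ∑ i ∈ s, U.m (F i) k z := by
  classical
  induction s using Finset.induction_on with
  | empty => simp only [Finset.sum_empty, U.m_const, zero_smul]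
  | insert i s hi ih =>
    have h1 : ∀ j ∈ s, IsFn Γ (F j) := fun j hj => h j (Finset.mem_insert_of_mem hj)
    simp only [Finset.sum_insert hi]
    rw [U.m_add (h i (Finset.mem_insert_self i s)) (IsFn.sum s h1), ih h1]
theorem UpL2.m_sym (U : UpL2 Γ) (hw : IsFn Γ w) (u v : U.H k) :
    ⟪U.m w k u, v⟫_ℝ = ⟪u, U.m w k v⟫_ℝ :=
  (Tr.pair_ofFn hw).adj U U k u v
theorem UpL2.m_pos (U : UpL2 Γ) (hw : IsFn Γ w) (h : ∀ p, ∀ y ∈ DR c, 0 ≤ w p y) (z : U.H k) :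
    0 ≤ ⟪U.m w k z, z⟫_ℝ := by
  refine U.ind (q := fun z => 0 ≤ ⟪U.m w k z, z⟫_ℝ)
    (isClosed_le continuous_const (by fun_prop)) (fun Ω hΩ => ?_) z
  rw [U.m_j hw hΩ, U.inner_intF (hw.isT_smul hΩ) hΩ]
  refine intF_nonneg fun p y hy => ?_
  rw [ipUp_smul_left]
  exact mul_nonneg (h p y hy) (ipUp_self_nonneg _)
theorem UpL2.m_le (U : UpL2 Γ) (hw : IsFn Γ w) (hw' : IsFn Γ w') {t : ℝ}
    (h : ∀ p, ∀ y ∈ DR c, w p y ≤ t * w' p y) (z : U.H k) :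
    ⟪U.m w k z, z⟫_ℝ ≤ t * ⟪U.m w' k z, z⟫_ℝ := by
  have h1 := U.m_pos ((hw'.const_mul t).sub hw) (fun p y hy => sub_nonneg.2 (h p y hy)) z
  rwa [U.m_sub (hw'.const_mul t) hw, U.m_const_mul hw', inner_sub_left, real_inner_smul_left,
    sub_nonneg] at h1
theorem UpL2.m_le_const (U : UpL2 Γ) (hw : IsFn Γ w) {t : ℝ}
    (h : ∀ p, ∀ y ∈ DR c, w p y ≤ t) (z : U.H k) : ⟪U.m w k z, z⟫_ℝ ≤ t * ‖z‖ ^ 2 := by
  have h1 := U.m_le hw (IsFn.const 1) (t := t) (fun p y hy => by simpa using h p y hy) z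
  rwa [U.m_const, one_smul, real_inner_self_eq_norm_sq] at h1
theorem UpL2.inner_m_m (U : UpL2 Γ) (hw : IsFn Γ w) (hw' : IsFn Γ w') (z : U.H k) :
    ⟪U.m w k (U.m w' k z), U.m w' k z⟫_ℝ = ⟪U.m (fun p y => w p y * w' p y ^ 2) k z, z⟫_ℝ := by
  rw [← U.m_sym hw', ← U.m_mul hw hw', ← U.m_mul hw' (hw.mul hw'),
    U.m_congr (hw'.mul (hw.mul hw')) (hw.mul hw'.sq) fun p y _ => by ring]
theorem UpL2.norm_m_sq (U : UpL2 Γ) (hw : IsFn Γ w) (z : U.H k) :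
    ‖U.m w k z‖ ^ 2 = ⟪U.m (fun p y => w p y ^ 2) k z, z⟫_ℝ := by
  rw [← real_inner_self_eq_norm_sq, ← U.m_sym hw, ← U.m_mul hw hw,
    U.m_congr (hw.mul hw) hw.sq fun p y _ => by ring]
theorem UpL2.norm_sub_m_sq (U : UpL2 Γ) (hw : IsFn Γ w) (z : U.H k) :
    ‖z - U.m w k z‖ ^ 2 = ⟪U.m (fun p y => (1 - w p y) ^ 2) k z, z⟫_ℝ := by
  rw [← U.norm_m_sq ((IsFn.const 1).sub hw), U.m_sub (IsFn.const 1) hw, U.m_const, one_smul]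

/-- Cauchy-Schwarz for the non-negative form of m w (discrim_le_zero). -/
theorem UpL2.inner_m_sq_le (U : UpL2 Γ) (hw : IsFn Γ w) (h : ∀ p, ∀ y ∈ DR c, 0 ≤ w p y)
    (u v : U.H k) : ⟪U.m w k u, v⟫_ℝ ^ 2 ≤ ⟪U.m w k u, u⟫_ℝ * ⟪U.m w k v, v⟫_ℝ := by
  have h1 := discrim_le_zero (a := ⟪U.m w k u, u⟫_ℝ) (b := 2 * ⟪U.m w k u, v⟫_ℝ)
    (c := ⟪U.m w k v, v⟫_ℝ) fun x => by
      have h2 := U.m_pos hw h (x • u + v)
      have h3 : ⟪U.m w k v, u⟫_ℝ = ⟪U.m w k u, v⟫_ℝ := by rw [U.m_sym hw, real_inner_comm]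
      simp only [map_add, map_smul, inner_add_left, inner_add_right, real_inner_smul_left,
        real_inner_smul_right, h3] at h2
      linarith
  rw [discrim] at h1
  linarith

end Pool.Agent.Lib.MP_570070_gt.An
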