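import Pool.Agent.Lib.MP_570070_gt.An.Ext
import Pool.Agent.Lib.MP_570070_gt.An.Star
import Pool.Agent.Lib.MP_570070_gt.An.DivE
import Pool.Agent.Lib.MP_570070_gt.An.UOp

/-! The local Poincaré inequality in dual form. -/

open MeasureTheory Filter Topology Set
open scoped ContDiff InnerProductSpace

namespace Pool.Agent.Lib.MP_570070_gt.An

theorem exists_lam_bd (c : Par) {a : ℝ} (ha : -1 < a) : ∃ L : ℝ, 1 ≤ L ∧ ∀ y ∈ DR c,
    (∀ e : Ed c, a ≤ sc e y) → lam c y ^ 2 ≤ L ∧ (lam c y ^ 2)⁻¹ ≤ L := by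
  have hK := isCompact_core (c := c) ha 0 0
  have h1 : ContinuousOn (fun y => lam c y ^ 2) (DR c) := contDiffOn_lam.continuousOn.pow 2
  obtain ⟨A, hA⟩ := hK.bddAbove_image (h1.mono fun _ h => h.1)
  obtain ⟨B, hB⟩ := hK.bddAbove_image
    ((h1.inv₀ fun y hy => (pow_pos (lam_pos hy) 2).ne').mono fun _ h => h.1)
  refine ⟨max 1 (max A B), le_max_left _ _, fun y hy h => ?_⟩
  have h0 : Function.update y 2 0 0 = y 0 := Function.update_of_ne (by decide) _ _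
  have h2 : Function.update y 2 0 1 = y 1 := Function.update_of_ne (by decide) _ _
  have h3 : Function.update y 2 0 ∈
      {y : Eu 3 | y ∈ DR c ∧ (∀ e : Ed c, a ≤ sc e y) ∧ y 2 ∈ Icc (0 : ℝ) 0} :=
    ⟨(mem_DR_congr h0 h2).2 hy, fun e => by rw [sc_congr e h0 h2]; exact h e, by simp⟩
  rw [← lam_congr h0 h2]
  exact ⟨(hA ⟨_, h3, rfl⟩).trans ((le_max_left _ _).trans (le_max_right _ _)),
    (hB ⟨_, h3, rfl⟩).trans ((le_max_right _ _).trans (le_max_right _ _))⟩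

variable {c : Par} {P : Type} {Γ : Gl c P}

/-- A piece and its neighbours. -/
def Gl.nb (Γ : Gl c P) (p : P) : Set P := {q | q = p ∨ ∃ e, Γ.σ e q = p}

theorem wt_nb {p q : P} {y : Eu 3} (hy : y ∈ DR c)
    (h : q = p ∨ ∃ e, Γ.σ e q = p ∧ sc e y < 1) : wt Γ (indicator (Γ.nb p) 1) q y = 1 := by
  rcases h with rfl | ⟨e, h1, h2⟩
  · rw [wt_congr (a' := fun _ => 1) (indicator_of_mem (s := Γ.nb q) (Or.inl rfl) _)
      fun e => indicator_of_mem (s := Γ.nb q) (Or.inr ⟨e, Γ.invol e q⟩) _, wt_const]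
  · rw [wt, sum_collar hy (e := e) (by linarith) _ fun e' h => by
      rw [kap_eq_zero (by linarith), mul_zero], indicator_of_mem (s := Γ.nb p) (Or.inl h1),
      indicator_of_mem (s := Γ.nb p) (Or.inr ⟨e, h1⟩)]
    simp

theorem UpL2.inner_sq_le_nb (U : UpL2 Γ) {k : ℕ} {p : P} {Ω : Fam P k} (h : IsT Γ Ω)
    (g : InPiece Γ p Ω) (η : U.H k) : ⟪η, U.j k Ω⟫_ℝ ^ 2 ≤
      ⟪U.m (wt Γ (indicator (Γ.nb p) 1)) k η, η⟫_ℝ * ‖U.j k Ω‖ ^ 2 := by
  have hw := isFn_wt_ind (Γ := Γ) (Γ.nb p)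
  have e : U.m (wt Γ (indicator (Γ.nb p) 1)) k (U.j k Ω) = U.j k Ω := by
    rw [U.m_j hw h]
    refine U.j_congr h fun q y hy => ?_
    by_cases h0 : Ω q y = 0
    · rw [h0, smul_zero]
    · rw [wt_nb hy (g q y hy h0), one_smul]
  have := U.inner_m_sq_le hw (fun q y hy => wt_ind_nonneg _ q hy) η (U.j k Ω)
  rwa [U.m_sym hw η, e, real_inner_self_eq_norm_sq] at this

theorem UpL2.wcod_st2 (U : UpL2 Γ) {Θ : Fam P 2} (h : IsT Γ Θ) :
    WCod U.D 0 (U.j 1 fun p y => st2 c y (Θ p y))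
      (-U.j 0 fun p y => st3 c y (dF Θ p y)) := by
  rintro _ _ ⟨Ω, g, rfl, rfl⟩
  rw [U.stokes0 g h, inner_neg_right, U.inner_intF g.st0 h.dF, U.inner_intF g h.dF.st3]
  refine congrArg _ (intF_congr fun p y hy => ?_)
  rw [← ipUp_st0 hy (Ω p y), st0_st3 hy]

theorem exists_LP (c : Par) : ∃ C : ℝ, 0 ≤ C ∧ ∀ {P : Type} (Γ : Gl c P) (U : UpL2 Γ) (p : P),
    ∃ β : U.H 0, ∀ v η, WD U.D 0 v η → ∀ f : Fam P 0, IsT Γ f → InPiece Γ p f →
      (∀ y ∈ DR c, f p y ≠ 0 → ∀ e : Ed c, -1 / 2 ≤ sc e y) →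
      (⟪v, U.j 0 f⟫_ℝ - (∫ y in Cell c, c0 (f p y) * lam c y ^ 2) * ⟪v, β⟫_ℝ) ^ 2 ≤
        C * ⟪U.m (wt Γ (indicator (Γ.nb p) 1)) 1 η, η⟫_ℝ * ‖U.j 0 f‖ ^ 2 := by
  obtain ⟨B, C, a, hC, ha, hB, hBs, H⟩ := exists_div c
  obtain ⟨L, hL, hL'⟩ := exists_lam_bd c ha
  obtain ⟨M, hM, hM'⟩ := exists_lam_bd c (a := -1 / 2) (by norm_num)
  have hl : ContDiffOn ℝ ∞ (fun y => lam c y ^ 2) (DR c) := contDiffOn_lam.pow 2
  have hper : ∀ y, lam c (y + per) = lam c y := fun y => lam_congr (by simp) (by simp)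
  have hβ : IsP c a fun y => f0 ((lam c y ^ 2)⁻¹ * B y) :=
    ⟨ha, contDiff_f0.comp_contDiffOn ((hl.inv fun y hy => (pow_pos (lam_pos hy) 2).ne').mul
      hB.smooth.contDiffOn), fun y _ => by rw [hper, hB.per],
      fun y _ h => (hBs y fun h1 => h (by simp [h1])).2⟩
  refine ⟨L * C * M, by positivity, fun {P} Γ U p =>
    ⟨U.j 0 (extP Γ p fun y => f0 ((lam c y ^ 2)⁻¹ * B y)), ?_⟩⟩
  intro v η hv f hf hp hs
  have hF : ContDiffOn ℝ ∞ (fun y => c0 (f p y) * lam c y ^ 2) (DR c) :=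
    (contDiff_c0.comp_contDiffOn (hf.smooth p)).mul hl
  have hFs : ∀ y ∈ DR c, c0 (f p y) * lam c y ^ 2 ≠ 0 → ∀ e : Ed c, -1 / 2 ≤ sc e y :=
    fun y hy h => hs y hy fun h1 => h (by simp [h1])
  obtain ⟨b, hb, hbp, hbs, hbd, hbi⟩ := H _ hF (fun y hy => by rw [hf.per p y hy, hper]) hFs
  set m := ∫ y in Cell c, c0 (f p y) * lam c y ^ 2
  have hΘ : IsP c a fun y => f2 (b y) := ⟨ha, (contDiff_f2.comp hb).contDiffOn,
    fun y _ => by rw [hbp], fun y _ h => (hbs y fun h1 => h (by simp [h1])).2⟩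
  have hT := hΘ.isT (Γ := Γ) p
  have hφ : InPiece Γ p fun q y => st2 c y (extP Γ p (fun y => f2 (b y)) q y) :=
    (hΘ.inPiece p).mono fun q y h => by rw [h, st2_zero]
  have h1 := hv _ _ (U.test_iff.2 ⟨_, hT.st2, rfl⟩) (U.wcod_st2 hT)
  have h2 : U.j 0 (fun q y => st3 c y (dF (extP Γ p fun y => f2 (b y)) q y)) =
      U.j 0 f - m • U.j 0 (extP Γ p fun y => f0 ((lam c y ^ 2)⁻¹ * B y)) := by
    rw [← U.j_smul (hβ.isT p), ← U.j_sub hf ((hβ.isT p).smul m)]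
    refine U.j_eq_of_piece hT.dF.st3 (hf.sub ((hβ.isT p).smul m))
      (((hΘ.inP p).d.inPiece (by linarith)).mono fun q y h => by rw [h, st3_zero])
      (hp.sub (hβ.inPiece p) m) fun y hy => ?_
    have h3 := (lam_pos hy).ne'
    rw [dF, extP_self, st3, c3_extDeriv (α := fun y => f2 (b y))
      (((contDiff_f2.comp hb).differentiable (by simp)).differentiableAt)]
    simp only [c2_f2, Pi.sub_apply, Pi.smul_apply, extP_self]
    rw [hbd y hy, eq_sub_iff_add_eq, ← f0_smul, ← f0_add, ← f0_c0 (f p y), c0_f0]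
    congr 1
    field_simp
    ring
  rw [h2, inner_neg_right, inner_sub_right, real_inner_smul_right] at h1
  have hc : ∀ i, ContinuousOn (fun y => b y i) (DR c) := fun i =>
    ((continuous_apply i).comp hb.continuous).continuousOn
  have h3 : ‖U.j 1 fun q y => st2 c y (extP Γ p (fun y => f2 (b y)) q y)‖ ^ 2 ≤
      L * ∫ y in Cell c, ∑ i, b y i ^ 2 := by
    rw [← real_inner_self_eq_norm_sq, U.piece 1 p _ _ hT.st2 hT.st2 hφ, ← integral_const_mul]
    refine setIntegral_mono_on (integrableOn_cell ((continuousOn_ipUp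
      (hT.st2.smooth p).continuousOn (hT.st2.smooth p).continuousOn).mul hl.continuousOn) ha
      fun y _ h => (hbs y fun h1 => h (by simp [extP_self, h1, st2_zero, ipUp_zero_left])).2)
      (integrableOn_cell (continuousOn_const.mul (continuousOn_finsetSum _ fun i _ =>
        (hc i).pow 2)) ha fun y _ h => (hbs y fun h1 => h (by simp [h1])).2)
      isOpen_Cell.measurableSet fun y hy => ?_
    by_cases h0 : b y = 0
    · simp [extP_self, h0, st2_zero, ipUp_zero_left]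
    have h4 := (hL' y hy.1 (hbs y h0).2).2
    have h5 := (lam_pos hy.1).ne'
    rw [ipUp_one_deg]
    simp only [extP_self, st2, c1_f1, c2_f2, Fin.sum_univ_three, Matrix.cons_val_zero,
      Matrix.cons_val_one, Matrix.cons_val]
    have h6 : ((lam c y ^ 2)⁻¹ * (b y 0 * b y 0 + b y 1 * b y 1) +
        (lam c y ^ 2)⁻¹ * b y 2 * ((lam c y ^ 2)⁻¹ * b y 2)) * lam c y ^ 2 =
        b y 0 ^ 2 + b y 1 ^ 2 + (lam c y ^ 2)⁻¹ * b y 2 ^ 2 := by field_simp
    rw [h6]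
    nlinarith [mul_le_mul_of_nonneg_right h4 (sq_nonneg (b y 2)),
      mul_le_mul_of_nonneg_right hL (sq_nonneg (b y 0)),
      mul_le_mul_of_nonneg_right hL (sq_nonneg (b y 1))]
  have h4 : ∫ y in Cell c, (c0 (f p y) * lam c y ^ 2) ^ 2 ≤ M * ‖U.j 0 f‖ ^ 2 := by
    rw [← real_inner_self_eq_norm_sq, U.piece 0 p _ _ hf hf hp, ← integral_const_mul]
    refine setIntegral_mono_on (integrableOn_cell (a := -1 / 2) (hF.continuousOn.pow 2)
      (by norm_num) fun y hy h => hFs y hy (ne_zero_pow two_ne_zero h))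
      (integrableOn_cell (a := -1 / 2) (continuousOn_const.mul ((continuousOn_ipUp
        (hf.smooth p).continuousOn (hf.smooth p).continuousOn).mul hl.continuousOn))
        (by norm_num) fun y hy h => hs y hy fun h1 => h (by simp [h1, ipUp_zero_left]))
      isOpen_Cell.measurableSet fun y hy => ?_
    by_cases h0 : f p y = 0
    · simp [h0, ipUp_zero_left]
    rw [ipUp_zero_deg]
    nlinarith [mul_le_mul_of_nonneg_right (hM' y hy.1 (hs y hy.1 h0)).1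
      (mul_nonneg (sq_nonneg (c0 (f p y))) (sq_nonneg (lam c y)))]
  have h5 := U.m_pos (isFn_wt_ind (Γ := Γ) (Γ.nb p)) (fun q y hy => wt_ind_nonneg _ q hy) η
  rw [← neg_sq, h1]
  refine (U.inner_sq_le_nb hT.st2 hφ η).trans ?_
  calc _ ≤ ⟪U.m (wt Γ (indicator (Γ.nb p) 1)) 1 η, η⟫_ℝ * (L * (C * (M * ‖U.j 0 f‖ ^ 2))) :=
        mul_le_mul_of_nonneg_left (h3.trans (mul_le_mul_of_nonneg_left
          (hbi.trans (mul_le_mul_of_nonneg_left h4 hC)) (by linarith))) h5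
    _ = _ := by ring

end Pool.Agent.Lib.MP_570070_gt.An
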