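import Pool.Agent.Lib.MP_570070_gt.An.UFn

open MeasureTheory Filter Topology Set
open scoped ContDiff InnerProductSpace

namespace Pool.Agent.Lib.MP_570070_gt.An

variable {c : Par} {P : Type} {Γ : Gl c P} {ℓ : P → ℕ} {c₀ : ℝ} {p : P} {y : Eu 3}

/-! Pointwise facts. All follow from exists_edge: with i = ℓ p, j = ℓ (σ e p), |i - j| ≤ 1
(hℓ and Γ.invol), κ = kap e y ∈ [0, 1], wt a p y = (1 - κ) a p + κ a (σ e p), and the gradient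
is (a (σ e p) - a p) • d(kap e) (gsq_smul, hc). -/

theorem wt_le_mul {a b : P → ℝ} {t : ℝ} (h : ∀ p, a p ≤ t * b p) (hy : y ∈ DR c) :
    wt Γ a p y ≤ t * wt Γ b p y := by
  obtain ⟨e, -, he⟩ := exists_edge hy
  rw [(he Γ a p).1, (he Γ b p).1]
  nlinarith [mul_le_mul_of_nonneg_left (h p) (sub_nonneg.2 (kap_le_one e y)),
    mul_le_mul_of_nonneg_left (h (Γ.σ e p)) (kap_nonneg e y)]

theorem isFn_pow {L : ℕ} (hL : ∀ p, ℓ p ≤ L) {ρ : ℝ} (hρ : 1 ≤ ρ) :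
    IsFn Γ (wt Γ fun p => ρ ^ ℓ p) :=
  isFn_wt (B := ρ ^ L) fun p => by
    rw [abs_of_nonneg (pow_nonneg (zero_le_one.trans hρ) _)]
    exact pow_le_pow_right₀ hρ (hL p)

theorem pow_nonneg_wt {ρ : ℝ} (hρ : 1 ≤ ρ) (hy : y ∈ DR c) : 0 ≤ wt Γ (fun p => ρ ^ ℓ p) p y :=
  le_wt (a := fun p => ρ ^ ℓ p) (pow_nonneg (zero_le_one.trans hρ) _)
    (fun _ => pow_nonneg (zero_le_one.trans hρ) _) hy

theorem locpt_one {S : Set P} {q : P} (h : q ∈ S) : indicator S (1 : P → ℝ) q = 1 :=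
  indicator_of_mem h _

theorem locpt_zero {S : Set P} {q : P} (h : q ∉ S) : indicator S (1 : P → ℝ) q = 0 :=
  indicator_of_notMem h _

/-- The gradient bound along the edge given by exists_edge. -/
theorem locpt_gsq {e : Ed c} {a : P → ℝ} (h1 : gsq c y (fderiv ℝ (kap e) y) ≤ c₀ ^ 2)
    (h2 : fderiv ℝ (wt Γ a p) y = (a (Γ.σ e p) - a p) • fderiv ℝ (kap e) y) :
    gsq c y (fderiv ℝ (wt Γ a p) y) ≤ (a (Γ.σ e p) - a p) ^ 2 * c₀ ^ 2 := by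
  rw [h2, gsq_smul]
  exact mul_le_mul_of_nonneg_left h1 (sq_nonneg _)

/-- The gradient of an interpolated indicator vanishes unless the edge crosses the boundary. -/
theorem locpt_ind (hc : ∀ (e : Ed c), ∀ y ∈ DR c, gsq c y (fderiv ℝ (kap e) y) ≤ c₀ ^ 2)
    (S T : Set P) (h : ∀ e, ¬(Γ.σ e p ∈ S ↔ p ∈ S) → p ∈ T ∧ Γ.σ e p ∈ T) (hy : y ∈ DR c) :
    gsq c y (fderiv ℝ (wt Γ (indicator S 1) p) y) = 0 ∨
      (gsq c y (fderiv ℝ (wt Γ (indicator S 1) p) y) ≤ c₀ ^ 2 ∧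
        wt Γ (indicator T 1) p y = 1) := by
  obtain ⟨e, -, he⟩ := exists_edge hy
  have h1 := locpt_gsq (hc e y hy) (he Γ (indicator S 1) p).2
  by_cases hS : Γ.σ e p ∈ S ↔ p ∈ S
  · left
    have h2 : indicator S (1 : P → ℝ) (Γ.σ e p) = indicator S 1 p := by
      by_cases hp : p ∈ S
      · rw [locpt_one hp, locpt_one (hS.2 hp)]
      · rw [locpt_zero hp, locpt_zero (mt hS.1 hp)]
    rw [h2, sub_self, zero_pow two_ne_zero, zero_mul] at h1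
    exact le_antisymm h1 (gsq_nonneg _)
  · right
    refine ⟨h1.trans (mul_le_of_le_one_left (sq_nonneg _) ?_), ?_⟩
    · nlinarith [ufn_ind_nonneg S p, ufn_ind_le S p, ufn_ind_nonneg S (Γ.σ e p),
        ufn_ind_le S (Γ.σ e p)]
    · rw [(he Γ _ p).1, locpt_one (h e hS).1, locpt_one (h e hS).2]
      ring

variable (hℓ : ∀ e p, ℓ (Γ.σ e p) ≤ ℓ p + 1)
include hℓ

theorem locpt_back (e : Ed c) (p : P) : ℓ p ≤ ℓ (Γ.σ e p) + 1 := by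
  simpa only [Γ.invol] using hℓ e (Γ.σ e p)

theorem lev_le_of_ne {A : Set P} {m : ℕ} (hA : ∀ p ∈ A, ℓ p ≤ m) (hy : y ∈ DR c)
    (h : wt Γ (indicator A 1) p y ≠ 0) : ℓ p ≤ m + 1 := by
  rcases wt_ne_zero h hy with h1 | ⟨e, h1, -⟩
  · exact (hA p (mem_of_indicator_ne_zero h1)).trans (Nat.le_succ m)
  · exact (locpt_back hℓ e p).trans (Nat.succ_le_succ (hA _ (mem_of_indicator_ne_zero h1)))

theorem pow_wt_le {ρ : ℝ} (hρ : 1 ≤ ρ) (hy : y ∈ DR c) :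
    wt Γ (fun p => ρ ^ ℓ p) p y ≤ ρ ^ (ℓ p + 1) :=
  wt_le (a := fun p => ρ ^ ℓ p) (pow_le_pow_right₀ hρ (Nat.le_succ _))
    (fun e => pow_le_pow_right₀ hρ (hℓ e p)) hy

theorem pow_mul_sq_le {ρ : ℝ} (hρ : 1 ≤ ρ) (M : ℕ) (hy : y ∈ DR c) :
    wt Γ (fun p => ρ ^ ℓ p) p y * wt Γ (indicator {p | ℓ p ≤ M} 1) p y ^ 2 ≤ ρ ^ (M + 1) := by
  have h0 : 0 ≤ ρ ^ (M + 1) := pow_nonneg (zero_le_one.trans hρ) _
  obtain ⟨e, -, he⟩ := exists_edge hy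
  by_cases h : ℓ p ≤ M ∨ ℓ (Γ.σ e p) ≤ M
  · have h1 := hℓ e p
    have h2 := locpt_back hℓ e p
    have h3 : ρ ^ ℓ p ≤ ρ ^ (M + 1) := pow_le_pow_right₀ hρ (by omega)
    have h4 : ρ ^ ℓ (Γ.σ e p) ≤ ρ ^ (M + 1) := pow_le_pow_right₀ hρ (by omega)
    have h5 : wt Γ (fun p => ρ ^ ℓ p) p y ≤ ρ ^ (M + 1) := by
      rw [(he Γ _ p).1]
      nlinarith [mul_le_mul_of_nonneg_left h3 (sub_nonneg.2 (kap_le_one e y)),
        mul_le_mul_of_nonneg_left h4 (kap_nonneg e y)]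
    exact (mul_le_of_le_one_right (pow_nonneg_wt hρ hy)
      (pow_le_one₀ (wt_ind_nonneg _ p hy) (wt_ind_le_one _ p hy))).trans h5
  · rw [not_or] at h
    rw [(he Γ (indicator {p | ℓ p ≤ M} 1) p).1, locpt_zero (S := {p | ℓ p ≤ M}) h.1,
      locpt_zero (S := {p | ℓ p ≤ M}) h.2]
    simpa using h0

omit hℓ in
theorem one_sub_sq_le {ρ : ℝ} (hρ : 1 ≤ ρ) (M : ℕ) (hy : y ∈ DR c) :
    (1 - wt Γ (indicator {p | ℓ p ≤ M} 1) p y) ^ 2 ≤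
      (ρ ^ (M + 1))⁻¹ * wt Γ (fun p => ρ ^ ℓ p) p y := by
  have h0 : 0 < ρ ^ (M + 1) := pow_pos (zero_lt_one.trans_le hρ) _
  have h1 : ∀ q, 1 - indicator {p | ℓ p ≤ M} (1 : P → ℝ) q ≤ (ρ ^ (M + 1))⁻¹ * ρ ^ ℓ q := by
    intro q
    by_cases h : ℓ q ≤ M
    · rw [locpt_one (S := {p | ℓ p ≤ M}) h, sub_self]
      exact mul_nonneg (inv_pos.2 h0).le (pow_nonneg (zero_le_one.trans hρ) _)
    · rw [locpt_zero (S := {p | ℓ p ≤ M}) h, sub_zero, ← div_eq_inv_mul, one_le_div h0]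
      exact pow_le_pow_right₀ hρ (by omega)
  have h2 := wt_le_mul (Γ := Γ) (p := p) h1 hy
  have h3 : wt Γ (fun q => 1 - indicator {p | ℓ p ≤ M} (1 : P → ℝ) q) p y =
      1 - wt Γ (indicator {p | ℓ p ≤ M} 1) p y := by
    obtain ⟨e, -, he⟩ := exists_edge hy
    rw [(he Γ _ p).1, (he Γ _ p).1]
    ring
  rw [h3] at h2
  refine le_trans ?_ h2
  nlinarith [wt_ind_nonneg (Γ := Γ) {p | ℓ p ≤ M} p hy, wt_ind_le_one (Γ := Γ) {p | ℓ p ≤ M} p hy]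

theorem ball_eq_one {R : ℕ} (h : ℓ p + 1 ≤ R) (hy : y ∈ DR c) :
    wt Γ (indicator {p | ℓ p ≤ R} 1) p y = 1 :=
  le_antisymm (wt_ind_le_one _ p hy) (le_wt
    (locpt_one (S := {p | ℓ p ≤ R}) (Nat.le_of_succ_le h)).ge
    (fun e => (locpt_one (S := {p | ℓ p ≤ R}) ((hℓ e p).trans h)).ge) hy)

theorem far_eq_zero {R : ℕ} (h : ℓ p + 1 < R) (hy : y ∈ DR c) :
    wt Γ (indicator {p | R ≤ ℓ p} 1) p y = 0 :=
  le_antisymm (wt_le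
    (locpt_zero (S := {p | R ≤ ℓ p}) (not_le.2 (Nat.lt_of_succ_lt h))).le
    (fun e => (locpt_zero (S := {p | R ≤ ℓ p}) (not_le.2 ((hℓ e p).trans_lt h))).le) hy)
    (wt_ind_nonneg _ p hy)

theorem one_le_ball_far (R : ℕ) (hy : y ∈ DR c) :
    1 ≤ wt Γ (indicator {p | ℓ p ≤ R} 1) p y ^ 2 + wt Γ (indicator {p | R ≤ ℓ p} 1) p y ^ 2 := by
  obtain ⟨e, -, he⟩ := exists_edge hy
  have h1 := hℓ e p
  have h2 := locpt_back hℓ e p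
  by_cases h : ℓ p ≤ R ∧ ℓ (Γ.σ e p) ≤ R
  · have h3 : wt Γ (indicator {p | ℓ p ≤ R} 1) p y = 1 := by
      rw [(he Γ _ p).1, locpt_one (S := {p | ℓ p ≤ R}) h.1, locpt_one (S := {p | ℓ p ≤ R}) h.2]
      ring
    rw [h3, one_pow]
    exact le_add_of_nonneg_right (sq_nonneg _)
  · have h3 : wt Γ (indicator {p | R ≤ ℓ p} 1) p y = 1 := by
      rw [(he Γ _ p).1, locpt_one (S := {p | R ≤ ℓ p}) (show R ≤ ℓ p by omega),
        locpt_one (S := {p | R ≤ ℓ p}) (show R ≤ ℓ (Γ.σ e p) by omega)]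
      ring
    rw [h3, one_pow]
    exact le_add_of_nonneg_left (sq_nonneg _)

variable (hc : ∀ (e : Ed c), ∀ y ∈ DR c, gsq c y (fderiv ℝ (kap e) y) ≤ c₀ ^ 2)
include hc

theorem gsq_pow {ρ : ℝ} (hρ : 1 ≤ ρ) (hy : y ∈ DR c) :
    gsq c y (fderiv ℝ (wt Γ (fun p => ρ ^ ℓ p) p) y) ≤ (2 * c₀ * (ρ - 1)) ^ 2 *
      wt Γ (fun p => ρ ^ ℓ p) p y * wt Γ (fun p => ρ ^ ℓ p) p y := by
  obtain ⟨e, -, he⟩ := exists_edge hy
  have h1 := locpt_gsq (hc e y hy) (he Γ (fun p => ρ ^ ℓ p) p).2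
  have h2 := hℓ e p
  have h3 := locpt_back hℓ e p
  set W := wt Γ (fun p => ρ ^ ℓ p) p y with hW
  have key : ∀ i j : ℕ, i ≤ j → j ≤ i + 1 → ρ ^ i ≤ W →
      (ρ ^ j - ρ ^ i) ^ 2 ≤ ((ρ - 1) * W) ^ 2 := by
    intro i j hij hji hi
    have a1 : ρ ^ i ≤ ρ ^ j := pow_le_pow_right₀ hρ hij
    have a2 : ρ ^ j ≤ ρ ^ i * ρ := (pow_le_pow_right₀ hρ hji).trans_eq (pow_succ ρ i)
    refine pow_le_pow_left₀ (sub_nonneg.2 a1) ?_ 2
    nlinarith [mul_le_mul_of_nonneg_left hi (sub_nonneg.2 hρ)]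
  have h4 : (ρ ^ ℓ (Γ.σ e p) - ρ ^ ℓ p) ^ 2 ≤ ((ρ - 1) * W) ^ 2 := by
    rcases le_total (ℓ p) (ℓ (Γ.σ e p)) with h | h
    · refine key _ _ h h2 ?_
      rw [hW, (he Γ _ p).1]
      nlinarith [mul_le_mul_of_nonneg_left (pow_le_pow_right₀ hρ h) (kap_nonneg e y)]
    · rw [← neg_sub, neg_sq]
      refine key _ _ h h3 ?_
      rw [hW, (he Γ _ p).1]
      nlinarith [mul_le_mul_of_nonneg_left (pow_le_pow_right₀ hρ h)
        (sub_nonneg.2 (kap_le_one e y))]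
  refine h1.trans ((mul_le_mul_of_nonneg_right h4 (sq_nonneg c₀)).trans ?_)
  nlinarith [sq_nonneg ((ρ - 1) * W * c₀)]

theorem gsq_ball_ann (R : ℕ) (hy : y ∈ DR c) :
    gsq c y (fderiv ℝ (wt Γ (indicator {p | ℓ p ≤ R} 1) p) y) ≤
      (2 * c₀) ^ 2 * wt Γ (indicator {p | R ≤ ℓ p + 1 ∧ ℓ p ≤ R + 1} 1) p y := by
  rcases locpt_ind hc {p | ℓ p ≤ R} {p | R ≤ ℓ p + 1 ∧ ℓ p ≤ R + 1} (Γ := Γ) (p := p)
    (fun e h => by
      have h1 := hℓ e p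
      have h2 := locpt_back hℓ e p
      simp only [mem_ofPred_eq] at h ⊢
      omega) hy with h | ⟨h, h'⟩
  · rw [h]
    exact mul_nonneg (sq_nonneg _) (wt_ind_nonneg _ p hy)
  · rw [h']
    nlinarith [sq_nonneg c₀]

theorem gsq_ball_far (R : ℕ) (hy : y ∈ DR c) :
    gsq c y (fderiv ℝ (wt Γ (indicator {p | ℓ p ≤ R} 1) p) y) ≤
      (2 * c₀) ^ 2 * wt Γ (indicator {p | R ≤ ℓ p} 1) p y ^ 2 := by
  rcases locpt_ind hc {p | ℓ p ≤ R} {p | R ≤ ℓ p} (Γ := Γ) (p := p)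
    (fun e h => by
      have h1 := hℓ e p
      have h2 := locpt_back hℓ e p
      simp only [mem_ofPred_eq] at h ⊢
      omega) hy with h | ⟨h, h'⟩
  · rw [h]
    exact mul_nonneg (sq_nonneg _) (sq_nonneg _)
  · rw [h']
    nlinarith [sq_nonneg c₀]

/-- The gradient of ζ ^ 2 is 2 ζ times the gradient of ζ (ufn_diff, isFn_wt_ind). -/
theorem gsq_far_sq (R : ℕ) (hy : y ∈ DR c) :
    gsq c y (fderiv ℝ (fun z => wt Γ (indicator {p | R ≤ ℓ p} 1) p z ^ 2) y) ≤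
      (2 * c₀) ^ 2 * wt Γ (indicator {p | R ≤ ℓ p} 1) p y ^ 2 *
        wt Γ (indicator {p | R ≤ ℓ p + 1 ∧ ℓ p ≤ R + 1} 1) p y := by
  have hd := (ufn_diff (isFn_wt_ind (Γ := Γ) {p | R ≤ ℓ p}) p hy).hasFDerivAt.pow 2
  rw [hd.fderiv, gsq_smul]
  rcases locpt_ind hc {p | R ≤ ℓ p} {p | R ≤ ℓ p + 1 ∧ ℓ p ≤ R + 1} (Γ := Γ) (p := p)
    (fun e h => by
      have h1 := hℓ e p
      have h2 := locpt_back hℓ e p
      simp only [mem_ofPred_eq] at h ⊢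
      omega) hy with h | ⟨h, h'⟩
  · rw [h, mul_zero]
    exact mul_nonneg (mul_nonneg (sq_nonneg _) (sq_nonneg _)) (wt_ind_nonneg _ p hy)
  · rw [h']
    refine (mul_le_mul_of_nonneg_left h (sq_nonneg _)).trans (le_of_eq ?_)
    simp only [nsmul_eq_mul, Nat.cast_ofNat, Nat.add_one_sub_one, pow_one]
    ring

end Pool.Agent.Lib.MP_570070_gt.An
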