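import Pool.Agent.Lib.MP_570070_gt.An.UDef
import Pool.Agent.Lib.MP_570070_gt.An.UDens
import Pool.Agent.Lib.MP_570070_gt.An.AIface

open MeasureTheory Filter Topology Set
open scoped ContDiff InnerProductSpace

namespace Pool.Agent.Lib.MP_570070_gt.An

variable {c : Par} {P : Type} {Γ : Gl c P} {k : ℕ}

/-- τ : Tr Γ Γ with f = φ, w = 1 and τ' with f = φ.symm, w = 1 are a Pair; V = τ.M U U k is
isometric (Pair.norm_sq, m_congr, m_const) with inverse τ'.M U U k (Pair.comp); heat_equiv with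
W = pairOp (τ.M U U) k, W' = pairOp (τ'.M U U) k (Pair.mem, defect_eq_zero, pairOp_adj,
isHeat₂_of_isHeat); Tr.M_mem_on for both inclusions. -/
theorem exists_sym (U : UpL2 Γ) (φ : P ≃ P) (hφ : ∀ e p, φ (Γ.σ e p) = Γ.σ e (φ p))
    {Pt : ℝ → U.H k →L[ℝ] U.H k} (hP : IsHeat (dom U.D k) Pt) : ∃ V : U.H k ≃ₗᵢ[ℝ] U.H k,
      (∀ t u, 0 ≤ t → Pt t (V u) = V (Pt t u)) ∧ ∀ S, V '' U.on k S = U.on k (φ ⁻¹' S) := by
  let τ : Tr Γ Γ := ⟨φ, fun _ _ => 1, IsFn.const 1, fun p e _ _ _ _ => hφ e p,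
    fun _ _ _ _ h => φ.injective h⟩
  let τ' : Tr Γ Γ := ⟨φ.symm, fun _ _ => 1, IsFn.const 1, fun p e _ _ _ _ => φ.injective (by
    rw [hφ, φ.apply_symm_apply, φ.apply_symm_apply]), fun _ _ _ _ h => φ.symm.injective h⟩
  have hp : τ.Pair τ' := ⟨fun p _ _ _ => ⟨φ.symm_apply_apply p, rfl⟩,
    fun p _ _ _ => ⟨φ.apply_symm_apply p, rfl⟩⟩
  have one : ∀ u : U.H k, U.m (fun _ _ => (1 : ℝ) ^ 2) k u = u := fun u => by
    rw [U.m_const, one_pow, one_smul]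
  have h1 : ∀ u, τ'.M U U k (τ.M U U k u) = u := fun u => (hp.comp U U u).trans (one u)
  have h2 : ∀ u, τ.M U U k (τ'.M U U k u) = u := fun u => (hp.symm.comp U U u).trans (one u)
  let V : U.H k ≃ₗᵢ[ℝ] U.H k :=
    { toLinearEquiv := LinearEquiv.ofLinearMap (τ.M U U k : U.H k →ₗ[ℝ] U.H k)
        (τ'.M U U k : U.H k →ₗ[ℝ] U.H k) (LinearMap.ext h2) (LinearMap.ext h1)
      norm_map' := fun u => by
        refine (sq_eq_sq₀ (norm_nonneg _) (norm_nonneg _)).1 ((hp.norm_sq U U u).trans ?_)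
        exact (congrArg (fun x => ⟪x, u⟫_ℝ) (one u)).trans (real_inner_self_eq_norm_sq u) }
  refine ⟨V, fun t u ht => heat_equiv (isHeat₂_of_isHeat hP) (isHeat₂_of_isHeat hP) V
    (pairOp (τ.M U U) k) (pairOp (τ'.M U U) k) (pairOp_adj _ _ (hp.adj U U)) (fun u ξ h => ?_)
    (fun u ξ h => ?_) ht u, fun S => Subset.antisymm ?_ fun z hz => ⟨τ'.M U U k z, ?_, h2 z⟩⟩
  · have := hp.mem U U u ξ h
    rwa [defect_eq_zero τ τ' U U rfl rfl, add_zero] at this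
  · have := hp.symm.mem U U u ξ h
    rwa [defect_eq_zero τ' τ U U rfl rfl, add_zero] at this
  · rintro _ ⟨z, hz, rfl⟩
    exact τ.M_mem_on U U (fun p _ h => h) hz
  · refine τ'.M_mem_on U U (fun p _ h => ?_) hz
    rw [← φ.apply_symm_apply p]
    exact h

theorem sym_left {Q : Type} [Group Q] {g : Ed c → Q} (U : UpL2 (grpGl c g))
    {Pt : ℝ → U.H k →L[ℝ] U.H k} (hP : IsHeat (dom U.D k) Pt) (x : Q) :
    ∃ V : U.H k ≃ₗᵢ[ℝ] U.H k, (∀ t u, 0 ≤ t → Pt t (V u) = V (Pt t u)) ∧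
      V '' U.on k (base Q) = U.on k {p | p.1 = x} := by
  obtain ⟨V, h1, h2⟩ := exists_sym U ((Equiv.mulLeft x⁻¹).prodCongr (Equiv.refl Bool))
    (fun e p => by rcases p with ⟨y, _ | _⟩ <;> simp [grpGl, mul_assoc]) hP
  refine ⟨V, h1, (h2 _).trans (congrArg _ (Set.ext fun p => ?_))⟩
  simp [base, inv_mul_eq_one, eq_comm]

/-- Left translation by p.1⁻¹, trOn_equiv, trOn_mono, on_mono. -/
theorem tr_piece {Q : Type} [Group Q] {g : Ed c → Q} (U : UpL2 (grpGl c g))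
    {Pt : ℝ → U.H k →L[ℝ] U.H k} (hP : IsHeat (dom U.D k) Pt) (p : Q × Bool) {t : ℝ}
    (ht : 0 ≤ t) : trOn (U.on k {p}) (Pt t) ≤ trOn (U.on k (base Q)) (Pt t) := by
  obtain ⟨V, h1, h2⟩ := sym_left U hP p.1
  rw [← trOn_equiv V (fun u => h1 t u ht) (U.on k (base Q)), h2]
  exact trOn_mono (U.on_mono (by rintro _ rfl; rfl)) _

/-- Left translations, on_orth, total, coe_onS. -/
theorem exists_tiling (c : Par) {Q : Type} [Group Q] (g : Ed c → Q) (U : UpL2 (grpGl c g)) {k : ℕ}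
    {Pt : ℝ → U.H k →L[ℝ] U.H k} (hP : IsHeat (dom U.D k) Pt) :
    Nonempty (Tiling Pt (U.onS k (base Q)) Q) := by
  choose V h1 h2 using sym_left U hP
  have h3 : ∀ x, ∀ z ∈ U.onS k (base Q), V x z ∈ U.on k {p | p.1 = x} := fun x z hz => by
    rw [← h2, ← U.coe_onS]
    exact mem_image_of_mem _ hz
  refine ⟨⟨V, h1, fun x y h z hz z' hz' => U.on_orth (disjoint_left.2 fun p a b => ?_) (h3 x z hz)
    (h3 y z' hz'), by rw [U.coe_onS]; exact U.isClosed_on _ _,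
    fun z hz => U.total fun p w hw => ?_⟩⟩
  · exact h (Eq.trans (Eq.symm a) b)
  · have h4 : w ∈ V p.1 '' U.on k (base Q) := by
      rw [h2]
      exact U.on_mono (by rintro _ rfl; rfl) hw
    obtain ⟨v, hv, rfl⟩ := h4
    exact hz _ v (by rwa [← SetLike.mem_coe, U.coe_onS])

end Pool.Agent.Lib.MP_570070_gt.An
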