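import Pool.Agent.Lib.MP_570070_gt.An.LocDat
import Pool.Agent.Lib.MP_570070_gt.An.Ball
import Pool.Agent.Lib.MP_570070_gt.An.Sym

open MeasureTheory Filter Topology Set
open scoped ContDiff InnerProductSpace

namespace Pool.Agent.Lib.MP_570070_gt.An

/-- Locality of the heat traces along the chain. -/
theorem local_grp (c : Par) {G : Type} [Group G] (g : Ed c → G) (K : ℕ → Subgroup G)
    [∀ i, (K i).Normal] (ha : Antitone K) (hi : ⨅ i, K i = ⊥) {k : ℕ} (hk : k ≤ 1)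
    (U : UpL2 (grpGl c g)) {Pt : ℝ → U.H k →L[ℝ] U.H k} (hP : IsHeat (dom U.D k) Pt)
    (hf : ∀ t, 0 < t → trOn (U.on k (base G)) (Pt t) ≠ ⊤) {I : ℝ}
    (hI : IsRegInt (fun t => (trOn (U.on k (base G)) (Pt t)).toReal) I)
    (U' : ∀ i, UpL2 (grpGl c fun e => (g e : G ⧸ K i)))
    {Pt' : ∀ i, ℝ → (U' i).H k →L[ℝ] (U' i).H k} (hP' : ∀ i, IsHeat (dom (U' i).D k) (Pt' i))
    (hf' : ∀ i t, 0 < t → trOn ((U' i).on k (base (G ⧸ K i))) (Pt' i t) ≠ ⊤) (T ε : ℝ)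
    (hε : 0 < ε) : ∀ᶠ i in atTop, ∀ t ∈ Ioc (0 : ℝ) T,
      |(trOn ((U' i).on k (base (G ⧸ K i))) (Pt' i t)).toReal -
        (trOn (U.on k (base G)) (Pt t)).toReal| ≤ ε * t := by
  classical
  obtain ⟨c₀, -, hc⟩ := exists_grad_kap c
  obtain ⟨C, N, hC⟩ := hI.poly (heat_tr_antitone (isHeat₂_of_isHeat hP) _ hf)
  obtain ⟨r₀, hr⟩ := heat_local (2 * (2 * c₀)) (2 * (Fintype.card (Ed c) + 1) ^ 8) C T ε N hε
  obtain ⟨ℓ, h1, h2, h3, h4⟩ := (grpGl c g).exists_lev {(1, true), (1, false)}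
    (2 * (r₀ + 1) + 4 + 3)
  filter_upwards [eventually_injOn K ha hi
    ((grpGl c g).ball {(1, true), (1, false)} (2 * (r₀ + 1) + 4 + 2))] with i inj
  have hb : (fun p : G × Bool => (((p.1 : G ⧸ K i), p.2) : (G ⧸ K i) × Bool)) '' base G =
      base (G ⧸ K i) := by
    ext ⟨x, b⟩
    constructor
    · rintro ⟨⟨y, b'⟩, hy, h⟩
      have h5 : y = 1 := hy
      exact (congrArg Prod.fst h).symm.trans (by simp [h5])
    · intro h
      have h5 : x = 1 := h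
      exact ⟨(1, b), rfl, by simp [h5]⟩
  obtain ⟨𝓛⟩ := exists_locData (Γ := grpGl c g) (Γ' := grpGl c fun e => (g e : G ⧸ K i)) hc
    (fun p : G × Bool => (((p.1 : G ⧸ K i), p.2) : (G ⧸ K i) × Bool))
    (fun e p => by rcases p with ⟨x, _ | _⟩ <;> simp [grpGl]) h1 h2 (r₀ + 1)
    (inj.mono fun p hp => h4 _ (by omega) p hp) (S := base G)
    (fun p hp => h3 p (by
      have h5 : p.1 = 1 := hp
      rcases p with ⟨x, _ | _⟩ <;> simp_all))
    _ (fun p hp => h4 _ (by omega) p hp) (G := 2 * (Fintype.card (Ed c) + 1) ^ 8) (by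
      have h5 := ((grpGl c g).card_ball {(1, true), (1, false)} (2 * (r₀ + 1) + 4 + 2)).trans
        (Nat.mul_le_mul Finset.card_le_two (Nat.pow_le_pow_right (Nat.succ_pos _)
          (show 2 * (r₀ + 1) + 4 + 2 ≤ 8 * (r₀ + 1) by omega)))
      have h6 := h5.trans (Nat.mul_le_mul_right _ (Nat.le_self_pow (Nat.succ_ne_zero r₀) 2))
      rw [pow_mul, ← mul_pow] at h6
      exact_mod_cast h6) hk U (U' i) (Pt := Pt) fun p t ht => tr_piece U hP p ht.le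
  rw [hb] at 𝓛
  have := hr (r₀ + 1) (Nat.le_succ _) (isHeat₂_of_isHeat hP) (isHeat₂_of_isHeat (hP' i)) 𝓛
  simp only [UpL2.coe_onS] at this
  exact this hf (hf' i) hC

end Pool.Agent.Lib.MP_570070_gt.An
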