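import Pool.Agent.Lib.MP_570070_gt.An.UOp

open MeasureTheory Filter Topology Set
open scoped ContDiff InnerProductSpace

namespace Pool.Agent.Lib.MP_570070_gt.An

variable {c : Par} {P P' : Type} {Γ : Gl c P} {Γ' : Gl c P'}

theorem loctr_mem {S : Set P} {p : P} (h : indicator S (1 : P → ℝ) p ≠ 0) : p ∈ S := by
  by_contra hp
  exact h (indicator_of_notMem hp _)

/-- A piece on which the weight does not vanish is in the set or next to it. -/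
theorem loctr_near {S : Set P} {p : P} {y : Eu 3} (hy : y ∈ DR c)
    (h : wt Γ (indicator S 1) p y ≠ 0) : p ∈ S ∨ ∃ e, ∃ q ∈ S, p = Γ.σ e q := by
  rcases wt_ne_zero h hy with h | ⟨e, h, -⟩
  · exact Or.inl (loctr_mem h)
  · exact Or.inr ⟨e, _, loctr_mem h, (Γ.invol e p).symm⟩

theorem loctr_up {ℓ : P → ℕ} (hℓ : ∀ e p, ℓ (Γ.σ e p) ≤ ℓ p + 1) (R : ℕ) {p : P} {y : Eu 3}
    (hy : y ∈ DR c) (h : wt Γ (indicator {p | ℓ p ≤ R} 1) p y ≠ 0) : ℓ p ≤ R + 1 := by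
  rcases loctr_near hy h with h | ⟨e, q, hq, rfl⟩
  · exact Nat.le_succ_of_le h
  · exact (hℓ e q).trans (Nat.succ_le_succ hq)

theorem loctr_down (π : P → P') (hπ : ∀ e p, π (Γ.σ e p) = Γ'.σ e (π p)) {ℓ : P → ℕ}
    (hℓ : ∀ e p, ℓ (Γ.σ e p) ≤ ℓ p + 1) (R : ℕ) {p' : P'} {y : Eu 3} (hy : y ∈ DR c)
    (h : wt Γ' (indicator (π '' {p | ℓ p ≤ R}) 1) p' y ≠ 0) : ∃ p, ℓ p ≤ R + 1 ∧ π p = p' := by
  rcases loctr_near hy h with ⟨q, hq, rfl⟩ | ⟨e, _, ⟨q, hq, rfl⟩, rfl⟩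
  · exact ⟨q, Nat.le_succ_of_le hq, rfl⟩
  · exact ⟨Γ.σ e q, (hℓ e q).trans (Nat.succ_le_succ hq), hπ e q⟩

theorem loctr_ind (π : P → P') {ℓ : P → ℕ} (R : ℕ) (inj : InjOn π {p | ℓ p ≤ R + 2}) {q : P}
    (hq : ℓ q ≤ R + 2) :
    indicator (π '' {p | ℓ p ≤ R}) (1 : P' → ℝ) (π q) = indicator {p | ℓ p ≤ R} (1 : P → ℝ) q := by
  by_cases h : q ∈ {p | ℓ p ≤ R}
  · rw [indicator_of_mem h, indicator_of_mem (mem_image_of_mem π h)]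
    rfl
  · rw [indicator_of_notMem h, indicator_of_notMem]
    rintro ⟨p, hp, he⟩
    have hp' : ℓ p ≤ R := hp
    have : p = q := inj (show ℓ p ≤ R + 2 by omega) hq he
    exact h (this ▸ hp)

theorem loctr_wt (π : P → P') (hπ : ∀ e p, π (Γ.σ e p) = Γ'.σ e (π p)) {ℓ : P → ℕ}
    (hℓ : ∀ e p, ℓ (Γ.σ e p) ≤ ℓ p + 1) (R : ℕ) (inj : InjOn π {p | ℓ p ≤ R + 2}) {p : P}
    (hp : ℓ p ≤ R + 1) (y : Eu 3) :
    wt Γ' (indicator (π '' {p | ℓ p ≤ R}) 1) (π p) y = wt Γ (indicator {p | ℓ p ≤ R} 1) p y := by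
  unfold wt
  rw [loctr_ind π R inj (show ℓ p ≤ R + 2 by omega)]
  congr 1
  refine Finset.sum_congr rfl fun e _ => ?_
  have := hℓ e p
  rw [← hπ, loctr_ind π R inj (show ℓ (Γ.σ e p) ≤ R + 2 by omega)]

/-- τ' has f = π and w = wt 1_A, A = {ℓ ≤ R}; τ has f = Function.invFunOn π {ℓ ≤ R + 2} and
w = wt 1_(π '' A). For ℓ q ≤ R + 2 the indicators of π '' A at π q and of A at q agree, so the two
weights agree at π p and p for ℓ p ≤ R + 1; if a weight is not zero (wt_ne_zero, Γ.invol) the piece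
has ℓ ≤ R + 1, or is the image of such a piece. -/
theorem exists_pair [Nonempty P] (π : P → P') (hπ : ∀ e p, π (Γ.σ e p) = Γ'.σ e (π p)) {ℓ : P → ℕ}
    (hℓ : ∀ e p, ℓ (Γ.σ e p) ≤ ℓ p + 1) (R : ℕ) (inj : InjOn π {p | ℓ p ≤ R + 2}) :
    ∃ (τ : Tr Γ Γ') (τ' : Tr Γ' Γ), τ.Pair τ' ∧ τ'.f = π ∧
      τ'.w = wt Γ (indicator {p | ℓ p ≤ R} 1) := by
  have hg : ∀ p, ℓ p ≤ R + 2 → Function.invFunOn π {p | ℓ p ≤ R + 2} (π p) = p :=
    fun p hp => inj.leftInvOn_invFunOn hp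
  refine ⟨⟨Function.invFunOn π {p | ℓ p ≤ R + 2}, wt Γ' (indicator (π '' {p | ℓ p ≤ R}) 1),
    isFn_wt_ind _, ?_, ?_⟩, ⟨π, wt Γ (indicator {p | ℓ p ≤ R} 1), isFn_wt_ind _, ?_, ?_⟩,
    ⟨?_, ?_⟩, rfl, rfl⟩
  · intro p' e y hy h _
    obtain ⟨p, hp, rfl⟩ := loctr_down π hπ hℓ R hy h
    have := hℓ e p
    rw [← hπ, hg p (by omega), hg _ (by omega)]
  · rintro p' q' ⟨y, hy, h⟩ ⟨z, hz, h'⟩ he
    obtain ⟨p, hp, rfl⟩ := loctr_down π hπ hℓ R hy h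
    obtain ⟨q, hq, rfl⟩ := loctr_down π hπ hℓ R hz h'
    rw [hg p (by omega), hg q (by omega)] at he
    rw [he]
  · intro p e _ _ _ _
    exact hπ e p
  · rintro p q ⟨y, hy, h⟩ ⟨z, hz, h'⟩ he
    have hp := loctr_up hℓ R hy h
    have hq := loctr_up hℓ R hz h'
    exact inj (show ℓ p ≤ R + 2 by omega) (show ℓ q ≤ R + 2 by omega) he
  · intro p' y hy h
    obtain ⟨p, hp, rfl⟩ := loctr_down π hπ hℓ R hy h
    change π (Function.invFunOn π _ (π p)) = π p ∧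
      wt Γ (indicator {p | ℓ p ≤ R} 1) (Function.invFunOn π _ (π p)) y = wt Γ' _ (π p) y
    rw [hg p (by omega)]
    exact ⟨rfl, (loctr_wt π hπ hℓ R inj hp y).symm⟩
  · intro p y hy h
    have hp := loctr_up hℓ R hy h
    exact ⟨hg p (by omega), loctr_wt π hπ hℓ R inj hp y⟩

end Pool.Agent.Lib.MP_570070_gt.An
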