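import Pool.Agent.Lib.MP_570070_gt.An.Defs

/-! Construction of the L2 spaces as completions. -/

open MeasureTheory Filter Topology Set
open scoped Manifold ContDiff InnerProductSpace

namespace Pool.Agent.Lib.MP_570070_gt.An

variable {n : ℕ} {X : RMfd n}

theorem IsTest.add {k : ℕ} {α β : Form X k} (h : IsTest α) (h' : IsTest β) : IsTest (α + β) := by
  refine ⟨fun e he => ((h.1 e he).add (h'.1 e he)).congr fun y _ => ?_, h.2.add h'.2⟩
  ext v
  rfl

theorem IsTest.smul {k : ℕ} {α : Form X k} (h : IsTest α) (t : ℝ) : IsTest (t • α) := by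
  refine ⟨fun e he => ((h.1 e he).const_smul t).congr fun y _ => ?_,
    h.2.comp_left (g := fun a => t • a) (smul_zero t)⟩
  ext v
  rfl

theorem isTest_zero {k : ℕ} : IsTest (0 : Form X k) := by
  refine ⟨fun e _ => (contDiffOn_const (c := (0 : Alt n k))).congr fun y _ => ?_,
    HasCompactSupport.zero⟩
  ext v
  rfl

theorem ipAlt_comm {k : ℕ} {A : Matrix (Fin n) (Fin n) ℝ} (hA : A.IsSymm) (α β : Alt n k) :
    ipAlt A α β = ipAlt A β α := by
  rw [ipAlt, ipAlt, Finset.sum_comm]
  refine congrArg _ (Finset.sum_congr rfl fun I _ => Finset.sum_congr rfl fun J _ => ?_)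
  rw [Finset.prod_congr rfl fun l _ => hA.inv.apply (I l) (J l)]
  ring

theorem nvl2_hilb {V : Type} [AddCommGroup V] [Module ℝ V] (b : V → V → ℝ)
    (hs : ∀ x y, b x y = b y x) (hp : ∀ x, 0 ≤ b x x) (ha : ∀ x y z, b (x + y) z = b x z + b y z)
    (hm : ∀ x y (r : ℝ), b (r • x) y = r * b x y) :
    ∃ (H : Type) (_ : NormedAddCommGroup H) (_ : InnerProductSpace ℝ H) (_ : CompleteSpace H)
      (j : V → H), (∀ x y, ⟪j x, j y⟫_ℝ = b x y) ∧ DenseRange j := by
  let c : PreInnerProductSpace.Core ℝ V :=
    { inner := b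
      conj_inner_symm := fun x y => hs y x
      re_inner_nonneg := hp
      add_left := ha
      smul_left := hm }
  let _ : SeminormedAddCommGroup V := InnerProductSpace.Core.toSeminormedAddCommGroup (c := c)
  let _ : InnerProductSpace ℝ V := InnerProductSpace.ofCore c
  exact ⟨UniformSpace.Completion V, inferInstance, inferInstance, inferInstance, (↑),
    fun x y => UniformSpace.Completion.inner_coe x y, UniformSpace.Completion.denseRange_coe⟩

theorem nvl2_add {k : ℕ} (α β γ : Form X k) (x : X.M) :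
    ipAt (α + β) γ x = ipAt α γ x + ipAt β γ x := by
  simp only [ipAt, ipAlt, Pi.add_apply, ContinuousAlternatingMap.add_apply, mul_add, add_mul,
    Finset.sum_add_distrib]

theorem nvl2_smul {k : ℕ} (α γ : Form X k) (r : ℝ) (x : X.M) :
    ipAt (r • α) γ x = r * ipAt α γ x := by
  simp only [ipAt, ipAlt, Pi.smul_apply, ContinuousAlternatingMap.smul_apply, smul_eq_mul,
    Finset.mul_sum]
  refine Finset.sum_congr rfl fun I _ => Finset.sum_congr rfl fun J _ => ?_
  ring

theorem nvl2_comm {k : ℕ} (α β : Form X k) (x : X.M) : ipAt α β x = ipAt β α x :=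
  ipAlt_comm (Matrix.IsSymm.ext fun _ _ => X.symm x _ _) _ _

/-- The test forms as a submodule. -/
def nvl2_test (X : RMfd n) (k : ℕ) : Submodule ℝ (Form X k) where
  carrier := {α | IsTest α}
  add_mem' := IsTest.add
  zero_mem' := isTest_zero
  smul_mem' := fun t _ h => IsTest.smul h t

/-- The test forms are a submodule of Form X k; put a PreInnerProductSpace.Core on a type synonym
of it (inner α β = ∫ ipAt α β), take InnerProductSpace.Core.toSeminormedAddCommGroup and
InnerProductSpace.ofCore-like structures, H k = UniformSpace.Completion, ι α = the class of α if α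
is a test form and 0 otherwise (UniformSpace.Completion.inner_coe, denseRange_coe). -/
theorem nonempty_L2 {μ : Measure X.M} (hμ : IsVolume X μ)
    (hi : ∀ k (α β : Form X k), IsTest α → IsTest β → Integrable (ipAt α β) μ)
    (hp : ∀ k (α : Form X k), IsTest α → ∀ x, 0 ≤ ipAt α α x) : Nonempty (L2 X) := by
  classical
  choose H i1 i2 i3 j hj hd using fun k => nvl2_hilb (V := nvl2_test X k)
    (fun α β => ∫ x, ipAt α.1 β.1 x ∂μ)
    (fun α β => integral_congr_ae (Eventually.of_forall (nvl2_comm _ _)))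
    (fun α => integral_nonneg (hp k _ α.2))
    (fun α β γ => by
      rw [← integral_add (hi k _ _ α.2 γ.2) (hi k _ _ β.2 γ.2)]
      exact integral_congr_ae (Eventually.of_forall (nvl2_add _ _ _)))
    (fun α β r => by
      rw [← integral_const_mul]
      exact integral_congr_ae (Eventually.of_forall (nvl2_smul _ _ r)))
  refine ⟨⟨μ, hμ, H, fun k α => if h : IsTest α then j k ⟨α, h⟩ else 0, fun k α β hα hβ => ?_,
    fun k => Dense.mono ?_ (hd k)⟩⟩
  · rw [dif_pos hα, dif_pos hβ, hj]
  · rintro _ ⟨α, rfl⟩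
    exact ⟨α.1, α.2, dif_pos α.2⟩

end Pool.Agent.Lib.MP_570070_gt.An
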