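import Pool.Agent.Lib.MP_570070_gt.An.Defs

/-! Every Riemannian manifold has a volume measure. -/

open MeasureTheory Filter Topology Set
open scoped Manifold ContDiff

namespace Pool.Agent.Lib.MP_570070_gt.An

variable {n : ℕ} {X : RMfd n}

/-- The density of the volume in the chart e. -/
noncomputable def dens (X : RMfd n) (e : OpenPartialHomeomorph X.M (Eu n)) (y : Eu n) : ℝ :=
  Real.sqrt (Matrix.det (Matrix.of fun i j => X.g (e.symm y) (tang e y (bas i)) (tang e y (bas j))))

/-- Chain rule: near y, e.symm = e'.symm ∘ (e' ∘ e.symm); mfderiv_comp, mfderiv_eq_fderiv,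
mdifferentiableAt_atlas, mdifferentiableAt_atlas_symm. -/
theorem tang_trans {e e' : OpenPartialHomeomorph X.M (Eu n)} (he : e ∈ atlas (Eu n) X.M)
    (he' : e' ∈ atlas (Eu n) X.M) {y : Eu n} (hy : y ∈ e.target) (hy' : e.symm y ∈ e'.source) :
    DifferentiableAt ℝ (e' ∘ e.symm) y ∧
      tang e y = (tang e' (e' (e.symm y))).comp (fderiv ℝ (e' ∘ e.symm) y) := by
  have h1 := mdifferentiableAt_atlas_symm (I := 𝓘(ℝ, Eu n)) he hy
  have h2 := mdifferentiableAt_atlas (I := 𝓘(ℝ, Eu n)) he' hy'
  have h3 := h2.comp y h1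
  have h4 := mdifferentiableAt_atlas_symm (I := 𝓘(ℝ, Eu n)) he' (e'.map_source hy')
  have h5 : e.symm =ᶠ[𝓝 y] e'.symm ∘ (e' ∘ e.symm) := by
    filter_upwards [(e.continuousAt_symm hy).preimage_mem_nhds (e'.open_source.mem_nhds hy')]
      with z hz
    exact (e'.left_inv hz).symm
  refine ⟨mdifferentiableAt_iff_differentiableAt.1 h3, ?_⟩
  have h6 := mfderiv_comp y (g := e'.symm) (f := e' ∘ e.symm) h4 h3
  rw [mfderiv_eq_fderiv] at h6
  exact h5.mfderiv_eq.trans h6

theorem nvvol_gram (g : Eu n →L[ℝ] Eu n →L[ℝ] ℝ) (T L : Eu n →L[ℝ] Eu n) :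
    (Matrix.of fun i j => g (T (L (bas i))) (T (L (bas j)))).det =
      L.det ^ 2 * (Matrix.of fun i j => g (T (bas i)) (T (bas j))).det := by
  have h1 : ∀ v : Eu n, v = ∑ k, v k • bas k := fun v => by
    funext l
    simp [bas, Pi.single_apply]
  set J := LinearMap.toMatrix' (L : Eu n →ₗ[ℝ] Eu n) with hJ
  have h2 : ∀ i, L (bas i) = ∑ k, J k i • bas k := fun i => (h1 _).trans (by simp [hJ, bas])
  have h3 : (Matrix.of fun i j => g (T (L (bas i))) (T (L (bas j)))) =
      J.transpose * (Matrix.of fun i j => g (T (bas i)) (T (bas j))) * J := by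
    ext i j
    simp only [Matrix.of_apply, Matrix.mul_apply, Matrix.transpose_apply, h2, map_sum, map_smul,
      sum_apply, smul_apply, smul_eq_mul]
    exact Finset.sum_congr rfl fun k _ => mul_comm _ _
  rw [h3, Matrix.det_mul, Matrix.det_mul, Matrix.det_transpose, hJ, LinearMap.det_toMatrix',
    ContinuousLinearMap.det]
  ring

/-- The Gram matrix is Jᵀ * G' * J with J = LinearMap.toMatrix' of the derivative. -/
theorem dens_trans {e e' : OpenPartialHomeomorph X.M (Eu n)} (he : e ∈ atlas (Eu n) X.M)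
    (he' : e' ∈ atlas (Eu n) X.M) {y : Eu n} (hy : y ∈ e.target) (hy' : e.symm y ∈ e'.source) :
    dens X e y = |(fderiv ℝ (e' ∘ e.symm) y).det| * dens X e' (e' (e.symm y)) := by
  rw [dens, dens, (tang_trans he he' hy hy').2, e'.left_inv hy', ← Real.sqrt_sq_eq_abs,
    ← Real.sqrt_mul (sq_nonneg _), ← nvvol_gram]
  rfl

theorem nvvol_meas (e : OpenPartialHomeomorph X.M (Eu n)) {A : Set X.M} (hA : MeasurableSet A)
    (h : A ⊆ e.source) : MeasurableSet (e '' A) := by
  have h1 : Measurable (e.target.domRestrict e.symm) := e.continuousOn_symm.domRestrict.measurable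
  have h2 := e.open_target.measurableSet.subtype_image (h1 hA)
  rw [e.image_eq_target_inter_inv_preimage h]
  rwa [← Subtype.image_preimage_coe]

/-- lintegral_image_eq_lintegral_abs_det_fderiv_mul for e' ∘ e.symm on e '' A. -/
theorem lintegral_dens {e e' : OpenPartialHomeomorph X.M (Eu n)} (he : e ∈ atlas (Eu n) X.M)
    (he' : e' ∈ atlas (Eu n) X.M) {A : Set X.M} (hA : MeasurableSet A) (h : A ⊆ e.source)
    (h' : A ⊆ e'.source) : ∫⁻ y in e '' A, ENNReal.ofReal (dens X e y) =
      ∫⁻ y in e' '' A, ENNReal.ofReal (dens X e' y) := by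
  have h1 : (e' ∘ e.symm) '' (e '' A) = e' '' A := by
    rw [image_image]
    exact image_congr fun x hx => congrArg e' (e.left_inv (h hx))
  have h2 : ∀ y ∈ e '' A, y ∈ e.target ∧ e.symm y ∈ e'.source := by
    rintro _ ⟨x, hx, rfl⟩
    exact ⟨e.map_source (h hx), by rw [e.left_inv (h hx)]; exact h' hx⟩
  rw [← h1, lintegral_image_eq_lintegral_abs_det_fderiv_mul volume (nvvol_meas e hA h)
    (fun y hy => (tang_trans he he' (h2 y hy).1 (h2 y hy).2).1.hasFDerivAt.hasFDerivWithinAt)
    fun y hy z hz hyz => e.symm.injOn (h2 y hy).1 (h2 z hz).1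
      (e'.injOn (h2 y hy).2 (h2 z hz).2 hyz)]
  refine setLIntegral_congr_fun (nvvol_meas e hA h) fun y hy => ?_
  rw [dens_trans he he' (h2 y hy).1 (h2 y hy).2, ENNReal.ofReal_mul (abs_nonneg _)]
  rfl

theorem nvvol_chart (e : OpenPartialHomeomorph X.M (Eu n)) (f : Eu n → ENNReal) :
    ∃ μ : Measure X.M, ∀ A, MeasurableSet A → A ⊆ e.source → μ A = ∫⁻ y in e '' A, f y := by
  have ht := e.open_target.measurableSet
  refine ⟨((volume.restrict e.target).withDensity f).map e.symm, fun A hA h => ?_⟩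
  rw [Measure.map_apply_of_aemeasurable
    ((e.continuousOn_symm.aemeasurable ht).mono_ac (withDensity_absolutelyContinuous _ _)) hA,
    withDensity_apply', Measure.restrict_restrict' ht, e.image_eq_target_inter_inv_preimage h,
    inter_comm]

/-- Cover the space by countably many chart sources (countable_cover_nhds, or
exists_countable_union_of..., the empty space is trivial), make them disjoint (disjointed), and
take the sum of the measures `A ↦ ∫⁻ y in e m '' (A ∩ B m), ofReal (dens X (e m) y)`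
(Measure.map e.symm of a restricted withDensity, or Measure.comap). For A in the source of e use
lintegral_dens on each A ∩ B m and lintegral_iUnion. -/
theorem exists_isVolume (X : RMfd n) : ∃ μ, IsVolume X μ := by
  rcases isEmpty_or_nonempty X.M with h0 | ⟨⟨x₀⟩⟩
  · exact ⟨0, fun e _ A _ _ => by simp [eq_empty_of_isEmpty A]⟩
  obtain ⟨s, hs, hc⟩ := TopologicalSpace.countable_cover_nhds
    fun x : X.M => chart_source_mem_nhds (Eu n) x
  obtain ⟨u, hu⟩ := (hs.insert x₀).exists_eq_range (insert_nonempty _ _)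
  set U : ℕ → Set X.M := fun m => (chartAt (Eu n) (u m)).source with hU
  have h1 : ⋃ m, disjointed U m = univ := by
    rw [iUnion_disjointed, eq_univ_iff_forall]
    intro x
    obtain ⟨z, hz, hx⟩ := mem_iUnion₂.1 (hc.ge (mem_univ x))
    obtain ⟨m, rfl⟩ := hu.le (mem_insert_of_mem _ hz)
    exact mem_iUnion.2 ⟨m, hx⟩
  have h2 : ∀ m, MeasurableSet (disjointed U m) :=
    MeasurableSet.disjointed fun m => (chartAt (Eu n) (u m)).open_source.measurableSet
  choose ν hν using fun m => nvvol_chart (chartAt (Eu n) (u m))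
    fun y => ENNReal.ofReal (dens X (chartAt (Eu n) (u m)) y)
  refine ⟨Measure.sum fun m => (ν m).restrict (disjointed U m), fun e he A hA h => ?_⟩
  have h3 : ∀ m, A ∩ disjointed U m ⊆ e.source := fun m => inter_subset_left.trans h
  have h4 : e '' A = ⋃ m, e '' (A ∩ disjointed U m) := by
    rw [← image_iUnion, ← inter_iUnion, h1, inter_univ]
  rw [Measure.sum_apply _ hA, h4, lintegral_iUnion (fun m => nvvol_meas e (hA.inter (h2 m)) (h3 m))
    fun i j hij => ((disjoint_disjointed U hij).mono inter_subset_right inter_subset_right).image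
      e.injOn (h3 i) (h3 j)]
  refine tsum_congr fun m => ?_
  have h5 : A ∩ disjointed U m ⊆ (chartAt (Eu n) (u m)).source :=
    inter_subset_right.trans (disjointed_subset U m)
  rw [Measure.restrict_apply hA, hν m _ (hA.inter (h2 m)) h5]
  exact lintegral_dens (chart_mem_atlas _ _) he (hA.inter (h2 m)) h5 (h3 m)

end Pool.Agent.Lib.MP_570070_gt.An
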