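import Pool.Agent.Lib.MP_570070_gt.An.NvWeak
import Pool.Agent.Lib.MP_570070_gt.An.NvL2
import Pool.Agent.Lib.MP_570070_gt.An.NvVol
import Pool.Agent.Lib.MP_570070_gt.An.Star
import Pool.Agent.Lib.MP_570070_gt.An.CMain

/-! The L2 spaces and the heat semigroups exist on the manifolds of the example. -/

open MeasureTheory Filter Topology Set
open scoped ContDiff InnerProductSpace

namespace Pool.Agent.Lib.MP_570070_gt.An

variable {c : Par} {P : Type} {Γ : Gl c P}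

theorem alt_high_eq_zero {k : ℕ} (α : Alt 3 (k + 4)) : α = 0 := by
  ext v
  refine α.toAlternatingMap.map_linearDependent v fun h => ?_
  have := h.fintype_card_le_finrank
  simp at this

theorem UpL2.high_eq_zero (U : UpL2 Γ) (k : ℕ) (z : U.H (k + 4)) : z = 0 :=
  U.ind (q := fun z => z = 0) (isClosed_eq continuous_id continuous_const) (fun A _ => by
    have h : A = 0 := funext fun p => funext fun y => alt_high_eq_zero _
    rw [h, U.j_zero]) z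

theorem UpL2.exists_heat (U : UpL2 Γ) (k : ℕ) : ∃ Pt, IsHeat (dom U.D k) Pt := by
  obtain ⟨V₀, h₀⟩ := U.exists_st0
  obtain ⟨V₁, h₁⟩ := U.exists_st1
  have e₀ : ∀ Θ, IsT Γ Θ → V₀ (U.j 0 fun p y => st3 c y (Θ p y)) = U.j 3 Θ := fun Θ h =>
    (h₀ _ h.st3).trans (U.j_congr h fun p y hy => st0_st3 hy _)
  have e₁ : ∀ Θ, IsT Γ Θ → V₁ (U.j 1 fun p y => st2 c y (Θ p y)) = U.j 2 Θ := fun Θ h =>
    (h₁ _ h.st2).trans (U.j_congr h fun p y hy => st1_st2 hy _)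
  refine exists_heat_of_star (D := U.D) V₀ V₁ U.dense_test U.high_eq_zero
    (fun a => ⟨?_, ?_⟩) (fun a => ⟨?_, ?_⟩) ?_ ?_ k
  · rintro ⟨_, Ω, h, rfl, -⟩
    exact ⟨_, _, h.st0, h₀ Ω h, rfl⟩
  · rintro ⟨_, Θ, h, e, -⟩
    exact ⟨_, _, h.st3, V₀.injective (e.trans (e₀ Θ h).symm), rfl⟩
  · rintro ⟨_, Ω, h, rfl, -⟩
    exact ⟨_, _, h.st1, h₁ Ω h, rfl⟩
  · rintro ⟨_, Θ, h, e, -⟩
    exact ⟨_, _, h.st2, V₁.injective (e.trans (e₁ Θ h).symm), rfl⟩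
  · rintro _ _ _ _ ⟨Ω, h, rfl, rfl⟩ ⟨Ω', h', rfl, rfl⟩
    rw [h₁ Ω h, h₁ Ω' h']
    exact U.stokes1 h h'
  · rintro _ _ β _ ⟨Ω, h, rfl, rfl⟩ ⟨Ω', h', e, rfl⟩
    rw [V₁.injective (e.trans (e₁ Ω' h').symm), h₀ Ω h]
    exact U.stokes0 h h'

theorem exists_heat_mfd (Γ : Gl c P) [Nonempty P] [Countable P] :
    ∃ (L : L2 (mfd Γ)) (Pt : ∀ k, ℝ → L.H k →L[ℝ] L.H k), ∀ k, IsHeat (dom L.D k) (Pt k) := by
  obtain ⟨μ, hμ⟩ := exists_isVolume (mfd Γ)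
  have := (volN_of_isVolume hμ).locallyFinite
  obtain ⟨L⟩ := nonempty_L2 hμ (fun k α β h h' => by
    rw [← down_up (Γ := Γ) α, ← down_up (Γ := Γ) β]
    exact (continuous_ipAt_down (isT_up h) (isT_up h')).integrable_of_hasCompactSupport
      ((hasCompactSupport_down (isT_up h)).mono fun _ => ne_of_ipAt_down)) (fun k α h x => by
    obtain ⟨p, y, hy, rfl⟩ := Etale.exists_rep (S := et Γ) x
    rw [← down_up (Γ := Γ) α, ipAt_down (isT_up h) (isT_up h) p hy]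
    exact ipUp_self_nonneg _)
  choose Pt hP using (upL2 L).exists_heat
  refine ⟨L, Pt, fun k => ?_⟩
  rw [← upL2_D]
  exact hP k

end Pool.Agent.Lib.MP_570070_gt.An
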