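import Pool.Agent.Lib.MP_570070_gt.Main
import Pool.Agent.Lib.MP_570070_gt.Free

open Filter Topology Set Matrix Pool.Agent.Lib.MP_75c153_gt

namespace Pool.Agent.Lib.MP_570070_gt.An

theorem specb_coeff {G : Type} [Group G] {N N' : Subgroup G} [N.Normal] [N'.Normal] (h : N = N')
    (u : MonoidAlgebra ℤ G) : (MonoidAlgebra.mapDomain (QuotientGroup.mk' N) u).coeff 1 =
      (MonoidAlgebra.mapDomain (QuotientGroup.mk' N') u).coeff 1 := by
  subst h
  rfl

theorem specb_transfer {G H Q : Type} [Group G] [Group H] [Fintype H] [DecidableEq H] [Group Q]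
    [Fintype Q] [DecidableEq Q] (π : G →* H) (π' : G →* Q) (hk : π'.ker = π.ker)
    (a : MonoidAlgebra ℤ G)
    (hM : (rep ((reg H).comp π) a * (rep ((reg H).comp π) a)ᵀ).IsHermitian)
    (hM' : (rep ((reg Q).comp π') a * (rep ((reg Q).comp π') a)ᵀ).IsHermitian)
    (g : ℝ → ℝ) (hg : g 0 = 0) : (Fintype.card H : ℝ) * ((eigs hM').map g).sum =
      Fintype.card Q * ((eigs hM).map g).sum := by
  obtain ⟨_, -, -, h1⟩ := exists_eigs π a
  obtain ⟨_, -, -, h2⟩ := exists_eigs π' a
  have hH : (Fintype.card H : ℝ) ≠ 0 := by exact_mod_cast Fintype.card_ne_zero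
  have hQ : (Fintype.card Q : ℝ) ≠ 0 := by exact_mod_cast Fintype.card_ne_zero
  have h3 := multiset_sum_eq_of_powers (Fintype.card H • eigs hM') (Fintype.card Q • eigs hM)
    (fun k => by
      rw [Multiset.map_nsmul, Multiset.map_nsmul, Multiset.sum_nsmul, Multiset.sum_nsmul,
        nsmul_eq_mul, nsmul_eq_mul]
      have h4 := h2 (k + 1)
      rw [specb_coeff hk, ← h1] at h4
      field_simp at h4
      linear_combination h4) g hg
  rwa [Multiset.map_nsmul, Multiset.map_nsmul, Multiset.sum_nsmul, Multiset.sum_nsmul,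
    nsmul_eq_mul, nsmul_eq_mul] at h3

theorem specb_pt {T s : ℝ} (hT : 1 ≤ T) (hs : 0 ≤ s) : Real.log (max s T⁻¹) ≤
    Real.log s + if 0 < s then max 0 (-Real.log (T * s)) else 0 := by
  have hT0 : 0 < T := by linarith
  have hl : 0 ≤ Real.log T := Real.log_nonneg hT
  rcases hs.eq_or_lt with rfl | hs
  · rw [max_eq_right (by positivity), Real.log_inv]
    simpa using hl
  · rw [if_pos hs, Real.log_mul hT0.ne' hs.ne']
    rcases le_total s T⁻¹ with h | h
    · rw [max_eq_right h, Real.log_inv]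
      linarith [le_max_right 0 (-(Real.log T + Real.log s))]
    · rw [max_eq_left h]
      linarith [le_max_left 0 (-(Real.log T + Real.log s))]

open MeasureTheory in
theorem specb_main {G : Type} [Group G] {x : G} {ys : Fin 3 → G} (S : ℕ → Stage x ys)
    (hanti : Antitone fun n => (S n).π.ker) (hinf : ⨅ n, (S n).π.ker = ⊥)
    (h : ∀ z, 4 * ip z z ≤ ip (toR (bar (elt x ys)) * z) (toR (bar (elt x ys)) * z)) {δ : ℝ}
    (h0 : ∀ n, (S n).tot < (1 + δ) * (Fintype.card (S n).ι : ℝ) ^ 2)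
    (hc : l1 (elt x ys * bar (elt x ys) * (elt x ys * bar (elt x ys)) -
      elt x ys * bar (elt x ys)) * δ ≤ 1 / 5) (T : ℝ) (hT : 1 ≤ T) :
    ∀ᶠ i in atTop, ∀ [Fintype (G ⧸ (S i).π.ker)] [DecidableEq (G ⧸ (S i).π.ker)]
      (hM : (rep ((reg (G ⧸ (S i).π.ker)).comp (QuotientGroup.mk' (S i).π.ker)) (elt x ys) *
        (rep ((reg (G ⧸ (S i).π.ker)).comp (QuotientGroup.mk' (S i).π.ker))
          (elt x ys))ᵀ).IsHermitian),
      (Fintype.card (G ⧸ (S i).π.ker) : ℝ) ≤
        ∑ j, if 0 < hM.eigenvalues j then max 0 (-Real.log (T * hM.eigenvalues j)) else 0 := by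
  classical
  let : ∀ n, Fintype (S n).H := fun n => Fintype.ofFinite _
  choose hM h1 _ h3 using fun n => exists_eigs (S n).π (elt x ys)
  have hF : Fam (fun k => (((elt x ys * bar (elt x ys)) ^ k).coeff 1 : ℝ))
      (l1 (elt x ys * bar (elt x ys))) (fun n => 1 / (Fintype.card (S n).H : ℝ))
      (fun n => eigs (hM n)) :=
    ⟨fun n => by positivity, h1, fun k => by
      filter_upwards [eventually_coeff_eq (fun n => (S n).π.ker) hanti hinf
        ((elt x ys * bar (elt x ys)) ^ k)] with n hn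
      rw [h3, hn]⟩
  obtain ⟨μ, hfin, hsupp, hm⟩ := hF.exists_measure
  have hprob : IsProbabilityMeasure μ :=
    isProb_of_moment (by rw [hm]; simp [MonoidAlgebra.one_def])
  have hR : μ (Set.Icc (-|l1 (elt x ys * bar (elt x ys))|) |l1 (elt x ys * bar (elt x ys))|)ᶜ = 0 :=
    measure_mono_null (Set.compl_subset_compl.2 (Set.Icc_subset_Icc (by simp) le_rfl)) hsupp
  have h4 : ∀ᵐ s ∂μ, 4 ≤ s := by
    filter_upwards [measure_eq_zero_iff_ae_notMem.1 (null_Iio h hR hm)] with s hs
    exact not_lt.1 hs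
  have hT0 : 0 < T⁻¹ := inv_pos.2 (by linarith)
  have hf : Continuous fun s : ℝ => Real.log (max s T⁻¹) :=
    Continuous.log (by fun_prop) fun s => (lt_of_lt_of_le hT0 (le_max_right s _)).ne'
  have h5 := integral_mono_ae (integrable_const (Real.log 4)) (integrable_of_cpt hR hf) (by
    filter_upwards [h4] with s hs
    exact Real.log_le_log (by norm_num) (hs.trans (le_max_left _ _)))
  simp only [integral_const, probReal_univ, smul_eq_mul, one_mul] at h5
  have h6 : Real.log 4 = 2 * Real.log 2 := by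
    rw [show (4 : ℝ) = 2 ^ 2 by norm_num, Real.log_pow]
    norm_num
  have h7 : (6 / 5 : ℝ) < ∫ s, Real.log (max s T⁻¹) ∂μ := by linarith [Real.log_two_gt_d9]
  filter_upwards [(hF.tendsto μ hR hm _ hf).eventually (lt_mem_nhds h7)] with n hn _ _ hM'
  have hH : (0 : ℝ) < Fintype.card (S n).H := by exact_mod_cast Fintype.card_pos
  have h8 := (S n).sum_log_le (h0 n) (hM n)
  rw [← mul_assoc] at h8
  have h9 := h8.trans (mul_le_mul_of_nonneg_right hc hH.le)
  have h10 := Multiset.sum_map_le_sum_map (s := eigs (hM n)) _ _ fun s hs => specb_pt hT (h1 n s hs).1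
  rw [Multiset.sum_map_add] at h10
  rw [one_div, ← div_eq_inv_mul, lt_div_iff₀ hH] at hn
  have h11 := specb_transfer (S n).π (QuotientGroup.mk' (S n).π.ker) (QuotientGroup.ker_mk' _) _
    (hM n) hM' (fun s => if 0 < s then max 0 (-Real.log (T * s)) else 0) (by simp)
  rw [eigs_sum hM'] at h11
  refine le_of_mul_le_mul_left ?_ hH
  rw [h11, mul_comm]
  exact mul_le_mul_of_nonneg_left (by linarith) (Nat.cast_nonneg _)

/-- The trivial HNN extension of the infinite cyclic group is free of rank two. -/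
theorem specb_free (φ : (⊥ : Subgroup (Multiplicative ℤ)) ≃* (⊥ : Subgroup (Multiplicative ℤ))) :
    Nonempty (HNNExtension (Multiplicative ℤ) ⊥ ⊥ φ ≃* FreeGroup (Fin 2)) := by
  refine ⟨MonoidHom.toMulEquiv
    (HNNExtension.lift (zpowersHom _ (FreeGroup.of 1)) (FreeGroup.of 0) fun a => ?_)
    (FreeGroup.lift ![HNNExtension.t, HNNExtension.of (.ofAdd 1)]) ?_ ?_⟩
  · rw [Subsingleton.elim a 1, map_one]
    simp
  · refine HNNExtension.hom_ext (MonoidHom.ext_mint ?_) ?_ <;> simp
  · ext i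
    fin_cases i <;> simp

/-- See the proof of Old/DetApproxFails.lean and of exists_logDet in Main.lean.
G = HNNExtension (Multiplicative ℤ) ⊥ ⊥ φ, x = t, y = of (ofAdd 1), r = 1, K n the kernel of the
stage n of exists_chain with β = 1 + δ so small that Stage.sum_log_le gives a normalised sum of
logarithms at most 1 / 5. Transfer this bound from the group of the stage to G ⧸ K n: by
exists_eigs both normalised power sums are the same coefficient (QuotientGroup.ker_mk'), so
multiset_sum_eq_of_powers applies to card Q • eigs and card H • eigs. Fam.tendsto with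
f s = log (max s T⁻¹), the limit measure lives on [4, ∞) (null_Iio, gap), log 4 > 1.3;
for s > 0 one has f s - log s = max 0 (-log (T s)), and f 0 ≤ 0 = log 0. -/
theorem exists_small_eigs : ∃ (G : Type) (_ : Group G) (_ : Countable G) (x y : G)
    (K : ℕ → Subgroup G) (_ : ∀ i, (K i).Normal), Antitone K ∧ ⨅ i, K i = ⊥ ∧
    (∀ i, (K i).FiniteIndex) ∧ Nonempty (G ≃* FreeGroup (Fin 2)) ∧ Infinite G ∧
    Subgroup.closure {x, y} = ⊤ ∧
    ∀ T : ℝ, 1 ≤ T → ∀ᶠ i in atTop, ∀ [Fintype (G ⧸ K i)] [DecidableEq (G ⧸ K i)]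
      (hM : (rep ((reg (G ⧸ K i)).comp (QuotientGroup.mk' (K i)))
          (elt x fun j => x ^ (j : ℕ) * y * (x ^ (j : ℕ))⁻¹) *
        (rep ((reg (G ⧸ K i)).comp (QuotientGroup.mk' (K i)))
          (elt x fun j => x ^ (j : ℕ) * y * (x ^ (j : ℕ))⁻¹))ᵀ).IsHermitian),
      (Fintype.card (G ⧸ K i) : ℝ) ≤
        ∑ j, if 0 < hM.eigenvalues j then max 0 (-Real.log (T * hM.eigenvalues j)) else 0 := by
  let φ : (⊥ : Subgroup (Multiplicative ℤ)) ≃* (⊥ : Subgroup (Multiplicative ℤ)) := MulEquiv.refl _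
  have := int_residuallyFinite
  have := free_residuallyFinite φ
  have := hnn_countable φ
  have hy : Multiplicative.ofAdd (1 : ℤ) ∉ (⊥ : Subgroup (Multiplicative ℤ)) := by
    rw [Subgroup.mem_bot]
    decide
  obtain ⟨Y, hY, hd⟩ := exists_pong φ hy hy
  obtain ⟨c, hc⟩ : ∃ c, c = l1 (elt HNNExtension.t (cj φ (.ofAdd 1)) *
      bar (elt HNNExtension.t (cj φ (.ofAdd 1))) * (elt HNNExtension.t (cj φ (.ofAdd 1)) *
        bar (elt HNNExtension.t (cj φ (.ofAdd 1)))) - elt HNNExtension.t (cj φ (.ofAdd 1)) *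
          bar (elt HNNExtension.t (cj φ (.ofAdd 1)))) := ⟨_, rfl⟩
  have hc0 : 0 ≤ c := hc ▸ l1_nonneg _
  have hδ : 0 < 1 / (5 * (c + 1)) := by positivity
  obtain ⟨S, h0, -, h2, h3⟩ := exists_chain (φ := φ) 1
    (fun b hb => by rw [Subgroup.mem_bot.1 (hb.elim id id), map_one, map_one])
    (y := .ofAdd 1) rfl (β := 1 + 1 / (5 * (c + 1))) (by linarith)
  refine ⟨HNNExtension (Multiplicative ℤ) ⊥ ⊥ φ, inferInstance, inferInstance, HNNExtension.t,
    HNNExtension.of (.ofAdd 1), fun n => (S n).π.ker, inferInstance, h2, h3,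
    fun n => inferInstance, specb_free φ, Infinite.of_injective _ (HNNExtension.of_injective φ),
    eq_top_iff.2 fun g _ => ?_, specb_main S h2 h3 (gap Y hY hd) h0 ?_⟩
  · induction g using HNNExtension.induction_on with
    | of b =>
      have hb : b = Multiplicative.ofAdd (1 : ℤ) ^ b.toAdd := by
        rw [← ofAdd_zsmul]
        simp
      rw [hb, map_zpow]
      exact zpow_mem (Subgroup.subset_closure (by simp)) _
    | t => exact Subgroup.subset_closure (by simp)
    | mul a b ha hb => exact mul_mem (ha trivial) (hb trivial)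
    | inv a ha => exact inv_mem (ha trivial)
  · rw [← hc, mul_one_div, div_le_div_iff₀ (by positivity) (by norm_num)]
    linarith

end Pool.Agent.Lib.MP_570070_gt.An
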