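import Pool.Agent.Lib.MP_570070_gt.An.SpecA
import Pool.Agent.Lib.MP_570070_gt.An.SpecB

open Filter Topology Set Matrix Pool.Agent.Lib.MP_75c153_gt

namespace Pool.Agent.Lib.MP_570070_gt.An

/-- m = 107, Fin 108 ≃ Fin 18 × Fin 3 × Bool (Fintype.equivFinOfCardEq): the labels are 1 for the
outer circle (ε = -1), x with ε = 1, and x * ys j with ε = -1. -/
theorem exists_labels {G : Type} [Group G] (x : G) (ys : Fin 3 → G) :
    ∃ (c : Par) (g : Ed c → G), g none = 1 ∧ x ∈ range g ∧ (∀ j, x * ys j ∈ range g) ∧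
      ∀ {n : Type} [Fintype n] [DecidableEq n] (ρ : G →* Matrix n n ℝ),
        rep ρ (elt x ys) = ∑ e, (sg e * c.ε e) • ρ (g e) := by
  let E : Fin (107 + 1) ≃ Fin 18 × Fin 3 × Bool := (Fintype.equivFinOfCardEq (by simp)).symm
  let s : Fin 18 × Fin 3 × Bool → ℝ := fun p => if p.2.2 then 1 else -1
  let t : Fin 18 × Fin 3 × Bool → G := fun p => if p.2.2 then x else x * ys p.2.1
  refine ⟨⟨107, fun e => e.elim (-1) fun j => s (E j), ?_⟩, fun e => e.elim 1 fun j => t (E j),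
    rfl, ⟨some (E.symm (0, 0, true)), ?_⟩, fun j => ⟨some (E.symm (0, j, false)), ?_⟩, ?_⟩
  · rintro (_ | j)
    · exact Or.inr rfl
    · change s (E j) = 1 ∨ s (E j) = -1
      rcases h : (E j).2.2 <;> simp [s, h]
  · change t (E (E.symm _)) = x
    rw [Equiv.apply_symm_apply]
    rfl
  · change t (E (E.symm _)) = _
    rw [Equiv.apply_symm_apply]
    rfl
  · intro n _ _ ρ
    rw [Fintype.sum_option]
    change _ = ((-1 : ℝ) * -1) • ρ 1 + ∑ j, ((1 : ℝ) * s (E j)) • ρ (t (E j))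
    rw [E.sum_comp fun p => ((1 : ℝ) * s p) • ρ (t p), Fintype.sum_prod_type]
    simp only [Fintype.sum_prod_type, Fintype.sum_bool, s, t, elt, map_add, map_one, map_mul,
      map_sum, map_sub, map_ofNat, rep_single, Finset.sum_const, Finset.card_univ,
      Fintype.card_fin, Finset.mul_sum, one_smul, one_mul, if_true, Bool.false_eq_true, if_false,
      neg_mul_neg, neg_smul, Finset.smul_sum, mul_sub, mul_one, nsmul_eq_mul, Nat.cast_ofNat,
      ← sub_eq_add_neg]

/-- A residual chain of finite index subgroups of an infinite group has unbounded index. -/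
theorem tendsto_card_quot {G : Type} [Group G] [Infinite G] (K : ℕ → Subgroup G)
    (ha : Antitone K) (hi : ⨅ i, K i = ⊥) (hf : ∀ i, (K i).FiniteIndex) (d : ℝ) :
    ∀ᶠ i in atTop, d ≤ Nat.card (G ⧸ K i) := by
  obtain ⟨S, hS⟩ := Infinite.exists_subset_card_eq G ⌈d⌉₊
  have h1 : ∀ a b : G, a ≠ b → ∀ᶠ i in atTop, a⁻¹ * b ∉ K i := by
    intro a b hab
    have h2 : ¬ ∀ i, a⁻¹ * b ∈ K i := fun h => hab (by
      have h3 := Subgroup.mem_iInf.2 h
      rw [hi, Subgroup.mem_bot, inv_mul_eq_one] at h3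
      exact h3)
    obtain ⟨i, h3⟩ := not_forall.1 h2
    filter_upwards [eventually_ge_atTop i] with j hj h4
    exact h3 (ha hj h4)
  have h2 : ∀ᶠ i in atTop, ∀ a ∈ S, ∀ b ∈ S, a ≠ b → a⁻¹ * b ∉ K i := by
    refine (eventually_all_finset S).2 fun a _ => (eventually_all_finset S).2 fun b _ => ?_
    by_cases hab : a = b
    · exact Eventually.of_forall fun i h => absurd hab h
    · exact (h1 a b hab).mono fun i h _ => h
  filter_upwards [h2] with i h3
  have := hf i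
  have h4 : Function.Injective fun a : S => ((a : G) : G ⧸ K i) := fun a b hab => by
    by_contra h5
    exact h3 a a.2 b b.2 (fun h6 => h5 (Subtype.ext h6)) (QuotientGroup.eq.1 hab)
  have h5 := Nat.card_le_card_of_injective _ h4
  rw [Nat.card_eq_fintype_card, Fintype.card_coe, hS] at h5
  exact (Nat.le_ceil d).trans (by exact_mod_cast h5)

theorem exists_spec : ∃ (c : Par) (G : Type) (_ : Group G) (_ : Countable G) (g : Ed c → G)
    (K : ℕ → Subgroup G) (_ : ∀ i, (K i).Normal) (_ : ∀ i, Fintype (G ⧸ K i))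
    (x : ∀ i, G ⧸ K i → ℝ), Antitone K ∧ ⨅ i, K i = ⊥ ∧ (∀ i, (K i).FiniteIndex) ∧
    Nonempty (G ≃* FreeGroup (Fin 2)) ∧ g none = 1 ∧ Subgroup.closure (range g) = ⊤ ∧
    (∀ d : ℝ, ∀ᶠ i in atTop, d ≤ Fintype.card (G ⧸ K i)) ∧
    (∀ i (s : ℝ), ∃ W : Submodule ℝ ((G ⧸ K i) × Bool → ℝ),
      Module.finrank ℝ W = (Finset.univ.filter fun j => 0 < x i j ∧ x i j ≤ s).card ∧
      ∀ v ∈ W, ∑ p, ahat (grpGl c fun e => (g e : G ⧸ K i)) v p ^ 2 ≤ s * ∑ p, v p ^ 2 ∧
        ∃ u, ahat (grpGl c fun e => (g e : G ⧸ K i)) u = v) ∧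
    ∀ T : ℝ, 1 ≤ T → ∀ᶠ i in atTop, (Fintype.card (G ⧸ K i) : ℝ) ≤
      ∑ j, if 0 < x i j then max 0 (-Real.log (T * x i j)) else 0 := by
  classical
  obtain ⟨G, iG, iC, x, y, K, iN, ha, hi, hf, hfr, iI, hcl, hT⟩ := exists_small_eigs
  obtain ⟨c, g, h1, hx, hy, hr⟩ :=
    exists_labels x fun j : Fin 3 => x ^ (j : ℕ) * y * (x ^ (j : ℕ))⁻¹
  let iF : ∀ i, Fintype (G ⧸ K i) := fun i =>
    have := hf i
    Fintype.ofFinite _
  have hM : ∀ i, (rep ((reg (G ⧸ K i)).comp (QuotientGroup.mk' (K i)))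
        (elt x fun j => x ^ (j : ℕ) * y * (x ^ (j : ℕ))⁻¹) *
      (rep ((reg (G ⧸ K i)).comp (QuotientGroup.mk' (K i)))
        (elt x fun j => x ^ (j : ℕ) * y * (x ^ (j : ℕ))⁻¹))ᵀ).IsHermitian := fun i => by
    rw [← conjTranspose_eq_transpose_of_trivial]
    exact isHermitian_mul_conjTranspose_self _
  refine ⟨c, G, iG, iC, g, K, iN, iF, fun i => (hM i).eigenvalues, ha, hi, hf, hfr, h1, ?_, ?_, ?_,
    ?_⟩
  · rw [eq_top_iff, ← hcl, Subgroup.closure_le]
    have h2 : x ∈ Subgroup.closure (range g) := Subgroup.subset_closure hx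
    have h3 := mul_mem (inv_mem h2) (Subgroup.subset_closure (hy 0))
    rintro z (rfl | rfl)
    · exact h2
    · simpa using h3
  · intro d
    filter_upwards [tendsto_card_quot K ha hi hf d] with i h
    rwa [Nat.card_eq_fintype_card] at h
  · intro i s
    exact exists_small_space_grp c (fun e => (g e : G ⧸ K i)) _
      (hr ((reg (G ⧸ K i)).comp (QuotientGroup.mk' (K i)))) (hM i) s
  · intro T h
    filter_upwards [hT T h] with i h2
    exact h2 (hM i)

end Pool.Agent.Lib.MP_570070_gt.An
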