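import Pool.Agent.Lib.MP_570070_gt.An.UDefs
import Pool.Agent.Lib.MP_570070_gt.Main

open Filter Topology Set Matrix Pool.Agent.Lib.MP_75c153_gt

namespace Pool.Agent.Lib.MP_570070_gt.An

theorem speca_diag {n : Type} [Fintype n] [DecidableEq n] {M : Matrix n n ℝ}
    (hM : M.IsHermitian) :
    ∃ U : Matrix n n ℝ, Uᵀ * U = 1 ∧ M * U = U * diagonal hM.eigenvalues := by
  refine ⟨hM.eigenvectorUnitary, ?_, ?_⟩
  · have h := hM.eigenvectorUnitary.2.1
    rwa [star_eq_conjTranspose, conjTranspose_eq_transpose_of_trivial] at h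
  · ext i j
    have h := congrFun (hM.mulVec_eigenvectorBasis j) i
    rw [mul_diagonal, IsHermitian.eigenvectorUnitary_apply, mul_comm]
    simpa [mul_apply, mulVec, dotProduct] using h

theorem speca_sq {n : Type} [Fintype n] (v : n → ℝ) : ∑ i, v i ^ 2 = v ⬝ᵥ v := by
  simp [dotProduct, sq]

theorem speca_dot {n : Type} [Fintype n] [DecidableEq n] {U : Matrix n n ℝ} (hU : Uᵀ * U = 1)
    (a b : n → ℝ) : (U *ᵥ a) ⬝ᵥ (U *ᵥ b) = a ⬝ᵥ b := by
  rw [dotProduct_mulVec, vecMul_mulVec, hU, vecMul_one]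

/-- W is the span of the eigenvectors (hM.eigenvectorBasis) with eigenvalue in (0, s]; for
v = ∑ c_j v_j take u = Aᵀ ∑ (c_j / x_j) v_j. -/
theorem exists_small_space {n : Type} [Fintype n] [DecidableEq n] (A : Matrix n n ℝ)
    (hM : (A * Aᵀ).IsHermitian) (s : ℝ) : ∃ W : Submodule ℝ (n → ℝ),
    Module.finrank ℝ W =
      (Finset.univ.filter fun j => 0 < hM.eigenvalues j ∧ hM.eigenvalues j ≤ s).card ∧
    ∀ v ∈ W, ∑ i, (Aᵀ *ᵥ v) i ^ 2 ≤ s * ∑ i, v i ^ 2 ∧ ∃ u, A *ᵥ u = v := by
  obtain ⟨U, hU, hD⟩ := speca_diag hM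
  set x := hM.eigenvalues with hx
  set S := Finset.univ.filter fun j => 0 < x j ∧ x j ≤ s with hS
  let φ : (S → ℝ) →ₗ[ℝ] n → ℝ :=
    U.mulVecLin ∘ₗ Function.ExtendByZero.linearMap ℝ (Subtype.val : S → n)
  have hφ : Function.Injective φ := by
    refine Function.Injective.comp (g := U.mulVecLin) (fun a b hab => ?_) fun a b hab => ?_
    · have h := congrArg (Uᵀ *ᵥ ·) hab
      simpa [hU] using h
    · funext j
      have h := congrFun hab j.1
      simpa [Subtype.val_injective.extend_apply] using h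
  refine ⟨LinearMap.range φ, ?_, ?_⟩
  · rw [LinearMap.finrank_range_of_inj hφ]
    simp
  · rintro _ ⟨a, rfl⟩
    obtain ⟨b, hb, hab⟩ : ∃ b : n → ℝ, (∀ j, b j ≠ 0 → 0 < x j ∧ x j ≤ s) ∧ φ a = U *ᵥ b := by
      refine ⟨Function.extend Subtype.val a 0, fun j hj => ?_, rfl⟩
      by_contra h
      refine hj (Function.extend_apply' _ _ _ ?_)
      rintro ⟨k, rfl⟩
      exact h (Finset.mem_filter.1 k.2).2
    rw [hab]
    refine ⟨?_, Aᵀ *ᵥ (U *ᵥ fun j => b j / x j), ?_⟩
    · have h1 : (Aᵀ *ᵥ (U *ᵥ b)) ⬝ᵥ (Aᵀ *ᵥ (U *ᵥ b)) = b ⬝ᵥ (diagonal x *ᵥ b) := by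
        rw [← speca_dot hU b, mulVec_mulVec b U (diagonal x), ← hD, ← mulVec_mulVec b (A * Aᵀ) U,
          ← mulVec_mulVec _ A Aᵀ, dotProduct_mulVec (U *ᵥ b) A, ← mulVec_transpose A]
      rw [speca_sq, speca_sq, h1, speca_dot hU, dotProduct, dotProduct, Finset.mul_sum]
      refine Finset.sum_le_sum fun j _ => ?_
      rw [mulVec_diagonal]
      by_cases h : b j = 0
      · simp [h]
      · nlinarith [(hb j h).2, mul_self_nonneg (b j)]
    · rw [mulVec_mulVec, mulVec_mulVec, hD, ← mulVec_mulVec]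
      congr 1
      funext j
      rw [mulVec_diagonal]
      by_cases h : b j = 0
      · simp [h]
      · exact mul_div_cancel₀ _ (hb j h).1.ne'

theorem speca_reg {Q : Type} [Group Q] [Fintype Q] [DecidableEq Q] (a : Q) (f : Q → ℝ) (h : Q) :
    (reg Q a *ᵥ f) h = f (h * a) := by
  simp [reg, mulVec, dotProduct]

theorem speca_true (c : Par) {Q : Type} [Group Q] [Fintype Q] [DecidableEq Q] (g : Ed c → Q)
    (w : Q × Bool → ℝ) (h : Q) : ahat (grpGl c g) w (h, true) =
      ((∑ e, (sg e * c.ε e) • reg Q (g e)) *ᵥ fun k => w (k, false)) h := by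
  rw [sum_mulVec, Finset.sum_apply]
  exact Finset.sum_congr rfl fun e _ => by
    rw [smul_mulVec, Pi.smul_apply, speca_reg]
    rfl

theorem speca_false (c : Par) {Q : Type} [Group Q] [Fintype Q] [DecidableEq Q] (g : Ed c → Q)
    (w : Q × Bool → ℝ) (h : Q) : ahat (grpGl c g) w (h, false) =
      ((∑ e, (sg e * c.ε e) • reg Q (g e))ᵀ *ᵥ fun k => w (k, true)) h := by
  rw [transpose_sum, sum_mulVec, Finset.sum_apply]
  exact Finset.sum_congr rfl fun e _ => by
    rw [transpose_smul, ← reg_inv, smul_mulVec, Pi.smul_apply, speca_reg]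
    rfl

/-- Put v on the pieces (h, true) and u on the pieces (h, false):
ahat w (h, true) = (A w(·, false)) h and ahat w (h, false) = (Aᵀ w(·, true)) h (reg_inv). -/
theorem exists_small_space_grp (c : Par) {Q : Type} [Group Q] [Fintype Q] [DecidableEq Q]
    (g : Ed c → Q) (A : Matrix Q Q ℝ) (hA : A = ∑ e, (sg e * c.ε e) • reg Q (g e))
    (hM : (A * Aᵀ).IsHermitian) (s : ℝ) : ∃ W : Submodule ℝ (Q × Bool → ℝ),
    Module.finrank ℝ W =
      (Finset.univ.filter fun j => 0 < hM.eigenvalues j ∧ hM.eigenvalues j ≤ s).card ∧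
    ∀ v ∈ W, ∑ p, ahat (grpGl c g) v p ^ 2 ≤ s * ∑ p, v p ^ 2 ∧
      ∃ u, ahat (grpGl c g) u = v := by
  obtain ⟨W, h1, h2⟩ := exists_small_space A hM s
  let ψ : (Q → ℝ) →ₗ[ℝ] Q × Bool → ℝ :=
    { toFun := fun v p => if p.2 then v p.1 else 0
      map_add' := fun a b => by
        funext ⟨h, t⟩
        cases t <;> simp
      map_smul' := fun r a => by
        funext ⟨h, t⟩
        cases t <;> simp }
  have hψ : Function.Injective ψ := fun a b hab => funext fun h => congrFun hab (h, true)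
  refine ⟨W.map ψ, (Submodule.equivMapOfInjective ψ hψ W).finrank_eq.symm.trans h1, ?_⟩
  rintro _ ⟨v, hv, rfl⟩
  obtain ⟨h3, u, h4⟩ := h2 v hv
  have e1 : (fun k => ψ v (k, false)) = 0 := rfl
  have e2 : (fun k => ψ v (k, true)) = v := rfl
  refine ⟨?_, fun p => if p.2 then 0 else u p.1, ?_⟩
  · simp only [Fintype.sum_prod_type, Fintype.sum_bool, speca_true, speca_false, ← hA, e1, e2,
      mulVec_zero]
    simpa [ψ] using h3
  · funext ⟨h, t⟩
    cases t
    · rw [speca_false]
      exact congrFun (mulVec_zero _) h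
    · rw [speca_true, ← hA]
      exact congrFun h4 h

theorem ahat_symm {c : Par} {P : Type} [Fintype P] (Γ : Gl c P) (u v : P → ℝ) :
    ∑ p, ahat Γ u p * v p = ∑ p, u p * ahat Γ v p := by
  simp only [ahat, Finset.sum_mul, Finset.mul_sum]
  rw [Finset.sum_comm, Finset.sum_comm (s := Finset.univ (α := P))]
  refine Finset.sum_congr rfl fun e _ => ?_
  have hi : Function.Involutive (Γ.σ e) := Γ.invol e
  rw [← Equiv.sum_comp hi.toPerm]
  exact Finset.sum_congr rfl fun p _ => by
    rw [Function.Involutive.coe_toPerm, Γ.invol]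
    ring

/-- If the labels generate and one label is 1, the graph of pieces is connected
(Subgroup.closure_induction; (h, true) and (h, false) are adjacent). -/
theorem grpGl_conn (c : Par) {Q : Type} [Group Q] (g : Ed c → Q) (h1 : g none = 1)
    (hg : Subgroup.closure (range g) = ⊤) (p q : Q × Bool) :
    Relation.ReflTransGen (fun a b => ∃ e, (grpGl c g).σ e a = b) p q := by
  set R := Relation.ReflTransGen (fun a b => ∃ e, (grpGl c g).σ e a = b) with hR
  have f1 : ∀ e h, R (h, true) (h * g e, false) := fun e h => .single ⟨e, rfl⟩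
  have f2 : ∀ e h, R (h, false) (h * (g e)⁻¹, true) := fun e h => .single ⟨e, rfl⟩
  have f3 : ∀ h, R (h, true) (h, false) := fun h => by simpa [h1] using f1 none h
  have f4 : ∀ h, R (h, false) (h, true) := fun h => by simpa [h1] using f2 none h
  have key : ∀ k : Q, ∀ h, R (h, true) (h * k, true) ∧ R (h, true) (h * k⁻¹, true) := by
    intro k
    have hk : k ∈ Subgroup.closure (range g) := hg ▸ Subgroup.mem_top k
    induction hk using Subgroup.closure_induction with
    | mem k hk =>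
      obtain ⟨e, rfl⟩ := hk
      exact fun h => ⟨(f1 e h).trans (f4 _), (f3 h).trans (f2 e h)⟩
    | one => exact fun h => by simpa using Relation.ReflTransGen.refl
    | mul a b _ _ ha hb =>
      intro h
      rw [_root_.mul_inv_rev, ← mul_assoc, ← mul_assoc]
      exact ⟨(ha h).1.trans (hb _).1, (hb h).2.trans (ha _).2⟩
    | inv a _ ha =>
      intro h
      rw [inv_inv]
      exact ⟨(ha h).2, (ha h).1⟩
  obtain ⟨a, s⟩ := p
  obtain ⟨b, t⟩ := q
  have h2 : R (a, true) (b, true) := by simpa using (key (a⁻¹ * b) a).1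
  cases s <;> cases t
  · exact ((f4 a).trans h2).trans (f3 b)
  · exact (f4 a).trans h2
  · exact h2.trans (f3 b)
  · exact h2

end Pool.Agent.Lib.MP_570070_gt.An
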