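import Pool.Agent.Lib.MP_570070_gt.An.Poin
import Pool.Agent.Lib.MP_570070_gt.An.Clus
import Pool.Agent.Lib.MP_570070_gt.An.SpecA
import Pool.Agent.Lib.MP_570070_gt.An.Sym

/-! Uniform decay of the heat trace in degree zero. -/

open MeasureTheory Filter Topology Set
open scoped ContDiff InnerProductSpace

namespace Pool.Agent.Lib.MP_570070_gt.An

theorem tail_zero_grp (c : Par) (B : ℝ) : ∃ C : ℝ, ∀ {Q : Type} [Group Q] [Fintype Q]
    (g : Ed c → Q), g none = 1 → Subgroup.closure (range g) = ⊤ → ∀ (U : UpL2 (grpGl c g))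
    {Pt : ℝ → U.H 0 →L[ℝ] U.H 0}, IsHeat (dom U.D 0) Pt →
    (∀ t, 0 < t → trOn (U.on 0 (base Q)) (Pt t) ≠ ⊤) →
    (trOn (U.on 0 (base Q)) (Pt 2)).toReal ≤ B →
    (∀ t : ℝ, 4 ≤ t → t ≤ Fintype.card Q →
      (trOn (U.on 0 (base Q)) (Pt t)).toReal ≤ C * t ^ (-(1 / 4 : ℝ))) ∧
    ∀ b, Tendsto (fun t => (trOn (U.on 0 (base Q)) (Pt t)).toReal) atTop (𝓝 b) →
      ∀ t : ℝ, 4 ≤ t → (trOn (U.on 0 (base Q)) (Pt t)).toReal - b ≤ C * t ^ (-(1 / 4 : ℝ)) := by
  classical
  obtain ⟨C₀, hC₀, H⟩ := exists_poin c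
  obtain ⟨C, hC⟩ := tail_zero_numeric (C₀ * max B 0) (Fintype.card (Ed c)) (by positivity)
    (Nat.cast_nonneg _)
  refine ⟨C, fun {Q} _ _ g h1 hg U Pt hP hf hB => ?_⟩
  have hP2 := isHeat₂_of_isHeat hP
  obtain ⟨𝒯⟩ := exists_tiling c g U hP
  have hS := U.coe_onS 0 (base Q)
  rw [← hS] at hf hB ⊢
  have conn := grpGl_conn c g h1 hg
  have hd : (1 : ℝ) ≤ Fintype.card Q := Nat.one_le_cast.2 Fintype.card_pos
  have hc : Fintype.card (Q × Bool) = 2 * Fintype.card Q := by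
    rw [Fintype.card_prod, Fintype.card_bool, mul_comm]
  have key : ∀ (cl : Q × Bool → Q × Bool) (Λ : ℕ), 1 ≤ Λ →
      (∀ x, (Finset.univ.filter fun p => cl p = x).card ≤ Λ) →
      (∀ p, Relation.ReflTransGen (fun a b => cl a = cl p ∧ cl b = cl p ∧
        ∃ e, (grpGl c g).σ e a = b) p (cl p)) → ∀ v ξ, (v, ξ) ∈ domS U.D 0 → ∀ f : U.H 0,
      (∀ x, ⟪∑ p ∈ Finset.univ.filter fun p => cl p = x, U.chi p, f⟫_ℝ = 0) →
      ⟪v, f⟫_ℝ ^ 2 ≤ C₀ * (Λ : ℝ) ^ 2 * ‖ξ‖ ^ 2 * ‖f‖ ^ 2 := fun cl Λ a1 a2 a3 v ξ hv f a4 =>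
    (H _ U cl Λ a1 a2 a3 v ξ.fst ((mem_domS U.D).1 hv).1 f a4).trans (mul_le_mul_of_nonneg_right
      (mul_le_mul_of_nonneg_left (pow_le_pow_left₀ (norm_nonneg _) (WithLp.norm_fst_le _ ξ) 2)
        (by positivity)) (sq_nonneg _))
  have bd : ∀ (x τ : ℝ), 0 < τ → C₀ * x ^ 2 *
      (trOn (U.onS 0 (base Q) : Set (U.H 0)) (Pt 2)).toReal / τ ≤ x ^ 2 * (C₀ * max B 0) / τ :=
    fun x τ hτ => div_le_div_of_nonneg_right ((mul_le_mul_of_nonneg_left
      (hB.trans (le_max_left B 0)) (by positivity)).trans_eq (by ring)) hτ.le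
  obtain ⟨r1, r2⟩ := hC (fun t => (trOn (U.onS 0 (base Q) : Set (U.H 0)) (Pt t)).toReal) _ hd
    fun L hL τ hτ => by
      obtain ⟨cl, a1, a2, a3⟩ := exists_cluster (grpGl c g).σ (grpGl c g).invol conn hL
      let w : (Finset.univ.image cl) → U.H 0 := fun x =>
        ∑ p ∈ Finset.univ.filter fun p => cl p = x, U.chi p
      have := FiniteDimensional.span_of_finite ℝ (finite_range w)
      have a4 := tail_zero hP2 𝒯 hf (Submodule.span ℝ (range w))
        (a := C₀ * ((Fintype.card (Ed c) * L + 1 : ℕ) : ℝ) ^ 2) (by positivity)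
        (fun v ξ hv f h0 => key cl _ (Nat.le_add_left _ _) a2 a3 v ξ hv f fun x => by
          by_cases hx : x ∈ Finset.univ.image cl
          · exact h0 _ (Submodule.subset_span ⟨⟨x, hx⟩, rfl⟩)
          · rw [Finset.filter_false_of_mem fun p _ h =>
              hx (Finset.mem_image.2 ⟨p, Finset.mem_univ p, h⟩), Finset.sum_empty, inner_zero_left])
        hτ
      have a5 : (Module.finrank ℝ (Submodule.span ℝ (range w)) : ℝ) ≤
          2 * Fintype.card Q / L + 1 := by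
        have a6 := finrank_range_le_card (R := ℝ) w
        rw [Fintype.card_coe] at a6
        rw [hc] at a1
        push_cast at a1
        exact (Nat.cast_le.2 a6).trans a1
      push_cast at a4
      exact a4.trans (add_le_add (div_le_div_of_nonneg_right (by linarith) (by linarith))
        (bd _ τ hτ))
  refine ⟨r1, fun b hb => r2 b (ge_of_tendsto' hb fun _ => ENNReal.toReal_nonneg) fun τ hτ => ?_⟩
  have hu : (U.j 0 (ofFn fun _ _ => 1), (0 : KK U.H 0)) ∈ domS U.D 0 := by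
    refine (mem_domS U.D).2 ⟨?_, rfl⟩
    have h2 := U.WD_of_D (U.D_j (isT_one (Γ := grpGl c g)))
    rwa [show dF (ofFn fun (_ : Q × Bool) _ => (1 : ℝ)) = 0 from funext₂ fun p y => by
      rw [dF, extDeriv, show ofFn (fun (_ : Q × Bool) _ => (1 : ℝ)) p = fun _ => f0 1 from rfl,
        fderiv_fun_const]
      ext v
      simp [ContinuousAlternatingMap.alternatizeUncurryFin_apply], U.j_zero] at h2
  have a4 := tail_zero_const hP2 hf hu (a := C₀ * ((2 * Fintype.card Q : ℕ) : ℝ) ^ 2)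
    (by positivity) (fun v ξ hv f h0 => key (fun _ => (1, true)) _
      (by have := Fintype.card_pos (α := Q); omega)
      (fun x => (Finset.card_le_univ _).trans hc.le)
      (fun p => Relation.ReflTransGen.mono (fun a b h => ⟨rfl, rfl, h⟩) _ _ (conn p (1, true))) v ξ hv f fun x => by
        by_cases hx : (1, true) = x
        · rw [Finset.filter_true_of_mem fun _ _ => hx]
          simp only [U.chi_eq]
          rwa [U.sum_m]
        · rw [Finset.filter_false_of_mem fun _ _ => hx, Finset.sum_empty, inner_zero_left]) hb hτ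
  push_cast at a4
  exact a4.trans (bd _ τ hτ)

end Pool.Agent.Lib.MP_570070_gt.An
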