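import Pool.Agent.Lib.MP_570070_gt.An.Tail1
import Pool.Agent.Lib.MP_570070_gt.An.SpecC
import Pool.Agent.Lib.MP_570070_gt.An.Tail0
import Pool.Agent.Lib.MP_570070_gt.An.LocMain
import Pool.Agent.Lib.MP_570070_gt.An.NvMain

open MeasureTheory Filter Topology Set
open scoped ContDiff InnerProductSpace

namespace Pool.Agent.Lib.MP_570070_gt.An

/-- By duality only the degrees zero and one matter. -/
theorem UpTorsion.reduce {c : Par} {P : Type} {Γ : Gl c P} {S : Set P} {ρ : ℝ}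
    (h : UpTorsion Γ S ρ) : ∃ (U : UpL2 Γ) (Pt : ∀ k, ℝ → U.H k →L[ℝ] U.H k) (I₀ I₁ : ℝ),
      (∀ k, IsHeat (dom U.D k) (Pt k)) ∧ (∀ t, 0 < t → trOn (U.on 0 S) (Pt 0 t) ≠ ⊤) ∧
      (∀ t, 0 < t → trOn (U.on 1 S) (Pt 1 t) ≠ ⊤) ∧
      IsRegInt (fun t => (trOn (U.on 0 S) (Pt 0 t)).toReal) I₀ ∧
      IsRegInt (fun t => (trOn (U.on 1 S) (Pt 1 t)).toReal) I₁ ∧ 2 * ρ = I₁ - 3 * I₀ := by
  obtain ⟨U, Pt, I, hP, hI, rfl⟩ := h
  obtain ⟨f0, r0⟩ := hI 0 (by norm_num)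
  obtain ⟨f1, r1⟩ := hI 1 (by norm_num)
  have e3 : I 3 = I 0 := r0.unique (hI 3 le_rfl).2
    (heat_tr_antitone (isHeat₂_of_isHeat (hP 0)) _ f0) fun t ht => by
      rw [(U.star_trace hP S ht.le).1]
  have e2 : I 2 = I 1 := r1.unique (hI 2 (by norm_num)).2
    (heat_tr_antitone (isHeat₂_of_isHeat (hP 1)) _ f1) fun t ht => by
      rw [(U.star_trace hP S ht.le).2]
  refine ⟨U, Pt, I 0, I 1, hP, f0, f1, r0, r1, ?_⟩
  simp only [Finset.sum_range_succ, Finset.sum_range_zero, e2, e3]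
  push_cast
  ring

theorem up_main : ∃ (c : Par) (G : Type) (_ : Group G) (_ : Countable G) (g : Ed c → G)
    (K : ℕ → Subgroup G) (_ : ∀ i, (K i).Normal), Antitone K ∧ ⨅ i, K i = ⊥ ∧
    (∀ i, (K i).FiniteIndex) ∧ Nonempty (G ≃* FreeGroup (Fin 2)) ∧ g none = 1 ∧
    Subgroup.closure (range g) = ⊤ ∧ ∀ (ρ : ℝ) (r : ℕ → ℝ),
      UpTorsion (grpGl c g) (base G) ρ →
      (∀ i, UpTorsion (grpGl c fun e => (g e : G ⧸ K i)) (base (G ⧸ K i)) (r i)) →
      ∀ᶠ i in atTop, ρ + 1 / 8 ≤ r i := by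
  obtain ⟨c, G, _, _, g, K, _, _, x, ha, hi, hfi, hfr, h1, hg, hcard, hW, hlog⟩ := exists_spec
  refine ⟨c, G, inferInstance, inferInstance, g, K, inferInstance, ha, hi, hfi, hfr, h1, hg,
    fun ρ r hρ hr => ?_⟩
  obtain ⟨U, Pt, I₀, I₁, hP, f0, f1, r0, r1, e⟩ := hρ.reduce
  choose U' Pt' J₀ J₁ hP' g0 g1 s0 s1 e' using fun i => (hr i).reduce
  have l0 := local_grp c g K ha hi (k := 0) (by norm_num) U (hP 0) f0 r0 U' (fun i => hP' i 0) g0
  have l1 := local_grp c g K ha hi (k := 1) le_rfl U (hP 1) f1 r1 U' (fun i => hP' i 1) g1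
  obtain ⟨C, hC⟩ := tail_zero_grp c ((trOn (U.on 0 (base G)) (Pt 0 2)).toReal + 2)
  obtain ⟨κ, hκ, hT⟩ := tail_one_grp' c
  have gen : ∀ i, Subgroup.closure (range fun e => (g e : G ⧸ K i)) = ⊤ := fun i => by
    have := congrArg (Subgroup.map (QuotientGroup.mk' (K i))) hg
    rwa [MonoidHom.map_closure, ← range_comp,
      Subgroup.map_top_of_surjective _ (QuotientGroup.mk'_surjective _)] at this
  have t0 := (l0 2 1 one_pos).mono fun i h => hC (fun e => (g e : G ⧸ K i))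
    (by simp [h1]) (gen i) (U' i) (hP' i 0) (g0 i) (by
      have := (abs_le.1 (h 2 ⟨two_pos, le_rfl⟩)).2
      linarith)
  have key := final_gap r0 r1 s0 s1 (heat_tr_antitone (isHeat₂_of_isHeat (hP 0)) _ f0)
    (heat_tr_antitone (isHeat₂_of_isHeat (hP 1)) _ f1)
    (fun i => heat_tr_antitone (isHeat₂_of_isHeat (hP' i 0)) _ (g0 i))
    (fun i => heat_tr_antitone (isHeat₂_of_isHeat (hP' i 1)) _ (g1 i))
    (fun i t => ENNReal.toReal_nonneg) l0 l1 (C := C) (γ := 1 / 4) (by norm_num)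
    (t0.mono fun i h => h.2)
    (fun t ht => by
      filter_upwards [t0, hcard t] with i h h'
      exact h.1 t ht h')
    (c := 1 / 2) (by norm_num) (fun T hT1 => by
      filter_upwards [hlog (max 1 (2 * T / κ)) (le_max_left _ _)] with i h b hb hint
      have hd : (0 : ℝ) < Fintype.card (G ⧸ K i) := by exact_mod_cast Fintype.card_pos
      refine le_trans ?_ (tail_integral (x i) hκ (d := 2 * Fintype.card (G ⧸ K i))
        (by positivity) hT1 hint fun t ht => ?_)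
      · rw [le_div_iff₀ (by positivity)]
        linarith
      · obtain ⟨W, w1, w2⟩ := hW i (κ / (2 * t))
        rw [← w1]
        exact hT _ (U' i) (hP' i 1) (g1 i) t ht W w2 b hb)
  filter_upwards [key] with i h
  linarith [e' i]

/-- The manifold of a connected pattern is connected. -/
theorem connected_et {c : Par} {P : Type} [Nonempty P] (Γ : Gl c P)
    (h : ∀ p q, Relation.ReflTransGen (fun a b => ∃ e, Γ.σ e a = b) p q) :
    ConnectedSpace (et Γ).X := by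
  have hp : ∀ p, IsPreconnected ((et Γ).π p '' DR c) := fun p =>
    isPreconnected_DR.image _ (Etale.continuousOn_π (S := et Γ) p)
  have hu : IsPreconnected (⋃ p, (et Γ).π p '' DR c) := by
    refine IsPreconnected.iUnion_of_reflTransGen hp fun p q =>
      Relation.ReflTransGen.mono ?_ _ _ (h p q)
    rintro a _ ⟨e, rfl⟩
    obtain ⟨y, hy, h0⟩ := exists_sc_eq e (a := 0) (by norm_num) (by norm_num)
    have hf := flip_flipPt hy.1 (e := e) (by rw [h0]; norm_num)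
    exact ⟨_, ⟨y, hy.1, rfl⟩, _, hf.2.1, q_flip a hf⟩
  have he : (⋃ p, (et Γ).π p '' DR c) = univ := eq_univ_of_forall fun x =>
    let ⟨p, y, hy, e⟩ := Etale.exists_rep x
    mem_iUnion.2 ⟨p, y, hy, e⟩
  rw [he] at hu
  have : PreconnectedSpace (et Γ).X := ⟨hu⟩
  exact ⟨⟨(et Γ).π (Classical.arbitrary P) 0⟩⟩

end Pool.Agent.Lib.MP_570070_gt.An
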