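import Pool.Agent.Lib.MP_570070_gt.An.AHeat

/-! Flows of bounded symmetric non-negative operators. -/

open MeasureTheory Filter Topology Set
open scoped InnerProductSpace

namespace Pool.Agent.Lib.MP_570070_gt.An

variable {A : Type} [NormedAddCommGroup A] [InnerProductSpace ℝ A]

/-- T t = exp (-t B). -/
structure Fl (B : A →L[ℝ] A) (T : ℝ → A →L[ℝ] A) : Prop where
  sym : ∀ x y, ⟪B x, y⟫_ℝ = ⟪x, B y⟫_ℝ
  pos : ∀ x, 0 ≤ ⟪B x, x⟫_ℝ
  zero : ∀ x, T 0 x = x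
  der : ∀ t, HasDerivAt T (-(T t * B)) t
  comm : ∀ C : A →L[ℝ] A, Commute C B → ∀ t x, C (T t x) = T t (C x)
  add : ∀ s t x, T (s + t) x = T s (T t x)

theorem exists_fl [CompleteSpace A] {B : A →L[ℝ] A} (sym : ∀ x y, ⟪B x, y⟫_ℝ = ⟪x, B y⟫_ℝ)
    (pos : ∀ x, 0 ≤ ⟪B x, x⟫_ℝ) : ∃ T, Fl B T := by
  let : NormedAlgebra ℚ (A →L[ℝ] A) := NormedAlgebra.restrictScalars ℚ ℝ _
  refine ⟨fun t => NormedSpace.exp (t • -B), sym, pos, fun x => by simp, fun t => ?_,
    fun C h t x => ?_, fun s t x => ?_⟩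
  · have := hasDerivAt_exp_smul_const (𝕂 := ℝ) (-B) t
    rwa [mul_neg] at this
  · exact congrArg (fun L : A →L[ℝ] A => L x) (h.neg_right.smul_right t).exp_right.eq
  · rw [add_smul, NormedSpace.exp_add_of_commute
      (((Commute.refl (-B)).smul_left s).smul_right t)]
    rfl

variable {B B' : A →L[ℝ] A} {T T' : ℝ → A →L[ℝ] A}

theorem Fl.der' (h : Fl B T) (x : A) (t : ℝ) : HasDerivAt (fun s => T s x) (-(T t (B x))) t := by
  simpa using (h.der t).clm_apply (hasDerivAt_const t x)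

theorem Fl.lim (h : Fl B T) (x : A) : Tendsto (fun s => T s x) (𝓝[>] 0) (𝓝 x) := by
  have := (h.der' x 0).continuousAt.tendsto.mono_left (nhdsWithin_le_nhds (s := Ioi 0))
  rwa [h.zero] at this

theorem Fl.swap (h : Fl B T) (t : ℝ) (x : A) : T t (B x) = B (T t x) :=
  (h.comm B (Commute.refl B) t x).symm

theorem Fl.norm_le (h : Fl B T) {t : ℝ} (ht : 0 ≤ t) (x : A) : ‖T t x‖ ≤ ‖x‖ := by
  rcases ht.eq_or_lt with rfl | ht
  · rw [h.zero]
  have : ⟪T t x, T t x⟫_ℝ ≤ ⟪x, x⟫_ℝ := by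
    refine le_of_deriv (g := fun s => ⟪T s x, T s x⟫_ℝ) ht ((h.lim x).inner (h.lim x))
      fun s _ _ => ⟨_, (h.der' x s).inner ℝ (h.der' x s), ?_⟩
    have h1 := h.pos (T s x)
    rw [inner_neg_right, inner_neg_left, h.swap, real_inner_comm]
    linarith
  rw [real_inner_self_eq_norm_sq, real_inner_self_eq_norm_sq] at this
  exact le_of_sq_le_sq this (norm_nonneg _)

theorem Fl.smooth (h : Fl B T) {t : ℝ} (ht : 0 < t) (x : A) : t * ‖T t (B x)‖ ≤ ‖x‖ := by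
  have h0 : Tendsto (fun s : ℝ => ⟪T s x, T s x⟫_ℝ + 2 * s * ⟪T s (B x), T s x⟫_ℝ +
      2 * s ^ 2 * ⟪T s (B x), T s (B x)⟫_ℝ) (𝓝[>] 0)
      (𝓝 (⟪x, x⟫_ℝ + 2 * 0 * ⟪B x, x⟫_ℝ + 2 * 0 ^ 2 * ⟪B x, B x⟫_ℝ)) := by
    have i : Tendsto (fun s : ℝ => s) (𝓝[>] 0) (𝓝 0) := tendsto_id.mono_left nhdsWithin_le_nhds
    exact (((h.lim x).inner (h.lim x)).add ((i.const_mul 2).mul ((h.lim _).inner (h.lim x)))).add
      (((i.pow 2).const_mul 2).mul ((h.lim _).inner (h.lim _)))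
  have := le_of_deriv ht h0 fun s hs _ => by
    refine ⟨_, (((h.der' x s).inner ℝ (h.der' x s)).add
      (((hasDerivAt_id s).const_mul 2).mul ((h.der' (B x) s).inner ℝ (h.der' x s)))).add
      ((((hasDerivAt_id s).pow 2).const_mul 2).mul
        ((h.der' (B x) s).inner ℝ (h.der' (B x) s))), ?_⟩
    have h1 := h.pos (B (T s x))
    have h2 := h.sym (B (T s x)) (T s x)
    have h3 := real_inner_comm (B (T s x)) (T s x)
    have h4 := real_inner_comm (B (B (T s x))) (B (T s x))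
    simp only [inner_neg_right, inner_neg_left, h.swap, id, Pi.pow_apply]
    rw [h2, h3, h4]
    norm_num
    nlinarith [mul_nonneg (sq_nonneg s) h1]
  have h1 := h.pos (T t x)
  rw [← h.swap] at h1
  rw [real_inner_self_eq_norm_sq, real_inner_self_eq_norm_sq, real_inner_self_eq_norm_sq] at this
  refine le_of_sq_le_sq ?_ (norm_nonneg _)
  nlinarith [sq_nonneg ‖T t x‖, mul_nonneg ht.le h1, sq_nonneg (t * ‖T t (B x)‖)]

theorem Fl.lip (h : Fl B T) {s t : ℝ} (hs : 0 ≤ s) (ht : 0 ≤ t) (x : A) :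
    ‖T s x - T t x‖ ≤ ‖B x‖ * |s - t| :=
  (convex_Ici 0).norm_image_sub_le_of_norm_hasDerivWithin_le
    (fun r _ => (h.der' x r).hasDerivWithinAt)
    (fun r hr => by rw [norm_neg]; exact h.norm_le hr _) ht hs

theorem Fl.taylor (h : Fl B T) {s t : ℝ} (hs : 0 ≤ s) (ht : 0 ≤ t) (x : A) :
    ‖T s x - T t x + (s - t) • T t (B x)‖ ≤ ‖B (B x)‖ * |s - t| * |s - t| := by
  have := (convex_uIcc t s).norm_image_sub_le_of_norm_hasDerivWithin_le
    (f := fun r => T r x + r • T t (B x)) (C := ‖B (B x)‖ * |s - t|)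
    (fun r _ => ((h.der' x r).add ((hasDerivAt_id r).smul_const (T t (B x)))).hasDerivWithinAt)
    (fun r hr => by
      have h0 : 0 ≤ r := (le_min ht hs).trans hr.1
      rw [one_smul, neg_add_eq_sub, norm_sub_rev]
      exact (h.lip h0 ht _).trans
        (mul_le_mul_of_nonneg_left (abs_sub_left_of_mem_uIcc hr) (norm_nonneg _)))
    left_mem_uIcc right_mem_uIcc
  rw [Real.norm_eq_abs] at this
  rw [sub_smul]
  convert this using 2
  abel

theorem Fl.sub_le (h : Fl B T) (h' : Fl B' T') (hc : Commute B B') {t : ℝ} (ht : 0 ≤ t) (x : A) :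
    ‖T' t x - T t x‖ ≤ ‖B x - B' x‖ * t := by
  have := (convex_Icc 0 t).norm_image_sub_le_of_norm_hasDerivWithin_le
    (f := fun s => T (t - s) (T' s x)) (f' := fun s => T (t - s) (T' s (B x - B' x)))
    (C := ‖B x - B' x‖) (fun s _ => by
      have h3 : HasDerivAt (fun r : ℝ => t - r) (-1) s := by
        simpa using (hasDerivAt_id s).const_sub t
      have h4 := (HasDerivAt.scomp s (h := fun r : ℝ => t - r) (h.der (t - s)) h3).clm_apply
        (h'.der' x s)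
      refine (h4.congr_deriv ?_).hasDerivWithinAt
      have h5 := h'.comm B hc s x
      rw [neg_smul, one_smul, neg_neg, map_sub, map_sub, map_neg, ← h5, sub_eq_add_neg _ (T _ _)]
      rfl)
    (fun s hs => (h.norm_le (sub_nonneg.2 hs.2) _).trans (h'.norm_le hs.1 _))
    (left_mem_Icc.2 ht) (right_mem_Icc.2 ht)
  simpa [h.zero, h'.zero, abs_of_nonneg ht] using this

theorem nv_cauchy {U : ℕ → A →L[ℝ] A} (hU : ∀ n x, ‖U n x‖ ≤ ‖x‖) {s : Set A} (hs : Dense s)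
    (h : ∀ x ∈ s, CauchySeq fun n => U n x) (x : A) : CauchySeq fun n => U n x := by
  refine Metric.cauchySeq_iff.2 fun ε hε => ?_
  obtain ⟨y, hy, h1⟩ := hs.exists_dist_lt x (show 0 < ε / 3 by positivity)
  obtain ⟨N, hN⟩ := Metric.cauchySeq_iff.1 (h y hy) (ε / 3) (by positivity)
  refine ⟨N, fun m hm n hn => ?_⟩
  have h2 : ∀ k, dist (U k x) (U k y) ≤ dist x y := fun k => by
    rw [dist_eq_norm, dist_eq_norm, ← map_sub]
    exact hU k _
  have h3 := dist_triangle4 (U m x) (U m y) (U n y) (U n x)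
  rw [dist_comm (U n y)] at h3
  linarith [h2 m, h2 n, hN m hm n hn]

theorem nv_zero {U : ℕ → A →L[ℝ] A} (hU : ∀ n x, ‖U n x‖ ≤ ‖x‖) {s : Set A} (hs : Dense s)
    (h : ∀ x ∈ s, Tendsto (fun n => U n x) atTop (𝓝 0)) (x : A) :
    Tendsto (fun n => U n x) atTop (𝓝 0) := by
  refine Metric.tendsto_atTop.2 fun ε hε => ?_
  obtain ⟨y, hy, h1⟩ := hs.exists_dist_lt x (half_pos hε)
  obtain ⟨N, hN⟩ := Metric.tendsto_atTop.1 (h y hy) (ε / 2) (half_pos hε)
  refine ⟨N, fun n hn => ?_⟩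
  have h2 : dist (U n x) (U n y) ≤ dist x y := by
    rw [dist_eq_norm, dist_eq_norm, ← map_sub]
    exact hU n _
  linarith [dist_triangle (U n x) (U n y) 0, hN n hn]

theorem nv_tendsto {U : ℕ → A →L[ℝ] A} (hU : ∀ n x, ‖U n x‖ ≤ ‖x‖) {x y : A} {z : ℕ → A}
    (h : Tendsto (fun n => U n x) atTop (𝓝 y)) (hz : Tendsto z atTop (𝓝 x)) :
    Tendsto (fun n => U n (z n)) atTop (𝓝 y) := by
  have h1 : Tendsto (fun n => U n (z n - x)) atTop (𝓝 0) :=
    squeeze_zero_norm (fun n => hU n _) (tendsto_iff_norm_sub_tendsto_zero.1 hz)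
  simpa using h1.add h

end Pool.Agent.Lib.MP_570070_gt.An
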