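import Pool.Agent.Lib.MP_570070_gt.An.NvExp

/-! Existence of the heat flow of a closed densely defined form. -/

open MeasureTheory Filter Topology Set
open scoped InnerProductSpace

namespace Pool.Agent.Lib.MP_570070_gt.An

variable {A K : Type} [NormedAddCommGroup A] [InnerProductSpace ℝ A] [CompleteSpace A]
  [NormedAddCommGroup K] [InnerProductSpace ℝ K] [CompleteSpace K] {Γ : Submodule ℝ (A × K)}

/-- The resolvent at -1, from the orthogonal projection to the graph. -/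
theorem nv_res (hc : IsClosed (Γ : Set (A × K))) :
    ∃ R : A →L[ℝ] A, ∀ y, ∃ ξ, Lp Γ (R y) ξ (y - R y) := by
  let e := WithLp.prodContinuousLinearEquiv 2 ℝ A K
  let G : Submodule ℝ (WithLp 2 (A × K)) := Γ.comap e.toLinearEquiv.toLinearMap
  have hG : IsClosed (G : Set (WithLp 2 (A × K))) := hc.preimage e.continuous
  have : CompleteSpace G := hG.completeSpace_coe
  refine ⟨ContinuousLinearMap.fst ℝ A K ∘L (e : _ →L[ℝ] _) ∘L G.starProjection ∘L
    (e.symm : _ →L[ℝ] _) ∘L ContinuousLinearMap.inl ℝ A K, fun y => ?_⟩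
  refine ⟨(G.starProjection (e.symm (y, 0))).snd, G.starProjection_apply_mem _, fun w ξ hw => ?_⟩
  have h1 := G.starProjection_inner_eq_zero (e.symm (y, 0)) (e.symm (w, ξ)) hw
  rw [WithLp.prod_inner_apply] at h1
  change ⟪y - (G.starProjection (e.symm (y, 0))).fst, w⟫_ℝ +
    ⟪0 - (G.starProjection (e.symm (y, 0))).snd, ξ⟫_ℝ = 0 at h1
  rw [zero_sub, inner_neg_left] at h1
  change _ = ⟪y - (G.starProjection (e.symm (y, 0))).fst, w⟫_ℝ
  linarith

/-- The strong limit of the flows of the sums of powers of 1 - R. -/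
theorem nv_flow {R : A →L[ℝ] A} (sym : ∀ x y, ⟪R x, y⟫_ℝ = ⟪x, R y⟫_ℝ)
    (sq : ∀ y, ‖R y‖ ^ 2 ≤ ⟪R y, y⟫_ℝ) (hd : Dense (range R)) : ∃ P : ℝ → A →L[ℝ] A,
    (∀ x, P 0 x = x) ∧ (∀ t, 0 ≤ t → ∀ x, ‖P t x‖ ≤ ‖x‖) ∧
    (∀ s, 0 ≤ s → ∀ t, 0 ≤ t → ∀ x, P (s + t) x = P s (P t x)) ∧
    (∀ t, 0 ≤ t → ∀ x, R (P t x) = P t (R x)) ∧
    (∀ t, 0 < t → ∀ y, ‖P t y‖ ≤ (1 + t⁻¹) * ‖R y‖) ∧
    (∀ s, 0 ≤ s → ∀ t, 0 ≤ t → ∀ y, ‖P s (R y) - P t (R y)‖ ≤ 2 * ‖y‖ * |s - t|) ∧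
    ∀ s, 0 ≤ s → ∀ t, 0 ≤ t → ∀ y, ‖P s (R (R y)) - P t (R (R y)) +
      (s - t) • P t (R y - R (R y))‖ ≤ 4 * ‖y‖ * |s - t| * |s - t| := by
  obtain ⟨S, hS⟩ : ∃ S : A →L[ℝ] A, S = 1 - R := ⟨_, rfl⟩
  have hSa : ∀ y, S y = y - R y := fun y => by rw [hS]; rfl
  have hS2 : ∀ y, ‖S y‖ ^ 2 + ‖R y‖ ^ 2 ≤ ‖y‖ ^ 2 := fun y => by
    rw [hSa, norm_sub_sq_real, real_inner_comm]
    linarith [sq y]
  have hS1 : ∀ y, ‖S y‖ ≤ ‖y‖ := fun y =>
    le_of_sq_le_sq (by linarith [hS2 y, sq_nonneg ‖R y‖]) (norm_nonneg _)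
  have hR1 : ∀ y, ‖R y‖ ≤ ‖y‖ := fun y =>
    le_of_sq_le_sq (by linarith [hS2 y, sq_nonneg ‖S y‖]) (norm_nonneg _)
  have hp : ∀ (k : ℕ) y, (S ^ (k + 1)) y = S ((S ^ k) y) := fun k y => by rw [pow_succ']; rfl
  have hp' : ∀ (k : ℕ) y, (S ^ (k + 1)) y = (S ^ k) (S y) := fun k y => by rw [pow_succ]; rfl
  have hk1 : ∀ (k : ℕ) y, ‖(S ^ k) y‖ ≤ ‖y‖ := fun k y => by
    induction k with
    | zero => simp
    | succ k ih => rw [hp]; exact (hS1 _).trans ih
  have Ssym : ∀ x y, ⟪S x, y⟫_ℝ = ⟪x, S y⟫_ℝ := fun x y => by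
    rw [hSa, hSa, inner_sub_left, inner_sub_right, sym]
  have ksym : ∀ (k : ℕ) x y, ⟪(S ^ k) x, y⟫_ℝ = ⟪x, (S ^ k) y⟫_ℝ := fun k => by
    induction k with
    | zero => simp
    | succ k ih => intro x y; rw [hp, Ssym, ih, hp']
  have kpos : ∀ (k : ℕ) x, 0 ≤ ⟪(S ^ k) x, x⟫_ℝ := fun k => by
    induction k using Nat.twoStepInduction with
    | zero => intro x; simp
    | one =>
      intro x
      rw [pow_one, hSa, inner_sub_left, real_inner_self_eq_norm_sq]
      nlinarith [real_inner_le_norm (R x) x, hR1 x, norm_nonneg x]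
    | more k ih _ => intro x; rw [hp, Ssym, hp']; exact ih _
  have cR : Commute R S := hS ▸ (Commute.one_right R).sub_right (Commute.refl R)
  have cRk : ∀ (k : ℕ) y, R ((S ^ k) y) = (S ^ k) (R y) := fun k y =>
    congrArg (fun L : A →L[ℝ] A => L y) (cR.pow_right k).eq
  have hz : ∀ y, Tendsto (fun k : ℕ => (S ^ k) y) atTop (𝓝 0) := by
    refine nv_zero hk1 hd ?_
    rintro _ ⟨y, rfl⟩
    have h1 : ∀ n, ∑ k ∈ Finset.range n, ‖(S ^ k) (R y)‖ ^ 2 + ‖(S ^ n) y‖ ^ 2 ≤ ‖y‖ ^ 2 :=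
      fun n => by
      induction n with
      | zero => simp
      | succ n ih =>
        rw [Finset.sum_range_succ, hp, ← cRk n]
        linarith [hS2 ((S ^ n) y)]
    have h2 := (summable_of_sum_range_le (fun k => sq_nonneg ‖(S ^ k) (R y)‖)
      fun n => (le_add_of_nonneg_right (sq_nonneg _)).trans (h1 n)).tendsto_atTop_zero
    rw [tendsto_zero_iff_norm_tendsto_zero]
    simpa using h2.sqrt
  let B : ℕ → A →L[ℝ] A := fun n => ∑ k ∈ Finset.range n, S ^ (k + 1)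
  have cB : ∀ C, Commute C S → ∀ n, Commute C (B n) := fun C h n =>
    Commute.sum_right _ _ _ fun k _ => h.pow_right _
  have cBB : ∀ m n, Commute (B m) (B n) := fun m n =>
    cB _ (cB S (Commute.refl S) m).symm n
  have hBR : ∀ n y, B n (R y) = S y - (S ^ (n + 1)) y := fun n y => by
    induction n with
    | zero => simp [B]
    | succ n ih =>
      have : R y = y - S y := by rw [hSa]; abel
      simp only [B, Finset.sum_range_succ, add_apply] at ih ⊢
      rw [ih, this, map_sub, ← hp']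
      abel
  have hB2 : ∀ n y, ‖B n (R y)‖ ≤ 2 * ‖y‖ := fun n y => by
    rw [hBR]
    linarith [norm_sub_le (S y) ((S ^ (n + 1)) y), hS1 y, hk1 (n + 1) y]
  have hzs : ∀ y, Tendsto (fun k : ℕ => (S ^ (k + 1)) y) atTop (𝓝 0) := fun y =>
    (hz y).comp (tendsto_add_atTop_nat 1)
  have hBl : ∀ y, Tendsto (fun n => B n (R y)) atTop (𝓝 (S y)) := fun y => by
    simpa [hBR] using tendsto_const_nhds.sub (hzs y)
  choose T hT using fun n => exists_fl (B := B n)
    (fun x y => by simp only [B, sum_apply, sum_inner, inner_sum, ksym])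
    fun x => by
      simp only [B, sum_apply, sum_inner]
      exact Finset.sum_nonneg fun k _ => kpos _ x
  have hP : ∀ t, ∃ P : A →L[ℝ] A, 0 ≤ t → ∀ x, Tendsto (fun n => T n t x) atTop (𝓝 (P x)) := by
    intro t
    by_cases ht : 0 ≤ t
    · have h1 := nv_cauchy (U := fun n => T n t) (fun n => (hT n).norm_le ht) hd (by
        rintro _ ⟨y, rfl⟩
        refine Metric.cauchySeq_iff.2 fun ε hε => ?_
        obtain ⟨N, hN⟩ := Metric.cauchySeq_iff.1 (hBl y).cauchySeq (ε / (t + 1)) (by positivity)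
        refine ⟨N, fun m hm n hn => ?_⟩
        have h2 := hN n hn m hm
        rw [dist_eq_norm, lt_div_iff₀ (by positivity)] at h2
        rw [dist_eq_norm]
        nlinarith [(hT n).sub_le (hT m) (cBB n m) ht (R y), norm_nonneg (B n (R y) - B m (R y))])
      choose f hf using fun x => cauchySeq_tendsto_of_complete (h1 x)
      exact ⟨continuousLinearMapOfTendsto (fun n => T n t) (tendsto_pi_nhds.2 hf), fun _ => hf⟩
    · exact ⟨0, fun h => absurd h ht⟩
  choose P hP using hP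
  refine ⟨P, fun x => ?_, fun t ht x => ?_, fun s hs t ht x => ?_, fun t ht x => ?_,
    fun t ht y => ?_, fun s hs t ht y => ?_, fun s hs t ht y => ?_⟩
  · exact tendsto_nhds_unique (hP 0 le_rfl x) (by simp [(hT _).zero])
  · exact le_of_tendsto' (hP t ht x).norm fun n => (hT n).norm_le ht x
  · refine tendsto_nhds_unique (hP _ (add_nonneg hs ht) x) ?_
    simpa only [(hT _).add] using
      nv_tendsto (U := fun n => T n s) (fun n => (hT n).norm_le hs) (hP s hs _) (hP t ht x)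
  · refine tendsto_nhds_unique ((R.continuous.tendsto _).comp (hP t ht x)) ?_
    simpa only [Function.comp_def, (hT _).comm R (cB R cR _)] using hP t ht (R x)
  · have h1 : Tendsto (fun n => R y + B n (R y)) atTop (𝓝 y) := by
      simpa [hSa] using (tendsto_const_nhds (x := R y)).add (hBl y)
    refine le_of_tendsto' (nv_tendsto (U := fun n => T n t) (fun n => (hT n).norm_le ht.le)
      (hP t ht.le y) h1).norm fun n => ?_
    have h2 := (hT n).smooth ht (R y)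
    rw [← le_div_iff₀' ht, div_eq_inv_mul] at h2
    rw [map_add]
    linarith [norm_add_le (T n t (R y)) (T n t (B n (R y))), (hT n).norm_le ht.le (R y)]
  · exact le_of_tendsto' ((hP s hs _).sub (hP t ht _)).norm fun n => ((hT n).lip hs ht _).trans
      (mul_le_mul_of_nonneg_right (hB2 n y) (abs_nonneg _))
  · rw [← hSa]
    refine le_of_tendsto' (((hP s hs _).sub (hP t ht _)).add ((nv_tendsto (U := fun n => T n t)
      (fun n => (hT n).norm_le ht) (hP t ht _) (hBl (R y))).const_smul (s - t))).norm fun n =>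
      ((hT n).taylor hs ht _).trans ?_
    have h1 : B n (R (R y)) = R (B n (R y)) :=
      (congrArg (fun L : A →L[ℝ] A => L (R y)) (cB R cR n).eq).symm
    have h2 : ‖B n (B n (R (R y)))‖ ≤ 4 * ‖y‖ := by
      rw [h1]
      linarith [hB2 n (B n (R y)), hB2 n y]
    gcongr

theorem exists_isHeat₂ (hc : IsClosed (Γ : Set (A × K))) (hd : Dense {u | ∃ ξ, (u, ξ) ∈ Γ}) :
    ∃ P, IsHeat₂ Γ P := by
  obtain ⟨R, hR⟩ := nv_res hc
  have key : ∀ x y, ∃ ξ ζ : K, ⟪R x, y⟫_ℝ = ⟪R x, R y⟫_ℝ + ⟪ξ, ζ⟫_ℝ ∧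
      ⟪x, R y⟫_ℝ = ⟪R x, R y⟫_ℝ + ⟪ξ, ζ⟫_ℝ ∧ (x = y → ξ = ζ) := fun x y => by
    obtain ⟨ξ, a⟩ := hR x
    obtain ⟨ζ, b⟩ := hR y
    refine ⟨ξ, ζ, ?_, ?_, fun h => a.unique (h ▸ b)⟩
    · rw [real_inner_comm ζ, b.2 _ _ a.1, inner_sub_left, real_inner_comm y, real_inner_comm (R y)]
      ring
    · rw [a.2 _ _ b.1, inner_sub_left]
      ring
  have sym : ∀ x y, ⟪R x, y⟫_ℝ = ⟪x, R y⟫_ℝ := fun x y => by
    obtain ⟨ξ, ζ, a, b, -⟩ := key x y
    rw [a, b]
  have sq : ∀ y, ‖R y‖ ^ 2 ≤ ⟪R y, y⟫_ℝ := fun y => by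
    obtain ⟨ξ, ζ, a, -, c⟩ := key y y
    rw [a, c rfl, real_inner_self_eq_norm_sq]
    linarith [real_inner_self_nonneg (x := ζ)]
  have hdR : Dense (range R) := by
    have h1 : (LinearMap.range (R : A →ₗ[ℝ] A))ᗮ = ⊥ := by
      refine (Submodule.eq_bot_iff _).2 fun z hz => ?_
      have h2 : R z = 0 := by
        rw [← inner_self_eq_zero (𝕜 := ℝ), ← sym, ← hz _ ⟨R z, rfl⟩]
        rfl
      obtain ⟨ξ, a⟩ := hR z
      have h3 := a.norm_sq
      rw [h2, inner_zero_right, sq_eq_zero_iff, norm_eq_zero] at h3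
      refine hd.eq_zero_of_inner_left ℝ fun v hv => ?_
      obtain ⟨ζ, hζ⟩ := hv
      have h4 := a.2 _ _ hζ
      rw [h3, h2, sub_zero, inner_zero_left] at h4
      exact h4.symm
    exact Submodule.dense_iff_topologicalClosure_eq_top.2
      (Submodule.topologicalClosure_eq_top_iff.2 h1)
  obtain ⟨P, h0, h1, h2, h3, h4, h5, h6⟩ := nv_flow sym sq hdR
  have hr : ∀ t, 0 < t → ∀ x, ∃ z, P t x = R z := fun t ht x => by
    obtain ⟨u, hu, hx⟩ := mem_closure_iff_seq_limit.1 (hdR x)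
    choose y hy using hu
    have hc : CauchySeq fun n => P t (y n) := by
      refine Metric.cauchySeq_iff.2 fun ε hε => ?_
      obtain ⟨N, hN⟩ := Metric.cauchySeq_iff.1 hx.cauchySeq (ε / (1 + t⁻¹)) (by positivity)
      refine ⟨N, fun m hm n hn => ?_⟩
      have h7 := hN m hm n hn
      rw [dist_eq_norm, lt_div_iff₀' (by positivity), ← hy, ← hy, ← map_sub] at h7
      rw [dist_eq_norm, ← map_sub]
      exact (h4 t ht _).trans_lt h7
    obtain ⟨z, hz⟩ := cauchySeq_tendsto_of_complete hc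
    refine ⟨z, tendsto_nhds_unique (((P t).continuous.tendsto x).comp hx) ?_⟩
    simpa only [Function.comp_def, h3 t ht.le, hy] using (R.continuous.tendsto z).comp hz
  refine ⟨P, fun x => ⟨h0 x, Metric.continuousOn_iff.2 fun t ht ε hε => ?_, fun t ht => ?_⟩⟩
  · obtain ⟨_, ⟨y, rfl⟩, hy⟩ := hdR.exists_dist_lt x (show 0 < ε / 3 by positivity)
    refine ⟨ε / 3 / (2 * ‖y‖ + 1), by positivity, fun s hs hst => ?_⟩
    have h7 : ∀ r, 0 ≤ r → dist (P r x) (P r (R y)) ≤ dist x (R y) := fun r hr => by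
      rw [dist_eq_norm, dist_eq_norm, ← map_sub]
      exact h1 r hr _
    have h8 := dist_triangle4 (P s x) (P s (R y)) (P t (R y)) (P t x)
    rw [dist_comm (P t (R y)), dist_eq_norm (P s (R y))] at h8
    rw [Real.dist_eq, lt_div_iff₀ (by positivity)] at hst
    nlinarith [h7 s hs, h7 t ht, h5 s hs t ht y, abs_nonneg (s - t)]
  · have ha : 0 < t / 3 := by positivity
    obtain ⟨z, hz⟩ := hr _ ha x
    obtain ⟨y, hy⟩ := hr _ ha z
    have h7 : ∀ r, 2 * t / 3 ≤ r → P r x = P (r - 2 * t / 3) (R (R y)) := fun r hr => by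
      rw [← hy, h3 _ ha.le, ← hz, ← h2 _ ha.le _ ha.le, ← h2 _ (by linarith) _ (by linarith)]
      congr 2
      ring
    have hb : 0 ≤ t - 2 * t / 3 := by linarith
    obtain ⟨ξ, a⟩ := hR (P (t - 2 * t / 3) (R y))
    refine ⟨P (t - 2 * t / 3) (R y - R (R y)), ⟨ξ, ?_⟩, ?_⟩
    · rw [h7 t (by linarith), map_sub, ← h3 _ hb (R y)]
      exact a
    · rw [hasDerivAt_iff_isLittleO, Asymptotics.isLittleO_iff]
      intro c hc
      filter_upwards [Ioi_mem_nhds (show 2 * t / 3 < t by linarith),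
        Metric.ball_mem_nhds t (show 0 < c / (4 * ‖y‖ + 1) by positivity)] with r h8 h9
      have h10 := h6 (r - 2 * t / 3) (sub_nonneg.2 (le_of_lt h8)) _ hb y
      rw [sub_sub_sub_cancel_right] at h10
      rw [Metric.mem_ball, Real.dist_eq, lt_div_iff₀ (by positivity)] at h9
      rw [h7 r (le_of_lt h8), h7 t (by linarith), smul_neg, sub_neg_eq_add, Real.norm_eq_abs]
      refine h10.trans (mul_le_mul_of_nonneg_right ?_ (abs_nonneg _))
      nlinarith [abs_nonneg (r - t)]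

end Pool.Agent.Lib.MP_570070_gt.An
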