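import Pool.Agent.Lib.MP_570070_gt.An.NvHeat

/-! Existence of the heat flows of a complex whose test forms have codifferentials. -/

open MeasureTheory Filter Topology Set
open scoped InnerProductSpace

namespace Pool.Agent.Lib.MP_570070_gt.An

variable {H : ℕ → Type} [∀ k, NormedAddCommGroup (H k)] [∀ k, InnerProductSpace ℝ (H k)]
  [∀ k, CompleteSpace (H k)] {D : ∀ k, H k → H (k + 1) → Prop}

omit [∀ k, CompleteSpace (H k)] in
theorem isHeat_of_isHeat₂ {k : ℕ} {P : ℝ → H k →L[ℝ] H k} (h : IsHeat₂ (domS D k) P) :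
    IsHeat (dom D k) P := by
  intro f
  obtain ⟨h0, h1, h2⟩ := h f
  refine ⟨h0, h1, fun t ht => ?_⟩
  obtain ⟨g, ⟨ξ, hξ, hL⟩, hd⟩ := h2 t ht
  refine ⟨g, ⟨ξ.fst, ξ.snd, hξ, fun w η' ψ' hw => ?_⟩, hd⟩
  exact hL w (WithLp.toLp 2 (η', ψ')) hw

omit [∀ k, CompleteSpace (H k)] in
/-- An intersection of closed conditions (cases on k). -/
theorem isClosed_domS (k : ℕ) : IsClosed (domS D k : Set (H k × KK H k)) := by
  have c1 : Continuous fun z : H k × KK H k => z.2.fst :=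
    (WithLp.continuous_fst 2 _ _).comp continuous_snd
  have c2 : Continuous fun z : H k × KK H k => z.2.snd :=
    (WithLp.continuous_snd 2 _ _).comp continuous_snd
  have h1 : IsClosed {z : H k × KK H k | WD D k z.1 z.2.fst} := by
    simp only [WD, ofPred_forall]
    exact isClosed_iInter fun φ => isClosed_iInter fun ψ => isClosed_iInter fun _ =>
      isClosed_iInter fun _ => isClosed_eq (continuous_fst.inner continuous_const)
        (c1.inner continuous_const)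
  have h2 : IsClosed {z : H k × KK H k | WCod' D k z.1 z.2.snd} := by
    cases k with
    | zero => exact isClosed_eq c2 continuous_const
    | succ k =>
      have h3 : IsClosed {z : H (k + 1) × KK H (k + 1) | WCod D k z.1 z.2.snd} := by
        simp only [WCod, ofPred_forall]
        exact isClosed_iInter fun a => isClosed_iInter fun b => isClosed_iInter fun _ =>
          isClosed_eq (continuous_const.inner continuous_fst) (continuous_const.inner c2)
      exact h3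
  exact h1.inter h2

/-- `D k a b` gives `WD D k a b`, so test forms are in the domain. -/
theorem exists_heat_of_cod (dense : ∀ k, Dense {a : H k | ∃ b, D k a b})
    (hc : ∀ k (φ : H (k + 1)), (∃ b, D (k + 1) φ b) → ∃ ψ, WCod D k φ ψ) (k : ℕ) :
    ∃ P, IsHeat (dom D k) P := by
  have hd : Dense {u | ∃ ξ, (u, ξ) ∈ domS D k} := by
    refine (dense k).mono ?_
    rintro a ⟨b, hab⟩
    have h1 : WD D k a b := fun φ ψ _ hψ => (hψ a b hab).symm
    cases k with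
    | zero => exact ⟨WithLp.toLp 2 (b, 0), h1, rfl⟩
    | succ k =>
      obtain ⟨ψ, hψ⟩ := hc k a ⟨b, hab⟩
      exact ⟨WithLp.toLp 2 (b, ψ), h1, hψ⟩
  obtain ⟨P, hP⟩ :=
    exists_isHeat₂ (A := H k) (K := KK H k) (Γ := domS D k) (isClosed_domS k) hd
  exact ⟨P, isHeat_of_isHeat₂ hP⟩

/-- Codifferentials of test forms: `D 2 (U₁ β) x → WCod D 0 β (-U₀⁻¹ x)`,
`D 1 a b → WCod D 1 (U₁ a) (U₁⁻¹ b)`, `D 0 f b → WCod D 2 (U₀ f) (-U₁ b)`, and zero in degrees
at least four. -/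
theorem exists_heat_of_star (U₀ : H 0 ≃ₗᵢ[ℝ] H 3) (U₁ : H 1 ≃ₗᵢ[ℝ] H 2)
    (dense : ∀ k, Dense {a : H k | ∃ b, D k a b}) (h4 : ∀ k (z : H (k + 4)), z = 0)
    (t0 : ∀ a, (∃ b, D 0 a b) ↔ ∃ b, D 3 (U₀ a) b) (t1 : ∀ a, (∃ b, D 1 a b) ↔ ∃ b, D 2 (U₁ a) b)
    (s1 : ∀ a b a' b', D 1 a b → D 1 a' b' → ⟪b, U₁ a'⟫_ℝ = ⟪U₁ a, b'⟫_ℝ)
    (s0 : ∀ f b β x, D 0 f b → D 2 (U₁ β) x → ⟪b, β⟫_ℝ = -⟪U₀ f, x⟫_ℝ) (k : ℕ) :
    ∃ P, IsHeat (dom D k) P := by
  refine exists_heat_of_cod dense (fun j φ hφ => ?_) k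
  match j, φ, hφ with
  | 0, φ, hφ =>
    obtain ⟨x, hx⟩ := (t1 φ).1 hφ
    refine ⟨-U₀.symm x, fun f b hb => (s0 f b φ x hb hx).trans ?_⟩
    rw [inner_neg_right, ← U₀.inner_map_map f, U₀.apply_symm_apply]
  | 1, φ, hφ =>
    obtain ⟨a, rfl⟩ := U₁.surjective φ
    obtain ⟨b, hb⟩ := (t1 a).2 hφ
    refine ⟨U₁.symm b, fun a' b' h' => (s1 a' b' a b h' hb).trans ?_⟩
    rw [← U₁.inner_map_map a', U₁.apply_symm_apply]
  | 2, φ, hφ =>
    obtain ⟨f, rfl⟩ := U₀.surjective φ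
    obtain ⟨b, hb⟩ := (t0 f).2 hφ
    refine ⟨-U₁ b, fun a' x h' => ?_⟩
    obtain ⟨β, rfl⟩ := U₁.surjective a'
    have h1 := s0 f b β x hb h'
    rw [inner_neg_right, U₁.inner_map_map, real_inner_comm b β, h1, neg_neg]
    exact real_inner_comm _ _
  | j + 3, φ, _ =>
    refine ⟨0, fun a b _ => ?_⟩
    rw [h4 j φ, inner_zero_right, inner_zero_right]

end Pool.Agent.Lib.MP_570070_gt.An
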