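import Pool.Agent.Lib.MP_570070_gt.An.LP
import Pool.Agent.Lib.MP_570070_gt.An.Disc

/-! The Poincaré inequality for clusters of pieces. -/

open MeasureTheory Filter Topology Set
open scoped ContDiff InnerProductSpace

namespace Pool.Agent.Lib.MP_570070_gt.An

variable {c : Par} {P : Type} {Γ : Gl c P}

theorem inPiece_wt {k : ℕ} (p : P) (Ω : Fam P k) :
    InPiece Γ p fun q y => wt Γ (indicator {p} 1) q y • Ω q y := (lcl_wt p Ω).inPiece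

theorem isT_chi (p : P) : IsT Γ (ofFn (wt Γ (indicator {p} 1))) :=
  (isFn_wt_ind {p}).isT_ofFn (finite_wt ((finite_singleton p).subset
    fun _ h => mem_of_indicator_ne_zero h))

theorem inPiece_chi (p : P) : InPiece Γ p (ofFn (wt Γ (indicator {p} 1))) := fun q y hy h =>
  inPiece_wt (Γ := Γ) p (ofFn fun _ _ => 1) q y hy
    (by simpa only [ofFn, ← f0_smul, mul_one] using h)

/-- The part of the partition of unity that belongs to p, as an L2 function. -/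
noncomputable def UpL2.chi (U : UpL2 Γ) (p : P) : U.H 0 := U.j 0 (ofFn (wt Γ (indicator {p} 1)))

theorem UpL2.inner_chi (U : UpL2 Γ) (p : P) {f : Fam P 0} (hf : IsT Γ f) :
    ⟪U.chi p, U.j 0 f⟫_ℝ = ∫ y in Cell c, eta c y * c0 (f p y) * lam c y ^ 2 := by
  rw [UpL2.chi, U.piece 0 p _ _ (isT_chi p) hf (inPiece_chi p)]
  simp only [ofFn, ipUp_zero_deg, c0_f0, wt_single_self]

theorem exists_LP2 (c : Par) : ∃ C : ℝ, 0 ≤ C ∧ ∀ {P : Type} (Γ : Gl c P) (U : UpL2 Γ) (p : P),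
    ∃ β : U.H 0, ∀ v η, WD U.D 0 v η → ∀ f : U.H 0,
      (⟪v, U.m (wt Γ (indicator {p} 1)) 0 f⟫_ℝ - ⟪U.chi p, f⟫_ℝ * ⟪v, β⟫_ℝ) ^ 2 ≤
        C * ⟪U.m (wt Γ (indicator (Γ.nb p) 1)) 1 η, η⟫_ℝ *
          ‖U.m (wt Γ (indicator {p} 1)) 0 f‖ ^ 2 := by
  obtain ⟨C, hC, H⟩ := exists_LP c
  refine ⟨C, hC, fun {P} Γ U p => ?_⟩
  obtain ⟨β, hβ⟩ := H Γ U p
  refine ⟨β, fun v η hv => U.ind (isClosed_le (by fun_prop) (by fun_prop)) fun f hf => ?_⟩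
  have := hβ v η hv _ ((isFn_wt_ind {p}).isT_smul hf) (inPiece_wt p f)
    fun y hy h => (lcl_wt (Γ := Γ) p f).core hy h
  simp only [c0_smul, wt_single_self] at this
  rwa [U.m_j (isFn_wt_ind {p}) hf, U.inner_chi p hf]

theorem exists_mass (c : Par) : ∃ μ : ℝ, 0 < μ ∧
    ∀ e : Ed c, μ ≤ ∫ y in Cell c, eta c y * kap e y * lam c y ^ 2 := by
  have h : ∀ e : Ed c, 0 < ∫ y in Cell c, eta c y * kap e y * lam c y ^ 2 := fun e => by
    have hc : ContinuousOn (fun y => eta c y * kap e y * lam c y ^ 2) (Cell c) :=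
      ((contDiffOn_eta.continuousOn.mul (contDiffOn_kap e).continuousOn).mul
        (contDiffOn_lam.continuousOn.pow 2)).mono fun _ h => h.1
    rw [setIntegral_pos_iff_support_of_nonneg_ae ((ae_restrict_mem isOpen_Cell.measurableSet).mono
      fun y hy => mul_nonneg (mul_nonneg (eta_nonneg hy.1) (kap_nonneg e y)) (sq_nonneg _))
      (integrableOn_eta (contDiffOn_kap e).continuousOn), inter_comm]
    obtain ⟨y, hy, h0⟩ := exists_sc_eq e (a := 0) (by norm_num) (by norm_num)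
    refine (hc.isOpen_inter_preimage isOpen_Cell isOpen_compl_singleton).measure_pos _
      ⟨y, hy, mul_ne_zero (mul_ne_zero ?_ ?_) (pow_pos (lam_pos hy.1) 2).ne'⟩
    · rw [eta_collar hy.1 (e := e) (by linarith), kap, h0]
      exact (sub_pos.2 (Real.smoothTransition.lt_one_of_lt_one (by norm_num))).ne'
    · rw [kap, h0]
      exact (Real.smoothTransition.pos_of_pos (by norm_num)).ne'
  obtain ⟨e, he⟩ := Finite.exists_min fun e : Ed c => ∫ y in Cell c, eta c y * kap e y * lam c y ^ 2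
  exact ⟨_, h e, he⟩

theorem kap_le_wt (p : P) (e : Ed c) (y : Eu 3) :
    kap e y ≤ wt Γ (indicator {Γ.σ e p} 1) p y := by
  have h0 : indicator {Γ.σ e p} (1 : P → ℝ) p = 0 :=
    indicator_of_notMem (fun h => Γ.ne e p (mem_singleton_iff.1 h).symm) _
  rw [wt, h0, zero_add]
  refine le_trans ?_ (Finset.single_le_sum (fun e' _ => mul_nonneg ?_ (kap_nonneg e' y))
    (Finset.mem_univ e))
  · simp
  · rw [sub_zero]
    exact indicator_nonneg (fun _ _ => zero_le_one) _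

theorem UpL2.m_chi (U : UpL2 Γ) (p q : P) : U.m (wt Γ (indicator {p} 1)) 0 (U.chi q) =
    U.m (wt Γ (indicator {q} 1)) 0 (U.chi p) := by
  rw [UpL2.chi, UpL2.chi, U.m_j (isFn_wt_ind _) (isT_chi q), U.m_j (isFn_wt_ind _) (isT_chi p)]
  simp only [ofFn, ← f0_smul, mul_comm]

theorem UpL2.norm_m_chi (U : UpL2 Γ) (p q : P) :
    ‖U.m (wt Γ (indicator {p} 1)) 0 (U.chi q)‖ ^ 2 ≤ ⟪U.chi p, U.chi q⟫_ℝ := by
  have h := (isFn_wt_ind (Γ := Γ) {p}).isT_smul (isT_chi (Γ := Γ) q)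
  rw [UpL2.chi, UpL2.chi, U.m_j (isFn_wt_ind _) (isT_chi q), U.norm_sq_intF h,
    U.inner_intF (isT_chi p) (isT_chi q)]
  refine intF_mono (h.isC_ip h) ((isT_chi p).isC_ip (isT_chi q)) fun r y hy => ?_
  simp only [ofFn, ipUp_zero_deg, c0_smul, c0_f0]
  have h1 := mul_nonneg (wt_ind_nonneg (Γ := Γ) {p} r hy) (wt_ind_nonneg (Γ := Γ) {q} r hy)
  exact mul_le_of_le_one_right h1 (mul_le_one₀ (wt_ind_le_one _ r hy) (wt_ind_nonneg _ r hy)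
    (wt_ind_le_one _ r hy))

/-- The local inequality and the comparison of the local means of neighbours. -/
theorem exists_LP3 (c : Par) : ∃ C : ℝ, 0 ≤ C ∧ ∀ {P : Type} (Γ : Gl c P) (U : UpL2 Γ),
    ∃ β : P → U.H 0, ∀ v η, WD U.D 0 v η → (∀ p (f : U.H 0),
      (⟪v, U.m (wt Γ (indicator {p} 1)) 0 f⟫_ℝ - ⟪U.chi p, f⟫_ℝ * ⟪v, β p⟫_ℝ) ^ 2 ≤
        C * ⟪U.m (wt Γ (indicator (Γ.nb p) 1)) 1 η, η⟫_ℝ *
          ‖U.m (wt Γ (indicator {p} 1)) 0 f‖ ^ 2) ∧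
      ∀ p e, (⟪v, β p⟫_ℝ - ⟪v, β (Γ.σ e p)⟫_ℝ) ^ 2 ≤
        C * (⟪U.m (wt Γ (indicator (Γ.nb p) 1)) 1 η, η⟫_ℝ +
          ⟪U.m (wt Γ (indicator (Γ.nb (Γ.σ e p)) 1)) 1 η, η⟫_ℝ) := by
  obtain ⟨C, hC, H⟩ := exists_LP2 c
  obtain ⟨μ, hμ, hμ'⟩ := exists_mass c
  have h0 : 0 ≤ 2 * C / μ := by positivity
  refine ⟨C + 2 * C / μ, by positivity, fun {P} Γ U => ?_⟩
  choose β hβ using H Γ U
  refine ⟨β, fun v η hv => ⟨fun p f => (hβ p v η hv f).trans ?_, fun p e => ?_⟩⟩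
  · exact mul_le_mul_of_nonneg_right (mul_le_mul_of_nonneg_right (by linarith) (U.m_pos
      (isFn_wt_ind _) (fun q y hy => wt_ind_nonneg _ q hy) η)) (sq_nonneg _)
  have h1 := hβ p v η hv (U.chi (Γ.σ e p))
  have h2 := hβ (Γ.σ e p) v η hv (U.chi p)
  have h3 := U.norm_m_chi p (Γ.σ e p)
  have h4 : μ ≤ ⟪U.chi p, U.chi (Γ.σ e p)⟫_ℝ := by
    refine le_of_le_of_eq ?_ (U.inner_chi p (isT_chi (Γ.σ e p))).symm
    refine (hμ' e).trans (setIntegral_mono_on (integrableOn_eta (contDiffOn_kap e).continuousOn)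
      (integrableOn_eta (contDiff_c0.comp_contDiffOn ((isT_chi (Γ.σ e p)).smooth p)).continuousOn)
      isOpen_Cell.measurableSet fun y hy => ?_)
    rw [ofFn, c0_f0]
    exact mul_le_mul_of_nonneg_right (mul_le_mul_of_nonneg_left (kap_le_wt p e y)
      (eta_nonneg hy.1)) (sq_nonneg _)
  rw [← U.m_chi p, real_inner_comm (U.chi p)] at h2
  have h5 := U.m_pos (isFn_wt_ind (Γ := Γ) (Γ.nb p)) (fun q y hy => wt_ind_nonneg _ q hy) η
  have h6 := U.m_pos (isFn_wt_ind (Γ := Γ) (Γ.nb (Γ.σ e p)))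
    (fun q y hy => wt_ind_nonneg _ q hy) η
  generalize ⟪U.m (wt Γ (indicator (Γ.nb p) 1)) 1 η, η⟫_ℝ = E at *
  generalize ⟪U.m (wt Γ (indicator (Γ.nb (Γ.σ e p)) 1)) 1 η, η⟫_ℝ = E' at *
  generalize ⟪U.chi p, U.chi (Γ.σ e p)⟫_ℝ = m at *
  generalize ⟪v, U.m (wt Γ (indicator {p} 1)) 0 (U.chi (Γ.σ e p))⟫_ℝ = x at *
  generalize ‖U.m (wt Γ (indicator {p} 1)) 0 (U.chi (Γ.σ e p))‖ ^ 2 = n at *
  generalize ⟪v, β p⟫_ℝ = s at *
  generalize ⟪v, β (Γ.σ e p)⟫_ℝ = s' at *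
  have hm : 0 < m := hμ.trans_le h4
  have h7 : m * (m * (s - s') ^ 2) ≤ m * (2 * C * (E + E')) := by
    nlinarith [sq_nonneg (x - m * s + (x - m * s')), mul_le_mul_of_nonneg_left h3 (mul_nonneg hC h5),
      mul_le_mul_of_nonneg_left h3 (mul_nonneg hC h6)]
  have h8 : (s - s') ^ 2 ≤ 2 * C / μ * (E + E') := by
    rw [div_mul_eq_mul_div, le_div_iff₀ hμ]
    nlinarith [le_of_mul_le_mul_left h7 hm, mul_le_mul_of_nonneg_right h4 (sq_nonneg (s - s'))]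
  nlinarith [mul_nonneg hC (add_nonneg h5 h6)]

variable [Fintype P]

theorem isT_one : IsT Γ (ofFn fun _ _ => (1 : ℝ)) := (IsFn.const 1).isT_ofFn (toFinite _)

theorem UpL2.chi_eq (U : UpL2 Γ) (p : P) :
    U.chi p = U.m (wt Γ (indicator {p} 1)) 0 (U.j 0 (ofFn fun _ _ => 1)) := by
  rw [UpL2.chi, U.m_j (isFn_wt_ind _) isT_one]
  exact congrArg _ (funext₂ fun q y => by rw [ofFn, ofFn, ← f0_smul, mul_one])

theorem UpL2.sum_m (U : UpL2 Γ) {k : ℕ} (f : U.H k) :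
    ∑ p, U.m (wt Γ (indicator {p} 1)) k f = f := by
  rw [← U.m_sum _ fun p _ => isFn_wt_ind {p}, U.m_congr (IsFn.sum _ fun p _ => isFn_wt_ind {p})
    (IsFn.const 1) fun q y hy => sum_wt_single _ hy (Finset.mem_univ _)
      fun _ _ => Finset.mem_univ _, U.m_const, one_smul]

theorem UpL2.sum_inner_m (U : UpL2 Γ) {k : ℕ} (f : U.H k) :
    ∑ p, ⟪U.m (wt Γ (indicator {p} 1)) k f, f⟫_ℝ = ‖f‖ ^ 2 := by
  rw [← sum_inner, U.sum_m, real_inner_self_eq_norm_sq]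

theorem UpL2.sum_nb (U : UpL2 Γ) {k : ℕ} (f : U.H k) :
    ∑ p, ⟪U.m (wt Γ (indicator (Γ.nb p) 1)) k f, f⟫_ℝ ≤ (Fintype.card (Ed c) + 1) * ‖f‖ ^ 2 := by
  classical
  have h : ∀ q, ∑ p, indicator (Γ.nb p) (1 : P → ℝ) q ≤ Fintype.card (Ed c) + 1 := fun q => by
    refine (Finset.sum_le_sum (g := fun p => (∑ e, if Γ.σ e q = p then 1 else 0) +
      if q = p then 1 else 0) fun p _ => ?_).trans_eq ?_
    · have h1 : ∀ e, (0 : ℝ) ≤ if Γ.σ e q = p then 1 else 0 := fun e => by positivity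
      have h2 := Finset.sum_nonneg (s := Finset.univ) fun e _ => h1 e
      have h3 : (0 : ℝ) ≤ if q = p then 1 else 0 := by positivity
      by_cases h : q ∈ Γ.nb p
      · rw [indicator_of_mem h, Pi.one_apply]
        rcases h with h | ⟨e, h⟩
        · rw [if_pos h]
          linarith
        · have h4 := Finset.single_le_sum (fun e _ => h1 e) (Finset.mem_univ e)
          rw [if_pos h] at h4
          linarith
      · rw [indicator_of_notMem h]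
        linarith
    · rw [Finset.sum_add_distrib, Finset.sum_comm]
      simp
  rw [← sum_inner, ← U.m_sum _ fun p _ => isFn_wt_ind (Γ.nb p)]
  refine U.m_le_const (IsFn.sum _ fun p _ => isFn_wt_ind _) (fun q y hy => ?_) f
  exact (wt_sum Finset.univ (fun p => indicator (Γ.nb p) (1 : P → ℝ)) q y).symm.trans_le
    (wt_le (a := fun q => ∑ p, indicator (Γ.nb p) (1 : P → ℝ) q) (h q) (fun e => h _) hy)

theorem exists_poin (c : Par) : ∃ C : ℝ, 0 ≤ C ∧ ∀ {P : Type} [Fintype P] [DecidableEq P]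
    (Γ : Gl c P) (U : UpL2 Γ) (cl : P → P) (Λ : ℕ), 1 ≤ Λ →
    (∀ x, (Finset.univ.filter fun p => cl p = x).card ≤ Λ) →
    (∀ p, Relation.ReflTransGen (fun a b => cl a = cl p ∧ cl b = cl p ∧ ∃ e, Γ.σ e a = b) p
      (cl p)) → ∀ v η, WD U.D 0 v η → ∀ f : U.H 0,
    (∀ x, ⟪∑ p ∈ Finset.univ.filter fun p => cl p = x, U.chi p, f⟫_ℝ = 0) →
    ⟪v, f⟫_ℝ ^ 2 ≤ C * (Λ : ℝ) ^ 2 * ‖η‖ ^ 2 * ‖f‖ ^ 2 := by
  obtain ⟨C, hC, H⟩ := exists_LP3 c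
  obtain ⟨V, hV⟩ : ∃ V, V = ∫ y in Cell c, eta c y * 1 * lam c y ^ 2 := ⟨_, rfl⟩
  have hV0 : 0 ≤ V := hV ▸ setIntegral_nonneg isOpen_Cell.measurableSet fun y hy =>
    mul_nonneg (mul_nonneg (eta_nonneg hy.1) zero_le_one) (sq_nonneg _)
  obtain ⟨K, hK⟩ : ∃ K : ℝ, K = Fintype.card (Ed c) := ⟨_, rfl⟩
  have hK0 : 0 ≤ K := hK ▸ Nat.cast_nonneg _
  refine ⟨2 * (C * (K + 1)) + 2 * (V * (K * (C * (2 * K * (K + 1))))), by positivity, ?_⟩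
  intro P _ _ Γ U cl Λ hΛ hcl hc v η hv f hf
  obtain ⟨β, hβ⟩ := H Γ U
  obtain ⟨h1, h2⟩ := hβ v η hv
  have hw := fun p : P => isFn_wt_ind (Γ := Γ) {p}
  have hE := fun p => U.m_pos (isFn_wt_ind (Γ := Γ) (Γ.nb p))
    (fun q y hy => wt_ind_nonneg _ q hy) η
  have hS := U.sum_nb η
  rw [← hK] at hS
  have e1 : ∑ p, ⟪U.chi p, f⟫_ℝ * ⟪v, β (cl p)⟫_ℝ = 0 := by
    rw [← Finset.sum_fiberwise Finset.univ cl]
    refine Finset.sum_eq_zero fun x _ => ?_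
    rw [Finset.sum_congr rfl (g := fun p => ⟪U.chi p, f⟫_ℝ * ⟪v, β x⟫_ℝ)
      fun p hp => by rw [(Finset.mem_filter.1 hp).2], ← Finset.sum_mul, ← sum_inner, hf, zero_mul]
  have e2 : ⟪v, f⟫_ℝ =
      ∑ p, (⟪v, U.m (wt Γ (indicator {p} 1)) 0 f⟫_ℝ - ⟪U.chi p, f⟫_ℝ * ⟪v, β p⟫_ℝ) +
        ∑ p, ⟪U.chi p, f⟫_ℝ * (⟪v, β p⟫_ℝ - ⟪v, β (cl p)⟫_ℝ) := by
    simp only [mul_sub, Finset.sum_sub_distrib, e1]
    rw [← inner_sum, U.sum_m]
    ring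
  have b1 : ∑ p, ‖U.m (wt Γ (indicator {p} 1)) 0 f‖ ^ 2 ≤ ‖f‖ ^ 2 := by
    rw [← U.sum_inner_m f]
    refine Finset.sum_le_sum fun p _ => ?_
    rw [U.norm_m_sq (hw p)]
    refine (U.m_le (hw p).sq (hw p) (t := 1) (fun q y hy => ?_) f).trans_eq (one_mul _)
    nlinarith [wt_ind_nonneg (Γ := Γ) {p} q hy, wt_ind_le_one (Γ := Γ) {p} q hy]
  have b2 : (∑ p, (⟪v, U.m (wt Γ (indicator {p} 1)) 0 f⟫_ℝ - ⟪U.chi p, f⟫_ℝ * ⟪v, β p⟫_ℝ)) ^ 2 ≤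
      C * ((K + 1) * ‖η‖ ^ 2) * ‖f‖ ^ 2 := by
    refine (Finset.sum_sq_le_sum_mul_sum_of_sq_le_mul _ (fun p _ => mul_nonneg hC (hE p))
      (fun p _ => sq_nonneg _) fun p _ => h1 p f).trans ?_
    rw [← Finset.mul_sum]
    exact mul_le_mul (mul_le_mul_of_nonneg_left hS hC) b1
      (Finset.sum_nonneg fun p _ => sq_nonneg _) (by positivity)
  have b3 : ∑ p, ⟪U.chi p, f⟫_ℝ ^ 2 ≤ V * ‖f‖ ^ 2 := by
    rw [← U.sum_inner_m f, Finset.mul_sum]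
    refine Finset.sum_le_sum fun p _ => ?_
    have := U.inner_m_sq_le (hw p) (fun q y hy => wt_ind_nonneg _ q hy)
      (U.j 0 (ofFn fun _ _ => 1)) f
    rw [← U.chi_eq, U.inner_chi p isT_one] at this
    simpa only [hV, ofFn, c0_f0] using this
  have b4 : ∑ x, ∑ e, (⟪v, β x⟫_ℝ - ⟪v, β (Γ.σ e x)⟫_ℝ) ^ 2 ≤
      C * (2 * K * ((K + 1) * ‖η‖ ^ 2)) := by
    refine (Finset.sum_le_sum fun x _ => Finset.sum_le_sum fun e _ => h2 x e).trans ?_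
    rw [Finset.sum_comm]
    refine (Finset.sum_le_sum (g := fun _ => C * (2 * ((K + 1) * ‖η‖ ^ 2))) fun e _ => ?_).trans_eq
      (by rw [Finset.sum_const, Finset.card_univ, nsmul_eq_mul, ← hK]; ring)
    have h3 : ∑ p, ⟪U.m (wt Γ (indicator (Γ.nb (Γ.σ e p)) 1)) 1 η, η⟫_ℝ =
        ∑ p, ⟪U.m (wt Γ (indicator (Γ.nb p) 1)) 1 η, η⟫_ℝ :=
      Equiv.sum_comp (Function.Involutive.toPerm _ (Γ.invol e))
        fun p => ⟪U.m (wt Γ (indicator (Γ.nb p) 1)) 1 η, η⟫_ℝ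
    rw [← Finset.mul_sum, Finset.sum_add_distrib, h3]
    exact mul_le_mul_of_nonneg_left (by linarith) hC
  have b5 := discrete_poincare Γ.σ cl hcl hc fun p => ⟪v, β p⟫_ℝ
  rw [← hK] at b5
  have b6 : (∑ p, ⟪U.chi p, f⟫_ℝ * (⟪v, β p⟫_ℝ - ⟪v, β (cl p)⟫_ℝ)) ^ 2 ≤ V * ‖f‖ ^ 2 *
      ((Λ : ℝ) ^ 2 * K * (C * (2 * K * ((K + 1) * ‖η‖ ^ 2)))) :=
    (Finset.sum_mul_sq_le_sq_mul_sq _ _ _).trans (mul_le_mul b3 (b5.trans
      (mul_le_mul_of_nonneg_left b4 (by positivity))) (Finset.sum_nonneg fun p _ => sq_nonneg _)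
      (by positivity))
  have b7 : (1 : ℝ) ≤ (Λ : ℝ) ^ 2 := one_le_pow₀ (by exact_mod_cast hΛ)
  have b8 : 0 ≤ C * ((K + 1) * ‖η‖ ^ 2) * ‖f‖ ^ 2 := by positivity
  have b9 := add_le_add (b2.trans (le_mul_of_one_le_right b8 b7)) b6
  rw [e2]
  refine add_sq_le.trans ((mul_le_mul_of_nonneg_left b9 zero_le_two).trans_eq ?_)
  ring

end Pool.Agent.Lib.MP_570070_gt.An
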