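import Pool.Agent.Lib.MP_570070_gt.An.UInt
import Pool.Agent.Lib.MP_570070_gt.An.AlphaB
import Pool.Agent.Lib.MP_570070_gt.An.StarPt

open MeasureTheory Filter Topology Set
open scoped ContDiff InnerProductSpace

namespace Pool.Agent.Lib.MP_570070_gt.An

variable {c : Par} {P : Type} {Γ : Gl c P}

/-- The properties of exists_alpha. -/
structure IsAlpha (c : Par) (A : Ed c → Eu 3 → Eu 3) (γ : Eu 3 → ℝ) : Prop where
  smooth : ∀ e, ContDiffOn ℝ ∞ (A e) (DR c)
  cont : ContinuousOn γ (DR c)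
  planar : ∀ e (y y' : Eu 3), y' 0 = y 0 → y' 1 = y 1 → A e y' = A e y
  two : ∀ e y, A e y 2 = 0
  collar : ∀ e, ∀ y ∈ DR c, sc e y < 1 →
    A e y = ![-(y 1 / rsq e y), (y 0 - ctr e) / rsq e y, 0] ∧ ∀ e', e' ≠ e → A e' y = 0
  curl_eq : ∀ e, ∀ y ∈ DR c, curl (A e) y = ![0, 0, -(sg e * γ y)]
  nonneg : ∀ y ∈ DR c, 0 ≤ γ y
  supp : ∀ y ∈ DR c, γ y ≠ 0 → 1 ≤ sc (none : Ed c) y ∧ sc (none : Ed c) y ≤ 2
  pos : ∃ y ∈ Cell c, 0 < γ y

theorem exists_isAlpha (c : Par) : ∃ A γ, IsAlpha c A γ := by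
  obtain ⟨A, γ, h1, h2, h3, h4, h5, h6, h7, h8, h9⟩ := exists_alpha c
  exact ⟨A, γ, h1, h2, h3, h4, h5, h6, h7, h8, h9⟩

/-- The test form of v: v p dθ + ∑ ε e v (σ e p) A e. -/
noncomputable def om (Γ : Gl c P) (A : Ed c → Eu 3 → Eu 3) (v : P → ℝ) : Fam P 1 :=
  fun p y => f1 (v p • bas 2 + ∑ e, (c.ε e * v (Γ.σ e p)) • A e y)

variable {A : Ed c → Eu 3 → Eu 3} {γ : Eu 3 → ℝ}

theorem om_add (u v : P → ℝ) : om Γ A (u + v) = om Γ A u + om Γ A v := by
  funext p y
  simp only [om, Pi.add_apply, ← f1_add, mul_add, add_smul, Finset.sum_add_distrib]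
  rw [add_add_add_comm]
theorem om_smul (t : ℝ) (v : P → ℝ) : om Γ A (t • v) = t • om Γ A v := by
  funext p y
  simp only [om, Pi.smul_apply, ← f1_smul, smul_add, Finset.smul_sum, smul_smul, smul_eq_mul,
    mul_left_comm]

theorem tf_smooth (h : IsAlpha c A γ) (v : P → ℝ) (p : P) :
    ContDiffOn ℝ ∞ (om Γ A v p) (DR c) :=
  contDiff_f1.comp_contDiffOn
    (contDiffOn_const.add (ContDiffOn.sum fun e _ => (h.smooth e).const_smul _))

theorem tf_collar (h : IsAlpha c A γ) (v : P → ℝ) (p : P) {e : Ed c} {y : Eu 3} (hy : y ∈ DR c)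
    (he : sc e y < 1) : c1 (om Γ A v p y) = ![-(c.ε e * v (Γ.σ e p) * (y 1 / rsq e y)),
      c.ε e * v (Γ.σ e p) * ((y 0 - ctr e) / rsq e y), v p] := by
  obtain ⟨h1, h2⟩ := h.collar e y hy he
  rw [om, c1_f1, Finset.sum_eq_single e (fun e' _ hne => by rw [h2 e' hne, smul_zero])
    (fun h3 => absurd (Finset.mem_univ e) h3), h1]
  ext i
  fin_cases i <;> simp [bas]

theorem tf_two (h : IsAlpha c A γ) (v : P → ℝ) (p : P) (y : Eu 3) :
    c1 (om Γ A v p y) 2 = v p := by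
  simp [om, bas, h.two]

theorem tf_curl_const (b y : Eu 3) : curl (fun _ => b) y = 0 := by
  ext i
  fin_cases i <;> simp [curl, pd]

theorem tf_curl_smul (t : ℝ) {a : Eu 3 → Eu 3} {y : Eu 3} (ha : DifferentiableAt ℝ a y) :
    curl (fun z => t • a z) y = t • curl a y := by
  rw [curl_smul (differentiableAt_const t) ha]
  ext i
  fin_cases i <;> simp [pd]

theorem tf_curl_sum {ι : Type} (s : Finset ι) {a : ι → Eu 3 → Eu 3} {y : Eu 3}
    (ha : ∀ i, DifferentiableAt ℝ (a i) y) :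
    curl (fun z => ∑ i ∈ s, a i z) y = ∑ i ∈ s, curl (a i) y := by
  classical
  induction s using Finset.induction_on with
  | empty => simpa using tf_curl_const 0 y
  | insert i s hi ih =>
    simp only [Finset.sum_insert hi]
    rw [curl_add (ha i) (DifferentiableAt.fun_sum fun j _ => ha j), ih]

/-- On the collar e only the term e of the sum survives at y and at y' (Flip.sc_lt, Flip.symm);
ext v, f1_apply, fl_apply, Γ.invol, eps_sq, rsq e y' = w0' ^ 2 + w1' ^ 2. -/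
theorem IsAlpha.isT_om [Finite P] (h : IsAlpha c A γ) (v : P → ℝ) : IsT Γ (om Γ A v) := by
  refine ⟨tf_smooth h v, fun p y _ => ?_, fun p e y y' hf => ?_, Set.toFinite _⟩
  · simp only [om, fun e => h.planar e y (y + An.per) (by simp) (by simp)]
  · have h1 := (hf.1 e).1.ne'
    have h2 := (hf.2.1 e).1.ne'
    apply starpt_inj1
    ext i
    rw [starpt_c1, tf_collar h v p hf.1 hf.sc_lt, tf_collar h v _ hf.2.1 hf.symm.sc_lt, Γ.invol]
    fin_cases i <;> simp only [Fin.zero_eta, Fin.mk_one, Fin.reduceFinMk, starpt_b0, starpt_b1,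
      starpt_b2, Matrix.cons_val_zero, Matrix.cons_val_one, Matrix.cons_val]
    · ring
    · ring
    · rcases c.hε e with h | h <;> rw [h] <;> field_simp <;> simp only [rsq] <;> ring

/-- f2_c2, c2_extDeriv, linearity of curl. -/
theorem IsAlpha.dF_om (h : IsAlpha c A γ) (v : P → ℝ) (p : P) {y : Eu 3} (hy : y ∈ DR c) :
    dF (om Γ A v) p y = f2 ![0, 0, -(ahat Γ v p * γ y)] := by
  have hn := isOpen_DR.mem_nhds hy
  have hA : ∀ e, DifferentiableAt ℝ (A e) y := fun e =>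
    ((h.smooth e).contDiffAt hn).differentiableAt (by simp)
  apply starpt_inj2
  rw [dF, c2_extDeriv (((tf_smooth h v p).contDiffAt hn).differentiableAt (by simp)), c2_f2]
  simp only [om, c1_f1]
  rw [curl_add (differentiableAt_const _)
    (DifferentiableAt.fun_sum fun e _ => (hA e).fun_const_smul _), tf_curl_const, zero_add,
    tf_curl_sum _ fun e => (hA e).fun_const_smul _]
  simp only [tf_curl_smul _ (hA _), h.curl_eq _ y hy]
  ext i
  fin_cases i
  · simp
  · simp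
  · simp only [Fin.reduceFinMk, Finset.sum_apply, Pi.smul_apply, Matrix.cons_val, smul_eq_mul,
      ahat, Finset.sum_mul, ← Finset.sum_neg_distrib]
    exact Finset.sum_congr rfl fun e _ => by ring

theorem tf_supp (h : IsAlpha c A γ) {y : Eu 3} (hy : y ∈ DR c) (h0 : γ y ≠ 0) (e : Ed c) :
    1 ≤ sc e y := by
  obtain ⟨h1, h2⟩ := h.supp y hy h0
  by_cases he : none = e
  · exact he ▸ h1
  · linarith [sc_disj hy he h2]

/-- sc_disj and eta_eq_one. -/
theorem IsAlpha.eta_eq (h : IsAlpha c A γ) {y : Eu 3} (hy : y ∈ DR c) (h0 : γ y ≠ 0) :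
    eta c y = 1 := by
  exact eta_eq_one fun e => by linarith [tf_supp h hy h0 e]

/-- Continuous, non-negative, integrable (integrableOn_cell) and positive at a point of the open
cell (setIntegral_pos_iff_support_of_nonneg_ae or integral_pos_of_integrable_nonneg_nonzero). -/
theorem IsAlpha.integral_pos (h : IsAlpha c A γ) : 0 < ∫ y in Cell c, γ y := by
  have h1 : IntegrableOn γ (Cell c) :=
    integrableOn_cell h.cont (a := 1) (by norm_num) fun y hy h0 => tf_supp h hy h0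
  rw [setIntegral_pos_iff_support_of_nonneg_ae
    ((ae_restrict_iff' isOpen_Cell.measurableSet).2 (ae_of_all _ fun y hy => h.nonneg y hy.1)) h1]
  have h2 : IsOpen (Cell c ∩ γ ⁻¹' Ioi 0) :=
    (h.cont.mono fun y hy => hy.1).isOpen_inter_preimage isOpen_Cell isOpen_Ioi
  obtain ⟨y, hy, hy'⟩ := h.pos
  exact (h2.measure_pos volume ⟨y, hy, hy'⟩).trans_le
    (measure_mono fun z hz => ⟨ne_of_gt hz.2, hz.1⟩)

theorem tf_eta (h : IsAlpha c A γ) {y : Eu 3} (hy : y ∈ DR c) : eta c y * γ y = γ y := by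
  by_cases h0 : γ y = 0
  · rw [h0, mul_zero]
  · rw [h.eta_eq hy h0, one_mul]

theorem IsAlpha.inner_d_star [Fintype P] (h : IsAlpha c A γ) (U : UpL2 Γ) (u v : P → ℝ) :
    ⟪U.j 2 (dF (om Γ A v)), U.j 2 fun p y => st1 c y (om Γ A u p y)⟫_ℝ =
      -((∫ y in Cell c, γ y) * ∑ p, ahat Γ v p * u p) := by
  rw [U.inner_intF (h.isT_om v).dF (h.isT_om u).st1,
    intF_eq_sum Finset.univ fun p _ => Finset.mem_univ p, Finset.mul_sum, ← Finset.sum_neg_distrib]
  refine Finset.sum_congr rfl fun p _ => ?_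
  rw [← integral_mul_const, ← integral_neg]
  refine setIntegral_congr_fun isOpen_Cell.measurableSet fun y hy => ?_
  have h1 := starpt_ne hy.1
  have h2 := tf_eta h hy.1
  simp only [h.dF_om v p hy.1, ipUp_two_deg, st1, c2_f2, tf_two h, Matrix.cons_val_zero,
    Matrix.cons_val_one, Matrix.cons_val]
  generalize lam c y ^ 2 = L at h1
  field_simp
  linear_combination (-(ahat Γ v p * u p)) * h2

theorem IsAlpha.norm_d [Fintype P] (h : IsAlpha c A γ) (U : UpL2 Γ) (v : P → ℝ) :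
    ‖U.j 2 (dF (om Γ A v))‖ ^ 2 =
      (∫ y in Cell c, γ y ^ 2 * (lam c y ^ 2)⁻¹) * ∑ p, ahat Γ v p ^ 2 := by
  rw [U.norm_sq_intF (h.isT_om v).dF,
    intF_eq_sum Finset.univ fun p _ => Finset.mem_univ p, Finset.mul_sum]
  refine Finset.sum_congr rfl fun p _ => ?_
  rw [← integral_mul_const]
  refine setIntegral_congr_fun isOpen_Cell.measurableSet fun y hy => ?_
  have h1 := starpt_ne hy.1
  have h2 := tf_eta h hy.1
  simp only [h.dF_om v p hy.1, ipUp_two_deg, c2_f2, Matrix.cons_val_zero,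
    Matrix.cons_val_one, Matrix.cons_val]
  generalize lam c y ^ 2 = L at h1
  field_simp
  linear_combination (ahat Γ v p ^ 2 * γ y) * h2

end Pool.Agent.Lib.MP_570070_gt.An
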