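import Pool.Agent.Lib.MP_570070_gt.An.Geo
import Pool.Agent.Lib.MP_570070_gt.An.ADefs

/-! Definitions for the upstairs calculus. -/

open MeasureTheory Filter Topology Set
open scoped ContDiff InnerProductSpace

namespace Pool.Agent.Lib.MP_570070_gt.An

noncomputable section

variable {c : Par} {P P' : Type} {k : ℕ}

/-- Exterior product of a covector and a form. -/
def wedge (ℓ : Eu 3 →L[ℝ] ℝ) (α : Alt 3 k) : Alt 3 (k + 1) :=
  ContinuousAlternatingMap.alternatizeUncurryFin (ℓ.smulRight α)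

/-- The coordinate covectors. -/
def dx (i : Fin 3) : Eu 3 →L[ℝ] ℝ := ContinuousLinearMap.proj i

/-- Forms from components. -/
def f0 (h : ℝ) : Alt 3 0 := ContinuousAlternatingMap.constOfIsEmpty ℝ (Eu 3) (Fin 0) h
def f1 (a : Eu 3) : Alt 3 1 := ∑ i, a i • wedge (dx i) (f0 1)
def f2 (b : Eu 3) : Alt 3 2 := b 0 • wedge (dx 1) (f1 (bas 2)) + b 1 • wedge (dx 2) (f1 (bas 0)) +
  b 2 • wedge (dx 0) (f1 (bas 1))
def f3 (h : ℝ) : Alt 3 3 := h • wedge (dx 0) (f2 (bas 0))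

/-- Components of forms. -/
def c0 (α : Alt 3 0) : ℝ := α ![]
def c1 (α : Alt 3 1) : Eu 3 := fun i => α ![bas i]
def c2 (α : Alt 3 2) : Eu 3 := ![α ![bas 1, bas 2], α ![bas 2, bas 0], α ![bas 0, bas 1]]
def c3 (α : Alt 3 3) : ℝ := α ![bas 0, bas 1, bas 2]

/-- Partial derivatives, gradient, curl, divergence in coordinates. -/
def pd (i : Fin 3) (F : Eu 3 → ℝ) (y : Eu 3) : ℝ := fderiv ℝ F y (bas i)
def grad (F : Eu 3 → ℝ) (y : Eu 3) : Eu 3 := fun i => pd i F y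
def curl (a : Eu 3 → Eu 3) (y : Eu 3) : Eu 3 :=
  ![pd 1 (fun z => a z 2) y - pd 2 (fun z => a z 1) y,
    pd 2 (fun z => a z 0) y - pd 0 (fun z => a z 2) y,
    pd 0 (fun z => a z 1) y - pd 1 (fun z => a z 0) y]
def dvg (b : Eu 3 → Eu 3) (y : Eu 3) : ℝ := ∑ i, pd i (fun z => b z i) y

/-- The Hodge star in the four degrees. -/
def st0 (c : Par) (y : Eu 3) (α : Alt 3 0) : Alt 3 3 := f3 (lam c y ^ 2 * c0 α)
def st1 (c : Par) (y : Eu 3) (α : Alt 3 1) : Alt 3 2 :=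
  f2 ![c1 α 0, c1 α 1, lam c y ^ 2 * c1 α 2]
def st2 (c : Par) (y : Eu 3) (α : Alt 3 2) : Alt 3 1 :=
  f1 ![c2 α 0, c2 α 1, (lam c y ^ 2)⁻¹ * c2 α 2]
def st3 (c : Par) (y : Eu 3) (α : Alt 3 3) : Alt 3 0 := f0 ((lam c y ^ 2)⁻¹ * c3 α)

/-- Functions read in all pieces. -/
abbrev Fn (P : Type) : Type := P → Eu 3 → ℝ

/-- Smooth functions that are bounded with bounded gradient. -/
structure IsFn (Γ : Gl c P) (w : Fn P) : Prop where
  smooth : ∀ p, ContDiffOn ℝ ∞ (w p) (DR c)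
  per : ∀ p, ∀ y ∈ DR c, w p (y + per) = w p y
  flip : ∀ p e y y', Flip e y y' → w p y = w (Γ.σ e p) y'
  bdd : ∃ B, ∀ p, ∀ y ∈ DR c, |w p y| ≤ B ∧ gsq c y (fderiv ℝ (w p) y) ≤ B

/-- Pull back along f and multiply by w. -/
structure Tr (Γ : Gl c P) (Γ' : Gl c P') where
  f : P' → P
  w : Fn P'
  fn : IsFn Γ' w
  eqv : ∀ p e, ∀ y ∈ DR c, w p y ≠ 0 → sc e y < 1 → f (Γ'.σ e p) = Γ.σ e (f p)
  inj : ∀ p q, (∃ y ∈ DR c, w p y ≠ 0) → (∃ y ∈ DR c, w q y ≠ 0) → f p = f q → p = q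

variable {Γ : Gl c P} {Γ' : Gl c P'}

def Tr.mul (τ : Tr Γ Γ') (Ω : Fam P k) : Fam P' k := fun p y => τ.w p y • Ω (τ.f p) y

def Tr.wed (τ : Tr Γ Γ') (Ω : Fam P k) : Fam P' (k + 1) :=
  fun p y => wedge (fderiv ℝ (τ.w p) y) (Ω (τ.f p) y)

/-- Multiplication by a function. -/
def Tr.ofFn {w : Fn P} (hw : IsFn Γ w) : Tr Γ Γ where
  f := id
  w := w
  fn := hw
  eqv _ _ _ _ _ _ := rfl
  inj _ _ _ _ h := h

/-- τ' is the adjoint of τ. -/
def Tr.Pair (τ : Tr Γ Γ') (τ' : Tr Γ' Γ) : Prop :=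
  (∀ p, ∀ y ∈ DR c, τ.w p y ≠ 0 → τ'.f (τ.f p) = p ∧ τ'.w (τ.f p) y = τ.w p y) ∧
  ∀ p, ∀ y ∈ DR c, τ'.w p y ≠ 0 → τ.f (τ'.f p) = p ∧ τ.w (τ'.f p) y = τ'.w p y

/-- The function that interpolates the values a p across the collars. -/
def wt (Γ : Gl c P) (a : P → ℝ) : Fn P :=
  fun p y => a p + ∑ e, (a (Γ.σ e p) - a p) * kap e y

/-- The integral over the manifold of a function read in all pieces. -/
def intF (c : Par) (F : Fn P) : ℝ := ∑ᶠ p, ∫ y in Cell c, eta c y * F p y * lam c y ^ 2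

/-- Continuous and living on finitely many pieces. -/
structure IsC (c : Par) (F : Fn P) : Prop where
  cont : ∀ p, ContinuousOn (F p) (DR c)
  fin : {p | ∃ y ∈ DR c, F p y ≠ 0}.Finite

open Classical in
/-- The operator on L2 that extends a map of families (zero if there is none). -/
def extOp (U : UpL2 Γ) (U' : UpL2 Γ') {k l : ℕ} (Φ : Fam P k → Fam P' l) :
    U.H k →L[ℝ] U'.H l :=
  if h : ∃ M : U.H k →L[ℝ] U'.H l, ∀ Ω, IsT Γ Ω → M (U.j k Ω) = U'.j l (Φ Ω) then h.choose else 0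

def Tr.M (τ : Tr Γ Γ') (U : UpL2 Γ) (U' : UpL2 Γ') (k : ℕ) : U.H k →L[ℝ] U'.H k :=
  extOp U U' τ.mul

def Tr.E (τ : Tr Γ Γ') (U : UpL2 Γ) (U' : UpL2 Γ') (k : ℕ) : U.H k →L[ℝ] U'.H (k + 1) :=
  extOp U U' τ.wed

/-- Multiplication by a function on L2. -/
def UpL2.m (U : UpL2 Γ) (w : Fn P) (k : ℕ) : U.H k →L[ℝ] U.H k :=
  extOp U U fun Ω p y => w p y • Ω p y

/-- The operator on pairs (derivative, codifferential). -/
def pairOp {H H' : ℕ → Type} [∀ k, NormedAddCommGroup (H k)] [∀ k, InnerProductSpace ℝ (H k)]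
    [∀ k, NormedAddCommGroup (H' k)] [∀ k, InnerProductSpace ℝ (H' k)]
    (T : ∀ k, H k →L[ℝ] H' k) (k : ℕ) : KK H k →L[ℝ] KK H' k :=
  (WithLp.prodContinuousLinearEquiv 2 ℝ (H' (k + 1)) (H' (k - 1))).symm.toContinuousLinearMap ∘L
    ((T (k + 1)).prodMap (T (k - 1))) ∘L
      (WithLp.prodContinuousLinearEquiv 2 ℝ (H (k + 1)) (H (k - 1))).toContinuousLinearMap

/-- The defect of the codifferential. -/
def Tr.cod (τ' : Tr Γ' Γ) (U : UpL2 Γ) (U' : UpL2 Γ') : ∀ k, U.H k →L[ℝ] U'.H (k - 1)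
  | 0 => 0
  | k + 1 => ContinuousLinearMap.adjoint (τ'.E U' U k)

/-- The defect on pairs. -/
def defect (τ : Tr Γ Γ') (τ' : Tr Γ' Γ) (U : UpL2 Γ) (U' : UpL2 Γ') (k : ℕ) :
    U.H k →L[ℝ] KK U'.H k :=
  (WithLp.prodContinuousLinearEquiv 2 ℝ (U'.H (k + 1)) (U'.H (k - 1))).symm.toContinuousLinearMap
    ∘L (τ.E U U' k).prod (-τ'.cod U U' k)

open Classical in
/-- Extension to the neighbours of a form given in the piece p₀. -/
def extP (Γ : Gl c P) (p₀ : P) (α : Eu 3 → Alt 3 k) : Fam P k := fun p y =>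
  if p = p₀ then α y else ∑ e, if Γ.σ e p = p₀ ∧ sc e y < 1 then
    (α (flipPt e y)).compContinuousLinearMap (fl e y (flipPt e y)) else 0

/-- The signed adjacency operator. -/
def ahat (Γ : Gl c P) (v : P → ℝ) (p : P) : ℝ := ∑ e, sg e * c.ε e * v (Γ.σ e p)

/-- Neighbours. -/
def Gl.Adj (Γ : Gl c P) (p q : P) : Prop := ∃ e, Γ.σ e p = q

/-- A function as a family of 0-forms. -/
def ofFn (w : Fn P) : Fam P 0 := fun p y => f0 (w p y)

open Classical in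
/-- Balls around a finite set of pieces. -/
def Gl.ball (Γ : Gl c P) (S : Finset P) : ℕ → Finset P
  | 0 => S
  | n + 1 => Γ.ball S n ∪ Finset.univ.biUnion fun e => (Γ.ball S n).image (Γ.σ e)

/-- The cut-off of the core of the piece p. -/
def cut (Γ : Gl c P) (n : ℕ) (p : P) : Fn P := fun q y =>
  Real.smoothTransition (n * (wt Γ (indicator {p} 1) q y - 1 / 2) - 1)

/-- Globally smooth, periodic, with bounded planar support. -/
structure Pf (F : Eu 3 → ℝ) : Prop where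
  smooth : ContDiff ℝ ∞ F
  per : ∀ y, F (y + per) = F y
  bd : ∃ R, ∀ y, F y ≠ 0 → |y 0| ≤ R ∧ |y 1| ≤ R

/-- One period of the whole space. -/
def Slab : Set (Eu 3) := {y | y 2 ∈ Ioo 0 (2 * Real.pi)}

/-- Primitive and total integral in the direction i. -/
def prim (i : Fin 3) (a : ℝ) (F : Eu 3 → ℝ) (y : Eu 3) : ℝ :=
  ∫ t in a..y i, F (Function.update y i t)
def tot (i : Fin 3) (a b : ℝ) (F : Eu 3 → ℝ) (y : Eu 3) : ℝ :=
  ∫ t in a..b, F (Function.update y i t)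

end

end Pool.Agent.Lib.MP_570070_gt.An
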