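import Pool.Agent.Lib.MP_570070_gt.An.UAlg
import Pool.Agent.Lib.MP_570070_gt.An.Ibp

open MeasureTheory Filter Topology Set
open scoped ContDiff InnerProductSpace

namespace Pool.Agent.Lib.MP_570070_gt.An

variable {c : Par} {P P' : Type} {Γ : Gl c P} {Γ' : Gl c P'} {k : ℕ} {F G : Fn P}

/-- integrableOn_cell with sc_ge_of_eta_ne. -/
theorem integrableOn_eta {f : Eu 3 → ℝ} (hf : ContinuousOn f (DR c)) :
    IntegrableOn (fun y => eta c y * f y * lam c y ^ 2) (Cell c) :=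
  integrableOn_cell ((contDiffOn_eta.continuousOn.mul hf).mul (contDiffOn_lam.continuousOn.pow 2))
    (a := -1 / 2) (by norm_num) fun _ hy h e =>
      sc_ge_of_eta_ne hy (left_ne_zero_of_mul (left_ne_zero_of_mul h)) e

theorem uint_congr {f g : Eu 3 → ℝ} (h : ∀ y ∈ DR c, f y = g y) :
    ∫ y in Cell c, eta c y * f y * lam c y ^ 2 = ∫ y in Cell c, eta c y * g y * lam c y ^ 2 :=
  setIntegral_congr_fun isOpen_Cell.measurableSet fun y hy => by simp only [h y hy.1]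

theorem uint_zero {f : Eu 3 → ℝ} (h : ¬ ∃ y ∈ DR c, f y ≠ 0) :
    ∫ y in Cell c, eta c y * f y * lam c y ^ 2 = 0 := by
  rw [uint_congr (g := fun _ => 0) fun y hy => by
    by_contra h0
    exact h ⟨y, hy, h0⟩]
  simp

theorem uint_nonneg {f : Eu 3 → ℝ} (h : ∀ y ∈ DR c, 0 ≤ f y) :
    0 ≤ ∫ y in Cell c, eta c y * f y * lam c y ^ 2 :=
  setIntegral_nonneg isOpen_Cell.measurableSet fun y hy =>
    mul_nonneg (mul_nonneg (eta_nonneg hy.1) (h y hy.1)) (sq_nonneg _)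

theorem uint_mono {f g : Eu 3 → ℝ} (hf : ContinuousOn f (DR c)) (hg : ContinuousOn g (DR c))
    (h : ∀ y ∈ DR c, f y ≤ g y) :
    ∫ y in Cell c, eta c y * f y * lam c y ^ 2 ≤ ∫ y in Cell c, eta c y * g y * lam c y ^ 2 :=
  setIntegral_mono_on (integrableOn_eta hf) (integrableOn_eta hg) isOpen_Cell.measurableSet
    fun y hy => mul_le_mul_of_nonneg_right
      (mul_le_mul_of_nonneg_left (h y hy.1) (eta_nonneg hy.1)) (sq_nonneg _)

theorem intF_eq_sum (S : Finset P) (hS : ∀ p, (∃ y ∈ DR c, F p y ≠ 0) → p ∈ S) :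
    intF c F = ∑ p ∈ S, ∫ y in Cell c, eta c y * F p y * lam c y ^ 2 :=
  finsum_eq_sum_of_support_subset _ fun p hp => hS p (by
    by_contra h
    exact hp (uint_zero h))

theorem intF_congr (h : ∀ p, ∀ y ∈ DR c, F p y = G p y) : intF c F = intF c G :=
  finsum_congr fun p => uint_congr (h p)

theorem IsC.add (hF : IsC c F) (hG : IsC c G) : IsC c fun p y => F p y + G p y := by
  refine ⟨fun p => (hF.cont p).add (hG.cont p), (hF.fin.union hG.fin).subset ?_⟩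
  rintro p ⟨y, hy, h⟩
  by_cases h0 : F p y = 0
  · exact Or.inr ⟨y, hy, fun h1 => h (by rw [h0, h1, add_zero])⟩
  · exact Or.inl ⟨y, hy, h0⟩
theorem IsC.const_mul (hF : IsC c F) (t : ℝ) : IsC c fun p y => t * F p y :=
  ⟨fun p => continuousOn_const.mul (hF.cont p),
    hF.fin.subset fun _ ⟨y, hy, h⟩ => ⟨y, hy, right_ne_zero_of_mul h⟩⟩
theorem IsC.mul (hF : IsC c F) (hG : ∀ p, ContinuousOn (G p) (DR c)) :
    IsC c fun p y => G p y * F p y :=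
  ⟨fun p => (hG p).mul (hF.cont p),
    hF.fin.subset fun _ ⟨y, hy, h⟩ => ⟨y, hy, right_ne_zero_of_mul h⟩⟩

theorem intF_add (hF : IsC c F) (hG : IsC c G) :
    intF c (fun p y => F p y + G p y) = intF c F + intF c G := by
  have hS := ((hF.add hG).fin.union hF.fin).union hG.fin
  rw [intF_eq_sum hS.toFinset fun p hp => hS.mem_toFinset.2 (Or.inl (Or.inl hp)),
    intF_eq_sum (F := F) hS.toFinset fun p hp => hS.mem_toFinset.2 (Or.inl (Or.inr hp)),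
    intF_eq_sum (F := G) hS.toFinset fun p hp => hS.mem_toFinset.2 (Or.inr hp),
    ← Finset.sum_add_distrib]
  refine Finset.sum_congr rfl fun p _ => ?_
  rw [← integral_add (integrableOn_eta (hF.cont p)) (integrableOn_eta (hG.cont p))]
  congr 1
  funext y
  ring
theorem intF_const_mul (hF : IsC c F) (t : ℝ) :
    intF c (fun p y => t * F p y) = t * intF c F := by
  rw [intF_eq_sum hF.fin.toFinset fun p ⟨y, hy, h⟩ =>
      hF.fin.mem_toFinset.2 ⟨y, hy, right_ne_zero_of_mul h⟩,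
    intF_eq_sum (F := F) hF.fin.toFinset fun p hp => hF.fin.mem_toFinset.2 hp, Finset.mul_sum]
  refine Finset.sum_congr rfl fun p _ => ?_
  rw [← integral_const_mul]
  congr 1
  funext y
  ring
theorem intF_mono (hF : IsC c F) (hG : IsC c G) (h : ∀ p, ∀ y ∈ DR c, F p y ≤ G p y) :
    intF c F ≤ intF c G := by
  have hS := hF.fin.union hG.fin
  rw [intF_eq_sum (F := F) hS.toFinset fun p hp => hS.mem_toFinset.2 (Or.inl hp),
    intF_eq_sum (F := G) hS.toFinset fun p hp => hS.mem_toFinset.2 (Or.inr hp)]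
  exact Finset.sum_le_sum fun p _ => uint_mono (hF.cont p) (hG.cont p) (h p)
theorem intF_nonneg (h : ∀ p, ∀ y ∈ DR c, 0 ≤ F p y) : 0 ≤ intF c F :=
  finsum_nonneg fun p => uint_nonneg (h p)

theorem intF_comp_le {F' : Fn P'} (hF : IsC c F') (hG : IsC c G) (f : P' → P)
    (h0 : ∀ p, ∀ y ∈ DR c, 0 ≤ G p y) (h : ∀ p, ∀ y ∈ DR c, F' p y ≤ G (f p) y)
    (hinj : ∀ p q, (∃ y ∈ DR c, F' p y ≠ 0) → (∃ y ∈ DR c, F' q y ≠ 0) → f p = f q → p = q) :
    intF c F' ≤ intF c G := by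
  classical
  rw [intF_eq_sum (F := F') hF.fin.toFinset fun p hp => hF.fin.mem_toFinset.2 hp,
    intF_eq_sum (F := G) (hF.fin.toFinset.image f ∪ hG.fin.toFinset) fun p hp =>
      Finset.mem_union_right _ (hG.fin.mem_toFinset.2 hp)]
  refine le_trans ?_ (Finset.sum_le_sum_of_subset_of_nonneg Finset.subset_union_left
    fun p _ _ => uint_nonneg (h0 p))
  rw [Finset.sum_image fun p hp q hq =>
    hinj p q (hF.fin.mem_toFinset.1 hp) (hF.fin.mem_toFinset.1 hq)]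
  exact Finset.sum_le_sum fun p _ => uint_mono (hF.cont p) (hG.cont _) (h p)

/-- f and f' are inverse bijections between the two supports, and G (f p) = F' p on DR. -/
theorem intF_bij {F' : Fn P'} (hF : IsC c F') (hG : IsC c G) (f : P' → P) (f' : P → P')
    (h : ∀ p, ∀ y ∈ DR c, F' p y ≠ 0 → f' (f p) = p ∧ G (f p) y = F' p y)
    (h' : ∀ p, ∀ y ∈ DR c, G p y ≠ 0 → f (f' p) = p ∧ F' (f' p) y = G p y) :
    intF c F' = intF c G := by
  rw [intF_eq_sum (F := F') hF.fin.toFinset fun p hp => hF.fin.mem_toFinset.2 hp,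
    intF_eq_sum (F := G) hG.fin.toFinset fun p hp => hG.fin.mem_toFinset.2 hp]
  refine Finset.sum_nbij' f f' (fun p hp => ?_) (fun p hp => ?_) (fun p hp => ?_) (fun p hp => ?_)
    fun p hp => ?_
  · obtain ⟨y, hy, h1⟩ := hF.fin.mem_toFinset.1 hp
    exact hG.fin.mem_toFinset.2 ⟨y, hy, by rwa [(h p y hy h1).2]⟩
  · obtain ⟨y, hy, h1⟩ := hG.fin.mem_toFinset.1 hp
    exact hF.fin.mem_toFinset.2 ⟨y, hy, by rwa [(h' p y hy h1).2]⟩
  · obtain ⟨y, hy, h1⟩ := hF.fin.mem_toFinset.1 hp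
    exact (h p y hy h1).1
  · obtain ⟨y, hy, h1⟩ := hG.fin.mem_toFinset.1 hp
    exact (h' p y hy h1).1
  · obtain ⟨y, hy, h1⟩ := hF.fin.mem_toFinset.1 hp
    refine uint_congr fun z hz => ?_
    by_cases h2 : F' p z = 0
    · by_contra h3
      have h4 := (h' (f p) z hz fun h4 => h3 (by rw [h2, h4])).2
      rw [(h p y hy h1).1] at h4
      exact h3 h4
    · exact (h p z hz h2).2.symm

variable {Ω Ω' : Fam P k}

theorem IsT.isC_ip (h : IsT Γ Ω) (h' : IsT Γ Ω') :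
    IsC c fun p y => ipUp c y (Ω p y) (Ω' p y) :=
  ⟨fun p => continuousOn_ipUp (h.smooth p).continuousOn (h'.smooth p).continuousOn,
    h.fin.subset fun p ⟨y, hy, h1⟩ => ⟨y, hy, fun h2 => h1 (by rw [h2, ipUp_zero_left])⟩⟩

theorem UpL2.inner_intF (U : UpL2 Γ) (h : IsT Γ Ω) (h' : IsT Γ Ω') :
    ⟪U.j k Ω, U.j k Ω'⟫_ℝ = intF c fun p y => ipUp c y (Ω p y) (Ω' p y) :=
  U.inner_eq k Ω Ω' h h'

theorem UpL2.norm_sq_intF (U : UpL2 Γ) (h : IsT Γ Ω) :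
    ‖U.j k Ω‖ ^ 2 = intF c fun p y => ipUp c y (Ω p y) (Ω p y) := by
  rw [← real_inner_self_eq_norm_sq, U.inner_intF h h]

/-- Induction over the dense set of test forms. -/
theorem UpL2.ind (U : UpL2 Γ) {q : U.H k → Prop} (hq : IsClosed {z | q z})
    (h : ∀ Ω, IsT Γ Ω → q (U.j k Ω)) (z : U.H k) : q z := by
  have h1 : closure (U.j k '' {Ω | IsT Γ Ω}) ⊆ {z | q z} :=
    closure_minimal (by rintro _ ⟨Ω, hΩ, rfl⟩; exact h Ω hΩ) hq
  exact h1 (U.dense k z)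

theorem UpL2.ind₂ (U : UpL2 Γ) (U' : UpL2 Γ') {l : ℕ} {q : U.H k → U'.H l → Prop}
    (hq : IsClosed {z : U.H k × U'.H l | q z.1 z.2})
    (h : ∀ Ω Ω', IsT Γ Ω → IsT Γ' Ω' → q (U.j k Ω) (U'.j l Ω')) (z : U.H k) (z' : U'.H l) :
    q z z' :=
  U.ind (q := fun z => q z z') (hq.preimage (f := fun z => (z, z')) (by fun_prop))
    (fun Ω hΩ => U'.ind (q := fun z' => q (U.j k Ω) z')
      (hq.preimage (f := fun z' => (U.j k Ω, z')) (by fun_prop)) (fun Ω' hΩ' => h Ω Ω' hΩ hΩ') z') z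

theorem UpL2.ext_inner (U : UpL2 Γ) {z z' : U.H k}
    (h : ∀ Ω, IsT Γ Ω → ⟪U.j k Ω, z⟫_ℝ = ⟪U.j k Ω, z'⟫_ℝ) : z = z' :=
  ext_inner_left ℝ (U.ind (q := fun w => ⟪w, z⟫_ℝ = ⟪w, z'⟫_ℝ)
    (isClosed_eq (by fun_prop) (by fun_prop)) h)

theorem UpL2.j_congr (U : UpL2 Γ) (h : IsT Γ Ω) (he : ∀ p, ∀ y ∈ DR c, Ω' p y = Ω p y) :
    U.j k Ω' = U.j k Ω :=
  U.ext_inner fun A hA => by
    rw [U.inner_intF hA (h.congr he), U.inner_intF hA h]
    exact intF_congr fun p y hy => by rw [he p y hy]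
theorem UpL2.j_add (U : UpL2 Γ) (h : IsT Γ Ω) (h' : IsT Γ Ω') :
    U.j k (Ω + Ω') = U.j k Ω + U.j k Ω' :=
  U.ext_inner fun A hA => by
    rw [inner_add_right, U.inner_intF hA (h.add h'), U.inner_intF hA h, U.inner_intF hA h',
      ← intF_add (hA.isC_ip h) (hA.isC_ip h')]
    exact intF_congr fun p y _ => ipUp_add_right _ _ _
theorem UpL2.j_smul (U : UpL2 Γ) (h : IsT Γ Ω) (t : ℝ) : U.j k (t • Ω) = t • U.j k Ω :=
  U.ext_inner fun A hA => by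
    rw [real_inner_smul_right, U.inner_intF hA (h.smul t), U.inner_intF hA h,
      ← intF_const_mul (hA.isC_ip h)]
    exact intF_congr fun p y _ => ipUp_smul_right _ _ _
theorem UpL2.j_zero (U : UpL2 Γ) : U.j k 0 = 0 := by
  have h := U.j_smul (k := k) IsT.zero 0
  rwa [zero_smul, zero_smul] at h
theorem UpL2.j_sub (U : UpL2 Γ) (h : IsT Γ Ω) (h' : IsT Γ Ω') :
    U.j k (Ω - Ω') = U.j k Ω - U.j k Ω' := by
  rw [eq_sub_iff_add_eq, ← U.j_add (h.sub h') h', sub_add_cancel]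
theorem UpL2.j_sum (U : UpL2 Γ) {ι : Type} (s : Finset ι) {A : ι → Fam P k}
    (h : ∀ i ∈ s, IsT Γ (A i)) : U.j k (∑ i ∈ s, A i) = ∑ i ∈ s, U.j k (A i) := by
  classical
  induction s using Finset.induction_on with
  | empty => rw [Finset.sum_empty, Finset.sum_empty, U.j_zero]
  | insert a s ha ih =>
    have h1 : ∀ i ∈ s, IsT Γ (A i) := fun i hi => h i (Finset.mem_insert_of_mem hi)
    rw [Finset.sum_insert ha, Finset.sum_insert ha,
      U.j_add (h a (Finset.mem_insert_self a s)) (IsT.sum s h1), ih h1]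

theorem uint_ext {E H H' : Type} [AddCommGroup E] [Module ℝ E] [NormedAddCommGroup H]
    [NormedSpace ℝ H] [NormedAddCommGroup H'] [NormedSpace ℝ H'] [CompleteSpace H'] {Q : E → Prop}
    {j : E → H} {g : E → H'} (h0 : Q 0) (h1 : ∀ x y, Q x → Q y → Q (x + y))
    (h2 : ∀ (t : ℝ) x, Q x → Q (t • x)) (j1 : ∀ x y, Q x → Q y → j (x + y) = j x + j y)
    (j2 : ∀ (t : ℝ) x, Q x → j (t • x) = t • j x) (g1 : ∀ x y, Q x → Q y → g (x + y) = g x + g y)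
    (g2 : ∀ (t : ℝ) x, Q x → g (t • x) = t • g x) (hd : Dense (j '' {x | Q x})) {B : ℝ}
    (hB : ∀ x, Q x → ‖g x‖ ^ 2 ≤ B * ‖j x‖ ^ 2) : ∃ M : H →L[ℝ] H', ∀ x, Q x → M (j x) = g x := by
  let T : Submodule ℝ E :=
    { carrier := {x | Q x}
      zero_mem' := h0
      add_mem' := fun h h' => h1 _ _ h h'
      smul_mem' := fun t _ h => h2 t _ h }
  let e : T →ₗ[ℝ] H :=
    { toFun := fun x => j x.1
      map_add' := fun x y => j1 _ _ x.2 y.2
      map_smul' := fun t x => j2 t _ x.2 }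
  let f : T →ₗ[ℝ] H' :=
    { toFun := fun x => g x.1
      map_add' := fun x y => g1 _ _ x.2 y.2
      map_smul' := fun t x => g2 t _ x.2 }
  have hd' : DenseRange e := hd.mono (by
    rintro _ ⟨A, hA, rfl⟩
    exact ⟨⟨A, hA⟩, rfl⟩)
  have hn : ∃ C, ∀ x, ‖f x‖ ≤ C * ‖e x‖ := ⟨√B, fun x => by
    have h3 := Real.le_sqrt_of_sq_le (hB x.1 x.2)
    rwa [Real.sqrt_mul' _ (sq_nonneg _), Real.sqrt_sq (norm_nonneg _)] at h3⟩
  exact ⟨f.extendOfNorm e, fun A hA => LinearMap.extendOfNorm_eq hd' hn ⟨A, hA⟩⟩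

/-- The test families form a submodule on which j and j ∘ Φ are linear maps;
LinearMap.extendOfNorm (or ContinuousLinearMap.extend). -/
theorem extOp_j (U : UpL2 Γ) (U' : UpL2 Γ') {l : ℕ} {Φ : Fam P k → Fam P' l}
    (hT : ∀ Ω, IsT Γ Ω → IsT Γ' (Φ Ω))
    (ha : ∀ Ω Ω', IsT Γ Ω → IsT Γ Ω' → ∀ p, ∀ y ∈ DR c, Φ (Ω + Ω') p y = Φ Ω p y + Φ Ω' p y)
    (hs : ∀ (t : ℝ) Ω, IsT Γ Ω → ∀ p, ∀ y ∈ DR c, Φ (t • Ω) p y = t • Φ Ω p y) {B : ℝ}
    (hB : ∀ Ω, IsT Γ Ω → ‖U'.j l (Φ Ω)‖ ^ 2 ≤ B * ‖U.j k Ω‖ ^ 2) (h : IsT Γ Ω) :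
    extOp U U' Φ (U.j k Ω) = U'.j l (Φ Ω) := by
  have hex : ∃ M : U.H k →L[ℝ] U'.H l, ∀ Ω, IsT Γ Ω → M (U.j k Ω) = U'.j l (Φ Ω) :=
    uint_ext (Q := IsT Γ) (j := U.j k) (g := fun Ω => U'.j l (Φ Ω)) IsT.zero
      (fun _ _ h h' => h.add h') (fun t _ h => h.smul t) (fun _ _ h h' => U.j_add h h')
      (fun t _ h => U.j_smul h t)
      (fun _ _ h h' => (U'.j_congr ((hT _ h).add (hT _ h')) (ha _ _ h h')).trans
        (U'.j_add (hT _ h) (hT _ h')))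
      (fun t _ h => (U'.j_congr ((hT _ h).smul t) (hs t _ h)).trans (U'.j_smul (hT _ h) t))
      (U.dense k) hB
  rw [extOp, dif_pos hex]
  exact hex.choose_spec Ω h

theorem UpL2.D_j (U : UpL2 Γ) (h : IsT Γ Ω) : U.D k (U.j k Ω) (U.j (k + 1) (dF Ω)) :=
  ⟨Ω, h, rfl, rfl⟩

theorem UpL2.test_iff (U : UpL2 Γ) {a : U.H k} :
    (∃ b, U.D k a b) ↔ ∃ Ω, IsT Γ Ω ∧ a = U.j k Ω :=
  ⟨fun ⟨_, A, hA, h, _⟩ => ⟨A, hA, h⟩, fun ⟨A, hA, h⟩ => ⟨_, A, hA, h, rfl⟩⟩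

theorem UpL2.dense_test (U : UpL2 Γ) (k : ℕ) : Dense {a : U.H k | ∃ b, U.D k a b} :=
  (U.dense k).mono (by
    rintro _ ⟨A, hA, rfl⟩
    exact ⟨_, U.D_j hA⟩)

theorem UpL2.four_eq_zero (U : UpL2 Γ) (z : U.H 4) : z = 0 :=
  U.ind (q := fun z => z = 0) (isClosed_eq continuous_id continuous_const) (fun A _ => by
    have h : A = 0 := funext fun p => funext fun y => alt_four_eq_zero _
    rw [h, U.j_zero]) z

theorem UpL2.dd (U : UpL2 Γ) {f : U.H 0} {b : U.H 1} (h : U.D 0 f b) : U.D 1 b 0 := by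
  obtain ⟨A, hA, rfl, rfl⟩ := h
  exact ⟨dF A, hA.dF, rfl,
    ((U.j_congr IsT.zero fun p y hy => hA.dF_dF p hy).trans U.j_zero).symm⟩

theorem UpL2.WD_of_D (U : UpL2 Γ) {a : U.H k} {b : U.H (k + 1)} (h : U.D k a b) :
    WD U.D k a b :=
  fun _ _ _ hc => (hc a b h).symm

end Pool.Agent.Lib.MP_570070_gt.An
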