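import Pool.Agent.Lib.MP_570070_gt.An.UOp

open MeasureTheory Filter Topology Set
open scoped ContDiff InnerProductSpace

namespace Pool.Agent.Lib.MP_570070_gt.An

variable {c : Par} {P P' : Type} {Γ : Gl c P} {Γ' : Gl c P'} {k : ℕ} {S S' : Set P} {w : Fn P}

/-- The forms on a union of cores as a closed subspace. -/
noncomputable def UpL2.onS (U : UpL2 Γ) (k : ℕ) (S : Set P) : Submodule ℝ (U.H k) :=
  (Submodule.span ℝ (U.j k '' {Ω | IsT Γ Ω ∧ SuppIn c S Ω})).topologicalClosure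

/-- The images of the test forms supported in the cores form a subspace. -/
def uonSub (U : UpL2 Γ) (k : ℕ) (S : Set P) : Submodule ℝ (U.H k) where
  carrier := U.j k '' {Ω | IsT Γ Ω ∧ SuppIn c S Ω}
  zero_mem' := ⟨0, ⟨IsT.zero, 1, one_pos, fun _ _ _ h => absurd rfl h⟩, U.j_zero⟩
  add_mem' := by
    rintro _ _ ⟨Ω, ⟨hT, δ, hδ, h⟩, rfl⟩ ⟨Ω', ⟨hT', δ', hδ', h'⟩, rfl⟩
    refine ⟨Ω + Ω', ⟨hT.add hT', min δ δ', lt_min hδ hδ', fun p y hy hne => ?_⟩, U.j_add hT hT'⟩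
    by_cases h0 : Ω p y = 0
    · have h1 : Ω' p y ≠ 0 := fun h1 => hne (by rw [Pi.add_apply, Pi.add_apply, h0, h1, add_zero])
      exact ⟨(min_le_right _ _).trans (h' p y hy h1).1, (h' p y hy h1).2⟩
    · exact ⟨(min_le_left _ _).trans (h p y hy h0).1, (h p y hy h0).2⟩
  smul_mem' := by
    rintro t _ ⟨Ω, ⟨hT, δ, hδ, h⟩, rfl⟩
    refine ⟨t • Ω, ⟨hT.smul t, δ, hδ, fun p y hy hne => h p y hy fun h0 => hne ?_⟩, U.j_smul hT t⟩
    rw [Pi.smul_apply, Pi.smul_apply, h0, smul_zero]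

/-- The set is already closed under sums and multiples (take the smaller δ). -/
theorem UpL2.coe_onS (U : UpL2 Γ) (k : ℕ) (S : Set P) :
    (U.onS k S : Set (U.H k)) = U.on k S := by
  change ((Submodule.span ℝ (uonSub U k S : Set (U.H k))).topologicalClosure : Set (U.H k)) = _
  rw [Submodule.span_eq, Submodule.topologicalClosure_coe]
  rfl

theorem UpL2.isClosed_on (U : UpL2 Γ) (k : ℕ) (S : Set P) : IsClosed (U.on k S) :=
  isClosed_closure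

instance UpL2.complete_onS (U : UpL2 Γ) (k : ℕ) (S : Set P) : CompleteSpace (U.onS k S) :=
  (Submodule.isClosed_topologicalClosure _).completeSpace_coe

theorem UpL2.on_mono (U : UpL2 Γ) (h : S ⊆ S') : U.on k S ⊆ U.on k S' := by
  refine closure_mono (image_mono ?_)
  rintro Ω ⟨hT, δ, hδ, h1⟩
  exact ⟨hT, δ, hδ, fun p y hy hne => ⟨(h1 p y hy hne).1, fun h2 => h ((h1 p y hy hne).2 h2)⟩⟩

theorem UpL2.ind_on (U : UpL2 Γ) {q : U.H k → Prop} (hq : IsClosed {z | q z})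
    (h : ∀ Ω, IsT Γ Ω → SuppIn c S Ω → q (U.j k Ω)) {z : U.H k} (hz : z ∈ U.on k S) : q z := by
  refine closure_minimal (t := {z | q z}) ?_ hq hz
  rintro _ ⟨Ω, ⟨hT, hS⟩, rfl⟩
  exact h Ω hT hS

/-- A point where the form is not zero is in the core of p ∈ S, or it is glued to a point y' in
the core of σ e p ∈ S (eta_lt_half, flip_flipPt, Flip.eta_eq, the flip rule at y). -/
theorem SuppIn.cases {Ω : Fam P k} (hT : IsT Γ Ω) (h : SuppIn c S Ω) {p : P} {y : Eu 3}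
    (hy : y ∈ DR c) (hne : Ω p y ≠ 0) : (p ∈ S ∧ 1 / 2 < eta c y) ∨
      ∃ e y', Flip e y y' ∧ Γ.σ e p ∈ S ∧ 1 / 2 < eta c y' := by
  obtain ⟨δ, hδ, H⟩ := h
  obtain ⟨h1, h2⟩ := H p y hy hne
  rcases lt_trichotomy (eta c y) (1 / 2) with h3 | h3 | h3
  · obtain ⟨e, he⟩ := (eta_lt_half hy).1 h3
    have hf := flip_flipPt hy (he.trans one_pos)
    have h4 : 1 / 2 < eta c (flipPt e y) := by
      rw [hf.eta_eq]
      linarith
    refine Or.inr ⟨e, _, hf, (H _ _ hf.2.1 fun h0 => hne ?_).2 h4, h4⟩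
    rw [hT.flip p e y _ hf, h0]
    rfl
  · rw [h3, sub_self, abs_zero] at h1
    exact absurd hδ h1.not_gt
  · exact Or.inl ⟨h2 h3, h3⟩

theorem uon_val (hw : IsFn Γ w) {Ω : Fam P k} (hT : IsT Γ Ω) (h : SuppIn c S Ω) {p : P}
    {y : Eu 3} (hy : y ∈ DR c) (hne : Ω p y ≠ 0) : ∃ q ∈ S, ∃ y' ∈ DR c, w p y = w q y' := by
  rcases h.cases hT hy hne with ⟨h1, -⟩ | ⟨e, y', hf, h1, -⟩
  · exact ⟨p, h1, y, hy, rfl⟩
  · exact ⟨_, h1, y', hf.2.1, hw.flip p e y y' hf⟩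

theorem UpL2.m_le_on (U : UpL2 Γ) (hw : IsFn Γ w) {t : ℝ}
    (h : ∀ p ∈ S, ∀ y ∈ DR c, w p y ≤ t) {z : U.H k} (hz : z ∈ U.on k S) :
    ⟪U.m w k z, z⟫_ℝ ≤ t * ‖z‖ ^ 2 := by
  refine U.ind_on (q := fun z => ⟪U.m w k z, z⟫_ℝ ≤ t * ‖z‖ ^ 2)
    (isClosed_le (by fun_prop) (by fun_prop)) (fun Ω hT hS => ?_) hz
  rw [U.m_j hw hT, U.inner_intF (hw.isT_smul hT) hT, U.norm_sq_intF hT,
    ← intF_const_mul (hT.isC_ip hT)]
  refine intF_mono ((hw.isT_smul hT).isC_ip hT) ((hT.isC_ip hT).const_mul t) fun p y hy => ?_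
  by_cases h0 : Ω p y = 0
  · rw [h0, ipUp_zero_right, ipUp_zero_right, mul_zero]
  · obtain ⟨q, hq, y', hy', h1⟩ := uon_val hw hT hS hy h0
    rw [ipUp_smul_left, h1]
    exact mul_le_mul_of_nonneg_right (h q hq y' hy') (ipUp_self_nonneg _)

theorem UpL2.m_eq_on (U : UpL2 Γ) (hw : IsFn Γ w) {t : ℝ}
    (h : ∀ p ∈ S, ∀ y ∈ DR c, w p y = t) {z : U.H k} (hz : z ∈ U.on k S) :
    U.m w k z = t • z := by
  refine U.ind_on (q := fun z => U.m w k z = t • z)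
    (isClosed_eq (by fun_prop) (by fun_prop)) (fun Ω hT hS => ?_) hz
  rw [U.m_j hw hT, ← U.j_smul hT]
  refine U.j_congr (hT.smul t) fun p y hy => ?_
  rw [Pi.smul_apply, Pi.smul_apply]
  by_cases h0 : Ω p y = 0
  · rw [h0, smul_zero, smul_zero]
  · obtain ⟨q, hq, y', hy', h1⟩ := uon_val hw hT hS hy h0
    rw [h1, h q hq y' hy']

theorem Tr.M_mem_on (τ : Tr Γ Γ') (U : UpL2 Γ) (U' : UpL2 Γ') {T : Set P'}
    (h : ∀ p, (∃ y ∈ DR c, τ.w p y ≠ 0) → τ.f p ∈ S → p ∈ T) {z : U.H k} (hz : z ∈ U.on k S) :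
    τ.M U U' k z ∈ U'.on k T := by
  refine U.ind_on (q := fun z => τ.M U U' k z ∈ U'.on k T)
    ((U'.isClosed_on k T).preimage (τ.M U U' k).continuous) (fun Ω hT hS => ?_) hz
  obtain ⟨δ, hδ, H⟩ := hS
  rw [τ.M_j U U' hT]
  refine subset_closure ⟨_, ⟨τ.isT_mul hT, δ, hδ, fun p y hy hne => ?_⟩, rfl⟩
  obtain ⟨h1, h2⟩ := smul_ne_zero_iff.1 hne
  exact ⟨(H _ y hy h2).1, fun h3 => h p ⟨y, hy, h1⟩ ((H _ y hy h2).2 h3)⟩

/-- Two such forms are never both non-zero at a point. -/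
theorem UpL2.on_orth (U : UpL2 Γ) (h : Disjoint S S') {z z' : U.H k} (hz : z ∈ U.on k S)
    (hz' : z' ∈ U.on k S') : ⟪z, z'⟫_ℝ = 0 := by
  refine U.ind_on (q := fun z => ⟪z, z'⟫_ℝ = 0)
    (isClosed_eq (by fun_prop) continuous_const) (fun Ω hT hS => ?_) hz
  refine U.ind_on (q := fun z' => ⟪U.j k Ω, z'⟫_ℝ = 0)
    (isClosed_eq (by fun_prop) continuous_const) (fun Ω' hT' hS' => ?_) hz'
  rw [U.inner_intF hT hT', intF_congr (G := fun _ _ => 0)]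
  · simp [intF]
  intro p y hy
  by_contra hne
  have h1 : Ω p y ≠ 0 := fun h0 => hne (by rw [h0, ipUp_zero_left])
  have h2 : Ω' p y ≠ 0 := fun h0 => hne (by rw [h0, ipUp_zero_right])
  rcases hS.cases hT hy h1 with ⟨a1, a2⟩ | ⟨e, y₁, a1, a2, a3⟩ <;>
    rcases hS'.cases hT' hy h2 with ⟨b1, b2⟩ | ⟨e', y₂, b1, b2, b3⟩
  · exact disjoint_left.1 h a1 b1
  · linarith [b1.eta_eq]
  · linarith [a1.eta_eq]
  · obtain rfl := a1.edge_eq b1
    exact disjoint_left.1 h a2 b2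

/-- δ = 1 / n: wt_single_self, wt_single_le; for n = 0 the cut-off is zero. -/
theorem UpL2.m_cut_mem (U : UpL2 Γ) (n : ℕ) (p : P) (z : U.H k) :
    U.m (cut Γ n p) k z ∈ U.on k {p} := by
  refine U.ind (q := fun z => U.m (cut Γ n p) k z ∈ U.on k {p})
    ((U.isClosed_on k {p}).preimage (U.m (cut Γ n p) k).continuous) (fun Ω hT => ?_) z
  rw [U.m_j (isFn_cut n p) hT]
  have hn : (0 : ℝ) ≤ n := Nat.cast_nonneg n
  refine subset_closure ⟨_, ⟨(isFn_cut n p).isT_smul hT, 1 / (n + 1), by positivity,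
    fun q y hy hne => ?_⟩, rfl⟩
  have h1 : 0 < n * (wt Γ (indicator {p} 1) q y - 1 / 2) - 1 :=
    not_le.1 fun h => (smul_ne_zero_iff.1 hne).1 (Real.smoothTransition.zero_of_nonpos h)
  have h2 : 0 < wt Γ (indicator {p} 1) q y - 1 / 2 := by
    by_contra h
    linarith [mul_nonpos_of_nonneg_of_nonpos hn (not_lt.1 h)]
  have h3 : 1 / (n + 1) ≤ wt Γ (indicator {p} 1) q y - 1 / 2 := by
    rw [div_le_iff₀ (by positivity)]
    linarith
  by_cases hq : q = p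
  · rw [hq, wt_single_self] at h3
    exact ⟨h3.trans (le_abs_self _), fun _ => hq⟩
  · have h4 := wt_single_le (Γ := Γ) hq hy
    exact ⟨le_abs.2 (Or.inr (by linarith)), fun h5 => absurd h5 (by linarith)⟩

end Pool.Agent.Lib.MP_570070_gt.An
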